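import Pool.Agent.H41.KA.AD8

/-!
KAC ADE, module AD9: the Frobenius congruence for terms.
-/

set_option autoImplicit false

namespace Pool.Agent.H27.KAC

open scoped BigOperators
open MvPowerSeries

section

variable {I : Type} [Fintype I] [DecidableEq I]

/-- all data of the term are `p`-integral. -/
structure TPI (p : ℕ) (T : Trm I) : Prop where
  γ : ∀ i, PI p (T.γ i)
  E : ∀ ik, PI p (T.E ik)
  Λ : ∀ j ik, PI p (T.Λ j ik)

theorem AD9_large {ι : Type} (s : Finset ι) (f : ι → ℚ) :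
    ∃ N : ℕ, ∀ p : ℕ, N ≤ p → ∀ i ∈ s, PI p (f i) := by
  classical
  induction s using Finset.induction_on with
  | empty => exact ⟨0, fun p _ i hi => absurd hi (Finset.notMem_empty i)⟩
  | insert j s hj ih =>
    obtain ⟨N, hN⟩ := ih
    obtain ⟨M, hM⟩ := PI_of_large (f j)
    refine ⟨max N M, fun p hp i hi => ?_⟩
    rcases Finset.mem_insert.1 hi with h | h
    · rw [h]
      exact hM p ((le_max_right N M).trans hp)
    · exact hN p ((le_max_left N M).trans hp) i h

omit [Fintype I] [DecidableEq I] in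
theorem AD9_large_QE (E : QE I) : ∃ N : ℕ, ∀ p : ℕ, N ≤ p → ∀ ik, PI p (E ik) := by
  obtain ⟨N, hN⟩ := AD9_large E.support (fun ik => E ik)
  obtain ⟨M, hM⟩ := PI_of_large 0
  refine ⟨max N M, fun p hp ik => ?_⟩
  by_cases h : ik ∈ E.support
  · exact hN p ((le_max_left N M).trans hp) ik h
  · rw [Finsupp.notMem_support_iff.1 h]
    exact hM p ((le_max_right N M).trans hp)

theorem AD9_large_fam {ι : Type} (s : Finset ι) (P : ι → ℕ → Prop)
    (h : ∀ i ∈ s, ∃ N : ℕ, ∀ p : ℕ, N ≤ p → P i p) :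
    ∃ N : ℕ, ∀ p : ℕ, N ≤ p → ∀ i ∈ s, P i p := by
  classical
  induction s using Finset.induction_on with
  | empty => exact ⟨0, fun p _ i hi => absurd hi (Finset.notMem_empty i)⟩
  | insert j s hj ih =>
    obtain ⟨N, hN⟩ := ih (fun i hi => h i (Finset.mem_insert_of_mem hi))
    obtain ⟨M, hM⟩ := h j (Finset.mem_insert_self j s)
    refine ⟨max N M, fun p hp i hi => ?_⟩
    rcases Finset.mem_insert.1 hi with h' | h'
    · rw [h']
      exact hM p ((le_max_right N M).trans hp)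
    · exact hN p ((le_max_left N M).trans hp) i h'

theorem TPI_of_large (T : Trm I) : ∃ N : ℕ, ∀ p : ℕ, N ≤ p → TPI p T := by
  obtain ⟨N1, h1⟩ := AD9_large Finset.univ T.γ
  obtain ⟨N2, h2⟩ := AD9_large_QE T.E
  obtain ⟨N3, h3⟩ := AD9_large_fam (Finset.univ : Finset I)
    (fun j p => ∀ ik, PI p (T.Λ j ik)) (fun j _ => AD9_large_QE (T.Λ j))
  refine ⟨max N1 (max N2 N3), fun p hp => ⟨fun i => ?_, ?_, fun j => ?_⟩⟩
  · exact h1 p ((le_max_left _ _).trans hp) i (Finset.mem_univ i)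
  · exact h2 p (((le_max_left _ _).trans (le_max_right _ _)).trans hp)
  · exact h3 p (((le_max_right _ _).trans (le_max_right _ _)).trans hp) j (Finset.mem_univ j)

theorem AD9_TV_ok (a : I → I → ℕ) (T : Trm I) (h : TOk a T) : TV a T = TV0 a T := by
  unfold TV
  exact if_pos h

theorem AD9_TV_not (a : I → I → ℕ) (T : Trm I) (h : ¬ TOk a T) : TV a T = 0 := by
  unfold TV
  exact if_neg h

theorem PI_TV {p : ℕ} (hp : p.Prime) (a : I → I → ℕ) (T : Trm I) (h : TPI p T) :
    PI p (TV a T) := by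
  by_cases hT : TOk a T
  · rw [AD9_TV_ok a T hT]
    unfold TV0
    exact CInt_mul hp (CInt_mU hp a T.E h.E) (CInt_det hp a T.Λ h.Λ) (gN T.γ)
  · rw [AD9_TV_not a T hT]
    exact_mod_cast PI_int hp 0

/-- a `p`-integral number `q` with `p q` a natural number is a natural number. -/
theorem AD9_nat_of_mul {p : ℕ} (hp : p.Prime) (q : ℚ) (hq : PI p q)
    (h : ((⌊(p : ℚ) * q⌋₊ : ℕ) : ℚ) = (p : ℚ) * q) : ((⌊q⌋₊ : ℕ) : ℚ) = q := by
  set n : ℕ := ⌊(p : ℚ) * q⌋₊ with hn
  have hp0 : (p : ℚ) ≠ 0 := Nat.cast_ne_zero.2 hp.ne_zero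
  have hden : (q.den : ℚ) ≠ 0 := Nat.cast_ne_zero.2 q.den_ne_zero
  have hqe : q * (q.den : ℚ) = (q.num : ℚ) := Rat.mul_den_eq_num q
  have h1 : ((n * q.den : ℕ) : ℚ) = ((p * q.num : ℤ) : ℚ) := by
    push_cast
    rw [h, mul_assoc, hqe]
  have h2 : ((n * q.den : ℕ) : ℤ) = (p : ℤ) * q.num := by exact_mod_cast h1
  have h3 : (p : ℤ) ∣ ((n * q.den : ℕ) : ℤ) := ⟨q.num, h2⟩
  have h4 : p ∣ n * q.den := by exact_mod_cast h3
  rcases (hp.dvd_mul).1 h4 with h5 | h5
  · obtain ⟨m, hm⟩ := h5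
    have h6 : q = (m : ℚ) := by
      have h7 : (p : ℚ) * q = (p : ℚ) * (m : ℚ) := by
        rw [← h, hm]
        push_cast
        ring
      exact mul_left_cancel₀ hp0 h7
    rw [h6, Nat.floor_natCast]
  · exact absurd h5 hq

theorem AD9_TOk_pow {p : ℕ} (hp : p.Prime) (a : I → I → ℕ) (T : Trm I) (h : TPI p T) :
    TOk a (T.pow p) ↔ TOk a T := by
  have hp0 : (p : ℚ) ≠ 0 := Nat.cast_ne_zero.2 hp.ne_zero
  unfold TOk Trm.pow
  constructor
  · rintro ⟨h1, h2⟩
    refine ⟨fun i => AD9_nat_of_mul hp (T.γ i) (h.γ i) (h1 i), fun i => ?_⟩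
    have h3 := h2 i
    simp only [] at h3
    rw [tdg_smul, cq_smul] at h3
    exact mul_left_cancel₀ hp0 h3
  · rintro ⟨h1, h2⟩
    refine ⟨fun i => ?_, fun i => ?_⟩
    · have h4 : (p : ℚ) * T.γ i = ((p * ⌊T.γ i⌋₊ : ℕ) : ℚ) := by
        push_cast
        rw [h1 i]
      simp only []
      rw [h4, Nat.floor_natCast]
    · simp only []
      rw [tdg_smul, cq_smul, h2 i]

omit [DecidableEq I] in
theorem AD9_gN_pow (p : ℕ) (γ : I → ℚ) (h : ∀ i, ((⌊γ i⌋₊ : ℕ) : ℚ) = γ i) :
    gN (fun i => (p : ℚ) * γ i) = p • gN γ := by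
  ext i
  have h4 : (p : ℚ) * γ i = ((p * ⌊γ i⌋₊ : ℕ) : ℚ) := by
    push_cast
    rw [h i]
  change ⌊(p : ℚ) * γ i⌋₊ = p * ⌊γ i⌋₊
  rw [h4, Nat.floor_natCast]

/-- `F^p D` at `p g` and `F D` at `g`. -/
theorem AD9_coeff {p : ℕ} (hp : p.Prime) (F D : MvPowerSeries I ℚ) (hF : CInt p F) (hD : CInt p D)
    (hC : ∀ g : I →₀ ℕ, PD p (coeff (p • g) D - coeff g D)) (g : I →₀ ℕ) :
    PD p (coeff (p • g) (F ^ p * D) - coeff g (F * D)) := by
  classical
  have hFp : CInt p (F ^ p) := by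
    have h : ∀ n : ℕ, CInt p (F ^ n) := by
      intro n
      induction n with
      | zero =>
        intro β
        rw [pow_zero, MvPowerSeries.coeff_one]
        split_ifs
        · exact_mod_cast PI_int hp 1
        · exact_mod_cast PI_int hp 0
      | succ n ih =>
        rw [pow_succ]
        exact CInt_mul hp ih hF
    exact h p
  rw [MvPowerSeries.coeff_mul, MvPowerSeries.coeff_mul]
  have hinj : Set.InjOn (fun uv : (I →₀ ℕ) × (I →₀ ℕ) => (p • uv.1, p • uv.2))
      (Finset.HasAntidiagonal.antidiagonal g : Set ((I →₀ ℕ) × (I →₀ ℕ))) := by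
    intro x _ y _ hxy
    simp only [Prod.mk.injEq] at hxy
    refine Prod.ext ?_ ?_
    · ext i
      have := DFunLike.congr_fun hxy.1 i
      simp only [Finsupp.smul_apply, smul_eq_mul] at this
      exact Nat.eq_of_mul_eq_mul_left hp.pos this
    · ext i
      have := DFunLike.congr_fun hxy.2 i
      simp only [Finsupp.smul_apply, smul_eq_mul] at this
      exact Nat.eq_of_mul_eq_mul_left hp.pos this
  set S : Finset ((I →₀ ℕ) × (I →₀ ℕ)) :=
    (Finset.HasAntidiagonal.antidiagonal g).image (fun uv => (p • uv.1, p • uv.2)) with hS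
  have hsub : S ⊆ Finset.HasAntidiagonal.antidiagonal (p • g) := by
    intro uv huv
    obtain ⟨x, hx, rfl⟩ := Finset.mem_image.1 huv
    rw [Finset.HasAntidiagonal.mem_antidiagonal] at hx ⊢
    simp only []
    rw [← smul_add, hx]
  rw [← Finset.sum_sdiff hsub, hS, Finset.sum_image hinj, add_sub_assoc, ← Finset.sum_sub_distrib]
  refine PD_add hp (PD_sum hp _ _ ?_) (PD_sum hp _ _ ?_)
  · rintro ⟨u, v⟩ huv
    rw [Finset.mem_sdiff, Finset.HasAntidiagonal.mem_antidiagonal] at huv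
    have hu : ¬ ∃ β' : I →₀ ℕ, u = p • β' := by
      rintro ⟨β, hβ⟩
      apply huv.2
      rw [Finset.mem_image]
      have huv1 : u + v = p • g := huv.1
      have hle : ∀ i, β i ≤ g i := by
        intro i
        have h1 := DFunLike.congr_fun huv1 i
        simp only [Finsupp.add_apply, Finsupp.smul_apply, smul_eq_mul, hβ] at h1
        have h2 : p * β i ≤ p * g i := by omega
        exact Nat.le_of_mul_le_mul_left h2 hp.pos
      refine ⟨(β, g - β), ?_, ?_⟩
      · rw [Finset.HasAntidiagonal.mem_antidiagonal]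
        ext i
        simp only [Finsupp.add_apply, Finsupp.tsub_apply]
        have := hle i
        omega
      · simp only [Prod.mk.injEq]
        refine ⟨hβ.symm, ?_⟩
        ext i
        have h1 := DFunLike.congr_fun huv1 i
        simp only [Finsupp.add_apply, Finsupp.smul_apply, smul_eq_mul, hβ, Finsupp.tsub_apply] at h1 ⊢
        rw [Nat.mul_sub]
        omega
    have h1 := coeff_pow_prime_of_not hp F hF u hu
    simp only []
    rw [mul_comm]
    exact PD_mul hp h1 (hD v)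
  · rintro ⟨u, v⟩ _
    simp only []
    have e : coeff (p • u) (F ^ p) * coeff (p • v) D - coeff u F * coeff v D =
        coeff (p • v) D * (coeff (p • u) (F ^ p) - coeff u F) +
          coeff u F * (coeff (p • v) D - coeff v D) := by ring
    rw [e]
    exact PD_add hp (PD_mul hp (coeff_pow_prime hp F hF u) (hD _)) (PD_mul hp (hC v) (hF _))

/-- Frobenius: `CT[F^p ∧ dlog] ≡ CT[F ∧ dlog]`. -/
theorem TV_frob {p : ℕ} (hp : p.Prime) (a : I → I → ℕ) (hs : ∀ i j, a i j = a j i) (T : Trm I)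
    (h : TPI p T) : PD p (TV a (T.pow p) - TV a T) := by
  by_cases hT : TOk a T
  · have hT' : TOk a (T.pow p) := (AD9_TOk_pow hp a T h).2 hT
    rw [AD9_TV_ok a T hT, AD9_TV_ok a _ hT']
    unfold TV0 Trm.pow
    simp only []
    rw [AD9_gN_pow p T.γ hT.1, mU_smul, rpw_nat _ (mU_const a T.E)]
    exact AD9_coeff hp _ _ (CInt_mU hp a T.E h.E) (CInt_det hp a T.Λ h.Λ)
      (det_cartier hp a hs T.Λ h.Λ) (gN T.γ)
  · have hT' : ¬ TOk a (T.pow p) := fun h' => hT ((AD9_TOk_pow hp a T h).1 h')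
    rw [AD9_TV_not a T hT, AD9_TV_not a _ hT', sub_zero]
    exact PD_zero hp

/-- if the powers `T^p` have value zero for infinitely many primes `p`, then `T` has value zero. -/
theorem TV_eq_zero_of_pow (a : I → I → ℕ) (hs : ∀ i j, a i j = a j i) (T : Trm I)
    (h : ∃ (d N : ℕ), 1 ≤ d ∧ ∀ p : ℕ, N ≤ p → p.Prime → p % d = 1 % d → TV a (T.pow p) = 0) :
    TV a T = 0 := by
  obtain ⟨d, N, hd, hN⟩ := h
  obtain ⟨M, hM⟩ := TPI_of_large T
  refine eq_zero_of_PD_mod (TV a T) d hd ⟨max N M, fun p hp hpp hpd => ?_⟩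
  have h1 := TV_frob hpp a hs T (hM p ((le_max_right _ _).trans hp))
  rw [hN p ((le_max_left _ _).trans hp) hpp hpd, zero_sub] at h1
  have h2 := PD_neg h1
  rwa [neg_neg] at h2

/-- comparison of two terms by their large prime powers. -/
theorem TV_eq_of_pow (a : I → I → ℕ) (hs : ∀ i j, a i j = a j i) (T T' : Trm I) (c : ℚ)
    (h : ∃ (d N : ℕ), 1 ≤ d ∧ ∀ p : ℕ, N ≤ p → p.Prime → p % d = 1 % d →
      TV a (T.pow p) = c * TV a (T'.pow p)) :
    TV a T = c * TV a T' := by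
  obtain ⟨d, N, hd, hN⟩ := h
  obtain ⟨M, hM⟩ := TPI_of_large T
  obtain ⟨M', hM'⟩ := TPI_of_large T'
  obtain ⟨K, hK⟩ := PI_of_large c
  have h0 : TV a T - c * TV a T' = 0 := by
    refine eq_zero_of_PD_mod _ d hd ⟨max (max N K) (max M M'), fun p hp hpp hpd => ?_⟩
    have hpN : N ≤ p := ((le_max_left _ _).trans (le_max_left _ _)).trans hp
    have hpK : K ≤ p := ((le_max_right _ _).trans (le_max_left _ _)).trans hp
    have hpM : M ≤ p := ((le_max_left _ _).trans (le_max_right _ _)).trans hp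
    have hpM' : M' ≤ p := ((le_max_right _ _).trans (le_max_right _ _)).trans hp
    have h1 := TV_frob hpp a hs T (hM p hpM)
    have h2 := TV_frob hpp a hs T' (hM' p hpM')
    have h3 := hN p hpN hpp hpd
    have e : TV a T - c * TV a T' =
        -(TV a (T.pow p) - TV a T) + c * (TV a (T'.pow p) - TV a T') := by
      rw [h3]
      ring
    rw [e]
    exact PD_add hpp (PD_neg h1) (PD_mul hpp h2 (hK p hpK))
  linarith

end

end Pool.Agent.H27.KAC
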