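import Pool.Agent.H41.KA.AE0

/-!
KAC, ADE clusters: crossing data, patterns, windows, response families (definitions).
-/

set_option autoImplicit false

namespace Pool.Agent.H27.KAC

open scoped BigOperators

section

variable {I : Type} [Fintype I] [DecidableEq I]

/-- Crossing data: `mm A` = length of the zero run plus one (Coxeter number), `eps A q = ±1`. -/
structure CrossData (a : I → I → ℕ) where
  mm : Finset I → ℕ
  eps : Finset I → (I → ℚ) → ℚ
  two_le : ∀ A, 2 ≤ mm A
  eps_sq : ∀ A q, eps A q = 1 ∨ eps A q = -1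
  eps_congr : ∀ A q q', (∀ x ∈ A, IsZ (q x - q' x)) → eps A q = eps A q'
  integral : ∀ A q, FinT a A → ConnS a A → (∀ x ∈ A, IsZ (cqN a A q x)) → ∀ x ∈ A, IsZ (mm A * q x)
  rv : ∀ A, FinT a A → ConnS a A → ∀ (s : ℕ) (q : I → ℚ), QOk a A q → ∀ T : Trm I, RReg A T →
    ∀ y ∈ A, ∀ l, s + 1 ≤ l → l + 1 ≤ s + mm A → 1 ≤ T.E (y, l) → TV a (tauT a A s q T) = 0
  cr : ∀ A, FinT a A → ConnS a A → ∀ (k : ℕ) (q : I → ℚ), QOk a A q → ∀ T : Trm I, RReg A T →
    mm A ≤ k → TV a (upT a A k q T) = eps A q * TV a (tauT a A (k - mm A) q T)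
  cr0 : ∀ A, FinT a A → ConnS a A → ∀ (k : ℕ) (q : I → ℚ), QOk a A q → ∀ T : Trm I, RReg A T →
    1 ≤ k → k < mm A → TV a (upT a A k q T) = 0

/-- a pattern: a level and an insertion exponent for every vertex. -/
@[ext]
structure Pat (I : Type) where
  s : I → ℕ
  q : I → ℚ

/-- the pattern `π` on `B`: insertion `∏ η_{x,s_x}^{-q_x}`, columns `(x, s_x + 1)`, `x ∈ B`. -/
noncomputable def patT (a : I → I → ℕ) (B : Finset I) (π : Pat I) (T : Trm I) : Trm I :=
  (T.etaM a π.s (fun i => -resQ B π.q i)).cols B (fun x => sy x (π.s x + 1))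

/-- formal linear combinations of patterns. -/
abbrev FFn (I : Type) := List (ℚ × Pat I)

/-- value of a formal functional on `B`. -/
noncomputable def evF (a : I → I → ℕ) (B : Finset I) (Φ : FFn I) (T : Trm I) : ℚ :=
  (Φ.map (fun c => c.1 * TV a (patT a B c.2 T))).sum

/-- scalar multiple. -/
def smF (r : ℚ) (Φ : FFn I) : FFn I := Φ.map (fun c => (r * c.1, c.2))

/-- joint value of several formal functionals on disjoint sets. -/
noncomputable def evU (a : I → I → ℕ) : List (Finset I × FFn I) → Trm I → ℚ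
  | [], T => TV a T
  | b :: U, T => (b.2.map (fun c => c.1 * evU a U (patT a b.1 c.2 T))).sum

/-- gluing of two patterns: the first one on `B`, the second one elsewhere. -/
def glue (B : Finset I) (π π' : Pat I) : Pat I :=
  ⟨fun i => if i ∈ B then π.s i else π'.s i, fun i => if i ∈ B then π.q i else π'.q i⟩

/-- product of formal functionals (the first one lives on `B`). -/
def mulF (B : Finset I) (Φ Ψ : FFn I) : FFn I :=
  Φ.flatMap (fun c => Ψ.map (fun d => (c.1 * d.1, glue B c.2 d.2)))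

/-- product over a list of blocks. -/
def prodF : List (Finset I × FFn I) → FFn I
  | [] => [(1, ⟨fun _ => 0, fun _ => 0⟩)]
  | b :: U => mulF b.1 b.2 (prodF U)

/-- the union of the blocks. -/
def uni (U : List (Finset I × FFn I)) : Finset I := U.foldr (fun b S => b.1 ∪ S) ∅

/-- the vertices of `B` with insertion. -/
def insS (B : Finset I) (π : Pat I) : Finset I := B.filter (fun x => π.q x ≠ 0)

/-- basic validity of a pattern: on the components of the insertion set the level is constant and the insertion is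
admissible. -/
structure PatOk (a : I → I → ℕ) (B : Finset I) (π : Pat I) : Prop where
  qok : ∀ A ∈ comps a (insS B π), QOk a A π.q
  lev : ∀ A ∈ comps a (insS B π), ∀ x ∈ A, ∀ y ∈ A, π.s x = π.s y

/-- wide window at the frontier `f`: `s ≤ f ≤ s + m`. -/
structure PatWide (a : I → I → ℕ) (cd : CrossData a) (B : Finset I) (f : ℕ) (π : Pat I) : Prop
    extends PatOk a B π where
  le : ∀ A ∈ comps a (insS B π), ∀ x ∈ A, π.s x ≤ f
  ge : ∀ A ∈ comps a (insS B π), ∀ x ∈ A, f ≤ π.s x + cd.mm A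

/-- a pattern of a functional family of class `q` at the frontier `f`. -/
structure WinPat (a : I → I → ℕ) (cd : CrossData a) (B : Finset I) (q : I → ℚ) (f : ℕ)
    (π : Pat I) : Prop extends PatOk a B π where
  le : ∀ A ∈ comps a (insS B π), ∀ x ∈ A, π.s x ≤ f
  ge : ∀ A ∈ comps a (insS B π), ∀ x ∈ A, f < π.s x + cd.mm A
  sle : ∀ x ∈ B, π.q x = 0 → π.s x ≤ f
  sge : ∀ x ∈ B, π.q x = 0 → f < π.s x + 2
  cls : ∀ x ∈ B, IsZ (π.q x - q x)

/-- A response family on `B` (class `q`, weights `w`, frontiers `0 ≤ f ≤ K`). -/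
structure Resp (a : I → I → ℕ) (cd : CrossData a) (B : Finset I) (q : I → ℚ) (K : ℕ)
    (w : ℕ → ℚ) (Φ : ℕ → FFn I) : Prop where
  win : ∀ f, f ≤ K → ∀ c ∈ Φ f, WinPat a cd B q f c.2
  a0 : ∀ T : Trm I, RReg B T → evF a B (Φ 0) T = w 0 * TV a (tauT a B 0 q T)
  stp : ∀ f, 1 ≤ f → f ≤ K → ∀ T : Trm I, RReg B T →
    evF a B (Φ f) T - evF a B (Φ (f - 1)) T = w f * Rv a B f q T
  knk : ∀ f, 1 ≤ f → f ≤ K → ∀ T : Trm I, RReg B T → Kink B f T →
    evF a B (Φ f) T = w f * TV a (tauT a B f q T)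

/-- affine functions of the level. -/
def Aff (u : ℕ → ℚ) : Prop := ∃ α κ : ℚ, ∀ l : ℕ, u l = α + κ * l

/-- the family of a single vertex with affine weight `u`: at the frontier `f` the column is
`u f (x, f+1) - u (f+1) (x, f)`. -/
def alU (u : ℕ → ℚ) (f : ℕ) : FFn I :=
  if f = 0 then [(u 0, ⟨fun _ => 0, fun _ => 0⟩)]
  else [(u f, ⟨fun _ => f, fun _ => 0⟩), (-u (f + 1), ⟨fun _ => f - 1, fun _ => 0⟩)]

/-- `FReg` ignoring the columns of the vertices in `S` (they will be replaced). -/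
structure FRegI (S : Finset I) (T : Trm I) (x : I) (k σ : ℕ) : Prop where
  nat : ∀ l, 1 ≤ l → l ≠ k → IsN (T.E (x, l))
  int : IsZ (T.E (x, k))
  col : ∀ j, j ∉ S → ∀ l, 1 ≤ l → T.Λ j (x, l) ≠ 0 → l = σ ∨ l = k ∨ 1 ≤ T.E (x, l)

/-- two sets of vertices are disjoint and not adjacent. -/
def Sep (a : I → I → ℕ) (A B : Finset I) : Prop := Disjoint A B ∧ ∀ x ∈ A, ∀ y ∈ B, a x y = 0

/-- block data for the conversion lemma: vertex set, formal functional, weight, class, side
(`up = true`: state one level below, converts to `(-1)^|B| Up_f`; `up = false`: converts to `tau_{f+1}`). -/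
structure Blk (I : Type) where
  B : Finset I
  Φ : FFn I
  w : ℚ
  q : I → ℚ
  up : Bool

/-- the side level of a block at the frontier `f`. -/
def Blk.sd (f : ℕ) (b : Blk I) : ℕ := if b.up then f - 1 else f + 1

/-- the coefficient of a block. -/
def Blk.cf (b : Blk I) : ℚ := (if b.up then (-1 : ℚ) ^ b.B.card else 1) * b.w

/-- the explicit term of a list of blocks at the frontier `f`. -/
noncomputable def expl (a : I → I → ℕ) (f : ℕ) : List (Blk I) → Trm I → Trm I
  | [], T => T
  | b :: L, T => blkT a b.B f (b.sd f) b.q (expl a f L T)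

/-- the union of the vertex sets. -/
def uniB (L : List (Blk I)) : Finset I := L.foldr (fun b S => b.B ∪ S) ∅

/-- validity of a block at the frontier `f`. -/
structure BlkOk (a : I → I → ℕ) (cd : CrossData a) (f : ℕ) (b : Blk I) : Prop where
  fin : FinT a b.B
  conn : ConnS a b.B
  qok : QOk a b.B b.q
  wide : ∀ c ∈ b.Φ, PatWide a cd b.B f c.2
  cls : ∀ c ∈ b.Φ, ∀ x ∈ b.B, IsZ (c.2.q x - b.q x)
  knk : ∀ T : Trm I, RReg b.B T → Kink b.B f T →
    evF a b.B b.Φ T = b.cf * TV a (blkT a b.B f (b.sd f) b.q T)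

/-- block with a response family. -/
structure RB (I : Type) where
  B : Finset I
  w : ℕ → ℚ
  Φ : ℕ → FFn I

/-- the union of the vertex sets. -/
def uniR (L : List (RB I)) : Finset I := L.foldr (fun b S => b.B ∪ S) ∅

open Classical in
/-- determinant of the effective Cartan matrix on `M` after elimination of `N`. -/
noncomputable def detEff (a : I → I → ℕ) (N M : Finset I) : ℚ :=
  (Matrix.of (fun (i j : {x // x ∈ M}) =>
    (cart a i.1 j.1 : ℚ) - ∑ y ∈ N, (a i.1 y : ℚ) * solN a N (fun l => (a l j.1 : ℚ)) y)).det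

open Classical in
/-- the response numbers with fuel. -/
noncomputable def cnA (a : I → I → ℕ) (cd : CrossData a) : ℕ → Finset I → (I → ℚ) → ℕ → ℚ
  | 0, _, _, _ => 0
  | n + 1, A, q, g =>
    if g = 0 then 1
    else ∑ M ∈ A.powerset.filter (fun M => ∀ x ∈ M, IsZ (q x)),
      (-1) ^ (A \ M).card * detEff a (A \ M) M * (g : ℚ) ^ M.card *
        ∏ N ∈ comps a (A \ M), (if cd.mm N ≤ g then cd.eps N q * cnA a cd n N q (g - cd.mm N) else 0)

/-- the response numbers `c_q^A(g)`. -/
noncomputable def cn (a : I → I → ℕ) (cd : CrossData a) (A : Finset I) (q : I → ℚ) (g : ℕ) : ℚ :=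
  cnA a cd (A.card + g + 1) A q g

/-- weights of the `Up` family. -/
noncomputable def upw (a : I → I → ℕ) (cd : CrossData a) (A : Finset I) (q : I → ℚ) (g : ℕ) : ℚ :=
  if cd.mm A ≤ g then cd.eps A q * cn a cd A q (g - cd.mm A) else 0

end

end Pool.Agent.H27.KAC
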