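import Pool.Agent.H41.KA.AD0
import Pool.Agent.H27.KAC.KQFil
import Pool.Agent.H27.KAC.KQDer

/-!
KAC ADE, module AD1: rational powers of series with constant coefficient one.

`rpw u q = (PowerSeries.binomialSeries ℚ q).subst (u - 1)`; use `PowerSeries.subst_mul`, `PowerSeries.binomialSeries_add`,
`PowerSeries.binomialSeries_nat`, `PowerSeries.coeff_subst`.  For `rpw_mul` and `rpw_rpw` one can use uniqueness of `d`-th
roots: if `constantCoeff v = constantCoeff w = 1` and `v ^ d = w ^ d` with `d ≥ 1`, then `v = w`.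
-/

set_option autoImplicit false

namespace Pool.Agent.H27.KAC

open scoped BigOperators
open MvPowerSeries

section

variable {I : Type} [Fintype I] [DecidableEq I]

theorem AD1_hasSubst {w : MvPowerSeries I ℚ} (hw : constantCoeff w = 0) :
    PowerSeries.HasSubst w := PowerSeries.HasSubst.of_constantCoeff_zero hw

theorem AD1_hs (u : MvPowerSeries I ℚ) (hu : constantCoeff u = 1) :
    PowerSeries.HasSubst (u - 1) := by
  apply AD1_hasSubst
  rw [map_sub, hu, map_one, sub_self]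

theorem AD1_subst_one {w : MvPowerSeries I ℚ} (hw : PowerSeries.HasSubst w) :
    PowerSeries.subst w (1 : PowerSeries ℚ) = 1 := by
  rw [← PowerSeries.coe_substAlgHom hw, map_one]

theorem rpw_const (u : MvPowerSeries I ℚ) (hu : constantCoeff u = 1) (q : ℚ) :
    constantCoeff (rpw u q) = 1 := by
  have h0 : constantCoeff (u - 1) = 0 := by rw [map_sub, hu, map_one, sub_self]
  have h1 := PowerSeries.constantCoeff_subst_eq_zero h0 (PowerSeries.binomialSeries ℚ q - 1)
    (by rw [map_sub, PowerSeries.binomialSeries_constantCoeff, map_one, sub_self])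
  rw [PowerSeries.subst_sub (AD1_hs u hu), AD1_subst_one (AD1_hs u hu), map_sub, map_one] at h1
  exact sub_eq_zero.1 h1

theorem rpw_zero (u : MvPowerSeries I ℚ) (hu : constantCoeff u = 1) : rpw u 0 = 1 := by
  unfold rpw
  rw [PowerSeries.binomialSeries_zero, AD1_subst_one (AD1_hs u hu)]

theorem rpw_add (u : MvPowerSeries I ℚ) (hu : constantCoeff u = 1) (q r : ℚ) :
    rpw u (q + r) = rpw u q * rpw u r := by
  unfold rpw
  rw [PowerSeries.binomialSeries_add, PowerSeries.subst_mul (AD1_hs u hu)]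

theorem rpw_nat (u : MvPowerSeries I ℚ) (hu : constantCoeff u = 1) (n : ℕ) :
    rpw u (n : ℚ) = u ^ n := by
  unfold rpw
  rw [PowerSeries.binomialSeries_nat, PowerSeries.subst_pow (AD1_hs u hu),
    PowerSeries.subst_add (AD1_hs u hu), AD1_subst_one (AD1_hs u hu),
    PowerSeries.subst_X (AD1_hs u hu), add_sub_cancel]

theorem rpw_one (u : MvPowerSeries I ℚ) (hu : constantCoeff u = 1) : rpw u 1 = u := by
  have h := rpw_nat u hu 1
  rwa [Nat.cast_one, pow_one] at h

theorem rpw_unit_left (q : ℚ) : rpw (1 : MvPowerSeries I ℚ) q = 1 := by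
  unfold rpw
  rw [sub_self, PowerSeries.subst_zero_eq_C_constantCoeff, PowerSeries.binomialSeries_constantCoeff,
    map_one, map_one]

theorem rpw_nat_mul (u : MvPowerSeries I ℚ) (hu : constantCoeff u = 1) (n : ℕ) (q : ℚ) :
    rpw u (n * q) = rpw u q ^ n := by
  induction n with
  | zero => rw [Nat.cast_zero, zero_mul, rpw_zero u hu, pow_zero]
  | succ n ih =>
    rw [pow_succ, ← ih, ← rpw_add u hu]
    congr 1
    push_cast
    ring

theorem AD1_isUnit (u : MvPowerSeries I ℚ) (hu : constantCoeff u = 1) : IsUnit u := by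
  rw [MvPowerSeries.isUnit_iff_constantCoeff, hu]
  exact isUnit_one

/-- uniqueness of roots. -/
theorem root_unique (v w : MvPowerSeries I ℚ) (hv : constantCoeff v = 1) (hw : constantCoeff w = 1)
    (d : ℕ) (hd : 1 ≤ d) (h : v ^ d = w ^ d) : v = w := by
  have h1 := (Commute.all v w).geom_sum₂_mul d
  rw [h, sub_self] at h1
  have h2 : IsUnit (∑ i ∈ Finset.range d, v ^ i * w ^ (d - 1 - i)) := by
    rw [MvPowerSeries.isUnit_iff_constantCoeff, map_sum]
    have h3 : ∀ i ∈ Finset.range d, constantCoeff (v ^ i * w ^ (d - 1 - i)) = (1 : ℚ) := by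
      intro i _
      rw [map_mul, map_pow, map_pow, hv, hw, one_pow, one_pow, mul_one]
    rw [Finset.sum_congr rfl h3, Finset.sum_const, Finset.card_range, nsmul_eq_mul, mul_one]
    exact isUnit_iff_ne_zero.2 (Nat.cast_ne_zero.2 (by omega))
  exact sub_eq_zero.1 ((h2.mul_right_eq_zero).1 h1)

/-- inverse exponents. -/
theorem AD1_neg (u : MvPowerSeries I ℚ) (hu : constantCoeff u = 1) (q : ℚ) :
    rpw u (-q) * rpw u q = 1 := by
  rw [← rpw_add u hu, neg_add_cancel, rpw_zero u hu]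

/-- cancellation of a natural power with a unit. -/
theorem AD1_cancel {x y z : MvPowerSeries I ℚ} (hz : IsUnit z) (h : x * z = y * z) : x = y :=
  hz.mul_right_cancel h

/-- reduction of statements on rational exponents to integer exponents. -/
theorem AD1_q (q : ℚ) : ∃ (n : ℤ) (d : ℕ), 1 ≤ d ∧ (d : ℚ) * q = n := by
  refine ⟨q.num, q.den, q.den_pos, ?_⟩
  rw [mul_comm]
  exact Rat.mul_den_eq_num q

theorem AD1_const_mul {u v : MvPowerSeries I ℚ} (hu : constantCoeff u = 1)
    (hv : constantCoeff v = 1) : constantCoeff (u * v) = 1 := by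
  rw [map_mul, hu, hv, one_mul]

theorem AD1_mul_nat (u v : MvPowerSeries I ℚ) (hu : constantCoeff u = 1) (hv : constantCoeff v = 1)
    (n : ℕ) : rpw (u * v) (n : ℚ) = rpw u n * rpw v n := by
  rw [rpw_nat _ (AD1_const_mul hu hv), rpw_nat u hu, rpw_nat v hv, mul_pow]

theorem AD1_mul_int (u v : MvPowerSeries I ℚ) (hu : constantCoeff u = 1) (hv : constantCoeff v = 1)
    (n : ℤ) : rpw (u * v) (n : ℚ) = rpw u n * rpw v n := by
  obtain ⟨m, hm | hm⟩ := n.eq_nat_or_neg
  · rw [hm, Int.cast_natCast]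
    exact AD1_mul_nat u v hu hv m
  · have h0 : ((n : ℤ) : ℚ) = -(m : ℚ) := by rw [hm]; push_cast; rfl
    rw [h0]
    have h1 := AD1_neg (u * v) (AD1_const_mul hu hv) (m : ℚ)
    have h2 := AD1_neg u hu (m : ℚ)
    have h3 := AD1_neg v hv (m : ℚ)
    have h4 := AD1_mul_nat u v hu hv m
    refine AD1_cancel (AD1_isUnit _ (rpw_const (u * v) (AD1_const_mul hu hv) (m : ℚ))) ?_
    rw [h1, h4]
    linear_combination (-1 : MvPowerSeries I ℚ) * h3 - rpw v (-(m : ℚ)) * rpw v (m : ℚ) * h2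

theorem rpw_mul (u v : MvPowerSeries I ℚ) (hu : constantCoeff u = 1) (hv : constantCoeff v = 1)
    (q : ℚ) : rpw (u * v) q = rpw u q * rpw v q := by
  obtain ⟨n, d, hd, h⟩ := AD1_q q
  refine root_unique _ _ (rpw_const _ (AD1_const_mul hu hv) q)
    (AD1_const_mul (rpw_const u hu q) (rpw_const v hv q)) d hd ?_
  rw [mul_pow, ← rpw_nat_mul _ (AD1_const_mul hu hv), ← rpw_nat_mul u hu, ← rpw_nat_mul v hv, h]
  exact AD1_mul_int u v hu hv n

theorem rpw_rpw (u : MvPowerSeries I ℚ) (hu : constantCoeff u = 1) (q r : ℚ) :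
    rpw (rpw u q) r = rpw u (q * r) := by
  obtain ⟨n, d, hd, h⟩ := AD1_q r
  have hc := rpw_const u hu q
  refine root_unique _ _ (rpw_const _ hc r) (rpw_const u hu _) d hd ?_
  rw [← rpw_nat_mul _ hc, ← rpw_nat_mul u hu, h]
  have h1 : (d : ℚ) * (q * r) = q * n := by rw [← h]; ring
  rw [h1]
  have hnat : ∀ m : ℕ, rpw (rpw u q) (m : ℚ) = rpw u (q * m) := by
    intro m
    rw [rpw_nat _ hc, mul_comm, rpw_nat_mul u hu]
  obtain ⟨m, hm | hm⟩ := n.eq_nat_or_neg
  · rw [hm, Int.cast_natCast]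
    exact hnat m
  · have h0 : ((n : ℤ) : ℚ) = -(m : ℚ) := by rw [hm]; push_cast; rfl
    rw [h0]
    refine AD1_cancel (AD1_isUnit _ (rpw_const (rpw u q) hc (m : ℚ))) ?_
    rw [AD1_neg _ hc, hnat m, ← rpw_add u hu]
    have h2 : q * -(m : ℚ) + q * m = 0 := by ring
    rw [h2, rpw_zero u hu]

/-- the set of exponents with the derivation rule. -/
def AD1_P (a : I → I → ℕ) (l : I) (u : MvPowerSeries I ℚ) (q : ℚ) : Prop :=
  dD a l (rpw u q) * u = C q * rpw u q * dD a l u

theorem AD1_P_zero (a : I → I → ℕ) (l : I) (u : MvPowerSeries I ℚ) (hu : constantCoeff u = 1) :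
    AD1_P a l u 0 := by
  unfold AD1_P
  rw [rpw_zero u hu, dD_one, zero_mul, map_zero, zero_mul, zero_mul]

theorem AD1_P_one (a : I → I → ℕ) (l : I) (u : MvPowerSeries I ℚ) (hu : constantCoeff u = 1) :
    AD1_P a l u 1 := by
  unfold AD1_P
  rw [rpw_one u hu, map_one]
  ring

theorem AD1_P_add (a : I → I → ℕ) (l : I) (u : MvPowerSeries I ℚ) (hu : constantCoeff u = 1)
    (q r : ℚ) (hq : AD1_P a l u q) (hr : AD1_P a l u r) : AD1_P a l u (q + r) := by
  unfold AD1_P at *
  rw [rpw_add u hu, dD_mul, map_add]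
  linear_combination (rpw u r) * hq + (rpw u q) * hr

theorem AD1_P_neg (a : I → I → ℕ) (l : I) (u : MvPowerSeries I ℚ) (hu : constantCoeff u = 1)
    (q : ℚ) (hq : AD1_P a l u q) : AD1_P a l u (-q) := by
  unfold AD1_P at *
  have h1 := AD1_neg u hu q
  have h2 : dD a l (rpw u (-q)) * rpw u q + rpw u (-q) * dD a l (rpw u q) = 0 := by
    rw [← dD_mul, h1, dD_one]
  refine AD1_cancel (AD1_isUnit _ (rpw_const u hu q)) ?_
  rw [map_neg]
  linear_combination u * h2 - rpw u (-q) * hq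

theorem AD1_P_nat (a : I → I → ℕ) (l : I) (u : MvPowerSeries I ℚ) (hu : constantCoeff u = 1)
    (n : ℕ) : AD1_P a l u n := by
  induction n with
  | zero => rw [Nat.cast_zero]; exact AD1_P_zero a l u hu
  | succ n ih =>
    rw [Nat.cast_succ]
    exact AD1_P_add a l u hu _ _ ih (AD1_P_one a l u hu)

theorem AD1_P_int (a : I → I → ℕ) (l : I) (u : MvPowerSeries I ℚ) (hu : constantCoeff u = 1)
    (n : ℤ) : AD1_P a l u n := by
  obtain ⟨m, hm | hm⟩ := n.eq_nat_or_neg
  · rw [hm, Int.cast_natCast]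
    exact AD1_P_nat a l u hu m
  · have h0 : ((n : ℤ) : ℚ) = -(m : ℚ) := by rw [hm]; push_cast; rfl
    rw [h0]
    exact AD1_P_neg a l u hu _ (AD1_P_nat a l u hu m)

/-- the derivations `dD`: `D (u^q) * u = q u^q D u`. -/
theorem dD_rpw (a : I → I → ℕ) (l : I) (u : MvPowerSeries I ℚ) (hu : constantCoeff u = 1) (q : ℚ) :
    dD a l (rpw u q) * u = C q * rpw u q * dD a l u := by
  obtain ⟨n, d, hd, h⟩ := AD1_q q
  obtain ⟨e, rfl⟩ : ∃ e, d = e + 1 := ⟨d - 1, by omega⟩
  have h1 := AD1_P_int a l u hu n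
  unfold AD1_P at h1
  rw [← h, rpw_nat_mul u hu, dD_pow] at h1
  have hw := AD1_isUnit _ (rpw_const u hu q)
  have h2 : (C (((e + 1 : ℕ) : ℚ) * q) : MvPowerSeries I ℚ) =
      ((e + 1 : ℕ) : MvPowerSeries I ℚ) * C q := by
    rw [map_mul, map_natCast]
  rw [h2] at h1
  have h3 : IsUnit ((((e + 1 : ℕ) : MvPowerSeries I ℚ)) * rpw u q ^ e) := by
    refine IsUnit.mul ?_ (hw.pow e)
    rw [MvPowerSeries.isUnit_iff_constantCoeff, map_natCast]
    exact isUnit_iff_ne_zero.2 (Nat.cast_ne_zero.2 (by omega))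
  refine AD1_cancel h3 ?_
  linear_combination h1

theorem AD1_coeff (u : MvPowerSeries I ℚ) (hu : constantCoeff u = 1) (q : ℚ) (β : I →₀ ℕ)
    (h : coeff β (rpw u q) ≠ 0) : ∃ n : ℕ, coeff β ((u - 1) ^ n) ≠ 0 := by
  by_contra hcon
  push Not at hcon
  apply h
  unfold rpw
  rw [PowerSeries.coeff_subst (AD1_hs u hu)]
  apply finsum_eq_zero_of_forall_eq_zero
  intro n
  rw [hcon n, smul_zero]

/-- regularity of degree zero is inherited by rational powers. -/
theorem Fil_rpw (a : I → I → ℕ) (x : I) (u : MvPowerSeries I ℚ) (hu : constantCoeff u = 1)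
    (h : Fil a x 0 u) (q : ℚ) : Fil a x 0 (rpw u q) := by
  intro β hβ
  obtain ⟨n, hn⟩ := AD1_coeff u hu q β hβ
  have h1 : Fil a x 0 (u - 1) := h.sub (Fil_one a x)
  have h2 := h1.pow n
  rw [mul_zero] at h2
  exact h2 β hn

/-- truncation of the binomial series. -/
theorem AD1_trunc (w : MvPowerSeries I ℚ) (hw : constantCoeff w = 0) (q : ℚ) (M : ℕ) :
    ∃ R : MvPowerSeries I ℚ, rpw (1 + w) q =
      ∑ m ∈ Finset.range (M + 1), C (Ring.choose q m) * w ^ m + w ^ (M + 1) * R := by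
  have hs : PowerSeries.HasSubst w := AD1_hasSubst hw
  have h1 : ∃ S : PowerSeries ℚ, PowerSeries.binomialSeries ℚ q =
      ((PowerSeries.trunc (M + 1) (PowerSeries.binomialSeries ℚ q) : Polynomial ℚ) : PowerSeries ℚ) +
        PowerSeries.X ^ (M + 1) * S := by
    have h2 : (PowerSeries.X : PowerSeries ℚ) ^ (M + 1) ∣ PowerSeries.binomialSeries ℚ q -
        ((PowerSeries.trunc (M + 1) (PowerSeries.binomialSeries ℚ q) : Polynomial ℚ) :
          PowerSeries ℚ) := by
      rw [PowerSeries.X_pow_dvd_iff]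
      intro m hm
      rw [map_sub, Polynomial.coeff_coe, PowerSeries.coeff_trunc, if_pos hm, sub_self]
    obtain ⟨S, hS⟩ := h2
    exact ⟨S, by rw [← hS]; ring⟩
  obtain ⟨S, hS⟩ := h1
  refine ⟨PowerSeries.subst w S, ?_⟩
  unfold rpw
  rw [add_sub_cancel_left, hS, PowerSeries.subst_add hs, PowerSeries.subst_mul hs,
    PowerSeries.subst_pow hs, PowerSeries.subst_X hs, PowerSeries.subst_coe hs,
    Polynomial.aeval_eq_sum_range' (n := M + 1) (PowerSeries.natDegree_trunc_lt _ _)]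
  congr 1
  refine Finset.sum_congr rfl fun m hm => ?_
  rw [PowerSeries.coeff_trunc, if_pos (Finset.mem_range.1 hm), PowerSeries.binomialSeries_coeff,
    smul_eq_mul, mul_one, MvPowerSeries.smul_eq_C_mul]

/-- the binomial expansion of `(1 - X_x^n v)^q` up to a bound for the exponent of `X_x`. -/
theorem coeff_rpw_one_sub (x : I) (n : ℕ) (hn : 1 ≤ n) (v G : MvPowerSeries I ℚ) (q : ℚ)
    (γ : I →₀ ℕ) (M : ℕ) (hM : γ x ≤ M) :
    coeff γ (rpw (1 - X x ^ n * v) q * G) =
      ∑ m ∈ Finset.range (M + 1), (-1 : ℚ) ^ m * Ring.choose q m *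
        coeff γ (X x ^ (n * m) * v ^ m * G) := by
  have hw : constantCoeff (-(X x ^ n * v) : MvPowerSeries I ℚ) = 0 := by
    rw [map_neg, map_mul, map_pow, constantCoeff_X, zero_pow (by omega), zero_mul, neg_zero]
  obtain ⟨R, hR⟩ := AD1_trunc (-(X x ^ n * v)) hw q M
  rw [sub_eq_add_neg, hR, add_mul, Finset.sum_mul, map_add, map_sum]
  have h1 : coeff γ ((-(X x ^ n * v)) ^ (M + 1) * R * G) = 0 := by
    have h2 : (-(X x ^ n * v)) ^ (M + 1) * R * G =
        X x ^ (n * (M + 1)) * ((-1) ^ (M + 1) * v ^ (M + 1) * R * G) := by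
      rw [neg_pow, mul_pow, ← pow_mul]
      ring
    rw [h2, X_pow_eq, coeff_monomial_mul, if_neg]
    intro h3
    have h4 := Finsupp.single_le_iff.1 h3
    nlinarith
  rw [h1, add_zero]
  refine Finset.sum_congr rfl fun m _ => ?_
  have h3 : C (Ring.choose q m) * (-(X x ^ n * v)) ^ m * G =
      C ((-1 : ℚ) ^ m * Ring.choose q m) * (X x ^ (n * m) * v ^ m * G) := by
    rw [neg_pow, mul_pow, ← pow_mul, map_mul, map_pow, map_neg, map_one]
    ring
  rw [h3, coeff_C_mul]

end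

end Pool.Agent.H27.KAC
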