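import Pool.Agent.H41.KA.AD1
import Pool.Agent.H27.KAC.KQDer

/-!
KAC ADE, module AD2: laws of `mU`, `dl`, `tdg`, `cE`.
-/

set_option autoImplicit false

namespace Pool.Agent.H27.KAC

open scoped BigOperators
open MvPowerSeries

section

variable {I : Type} [Fintype I] [DecidableEq I]

theorem mU_eq_prod (a : I → I → ℕ) (E : QE I) (s : Finset (I × ℕ)) (hs : E.support ⊆ s) :
    mU a E = ∏ ik ∈ s, rpw (uS a ik.1 ik.2) (E ik) := by
  unfold mU
  refine Finset.prod_subset hs fun ik _ h => ?_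
  rw [Finsupp.notMem_support_iff.1 h, rpw_zero _ (uS_const a ik.1 ik.2)]

theorem mU_const (a : I → I → ℕ) (E : QE I) : constantCoeff (mU a E) = 1 := by
  unfold mU
  rw [map_prod]
  exact Finset.prod_eq_one fun ik _ => rpw_const _ (uS_const a ik.1 ik.2) _

theorem mU_zero (a : I → I → ℕ) : mU a (0 : QE I) = 1 := by
  unfold mU
  rw [Finsupp.support_zero, Finset.prod_empty]

theorem mU_add (a : I → I → ℕ) (E F : QE I) : mU a (E + F) = mU a E * mU a F := by
  rw [mU_eq_prod a (E + F) (E.support ∪ F.support) Finsupp.support_add,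
    mU_eq_prod a E (E.support ∪ F.support) Finset.subset_union_left,
    mU_eq_prod a F (E.support ∪ F.support) Finset.subset_union_right, ← Finset.prod_mul_distrib]
  refine Finset.prod_congr rfl fun ik _ => ?_
  rw [Finsupp.add_apply, rpw_add _ (uS_const a ik.1 ik.2)]

theorem mU_single (a : I → I → ℕ) (i : I) (k : ℕ) (q : ℚ) :
    mU a (Finsupp.single (i, k) q) = rpw (uS a i k) q := by
  rw [mU_eq_prod a _ {(i, k)} Finsupp.support_single_subset, Finset.prod_singleton,
    Finsupp.single_eq_same]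

theorem AD2_rpw_prod {ι : Type} (s : Finset ι) (f : ι → MvPowerSeries I ℚ)
    (hf : ∀ j, constantCoeff (f j) = 1) (q : ℚ) :
    rpw (∏ j ∈ s, f j) q = ∏ j ∈ s, rpw (f j) q := by
  classical
  induction s using Finset.induction_on with
  | empty => rw [Finset.prod_empty, Finset.prod_empty, rpw_unit_left]
  | insert j s hj ih =>
    rw [Finset.prod_insert hj, Finset.prod_insert hj, rpw_mul _ _ (hf j) _ q, ih]
    rw [map_prod]
    exact Finset.prod_eq_one fun j _ => hf j

theorem mU_smul (a : I → I → ℕ) (q : ℚ) (E : QE I) : mU a (q • E) = rpw (mU a E) q := by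
  have h1 := AD2_rpw_prod E.support (fun ik => rpw (uS a ik.1 ik.2) (E ik))
    (fun ik => rpw_const _ (uS_const a ik.1 ik.2) _) q
  have h2 : rpw (mU a E) q = ∏ ik ∈ E.support, rpw (rpw (uS a ik.1 ik.2) (E ik)) q := h1
  rw [mU_eq_prod a (q • E) E.support Finsupp.support_smul, h2]
  refine Finset.prod_congr rfl fun ik _ => ?_
  rw [rpw_rpw (uS a ik.1 ik.2) (uS_const a ik.1 ik.2) (E ik) q, Finsupp.smul_apply, smul_eq_mul,
    mul_comm q]

theorem mU_isUnit (a : I → I → ℕ) (E : QE I) : IsUnit (mU a E) := by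
  rw [MvPowerSeries.isUnit_iff_constantCoeff, mU_const]
  exact isUnit_one

/-- symbols of level zero do not matter. -/
theorem mU_lev0 (a : I → I → ℕ) (i : I) (q : ℚ) : mU a (Finsupp.single (i, 0) q) = 1 := by
  rw [mU_single, uS_zero, rpw_unit_left]

theorem AD2_dl_eq (a : I → I → ℕ) (E : QE I) (l : I) (s : Finset (I × ℕ)) (hs : E.support ⊆ s) :
    dl a E l = ∑ ik ∈ s, C (E ik) * xv a ik.1 ik.2 l := by
  unfold dl
  refine Finset.sum_subset hs fun ik _ h => ?_
  rw [Finsupp.notMem_support_iff.1 h, map_zero, zero_mul]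

theorem dl_add (a : I → I → ℕ) (E F : QE I) (l : I) : dl a (E + F) l = dl a E l + dl a F l := by
  rw [AD2_dl_eq a (E + F) l (E.support ∪ F.support) Finsupp.support_add,
    AD2_dl_eq a E l (E.support ∪ F.support) Finset.subset_union_left,
    AD2_dl_eq a F l (E.support ∪ F.support) Finset.subset_union_right, ← Finset.sum_add_distrib]
  refine Finset.sum_congr rfl fun ik _ => ?_
  rw [Finsupp.add_apply, map_add, add_mul]

theorem dl_smul (a : I → I → ℕ) (q : ℚ) (E : QE I) (l : I) : dl a (q • E) l = C q * dl a E l := by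
  rw [AD2_dl_eq a (q • E) l E.support Finsupp.support_smul]
  unfold dl
  rw [Finset.mul_sum]
  refine Finset.sum_congr rfl fun ik _ => ?_
  rw [Finsupp.smul_apply, smul_eq_mul, map_mul, mul_assoc]

theorem dl_zero (a : I → I → ℕ) (l : I) : dl a (0 : QE I) l = 0 := by
  unfold dl
  rw [Finsupp.support_zero, Finset.sum_empty]

theorem dl_single (a : I → I → ℕ) (i : I) (k : ℕ) (q : ℚ) (l : I) :
    dl a (Finsupp.single (i, k) q) l = C q * xv a i k l := by
  rw [AD2_dl_eq a _ l {(i, k)} Finsupp.support_single_subset, Finset.sum_singleton,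
    Finsupp.single_eq_same]

theorem dl_lev0 (a : I → I → ℕ) (i : I) (q : ℚ) (l : I) : dl a (Finsupp.single (i, 0) q) l = 0 := by
  rw [dl_single, xv_zero, mul_zero]

theorem AD2_tdg_eq (E : QE I) (i : I) (s : Finset (I × ℕ)) (hs : E.support ⊆ s) :
    tdg E i = ∑ jk ∈ s, if jk.1 = i then E jk * (jk.2 : ℚ) else 0 := by
  unfold tdg
  refine Finset.sum_subset hs fun ik _ h => ?_
  rw [Finsupp.notMem_support_iff.1 h, zero_mul, ite_self]

theorem tdg_add (E F : QE I) (i : I) : tdg (E + F) i = tdg E i + tdg F i := by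
  rw [AD2_tdg_eq (E + F) i (E.support ∪ F.support) Finsupp.support_add,
    AD2_tdg_eq E i (E.support ∪ F.support) Finset.subset_union_left,
    AD2_tdg_eq F i (E.support ∪ F.support) Finset.subset_union_right, ← Finset.sum_add_distrib]
  refine Finset.sum_congr rfl fun ik _ => ?_
  rw [Finsupp.add_apply]
  split_ifs
  · ring
  · ring

theorem tdg_smul (q : ℚ) (E : QE I) (i : I) : tdg (q • E) i = q * tdg E i := by
  rw [AD2_tdg_eq (q • E) i E.support Finsupp.support_smul]
  unfold tdg
  rw [Finset.mul_sum]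
  refine Finset.sum_congr rfl fun ik _ => ?_
  rw [Finsupp.smul_apply, smul_eq_mul]
  split_ifs
  · ring
  · ring

theorem tdg_zero (i : I) : tdg (0 : QE I) i = 0 := by
  unfold tdg
  rw [Finsupp.support_zero, Finset.sum_empty]

theorem tdg_single (j : I) (k : ℕ) (q : ℚ) (i : I) :
    tdg (Finsupp.single (j, k) q) i = if j = i then q * k else 0 := by
  rw [AD2_tdg_eq _ i {(j, k)} Finsupp.support_single_subset, Finset.sum_singleton,
    Finsupp.single_eq_same]

/-- logarithmic derivative of a rational power. -/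
theorem AD2_dD_rpw (a : I → I → ℕ) (l : I) (u : (MvPowerSeries I ℚ)ˣ)
    (hu : constantCoeff (u : MvPowerSeries I ℚ) = 1) (q : ℚ) :
    dD a l (rpw (u : MvPowerSeries I ℚ) q) =
      C q * dlg a u l * rpw (u : MvPowerSeries I ℚ) q := by
  have h1 := dD_rpw a l (u : MvPowerSeries I ℚ) hu q
  rw [dD_eq_dlg] at h1
  refine u.isUnit.mul_right_cancel ?_
  rw [h1]
  ring

theorem AD2_dl_mU (a : I → I → ℕ) (E : QE I) (l : I) (s : Finset (I × ℕ)) :
    (∑ ik ∈ s, C (E ik) * xv a ik.1 ik.2 l) * (∏ ik ∈ s, rpw (uS a ik.1 ik.2) (E ik)) =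
      C (∑ jk ∈ s, if jk.1 = l then E jk * (jk.2 : ℚ) else 0) *
        (∏ ik ∈ s, rpw (uS a ik.1 ik.2) (E ik)) +
      dD a l (∏ ik ∈ s, rpw (uS a ik.1 ik.2) (E ik)) := by
  classical
  induction s using Finset.induction_on with
  | empty =>
    rw [Finset.prod_empty, Finset.sum_empty, Finset.sum_empty, dD_one, map_zero]
    ring
  | insert ik s hj ih =>
    rw [Finset.prod_insert hj, Finset.sum_insert hj, Finset.sum_insert hj, dD_mul, map_add]
    have h1 : dD a l (rpw (uS a ik.1 ik.2) (E ik)) =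
        C (E ik) * dlg a (uu a ik.1 ik.2) l * rpw (uS a ik.1 ik.2) (E ik) := by
      have h2 := AD2_dD_rpw a l (uu a ik.1 ik.2) (by rw [uu_coe, uS_const]) (E ik)
      rw [uu_coe] at h2
      exact h2
    have h3 : (C (E ik) * xv a ik.1 ik.2 l : MvPowerSeries I ℚ) =
        C (if ik.1 = l then E ik * (ik.2 : ℚ) else 0) + C (E ik) * dlg a (uu a ik.1 ik.2) l := by
      unfold xv
      rw [mul_add]
      congr 1
      split_ifs
      · rw [map_mul, map_natCast]
      · rw [mul_zero, map_zero]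
    rw [h1, h3]
    linear_combination rpw (uS a ik.1 ik.2) (E ik) * ih

/-- `d log` of a monomial: `dl = tdg + D(mU)/mU`. -/
theorem dl_mU (a : I → I → ℕ) (E : QE I) (l : I) :
    dl a E l * mU a E = C (tdg E l) * mU a E + dD a l (mU a E) := by
  exact AD2_dl_mU a E l E.support

theorem cE_apply (a : I → I → ℕ) (x : I) (k : ℕ) (i : I) (l : ℕ) :
    cE a x k (i, l) = if l = k then ((cart a x i : ℤ) : ℚ) else 0 := by
  unfold cE
  rw [Finsupp.finset_sum_apply]
  have h1 : ∀ j ∈ Finset.univ, (((cart a x j : ℤ) : ℚ) • sy j k) (i, l) =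
      if j = i then (if l = k then ((cart a x j : ℤ) : ℚ) else 0) else 0 := by
    intro j _
    rw [Finsupp.smul_apply, Finsupp.single_apply, smul_eq_mul]
    by_cases h1 : j = i
    · by_cases h2 : l = k
      · rw [if_pos (by rw [h1, h2]), if_pos h1, if_pos h2, mul_one]
      · rw [if_neg (fun h => h2 (Prod.mk.inj h).2.symm), if_pos h1, if_neg h2, mul_zero]
    · rw [if_neg (fun h => h1 (Prod.mk.inj h).1), if_neg h1, mul_zero]
  rw [Finset.sum_congr rfl h1, Finset.sum_ite_eq' Finset.univ i, if_pos (Finset.mem_univ _)]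

theorem AD2_tdg_sum {ι : Type} (s : Finset ι) (f : ι → QE I) (i : I) :
    tdg (∑ j ∈ s, f j) i = ∑ j ∈ s, tdg (f j) i := by
  classical
  induction s using Finset.induction_on with
  | empty => rw [Finset.sum_empty, Finset.sum_empty, tdg_zero]
  | insert j s hj ih => rw [Finset.sum_insert hj, Finset.sum_insert hj, tdg_add, ih]

theorem tdg_cE (a : I → I → ℕ) (hs : ∀ i j, a i j = a j i) (x : I) (k : ℕ) (i : I) :
    tdg (cE a x k) i = (k : ℚ) * ((cart a i x : ℤ) : ℚ) := by
  unfold cE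
  rw [AD2_tdg_sum]
  have h1 : ∀ j ∈ Finset.univ, tdg (((cart a x j : ℤ) : ℚ) • sy j k) i =
      if j = i then ((cart a x j : ℤ) : ℚ) * (k : ℚ) else 0 := by
    intro j _
    rw [tdg_smul, tdg_single]
    split_ifs
    · rw [one_mul]
    · rw [mul_zero]
  rw [Finset.sum_congr rfl h1, Finset.sum_ite_eq' Finset.univ i, if_pos (Finset.mem_univ _)]
  have h2 : cart a x i = cart a i x := by
    unfold cart
    rw [hs x i]
    by_cases h : x = i
    · rw [if_pos h, if_pos h.symm]
    · rw [if_neg h, if_neg (fun h' => h h'.symm)]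
  rw [h2, mul_comm]

theorem cq_add (a : I → I → ℕ) (γ δ : I → ℚ) (i : I) :
    cq a (fun j => γ j + δ j) i = cq a γ i + cq a δ i := by
  unfold cq
  rw [← Finset.sum_add_distrib]
  exact Finset.sum_congr rfl fun j _ => mul_add _ _ _

theorem cq_smul (a : I → I → ℕ) (q : ℚ) (γ : I → ℚ) (i : I) :
    cq a (fun j => q * γ j) i = q * cq a γ i := by
  unfold cq
  rw [Finset.mul_sum]
  exact Finset.sum_congr rfl fun j _ => by ring

theorem cq_single (a : I → I → ℕ) (x : I) (q : ℚ) (i : I) :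
    cq a (Pi.single x q) i = ((cart a i x : ℤ) : ℚ) * q := by
  unfold cq
  rw [Finset.sum_eq_single x]
  · rw [Pi.single_eq_same]
  · intro j _ hj
    rw [Pi.single_eq_of_ne hj, mul_zero]
  · intro h
    exact absurd (Finset.mem_univ x) h

theorem AD2_mU_sum {ι : Type} (a : I → I → ℕ) (s : Finset ι) (f : ι → QE I) :
    mU a (∑ j ∈ s, f j) = ∏ j ∈ s, mU a (f j) := by
  classical
  induction s using Finset.induction_on with
  | empty => rw [Finset.sum_empty, Finset.prod_empty, mU_zero]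
  | insert j s hj ih => rw [Finset.sum_insert hj, Finset.prod_insert hj, mU_add, ih]

theorem AD2_mU_neg_cE (a : I → I → ℕ) (x : I) (k : ℕ) :
    mU a (-cE a x k) = (∏ j, uS a j k ^ (a x j)) * rpw (uS a x k) (-2) := by
  have h1 : -cE a x k = ∑ j, (-((cart a x j : ℤ) : ℚ)) • sy j k := by
    unfold cE
    rw [← Finset.sum_neg_distrib]
    exact Finset.sum_congr rfl fun j _ => (neg_smul _ _).symm
  have h2 : ∀ j ∈ Finset.univ, mU a ((-((cart a x j : ℤ) : ℚ)) • sy j k) =
      uS a j k ^ (a x j) * (if x = j then rpw (uS a j k) (-2) else 1) := by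
    intro j _
    rw [Finsupp.smul_single, mU_single, smul_eq_mul, mul_one]
    have h3 : (-((cart a x j : ℤ) : ℚ)) = (a x j : ℚ) + (if x = j then -2 else 0) := by
      unfold cart
      split_ifs
      · push_cast
        ring
      · push_cast
        ring
    rw [h3, rpw_add _ (uS_const a j k), rpw_nat _ (uS_const a j k)]
    split_ifs
    · rfl
    · rw [rpw_zero _ (uS_const a j k)]
  rw [h1, AD2_mU_sum, Finset.prod_congr rfl h2, Finset.prod_mul_distrib,
    Finset.prod_ite_eq Finset.univ x, if_pos (Finset.mem_univ _)]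

/-- `η_{x,k}` as a power series: `1 - η = U_{k+1} U_{k-1} / U_k^2`. -/
theorem mU_dd (a : I → I → ℕ) (x : I) (k : ℕ) (hk : 1 ≤ k) :
    mU a (dd x k) = 1 - X x ^ k * mU a (-cE a x k) := by
  obtain ⟨m, rfl⟩ : ∃ m, k = m + 1 := ⟨k - 1, by omega⟩
  have h1 : dd x (m + 1) = sy x (m + 2) + (-2 : ℚ) • sy x (m + 1) + sy x m := by
    unfold dd
    rw [sub_eq_add_neg, ← neg_smul]
    rfl
  have h2 : mU a ((-2 : ℚ) • sy x (m + 1)) = rpw (uS a x (m + 1)) (-2) := by
    rw [Finsupp.smul_single, mU_single, smul_eq_mul, mul_one]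
  have h3 : rpw (uS a x (m + 1)) (-2) * uS a x (m + 1) ^ 2 = 1 := by
    have h4 := AD1_neg (uS a x (m + 1)) (uS_const a x (m + 1)) ((2 : ℕ) : ℚ)
    rw [rpw_nat _ (uS_const a x (m + 1))] at h4
    exact h4
  rw [h1, mU_add, mU_add, h2, mU_single, mU_single, rpw_one _ (uS_const a x _),
    rpw_one _ (uS_const a x _), AD2_mU_neg_cE]
  linear_combination rpw (uS a x (m + 1)) (-2) * uS_rec a x m + h3

end

end Pool.Agent.H27.KAC
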