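import Pool.Agent.H41.KA.AE0

/-!
KAC ADE, module AE1: linear algebra of finite type sets (`M`-matrices).

`FinT a N`: `C_N` is positive definite (use `hs` symmetry).  Nonnegativity of the inverse: if `C_N v = b ≥ 0` on `N`, let `w` be the
negative part of `v` (`w_i = max (-v_i) 0`); then `0 ≤ ∑ w_i b_i = ∑ w_i (C v)_i ≤ - ∑ w_i (C w)_i ≤ 0`, because the
off-diagonal entries of `C` are `≤ 0`; so `w = 0`.
-/

set_option autoImplicit false

namespace Pool.Agent.H27.KAC

open scoped BigOperators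

section

variable {I : Type} [Fintype I] [DecidableEq I]

private theorem AE1_ind (a : I → I → ℕ) {A N : Finset I} (hA : A ⊆ N) (v : I → ℚ) (i : I) :
    cqN a N (fun j => if j ∈ A then v j else 0) i = cqN a A v i := by
  unfold cqN
  have h1 : ∑ j ∈ A, (cart a i j : ℚ) * v j =
      ∑ j ∈ A, (cart a i j : ℚ) * (if j ∈ A then v j else 0) :=
    Finset.sum_congr rfl fun j hj => by rw [if_pos hj]
  rw [h1]
  symm
  refine Finset.sum_subset hA fun j _ hj => ?_
  rw [if_neg hj, mul_zero]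

private theorem AE1_ind_form (a : I → I → ℕ) {A N : Finset I} (hA : A ⊆ N) (v : I → ℚ) :
    ∑ i ∈ N, (if i ∈ A then v i else 0) * cqN a N (fun j => if j ∈ A then v j else 0) i =
      ∑ i ∈ A, v i * cqN a A v i := by
  have h1 : ∑ i ∈ A, v i * cqN a A v i =
      ∑ i ∈ A, (if i ∈ A then v i else 0) * cqN a N (fun j => if j ∈ A then v j else 0) i :=
    Finset.sum_congr rfl fun j hj => by rw [if_pos hj, AE1_ind a hA]
  rw [h1]
  symm
  refine Finset.sum_subset hA fun j _ hj => ?_
  rw [if_neg hj, zero_mul]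

private theorem AE1_cart_ne {a : I → I → ℕ} {i j : I} (h : i ≠ j) : cart a i j = -(a i j : ℤ) := by
  unfold cart
  rw [if_neg h, zero_sub]

private theorem AE1_cqN_add (a : I → I → ℕ) (N : Finset I) (v w : I → ℚ) (i : I) :
    cqN a N (fun j => v j + w j) i = cqN a N v i + cqN a N w i := by
  unfold cqN
  rw [← Finset.sum_add_distrib]
  exact Finset.sum_congr rfl fun j _ => by ring

private theorem AE1_cqN_sub (a : I → I → ℕ) (N : Finset I) (v w : I → ℚ) (i : I) :
    cqN a N (fun j => v j - w j) i = cqN a N v i - cqN a N w i := by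
  unfold cqN
  rw [← Finset.sum_sub_distrib]
  exact Finset.sum_congr rfl fun j _ => by ring

private theorem AE1_cqN_smul (a : I → I → ℕ) (N : Finset I) (c : ℚ) (v : I → ℚ) (i : I) :
    cqN a N (fun j => c * v j) i = c * cqN a N v i := by
  unfold cqN
  rw [Finset.mul_sum]
  exact Finset.sum_congr rfl fun j _ => by ring

private theorem AE1_zero {a : I → I → ℕ} {N : Finset I} (h : FinT a N) (v : I → ℚ)
    (hv : ∀ i ∈ N, cqN a N v i = 0) : ∀ i ∈ N, v i = 0 := by
  intro i hi
  by_contra hne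
  have h1 := h.pos v ⟨i, hi, hne⟩
  have h2 : ∑ i ∈ N, v i * cqN a N v i = 0 :=
    Finset.sum_eq_zero fun j hj => by rw [hv j hj, mul_zero]
  rw [h2] at h1
  exact lt_irrefl _ h1

private theorem AE1_exists {a : I → I → ℕ} {N : Finset I} (h : FinT a N) (b : I → ℚ) :
    ∃ v : I → ℚ, (∀ i, i ∉ N → v i = 0) ∧ ∀ i ∈ N, cqN a N v i = b i := by
  let ex : (N → ℚ) → (I → ℚ) := fun v i => if h : i ∈ N then v ⟨i, h⟩ else 0
  let L : (N → ℚ) →ₗ[ℚ] (N → ℚ) :=
    { toFun := fun v i => cqN a N (ex v) i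
      map_add' := by
        intro v w
        funext i
        rw [Pi.add_apply, ← AE1_cqN_add]
        congr 1
        funext j
        simp only [ex]
        split_ifs
        · rfl
        · rw [add_zero]
      map_smul' := by
        intro c v
        funext i
        rw [RingHom.id_apply, Pi.smul_apply, smul_eq_mul, ← AE1_cqN_smul]
        congr 1
        funext j
        simp only [ex]
        split_ifs
        · rfl
        · rw [mul_zero] }
  have hinj : Function.Injective L := by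
    rw [← LinearMap.ker_eq_bot, LinearMap.ker_eq_bot']
    intro v hv
    have h1 : ∀ i ∈ N, cqN a N (ex v) i = 0 := fun i hi => congrFun hv ⟨i, hi⟩
    have h2 := AE1_zero h (ex v) h1
    funext i
    have h3 := h2 i i.2
    simp only [ex, dif_pos i.2] at h3
    exact h3
  have hsurj : Function.Surjective L := LinearMap.injective_iff_surjective.1 hinj
  obtain ⟨v, hv⟩ := hsurj (fun i => b i)
  refine ⟨ex v, fun i hi => ?_, fun i hi => ?_⟩
  · simp only [ex, dif_neg hi]
  · exact congrFun hv ⟨i, hi⟩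

private theorem AE1_sol {a : I → I → ℕ} {N : Finset I} (h : FinT a N) (b : I → ℚ) :
    ∀ i ∈ N, cqN a N (solN a N b) i = b i := by
  have h1 := AE1_exists h b
  unfold solN
  rw [dif_pos h1]
  exact h1.choose_spec.2

private theorem AE1_uniq {a : I → I → ℕ} {N : Finset I} (h : FinT a N) (b v : I → ℚ)
    (hv : ∀ i ∈ N, cqN a N v i = b i) : ∀ i ∈ N, v i = solN a N b i := by
  have h1 := AE1_zero h (fun j => v j - solN a N b j) (fun i hi => by
    rw [AE1_cqN_sub, hv i hi, AE1_sol h b i hi, sub_self])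
  intro i hi
  exact sub_eq_zero.1 (h1 i hi)

private theorem AE1_nonpos {a : I → I → ℕ} {N : Finset I} (h : FinT a N) (v : I → ℚ)
    (hv : ∀ i ∈ N, 0 ≤ v i) (i : I) (hi : i ∈ N) (h0 : v i = 0) (j : I) (hj : j ∈ N) :
    cqN a N v i ≤ -((a i j : ℚ) * v j) := by
  have h1 : ∀ l ∈ N, (cart a i l : ℚ) * v l = -((a i l : ℚ) * v l) := by
    intro l hl
    by_cases hil : i = l
    · subst hil
      rw [h0]
      ring
    · rw [AE1_cart_ne hil]
      push_cast
      ring
  unfold cqN
  rw [Finset.sum_congr rfl h1, Finset.sum_neg_distrib, neg_le_neg_iff]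
  exact Finset.single_le_sum (f := fun l => (a i l : ℚ) * v l)
    (fun l hl => mul_nonneg (Nat.cast_nonneg _) (hv l hl)) hj

theorem FinT.mono {a : I → I → ℕ} {N N' : Finset I} (h : FinT a N) (hsub : N' ⊆ N) : FinT a N' := by
  refine ⟨fun x hx => h.loopfree x (hsub hx), fun v hv => ?_⟩
  obtain ⟨i, hi, hne⟩ := hv
  have h1 := h.pos (fun j => if j ∈ N' then v j else 0) ⟨i, hsub hi, by rwa [if_pos hi]⟩
  rwa [AE1_ind_form a hsub] at h1

theorem FinT.empty (a : I → I → ℕ) : FinT a (∅ : Finset I) := by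
  refine ⟨fun x hx => absurd hx (Finset.notMem_empty x), fun v hv => ?_⟩
  obtain ⟨i, hi, _⟩ := hv
  exact absurd hi (Finset.notMem_empty i)

theorem cart_self {a : I → I → ℕ} {N : Finset I} (h : FinT a N) (x : I) (hx : x ∈ N) :
    cart a x x = 2 := by
  unfold cart
  rw [if_pos rfl, h.loopfree x hx]
  rfl

/-- adjacent vertices of a finite type set are joined by exactly one edge. -/
theorem FinT.adj_le_one {a : I → I → ℕ} (hs : ∀ i j, a i j = a j i) {N : Finset I} (h : FinT a N)
    (x y : I) (hx : x ∈ N) (hy : y ∈ N) (hxy : x ≠ y) : a x y ≤ 1 := by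
  have hsub : ({x, y} : Finset I) ⊆ N := by
    intro z hz
    rw [Finset.mem_insert, Finset.mem_singleton] at hz
    rcases hz with rfl | rfl
    · exact hx
    · exact hy
  have h' := h.mono hsub
  have h1 := h'.pos (fun _ => 1) ⟨x, by simp, one_ne_zero⟩
  unfold cqN at h1
  rw [Finset.sum_pair hxy, Finset.sum_pair hxy, Finset.sum_pair hxy, cart_self h x hx,
    cart_self h y hy, AE1_cart_ne hxy, AE1_cart_ne hxy.symm, hs y x] at h1
  have h2 : (a x y : ℚ) < 2 := by
    push_cast at h1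
    linarith
  have h3 : a x y < 2 := by exact_mod_cast h2
  omega

/-- nonnegativity. -/
theorem FinT.nonneg {a : I → I → ℕ} (hs : ∀ i j, a i j = a j i) {N : Finset I} (h : FinT a N)
    (v : I → ℚ) (hv : ∀ i ∈ N, 0 ≤ cqN a N v i) : ∀ i ∈ N, 0 ≤ v i := by
  by_contra hcon
  push Not at hcon
  obtain ⟨i0, hi0, hneg⟩ := hcon
  have h1 := h.pos (fun j => max (-v j) 0) ⟨i0, hi0, by
    have : max (-v i0) 0 = -v i0 := max_eq_left (by linarith)
    rw [this]
    linarith⟩
  have h2 : 0 ≤ ∑ i ∈ N, max (-v i) 0 * cqN a N v i :=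
    Finset.sum_nonneg fun i hi => mul_nonneg (le_max_right _ _) (hv i hi)
  have h3 : ∀ i, cqN a N v i =
      cqN a N (fun j => max (v j) 0) i - cqN a N (fun j => max (-v j) 0) i := by
    intro i
    rw [← AE1_cqN_sub]
    congr 1
    funext j
    rcases le_total (v j) 0 with hj | hj
    · rw [max_eq_right hj, max_eq_left (by linarith)]
      ring
    · rw [max_eq_left hj, max_eq_right (by linarith)]
      ring
  have h4 : ∑ i ∈ N, max (-v i) 0 * cqN a N (fun j => max (v j) 0) i ≤ 0 := by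
    refine Finset.sum_nonpos fun i hi => ?_
    unfold cqN
    rw [Finset.mul_sum]
    refine Finset.sum_nonpos fun j hj => ?_
    by_cases hij : i = j
    · subst hij
      show max (-v i) 0 * ((cart a i i : ℚ) * max (v i) 0) ≤ 0
      rcases le_total (v i) 0 with hj | hj
      · rw [max_eq_right hj]
        simp
      · rw [max_eq_right (show -v i ≤ 0 by linarith)]
        simp
    · show max (-v i) 0 * ((cart a i j : ℚ) * max (v j) 0) ≤ 0
      rw [AE1_cart_ne hij]
      push_cast
      have e1 : 0 ≤ max (-v i) 0 := le_max_right _ _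
      have e2 : 0 ≤ max (v j) 0 := le_max_right _ _
      have e3 : (0 : ℚ) ≤ (a i j : ℚ) := Nat.cast_nonneg _
      nlinarith [mul_nonneg e1 (mul_nonneg e3 e2)]
  have h5 : ∑ i ∈ N, max (-v i) 0 * cqN a N v i =
      ∑ i ∈ N, max (-v i) 0 * cqN a N (fun j => max (v j) 0) i -
        ∑ i ∈ N, max (-v i) 0 * cqN a N (fun j => max (-v j) 0) i := by
    rw [← Finset.sum_sub_distrib]
    refine Finset.sum_congr rfl fun i _ => ?_
    rw [h3 i, mul_sub]
  linarith

/-- strict positivity on connected sets. -/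
theorem FinT.pos_of_conn {a : I → I → ℕ} (hs : ∀ i j, a i j = a j i) {N : Finset I} (h : FinT a N)
    (hc : ConnS a N) (v : I → ℚ) (hv : ∀ i ∈ N, 0 ≤ cqN a N v i) (h0 : ∃ i ∈ N, cqN a N v i ≠ 0) :
    ∀ i ∈ N, 0 < v i := by
  have hnn := h.nonneg hs v hv
  have hS : ∀ i, i ∈ N.filter (fun i => v i = 0) ↔ i ∈ N ∧ v i = 0 := fun i => by
    rw [Finset.mem_filter]
  by_cases hne : (N.filter (fun i => v i = 0)).Nonempty
  · by_cases heq : N.filter (fun i => v i = 0) = N
    · exfalso
      obtain ⟨i, hi, h1⟩ := h0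
      apply h1
      unfold cqN
      refine Finset.sum_eq_zero fun j hj => ?_
      rw [← heq, hS] at hj
      rw [hj.2, mul_zero]
    · exfalso
      obtain ⟨i, hi, j, hj, hjS, hpos⟩ := hc.2 _ (Finset.filter_subset _ _) hne heq
      rw [hS] at hi hjS
      have h1 := AE1_nonpos h v hnn i hi.1 hi.2 j hj
      have h2 := hv i hi.1
      have h3 : 0 < v j := lt_of_le_of_ne (hnn j hj) (fun h4 => hjS ⟨hj, h4.symm⟩)
      have h4 : (0 : ℚ) < (a i j : ℚ) := by exact_mod_cast hpos
      have h5 := mul_pos h4 h3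
      linarith
  · intro i hi
    refine lt_of_le_of_ne (hnn i hi) (fun h1 => hne ⟨i, ?_⟩)
    rw [hS]
    exact ⟨hi, h1.symm⟩

theorem solN_out (a : I → I → ℕ) (N : Finset I) (b : I → ℚ) (i : I) (hi : i ∉ N) :
    solN a N b i = 0 := by
  unfold solN
  split_ifs with h
  · exact h.choose_spec.1 i hi
  · rfl

theorem solN_spec {a : I → I → ℕ} (hs : ∀ i j, a i j = a j i) {N : Finset I} (h : FinT a N)
    (b : I → ℚ) : ∀ i ∈ N, cqN a N (solN a N b) i = b i := by
  exact AE1_sol h b

theorem solN_unique {a : I → I → ℕ} (hs : ∀ i j, a i j = a j i) {N : Finset I} (h : FinT a N)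
    (b v : I → ℚ) (hv : ∀ i ∈ N, cqN a N v i = b i) : ∀ i ∈ N, v i = solN a N b i := by
  exact AE1_uniq h b v hv

theorem solN_congr {a : I → I → ℕ} (hs : ∀ i j, a i j = a j i) {N : Finset I} (h : FinT a N)
    (b b' : I → ℚ) (hb : ∀ i ∈ N, b i = b' i) : solN a N b = solN a N b' := by
  funext i
  by_cases hi : i ∈ N
  · exact AE1_uniq h b' (solN a N b) (fun j hj => by rw [AE1_sol h b j hj, hb j hj]) i hi
  · rw [solN_out a N b i hi, solN_out a N b' i hi]

theorem solN_add {a : I → I → ℕ} (hs : ∀ i j, a i j = a j i) {N : Finset I} (h : FinT a N)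
    (b b' : I → ℚ) (i : I) : solN a N (fun j => b j + b' j) i = solN a N b i + solN a N b' i := by
  by_cases hi : i ∈ N
  · symm
    exact AE1_uniq h (fun j => b j + b' j) (fun j => solN a N b j + solN a N b' j)
      (fun j hj => by rw [AE1_cqN_add, AE1_sol h b j hj, AE1_sol h b' j hj]) i hi
  · rw [solN_out a N _ i hi, solN_out a N b i hi, solN_out a N b' i hi, add_zero]

theorem solN_smul {a : I → I → ℕ} (hs : ∀ i j, a i j = a j i) {N : Finset I} (h : FinT a N)
    (c : ℚ) (b : I → ℚ) (i : I) : solN a N (fun j => c * b j) i = c * solN a N b i := by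
  by_cases hi : i ∈ N
  · symm
    exact AE1_uniq h (fun j => c * b j) (fun j => c * solN a N b j)
      (fun j hj => by rw [AE1_cqN_smul, AE1_sol h b j hj]) i hi
  · rw [solN_out a N _ i hi, solN_out a N b i hi, mul_zero]

theorem solN_cqN {a : I → I → ℕ} (hs : ∀ i j, a i j = a j i) {N : Finset I} (h : FinT a N)
    (v : I → ℚ) : ∀ i ∈ N, solN a N (cqN a N v) i = v i := by
  intro i hi
  exact (AE1_uniq h (cqN a N v) v (fun _ _ => rfl) i hi).symm

theorem solN_nonneg {a : I → I → ℕ} (hs : ∀ i j, a i j = a j i) {N : Finset I} (h : FinT a N)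
    (b : I → ℚ) (hb : ∀ i ∈ N, 0 ≤ b i) (i : I) : 0 ≤ solN a N b i := by
  by_cases hi : i ∈ N
  · exact h.nonneg hs (solN a N b) (fun j hj => by rw [AE1_sol h b j hj]; exact hb j hj) i hi
  · rw [solN_out a N b i hi]

theorem solN_mono {a : I → I → ℕ} (hs : ∀ i j, a i j = a j i) {N : Finset I} (h : FinT a N)
    (b b' : I → ℚ) (hb : ∀ i ∈ N, b i ≤ b' i) (i : I) : solN a N b i ≤ solN a N b' i := by
  by_cases hi : i ∈ N
  · have h1 := h.nonneg hs (fun j => solN a N b' j - solN a N b j) (fun j hj => by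
      rw [AE1_cqN_sub, AE1_sol h b j hj, AE1_sol h b' j hj]
      exact sub_nonneg.2 (hb j hj)) i hi
    exact sub_nonneg.1 h1
  · rw [solN_out a N b i hi, solN_out a N b' i hi]

theorem solN_pos {a : I → I → ℕ} (hs : ∀ i j, a i j = a j i) {N : Finset I} (h : FinT a N)
    (hc : ConnS a N) (b : I → ℚ) (hb : ∀ i ∈ N, 0 ≤ b i) (h0 : ∃ i ∈ N, b i ≠ 0) :
    ∀ i ∈ N, 0 < solN a N b i := by
  refine h.pos_of_conn hs hc (solN a N b) (fun i hi => ?_) ?_
  · rw [AE1_sol h b i hi]
    exact hb i hi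
  · obtain ⟨i, hi, h1⟩ := h0
    exact ⟨i, hi, by rwa [AE1_sol h b i hi]⟩

/-- without connectedness: `b ≥ 0` and `b_i > 0` gives a positive solution at `i`. -/
theorem solN_pos_self {a : I → I → ℕ} (hs : ∀ i j, a i j = a j i) {N : Finset I} (h : FinT a N)
    (b : I → ℚ) (hb : ∀ i ∈ N, 0 ≤ b i) (i : I) (hi : i ∈ N) (h0 : 0 < b i) :
    0 < solN a N b i := by
  have hnn : ∀ j ∈ N, 0 ≤ solN a N b j := fun j _ => solN_nonneg hs h b hb j
  refine lt_of_le_of_ne (hnn i hi) fun h1 => ?_
  have h2 := AE1_nonpos h (solN a N b) hnn i hi h1.symm i hi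
  rw [AE1_sol h b i hi, ← h1] at h2
  linarith

/-- a union of components can be solved separately. -/
theorem solN_component {a : I → I → ℕ} (hs : ∀ i j, a i j = a j i) {N A : Finset I} (h : FinT a N)
    (hA : A ⊆ N) (hsep : ∀ i ∈ A, ∀ j ∈ N, j ∉ A → a i j = 0) (b : I → ℚ) :
    ∀ i ∈ A, solN a N b i = solN a A b i := by
  refine AE1_uniq (h.mono hA) b (solN a N b) fun i hi => ?_
  rw [← AE1_sol h b i (hA hi)]
  unfold cqN
  refine Finset.sum_subset hA fun j hj hjA => ?_
  have hij : i ≠ j := fun h1 => hjA (h1 ▸ hi)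
  rw [AE1_cart_ne hij, hsep i hi j hj hjA]
  simp

/-- two step elimination: if `C_N v = b` on `N` and `A ⊆ N`, then on `A` the vector `v` solves `C_A v = b - C_{A,N∖A} v`. -/
theorem solN_sub {a : I → I → ℕ} (hs : ∀ i j, a i j = a j i) {N A : Finset I} (h : FinT a N)
    (hA : A ⊆ N) (b : I → ℚ) :
    ∀ i ∈ A, solN a N b i =
      solN a A (fun j => b j - ∑ l ∈ N \ A, (cart a j l : ℚ) * solN a N b l) i := by
  refine AE1_uniq (h.mono hA) _ (solN a N b) fun i hi => ?_
  rw [← AE1_sol h b i (hA hi)]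
  unfold cqN
  rw [← Finset.sum_sdiff hA, add_sub_cancel_left]

/-- components. -/
theorem comps_subset {a : I → I → ℕ} {N A : Finset I} (hA : A ∈ comps a N) : A ⊆ N := by
  classical
  unfold comps at hA
  rw [Finset.mem_filter, Finset.mem_powerset] at hA
  exact hA.1

theorem comps_conn {a : I → I → ℕ} {N A : Finset I} (hA : A ∈ comps a N) : ConnS a A := by
  classical
  unfold comps at hA
  rw [Finset.mem_filter, Finset.mem_powerset] at hA
  exact hA.2.1

theorem comps_sep {a : I → I → ℕ} {N A : Finset I} (hA : A ∈ comps a N) :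
    ∀ i ∈ A, ∀ j ∈ N, j ∉ A → a i j = 0 := by
  classical
  unfold comps at hA
  rw [Finset.mem_filter, Finset.mem_powerset] at hA
  exact hA.2.2

theorem comps_cover {a : I → I → ℕ} (hs : ∀ i j, a i j = a j i) {N : Finset I} (x : I)
    (hx : x ∈ N) : ∃ A ∈ comps a N, x ∈ A := by
  classical
  have hsymm : Std.Symm (Relation.ReflTransGen (fun i j : I => i ∈ N ∧ j ∈ N ∧ 0 < a i j)) := by
    refine ⟨fun i j hij => ?_⟩
    induction hij with
    | refl => exact Relation.ReflTransGen.refl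
    | tail _ h2 ih =>
      exact Relation.ReflTransGen.head ⟨h2.2.1, h2.1, by rw [hs]; exact h2.2.2⟩ ih
  have hmem : ∀ y, y ∈ N.filter (fun y => Relation.ReflTransGen
      (fun i j : I => i ∈ N ∧ j ∈ N ∧ 0 < a i j) x y) ↔ y ∈ N ∧ Relation.ReflTransGen
      (fun i j : I => i ∈ N ∧ j ∈ N ∧ 0 < a i j) x y := fun y => by rw [Finset.mem_filter]
  refine ⟨N.filter (fun y => Relation.ReflTransGen
    (fun i j : I => i ∈ N ∧ j ∈ N ∧ 0 < a i j) x y), ?_, ?_⟩
  · unfold comps
    rw [Finset.mem_filter, Finset.mem_powerset]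
    refine ⟨Finset.filter_subset _ _, ⟨⟨x, ?_⟩, ?_⟩, ?_⟩
    · rw [hmem]
      exact ⟨hx, Relation.ReflTransGen.refl⟩
    · intro S hSA hSne hSneq
      by_contra hcon
      push Not at hcon
      obtain ⟨z, hz⟩ := hSne
      have hclos : ∀ y, Relation.ReflTransGen
          (fun i j : I => i ∈ N ∧ j ∈ N ∧ 0 < a i j) z y → y ∈ S := by
        intro y hy
        induction hy with
        | refl => exact hz
        | tail _ h2 ih =>
          rename_i b c _
          by_contra hc
          have hb := (hmem b).1 (hSA ih)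
          have h3 := hcon b ih c ((hmem c).2 ⟨h2.2.1, hb.2.tail h2⟩) hc
          have h4 := h2.2.2
          omega
      apply hSneq
      refine Finset.Subset.antisymm hSA fun y hy => ?_
      have h1 := ((hmem y).1 hy).2
      have h2 := ((hmem z).1 (hSA hz)).2
      exact hclos y ((hsymm.symm _ _ h2).trans h1)
    · intro i hi j hj hjA
      by_contra hne
      apply hjA
      have h1 := (hmem i).1 hi
      exact (hmem j).2 ⟨hj, h1.2.tail ⟨h1.1, hj, Nat.pos_of_ne_zero hne⟩⟩
  · rw [hmem]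
    exact ⟨hx, Relation.ReflTransGen.refl⟩

private theorem AE1_comps_sub {a : I → I → ℕ} {N A B : Finset I}
    (hA : A ∈ comps a N) (hB : B ∈ comps a N) {x : I} (hxA : x ∈ A) (hxB : x ∈ B) : A ⊆ B := by
  by_contra hnot
  have hne : A ∩ B ≠ A := fun h1 => hnot (Finset.inter_eq_left.1 h1)
  obtain ⟨i, hi, j, hj, hjn, hpos⟩ := (comps_conn hA).2 (A ∩ B) Finset.inter_subset_left
    ⟨x, Finset.mem_inter.2 ⟨hxA, hxB⟩⟩ hne
  have hjB : j ∉ B := fun h1 => hjn (Finset.mem_inter.2 ⟨hj, h1⟩)
  have h1 := comps_sep hB i (Finset.mem_inter.1 hi).2 j (comps_subset hA hj) hjB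
  omega

theorem comps_disjoint {a : I → I → ℕ} (hs : ∀ i j, a i j = a j i) {N A B : Finset I}
    (hA : A ∈ comps a N) (hB : B ∈ comps a N) (hAB : A ≠ B) : Disjoint A B := by
  rw [Finset.disjoint_left]
  intro x hxA hxB
  exact hAB (Finset.Subset.antisymm (AE1_comps_sub hA hB hxA hxB) (AE1_comps_sub hB hA hxB hxA))

theorem comps_nonadj {a : I → I → ℕ} (hs : ∀ i j, a i j = a j i) {N A B : Finset I}
    (hA : A ∈ comps a N) (hB : B ∈ comps a N) (hAB : A ≠ B) : ∀ i ∈ A, ∀ j ∈ B, a i j = 0 := by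
  intro i hi j hj
  exact comps_sep hA i hi j (comps_subset hB hj)
    (fun h1 => Finset.disjoint_left.1 (comps_disjoint hs hA hB hAB) h1 hj)

theorem comps_of_conn {a : I → I → ℕ} {N : Finset I} (hc : ConnS a N) : comps a N = {N} := by
  classical
  ext A
  rw [Finset.mem_singleton]
  constructor
  · intro hA
    by_contra hne
    obtain ⟨i, hi, j, hj, hjA, hpos⟩ := hc.2 A (comps_subset hA) (comps_conn hA).1 hne
    have h1 := comps_sep hA i hi j hj hjA
    omega
  · rintro rfl
    unfold comps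
    rw [Finset.mem_filter, Finset.mem_powerset]
    exact ⟨Finset.Subset.refl _, hc, fun i _ j hj hjA => absurd hj hjA⟩

/-- in a connected set `R`, every component of `R ∖ {x}` is adjacent to `x`. -/
theorem comps_adj {a : I → I → ℕ} (hs : ∀ i j, a i j = a j i) {R : Finset I} (hc : ConnS a R)
    (x : I) (hx : x ∈ R) (A : Finset I) (hA : A ∈ comps a (R.erase x)) : ∃ y ∈ A, 0 < a x y := by
  have hsub := comps_subset hA
  have hne' : A ≠ R := by
    intro h1
    exact (Finset.mem_erase.1 (hsub (h1 ▸ hx))).1 rfl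
  obtain ⟨i, hi, j, hj, hjA, hpos⟩ := hc.2 A (hsub.trans (Finset.erase_subset _ _))
    (comps_conn hA).1 hne'
  have hjx : j = x := by
    by_contra hjx
    have h1 := comps_sep hA i hi j (Finset.mem_erase.2 ⟨hjx, hj⟩) hjA
    omega
  subst hjx
  exact ⟨i, hi, by rw [hs]; exact hpos⟩

/-- more generally, every component of `R ∖ M` is adjacent to `M`. -/
theorem comps_adj_set {a : I → I → ℕ} (hs : ∀ i j, a i j = a j i) {R M : Finset I}
    (hc : ConnS a R) (hM : M ⊆ R) (hne : M.Nonempty) (A : Finset I) (hA : A ∈ comps a (R \ M)) :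
    ∃ y ∈ A, ∃ x ∈ M, 0 < a x y := by
  have hsub := comps_subset hA
  have hne' : A ≠ R := by
    intro h1
    obtain ⟨x, hx⟩ := hne
    have h2 := hsub (h1 ▸ hM hx)
    exact (Finset.mem_sdiff.1 h2).2 hx
  obtain ⟨i, hi, j, hj, hjA, hpos⟩ := hc.2 A (hsub.trans Finset.sdiff_subset)
    (comps_conn hA).1 hne'
  have hjM : j ∈ M := by
    by_contra hjM
    have h1 := comps_sep hA i hi j (Finset.mem_sdiff.2 ⟨hj, hjM⟩) hjA
    omega
  exact ⟨i, hi, j, hjM, by rw [hs]; exact hpos⟩

end

end Pool.Agent.H27.KAC
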