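import Pool.Agent.H41.KA.AD3

/-!
KAC ADE, module AD4: the vanishing lemma (no pole in direction `x`).

Generalises `vanish_general` (file KQVan) to an arbitrary set of levels `l ≥ 1`.  The exponents of the other vertices are
arbitrary rational numbers: `Fil_rpw`, `uS_fil_ne`.  For the vertex `x` the exponent at level `l` is a natural number `n_l`,
and if the symbol `(x,l)` occurs in some column then `n_l ≥ 1`.  Proof: bordered determinant with one extra row and column
for every level `l` which occurs, or multilinear expansion of the columns in the symbols (two equal symbols give zero).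
-/

set_option autoImplicit false

namespace Pool.Agent.H27.KAC

open scoped BigOperators
open MvPowerSeries

section

variable {I : Type} [Fintype I] [DecidableEq I]

private theorem AD4_det {J : Type} [Fintype J] [DecidableEq J] {a : I → I → ℕ} {x : I} (x0 : J)
    (rr : J → ℤ) (M : Matrix J J (MvPowerSeries I ℚ))
    (h1 : ∀ l i, l ≠ x0 → Fil a x (rr i) (M l i)) (h2 : ∀ i, Fil a x (rr i - 1) (M x0 i)) :
    Fil a x ((∑ i, rr i) - 1) M.det := by
  rw [Matrix.det_apply']
  apply Fil.sum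
  intro σ _
  have h3 : Fil a x (∑ i, (rr i - if σ i = x0 then (1:ℤ) else 0)) (∏ i, M (σ i) i) := by
    apply Fil.prod
    intro i _
    split_ifs with h
    · rw [h]
      exact h2 i
    · rw [sub_zero]
      exact h1 _ _ h
  have h4 : ∑ i, (rr i - if σ i = x0 then (1:ℤ) else 0) = (∑ i, rr i) - 1 := by
    rw [Finset.sum_sub_distrib]
    congr 1
    rw [Equiv.sum_comp σ (fun j => if j = x0 then (1:ℤ) else 0)]
    simp
  rw [h4] at h3
  have h5 := (Fil_intCast a x ((Equiv.Perm.sign σ : ℤˣ) : ℤ)).mul h3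
  rw [zero_add] at h5
  exact h5

private theorem AD4_colv (a : I → I → ℕ) (hs : ∀ i j, a i j = a j i) (x : I) (hx : a x x = 0)
    (k b : ℕ) (g : I → ℚ) (hb : b = 0 → ∀ j, g j = 0) :
    ∃ u : I → MvPowerSeries I ℚ, (∀ j l, C (g j) * xv a x k l = C (g j) * u l) ∧
      VReg a x ((k : ℤ) * b) (fun l => u l * uS a x k ^ b) := by
  rcases Nat.eq_zero_or_pos b with rfl | hb'
  · refine ⟨fun _ => 0, fun j l => ?_, fun l _ => ?_, ?_⟩
    · rw [hb rfl j, map_zero, zero_mul, zero_mul]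
    · show Fil a x _ (0 * uS a x k ^ 0)
      rw [zero_mul]
      exact Fil_zero a x _
    · show Fil a x _ (0 * uS a x k ^ 0)
      rw [zero_mul]
      exact Fil_zero a x _
  · obtain ⟨c, rfl⟩ : ∃ c, b = c + 1 := ⟨b - 1, by omega⟩
    refine ⟨xv a x k, fun _ _ => rfl, ?_⟩
    have h := ((uS_fil_self a hs x hx k).pow c)
    have h2 := VReg.smul h (xv_pole a hs x hx k)
    have e1 : (fun l => uS a x k ^ c * (uS a x k * xv a x k l)) =
        (fun l => xv a x k l * uS a x k ^ (c + 1)) := by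
      funext l
      ring
    rw [e1] at h2
    have e2 : (c : ℤ) * k + k = (k : ℤ) * ((c + 1 : ℕ) : ℤ) := by
      push_cast
      ring
    rw [e2] at h2
    exact h2

/-- the general form with `N` levels `t + 1`, `t < N`. -/
private theorem AD4_general (a : I → I → ℕ) (hs : ∀ i j, a i j = a j i) (x : I) (hx : a x x = 0)
    (N : ℕ) (n : Fin N → ℕ) (F : MvPowerSeries I ℚ) (hF : Fil a x 0 F)
    (r : I → I → MvPowerSeries I ℚ) (hr : ∀ j, VReg a x 0 (r j)) (g : Fin N → I → ℚ)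
    (hg : ∀ t, n t = 0 → ∀ j, g t j = 0) (γ : I →₀ ℕ)
    (hγ : cw a γ x = ∑ t : Fin N, (((t : ℕ) + 1 : ℕ) : ℤ) * (n t : ℤ)) :
    coeff γ (F * (∏ t : Fin N, uS a x ((t : ℕ) + 1) ^ n t) *
      (colMat (fun j l => r j l + ∑ t : Fin N, C (g t j) * xv a x ((t : ℕ) + 1) l)).det) = 0 := by
  choose u hu1 hu2 using fun t : Fin N => AD4_colv a hs x hx ((t : ℕ) + 1) (n t) (g t) (hg t)
  obtain ⟨M, hM⟩ : ∃ M : Matrix (I ⊕ Fin N) (I ⊕ Fin N) (MvPowerSeries I ℚ),
      M = Matrix.fromBlocks (Matrix.of (fun l i => r i l))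
        (-(Matrix.of (fun l t => u t l)))
        (Matrix.of (fun t j => (C (g t j) : MvPowerSeries I ℚ))) 1 := ⟨_, rfl⟩
  have hdet : (colMat (fun j l => r j l + ∑ t : Fin N, C (g t j) * xv a x ((t : ℕ) + 1) l)).det =
      M.det := by
    rw [hM, Matrix.det_fromBlocks_one₂₂]
    congr 1
    ext1 l i
    simp only [colMat, Matrix.of_apply, Matrix.sub_apply, Matrix.mul_apply, Matrix.neg_apply]
    rw [Finset.sum_congr rfl (fun t _ => hu1 t i l)]
    rw [sub_eq_add_neg, ← Finset.sum_neg_distrib]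
    congr 1
    refine Finset.sum_congr rfl (fun t _ => ?_)
    ring
  obtain ⟨d, hd⟩ : ∃ d : I ⊕ Fin N → MvPowerSeries I ℚ,
      d = Sum.elim (fun _ => 1) (fun t : Fin N => uS a x ((t : ℕ) + 1) ^ n t) := ⟨_, rfl⟩
  obtain ⟨rr, hrr⟩ : ∃ rr : I ⊕ Fin N → ℤ,
      rr = Sum.elim (fun _ => 0) (fun t : Fin N => (((t : ℕ) + 1 : ℕ) : ℤ) * (n t : ℤ)) := ⟨_, rfl⟩
  have hprod : (∏ t : Fin N, uS a x ((t : ℕ) + 1) ^ n t) * M.det =
      (M * Matrix.diagonal d).det := by
    rw [Matrix.det_mul, Matrix.det_diagonal, hd, Fintype.prod_sum_type]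
    simp only [Sum.elim_inl, Sum.elim_inr, Finset.prod_const_one, one_mul]
    ring
  have hU : ∀ t : Fin N, Fil a x ((((t : ℕ) + 1 : ℕ) : ℤ) * (n t : ℤ))
      (uS a x ((t : ℕ) + 1) ^ n t) := by
    intro t
    rw [mul_comm]
    exact (uS_fil_self a hs x hx ((t : ℕ) + 1)).pow (n t)
  have hfil : Fil a x ((∑ i, rr i) - 1) (M * Matrix.diagonal d).det := by
    apply AD4_det (Sum.inl x)
    · intro l i hl
      rw [Matrix.mul_diagonal, hM, hd, hrr]
      rcases l with l | t <;> rcases i with i | s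
      · have hl' : l ≠ x := fun h => hl (by rw [h])
        simp only [Matrix.fromBlocks_apply₁₁, Matrix.of_apply, Sum.elim_inl, mul_one]
        exact (hr i).1 l hl'
      · have hl' : l ≠ x := fun h => hl (by rw [h])
        simp only [Matrix.fromBlocks_apply₁₂, Matrix.neg_apply, Matrix.of_apply, Sum.elim_inr,
          neg_mul]
        exact ((hu2 s).1 l hl').neg
      · simp only [Matrix.fromBlocks_apply₂₁, Matrix.of_apply, Sum.elim_inl, mul_one]
        exact Fil_C a x _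
      · simp only [Matrix.fromBlocks_apply₂₂, Sum.elim_inr, Matrix.one_apply]
        split_ifs
        · rw [one_mul]
          exact hU s
        · rw [zero_mul]
          exact Fil_zero a x _
    · intro i
      rw [Matrix.mul_diagonal, hM, hd, hrr]
      rcases i with i | s
      · simp only [Matrix.fromBlocks_apply₁₁, Matrix.of_apply, Sum.elim_inl, mul_one]
        exact (hr i).2
      · simp only [Matrix.fromBlocks_apply₁₂, Matrix.neg_apply, Matrix.of_apply, Sum.elim_inr,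
          neg_mul]
        exact (hu2 s).2.neg
  have hsum : ∑ i, rr i = ∑ t : Fin N, (((t : ℕ) + 1 : ℕ) : ℤ) * (n t : ℤ) := by
    rw [hrr, Fintype.sum_sum_type]
    simp only [Sum.elim_inl, Sum.elim_inr, Finset.sum_const_zero, zero_add]
  rw [hdet, mul_assoc, hprod]
  refine Fil.coeff_eq_zero (hF.mul hfil) ?_
  rw [hγ, hsum]
  omega

omit [DecidableEq I] in
/-- rectangular supersets of the support. -/
private theorem AD4_sub (E : QE I) (N : ℕ) (hN : ∀ i k, E (i, k) ≠ 0 → k ≤ N) :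
    E.support ⊆ (Finset.univ : Finset I) ×ˢ Finset.range (N + 1) := by
  rintro ⟨i, k⟩ hik
  rw [Finsupp.mem_support_iff] at hik
  rw [Finset.mem_product]
  exact ⟨Finset.mem_univ _, Finset.mem_range.2 (Nat.lt_succ_of_le (hN i k hik))⟩

private theorem AD4_xv0 (a : I → I → ℕ) (x l : I) : xv a x 0 l = 0 := by
  have h1 := dl_single a x 0 1 l
  rw [dl_lev0, map_one, one_mul] at h1
  exact h1.symm

private theorem AD4_dl (a : I → I → ℕ) (E : QE I) (x : I) (N : ℕ)
    (hN : ∀ i k, E (i, k) ≠ 0 → k ≤ N) (l : I) :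
    dl a E l = (∑ i ∈ Finset.univ.erase x, ∑ k ∈ Finset.range (N + 1),
      C (E (i, k)) * xv a i k l) + ∑ t : Fin N, C (E (x, (t : ℕ) + 1)) * xv a x ((t : ℕ) + 1) l := by
  have h1 : dl a E l = ∑ ik ∈ (Finset.univ : Finset I) ×ˢ Finset.range (N + 1),
      C (E ik) * xv a ik.1 ik.2 l := by
    unfold dl
    refine Finset.sum_subset (AD4_sub E N hN) (fun ik _ hik => ?_)
    rw [Finsupp.notMem_support_iff] at hik
    rw [hik, map_zero, zero_mul]
  rw [h1, Finset.sum_product, ← Finset.add_sum_erase Finset.univ _ (Finset.mem_univ x), add_comm]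
  congr 1
  rw [Finset.sum_range_succ', AD4_xv0, mul_zero, add_zero, Finset.sum_range]

private theorem AD4_mU (a : I → I → ℕ) (E : QE I) (x : I) (N : ℕ)
    (hN : ∀ i k, E (i, k) ≠ 0 → k ≤ N) (n : Fin N → ℕ)
    (hn : ∀ t : Fin N, E (x, (t : ℕ) + 1) = (n t : ℚ)) :
    mU a E = (∏ i ∈ Finset.univ.erase x, ∏ k ∈ Finset.range (N + 1),
      rpw (uS a i k) (E (i, k))) * ∏ t : Fin N, uS a x ((t : ℕ) + 1) ^ n t := by
  rw [mU_eq_prod a E _ (AD4_sub E N hN), Finset.prod_product,
    ← Finset.mul_prod_erase Finset.univ _ (Finset.mem_univ x), mul_comm]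
  congr 1
  rw [Finset.prod_range_succ', uS_zero, rpw_unit_left, mul_one, Finset.prod_range]
  refine Finset.prod_congr rfl (fun t _ => ?_)
  show rpw (uS a x ((t : ℕ) + 1)) (E (x, (t : ℕ) + 1)) = _
  rw [hn t, rpw_nat _ (uS_const a x _)]

private theorem AD4_tdg (E : QE I) (x : I) (N : ℕ)
    (hN : ∀ i k, E (i, k) ≠ 0 → k ≤ N) (n : Fin N → ℕ)
    (hn : ∀ t : Fin N, E (x, (t : ℕ) + 1) = (n t : ℚ)) :
    tdg E x = ∑ t : Fin N, (((t : ℕ) + 1 : ℕ) : ℚ) * (n t : ℚ) := by
  have h1 : tdg E x = ∑ jk ∈ (Finset.univ : Finset I) ×ˢ Finset.range (N + 1),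
      if jk.1 = x then E jk * (jk.2 : ℚ) else 0 := by
    unfold tdg
    refine Finset.sum_subset (AD4_sub E N hN) (fun ik _ hik => ?_)
    rw [Finsupp.notMem_support_iff] at hik
    rw [hik, zero_mul, ite_self]
  rw [h1, Finset.sum_product, ← Finset.add_sum_erase Finset.univ _ (Finset.mem_univ x)]
  have h2 : (∑ i ∈ Finset.univ.erase x, ∑ k ∈ Finset.range (N + 1),
      if ((i, k) : I × ℕ).1 = x then E (i, k) * (((i, k) : I × ℕ).2 : ℚ) else 0) = 0 := by
    refine Finset.sum_eq_zero (fun i hi => Finset.sum_eq_zero (fun k _ => ?_))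
    rw [if_neg (Finset.ne_of_mem_erase hi)]
  rw [h2, add_zero, Finset.sum_range_succ', Finset.sum_range]
  simp only [if_true, Nat.cast_zero, mul_zero, add_zero]
  refine Finset.sum_congr rfl (fun t _ => ?_)
  rw [hn t, mul_comm]

theorem TV_van (a : I → I → ℕ) (hs : ∀ i j, a i j = a j i) (T : Trm I) (x : I) (hx : a x x = 0)
    (h : DReg T x) : TV a T = 0 := by
  classical
  by_cases hok : TOk a T
  swap
  · exact TV_of_not a T hok
  rw [TV_of_ok a T hok]
  unfold TV0
  obtain ⟨S, hS⟩ : ∃ S : Finset (I × ℕ),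
      S = T.E.support ∪ Finset.univ.biUnion (fun j => (T.Λ j).support) := ⟨_, rfl⟩
  obtain ⟨N, hN⟩ : ∃ N : ℕ, ∀ ik ∈ S, ik.2 ≤ N :=
    ⟨S.sup Prod.snd, fun ik hik => Finset.le_sup (f := Prod.snd) hik⟩
  have hE : ∀ i k, T.E (i, k) ≠ 0 → k ≤ N := by
    intro i k hik
    refine hN (i, k) ?_
    rw [hS, Finset.mem_union]
    exact Or.inl (Finsupp.mem_support_iff.2 hik)
  have hΛ : ∀ j i k, T.Λ j (i, k) ≠ 0 → k ≤ N := by
    intro j i k hik
    refine hN (i, k) ?_
    rw [hS, Finset.mem_union]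
    exact Or.inr (Finset.mem_biUnion.2 ⟨j, Finset.mem_univ j, Finsupp.mem_support_iff.2 hik⟩)
  choose n hn using fun t : Fin N => h.1 ((t : ℕ) + 1) (by omega)
  have hcol : (fun i => dl a (T.Λ i)) = fun j l =>
      (∑ i ∈ Finset.univ.erase x, ∑ k ∈ Finset.range (N + 1), C (T.Λ j (i, k)) * xv a i k l) +
        ∑ t : Fin N, C (T.Λ j (x, (t : ℕ) + 1)) * xv a x ((t : ℕ) + 1) l := by
    funext j l
    exact AD4_dl a (T.Λ j) x N (hΛ j) l
  rw [hcol, AD4_mU a T.E x N hE n hn]
  refine AD4_general a hs x hx N n _ ?_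
    (fun j l => ∑ i ∈ Finset.univ.erase x, ∑ k ∈ Finset.range (N + 1),
      C (T.Λ j (i, k)) * xv a i k l) ?_ (fun t j => T.Λ j (x, (t : ℕ) + 1)) ?_ _ ?_
  · refine KQLaur_fil0_prod (fun i hi => KQLaur_fil0_prod (fun k _ => ?_))
    exact Fil_rpw a x _ (uS_const a i k)
      (uS_fil_ne a hs x hx i (Finset.ne_of_mem_erase hi) k) _
  · intro j
    refine VReg.sum (fun i hi => VReg.sum (fun k _ => ?_))
    have h1 := VReg.smul (Fil_C a x (T.Λ j (i, k)))
      (xv_reg a hs x hx i (Finset.ne_of_mem_erase hi) k)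
    rw [add_zero] at h1
    exact h1
  · intro t ht j
    by_contra hne
    have h1 := h.2 j ((t : ℕ) + 1) (by omega) hne
    rw [hn t, ht, Nat.cast_zero] at h1
    exact absurd h1 (by norm_num)
  · have h1 := hok.2 x
    rw [AD4_tdg T.E x N hE n hn] at h1
    have h2 : cq a T.γ x = ((cw a (gN T.γ) x : ℤ) : ℚ) := by
      unfold cq cw
      push_cast
      refine Finset.sum_congr rfl (fun j _ => ?_)
      have h3 : ((gN T.γ j : ℕ) : ℚ) = T.γ j := hok.1 j
      rw [h3]
    rw [h2] at h1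
    have h4 : ((cw a (gN T.γ) x : ℤ) : ℚ) =
        ((∑ t : Fin N, (((t : ℕ) + 1 : ℕ) : ℤ) * (n t : ℤ) : ℤ) : ℚ) := by
      rw [← h1]
      push_cast
      rfl
    exact_mod_cast h4

end

end Pool.Agent.H27.KAC
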