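import Pool.Agent.H41.KA.AD3

/-!
KAC ADE, module AD5: the relation of the Q-system and its differential in term language.
-/

set_option autoImplicit false

namespace Pool.Agent.H27.KAC

open scoped BigOperators
open MvPowerSeries

section

variable {I : Type} [Fintype I] [DecidableEq I]

/-- the exponents of the shifted pair. -/
theorem AD5_dd (E : QE I) (x : I) (k : ℕ) :
    E + (sy x (k + 1) + sy x (k - 1)) = E + (2 : ℚ) • sy x k + dd x k := by
  unfold dd
  abel

theorem AD5_tdg_dd (x : I) (k : ℕ) (hk : 1 ≤ k) (i : I) : tdg (dd x k) i = 0 := by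
  have h : dd x k = sy x (k + 1) + ((-2 : ℚ) • sy x k + sy x (k - 1)) := by
    unfold dd
    rw [neg_smul]
    abel
  rw [h, tdg_add, tdg_add, tdg_smul, tdg_single, tdg_single, tdg_single]
  split_ifs
  · rw [Nat.cast_sub hk]
    push_cast
    ring
  · ring

theorem AD5_tdg_neg (E : QE I) (i : I) : tdg (-E) i = -tdg E i := by
  rw [← neg_one_smul ℚ E, tdg_smul]
  ring

theorem AD5_tdg_sub (E F : QE I) (i : I) : tdg (E - F) i = tdg E i - tdg F i := by
  rw [sub_eq_add_neg, tdg_add, AD5_tdg_neg]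
  ring

/-- `γ - k δ_x`. -/
theorem AD5_cq (a : I → I → ℕ) (γ : I → ℚ) (x : I) (k : ℕ) (i : I) :
    cq a (fun i => γ i - k * (Pi.single x 1 : I → ℚ) i) i =
      cq a γ i - (k : ℚ) * ((cart a i x : ℤ) : ℚ) := by
  have h1 : (fun i => γ i - k * (Pi.single x 1 : I → ℚ) i) =
      fun j => γ j + (fun j => (-(k : ℚ)) * (Pi.single x 1 : I → ℚ) j) j := by
    funext j
    ring
  rw [h1, cq_add, cq_smul, cq_single]
  ring

theorem AD5_sum (a : I → I → ℕ) (x : I) (k : ℕ) :
    ∑ y, (Pi.single x 1 : I → ℚ) y • cE a y k = cE a x k := by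
  rw [Finset.sum_eq_single x]
  · simp
  · intro y _ hy
    rw [Pi.single_eq_of_ne hy, zero_smul]
  · intro h
    exact absurd (Finset.mem_univ x) h

/-- from an identity of power series to an identity of values. -/
theorem AD5_key (a : I → I → ℕ) (hs : ∀ i j, a i j = a j i) (γ : I → ℚ) (E2 : QE I) (x : I)
    (k : ℕ) (hk : 1 ≤ k) (L1 L2 L3 : I → QE I)
    (hid : mU a E2 * (colMat (fun i => dl a (L2 i))).det =
      X x ^ k * (mU a (E2 - cE a x k) * (colMat (fun i => dl a (L1 i))).det) +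
        mU a (E2 + dd x k) * (colMat (fun i => dl a (L3 i))).det) :
    TV a ⟨γ, E2, L2⟩ =
      TV a ⟨fun i => γ i - k * (Pi.single x 1 : I → ℚ) i, E2 - cE a x k, L1⟩ +
        TV a ⟨γ, E2 + dd x k, L3⟩ := by
  have hd : ∀ i, tdg (E2 + dd x k) i = tdg E2 i := fun i => by
    rw [tdg_add, AD5_tdg_dd x k hk, add_zero]
  have hc : ∀ i, tdg (E2 - cE a x k) i = tdg E2 i - (k : ℚ) * ((cart a i x : ℤ) : ℚ) := fun i => by
    rw [AD5_tdg_sub, tdg_cE a hs]
  have h3 : TOk a ⟨γ, E2 + dd x k, L3⟩ ↔ TOk a ⟨γ, E2, L2⟩ := by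
    unfold TOk
    simp only [hd]
  by_cases h : TOk a ⟨γ, E2, L2⟩
  · obtain ⟨h1, h2⟩ := h
    simp only at h1 h2
    have hg : ∀ i, ((gN γ i : ℕ) : ℚ) = γ i := fun i => h1 i
    have e2 : TV a ⟨γ, E2, L2⟩ = coeff (gN γ) (mU a E2 * (colMat (fun i => dl a (L2 i))).det) :=
      TV_of_ok a _ ⟨h1, h2⟩
    have e3 : TV a ⟨γ, E2 + dd x k, L3⟩ =
        coeff (gN γ) (mU a (E2 + dd x k) * (colMat (fun i => dl a (L3 i))).det) :=
      TV_of_ok a _ (h3.2 ⟨h1, h2⟩)
    rw [e2, e3, hid, map_add]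
    congr 1
    rw [X_pow_eq, coeff_monomial_mul]
    by_cases hkx : k ≤ gN γ x
    · have hle : Finsupp.single x k ≤ gN γ := by
        rw [Finsupp.single_le_iff]
        exact hkx
      rw [if_pos hle, one_mul]
      have hn : ∀ i, (((gN γ - Finsupp.single x k) i : ℕ) : ℚ) =
          γ i - k * (Pi.single x 1 : I → ℚ) i := by
        intro i
        rw [Finsupp.tsub_apply]
        by_cases hi : i = x
        · subst hi
          rw [Finsupp.single_eq_same, Pi.single_eq_same, Nat.cast_sub hkx, hg]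
          ring
        · rw [Finsupp.single_eq_of_ne hi, Pi.single_eq_of_ne hi, Nat.sub_zero, hg]
          ring
      have hfl : ∀ i, ⌊γ i - k * (Pi.single x 1 : I → ℚ) i⌋₊ = (gN γ - Finsupp.single x k) i := by
        intro i
        rw [← hn i, Nat.floor_natCast]
      have hok : TOk a ⟨fun i => γ i - k * (Pi.single x 1 : I → ℚ) i, E2 - cE a x k, L1⟩ := by
        refine ⟨fun i => ?_, fun i => ?_⟩
        · show ((⌊γ i - k * (Pi.single x 1 : I → ℚ) i⌋₊ : ℕ) : ℚ) = _
          rw [hfl i, hn i]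
        · show tdg (E2 - cE a x k) i = cq a (fun i => γ i - k * (Pi.single x 1 : I → ℚ) i) i
          rw [hc i, h2 i, AD5_cq]
      have e1 : TV a ⟨fun i => γ i - k * (Pi.single x 1 : I → ℚ) i, E2 - cE a x k, L1⟩ =
          coeff (gN (fun i => γ i - k * (Pi.single x 1 : I → ℚ) i))
            (mU a (E2 - cE a x k) * (colMat (fun i => dl a (L1 i))).det) := TV_of_ok a _ hok
      have e4 : gN (fun i => γ i - k * (Pi.single x 1 : I → ℚ) i) = gN γ - Finsupp.single x k := by
        ext i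
        exact hfl i
      rw [e1, e4]
    · have hle : ¬ Finsupp.single x k ≤ gN γ := by
        rw [Finsupp.single_le_iff]
        exact hkx
      rw [if_neg hle]
      symm
      apply TV_neg a _ x
      show γ x - k * (Pi.single x 1 : I → ℚ) x < 0
      rw [Pi.single_eq_same, ← hg x]
      have : ((gN γ x : ℕ) : ℚ) < (k : ℚ) := by exact_mod_cast not_le.1 hkx
      linarith
  · rw [TV_of_not a _ h, TV_of_not a _ (fun h' => h (h3.1 h'))]
    rw [TV_of_not, add_zero]
    rintro ⟨h1, h2⟩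
    apply h
    simp only at h1 h2
    have hγ : ∀ i, ∃ n : ℕ, γ i = n := by
      intro i
      by_cases hi : i = x
      · subst hi
        refine ⟨⌊γ i - k * (Pi.single i 1 : I → ℚ) i⌋₊ + k, ?_⟩
        have := h1 i
        rw [Pi.single_eq_same] at this ⊢
        push_cast
        rw [this]
        ring
      · refine ⟨⌊γ i - k * (Pi.single x 1 : I → ℚ) i⌋₊, ?_⟩
        have := h1 i
        rw [Pi.single_eq_of_ne hi] at this ⊢
        rw [this]
        ring
    refine ⟨fun i => ?_, fun i => ?_⟩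
    · show ((⌊γ i⌋₊ : ℕ) : ℚ) = γ i
      obtain ⟨n, hn⟩ := hγ i
      rw [hn, Nat.floor_natCast]
    · show tdg E2 i = cq a γ i
      have := h2 i
      rw [hc i, AD5_cq] at this
      linarith

/-- `Q_{x,k}^2 = X_x^k ∏ Q_{j,k}^{a_xj} + Q_{x,k+1} Q_{x,k-1}`. -/
theorem TV_rel (a : I → I → ℕ) (hs : ∀ i j, a i j = a j i) (T : Trm I) (x : I) (k : ℕ) (hk : 1 ≤ k) :
    TV a (T.mulE ((2 : ℚ) • sy x k)) =
      TV a ((T.mulE ((2 : ℚ) • sy x k)).eta a k (Pi.single x 1)) +
        TV a (T.mulE (sy x (k + 1) + sy x (k - 1))) := by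
  unfold Trm.mulE Trm.eta
  simp only
  rw [AD5_sum, AD5_dd]
  apply AD5_key a hs _ _ _ _ hk
  rw [mU_add a _ (dd x k), mU_dd a x k hk, sub_eq_add_neg (T.E + (2 : ℚ) • sy x k) (cE a x k),
    mU_add a _ (-cE a x k)]
  ring

theorem AD5_dl_neg (a : I → I → ℕ) (E : QE I) (l : I) : dl a (-E) l = - dl a E l := by
  rw [← neg_one_smul ℚ, dl_smul, map_neg, map_one]
  ring

/-- the differential of `1 = η + (1 - η)`. -/
theorem AD5_dl (a : I → I → ℕ) (hs : ∀ i j, a i j = a j i) (x : I) (k : ℕ) (hk : 1 ≤ k) (l : I) :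
    mU a (dd x k) * dl a (dd x k) l = X x ^ k * mU a (-cE a x k) * dl a (cE a x k) l := by
  have h1 := dl_mU a (dd x k) l
  have h2 := dl_mU a (-cE a x k) l
  have h3 : dD a l (mU a (dd x k)) = -(C (-((k : ℚ) * (cart a l x : ℤ))) * X x ^ k *
      mU a (-cE a x k) + X x ^ k * dD a l (mU a (-cE a x k))) := by
    rw [mU_dd a x k hk, dD_sub, dD_one, dD_mul, dD_X_pow]
    ring
  have h4 : dl a (-cE a x k) l = - dl a (cE a x k) l := AD5_dl_neg a _ l
  rw [AD5_tdg_dd x k hk, map_zero, zero_mul, zero_add, h3] at h1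
  rw [AD5_tdg_neg, tdg_cE a hs, h4] at h2
  linear_combination h1 + X x ^ k * h2

/-- linearity of the determinant in column `j`. -/
theorem AD5_det (a : I → I → ℕ) (L : I → QE I) (j : I) (c : QE I) :
    (colMat (fun i => dl a (Function.update L j c i))).det =
      (Matrix.updateCol (colMat (fun i => dl a (L i))) j (dl a c)).det := by
  congr 1
  refine Matrix.ext fun l i => ?_
  rw [Matrix.updateCol_apply]
  show dl a (Function.update L j c i) l = if i = j then dl a c l else dl a (L i) l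
  by_cases hi : i = j
  · subst hi
    rw [Function.update_self, if_pos rfl]
  · rw [Function.update_of_ne hi, if_neg hi]

/-- the differential of the relation. -/
theorem TV_relD (a : I → I → ℕ) (hs : ∀ i j, a i j = a j i) (T : Trm I) (j x : I) (k : ℕ)
    (hk : 1 ≤ k) :
    TV a ((T.mulE ((2 : ℚ) • sy x k)).col j ((2 : ℚ) • sy x k)) =
      TV a (((T.mulE ((2 : ℚ) • sy x k)).eta a k (Pi.single x 1)).col j
        ((2 : ℚ) • sy x k - cE a x k)) +
        TV a ((T.mulE (sy x (k + 1) + sy x (k - 1))).col j (sy x (k + 1) + sy x (k - 1))) := by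
  unfold Trm.mulE Trm.eta Trm.col
  simp only
  rw [AD5_sum, AD5_dd]
  apply AD5_key a hs _ _ _ _ hk
  rw [AD5_det, AD5_det, AD5_det]
  rw [mU_add a _ (dd x k), sub_eq_add_neg (T.E + (2 : ℚ) • sy x k) (cE a x k),
    mU_add a _ (-cE a x k)]
  set B : Matrix I I (MvPowerSeries I ℚ) := colMat (fun i => dl a (T.Λ i)) with hB
  set M := mU a (T.E + (2 : ℚ) • sy x k) with hM
  set W := mU a (-cE a x k) with hW
  have hV : mU a (dd x k) = 1 - X x ^ k * W := mU_dd a x k hk
  have e1 : dl a ((2 : ℚ) • sy x k - cE a x k) =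
      dl a ((2 : ℚ) • sy x k) + (-1 : MvPowerSeries I ℚ) • dl a (cE a x k) := by
    funext l
    rw [sub_eq_add_neg, dl_add, Pi.add_apply, Pi.smul_apply, AD5_dl_neg, smul_eq_mul]
    ring
  have e2 : dl a (sy x (k + 1) + sy x (k - 1)) =
      dl a ((2 : ℚ) • sy x k) + dl a (dd x k) := by
    funext l
    rw [Pi.add_apply, ← dl_add]
    congr 1
    unfold dd
    abel
  have e3 : mU a (dd x k) • dl a (dd x k) = (X x ^ k * W) • dl a (cE a x k) := by
    funext l
    rw [Pi.smul_apply, Pi.smul_apply, smul_eq_mul, smul_eq_mul, AD5_dl a hs x k hk l]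
  rw [e1, e2, Matrix.det_updateCol_add, Matrix.det_updateCol_add, Matrix.det_updateCol_smul]
  have e4 : mU a (dd x k) * (B.updateCol j (dl a (dd x k))).det =
      X x ^ k * W * (B.updateCol j (dl a (cE a x k))).det := by
    rw [← Matrix.det_updateCol_smul, e3, Matrix.det_updateCol_smul]
  rw [hV] at e4 ⊢
  linear_combination (-M) * e4

end

end Pool.Agent.H27.KAC
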