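import Pool.Agent.H41.KA.AE2
import Pool.Agent.H41.KA.AD4
import Pool.Agent.H41.KA.AD5

/-!
KAC ADE, module AE3: the firing lemma for terms.

One firing: `T = T0.mulE (2 • sy x k)`, `TV_rel`; in the difference term `T0.mulE (sy x (k+1) + sy x (k-1))` all exponents
of `x` are natural, the symbols `(x,k±1)` are compensated, `(x,k)` has exponent `E(x,k) - 2 ≥ 1`: `TV_van`.
-/

set_option autoImplicit false

namespace Pool.Agent.H27.KAC

open scoped BigOperators

section

variable {I : Type} [Fintype I] [DecidableEq I]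

theorem etaM_zero (a : I → I → ℕ) (κ : I → ℕ) (T : Trm I) : T.etaM a κ (fun _ => 0) = T := by
  unfold Trm.etaM
  apply Trm.ext
  · funext i
    simp
  · simp
  · rfl

theorem etaM_etaM (a : I → I → ℕ) (κ : I → ℕ) (δ δ' : I → ℚ) (T : Trm I) :
    (T.etaM a κ δ).etaM a κ δ' = T.etaM a κ (fun i => δ i + δ' i) := by
  unfold Trm.etaM
  apply Trm.ext
  · funext i
    simp only []
    ring
  · simp only [add_smul, Finset.sum_add_distrib]
    abel
  · rfl

theorem eta_eq_etaM (a : I → I → ℕ) (k : ℕ) (δ : I → ℚ) (T : Trm I) :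
    T.eta a k δ = T.etaM a (fun _ => k) δ := rfl

/-- exponents after multiplication by powers of `η`. -/
theorem etaM_E (a : I → I → ℕ) (κ : I → ℕ) (δ : I → ℚ) (T : Trm I) (i : I) (l : ℕ) :
    (T.etaM a κ δ).E (i, l) =
      T.E (i, l) - ∑ x ∈ Finset.univ.filter (fun x => κ x = l), δ x * (cart a x i : ℚ) := by
  have h1 : (T.etaM a κ δ).E (i, l) = T.E (i, l) - (∑ x, δ x • cE a x (κ x)) (i, l) := rfl
  rw [h1, Finsupp.finsetSum_apply, Finset.sum_filter]
  congr 1
  refine Finset.sum_congr rfl (fun x _ => ?_)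
  rw [Finsupp.smul_apply, cE_apply, smul_eq_mul]
  by_cases h : κ x = l
  · rw [if_pos h, if_pos h.symm]
  · rw [if_neg h, if_neg (fun h' => h h'.symm), mul_zero]

theorem etaM_pow (a : I → I → ℕ) (κ : I → ℕ) (δ : I → ℚ) (T : Trm I) (p : ℚ) :
    (T.etaM a κ δ).pow p = (T.pow p).etaM a κ (fun i => p * δ i) := by
  unfold Trm.etaM Trm.pow
  apply Trm.ext
  · funext i
    simp only []
    ring
  · simp only [smul_sub, Finset.smul_sum, smul_smul]
  · rfl

theorem FReg.pow {T : Trm I} {x : I} {k σ : ℕ} (h : FReg T x k σ) (p : ℕ) (hp : 1 ≤ p) :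
    FReg (T.pow p) x k σ := by
  have hE : ∀ ik, (T.pow p).E ik = (p : ℚ) * T.E ik := fun ik => rfl
  refine ⟨fun l hl hlk => ?_, ?_, fun j l hl hne => ?_⟩
  · obtain ⟨n, hn⟩ := h.nat l hl hlk
    refine ⟨p * n, ?_⟩
    rw [hE, hn]
    push_cast
    ring
  · obtain ⟨n, hn⟩ := h.int
    refine ⟨p * n, ?_⟩
    rw [hE, hn]
    push_cast
    ring
  · rcases h.col j l hl hne with h1 | h1 | h1
    · exact Or.inl h1
    · exact Or.inr (Or.inl h1)
    · refine Or.inr (Or.inr ?_)
      rw [hE]
      have hp' : (1 : ℚ) ≤ p := by exact_mod_cast hp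
      calc (1 : ℚ) = 1 * 1 := by ring
        _ ≤ (p : ℚ) * T.E (x, l) := mul_le_mul hp' h1 zero_le_one (by linarith)

theorem TV_fire1 (a : I → I → ℕ) (hs : ∀ i j, a i j = a j i) (T : Trm I) (x : I) (hx : a x x = 0)
    (k σ : ℕ) (hk : 1 ≤ k) (hσ : Side k σ) (h : FReg T x k σ) (hE : 3 ≤ T.E (x, k)) :
    TV a T = TV a (T.eta a k (Pi.single x 1)) := by
  set T0 : Trm I := T.mulE (-((2 : ℚ) • sy x k)) with hT0
  have hT : T0.mulE ((2 : ℚ) • sy x k) = T := by
    rw [hT0]
    unfold Trm.mulE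
    apply Trm.ext
    · rfl
    · simp only [neg_add_cancel_right]
    · rfl
  have h1 := TV_rel a hs T0 x k hk
  rw [hT] at h1
  have h2 : TV a (T0.mulE (sy x (k + 1) + sy x (k - 1))) = 0 := by
    refine TV_van a hs _ x hx ?_
    have hE' : ∀ l : ℕ, (T0.mulE (sy x (k + 1) + sy x (k - 1))).E (x, l) =
        T.E (x, l) - (if l = k then 2 else 0) +
          ((if l = k + 1 then 1 else 0) + (if l = k - 1 then 1 else 0)) := by
      intro l
      have e : (T0.mulE (sy x (k + 1) + sy x (k - 1))).E =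
        T.E + -((2 : ℚ) • sy x k) + (sy x (k + 1) + sy x (k - 1)) := rfl
      rw [e]
      simp only [Finsupp.add_apply, Finsupp.neg_apply, Finsupp.smul_apply, smul_eq_mul, sy,
        Finsupp.single_apply, Prod.mk.injEq, true_and]
      have e1 : (k = l) = (l = k) := propext ⟨Eq.symm, Eq.symm⟩
      have e2 : (k + 1 = l) = (l = k + 1) := propext ⟨Eq.symm, Eq.symm⟩
      have e3 : (k - 1 = l) = (l = k - 1) := propext ⟨Eq.symm, Eq.symm⟩
      simp only [e1, e2, e3]
      by_cases hlk : l = k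
      · simp only [hlk, if_true]
        ring
      · simp only [hlk, if_false]
        ring
    have hΛ' : (T0.mulE (sy x (k + 1) + sy x (k - 1))).Λ = T.Λ := rfl
    have hkk : ∀ l, l ≠ k → T.E (x, l) ≤ (T0.mulE (sy x (k + 1) + sy x (k - 1))).E (x, l) := by
      intro l hl
      rw [hE' l, if_neg hl]
      split_ifs <;> linarith
    have hEk : (T0.mulE (sy x (k + 1) + sy x (k - 1))).E (x, k) = T.E (x, k) - 2 := by
      rw [hE' k, if_pos rfl, if_neg (by omega), if_neg (by omega)]
      ring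
    refine ⟨fun l hl => ?_, fun j l hl hne => ?_⟩
    · by_cases hlk : l = k
      · rw [hlk, hEk]
        obtain ⟨n, hn⟩ := h.int
        rw [hn] at hE ⊢
        have h3 : (3 : ℤ) ≤ n := by exact_mod_cast hE
        refine ⟨(n - 2).toNat, ?_⟩
        have h4 : ((n - 2).toNat : ℤ) = n - 2 := Int.toNat_of_nonneg (by omega)
        have h5 : (((n - 2).toNat : ℤ) : ℚ) = ((n - 2 : ℤ) : ℚ) := by rw [h4]
        push_cast at h5
        exact h5.symm
      · obtain ⟨n, hn⟩ := h.nat l hl hlk
        rw [hE' l, hn, if_neg hlk]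
        refine ⟨n + ((if l = k + 1 then 1 else 0) + (if l = k - 1 then 1 else 0)), ?_⟩
        push_cast
        ring
    · rw [hΛ'] at hne
      have hnn : ∀ l', 1 ≤ l' → l' ≠ k → 0 ≤ T.E (x, l') := by
        intro l' h1' h2'
        obtain ⟨n, hn⟩ := h.nat l' h1' h2'
        rw [hn]
        exact Nat.cast_nonneg n
      by_cases hlk : l = k
      · rw [hlk, hEk]
        linarith
      · rcases h.col j l hl hne with h3 | h3 | h3
        · have h4 := hnn l hl hlk
          rw [hE' l, if_neg hlk]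
          rcases hσ with hσ | hσ
          · rw [if_pos (by omega)]
            split_ifs <;> linarith
          · rw [if_neg (by omega), if_pos (by omega)]
            linarith
        · exact absurd h3 hlk
        · exact h3.trans (hkk l hlk)
  rw [h2, add_zero] at h1
  exact h1

theorem AE3_single (a : I → I → ℕ) (κ : I → ℕ) (x : I) (T : Trm I) :
    T.eta a (κ x) (Pi.single x 1) = T.etaM a κ (fun i => if i = x then 1 else 0) := by
  unfold Trm.eta Trm.etaM
  apply Trm.ext
  · funext i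
    simp only [Pi.single_apply]
    by_cases h : i = x
    · simp only [h, if_true]
    · simp only [h, if_false, mul_zero]
  · simp only []
    congr 1
    refine Finset.sum_congr rfl (fun y _ => ?_)
    rw [Pi.single_apply]
    by_cases h : y = x
    · rw [h]
    · rw [if_neg h, zero_smul, zero_smul]
  · rfl

theorem AE3_E (a : I → I → ℕ) (k : ℕ) (x : I) (T : Trm I) (y : I) (l : ℕ) :
    (T.eta a k (Pi.single x 1)).E (y, l) =
      T.E (y, l) - (if l = k then ((cart a x y : ℤ) : ℚ) else 0) := by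
  have h1 : (T.eta a k (Pi.single x 1)).E (y, l) =
    T.E (y, l) - (∑ z, (Pi.single x (1 : ℚ) : I → ℚ) z • cE a z k) (y, l) := rfl
  rw [h1, Finsupp.finsetSum_apply, Finset.sum_eq_single x]
  · rw [Finsupp.smul_apply, Pi.single_eq_same, one_smul, cE_apply]
  · intro z _ hz
    rw [Finsupp.smul_apply, Pi.single_eq_of_ne hz, zero_smul]
  · intro hx
    exact absurd (Finset.mem_univ x) hx

theorem AE3_cart_symm (a : I → I → ℕ) (hs : ∀ i j, a i j = a j i) (x y : I) :
    cart a x y = cart a y x := by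
  unfold cart
  rw [hs x y]
  by_cases h : x = y
  · rw [if_pos h, if_pos h.symm]
  · rw [if_neg h, if_neg (fun h' => h h'.symm)]

theorem AE3_cart_ne (a : I → I → ℕ) {x y : I} (h : x ≠ y) : cart a x y = -(a x y : ℤ) := by
  unfold cart
  rw [if_neg h, zero_sub]

theorem TV_fire (a : I → I → ℕ) (hs : ∀ i j, a i j = a j i) (N : Finset I)
    (hN : ∀ x ∈ N, a x x = 0) (κ σ : I → ℕ) (hκ : ∀ x ∈ N, 1 ≤ κ x)
    (hadj : ∀ x ∈ N, ∀ y ∈ N, 0 < a x y → κ x = κ y) (hσ : ∀ x ∈ N, Side (κ x) (σ x)) (T : Trm I)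
    (h : ∀ x ∈ N, FReg T x (κ x) (σ x)) (ν : I → ℤ) (hν : ∀ x ∈ N, T.E (x, κ x) = ν x)
    (v : I → ℕ) (hv : FireTo a N 3 ν v) :
    TV a T = TV a (T.etaM a κ (fun i => (v i : ℚ))) := by
  induction hv generalizing T with
  | nil ν =>
    have e : (fun i => (((0 : I → ℕ) i : ℕ) : ℚ)) = fun _ : I => (0 : ℚ) := by
      funext i
      simp
    rw [e, etaM_zero]
  | cons ν v x hx hθ hv ih =>
    have hEx : 3 ≤ T.E (x, κ x) := by
      rw [hν x hx]
      exact_mod_cast hθ
    rw [TV_fire1 a hs T x (hN x hx) (κ x) (σ x) (hκ x hx) (hσ x hx) (h x hx) hEx]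
    set T' : Trm I := T.eta a (κ x) (Pi.single x 1) with hT'
    have hE : ∀ y l, T'.E (y, l) = T.E (y, l) - (if l = κ x then ((cart a x y : ℤ) : ℚ) else 0) :=
      fun y l => AE3_E a (κ x) x T y l
    have hΛ : T'.Λ = T.Λ := rfl
    have hne : ∀ y ∈ N, κ y ≠ κ x → cart a x y = 0 := by
      intro y hy hk
      have hxy : x ≠ y := fun h' => hk (by rw [h'])
      rw [AE3_cart_ne a hxy]
      have h0 : a x y = 0 := by
        by_contra h0
        exact hk (hadj x hx y hy (Nat.pos_of_ne_zero h0)).symm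
      rw [h0]
      simp
    have hEne : ∀ y ∈ N, ∀ l, l ≠ κ y → T'.E (y, l) = T.E (y, l) := by
      intro y hy l hl
      rw [hE]
      by_cases hlx : l = κ x
      · rw [if_pos hlx, hne y hy (fun h' => hl (by rw [hlx, h']))]
        simp
      · rw [if_neg hlx, sub_zero]
    have hEeq : ∀ y ∈ N, T'.E (y, κ y) = ((ν y - cart a y x : ℤ) : ℚ) := by
      intro y hy
      rw [hE, hν y hy]
      by_cases hk : κ y = κ x
      · rw [if_pos hk, AE3_cart_symm a hs x y]
        push_cast
        ring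
      · rw [if_neg hk, AE3_cart_symm a hs y x, hne y hy hk]
        simp
    have hreg : ∀ y ∈ N, FReg T' y (κ y) (σ y) := by
      intro y hy
      refine ⟨fun l hl hlk => ?_, ?_, fun j l hl hnz => ?_⟩
      · rw [hEne y hy l hlk]
        exact (h y hy).nat l hl hlk
      · exact ⟨_, hEeq y hy⟩
      · rw [hΛ] at hnz
        by_cases hlk : l = κ y
        · exact Or.inr (Or.inl hlk)
        · rcases (h y hy).col j l hl hnz with h1 | h1 | h1
          · exact Or.inl h1
          · exact Or.inr (Or.inl h1)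
          · refine Or.inr (Or.inr ?_)
            rw [hEne y hy l hlk]
            exact h1
    rw [ih T' hreg hEeq, hT', AE3_single, etaM_etaM]
    congr 2
    funext i
    rw [Pi.add_apply, Pi.single_apply]
    split_ifs <;> push_cast <;> ring

end

end Pool.Agent.H27.KAC
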