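import Pool.Agent.H41.KA.AG0
import Pool.Agent.H41.KA.AE3
import Pool.Agent.H41.KA.AE1

/-!
KAC ADE, module AG1: algebra of patterns (everything is bookkeeping; `Trm.ext` and `Finsupp.ext`).
-/

set_option autoImplicit false
set_option linter.unusedSectionVars false

namespace Pool.Agent.H27.KAC

open scoped BigOperators

section

variable {I : Type} [Fintype I] [DecidableEq I]


/-- general insertion. -/
noncomputable def AG1_ins (a : I → I → ℕ) (κ : I → ℕ) (δ : I → ℚ) (B : Finset I) (c : I → QE I)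
    (T : Trm I) : Trm I :=
  ⟨fun i => T.γ i - κ i * δ i, T.E - ∑ x, δ x • cE a x (κ x), fun i => if i ∈ B then c i else T.Λ i⟩

theorem AG1_patT (a : I → I → ℕ) (B : Finset I) (π : Pat I) (T : Trm I) :
    patT a B π T = AG1_ins a π.s (fun i => -resQ B π.q i) B (fun x => sy x (π.s x + 1)) T := rfl

theorem AG1_blkT (a : I → I → ℕ) (B : Finset I) (k σ : ℕ) (q : I → ℚ) (T : Trm I) :
    blkT a B k σ q T = AG1_ins a (fun _ => k) (fun i => -resQ B q i) B (fun x => sy x σ) T := rfl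

theorem AG1_rawT (a : I → I → ℕ) (B : Finset I) (k : ℕ) (q : I → ℚ) (m : I → ℕ) (T : Trm I) :
    rawT a B k q m T = AG1_ins a (fun _ => k) (fun i => if i ∈ B then (m i : ℚ) - q i else 0) B
      (fun x => if m x = 0 then sy x (k - 1) else cE a x k) T := rfl

theorem AG1_comm (a : I → I → ℕ) (κ κ' : I → ℕ) (δ δ' : I → ℚ) (A B : Finset I)
    (h : Disjoint A B) (c c' : I → QE I) (T : Trm I) :
    AG1_ins a κ δ A c (AG1_ins a κ' δ' B c' T) = AG1_ins a κ' δ' B c' (AG1_ins a κ δ A c T) := by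
  refine Trm.ext ?_ ?_ ?_
  · funext i
    show T.γ i - κ' i * δ' i - κ i * δ i = T.γ i - κ i * δ i - κ' i * δ' i
    ring
  · show T.E - (∑ x, δ' x • cE a x (κ' x)) - (∑ x, δ x • cE a x (κ x)) =
      T.E - (∑ x, δ x • cE a x (κ x)) - (∑ x, δ' x • cE a x (κ' x))
    abel
  · funext i
    show (if i ∈ A then c i else if i ∈ B then c' i else T.Λ i) =
      if i ∈ B then c' i else if i ∈ A then c i else T.Λ i
    by_cases hA : i ∈ A
    · rw [if_pos hA, if_neg (Finset.disjoint_left.1 h hA), if_pos hA]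
    · rw [if_neg hA, if_neg hA]

theorem AG1_union (a : I → I → ℕ) (κ κ' κ'' : I → ℕ) (δ δ' δ'' : I → ℚ) (A B : Finset I)
    (c c' c'' : I → QE I) (T : Trm I)
    (hγ : ∀ i, (κ'' i : ℚ) * δ'' i = κ i * δ i + κ' i * δ' i)
    (hE : ∀ i, δ'' i • cE a i (κ'' i) = δ i • cE a i (κ i) + δ' i • cE a i (κ' i))
    (hA : ∀ i ∈ A, c'' i = c i) (hB : ∀ i ∈ B, i ∉ A → c'' i = c' i) :
    AG1_ins a κ'' δ'' (A ∪ B) c'' T = AG1_ins a κ δ A c (AG1_ins a κ' δ' B c' T) := by
  refine Trm.ext ?_ ?_ ?_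
  · funext i
    show T.γ i - κ'' i * δ'' i = T.γ i - κ' i * δ' i - κ i * δ i
    rw [hγ]
    ring
  · show T.E - (∑ x, δ'' x • cE a x (κ'' x)) =
      T.E - (∑ x, δ' x • cE a x (κ' x)) - (∑ x, δ x • cE a x (κ x))
    rw [Finset.sum_congr rfl fun x _ => hE x, Finset.sum_add_distrib]
    abel
  · funext i
    show (if i ∈ A ∪ B then c'' i else T.Λ i) = if i ∈ A then c i else if i ∈ B then c' i else T.Λ i
    by_cases h1 : i ∈ A
    · rw [if_pos h1, if_pos (Finset.mem_union_left _ h1), hA i h1]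
    · by_cases h2 : i ∈ B
      · rw [if_neg h1, if_pos h2, if_pos (Finset.mem_union_right _ h2), hB i h2 h1]
      · rw [if_neg h1, if_neg h2, if_neg]
        rw [Finset.mem_union]
        rintro (h | h)
        · exact h1 h
        · exact h2 h

theorem AG1_congr (a : I → I → ℕ) (κ κ' : I → ℕ) (δ δ' : I → ℚ) (B : Finset I)
    (c c' : I → QE I) (T T' : Trm I) (hγ : T.γ = T'.γ) (hE : T.E = T'.E)
    (hΛ : ∀ j, j ∉ B → T.Λ j = T'.Λ j)
    (hγ' : ∀ i, (κ i : ℚ) * δ i = κ' i * δ' i)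
    (hE' : ∀ i, δ i • cE a i (κ i) = δ' i • cE a i (κ' i)) (hc : ∀ i ∈ B, c i = c' i) :
    AG1_ins a κ δ B c T = AG1_ins a κ' δ' B c' T' := by
  refine Trm.ext ?_ ?_ ?_
  · funext i
    show T.γ i - κ i * δ i = T'.γ i - κ' i * δ' i
    rw [hγ, hγ']
  · show T.E - (∑ x, δ x • cE a x (κ x)) = T'.E - (∑ x, δ' x • cE a x (κ' x))
    rw [hE, Finset.sum_congr rfl fun x _ => hE' x]
  · funext i
    show (if i ∈ B then c i else T.Λ i) = if i ∈ B then c' i else T'.Λ i
    by_cases h1 : i ∈ B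
    · rw [if_pos h1, if_pos h1, hc i h1]
    · rw [if_neg h1, if_neg h1, hΛ i h1]

theorem AG1_E (a : I → I → ℕ) (κ : I → ℕ) (δ : I → ℚ) (B : Finset I) (c : I → QE I) (T : Trm I)
    (x : I) (l : ℕ) (h : ∀ y, δ y ≠ 0 → cart a y x = 0) :
    (AG1_ins a κ δ B c T).E (x, l) = T.E (x, l) := by
  show (T.E - ∑ y, δ y • cE a y (κ y)) (x, l) = T.E (x, l)
  rw [Finsupp.sub_apply, Finsupp.finsetSum_apply, Finset.sum_eq_zero, sub_zero]
  intro y _
  rw [Finsupp.smul_apply, cE_apply, smul_eq_mul]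
  by_cases hy : δ y = 0
  · rw [hy, zero_mul]
  · rw [h y hy]
    simp

theorem AG1_RReg (a : I → I → ℕ) (κ : I → ℕ) (δ : I → ℚ) (A B : Finset I) (c : I → QE I) (T : Trm I)
    (h : ∀ x ∈ A, ∀ y, δ y ≠ 0 → cart a y x = 0)
    (hc : ∀ j ∈ B, ∀ x ∈ A, ∀ l, 1 ≤ l → c j (x, l) = 0) (hT : RReg (A ∪ B) T) :
    RReg A (AG1_ins a κ δ B c T) := by
  refine ⟨fun x hx l hl => ?_, fun x hx j hj l hl hne => ?_⟩
  · rw [AG1_E a κ δ B c T x l (h x hx)]
    exact hT.nat x (Finset.mem_union_left _ hx) l hl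
  · rw [AG1_E a κ δ B c T x l (h x hx)]
    have h1 : (if j ∈ B then c j else T.Λ j) (x, l) ≠ 0 := hne
    by_cases hB : j ∈ B
    · rw [if_pos hB] at h1
      exact absurd (hc j hB x hx l hl) h1
    · rw [if_neg hB] at h1
      refine hT.col x (Finset.mem_union_left _ hx) j ?_ l hl h1
      rw [Finset.mem_union]
      rintro (h2 | h2)
      · exact hj h2
      · exact hB h2

theorem AG1_Kink (a : I → I → ℕ) (κ : I → ℕ) (δ : I → ℚ) (A B : Finset I) (c : I → QE I)
    (T : Trm I) (f : ℕ) (h : ∀ x ∈ A, ∀ y, δ y ≠ 0 → cart a y x = 0) (hT : Kink A f T) :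
    Kink A f (AG1_ins a κ δ B c T) := by
  obtain ⟨x, hx, h1⟩ := hT
  refine ⟨x, hx, ?_⟩
  rw [AG1_E a κ δ B c T x f (h x hx)]
  exact h1

theorem AG1_cart {a : I → I → ℕ} (hs : ∀ i j, a i j = a j i) {x y : I} (hxy : x ≠ y)
    (h : a x y = 0) : cart a y x = 0 := by
  unfold cart
  rw [if_neg hxy.symm, hs y x, h]
  simp

theorem AG1_res_ne {B : Finset I} {q : I → ℚ} {y : I} (h : -resQ B q y ≠ 0) : y ∈ B ∧ q y ≠ 0 := by
  unfold resQ at h
  by_cases hy : y ∈ B
  · rw [if_pos hy] at h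
    exact ⟨hy, fun h0 => h (by rw [h0, neg_zero])⟩
  · rw [if_neg hy] at h
    exact absurd neg_zero h

theorem AG1_sy_apply {x j : I} (h : x ≠ j) (l k : ℕ) : (sy j k : QE I) (x, l) = 0 := by
  refine Finsupp.single_eq_of_ne ?_
  intro h'
  exact h (congrArg Prod.fst h')

theorem AG1_sep_cart {a : I → I → ℕ} (hs : ∀ i j, a i j = a j i) {A B : Finset I}
    (h : Sep a A B) {x y : I} (hx : x ∈ A) (hy : y ∈ B) : cart a y x = 0 :=
  AG1_cart hs (fun h0 => Finset.disjoint_left.1 h.1 hx (h0 ▸ hy)) (h.2 x hx y hy)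

theorem AG1_disj_ne {A B : Finset I} (h : Disjoint A B) {x y : I} (hx : x ∈ A) (hy : y ∈ B) :
    x ≠ y := fun h0 => Finset.disjoint_left.1 h hx (h0 ▸ hy)

theorem AG1_sum_comm {α β : Type} (L : List α) (M : List β) (f : α → β → ℚ) :
    (L.map fun c => (M.map fun d => f c d).sum).sum =
      (M.map fun d => (L.map fun c => f c d).sum).sum := by
  induction L with
  | nil => simp
  | cons c L ih =>
    rw [List.map_cons, List.sum_cons, ih]
    simp only [List.map_cons, List.sum_cons]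
    rw [List.sum_map_add]

theorem AG1_flat {α β : Type} (L : List α) (f : α → List β) (g : β → ℚ) :
    ((L.flatMap f).map g).sum = (L.map fun c => ((f c).map g).sum).sum := by
  induction L with
  | nil => simp
  | cons c L ih => rw [List.flatMap_cons, List.map_append, List.sum_append, ih, List.map_cons,
      List.sum_cons]

theorem AG1_mul_sum {α : Type} (L : List α) (r : ℚ) (f : α → ℚ) :
    r * (L.map f).sum = (L.map fun c => r * f c).sum := by
  rw [List.sum_map_mul_left]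

theorem AG1_disj_uni (B : Finset I) (U : List (Finset I × FFn I))
    (h : ∀ c ∈ U, Disjoint B c.1) : Disjoint B (uni U) := by
  induction U with
  | nil => exact Finset.disjoint_empty_right B
  | cons b U ih =>
    show Disjoint B (b.1 ∪ uni U)
    rw [Finset.disjoint_union_right]
    exact ⟨h b List.mem_cons_self, ih fun c hc => h c (List.mem_cons_of_mem _ hc)⟩

theorem AG1_sep_uni (a : I → I → ℕ) (B : Finset I) (U : List (Finset I × FFn I))
    (h : ∀ c ∈ U, Sep a B c.1) : Sep a B (uni U) := by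
  refine ⟨AG1_disj_uni B U fun c hc => (h c hc).1, ?_⟩
  induction U with
  | nil =>
    intro x _ y hy
    exact absurd hy (Finset.notMem_empty y)
  | cons b U ih =>
    intro x hx y hy
    have hy' : y ∈ b.1 ∪ uni U := hy
    rw [Finset.mem_union] at hy'
    rcases hy' with h1 | h1
    · exact (h b List.mem_cons_self).2 x hx y h1
    · exact ih (fun c hc => h c (List.mem_cons_of_mem _ hc)) x hx y h1

theorem tauT_eq_patT (a : I → I → ℕ) (B : Finset I) (k : ℕ) (q : I → ℚ) (T : Trm I) :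
    tauT a B k q T = patT a B ⟨fun _ => k, q⟩ T := by
  rfl

theorem patT_E (a : I → I → ℕ) (B : Finset I) (π : Pat I) (T : Trm I) (i : I) (l : ℕ) :
    (patT a B π T).E (i, l) =
      T.E (i, l) + ∑ x ∈ B.filter (fun x => π.s x = l), π.q x * (cart a x i : ℚ) := by
  show (T.E - ∑ x, (-resQ B π.q x) • cE a x (π.s x)) (i, l) = _
  rw [Finsupp.sub_apply, Finsupp.finsetSum_apply, sub_eq_add_neg, ← Finset.sum_neg_distrib,
    Finset.sum_filter]
  congr 1
  have h1 : ∀ x, -((-resQ B π.q x) • cE a x (π.s x)) (i, l) =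
      if x ∈ B then (if π.s x = l then π.q x * (cart a x i : ℚ) else 0) else 0 := by
    intro x
    rw [Finsupp.smul_apply, cE_apply, smul_eq_mul]
    unfold resQ
    by_cases hx : x ∈ B
    · rw [if_pos hx, if_pos hx]
      by_cases hl : l = π.s x
      · rw [if_pos hl, if_pos hl.symm]
        ring
      · rw [if_neg hl, if_neg (Ne.symm hl)]
        ring
    · rw [if_neg hx, if_neg hx]
      ring
  rw [Finset.sum_congr rfl fun x _ => h1 x, Finset.sum_ite_mem, Finset.univ_inter]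

theorem patT_comm (a : I → I → ℕ) (B B' : Finset I) (h : Disjoint B B') (π π' : Pat I) (T : Trm I) :
    patT a B π (patT a B' π' T) = patT a B' π' (patT a B π T) := by
  rw [AG1_patT, AG1_patT, AG1_patT, AG1_patT, AG1_comm a _ _ _ _ B B' h]

theorem patT_glue (a : I → I → ℕ) (B B' : Finset I) (h : Disjoint B B') (π π' : Pat I) (T : Trm I) :
    patT a (B ∪ B') (glue B π π') T = patT a B π (patT a B' π' T) := by
  rw [AG1_patT, AG1_patT, AG1_patT]
  have hr : ∀ i, -resQ (B ∪ B') (glue B π π').q i = -resQ B π.q i + -resQ B' π'.q i := by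
    intro i
    unfold resQ glue
    dsimp only
    by_cases h1 : i ∈ B
    · have h2 : i ∉ B' := Finset.disjoint_left.1 h h1
      simp [h1, h2]
    · by_cases h2 : i ∈ B'
      · simp [h1, h2]
      · simp [h1, h2]
  have hn : ∀ i, i ∉ B → resQ B π.q i = 0 := fun i hi => if_neg hi
  have hn' : ∀ i, i ∉ B' → resQ B' π'.q i = 0 := fun i hi => if_neg hi
  refine AG1_union a _ _ _ _ _ _ B B' _ _ _ T ?_ ?_ ?_ ?_
  · intro i
    rw [hr]
    by_cases h1 : i ∈ B
    · rw [hn' i (Finset.disjoint_left.1 h h1), show (glue B π π').s i = π.s i from if_pos h1]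
      ring
    · rw [hn i h1, show (glue B π π').s i = π'.s i from if_neg h1]
      ring
  · intro i
    rw [hr]
    by_cases h1 : i ∈ B
    · rw [hn' i (Finset.disjoint_left.1 h h1), show (glue B π π').s i = π.s i from if_pos h1,
        neg_zero, add_zero, zero_smul, add_zero]
    · rw [hn i h1, show (glue B π π').s i = π'.s i from if_neg h1, neg_zero, zero_add, zero_smul,
        zero_add]
  · intro i hi
    rw [show (glue B π π').s i = π.s i from if_pos hi]
  · intro i _ hi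
    rw [show (glue B π π').s i = π'.s i from if_neg hi]

theorem blkT_union (a : I → I → ℕ) (A B : Finset I) (h : Disjoint A B) (k σ : ℕ) (q : I → ℚ)
    (T : Trm I) : blkT a (A ∪ B) k σ q T = blkT a A k σ q (blkT a B k σ q T) := by
  rw [AG1_blkT, AG1_blkT, AG1_blkT]
  have hr : ∀ i, -resQ (A ∪ B) q i = -resQ A q i + -resQ B q i := by
    intro i
    unfold resQ
    by_cases h1 : i ∈ A
    · have h2 : i ∉ B := Finset.disjoint_left.1 h h1
      simp [h1, h2]
    · by_cases h2 : i ∈ B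
      · simp [h1, h2]
      · simp [h1, h2]
  refine AG1_union a _ _ _ _ _ _ A B _ _ _ T ?_ ?_ ?_ ?_
  · intro i
    rw [hr]
    ring
  · intro i
    rw [hr, add_smul]
  · intro i _
    rfl
  · intro i _ _
    rfl

theorem blkT_comm (a : I → I → ℕ) (A B : Finset I) (h : Disjoint A B) (k σ k' σ' : ℕ)
    (q q' : I → ℚ) (T : Trm I) :
    blkT a A k σ q (blkT a B k' σ' q' T) = blkT a B k' σ' q' (blkT a A k σ q T) := by
  rw [AG1_blkT, AG1_blkT, AG1_blkT, AG1_blkT, AG1_comm a _ _ _ _ A B h]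

theorem blkT_patT_comm (a : I → I → ℕ) (A B : Finset I) (h : Disjoint A B) (k σ : ℕ)
    (q : I → ℚ) (π : Pat I) (T : Trm I) :
    blkT a A k σ q (patT a B π T) = patT a B π (blkT a A k σ q T) := by
  rw [AG1_blkT, AG1_patT, AG1_patT, AG1_blkT, AG1_comm a _ _ _ _ A B h]

theorem rawT_patT_comm (a : I → I → ℕ) (A B : Finset I) (h : Disjoint A B) (k : ℕ)
    (q : I → ℚ) (m : I → ℕ) (π : Pat I) (T : Trm I) :
    rawT a A k q m (patT a B π T) = patT a B π (rawT a A k q m T) := by
  rw [AG1_rawT, AG1_patT, AG1_patT, AG1_rawT, AG1_comm a _ _ _ _ A B h]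

theorem rawT_blkT_comm (a : I → I → ℕ) (A B : Finset I) (h : Disjoint A B) (k k' σ : ℕ)
    (q q' : I → ℚ) (m : I → ℕ) (T : Trm I) :
    rawT a A k q m (blkT a B k' σ q' T) = blkT a B k' σ q' (rawT a A k q m T) := by
  rw [AG1_rawT, AG1_blkT, AG1_blkT, AG1_rawT, AG1_comm a _ _ _ _ A B h]

theorem patT_etaM_comm (a : I → I → ℕ) (B : Finset I) (π : Pat I) (κ : I → ℕ) (δ : I → ℚ)
    (T : Trm I) : patT a B π (T.etaM a κ δ) = (patT a B π T).etaM a κ δ := by
  refine Trm.ext ?_ ?_ rfl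
  · funext i
    show T.γ i - κ i * δ i - π.s i * (-resQ B π.q i) = T.γ i - π.s i * (-resQ B π.q i) - κ i * δ i
    ring
  · show T.E - (∑ x, δ x • cE a x (κ x)) - (∑ x, (-resQ B π.q x) • cE a x (π.s x)) =
      T.E - (∑ x, (-resQ B π.q x) • cE a x (π.s x)) - (∑ x, δ x • cE a x (κ x))
    abel

theorem patT_col_comm (a : I → I → ℕ) (B : Finset I) (π : Pat I) (j : I) (hj : j ∉ B) (c : QE I)
    (T : Trm I) : patT a B π (T.col j c) = (patT a B π T).col j c := by
  refine Trm.ext rfl rfl ?_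
  funext i
  show (if i ∈ B then sy i (π.s i + 1) else Function.update T.Λ j c i) =
    Function.update (fun i => if i ∈ B then sy i (π.s i + 1) else T.Λ i) j c i
  by_cases h1 : i = j
  · subst h1
    rw [if_neg hj, Function.update_self, Function.update_self]
  · rw [Function.update_of_ne h1, Function.update_of_ne h1]

theorem patT_mulE_comm (a : I → I → ℕ) (B : Finset I) (π : Pat I) (F : QE I)
    (T : Trm I) : patT a B π (T.mulE F) = (patT a B π T).mulE F := by
  refine Trm.ext rfl ?_ rfl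
  show T.E + F - (∑ x, (-resQ B π.q x) • cE a x (π.s x)) =
    T.E - (∑ x, (-resQ B π.q x) • cE a x (π.s x)) + F
  abel

theorem patT_pow (a : I → I → ℕ) (B : Finset I) (π : Pat I) (T : Trm I) (p : ℚ) :
    (patT a B π T).pow p = patT a B ⟨π.s, fun i => p * π.q i⟩ (T.pow p) := by
  have hr : ∀ i, p * -resQ B π.q i = -resQ B (fun i => p * π.q i) i := by
    intro i
    unfold resQ
    by_cases h1 : i ∈ B
    · rw [if_pos h1, if_pos h1]
      ring
    · rw [if_neg h1, if_neg h1]
      ring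
  refine Trm.ext ?_ ?_ rfl
  · funext i
    show p * (T.γ i - π.s i * (-resQ B π.q i)) =
      p * T.γ i - π.s i * (-resQ B (fun i => p * π.q i) i)
    rw [← hr]
    ring
  · show p • (T.E - (∑ x, (-resQ B π.q x) • cE a x (π.s x))) =
      p • T.E - (∑ x, (-resQ B (fun i => p * π.q i) x) • cE a x (π.s x))
    rw [smul_sub, Finset.smul_sum]
    congr 1
    refine Finset.sum_congr rfl fun x _ => ?_
    rw [smul_smul, hr]

/-- columns of the vertices of `B` in `T` are irrelevant. -/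
theorem patT_congr_cols (a : I → I → ℕ) (B : Finset I) (π : Pat I) (T T' : Trm I)
    (hγ : T.γ = T'.γ) (hE : T.E = T'.E) (hΛ : ∀ j, j ∉ B → T.Λ j = T'.Λ j) :
    patT a B π T = patT a B π T' := by
  rw [AG1_patT, AG1_patT]
  exact AG1_congr a _ _ _ _ B _ _ T T' hγ hE hΛ (fun _ => rfl) (fun _ => rfl) fun _ _ => rfl

/-- only the values of the pattern on `B` matter. -/
theorem patT_congr (a : I → I → ℕ) (B : Finset I) (π π' : Pat I) (T : Trm I)
    (hs : ∀ x ∈ B, π.s x = π'.s x) (hq : ∀ x ∈ B, π.q x = π'.q x) :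
    patT a B π T = patT a B π' T := by
  rw [AG1_patT, AG1_patT]
  have hr : ∀ i, resQ B π.q i = resQ B π'.q i := by
    intro i
    unfold resQ
    by_cases h1 : i ∈ B
    · rw [if_pos h1, if_pos h1, hq i h1]
    · rw [if_neg h1, if_neg h1]
  have hn : ∀ i, i ∉ B → resQ B π'.q i = 0 := fun i hi => if_neg hi
  refine AG1_congr a _ _ _ _ B _ _ T T rfl rfl (fun _ _ => rfl) ?_ ?_ ?_
  · intro i
    rw [hr]
    by_cases h1 : i ∈ B
    · rw [hs i h1]
    · rw [hn i h1]
      ring
  · intro i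
    rw [hr]
    by_cases h1 : i ∈ B
    · rw [hs i h1]
    · rw [hn i h1, neg_zero, zero_smul, zero_smul]
  · intro i hi
    rw [hs i hi]

/-- regularity for a part of the union, after the other part has been filled. -/
theorem RReg_patT (a : I → I → ℕ) (hs : ∀ i j, a i j = a j i) (A B : Finset I) (hAB : Disjoint A B)
    (π : Pat I) (hins : ∀ x ∈ A, ∀ y ∈ B, π.q y ≠ 0 → a x y = 0) (T : Trm I) (hT : RReg (A ∪ B) T) :
    RReg A (patT a B π T) := by
  rw [AG1_patT]
  refine AG1_RReg a _ _ A B _ T ?_ ?_ hT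
  · intro x hx y hy
    obtain ⟨h1, h2⟩ := AG1_res_ne hy
    exact AG1_cart hs (AG1_disj_ne hAB hx h1) (hins x hx y h1 h2)
  · intro j hj x hx l _
    exact AG1_sy_apply (AG1_disj_ne hAB hx hj) l _

theorem RReg_blkT (a : I → I → ℕ) (hs : ∀ i j, a i j = a j i) (A B : Finset I) (hAB : Sep a A B)
    (k σ : ℕ) (q : I → ℚ) (T : Trm I) (hT : RReg (A ∪ B) T) : RReg A (blkT a B k σ q T) := by
  rw [AG1_blkT]
  refine AG1_RReg a _ _ A B _ T ?_ ?_ hT
  · intro x hx y hy
    exact AG1_sep_cart hs hAB hx (AG1_res_ne hy).1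
  · intro j hj x hx l _
    exact AG1_sy_apply (AG1_disj_ne hAB.1 hx hj) l _

theorem RReg_rawT (a : I → I → ℕ) (hs : ∀ i j, a i j = a j i) (A B : Finset I) (hAB : Sep a A B)
    (k : ℕ) (q : I → ℚ) (m : I → ℕ) (T : Trm I) (hT : RReg (A ∪ B) T) : RReg A (rawT a B k q m T) := by
  rw [AG1_rawT]
  refine AG1_RReg a _ _ A B _ T ?_ ?_ hT
  · intro x hx y hy
    by_cases h1 : y ∈ B
    · exact AG1_sep_cart hs hAB hx h1
    · rw [if_neg h1] at hy
      exact absurd rfl hy
  · intro j hj x hx l _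
    split_ifs
    · exact AG1_sy_apply (AG1_disj_ne hAB.1 hx hj) l _
    · rw [cE_apply, AG1_sep_cart hs hAB hx hj]
      simp

theorem RReg.mono_fill {A B : Finset I} {T : Trm I} (hT : RReg (A ∪ B) T)
    (hcol : ∀ j ∈ B, ∀ x ∈ A, ∀ l, 1 ≤ l → T.Λ j (x, l) = 0) : RReg A T := by
  refine ⟨fun x hx l hl => hT.nat x (Finset.mem_union_left _ hx) l hl, fun x hx j hj l hl hne => ?_⟩
  by_cases hB : j ∈ B
  · exact absurd (hcol j hB x hx l hl) hne
  · refine hT.col x (Finset.mem_union_left _ hx) j ?_ l hl hne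
    rw [Finset.mem_union]
    rintro (h2 | h2)
    · exact hj h2
    · exact hB h2

theorem Kink.mono {A B : Finset I} (h : A ⊆ B) {f : ℕ} {T : Trm I} (hk : Kink A f T) :
    Kink B f T := by
  obtain ⟨x, hx, h1⟩ := hk
  exact ⟨x, h hx, h1⟩

theorem Kink_patT (a : I → I → ℕ) (A B : Finset I) (hAB : Sep a A B) (hs : ∀ i j, a i j = a j i)
    (f : ℕ) (π : Pat I) (T : Trm I) (h : Kink A f T) : Kink A f (patT a B π T) := by
  rw [AG1_patT]
  exact AG1_Kink a _ _ A B _ T f (fun x hx y hy => AG1_sep_cart hs hAB hx (AG1_res_ne hy).1) h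

theorem Kink_blkT (a : I → I → ℕ) (A B : Finset I) (hAB : Sep a A B) (hs : ∀ i j, a i j = a j i)
    (f k σ : ℕ) (q : I → ℚ) (T : Trm I) (h : Kink A f T) : Kink A f (blkT a B k σ q T) := by
  rw [AG1_blkT]
  exact AG1_Kink a _ _ A B _ T f (fun x hx y hy => AG1_sep_cart hs hAB hx (AG1_res_ne hy).1) h

/-! formal functionals -/

theorem evF_nil (a : I → I → ℕ) (B : Finset I) (T : Trm I) : evF a B [] T = 0 := by
  simp [evF]

theorem evF_append (a : I → I → ℕ) (B : Finset I) (Φ Ψ : FFn I) (T : Trm I) :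
    evF a B (Φ ++ Ψ) T = evF a B Φ T + evF a B Ψ T := by
  unfold evF
  rw [List.map_append, List.sum_append]

theorem evF_smF (a : I → I → ℕ) (B : Finset I) (r : ℚ) (Φ : FFn I) (T : Trm I) :
    evF a B (smF r Φ) T = r * evF a B Φ T := by
  unfold evF smF
  rw [AG1_mul_sum, List.map_map]
  congr 2
  funext c
  show r * c.1 * TV a (patT a B c.2 T) = r * (c.1 * TV a (patT a B c.2 T))
  ring

theorem evU_nil (a : I → I → ℕ) (T : Trm I) : evU a [] T = TV a T := by
  rfl

theorem evU_cons (a : I → I → ℕ) (b : Finset I × FFn I) (U : List (Finset I × FFn I)) (T : Trm I) :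
    evU a (b :: U) T = (b.2.map (fun c => c.1 * evU a U (patT a b.1 c.2 T))).sum := by
  rfl

theorem evU_single (a : I → I → ℕ) (B : Finset I) (Φ : FFn I) (T : Trm I) :
    evU a [(B, Φ)] T = evF a B Φ T := by
  rfl

theorem AG1_patT_empty (a : I → I → ℕ) (π : Pat I) (T : Trm I) : patT a ∅ π T = T := by
  have hr : ∀ i, -resQ ∅ π.q i = 0 := by
    intro i
    unfold resQ
    rw [if_neg (Finset.notMem_empty i), neg_zero]
  refine Trm.ext ?_ ?_ ?_
  · funext i
    show T.γ i - π.s i * (-resQ ∅ π.q i) = T.γ i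
    rw [hr]
    ring
  · show T.E - (∑ x, (-resQ ∅ π.q x) • cE a x (π.s x)) = T.E
    rw [Finset.sum_eq_zero, sub_zero]
    intro x _
    rw [hr, zero_smul]
  · funext i
    show (if i ∈ (∅ : Finset I) then sy i (π.s i + 1) else T.Λ i) = T.Λ i
    rw [if_neg (Finset.notMem_empty i)]

theorem AG1_evU (a : I → I → ℕ) (U : List (Finset I × FFn I))
    (hd : U.Pairwise (fun b c => Disjoint b.1 c.1)) (T : Trm I) :
    evU a U T = evF a (uni U) (prodF U) T := by
  induction U generalizing T with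
  | nil =>
    show TV a T = (([(1, ⟨fun _ => 0, fun _ => 0⟩)] : FFn I).map
      (fun c => c.1 * TV a (patT a ∅ c.2 T))).sum
    rw [List.map_singleton, List.sum_singleton, AG1_patT_empty, one_mul]
  | cons b U ih =>
    rw [List.pairwise_cons] at hd
    have hb : Disjoint b.1 (uni U) := AG1_disj_uni b.1 U hd.1
    show (b.2.map (fun c => c.1 * evU a U (patT a b.1 c.2 T))).sum =
      ((b.2.flatMap (fun c => (prodF U).map (fun d => (c.1 * d.1, glue b.1 c.2 d.2)))).map
        (fun c => c.1 * TV a (patT a (b.1 ∪ uni U) c.2 T))).sum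
    rw [AG1_flat]
    congr 2
    funext c
    rw [ih hd.2, List.map_map]
    unfold evF
    rw [AG1_mul_sum]
    congr 2
    funext d
    show c.1 * (d.1 * TV a (patT a (uni U) d.2 (patT a b.1 c.2 T))) =
      c.1 * d.1 * TV a (patT a (b.1 ∪ uni U) (glue b.1 c.2 d.2) T)
    rw [patT_glue a b.1 (uni U) hb, patT_comm a b.1 (uni U) hb]
    ring

/-- the first block can be evaluated last. -/
theorem evU_cons' (a : I → I → ℕ) (b : Finset I × FFn I) (U : List (Finset I × FFn I))
    (h : ∀ c ∈ U, Disjoint b.1 c.1) (hd : U.Pairwise (fun b c => Disjoint b.1 c.1)) (T : Trm I) :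
    evU a (b :: U) T = ((prodF U).map (fun c => c.1 * evF a b.1 b.2 (patT a (uni U) c.2 T))).sum := by
  have h1 : evU a (b :: U) T = (b.2.map (fun c => ((prodF U).map (fun d =>
      c.1 * (d.1 * TV a (patT a b.1 c.2 (patT a (uni U) d.2 T))))).sum)).sum := by
    rw [evU_cons]
    congr 2
    funext c
    rw [AG1_evU a U hd, ← AG1_mul_sum]
    congr 1
    unfold evF
    congr 2
    funext d
    rw [patT_comm a (uni U) b.1 (AG1_disj_uni b.1 U h).symm]
  rw [h1, AG1_sum_comm]
  congr 2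
  funext d
  unfold evF
  rw [AG1_mul_sum]
  congr 2
  funext c
  ring

theorem evU_perm (a : I → I → ℕ) (U U' : List (Finset I × FFn I)) (h : U.Perm U')
    (hd : U.Pairwise (fun b c => Disjoint b.1 c.1)) (T : Trm I) : evU a U T = evU a U' T := by
  induction h generalizing T with
  | nil => rfl
  | cons b _ ih =>
    rw [evU_cons, evU_cons]
    congr 2
    funext c
    rw [ih (List.pairwise_cons.1 hd).2]
  | swap b c U =>
    have h1 : Disjoint c.1 b.1 := (List.pairwise_cons.1 hd).1 b List.mem_cons_self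
    simp only [evU_cons]
    have e1 : ∀ (b c : Finset I × FFn I), (c.2.map (fun d => d.1 *
        (b.2.map (fun e => e.1 * evU a U (patT a b.1 e.2 (patT a c.1 d.2 T)))).sum)).sum =
        (c.2.map (fun d => (b.2.map (fun e =>
          d.1 * (e.1 * evU a U (patT a b.1 e.2 (patT a c.1 d.2 T))))).sum)).sum := by
      intro b c
      congr 2
      funext d
      rw [AG1_mul_sum]
    rw [e1, e1, AG1_sum_comm]
    congr 2
    funext d
    congr 2
    funext e
    rw [patT_comm a b.1 c.1 h1.symm]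
    ring
  | trans h1 h2 ih1 ih2 =>
    rw [ih1 hd, ih2]
    exact (h1.pairwise_iff (fun {b c} h => Disjoint.symm h)).1 hd

/-- the joint functional is the formal product on the union. -/
theorem evU_eq_evF (a : I → I → ℕ) (U : List (Finset I × FFn I))
    (hd : U.Pairwise (fun b c => Disjoint b.1 c.1)) (T : Trm I) :
    evU a U T = evF a (uni U) (prodF U) T := by
  exact AG1_evU a U hd T

/-- membership in the product: for every block the pattern restricts to one of the patterns of the block. -/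
theorem prodF_mem (U : List (Finset I × FFn I)) (hd : U.Pairwise (fun b c => Disjoint b.1 c.1))
    (c : ℚ × Pat I) (hc : c ∈ prodF U) : ∀ b ∈ U, ∃ d ∈ b.2,
      ∀ x ∈ b.1, c.2.s x = d.2.s x ∧ c.2.q x = d.2.q x := by
  induction U generalizing c with
  | nil =>
    intro b hb
    exact absurd hb List.not_mem_nil
  | cons b U ih =>
    have h1 : c ∈ mulF b.1 b.2 (prodF U) := hc
    unfold mulF at h1
    rw [List.mem_flatMap] at h1
    obtain ⟨c1, hc1, h2⟩ := h1
    rw [List.mem_map] at h2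
    obtain ⟨d1, hd1, rfl⟩ := h2
    rw [List.pairwise_cons] at hd
    intro b' hb'
    rw [List.mem_cons] at hb'
    rcases hb' with rfl | hb'
    · exact ⟨c1, hc1, fun x hx => ⟨if_pos hx, if_pos hx⟩⟩
    · obtain ⟨d, hdm, h3⟩ := ih hd.2 d1 hd1 b' hb'
      refine ⟨d, hdm, fun x hx => ?_⟩
      have h4 : x ∉ b.1 := fun h5 => Finset.disjoint_left.1 (hd.1 b' hb') h5 hx
      exact ⟨(if_neg h4).trans (h3 x hx).1, (if_neg h4).trans (h3 x hx).2⟩

/-- change one block: linear relations between formal functionals of one block, valid for all regular terms, hold jointly. -/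
theorem evU_congr_head (a : I → I → ℕ) (hs : ∀ i j, a i j = a j i) (B : Finset I) (Φ Ψ : FFn I)
    (U : List (Finset I × FFn I)) (hd : ((B, Φ) :: U).Pairwise (fun b c => Disjoint b.1 c.1))
    (hins : ∀ c ∈ prodF U, ∀ x ∈ B, ∀ y ∈ uni U, c.2.q y ≠ 0 → a x y = 0)
    (h : ∀ T : Trm I, RReg B T → evF a B Φ T = evF a B Ψ T) (T : Trm I)
    (hT : RReg (B ∪ uni U) T) : evU a ((B, Φ) :: U) T = evU a ((B, Ψ) :: U) T := by
  rw [List.pairwise_cons] at hd
  rw [evU_cons' a (B, Φ) U hd.1 hd.2, evU_cons' a (B, Ψ) U hd.1 hd.2]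
  congr 1
  refine List.map_congr_left fun c hc => ?_
  show c.1 * evF a B Φ (patT a (uni U) c.2 T) = c.1 * evF a B Ψ (patT a (uni U) c.2 T)
  rw [h _ (RReg_patT a hs B (uni U) (AG1_disj_uni B U hd.1) c.2 (hins c hc) T hT)]

/-- evaluation of a block on kinked terms in a joint functional. -/
theorem evU_blk_head (a : I → I → ℕ) (hs : ∀ i j, a i j = a j i) (B : Finset I) (Φ : FFn I)
    (U : List (Finset I × FFn I)) (hd : ((B, Φ) :: U).Pairwise (fun b c => Disjoint b.1 c.1))
    (hsep : ∀ b ∈ U, Sep a B b.1) (w : ℚ) (f σ : ℕ) (q : I → ℚ)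
    (h : ∀ T : Trm I, RReg B T → Kink B f T → evF a B Φ T = w * TV a (blkT a B f σ q T)) (T : Trm I)
    (hT : RReg (B ∪ uni U) T) (hk : Kink B f T) :
    evU a ((B, Φ) :: U) T = w * evU a U (blkT a B f σ q T) := by
  have hsu : Sep a B (uni U) := AG1_sep_uni a B U hsep
  rw [List.pairwise_cons] at hd
  rw [evU_cons' a (B, Φ) U hd.1 hd.2, evU_eq_evF a U hd.2]
  unfold evF
  rw [AG1_mul_sum]
  congr 1
  refine List.map_congr_left fun c hc => ?_
  show c.1 * evF a B Φ (patT a (uni U) c.2 T) = _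
  rw [h _ (RReg_patT a hs B (uni U) hsu.1 c.2 (fun x hx y hy _ => hsu.2 x hx y hy) T hT)
    (Kink_patT a B (uni U) hsu hs f c.2 T hk), blkT_patT_comm a B (uni U) hsu.1]
  ring

end

end Pool.Agent.H27.KAC
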