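import Mathlib
import Pool.Agent.H27.KAC.KPDefs

/-!
KAC, ADE clusters: the term calculus.

A term `T` stands for the constant term (coefficient of `t^0 X^γ`) of
`∏ Q_{i,k}^{E(i,k)} * det (columns ∑ Λ_j(i,k) d log Q_{i,k})`, `Q_{i,k} = t_i^k U_{i,k}`.
-/

set_option autoImplicit false

namespace Pool.Agent.H27.KAC

open scoped BigOperators
open MvPowerSeries

/-- formal rational combinations of the symbols `(i, k)`. -/
abbrev QE (I : Type) := I × ℕ →₀ ℚ

/-- one symbol. -/
noncomputable abbrev sy {I : Type} (i : I) (k : ℕ) : QE I := Finsupp.single (i, k) 1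

/-- A term: `X`-exponent `γ`, exponents `E`, columns `Λ`. -/
@[ext]
structure Trm (I : Type) where
  γ : I → ℚ
  E : QE I
  Λ : I → QE I

section

variable {I : Type} [Fintype I] [DecidableEq I]

/-- rational power of a power series with constant coefficient one. -/
noncomputable def rpw (u : MvPowerSeries I ℚ) (q : ℚ) : MvPowerSeries I ℚ :=
  (PowerSeries.binomialSeries ℚ q).subst (u - 1)

/-- `∏ U_{i,k}^{E(i,k)}`. -/
noncomputable def mU (a : I → I → ℕ) (E : QE I) : MvPowerSeries I ℚ :=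
  ∏ ik ∈ E.support, rpw (uS a ik.1 ik.2) (E ik)

/-- the column `∑ E(i,k) d log Q_{i,k}`. -/
noncomputable def dl (a : I → I → ℕ) (E : QE I) (l : I) : MvPowerSeries I ℚ :=
  ∑ ik ∈ E.support, C (E ik) * xv a ik.1 ik.2 l

/-- `t_i`-degree of the monomial `∏ Q^E`. -/
noncomputable def tdg (E : QE I) (i : I) : ℚ :=
  ∑ jk ∈ E.support, if jk.1 = i then E jk * (jk.2 : ℚ) else 0

/-- `(C γ)_i` for rational vectors. -/
def cq (a : I → I → ℕ) (γ : I → ℚ) (i : I) : ℚ := ∑ j, (cart a i j : ℚ) * γ j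

/-- integral part of `γ` as a `Finsupp`. -/
noncomputable def gN (γ : I → ℚ) : I →₀ ℕ := Finsupp.equivFunOnFinite.symm (fun i => ⌊γ i⌋₊)

/-- admissibility: `γ ∈ ℕ^I` and the `t`-degrees match. -/
def TOk (a : I → I → ℕ) (T : Trm I) : Prop :=
  (∀ i, ((⌊T.γ i⌋₊ : ℕ) : ℚ) = T.γ i) ∧ ∀ i, tdg T.E i = cq a T.γ i

/-- the value of a term without the admissibility condition. -/
noncomputable def TV0 (a : I → I → ℕ) (T : Trm I) : ℚ :=
  coeff (gN T.γ) (mU a T.E * (colMat (fun i => dl a (T.Λ i))).det)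

/-- the value of a term. -/
noncomputable def TV (a : I → I → ℕ) (T : Trm I) : ℚ := by
  classical
  exact if TOk a T then TV0 a T else 0

/-- `∑_j C_{xj} (j,k)`: the exponents of `η_{x,k}^{-1}` and the column `θ_x = -d log η_{x,k}`. -/
noncomputable def cE (a : I → I → ℕ) (x : I) (k : ℕ) : QE I :=
  ∑ j, ((cart a x j : ℤ) : ℚ) • sy j k

namespace Trm

/-- multiplication by the monomial with exponents `F`. -/
noncomputable def mulE (T : Trm I) (F : QE I) : Trm I := ⟨T.γ, T.E + F, T.Λ⟩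

/-- multiplication by `∏_x η_{x,k}^{δ_x}`. -/
noncomputable def eta (a : I → I → ℕ) (k : ℕ) (δ : I → ℚ) (T : Trm I) : Trm I :=
  ⟨fun i => T.γ i - k * δ i, T.E - ∑ x, δ x • cE a x k, T.Λ⟩

/-- replace one column. -/
noncomputable def col (T : Trm I) (j : I) (c : QE I) : Trm I :=
  ⟨T.γ, T.E, Function.update T.Λ j c⟩

/-- replace the columns of the vertices in `R`. -/
noncomputable def cols (T : Trm I) (R : Finset I) (c : I → QE I) : Trm I :=
  ⟨T.γ, T.E, fun i => if i ∈ R then c i else T.Λ i⟩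

/-- the power `p` (columns unchanged). -/
noncomputable def pow (p : ℚ) (T : Trm I) : Trm I := ⟨fun i => p * T.γ i, p • T.E, T.Λ⟩

end Trm

/-- second difference `(x,k+1) - 2 (x,k) + (x,k-1)`: the exponents of `1 - η_{x,k}`. -/
noncomputable def dd {I : Type} (x : I) (k : ℕ) : QE I := sy x (k + 1) - (2 : ℚ) • sy x k + sy x (k - 1)

/-- `q` is `p`-integral. -/
def PI (p : ℕ) (q : ℚ) : Prop := ¬ p ∣ q.den

/-- `q` is divisible by `p` in the `p`-integral numbers. -/
def PD (p : ℕ) (q : ℚ) : Prop := ∃ r : ℚ, PI p r ∧ q = p * r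

/-- direction `x` is regular up to the symbols in `S`: all exponents of `x` (levels `≥ 1`) are natural numbers and every
symbol `(x,l)` in a column is compensated by a positive exponent. -/
def DReg (T : Trm I) (x : I) : Prop :=
  (∀ l, 1 ≤ l → ∃ n : ℕ, T.E (x, l) = n) ∧
    ∀ j l, 1 ≤ l → T.Λ j (x, l) ≠ 0 → 1 ≤ T.E (x, l)

end

end Pool.Agent.H27.KAC
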