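import Pool.Agent.H41.KA.AD2

/-!
KAC ADE, module AD3: elementary rules for `TV`.
-/

set_option autoImplicit false

namespace Pool.Agent.H27.KAC

open scoped BigOperators
open MvPowerSeries

section

variable {I : Type} [Fintype I] [DecidableEq I]

private theorem AD3_TOk_col (a : I → I → ℕ) (T : Trm I) (j : I) (c : QE I) :
    TOk a (T.col j c) ↔ TOk a T := Iff.rfl

private theorem AD3_mat_col (a : I → I → ℕ) (T : Trm I) (j : I) (c : QE I) :
    colMat (fun i => dl a ((T.col j c).Λ i)) =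
      (colMat (fun i => dl a (T.Λ i))).updateCol j (dl a c) := by
  ext1 l i
  rw [Matrix.updateCol_apply]
  show dl a (Function.update T.Λ j c i) l = _
  split_ifs with h
  · rw [h, Function.update_self]
  · rw [Function.update_of_ne h]
    rfl

private theorem AD3_TV0_col (a : I → I → ℕ) (T : Trm I) (j : I) (c : QE I) :
    TV0 a (T.col j c) = coeff (gN T.γ) (mU a T.E *
      ((colMat (fun i => dl a (T.Λ i))).updateCol j (dl a c)).det) := by
  unfold TV0
  rw [AD3_mat_col]
  rfl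

private theorem AD3_lev0 (a : I → I → ℕ) (D : QE I) (hD : ∀ i k, 1 ≤ k → D (i, k) = 0) :
    mU a D = 1 ∧ (∀ l, dl a D l = 0) ∧ ∀ i, tdg D i = 0 := by
  have h0 : ∀ ik ∈ D.support, ik.2 = 0 := by
    rintro ⟨i, k⟩ h
    by_contra hk
    exact (Finsupp.mem_support_iff.mp h) (hD i k (Nat.one_le_iff_ne_zero.mpr hk))
  refine ⟨?_, ?_, ?_⟩
  · unfold mU
    refine Finset.prod_eq_one ?_
    intro ik hik
    rw [h0 ik hik, uS_zero, rpw_unit_left]
  · intro l
    unfold dl
    refine Finset.sum_eq_zero ?_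
    intro ik hik
    rw [h0 ik hik, xv_zero, mul_zero]
  · intro i
    unfold tdg
    refine Finset.sum_eq_zero ?_
    intro ik hik
    rw [h0 ik hik, Nat.cast_zero, mul_zero, ite_self]

private theorem AD3_lev0' (a : I → I → ℕ) (E E' : QE I)
    (h : ∀ i k, 1 ≤ k → E (i, k) = E' (i, k)) :
    mU a E = mU a E' ∧ (∀ l, dl a E l = dl a E' l) ∧ ∀ i, tdg E i = tdg E' i := by
  obtain ⟨h1, h2, h3⟩ := AD3_lev0 a (E - E') (fun i k hk => by
    rw [Finsupp.sub_apply, h i k hk, sub_self])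
  have e : E = E' + (E - E') := by rw [add_sub_cancel]
  refine ⟨?_, ?_, ?_⟩
  · rw [e, mU_add, h1, mul_one]
  · intro l
    rw [e, dl_add, h2, add_zero]
  · intro i
    rw [e, tdg_add, h3, add_zero]

theorem TV_of_ok (a : I → I → ℕ) (T : Trm I) (h : TOk a T) : TV a T = TV0 a T := by
  unfold TV
  rw [if_pos h]

theorem TV_of_not (a : I → I → ℕ) (T : Trm I) (h : ¬ TOk a T) : TV a T = 0 := by
  unfold TV
  rw [if_neg h]

/-- the value for a natural `γ`. -/
theorem TV_nat (a : I → I → ℕ) (γ : I →₀ ℕ) (E : QE I) (Λ : I → QE I)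
    (h : ∀ i, tdg E i = (cw a γ i : ℚ)) :
    TV a ⟨fun i => (γ i : ℚ), E, Λ⟩ = coeff γ (mU a E * (colMat (fun i => dl a (Λ i))).det) := by
  have hg : gN (fun i => (γ i : ℚ)) = γ := by
    ext i
    show ⌊((γ i : ℕ) : ℚ)⌋₊ = γ i
    exact Nat.floor_natCast (γ i)
  have hok : TOk a ⟨fun i => (γ i : ℚ), E, Λ⟩ := by
    refine ⟨fun i => ?_, fun i => ?_⟩
    · show ((⌊((γ i : ℕ) : ℚ)⌋₊ : ℕ) : ℚ) = (γ i : ℚ)
      rw [Nat.floor_natCast]
    · show tdg E i = cq a (fun i => (γ i : ℚ)) i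
      rw [h i]
      unfold cw cq
      push_cast
      rfl
  rw [TV_of_ok a _ hok]
  unfold TV0
  rw [hg]

theorem TOk_congr (a : I → I → ℕ) (T T' : Trm I) (hγ : T.γ = T'.γ) (hE : T.E = T'.E) :
    TOk a T ↔ TOk a T' := by
  unfold TOk
  rw [hγ, hE]

theorem TV_neg (a : I → I → ℕ) (T : Trm I) (i : I) (h : T.γ i < 0) : TV a T = 0 := by
  refine TV_of_not a T ?_
  rintro ⟨h1, -⟩
  have h2 := h1 i
  have h3 : (0 : ℚ) ≤ ((⌊T.γ i⌋₊ : ℕ) : ℚ) := Nat.cast_nonneg _
  rw [h2] at h3
  exact absurd h (not_lt.mpr h3)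

theorem TV_col_add (a : I → I → ℕ) (T : Trm I) (j : I) (c c' : QE I) :
    TV a (T.col j (c + c')) = TV a (T.col j c) + TV a (T.col j c') := by
  by_cases h : TOk a T
  · rw [TV_of_ok a _ ((AD3_TOk_col a T j _).mpr h), TV_of_ok a _ ((AD3_TOk_col a T j _).mpr h),
      TV_of_ok a _ ((AD3_TOk_col a T j _).mpr h), AD3_TV0_col, AD3_TV0_col, AD3_TV0_col]
    have e : dl a (c + c') = dl a c + dl a c' := by
      funext l
      exact dl_add a c c' l
    rw [e, Matrix.det_updateCol_add, mul_add, map_add]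
  · rw [TV_of_not a _ (fun h' => h ((AD3_TOk_col a T j _).mp h')),
      TV_of_not a _ (fun h' => h ((AD3_TOk_col a T j _).mp h')),
      TV_of_not a _ (fun h' => h ((AD3_TOk_col a T j _).mp h')), add_zero]

theorem TV_col_smul (a : I → I → ℕ) (T : Trm I) (j : I) (q : ℚ) (c : QE I) :
    TV a (T.col j (q • c)) = q * TV a (T.col j c) := by
  by_cases h : TOk a T
  · rw [TV_of_ok a _ ((AD3_TOk_col a T j _).mpr h), TV_of_ok a _ ((AD3_TOk_col a T j _).mpr h),
      AD3_TV0_col, AD3_TV0_col]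
    have e : dl a (q • c) = (C q : MvPowerSeries I ℚ) • dl a c := by
      funext l
      exact dl_smul a q c l
    rw [e, Matrix.det_updateCol_smul, mul_left_comm, coeff_C_mul]
  · rw [TV_of_not a _ (fun h' => h ((AD3_TOk_col a T j _).mp h')),
      TV_of_not a _ (fun h' => h ((AD3_TOk_col a T j _).mp h')), mul_zero]

theorem TV_col_zero (a : I → I → ℕ) (T : Trm I) (j : I) : TV a (T.col j 0) = 0 := by
  have h := TV_col_smul a T j 0 (0 : QE I)
  rw [zero_smul, zero_mul] at h
  exact h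

theorem TV_col_self (a : I → I → ℕ) (T : Trm I) (j : I) : TV a (T.col j (T.Λ j)) = TV a T := by
  have e : T.col j (T.Λ j) = T := by
    unfold Trm.col
    rw [Function.update_eq_self]
  rw [e]

/-- two equal columns. -/
theorem TV_alt (a : I → I → ℕ) (T : Trm I) (i j : I) (hij : i ≠ j) (h : T.Λ i = T.Λ j) :
    TV a T = 0 := by
  by_cases hok : TOk a T
  · rw [TV_of_ok a _ hok]
    unfold TV0
    rw [Matrix.det_zero_of_column_eq hij, mul_zero, map_zero]
    intro k
    show dl a (T.Λ i) k = dl a (T.Λ j) k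
    rw [h]
  · exact TV_of_not a _ hok

/-- proportional columns. -/
theorem TV_alt_smul (a : I → I → ℕ) (T : Trm I) (i j : I) (hij : i ≠ j) (q : ℚ)
    (h : T.Λ i = q • T.Λ j) : TV a T = 0 := by
  have e1 : TV a T = TV a (T.col i (q • T.Λ j)) := by
    rw [← h, TV_col_self]
  rw [e1, TV_col_smul, TV_alt a (T.col i (T.Λ j)) i j hij, mul_zero]
  show Function.update T.Λ i (T.Λ j) i = Function.update T.Λ i (T.Λ j) j
  rw [Function.update_self, Function.update_of_ne (Ne.symm hij)]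

/-- adding multiples of other columns. -/
theorem TV_col_add_of_mem (a : I → I → ℕ) (T : Trm I) (j : I) (s : Finset I) (hj : j ∉ s)
    (q : I → ℚ) : TV a (T.col j (T.Λ j + ∑ i ∈ s, q i • T.Λ i)) = TV a T := by
  rw [TV_col_add, TV_col_self]
  have h0 : ∀ s : Finset I, j ∉ s → TV a (T.col j (∑ i ∈ s, q i • T.Λ i)) = 0 := by
    intro s
    induction s using Finset.induction_on with
    | empty =>
      intro _
      rw [Finset.sum_empty]
      exact TV_col_zero a T j
    | insert i s his ih =>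
      intro hj
      rw [Finset.mem_insert, not_or] at hj
      rw [Finset.sum_insert his, TV_col_add, ih hj.2, TV_col_smul,
        TV_alt a (T.col j (T.Λ i)) j i hj.1, mul_zero, add_zero]
      show Function.update T.Λ j (T.Λ i) j = Function.update T.Λ j (T.Λ i) i
      rw [Function.update_self, Function.update_of_ne (Ne.symm hj.1)]
  rw [h0 s hj, add_zero]

theorem TV_perm (a : I → I → ℕ) (T : Trm I) (σ : Equiv.Perm I) :
    TV a ⟨T.γ, T.E, fun i => T.Λ (σ i)⟩ = ((Equiv.Perm.sign σ : ℤ) : ℚ) * TV a T := by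
  by_cases hok : TOk a T
  · rw [TV_of_ok a T hok, TV_of_ok a ⟨T.γ, T.E, fun i => T.Λ (σ i)⟩ hok]
    unfold TV0
    show coeff (gN T.γ) (mU a T.E * (colMat (fun i => dl a (T.Λ (σ i)))).det) = _
    have e : colMat (fun i => dl a (T.Λ (σ i))) =
        (colMat (fun i => dl a (T.Λ i))).submatrix id σ := rfl
    have e2 : (((Equiv.Perm.sign σ : ℤˣ) : ℤ) : MvPowerSeries I ℚ) =
        C (((Equiv.Perm.sign σ : ℤ) : ℚ)) := by
      rw [map_intCast]
    rw [e, Matrix.det_permute', e2, mul_left_comm, coeff_C_mul]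
  · rw [TV_of_not a T hok, TV_of_not a ⟨T.γ, T.E, fun i => T.Λ (σ i)⟩ hok, mul_zero]

/-- linear change of the columns. -/
theorem TV_matrix (a : I → I → ℕ) (T : Trm I) (M : Matrix I I ℚ) :
    TV a ⟨T.γ, T.E, fun i => ∑ j, M j i • T.Λ j⟩ = M.det * TV a T := by
  by_cases hok : TOk a T
  · rw [TV_of_ok a T hok, TV_of_ok a ⟨T.γ, T.E, fun i => ∑ j, M j i • T.Λ j⟩ hok]
    unfold TV0
    show coeff (gN T.γ) (mU a T.E * (colMat (fun i => dl a (∑ j, M j i • T.Λ j))).det) = _
    have hs : ∀ (s : Finset I) (f : I → QE I) (l : I),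
        dl a (∑ j ∈ s, f j) l = ∑ j ∈ s, dl a (f j) l := by
      intro s f l
      induction s using Finset.induction_on with
      | empty =>
        rw [Finset.sum_empty, Finset.sum_empty]
        exact dl_zero a l
      | insert i s his ih =>
        rw [Finset.sum_insert his, Finset.sum_insert his, dl_add, ih]
    have e : colMat (fun i => dl a (∑ j, M j i • T.Λ j)) =
        colMat (fun i => dl a (T.Λ i)) * (C : ℚ →+* MvPowerSeries I ℚ).mapMatrix M := by
      ext1 l i
      rw [Matrix.mul_apply]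
      show dl a (∑ j, M j i • T.Λ j) l = ∑ j, dl a (T.Λ j) l * C (M j i)
      rw [hs]
      refine Finset.sum_congr rfl ?_
      intro j _
      rw [dl_smul, mul_comm]
    rw [e, Matrix.det_mul, ← RingHom.map_det, ← mul_assoc, coeff_mul_C, mul_comm]
  · rw [TV_of_not a T hok, TV_of_not a ⟨T.γ, T.E, fun i => ∑ j, M j i • T.Λ j⟩ hok, mul_zero]

/-- only the symbols of level `≥ 1` matter. -/
theorem TV_lev0 (a : I → I → ℕ) (T T' : Trm I) (hγ : T.γ = T'.γ)
    (hE : ∀ i k, 1 ≤ k → T.E (i, k) = T'.E (i, k))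
    (hΛ : ∀ j i k, 1 ≤ k → T.Λ j (i, k) = T'.Λ j (i, k)) : TV a T = TV a T' := by
  obtain ⟨h1, -, h3⟩ := AD3_lev0' a T.E T'.E hE
  have h2 : ∀ j l, dl a (T.Λ j) l = dl a (T'.Λ j) l := fun j =>
    (AD3_lev0' a (T.Λ j) (T'.Λ j) (hΛ j)).2.1
  have hok : TOk a T ↔ TOk a T' := by
    unfold TOk
    rw [hγ]
    refine and_congr Iff.rfl (forall_congr' (fun i => ?_))
    rw [h3 i]
  have e : (fun i => dl a (T.Λ i)) = fun i => dl a (T'.Λ i) := by
    funext i l
    exact h2 i l
  by_cases h : TOk a T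
  · rw [TV_of_ok a T h, TV_of_ok a T' (hok.mp h)]
    unfold TV0
    rw [h1, hγ, e]
  · rw [TV_of_not a T h, TV_of_not a T' (fun h' => h (hok.mpr h'))]

/-- expansion of all columns in symbols. -/
theorem TV_col_sum (a : I → I → ℕ) {ι : Type} (T : Trm I) (j : I) (s : Finset ι) (c : ι → QE I) :
    TV a (T.col j (∑ i ∈ s, c i)) = ∑ i ∈ s, TV a (T.col j (c i)) := by
  classical
  induction s using Finset.induction_on with
  | empty =>
    rw [Finset.sum_empty, Finset.sum_empty]
    exact TV_col_zero a T j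
  | insert i s his ih =>
    rw [Finset.sum_insert his, Finset.sum_insert his, TV_col_add, ih]

end

end Pool.Agent.H27.KAC
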