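import Pool.Agent.H41.KA.AD3
import Pool.Agent.H27.KAC.KQEta

/-!
KAC ADE, module AD6: expansion in powers of `η_{x,k}`.
-/

set_option autoImplicit false

namespace Pool.Agent.H27.KAC

open scoped BigOperators
open MvPowerSeries

section

variable {I : Type} [Fintype I] [DecidableEq I]

theorem AD6_tdg_dd (x : I) (k : ℕ) (hk : 1 ≤ k) (i : I) : tdg (dd x k) i = 0 := by
  have h1 : dd x k = (sy x (k + 1) + (-2 : ℚ) • sy x k) + sy x (k - 1) := by
    unfold dd
    rw [neg_smul, sub_eq_add_neg]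
  rw [h1, tdg_add, tdg_add, tdg_smul, tdg_single, tdg_single, tdg_single]
  by_cases h : x = i
  · rw [if_pos h, if_pos h, if_pos h]
    push_cast [Nat.cast_sub hk]
    ring
  · rw [if_neg h, if_neg h, if_neg h]
    ring

omit [DecidableEq I] [Fintype I] in
theorem AD6_eta_col (a : I → I → ℕ) [Fintype I] [DecidableEq I] (T : Trm I) (k : ℕ) (δ : I → ℚ)
    (j : I) (c : QE I) : (T.eta a k δ).col j c = (T.col j c).eta a k δ := rfl

omit [Fintype I] in
theorem AD6_mulE_col (T : Trm I) (F : QE I)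
    (j : I) (c : QE I) : (T.mulE F).col j c = (T.col j c).mulE F := rfl

theorem AD6_sum_single (a : I → I → ℕ) (k : ℕ) (x : I) (m : ℚ) :
    (∑ y, (Pi.single x m : I → ℚ) y • cE a y k) = m • cE a x k := by
  rw [Finset.sum_eq_single x]
  · rw [Pi.single_eq_same]
  · intro y _ hy
    rw [Pi.single_eq_of_ne hy, zero_smul]
  · intro h
    exact absurd (Finset.mem_univ x) h

theorem AD6_ok_mul (a : I → I → ℕ) (T : Trm I) (F : QE I) (hF : ∀ i, tdg F i = 0) :
    TOk a (T.mulE F) ↔ TOk a T := by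
  unfold TOk Trm.mulE
  simp only [tdg_add, hF, add_zero]

theorem AD6_pow_mU (a : I → I → ℕ) (E : QE I) (m : ℕ) : mU a E ^ m = mU a ((m : ℚ) • E) := by
  rw [mU_smul, rpw_nat _ (mU_const a E)]

theorem AD6_nat_of (q r : ℚ) (n : ℕ) (h : ((⌊q⌋₊ : ℕ) : ℚ) = q) (hr : r = q + n) :
    ((⌊r⌋₊ : ℕ) : ℚ) = r := by
  rw [hr, ← h, ← Nat.cast_add, Nat.floor_natCast]

theorem AD6_eta (a : I → I → ℕ) (hs : ∀ i j, a i j = a j i) (T : Trm I) (x : I) (k m : ℕ)
    [Decidable (TOk a T)] :
    TV a (T.eta a k (Pi.single x (m : ℚ))) = if TOk a T then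
      coeff (gN T.γ) (X x ^ (k * m) * mU a (-cE a x k) ^ m *
        (mU a T.E * (colMat (fun i => dl a (T.Λ i))).det)) else 0 := by
  have hE : (T.eta a k (Pi.single x (m : ℚ))).E = T.E - (m : ℚ) • cE a x k := by
    show T.E - ∑ y, (Pi.single x (m : ℚ) : I → ℚ) y • cE a y k = _
    rw [AD6_sum_single]
  split_ifs with hT
  · obtain ⟨h1, h2⟩ := hT
    have hg : ∀ i, ((gN T.γ i : ℕ) : ℚ) = T.γ i := h1
    by_cases hk : k * m ≤ gN T.γ x
    · have hγ : (T.eta a k (Pi.single x (m : ℚ))).γ =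
          fun i => (((gN T.γ - Finsupp.single x (k * m)) i : ℕ) : ℚ) := by
        funext i
        show T.γ i - k * (Pi.single x (m : ℚ) : I → ℚ) i = _
        rw [Finsupp.tsub_apply, ← hg]
        by_cases hi : i = x
        · subst hi
          rw [Pi.single_eq_same, Finsupp.single_eq_same, Nat.cast_sub hk]
          push_cast
          ring
        · rw [Pi.single_eq_of_ne hi, Finsupp.single_eq_of_ne hi]
          simp
      have hle : Finsupp.single x (k * m) ≤ gN T.γ := Finsupp.single_le_iff.2 hk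
      have hT' : T.eta a k (Pi.single x (m : ℚ)) =
          ⟨fun i => (((gN T.γ - Finsupp.single x (k * m)) i : ℕ) : ℚ),
            T.E - (m : ℚ) • cE a x k, T.Λ⟩ := by
        rw [← hE, ← hγ]
        rfl
      rw [hT', TV_nat]
      · rw [mul_assoc, X_pow_eq, coeff_monomial_mul, if_pos hle, one_mul, AD6_pow_mU, ← mul_assoc,
          ← mU_add]
        congr 3
        rw [smul_neg, sub_eq_add_neg, add_comm]
      · intro i
        have e1 : cw a (gN T.γ) i = cw a (gN T.γ - Finsupp.single x (k * m)) i +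
            cw a (Finsupp.single x (k * m)) i := by
          rw [← cw_add, tsub_add_cancel_of_le hle]
        have e2 : cw a (Finsupp.single x (k * m)) i = cart a i x * ((k * m : ℕ) : ℤ) := by
          unfold cw
          rw [Finset.sum_eq_single x]
          · simp
          · intro j _ hj
            rw [Finsupp.single_eq_of_ne hj]
            simp
          · intro h
            exact absurd (Finset.mem_univ x) h
        have e3 : tdg T.E i = (cw a (gN T.γ) i : ℚ) := by
          rw [h2 i]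
          unfold cq cw
          push_cast
          exact Finset.sum_congr rfl fun j _ => by rw [hg]
        rw [sub_eq_add_neg, ← neg_smul, tdg_add, tdg_smul, tdg_cE a hs, e3, e1, e2]
        push_cast
        ring
    · rw [TV_neg a _ x]
      · rw [mul_assoc, X_pow_eq, coeff_monomial_mul, if_neg]
        intro h'
        exact hk (Finsupp.single_le_iff.1 h')
      · show T.γ x - k * (Pi.single x (m : ℚ) : I → ℚ) x < 0
        rw [Pi.single_eq_same, ← hg]
        push Not at hk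
        have : ((gN T.γ x : ℕ) : ℚ) < ((k * m : ℕ) : ℚ) := by exact_mod_cast hk
        push_cast at this
        linarith
  · refine TV_of_not a _ fun hT' => hT ?_
    obtain ⟨h1, h2⟩ := hT'
    have h0 : ∀ i, (T.eta a k (Pi.single x (m : ℚ))).γ i =
        T.γ i - k * (Pi.single x (m : ℚ) : I → ℚ) i := fun i => rfl
    refine ⟨fun i => ?_, fun i => ?_⟩
    · by_cases hi : i = x
      · subst hi
        refine AD6_nat_of _ _ (k * m) (h1 i) ?_
        rw [h0, Pi.single_eq_same]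
        push_cast
        ring
      · refine AD6_nat_of _ _ 0 (h1 i) ?_
        rw [h0, Pi.single_eq_of_ne hi]
        push_cast
        ring
    · have h3 := h2 i
      rw [hE, sub_eq_add_neg, ← neg_smul, tdg_add, tdg_smul, tdg_cE a hs] at h3
      have h4 : cq a (T.eta a k (Pi.single x (m : ℚ))).γ i =
          cq a T.γ i + cq a (Pi.single x (-(k * m : ℚ))) i := by
        rw [← cq_add]
        congr 1
        funext j
        rw [h0]
        by_cases hj : j = x
        · subst hj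
          rw [Pi.single_eq_same, Pi.single_eq_same]
          ring
        · rw [Pi.single_eq_of_ne hj, Pi.single_eq_of_ne hj]
          ring
      rw [h4, cq_single] at h3
      linear_combination h3

/-- `(1 - η)^q = ∑ (-1)^m binom(q,m) η^m`. -/
theorem TV_expP (a : I → I → ℕ) (hs : ∀ i j, a i j = a j i) (T : Trm I) (x : I) (k : ℕ) (hk : 1 ≤ k)
    (q : ℚ) (M : ℕ) (hM : ⌊T.γ x⌋₊ ≤ M) :
    TV a (T.mulE (q • dd x k)) =
      ∑ m ∈ Finset.range (M + 1), (-1 : ℚ) ^ m * Ring.choose q m *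
        TV a (T.eta a k (Pi.single x (m : ℚ))) := by
  classical
  have hok : TOk a (T.mulE (q • dd x k)) ↔ TOk a T := by
    refine AD6_ok_mul a T _ fun i => ?_
    rw [tdg_smul, AD6_tdg_dd x k hk, mul_zero]
  by_cases hT : TOk a T
  · rw [TV_of_ok a _ (hok.2 hT)]
    have h1 : TV0 a (T.mulE (q • dd x k)) = coeff (gN T.γ)
        (rpw (1 - X x ^ k * mU a (-cE a x k)) q *
          (mU a T.E * (colMat (fun i => dl a (T.Λ i))).det)) := by
      show coeff (gN T.γ) (mU a (T.E + q • dd x k) * (colMat (fun i => dl a (T.Λ i))).det) = _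
      rw [mU_add, mU_smul, mU_dd a x k hk]
      congr 1
      ring
    rw [h1, coeff_rpw_one_sub x k hk _ _ q (gN T.γ) M hM]
    refine Finset.sum_congr rfl fun m _ => ?_
    rw [AD6_eta a hs, if_pos hT]
  · rw [TV_of_not a _ fun h => hT (hok.1 h)]
    symm
    refine Finset.sum_eq_zero fun m _ => ?_
    rw [AD6_eta a hs, if_neg hT, mul_zero]

/-- one step: `d log (1 - η) = - η d log η / (1 - η)`. -/
theorem AD6_step (a : I → I → ℕ) (hs : ∀ i j, a i j = a j i) (T : Trm I) (j x : I) (k : ℕ)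
    (hk : 1 ≤ k) :
    TV a (T.col j (dd x k)) =
      TV a (((T.mulE ((-1 : ℚ) • dd x k)).eta a k (Pi.single x ((1 : ℕ) : ℚ))).col j
        (cE a x k)) := by
  classical
  rw [AD6_eta_col, AD6_eta a hs]
  have hok : TOk a ((T.mulE ((-1 : ℚ) • dd x k)).col j (cE a x k)) ↔ TOk a (T.col j (dd x k)) := by
    have h1 : TOk a ((T.mulE ((-1 : ℚ) • dd x k)).col j (cE a x k)) ↔
        TOk a (T.mulE ((-1 : ℚ) • dd x k)) := TOk_congr a _ _ rfl rfl
    have h2 : TOk a (T.col j (dd x k)) ↔ TOk a T := TOk_congr a _ _ rfl rfl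
    rw [h1, h2]
    refine AD6_ok_mul a T _ fun i => ?_
    rw [tdg_smul, AD6_tdg_dd x k hk, mul_zero]
  by_cases hT : TOk a (T.col j (dd x k))
  · rw [TV_of_ok a _ hT, if_pos (hok.2 hT)]
    show coeff (gN T.γ) (mU a T.E * (colMat (fun i => dl a ((Function.update T.Λ j (dd x k)) i))).det) =
      coeff (gN T.γ) (X x ^ (k * 1) * mU a (-cE a x k) ^ 1 *
        (mU a (T.E + (-1 : ℚ) • dd x k) *
          (colMat (fun i => dl a ((Function.update T.Λ j (cE a x k)) i))).det))
    congr 1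
    have hc : ∀ c : QE I, (fun i => dl a ((Function.update T.Λ j c) i)) =
        Function.update (fun i => dl a (T.Λ i)) j (dl a c) := by
      intro c
      funext i
      by_cases hi : i = j
      · subst hi
        rw [Function.update_self, Function.update_self]
      · rw [Function.update_of_ne hi, Function.update_of_ne hi]
    rw [hc, hc, KQEta_colMat_update, KQEta_colMat_update]
    have hinv : mU a ((-1 : ℚ) • dd x k) * mU a (dd x k) = 1 := by
      rw [← mU_add, ← mU_zero a]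
      congr 1
      module
    have hkey : dl a (dd x k) = (X x ^ k * mU a (-cE a x k) * mU a ((-1 : ℚ) • dd x k)) •
        dl a (cE a x k) := by
      funext l
      show dl a (dd x k) l = (X x ^ k * mU a (-cE a x k) * mU a ((-1 : ℚ) • dd x k)) *
        dl a (cE a x k) l
      have e1 := dl_mU a (dd x k) l
      rw [AD6_tdg_dd x k hk, map_zero, zero_mul, zero_add] at e1
      have e2 := dl_mU a (-cE a x k) l
      have e3 : dl a (-cE a x k) l = - dl a (cE a x k) l := by
        rw [show -cE a x k = (-1 : ℚ) • cE a x k by module, dl_smul]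
        simp
      have e4 : tdg (-cE a x k) l = -((k : ℚ) * ((cart a l x : ℤ) : ℚ)) := by
        rw [show -cE a x k = (-1 : ℚ) • cE a x k by module, tdg_smul, tdg_cE a hs]
        ring
      rw [e3, e4] at e2
      have e5 : dD a l (mU a (dd x k)) = - dD a l (X x ^ k * mU a (-cE a x k)) := by
        rw [mU_dd a x k hk, dD_sub, dD_one, zero_sub]
      rw [e5, dD_mul, dD_X_pow] at e1
      linear_combination (mU a ((-1 : ℚ) • dd x k)) * e1 -
        (dl a (dd x k) l) * hinv + (X x ^ k * mU a ((-1 : ℚ) • dd x k)) * e2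
    rw [hkey, Matrix.det_updateCol_smul, mU_add, mul_one, pow_one]
    ring
  · rw [TV_of_not a _ hT, if_neg fun h => hT (hok.1 h)]

theorem AD6_eta_eta (a : I → I → ℕ) (T : Trm I) (x : I) (k p m : ℕ) :
    (T.eta a k (Pi.single x (p : ℚ))).eta a k (Pi.single x (m : ℚ)) =
      T.eta a k (Pi.single x (((p + m : ℕ) : ℚ))) := by
  refine Trm.ext ?_ ?_ rfl
  · funext i
    show T.γ i - k * (Pi.single x (p : ℚ) : I → ℚ) i - k * (Pi.single x (m : ℚ) : I → ℚ) i =
      T.γ i - k * (Pi.single x (((p + m : ℕ) : ℚ)) : I → ℚ) i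
    by_cases hi : i = x
    · subst hi
      rw [Pi.single_eq_same, Pi.single_eq_same, Pi.single_eq_same]
      push_cast
      ring
    · rw [Pi.single_eq_of_ne hi, Pi.single_eq_of_ne hi, Pi.single_eq_of_ne hi]
      ring
  · show T.E - (∑ y, (Pi.single x (p : ℚ) : I → ℚ) y • cE a y k) -
      (∑ y, (Pi.single x (m : ℚ) : I → ℚ) y • cE a y k) =
      T.E - (∑ y, (Pi.single x (((p + m : ℕ) : ℚ)) : I → ℚ) y • cE a y k)
    rw [AD6_sum_single, AD6_sum_single, AD6_sum_single]
    push_cast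
    module

theorem AD6_sum_shift (f : ℕ → ℚ) (M : ℕ) (h : f (M + 1) = 0) :
    ∑ m ∈ Finset.range (M + 1), f (m + 1) = ∑ m ∈ Finset.Icc 1 M, f m := by
  have h1 : ∀ M : ℕ, ∑ m ∈ Finset.range M, f (m + 1) = ∑ m ∈ Finset.Icc 1 M, f m := by
    intro M
    induction M with
    | zero => simp
    | succ M ih => rw [Finset.sum_range_succ, ih, Finset.sum_Icc_succ_top (by omega)]
  rw [Finset.sum_range_succ, h, add_zero, h1]

/-- the expansion of the column `d log (1 - η)` with a power of `1 - η`. -/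
theorem AD6_expQ (a : I → I → ℕ) (hs : ∀ i j, a i j = a j i) (T : Trm I) (j x : I) (k : ℕ)
    (hk : 1 ≤ k) (q : ℚ) (M : ℕ) (hM : ⌊T.γ x⌋₊ ≤ M) :
    TV a ((T.mulE (q • dd x k)).col j (dd x k)) =
      ∑ m ∈ Finset.Icc 1 M, (-1 : ℚ) ^ (m - 1) * Ring.choose (q - 1) (m - 1) *
        TV a ((T.eta a k (Pi.single x (m : ℚ))).col j (cE a x k)) := by
  rw [AD6_step a hs _ j x k hk]
  have h1 : (((T.mulE (q • dd x k)).mulE ((-1 : ℚ) • dd x k)).eta a k
      (Pi.single x ((1 : ℕ) : ℚ))).col j (cE a x k) =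
      ((T.eta a k (Pi.single x ((1 : ℕ) : ℚ))).col j (cE a x k)).mulE ((q - 1) • dd x k) := by
    refine Trm.ext rfl ?_ rfl
    show T.E + q • dd x k + (-1 : ℚ) • dd x k -
      (∑ y, (Pi.single x ((1 : ℕ) : ℚ) : I → ℚ) y • cE a y k) =
      T.E - (∑ y, (Pi.single x ((1 : ℕ) : ℚ) : I → ℚ) y • cE a y k) + (q - 1) • dd x k
    module
  have h2 : ⌊((T.eta a k (Pi.single x ((1 : ℕ) : ℚ))).col j (cE a x k)).γ x⌋₊ ≤ M := by
    refine le_trans (Nat.floor_le_floor ?_) hM
    show T.γ x - k * (Pi.single x ((1 : ℕ) : ℚ) : I → ℚ) x ≤ T.γ x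
    rw [Pi.single_eq_same]
    have : (0 : ℚ) ≤ k * ((1 : ℕ) : ℚ) := by positivity
    linarith
  rw [h1, TV_expP a hs _ x k hk (q - 1) M h2]
  have h3 : ∀ m : ℕ, ((T.eta a k (Pi.single x ((1 : ℕ) : ℚ))).col j (cE a x k)).eta a k
      (Pi.single x (m : ℚ)) = (T.eta a k (Pi.single x (((m + 1 : ℕ) : ℚ)))).col j (cE a x k) := by
    intro m
    rw [← AD6_eta_col, AD6_eta_eta, Nat.add_comm 1 m]
  have h4 := AD6_sum_shift (fun m => (-1 : ℚ) ^ (m - 1) * Ring.choose (q - 1) (m - 1) *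
        TV a ((T.eta a k (Pi.single x (m : ℚ))).col j (cE a x k))) M ?_
  · rw [← h4]
    refine Finset.sum_congr rfl fun m _ => ?_
    rw [h3, Nat.add_sub_cancel]
  · rw [TV_neg a _ x, mul_zero]
    show T.γ x - k * (Pi.single x (((M + 1 : ℕ) : ℚ)) : I → ℚ) x < 0
    rw [Pi.single_eq_same]
    have e1 : T.γ x < ⌊T.γ x⌋₊ + 1 := Nat.lt_floor_add_one _
    have e2 : ((⌊T.γ x⌋₊ : ℕ) : ℚ) ≤ (M : ℚ) := by exact_mod_cast hM
    have e3 : (1 : ℚ) ≤ (k : ℚ) := by exact_mod_cast hk
    push_cast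
    nlinarith [mul_le_mul_of_nonneg_right e3 (show (0 : ℚ) ≤ (M : ℚ) + 1 by positivity)]

omit [Fintype I] [DecidableEq I] in
theorem AD6_dd (x : I) (k : ℕ) :
    (sy x (k + 1) : QE I) = ((2 : ℚ) • sy x k - sy x (k - 1)) + dd x k := by
  unfold dd
  module

theorem AD6_choose_neg_one (m : ℕ) : (-1 : ℚ) ^ m * Ring.choose (-1 : ℚ) m = 1 := by
  rw [Ring.choose_neg]
  have h1 : (1 : ℚ) + m - 1 = (m : ℚ) := by ring
  rw [h1, Ring.choose_natCast, Nat.choose_self]
  rcases Nat.even_or_odd m with h | h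
  · rw [h.neg_one_pow, Int.negOnePow_even (m : ℤ) ((Int.even_coe_nat m).2 h), one_smul, one_mul,
      Nat.cast_one]
  · rw [h.neg_one_pow, Int.negOnePow_odd (m : ℤ) (by exact_mod_cast h), Nat.cast_one,
      Units.smul_def]
    simp

/-- `d log Q_{x,k+1} = 2 d log Q_{x,k} - d log Q_{x,k-1} + ∑_{m ≥ 1} η^m θ_x`. -/
theorem TV_expD (a : I → I → ℕ) (hs : ∀ i j, a i j = a j i) (T : Trm I) (j x : I) (k : ℕ)
    (hk : 1 ≤ k) (M : ℕ) (hM : ⌊T.γ x⌋₊ ≤ M) :
    TV a (T.col j (sy x (k + 1))) =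
      TV a (T.col j ((2 : ℚ) • sy x k - sy x (k - 1))) +
        ∑ m ∈ Finset.Icc 1 M, TV a ((T.eta a k (Pi.single x (m : ℚ))).col j (cE a x k)) := by
  rw [AD6_dd, TV_col_add]
  congr 1
  have h1 : T.col j (dd x k) = (T.mulE ((0 : ℚ) • dd x k)).col j (dd x k) := by
    refine Trm.ext rfl ?_ rfl
    show T.E = T.E + (0 : ℚ) • dd x k
    rw [zero_smul, add_zero]
  rw [h1, AD6_expQ a hs T j x k hk 0 M hM]
  refine Finset.sum_congr rfl fun m _ => ?_
  rw [zero_sub, AD6_choose_neg_one, one_mul]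

/-- the combined expansion of `Q_{x,k+1}^{-P}` with column `d log Q_{x,k+1} + λ`, `P ≠ 0`:
weight `binom(P+m-1, m) / P = (P+m-1)!/(P! m!)`. -/
theorem TV_expPD (a : I → I → ℕ) (hs : ∀ i j, a i j = a j i) (T : Trm I) (j x : I) (k : ℕ)
    (hk : 1 ≤ k) (P : ℚ) (hP : P ≠ 0) (c : QE I) (M : ℕ) (hM : ⌊T.γ x⌋₊ ≤ M) :
    TV a ((T.mulE (-(P • dd x k))).col j (sy x (k + 1) + c)) =
      ∑ m ∈ Finset.range (M + 1), (-1 : ℚ) ^ m * Ring.choose (-P) m / P *
        TV a ((T.eta a k (Pi.single x (m : ℚ))).col j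
          (P • ((2 : ℚ) • sy x k - sy x (k - 1) + c) + (m : ℚ) • cE a x k)) := by
  have h0 : (sy x (k + 1) + c : QE I) = ((2 : ℚ) • sy x k - sy x (k - 1) + c) + dd x k := by
    rw [AD6_dd]
    abel
  rw [h0, TV_col_add, ← neg_smul, AD6_mulE_col T _ j ((2 : ℚ) • sy x k - sy x (k - 1) + c),
    TV_expP a hs (T.col j ((2 : ℚ) • sy x k - sy x (k - 1) + c)) x k hk (-P) M hM, AD6_expQ a hs T j x k hk (-P) M hM]
  have h1 : ∀ m : ℕ, TV a ((T.eta a k (Pi.single x (m : ℚ))).col j
      (P • ((2 : ℚ) • sy x k - sy x (k - 1) + c) + (m : ℚ) • cE a x k)) =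
      P * TV a ((T.col j ((2 : ℚ) • sy x k - sy x (k - 1) + c)).eta a k (Pi.single x (m : ℚ))) +
      m * TV a ((T.eta a k (Pi.single x (m : ℚ))).col j (cE a x k)) := by
    intro m
    rw [TV_col_add, TV_col_smul, TV_col_smul, AD6_eta_col]
  have h2 : ∑ m ∈ Finset.range (M + 1), (-1 : ℚ) ^ m * Ring.choose (-P) m / P *
        (m * TV a ((T.eta a k (Pi.single x (m : ℚ))).col j (cE a x k))) =
      ∑ m ∈ Finset.Icc 1 M, (-1 : ℚ) ^ (m - 1) * Ring.choose (-P - 1) (m - 1) *
        TV a ((T.eta a k (Pi.single x (m : ℚ))).col j (cE a x k)) := by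
    rw [Finset.sum_range_succ']
    have e0 : ∑ m ∈ Finset.Icc 1 M, (-1 : ℚ) ^ (m - 1) * Ring.choose (-P - 1) (m - 1) *
        TV a ((T.eta a k (Pi.single x (m : ℚ))).col j (cE a x k)) =
        ∑ m ∈ Finset.range M, (-1 : ℚ) ^ m * Ring.choose (-P - 1) m *
        TV a ((T.eta a k (Pi.single x ((m + 1 : ℕ) : ℚ))).col j (cE a x k)) := by
      clear hM
      induction M with
      | zero => simp
      | succ M ih =>
        rw [Finset.sum_range_succ, ← ih, Finset.sum_Icc_succ_top (by omega), Nat.add_sub_cancel]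
    rw [e0]
    simp only [Nat.cast_zero, zero_mul, mul_zero, add_zero]
    refine Finset.sum_congr rfl fun m _ => ?_
    have e1 := Ring.choose_smul_choose (-P) (n := m + 1) (k := 1) (by omega)
    rw [Nat.choose_one_right, Ring.choose_one_right, Nat.add_sub_cancel, nsmul_eq_mul,
      Nat.cast_one] at e1
    have e2 : ((m + 1 : ℕ) : ℚ) * Ring.choose (-P) (m + 1) / P = -Ring.choose (-P - 1) m := by
      rw [e1]
      field_simp
    calc (-1 : ℚ) ^ (m + 1) * Ring.choose (-P) (m + 1) / P * (((m + 1 : ℕ) : ℚ) *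
          TV a ((T.eta a k (Pi.single x ((m + 1 : ℕ) : ℚ))).col j (cE a x k)))
        = (-1 : ℚ) ^ (m + 1) * (((m + 1 : ℕ) : ℚ) * Ring.choose (-P) (m + 1) / P) *
          TV a ((T.eta a k (Pi.single x ((m + 1 : ℕ) : ℚ))).col j (cE a x k)) := by ring
      _ = _ := by
        rw [e2]
        ring
  rw [← h2, ← Finset.sum_add_distrib]
  refine Finset.sum_congr rfl fun m _ => ?_
  rw [h1]
  field_simp

end

end Pool.Agent.H27.KAC
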