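import Pool.Agent.H41.KA.AD0

/-!
KAC ADE, module AD7a: `p`-integral rational numbers.

`PI p q` (`q` is `p`-integral) and `PD p q` (`q ∈ p ℤ_(p)`).
-/

set_option autoImplicit false

namespace Pool.Agent.H27.KAC

open scoped BigOperators

section PInt

variable {p : ℕ}

theorem PI_int (hp : p.Prime) (n : ℤ) : PI p (n : ℚ) := by
  unfold PI
  rw [Rat.den_intCast, Nat.dvd_one]
  exact hp.one_lt.ne'

theorem PI_add (hp : p.Prime) {q r : ℚ} (hq : PI p q) (hr : PI p r) : PI p (q + r) := by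
  intro h
  rcases (hp.dvd_mul).1 (h.trans (Rat.add_den_dvd q r)) with h | h
  · exact hq h
  · exact hr h

theorem PI_neg {q : ℚ} (hq : PI p q) : PI p (-q) := by
  unfold PI
  rw [Rat.den_neg_eq_den]
  exact hq

theorem PI_mul (hp : p.Prime) {q r : ℚ} (hq : PI p q) (hr : PI p r) : PI p (q * r) := by
  intro h
  rcases (hp.dvd_mul).1 (h.trans (Rat.mul_den_dvd q r)) with h | h
  · exact hq h
  · exact hr h

theorem PI_sum (hp : p.Prime) {ι : Type} (s : Finset ι) (f : ι → ℚ) (h : ∀ i ∈ s, PI p (f i)) :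
    PI p (∑ i ∈ s, f i) := by
  classical
  refine Finset.sum_induction f (PI p) (fun a b ha hb => PI_add hp ha hb) ?_ h
  simpa using PI_int hp 0

theorem PD_add (hp : p.Prime) {q r : ℚ} (hq : PD p q) (hr : PD p r) : PD p (q + r) := by
  obtain ⟨a, ha, rfl⟩ := hq
  obtain ⟨b, hb, rfl⟩ := hr
  exact ⟨a + b, PI_add hp ha hb, by ring⟩

theorem PD_neg {q : ℚ} (hq : PD p q) : PD p (-q) := by
  obtain ⟨a, ha, rfl⟩ := hq
  exact ⟨-a, PI_neg ha, by ring⟩

theorem PD_zero (hp : p.Prime) : PD p 0 :=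
  ⟨0, by simpa using PI_int hp 0, by ring⟩

theorem PD_mul (hp : p.Prime) {q r : ℚ} (hq : PD p q) (hr : PI p r) : PD p (r * q) := by
  obtain ⟨a, ha, rfl⟩ := hq
  exact ⟨r * a, PI_mul hp hr ha, by ring⟩

theorem PD_sum (hp : p.Prime) {ι : Type} (s : Finset ι) (f : ι → ℚ) (h : ∀ i ∈ s, PD p (f i)) :
    PD p (∑ i ∈ s, f i) := by
  classical
  exact Finset.sum_induction f (PD p) (fun a b ha hb => PD_add hp ha hb) (PD_zero hp) h

/-- almost all primes are allowed. -/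
theorem PI_of_large (q : ℚ) : ∃ N : ℕ, ∀ p : ℕ, N ≤ p → PI p q := by
  refine ⟨q.den + 1, fun p hp h => ?_⟩
  have := Nat.le_of_dvd q.den_pos h
  omega

/-- a number divisible by infinitely many primes is zero. -/
theorem eq_zero_of_PD (q : ℚ) (h : ∀ N : ℕ, ∃ p : ℕ, N ≤ p ∧ p.Prime ∧ PD p q) : q = 0 := by
  by_contra hq
  obtain ⟨p, hN, hp, r, hr, hqr⟩ := h (q.num.natAbs + 1)
  have h1 : (q.num : ℚ) * r.den = (p : ℚ) * r.num * q.den := by
    have hq1 : (q.num : ℚ) = q * q.den := (Rat.mul_den_eq_num q).symm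
    have hr1 : (r.num : ℚ) = r * r.den := (Rat.mul_den_eq_num r).symm
    rw [hq1, hr1, hqr]
    ring
  have h2 : q.num * (r.den : ℤ) = (p : ℤ) * r.num * q.den := by exact_mod_cast h1
  have h3 : (p : ℤ) ∣ q.num * (r.den : ℤ) := ⟨r.num * q.den, by rw [h2]; ring⟩
  have hpi : Prime (p : ℤ) := Nat.prime_iff_prime_int.1 hp
  rcases hpi.dvd_or_dvd h3 with h4 | h4
  · have h5 : p ∣ q.num.natAbs := by
      have := Int.natAbs_dvd_natAbs.2 h4
      simpa using this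
    have h6 : 0 < q.num.natAbs := by
      rw [Nat.pos_iff_ne_zero, Ne, Int.natAbs_eq_zero, Rat.num_eq_zero]
      exact hq
    have := Nat.le_of_dvd h6 h5
    omega
  · exact hr (by exact_mod_cast h4)

/-- the same with primes `p ≡ 1 mod d` (Dirichlet, or elementary via cyclotomic polynomials; Mathlib:
`Nat.exists_prime_gt_modEq_one`). -/
theorem eq_zero_of_PD_mod (q : ℚ) (d : ℕ) (hd : 1 ≤ d)
    (h : ∃ N : ℕ, ∀ p : ℕ, N ≤ p → p.Prime → p % d = 1 % d → PD p q) : q = 0 := by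
  obtain ⟨N, hN⟩ := h
  refine eq_zero_of_PD q fun M => ?_
  obtain ⟨p, hp, hlt, hmod⟩ := Nat.exists_prime_gt_modEq_one (k := d) (max N M) (by omega)
  have h1 := le_max_left N M
  have h2 := le_max_right N M
  exact ⟨p, by omega, hp, hN p (by omega) hp hmod⟩

/-- binomial coefficients of `p`-integral numbers are `p`-integral. -/
theorem PI_choose (hp : p.Prime) (q : ℚ) (hq : PI p q) (n : ℕ) : PI p (Ring.choose q n) := by
  have : Fact p.Prime := ⟨hp⟩
  have hq1 : ‖(q : ℚ_[p])‖ ≤ 1 := Padic.norm_rat_le_one hq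
  have h1 : ((Ring.choose q n : ℚ) : ℚ_[p]) = Ring.choose (q : ℚ_[p]) n :=
    Ring.map_choose (Rat.castHom ℚ_[p]) q n
  obtain ⟨x, hx⟩ : ∃ x : ℤ_[p], (x : ℚ_[p]) = (q : ℚ_[p]) := ⟨⟨(q : ℚ_[p]), hq1⟩, rfl⟩
  have h2 : ((Ring.choose x n : ℤ_[p]) : ℚ_[p]) = Ring.choose (q : ℚ_[p]) n := by
    rw [← hx]
    exact Ring.map_choose (PadicInt.Coe.ringHom (p := p)) x n
  have h3 : ‖((Ring.choose q n : ℚ) : ℚ_[p])‖ ≤ 1 := by
    rw [h1, ← h2]
    exact PadicInt.norm_le_one _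
  have h4 := (Padic.norm_rat_le_one_iff_padicValuation_le_one p).1 h3
  exact Rat.padicValuation_le_one_iff.1 h4

end PInt

end Pool.Agent.H27.KAC
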