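import Pool.Agent.H41.KA.AD2
import Pool.Agent.H41.KA.AD7a

/-!
KAC ADE, module AD7: `p`-integrality of the series.

`PI p q` (`q` is `p`-integral) and `PD p q` (`q ∈ p ℤ_(p)`).
-/

set_option autoImplicit false

namespace Pool.Agent.H27.KAC

open scoped BigOperators
open MvPowerSeries

section

variable {I : Type} [Fintype I] [DecidableEq I]

/-- the series has integral coefficients (it is the image of an integral series). -/
private def AD7_ZI (F : MvPowerSeries I ℚ) : Prop :=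
  ∃ G : MvPowerSeries I ℤ, MvPowerSeries.map (Int.castRingHom ℚ) G = F

omit [Fintype I] [DecidableEq I] in
private theorem AD7_ZI_one : AD7_ZI (1 : MvPowerSeries I ℚ) := ⟨1, map_one _⟩

omit [Fintype I] [DecidableEq I] in
private theorem AD7_ZI_mul {F G : MvPowerSeries I ℚ} (hF : AD7_ZI F) (hG : AD7_ZI G) :
    AD7_ZI (F * G) := by
  obtain ⟨F', rfl⟩ := hF
  obtain ⟨G', rfl⟩ := hG
  exact ⟨F' * G', map_mul _ _ _⟩

omit [Fintype I] [DecidableEq I] in
private theorem AD7_ZI_sub {F G : MvPowerSeries I ℚ} (hF : AD7_ZI F) (hG : AD7_ZI G) :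
    AD7_ZI (F - G) := by
  obtain ⟨F', rfl⟩ := hF
  obtain ⟨G', rfl⟩ := hG
  exact ⟨F' - G', map_sub _ _ _⟩

omit [Fintype I] [DecidableEq I] in
private theorem AD7_ZI_pow {F : MvPowerSeries I ℚ} (hF : AD7_ZI F) (n : ℕ) : AD7_ZI (F ^ n) := by
  obtain ⟨F', rfl⟩ := hF
  exact ⟨F' ^ n, map_pow _ _ _⟩

omit [Fintype I] [DecidableEq I] in
private theorem AD7_ZI_X (i : I) : AD7_ZI (X i : MvPowerSeries I ℚ) :=
  ⟨X i, MvPowerSeries.map_X _ _⟩

omit [Fintype I] [DecidableEq I] in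
private theorem AD7_ZI_prod {ι : Type} (s : Finset ι) (F : ι → MvPowerSeries I ℚ)
    (h : ∀ j ∈ s, AD7_ZI (F j)) : AD7_ZI (∏ j ∈ s, F j) := by
  classical
  induction s using Finset.induction_on with
  | empty => exact AD7_ZI_one
  | insert j s hj ih =>
    rw [Finset.prod_insert hj]
    exact AD7_ZI_mul (h j (Finset.mem_insert_self _ _))
      (ih fun k hk => h k (Finset.mem_insert_of_mem hk))

omit [Fintype I] [DecidableEq I] in
private theorem AD7_ZI_inv {F : MvPowerSeries I ℚ} (hF : AD7_ZI F) (hc : constantCoeff F = 1) :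
    AD7_ZI (F⁻¹) := by
  obtain ⟨F', rfl⟩ := hF
  have hc' : constantCoeff F' = 1 := by
    have h1 : ((constantCoeff F' : ℤ) : ℚ) = 1 := by
      rw [← hc]
      simp
    exact_mod_cast h1
  have hu : IsUnit F' := by
    rw [MvPowerSeries.isUnit_iff_constantCoeff, hc']
    exact isUnit_one
  obtain ⟨u, rfl⟩ := hu
  refine ⟨((u⁻¹ : (MvPowerSeries I ℤ)ˣ) : MvPowerSeries I ℤ), ?_⟩
  have h0 : constantCoeff (MvPowerSeries.map (Int.castRingHom ℚ) (u : MvPowerSeries I ℤ)) ≠ 0 := by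
    rw [hc]; exact one_ne_zero
  rw [MvPowerSeries.eq_inv_iff_mul_eq_one h0, ← map_mul, Units.inv_mul, map_one]

private theorem AD7_uS_ZI (a : I → I → ℕ) (k : ℕ) :
    (∀ i, AD7_ZI (uS a i k)) ∧ (∀ i, AD7_ZI (uS a i (k + 1))) := by
  induction k with
  | zero => exact ⟨fun i => by rw [uS_zero]; exact AD7_ZI_one, fun i => by rw [uS_one]; exact AD7_ZI_one⟩
  | succ k ih =>
    refine ⟨ih.2, fun i => ?_⟩
    have h1 : uS a i (k + 2) =
      (uS a i (k + 1) ^ 2 - (X i) ^ (k + 1) * ∏ j, uS a j (k + 1) ^ (a i j)) * (uS a i k)⁻¹ := rfl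
    change AD7_ZI (uS a i (k + 2))
    rw [h1]
    exact AD7_ZI_mul (AD7_ZI_sub (AD7_ZI_pow (ih.2 i) 2)
      (AD7_ZI_mul (AD7_ZI_pow (AD7_ZI_X i) _)
        (AD7_ZI_prod _ _ fun j _ => AD7_ZI_pow (ih.2 j) _)))
      (AD7_ZI_inv (ih.1 i) (uS_const a i k))

/-- the `U_{ik}` have integral coefficients. -/
theorem uS_int (a : I → I → ℕ) (i : I) (k : ℕ) (β : I →₀ ℕ) :
    ∃ n : ℤ, coeff β (uS a i k) = n := by
  obtain ⟨G, hG⟩ := (AD7_uS_ZI a k).1 i
  refine ⟨coeff β G, ?_⟩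
  rw [← hG]
  simp

/-- all coefficients are `p`-integral. -/
def CInt (p : ℕ) (F : MvPowerSeries I ℚ) : Prop := ∀ β : I →₀ ℕ, PI p (coeff β F)

private theorem AD7_CInt_of_ZI {p : ℕ} (hp : p.Prime) {F : MvPowerSeries I ℚ} (hF : AD7_ZI F) :
    CInt p F := by
  obtain ⟨G, rfl⟩ := hF
  intro β
  have h1 : coeff β (MvPowerSeries.map (Int.castRingHom ℚ) G) = ((coeff β G : ℤ) : ℚ) := by simp
  rw [h1]
  exact PI_int hp _

theorem CInt_mul {p : ℕ} (hp : p.Prime) {F G : MvPowerSeries I ℚ} (hF : CInt p F) (hG : CInt p G) :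
    CInt p (F * G) := by
  intro β
  rw [coeff_mul]
  exact PI_sum hp _ _ fun i _ => PI_mul hp (hF _) (hG _)

private theorem AD7_CInt_one {p : ℕ} (hp : p.Prime) : CInt p (1 : MvPowerSeries I ℚ) :=
  AD7_CInt_of_ZI hp AD7_ZI_one

private theorem AD7_CInt_add {p : ℕ} (hp : p.Prime) {F G : MvPowerSeries I ℚ} (hF : CInt p F)
    (hG : CInt p G) : CInt p (F + G) := by
  intro β
  rw [map_add]
  exact PI_add hp (hF _) (hG _)

private theorem AD7_CInt_neg {p : ℕ} {F : MvPowerSeries I ℚ} (hF : CInt p F) : CInt p (-F) := by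
  intro β
  rw [map_neg]
  exact PI_neg (hF _)

private theorem AD7_CInt_zero {p : ℕ} (hp : p.Prime) : CInt p (0 : MvPowerSeries I ℚ) := by
  intro β
  rw [map_zero]
  have h := PI_int hp 0
  rwa [Int.cast_zero] at h

private theorem AD7_CInt_C {p : ℕ} (hp : p.Prime) (q : ℚ) (hq : PI p q) :
    CInt p (C q : MvPowerSeries I ℚ) := by
  intro β
  rw [coeff_C]
  split_ifs
  · exact hq
  · have h := PI_int hp 0
    rwa [Int.cast_zero] at h

private theorem AD7_CInt_pow {p : ℕ} (hp : p.Prime) {F : MvPowerSeries I ℚ} (hF : CInt p F) (n : ℕ) :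
    CInt p (F ^ n) := by
  induction n with
  | zero => rw [pow_zero]; exact AD7_CInt_one hp
  | succ n ih => rw [pow_succ]; exact CInt_mul hp ih hF

private theorem AD7_CInt_prod {p : ℕ} (hp : p.Prime) {ι : Type} (s : Finset ι)
    (F : ι → MvPowerSeries I ℚ) (h : ∀ j ∈ s, CInt p (F j)) : CInt p (∏ j ∈ s, F j) := by
  classical
  induction s using Finset.induction_on with
  | empty => exact AD7_CInt_one hp
  | insert j s hj ih =>
    rw [Finset.prod_insert hj]
    exact CInt_mul hp (h j (Finset.mem_insert_self _ _))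
      (ih fun k hk => h k (Finset.mem_insert_of_mem hk))

private theorem AD7_CInt_sum {p : ℕ} (hp : p.Prime) {ι : Type} (s : Finset ι)
    (F : ι → MvPowerSeries I ℚ) (h : ∀ j ∈ s, CInt p (F j)) : CInt p (∑ j ∈ s, F j) := by
  classical
  induction s using Finset.induction_on with
  | empty => exact AD7_CInt_zero hp
  | insert j s hj ih =>
    rw [Finset.sum_insert hj]
    exact AD7_CInt_add hp (h j (Finset.mem_insert_self _ _))
      (ih fun k hk => h k (Finset.mem_insert_of_mem hk))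

theorem CInt_rpw {p : ℕ} (hp : p.Prime) (u : MvPowerSeries I ℚ) (hc : constantCoeff u = 1)
    (hu : CInt p u) (q : ℚ) (hq : PI p q) : CInt p (rpw u q) := by
  intro β
  have hs : PowerSeries.HasSubst (u - 1) := by
    apply PowerSeries.HasSubst.of_constantCoeff_zero
    rw [map_sub, hc, map_one, sub_self]
  rw [rpw, PowerSeries.coeff_subst hs]
  have hu1 : CInt p (u - 1) := by
    rw [sub_eq_add_neg]
    exact AD7_CInt_add hp hu (AD7_CInt_neg (AD7_CInt_one hp))
  refine finsum_induction (PI p) ?_ (fun x y hx hy => PI_add hp hx hy) fun n => ?_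
  · have h := PI_int hp 0
    rwa [Int.cast_zero] at h
  · rw [PowerSeries.binomialSeries_coeff, smul_eq_mul, smul_eq_mul, mul_one]
    exact PI_mul hp (PI_choose hp q hq n) (AD7_CInt_pow hp hu1 n β)

theorem CInt_mU {p : ℕ} (hp : p.Prime) (a : I → I → ℕ) (E : QE I) (hE : ∀ ik, PI p (E ik)) :
    CInt p (mU a E) := by
  rw [mU]
  exact AD7_CInt_prod hp _ _ fun ik _ =>
    CInt_rpw hp _ (uS_const a _ _) (AD7_CInt_of_ZI hp ((AD7_uS_ZI a _).1 _)) _ (hE ik)

private theorem AD7_CInt_xv {p : ℕ} (hp : p.Prime) (a : I → I → ℕ) (i : I) (k : ℕ) (l : I) :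
    CInt p (xv a i k l) := by
  rw [xv, dlg]
  refine AD7_CInt_add hp ?_ (CInt_mul hp ?_ ?_)
  · split_ifs
    · have h1 : ((k : MvPowerSeries I ℚ)) = C ((k : ℤ) : ℚ) := by
        rw [Int.cast_natCast, map_natCast]
      rw [h1]
      exact AD7_CInt_C hp _ (PI_int hp _)
    · exact AD7_CInt_zero hp
  · intro β
    rw [coeff_dD, uu_coe]
    refine PI_mul hp ?_ (AD7_CInt_of_ZI hp ((AD7_uS_ZI a _).1 _) β)
    have h := PI_int hp (-(cw a β l))
    push_cast at h
    exact h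
  · have h1 : (((uu a i k)⁻¹ : (MvPowerSeries I ℚ)ˣ) : MvPowerSeries I ℚ) = (uS a i k)⁻¹ := by
      have h0 : constantCoeff (uS a i k) ≠ 0 := by rw [uS_const]; exact one_ne_zero
      rw [MvPowerSeries.eq_inv_iff_mul_eq_one h0, ← uu_coe, Units.inv_mul]
    rw [h1]
    exact AD7_CInt_of_ZI hp (AD7_ZI_inv ((AD7_uS_ZI a _).1 _) (uS_const a i k))

theorem CInt_dl {p : ℕ} (hp : p.Prime) (a : I → I → ℕ) (E : QE I) (hE : ∀ ik, PI p (E ik)) (l : I) :
    CInt p (dl a E l) := by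
  rw [dl]
  exact AD7_CInt_sum hp _ _ fun ik _ => CInt_mul hp (AD7_CInt_C hp _ (hE ik)) (AD7_CInt_xv hp a _ _ l)

theorem CInt_det {p : ℕ} (hp : p.Prime) (a : I → I → ℕ) (Λ : I → QE I)
    (hΛ : ∀ j ik, PI p (Λ j ik)) : CInt p (colMat (fun i => dl a (Λ i))).det := by
  rw [Matrix.det_apply']
  refine AD7_CInt_sum hp _ _ fun σ _ => ?_
  have h1 : CInt p (∏ i, colMat (fun i => dl a (Λ i)) (σ i) i) :=
    AD7_CInt_prod hp _ _ fun i _ => CInt_dl hp a (Λ i) (hΛ i) (σ i)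
  refine CInt_mul hp ?_ h1
  rcases Int.units_eq_one_or (Equiv.Perm.sign σ) with h | h
  · rw [h, Units.val_one, Int.cast_one]
    exact AD7_CInt_one hp
  · rw [h, Units.val_neg, Units.val_one, Int.cast_neg, Int.cast_one]
    exact AD7_CInt_neg (AD7_CInt_one hp)

/-- reduction modulo `p`, coefficientwise. -/
private noncomputable def AD7_red (p : ℕ) [Fact p.Prime] (F : MvPowerSeries I ℚ) :
    MvPowerSeries I (ZMod p) := fun β => ((coeff β F : ℚ) : ZMod p)

omit [Fintype I] [DecidableEq I] in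
private theorem AD7_coeff_red (p : ℕ) [Fact p.Prime] (F : MvPowerSeries I ℚ) (β : I →₀ ℕ) :
    coeff β (AD7_red p F) = ((coeff β F : ℚ) : ZMod p) := rfl

private theorem AD7_den_ne {p : ℕ} [Fact p.Prime] {q : ℚ} (hq : PI p q) : ((q.den : ℕ) : ZMod p) ≠ 0 := by
  intro h
  exact hq ((ZMod.natCast_eq_zero_iff _ _).1 h)

private theorem AD7_cast_add {p : ℕ} [Fact p.Prime] {q r : ℚ} (hq : PI p q) (hr : PI p r) :
    ((q + r : ℚ) : ZMod p) = (q : ZMod p) + (r : ZMod p) :=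
  Rat.cast_add_of_ne_zero (AD7_den_ne hq) (AD7_den_ne hr)

private theorem AD7_cast_mul {p : ℕ} [Fact p.Prime] {q r : ℚ} (hq : PI p q) (hr : PI p r) :
    ((q * r : ℚ) : ZMod p) = (q : ZMod p) * (r : ZMod p) :=
  Rat.cast_mul_of_ne_zero (AD7_den_ne hq) (AD7_den_ne hr)

private theorem AD7_cast_sum {p : ℕ} [Fact p.Prime] {ι : Type} (s : Finset ι) (f : ι → ℚ)
    (h : ∀ i ∈ s, PI p (f i)) :
    ((∑ i ∈ s, f i : ℚ) : ZMod p) = ∑ i ∈ s, ((f i : ℚ) : ZMod p) := by
  classical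
  induction s using Finset.induction_on with
  | empty => simp
  | insert j s hj ih =>
    rw [Finset.sum_insert hj, Finset.sum_insert hj,
      AD7_cast_add (h j (Finset.mem_insert_self _ _))
        (PI_sum Fact.out _ _ fun k hk => h k (Finset.mem_insert_of_mem hk)),
      ih fun k hk => h k (Finset.mem_insert_of_mem hk)]

private theorem AD7_red_mul {p : ℕ} [Fact p.Prime] {F G : MvPowerSeries I ℚ} (hF : CInt p F)
    (hG : CInt p G) : AD7_red p (F * G) = AD7_red p F * AD7_red p G := by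
  ext β
  rw [AD7_coeff_red, coeff_mul, coeff_mul,
    AD7_cast_sum _ _ fun i _ => PI_mul Fact.out (hF _) (hG _)]
  exact Finset.sum_congr rfl fun i _ => AD7_cast_mul (hF _) (hG _)

private theorem AD7_red_one {p : ℕ} [Fact p.Prime] : AD7_red p (1 : MvPowerSeries I ℚ) = 1 := by
  ext β
  rw [AD7_coeff_red, coeff_one, coeff_one]
  split_ifs <;> simp

private theorem AD7_red_pow {p : ℕ} [Fact p.Prime] {F : MvPowerSeries I ℚ} (hF : CInt p F) (n : ℕ) :
    AD7_red p (F ^ n) = AD7_red p F ^ n := by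
  induction n with
  | zero => rw [pow_zero, pow_zero, AD7_red_one]
  | succ n ih => rw [pow_succ, pow_succ, AD7_red_mul (AD7_CInt_pow Fact.out hF n) hF, ih]

private theorem AD7_PD_of_cast {p : ℕ} [Fact p.Prime] {q : ℚ} (hq : PI p q)
    (h : ((q : ℚ) : ZMod p) = 0) : PD p q := by
  have hp : p.Prime := Fact.out
  have hn : ((q.num : ℤ) : ZMod p) = 0 := by
    rw [Rat.cast_def] at h
    rcases div_eq_zero_iff.1 h with h | h
    · exact h
    · exact absurd h (AD7_den_ne hq)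
  rw [ZMod.intCast_zmod_eq_zero_iff_dvd] at hn
  obtain ⟨c, hc⟩ := hn
  have hp0 : (p : ℚ) ≠ 0 := Nat.cast_ne_zero.2 hp.ne_zero
  have hd0 : (q.den : ℚ) ≠ 0 := Nat.cast_ne_zero.2 q.den_nz
  refine ⟨(c : ℚ) / (q.den : ℚ), ?_, ?_⟩
  · intro hdv
    apply hq
    have h1 : (((c : ℚ) / (q.den : ℚ)).den : ℤ) ∣ (q.den : ℤ) := by
      have h2 := Rat.den_dvd c (q.den : ℤ)
      rwa [Rat.divInt_eq_div, Int.cast_natCast] at h2
    exact hdv.trans (Int.natCast_dvd_natCast.1 h1)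
  · have h1 : q = (q.num : ℚ) / (q.den : ℚ) := (Rat.num_div_den q).symm
    conv_lhs => rw [h1]
    rw [hc]
    push_cast
    ring

/-- the `p`-th power of a `p`-integral series: `F^p ≡ F(Y^p)`. -/
theorem coeff_pow_prime {p : ℕ} (hp : p.Prime) (F : MvPowerSeries I ℚ) (hF : CInt p F)
    (β : I →₀ ℕ) : PD p (coeff (p • β) (F ^ p) - coeff β F) := by
  haveI : Fact p.Prime := ⟨hp⟩
  have h1 : PI p (coeff (p • β) (F ^ p)) := AD7_CInt_pow hp hF p _
  have h2 : PI p (coeff β F) := hF β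
  apply AD7_PD_of_cast (by rw [sub_eq_add_neg]; exact PI_add hp h1 (PI_neg h2))
  rw [sub_eq_add_neg, AD7_cast_add h1 (PI_neg h2), ← AD7_coeff_red, AD7_red_pow hF, Rat.cast_neg,
    ← AD7_coeff_red p F, ← MvPowerSeries.map_frobenius_expand p hp.ne_zero, coeff_map,
    coeff_expand_smul, ZMod.frobenius_zmod, RingHom.id_apply, add_neg_cancel]

theorem coeff_pow_prime_of_not {p : ℕ} (hp : p.Prime) (F : MvPowerSeries I ℚ) (hF : CInt p F)
    (β : I →₀ ℕ) (hβ : ¬ ∃ β' : I →₀ ℕ, β = p • β') : PD p (coeff β (F ^ p)) := by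
  haveI : Fact p.Prime := ⟨hp⟩
  apply AD7_PD_of_cast (AD7_CInt_pow hp hF p _)
  have h3 : ∃ i, ¬ p ∣ β i := by
    by_contra hcon
    push Not at hcon
    apply hβ
    refine ⟨Finsupp.equivFunOnFinite.symm fun i => β i / p, ?_⟩
    ext i
    simp [Nat.mul_div_cancel' (hcon i)]
  obtain ⟨i, hi⟩ := h3
  rw [← AD7_coeff_red, AD7_red_pow hF, ← MvPowerSeries.map_frobenius_expand p hp.ne_zero, coeff_map,
    coeff_expand_of_not_dvd p hp.ne_zero _ hi, map_zero]

end

end Pool.Agent.H27.KAC
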