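import Pool.Agent.H41.KA.AD7a

/-!
KAC ADE, module AD8a: truncated Euler product.

Proof.  Fix the degree bound `N = p * tdeg g`.  Every power series `u` with integral coefficients and constant coefficient
one is a finite product `∏_{0 < |b| ≤ N} (1 - Y^b)^{c_b}` (`c_b ∈ ℤ`) modulo terms of degree `> N` (induction on the degree), hence
`dlg a u l = ∑_b c_b (C b)_l ∑_{k ≥ 1} Y^{k b}` modulo degree `> N`   (`D_l Y^b = -(Cb)_l Y^b`, file KQDer: `coeff_dD`).
By multilinearity (all coefficients of the columns are `p`-integral) it suffices to treat a determinant whose `i`-th column is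
either a constant integral vector `v_i` or `v_i ∑_{k ≥ 1} Y^{k b_i}` with `v_i = C b_i`.  Its coefficient at `g` is
`det (v) * #{(k_i) : k_i ≥ 1, ∑ k_i b_i = g}`.  If `p ∣ det v` both sides are divisible by `p`.  Otherwise the `v_i` are linearly
independent modulo `p`, and `∑ k_i b_i = p g` gives `∑ k_i v_i = p C g ≡ 0`, so `p ∣ k_i`: the two numbers are equal.
-/

set_option autoImplicit false

namespace Pool.Agent.H27.KAC

open scoped BigOperators
open MvPowerSeries

section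

variable {I : Type} [Fintype I] [DecidableEq I]

open Classical in
/-- `∑_{k ≥ 1} Y^{k b}`. -/
private noncomputable def AD8a_G (b : I →₀ ℕ) : MvPowerSeries I ℚ :=
  fun β => if ∃ k : ℕ, 1 ≤ k ∧ β = k • b then 1 else 0

private theorem AD8a_tdeg_add (b c : I →₀ ℕ) : tdeg (b + c) = tdeg b + tdeg c := by
  simp [tdeg, Finset.sum_add_distrib]

private theorem AD8a_tdeg_eq_zero {b : I →₀ ℕ} (h : tdeg b = 0) : b = 0 := by
  ext i
  have := (Finset.sum_eq_zero_iff.1 (show ∑ i, b i = 0 from h)) i (Finset.mem_univ i)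
  simpa using this

private theorem AD8a_tdeg_zero : tdeg (0 : I →₀ ℕ) = 0 := by simp [tdeg]

/-- coefficients of `F` are those of `1` up to degree `N`. -/
private def AD8a_Low (N : ℕ) (F : MvPowerSeries I ℤ) : Prop :=
  ∀ β : I →₀ ℕ, tdeg β ≤ N → coeff β F = if β = 0 then 1 else 0

private theorem AD8a_mulL {N : ℕ} {F : MvPowerSeries I ℤ} (hF : AD8a_Low N F)
    (G : MvPowerSeries I ℤ) (β : I →₀ ℕ) (hβ : tdeg β ≤ N) : coeff β (F * G) = coeff β G := by
  rw [coeff_mul, Finset.sum_eq_single ((0 : I →₀ ℕ), β)]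
  · have := hF 0 (by rw [AD8a_tdeg_zero]; exact Nat.zero_le _)
    rw [this, if_pos rfl, one_mul]
  · intro p hp hne
    have hpq : p.1 + p.2 = β := Finset.HasAntidiagonal.mem_antidiagonal.1 hp
    have h1 : p.1 ≠ 0 := by
      intro h0
      apply hne
      rw [h0, zero_add] at hpq
      exact Prod.ext h0 hpq
    have h2 : tdeg p.1 ≤ N := by
      have := AD8a_tdeg_add p.1 p.2
      rw [hpq] at this
      omega
    rw [hF p.1 h2, if_neg h1, zero_mul]
  · intro h
    exact absurd (Finset.HasAntidiagonal.mem_antidiagonal.2 (zero_add β)) h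

private theorem AD8a_mulS {N : ℕ} {F G : MvPowerSeries I ℤ} (hF : AD8a_Low N F)
    (hG : AD8a_Low N G) (β : I →₀ ℕ) (hβ : tdeg β = N + 1) :
    coeff β (F * G) = coeff β F + coeff β G := by
  have hβ0 : β ≠ 0 := by
    intro h
    rw [h, AD8a_tdeg_zero] at hβ
    omega
  have hne : ((0 : I →₀ ℕ), β) ≠ (β, (0 : I →₀ ℕ)) := by
    intro h
    exact hβ0 (Prod.ext_iff.1 h).2
  have h0 : tdeg (0 : I →₀ ℕ) ≤ N := by rw [AD8a_tdeg_zero]; exact Nat.zero_le _
  rw [coeff_mul, Finset.sum_eq_add ((0 : I →₀ ℕ), β) (β, (0 : I →₀ ℕ)) hne]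
  · rw [hF 0 h0, hG 0 h0, if_pos rfl, one_mul, mul_one, add_comm]
  · intro p hp hne'
    have hpq : p.1 + p.2 = β := Finset.HasAntidiagonal.mem_antidiagonal.1 hp
    have h1 : p.1 ≠ 0 := by
      intro h0
      apply hne'.1
      rw [h0, zero_add] at hpq
      exact Prod.ext h0 hpq
    have h2 : p.2 ≠ 0 := by
      intro h0
      apply hne'.2
      rw [h0, add_zero] at hpq
      exact Prod.ext hpq h0
    have h3 : tdeg p.1 ≤ N := by
      have e := AD8a_tdeg_add p.1 p.2
      rw [hpq] at e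
      have : tdeg p.2 ≠ 0 := fun h => h2 (AD8a_tdeg_eq_zero h)
      omega
    rw [hF p.1 h3, if_neg h1, zero_mul]
  · intro h
    exact absurd (Finset.HasAntidiagonal.mem_antidiagonal.2 (zero_add β)) h
  · intro h
    exact absurd (Finset.HasAntidiagonal.mem_antidiagonal.2 (add_zero β)) h

private theorem AD8a_low_one (N : ℕ) : AD8a_Low N (1 : MvPowerSeries I ℤ) := by
  intro β _
  rw [coeff_one]

private theorem AD8a_low_mul {N : ℕ} {F G : MvPowerSeries I ℤ} (hF : AD8a_Low N F)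
    (hG : AD8a_Low N G) : AD8a_Low N (F * G) := by
  intro β hβ
  rw [AD8a_mulL hF G β hβ, hG β hβ]

private theorem AD8a_low_inv {N : ℕ} (u : (MvPowerSeries I ℤ)ˣ)
    (hu : AD8a_Low N (u : MvPowerSeries I ℤ)) :
    AD8a_Low N ((u⁻¹ : (MvPowerSeries I ℤ)ˣ) : MvPowerSeries I ℤ) := by
  intro β hβ
  rw [← AD8a_mulL hu _ β hβ, Units.mul_inv, coeff_one]

private theorem AD8a_coeff_inv {N : ℕ} (u : (MvPowerSeries I ℤ)ˣ)
    (hu : AD8a_Low N (u : MvPowerSeries I ℤ)) (β : I →₀ ℕ) (hβ : tdeg β = N + 1) :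
    coeff β ((u⁻¹ : (MvPowerSeries I ℤ)ˣ) : MvPowerSeries I ℤ) =
      - coeff β (u : MvPowerSeries I ℤ) := by
  have h := AD8a_mulS hu (AD8a_low_inv u hu) β hβ
  rw [Units.mul_inv, coeff_one, if_neg] at h
  · linarith
  · intro h0
    rw [h0, AD8a_tdeg_zero] at hβ
    omega

private theorem AD8a_pow {N : ℕ} (u : (MvPowerSeries I ℤ)ˣ)
    (hu : AD8a_Low N (u : MvPowerSeries I ℤ)) (n : ℕ) :
    AD8a_Low N ((u ^ n : (MvPowerSeries I ℤ)ˣ) : MvPowerSeries I ℤ) ∧
      ∀ β : I →₀ ℕ, tdeg β = N + 1 →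
        coeff β ((u ^ n : (MvPowerSeries I ℤ)ˣ) : MvPowerSeries I ℤ) =
          n * coeff β (u : MvPowerSeries I ℤ) := by
  induction n with
  | zero =>
    refine ⟨by rw [pow_zero, Units.val_one]; exact AD8a_low_one N, fun β hβ => ?_⟩
    rw [pow_zero, Units.val_one, coeff_one, if_neg]
    · simp
    · intro h0
      rw [h0, AD8a_tdeg_zero] at hβ
      omega
  | succ n ih =>
    rw [pow_succ, Units.val_mul]
    refine ⟨AD8a_low_mul ih.1 hu, fun β hβ => ?_⟩
    rw [AD8a_mulS ih.1 hu β hβ, ih.2 β hβ]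
    push_cast
    ring

private theorem AD8a_zpow {N : ℕ} (u : (MvPowerSeries I ℤ)ˣ)
    (hu : AD8a_Low N (u : MvPowerSeries I ℤ)) (n : ℤ) :
    AD8a_Low N ((u ^ n : (MvPowerSeries I ℤ)ˣ) : MvPowerSeries I ℤ) ∧
      ∀ β : I →₀ ℕ, tdeg β = N + 1 →
        coeff β ((u ^ n : (MvPowerSeries I ℤ)ˣ) : MvPowerSeries I ℤ) =
          n * coeff β (u : MvPowerSeries I ℤ) := by
  cases n with
  | ofNat n =>
    rw [Int.ofNat_eq_natCast, zpow_natCast]
    exact ⟨(AD8a_pow u hu n).1, fun β hβ => by exact_mod_cast (AD8a_pow u hu n).2 β hβ⟩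
  | negSucc n =>
    rw [zpow_negSucc]
    have h := AD8a_pow u hu (n + 1)
    refine ⟨AD8a_low_inv _ h.1, fun β hβ => ?_⟩
    rw [AD8a_coeff_inv _ h.1 β hβ, h.2 β hβ, Int.negSucc_eq]
    push_cast
    ring

private theorem AD8a_wunit (b : I →₀ ℕ) (hb : b ≠ 0) :
    IsUnit ((1 : MvPowerSeries I ℤ) - monomial b 1) := by
  rw [MvPowerSeries.isUnit_iff_constantCoeff]
  have : constantCoeff ((1 : MvPowerSeries I ℤ) - monomial b 1) = 1 := by
    rw [← coeff_zero_eq_constantCoeff_apply, map_sub, coeff_one, if_pos rfl, coeff_monomial,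
      if_neg (fun h => hb h.symm), sub_zero]
  rw [this]
  exact isUnit_one

open Classical in
/-- `1 - Y^b` as a unit. -/
private noncomputable def AD8a_w (b : I →₀ ℕ) : (MvPowerSeries I ℤ)ˣ :=
  if hb : b ≠ 0 then (AD8a_wunit b hb).unit else 1

private theorem AD8a_w_coe (b : I →₀ ℕ) (hb : b ≠ 0) :
    ((AD8a_w b : (MvPowerSeries I ℤ)ˣ) : MvPowerSeries I ℤ) = 1 - monomial b 1 := by
  unfold AD8a_w
  rw [dif_pos hb]
  rfl

private theorem AD8a_w_low {N : ℕ} (b : I →₀ ℕ) (hb : tdeg b = N + 1) :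
    AD8a_Low N ((AD8a_w b : (MvPowerSeries I ℤ)ˣ) : MvPowerSeries I ℤ) ∧
      ∀ β : I →₀ ℕ, tdeg β = N + 1 →
        coeff β ((AD8a_w b : (MvPowerSeries I ℤ)ˣ) : MvPowerSeries I ℤ) =
          if β = b then -1 else 0 := by
  have hb0 : b ≠ 0 := by
    intro h
    rw [h, AD8a_tdeg_zero] at hb
    omega
  rw [AD8a_w_coe b hb0]
  constructor
  · intro β hβ
    rw [map_sub, coeff_one, coeff_monomial, if_neg (c := β = b), sub_zero]
    intro h
    rw [h] at hβ
    omega
  · intro β hβ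
    rw [map_sub, coeff_one, coeff_monomial, if_neg (c := β = 0)]
    · split_ifs <;> simp
    · intro h
      rw [h, AD8a_tdeg_zero] at hβ
      omega

private theorem AD8a_prod {N : ℕ} (c : (I →₀ ℕ) → ℤ) (S : Finset (I →₀ ℕ))
    (hS : ∀ b ∈ S, tdeg b = N + 1) :
    AD8a_Low N ((∏ b ∈ S, AD8a_w b ^ c b : (MvPowerSeries I ℤ)ˣ) : MvPowerSeries I ℤ) ∧
      ∀ β : I →₀ ℕ, tdeg β = N + 1 →
        coeff β ((∏ b ∈ S, AD8a_w b ^ c b : (MvPowerSeries I ℤ)ˣ) : MvPowerSeries I ℤ) =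
          if β ∈ S then - c β else 0 := by
  classical
  induction S using Finset.induction_on with
  | empty =>
    refine ⟨by rw [Finset.prod_empty, Units.val_one]; exact AD8a_low_one N, fun β hβ => ?_⟩
    rw [Finset.prod_empty, Units.val_one, coeff_one, if_neg, if_neg (by simp)]
    intro h
    rw [h, AD8a_tdeg_zero] at hβ
    omega
  | insert b S hb ih =>
    have ih' := ih (fun x hx => hS x (Finset.mem_insert_of_mem hx))
    have hw := AD8a_w_low b (hS b (Finset.mem_insert_self b S))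
    have hz := AD8a_zpow (AD8a_w b) hw.1 (c b)
    rw [Finset.prod_insert hb, Units.val_mul]
    refine ⟨AD8a_low_mul hz.1 ih'.1, fun β hβ => ?_⟩
    rw [AD8a_mulS hz.1 ih'.1 β hβ, hz.2 β hβ, hw.2 β hβ, ih'.2 β hβ]
    by_cases h1 : β = b
    · subst h1
      rw [if_pos rfl, if_neg hb, if_pos (Finset.mem_insert_self _ _)]
      ring
    · rw [if_neg h1, mul_zero, zero_add]
      by_cases h2 : β ∈ S
      · rw [if_pos h2, if_pos (Finset.mem_insert_of_mem h2)]
      · rw [if_neg h2, if_neg]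
        intro h
        rcases Finset.mem_insert.1 h with h | h
        · exact h1 h
        · exact h2 h

/-- coefficient extension to `ℚ`. -/
private noncomputable def AD8a_m : (MvPowerSeries I ℤ)ˣ →* (MvPowerSeries I ℚ)ˣ :=
  Units.map ((MvPowerSeries.map (Int.castRingHom ℚ) : MvPowerSeries I ℤ →+* MvPowerSeries I ℚ) :
    MvPowerSeries I ℤ →* MvPowerSeries I ℚ)

private theorem AD8a_m_coe (u : (MvPowerSeries I ℤ)ˣ) :
    ((AD8a_m u : (MvPowerSeries I ℚ)ˣ) : MvPowerSeries I ℚ) =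
      MvPowerSeries.map (Int.castRingHom ℚ) (u : MvPowerSeries I ℤ) := rfl

private theorem AD8a_dlg_w (a : I → I → ℕ) (b : I →₀ ℕ) (hb : b ≠ 0) (l : I) :
    dlg a (AD8a_m (AD8a_w b)) l = C ((cw a b l : ℤ) : ℚ) * AD8a_G b := by
  classical
  have hW : ((AD8a_m (AD8a_w b) : (MvPowerSeries I ℚ)ˣ) : MvPowerSeries I ℚ) =
      1 - monomial b 1 := by
    rw [AD8a_m_coe, AD8a_w_coe b hb, map_sub, map_one, MvPowerSeries.map_monomial]
    simp
  have hmul : ((AD8a_m (AD8a_w b) : (MvPowerSeries I ℚ)ˣ) : MvPowerSeries I ℚ) * AD8a_G b =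
      monomial b 1 := by
    rw [hW, sub_mul, one_mul]
    ext β
    rw [map_sub, coeff_monomial_mul, coeff_monomial]
    have hG : ∀ γ : I →₀ ℕ, coeff γ (AD8a_G b) =
        if ∃ k : ℕ, 1 ≤ k ∧ γ = k • b then (1 : ℚ) else 0 := fun _ => rfl
    by_cases h1 : β = b
    · subst h1
      rw [if_pos rfl, if_pos le_rfl, tsub_self, hG, hG, if_pos ⟨1, le_rfl, (one_smul _ _).symm⟩,
        if_neg]
      · ring
      · rintro ⟨k, hk, h0⟩
        have hk0 : k ≠ 0 := by omega
        rcases smul_eq_zero.1 h0.symm with h | h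
        · exact hk0 h
        · exact hb h
    · rw [if_neg h1]
      by_cases h2 : ∃ k : ℕ, 1 ≤ k ∧ β = k • b
      · obtain ⟨k, hk, rfl⟩ := h2
        have hk2 : 2 ≤ k := by
          by_contra hlt
          have : k = 1 := by omega
          apply h1
          rw [this, one_smul]
        have hle : b ≤ k • b := by
          obtain ⟨j, rfl⟩ : ∃ j, k = j + 1 := ⟨k - 1, by omega⟩
          rw [add_smul, one_smul]
          exact le_add_self
        have hsub : k • b - b = (k - 1) • b := by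
          obtain ⟨j, rfl⟩ : ∃ j, k = j + 1 := ⟨k - 1, by omega⟩
          rw [add_smul, one_smul, add_tsub_cancel_right, Nat.add_sub_cancel]
        rw [if_pos hle, hsub, hG, hG, if_pos ⟨k, hk, rfl⟩, if_pos ⟨k - 1, by omega, rfl⟩]
        ring
      · rw [hG, if_neg h2]
        by_cases hle : b ≤ β
        · rw [if_pos hle, hG, if_neg]
          · ring
          · rintro ⟨k, hk, hkb⟩
            apply h2
            refine ⟨k + 1, by omega, ?_⟩
            rw [add_smul, one_smul, ← hkb, tsub_add_cancel_of_le hle]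
        · rw [if_neg hle]
          ring
  have hD : dD a l ((AD8a_m (AD8a_w b) : (MvPowerSeries I ℚ)ˣ) : MvPowerSeries I ℚ) =
      C ((cw a b l : ℤ) : ℚ) * monomial b 1 := by
    rw [hW, dD_sub, dD_one]
    ext β
    rw [map_sub, coeff_dD, coeff_C_mul, coeff_monomial]
    by_cases h : β = b
    · subst h
      rw [if_pos rfl]
      simp
    · rw [if_neg h]
      simp
  unfold dlg
  rw [hD, ← hmul]
  have hu := Units.mul_inv (AD8a_m (AD8a_w b))
  linear_combination (C ((cw a b l : ℤ) : ℚ) * AD8a_G b) * hu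

private theorem AD8a_dlg_low (a : I → I → ℕ) (v : (MvPowerSeries I ℤ)ˣ) (N : ℕ)
    (hv : AD8a_Low N (v : MvPowerSeries I ℤ)) (β : I →₀ ℕ) (l : I) (hβ : tdeg β ≤ N) :
    coeff β (dlg a (AD8a_m v) l) = 0 := by
  unfold dlg
  rw [coeff_mul]
  refine Finset.sum_eq_zero fun p hp => ?_
  have hpq : p.1 + p.2 = β := Finset.HasAntidiagonal.mem_antidiagonal.1 hp
  have h2 : tdeg p.1 ≤ N := by
    have := AD8a_tdeg_add p.1 p.2
    rw [hpq] at this
    omega
  rw [coeff_dD, AD8a_m_coe, coeff_map, hv p.1 h2]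
  by_cases h0 : p.1 = 0
  · rw [h0, cw_zero]
    simp
  · rw [if_neg h0]
    simp

private theorem AD8a_main (a : I → I → ℕ) (u : (MvPowerSeries I ℤ)ˣ)
    (hc : coeff 0 (u : MvPowerSeries I ℤ) = 1) (N : ℕ) :
    ∃ (v : (MvPowerSeries I ℤ)ˣ) (B : Finset (I →₀ ℕ)) (c : (I →₀ ℕ) → ℤ), (∀ b ∈ B, b ≠ 0) ∧
      AD8a_Low N (v : MvPowerSeries I ℤ) ∧
      ∀ l : I, dlg a (AD8a_m u) l = dlg a (AD8a_m v) l +
        ∑ b ∈ B, (c b : MvPowerSeries I ℚ) * dlg a (AD8a_m (AD8a_w b)) l := by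
  classical
  induction N with
  | zero =>
    refine ⟨u, ∅, fun _ => 0, by simp, ?_, by simp⟩
    intro β hβ
    have h0 : β = 0 := AD8a_tdeg_eq_zero (by omega)
    subst h0
    rw [hc, if_pos rfl]
  | succ N ih =>
    obtain ⟨v, B, c, hB, hv, hd⟩ := ih
    set S : Finset (I →₀ ℕ) := Finset.finsuppAntidiag Finset.univ (N + 1) with hS
    have hmem : ∀ b : I →₀ ℕ, b ∈ S ↔ tdeg b = N + 1 := by
      intro b
      rw [hS, Finset.mem_finsuppAntidiag]
      constructor
      · intro h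
        exact h.1
      · intro h
        exact ⟨h, Finset.subset_univ _⟩
    have hSt : ∀ b ∈ S, tdeg b = N + 1 := fun b hb => (hmem b).1 hb
    have hP := AD8a_prod (fun b => coeff b (v : MvPowerSeries I ℤ)) S hSt
    refine ⟨v * ∏ b ∈ S, AD8a_w b ^ (coeff b (v : MvPowerSeries I ℤ)), B ∪ S,
      fun b => (if b ∈ B then c b else 0) -
        (if b ∈ S then coeff b (v : MvPowerSeries I ℤ) else 0), ?_, ?_, ?_⟩
    · intro b hb
      rcases Finset.mem_union.1 hb with h | h
      · exact hB b h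
      · intro h0
        have := hSt b h
        rw [h0, AD8a_tdeg_zero] at this
        omega
    · intro β hβ
      rw [Units.val_mul]
      rcases Nat.lt_or_ge (tdeg β) (N + 1) with h | h
      · exact AD8a_low_mul hv hP.1 β (by omega)
      · have hβ' : tdeg β = N + 1 := by omega
        rw [AD8a_mulS hv hP.1 β hβ', hP.2 β hβ', if_pos ((hmem β).2 hβ'), if_neg]
        · ring
        · intro h0
          rw [h0, AD8a_tdeg_zero] at hβ'
          omega
    · intro l
      have h1 : dlg a (AD8a_m (v * ∏ b ∈ S, AD8a_w b ^ (coeff b (v : MvPowerSeries I ℤ)))) l =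
          dlg a (AD8a_m v) l + ∑ b ∈ S, ((coeff b (v : MvPowerSeries I ℤ) : ℤ) :
            MvPowerSeries I ℚ) * dlg a (AD8a_m (AD8a_w b)) l := by
        rw [map_mul, dlg_mul, map_prod, dlg_prod]
        congr 1
        refine Finset.sum_congr rfl fun b _ => ?_
        rw [map_zpow, dlg_zpow]
      have h2 : ∑ b ∈ B ∪ S, (((if b ∈ B then c b else 0) -
          (if b ∈ S then coeff b (v : MvPowerSeries I ℤ) else 0) : ℤ) : MvPowerSeries I ℚ) *
            dlg a (AD8a_m (AD8a_w b)) l =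
          ∑ b ∈ B, (c b : MvPowerSeries I ℚ) * dlg a (AD8a_m (AD8a_w b)) l -
          ∑ b ∈ S, ((coeff b (v : MvPowerSeries I ℤ) : ℤ) :
            MvPowerSeries I ℚ) * dlg a (AD8a_m (AD8a_w b)) l := by
        have e : ∀ b ∈ B ∪ S, (((if b ∈ B then c b else 0) -
          (if b ∈ S then coeff b (v : MvPowerSeries I ℤ) else 0) : ℤ) : MvPowerSeries I ℚ) *
            dlg a (AD8a_m (AD8a_w b)) l =
            (if b ∈ B then (c b : MvPowerSeries I ℚ) * dlg a (AD8a_m (AD8a_w b)) l else 0) -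
            (if b ∈ S then ((coeff b (v : MvPowerSeries I ℤ) : ℤ) :
            MvPowerSeries I ℚ) * dlg a (AD8a_m (AD8a_w b)) l else 0) := by
          intro b _
          by_cases hb1 : b ∈ B <;> by_cases hb2 : b ∈ S <;> simp [hb1, hb2, sub_mul]
        rw [Finset.sum_congr rfl e, Finset.sum_sub_distrib, Finset.sum_ite_mem,
          Finset.sum_ite_mem, Finset.union_inter_cancel_left, Finset.union_inter_cancel_right]
      rw [h1, h2, hd l]
      ring

open Classical in
/-- truncated Euler product, logarithmic derivative version: for every bound `N` there are integers `c_b`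
(`0 < tdeg b ≤ N`) with `D_l u / u = ∑ c_b (C b)_l ∑_k Y^{k b}` up to degree `N`. -/
theorem dlg_euler (a : I → I → ℕ) (u : (MvPowerSeries I ℚ)ˣ)
    (hc : constantCoeff (u : MvPowerSeries I ℚ) = 1)
    (hu : ∀ β : I →₀ ℕ, ∃ n : ℤ, coeff β (u : MvPowerSeries I ℚ) = n) (N : ℕ) :
    ∃ (B : Finset (I →₀ ℕ)) (c : (I →₀ ℕ) → ℤ), (∀ b ∈ B, b ≠ 0) ∧
      ∀ (β : I →₀ ℕ) (l : I), tdeg β ≤ N →
        coeff β (dlg a u l) = ∑ b ∈ B, (c b : ℚ) * (cw a b l : ℚ) *
          (if ∃ k : ℕ, 1 ≤ k ∧ β = k • b then 1 else 0) := by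
  choose n hn using hu
  let z : MvPowerSeries I ℤ := fun β => n β
  have hz : ∀ β, coeff β z = n β := fun _ => rfl
  have hmap : MvPowerSeries.map (Int.castRingHom ℚ) z = (u : MvPowerSeries I ℚ) := by
    ext β
    rw [coeff_map, hz, hn]
    rfl
  have hz0 : coeff 0 z = 1 := by
    rw [hz]
    have h1 : ((n 0 : ℤ) : ℚ) = 1 := by
      rw [← hn 0, coeff_zero_eq_constantCoeff_apply, hc]
    exact_mod_cast h1
  have hzu : IsUnit z := by
    rw [MvPowerSeries.isUnit_iff_constantCoeff, ← coeff_zero_eq_constantCoeff_apply, hz0]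
    exact isUnit_one
  have hu' : u = AD8a_m hzu.unit := by
    apply Units.ext
    rw [AD8a_m_coe, IsUnit.unit_spec, hmap]
  obtain ⟨v, B, c, hB, hv, hd⟩ := AD8a_main a hzu.unit hz0 N
  refine ⟨B, c, hB, fun β l hβ => ?_⟩
  rw [hu', hd l, map_add, AD8a_dlg_low a v N hv β l hβ, zero_add, map_sum]
  refine Finset.sum_congr rfl fun b hb => ?_
  rw [AD8a_dlg_w a b (hB b hb) l]
  have hcC : ((c b : ℤ) : MvPowerSeries I ℚ) = C ((c b : ℤ) : ℚ) := by
    rw [map_intCast]
  rw [hcC, coeff_C_mul, coeff_C_mul, mul_assoc]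
  rfl

end

end Pool.Agent.H27.KAC
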