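import Pool.Agent.H41.KA.AD7
import Pool.Agent.H41.KA.AD8a

/-!
KAC ADE, module AD8: the Cartier property of determinants of logarithmic derivatives.

Proof.  Fix the degree bound `N = p * tdeg g`.  Every power series `u` with integral coefficients and constant coefficient
one is a finite product `∏_{0 < |b| ≤ N} (1 - Y^b)^{c_b}` (`c_b ∈ ℤ`) modulo terms of degree `> N` (induction on the degree), hence
`dlg a u l = ∑_b c_b (C b)_l ∑_{k ≥ 1} Y^{k b}` modulo degree `> N`   (`D_l Y^b = -(Cb)_l Y^b`, file KQDer: `coeff_dD`).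
By multilinearity (all coefficients of the columns are `p`-integral) it suffices to treat a determinant whose `i`-th column is
either a constant integral vector `v_i` or `v_i ∑_{k ≥ 1} Y^{k b_i}` with `v_i = C b_i`.  Its coefficient at `g` is
`det (v) * #{(k_i) : k_i ≥ 1, ∑ k_i b_i = g}`.  If `p ∣ det v` both sides are divisible by `p`.  Otherwise the `v_i` are linearly
independent modulo `p`, and `∑ k_i b_i = p g` gives `∑ k_i v_i = p C g ≡ 0`, so `p ∣ k_i`: the two numbers are equal.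
-/

set_option autoImplicit false

namespace Pool.Agent.H27.KAC

open scoped BigOperators
open MvPowerSeries

section

variable {I : Type} [Fintype I] [DecidableEq I]

private theorem AD8_tdeg_le {β : I →₀ ℕ} {x : I →₀ (I →₀ ℕ)}
    (hx : x ∈ Finset.finsuppAntidiag Finset.univ β) (j : I) : tdeg (x j) ≤ tdeg β := by
  rw [Finset.mem_finsuppAntidiag] at hx
  unfold tdeg
  refine Finset.sum_le_sum fun l _ => ?_
  have h1 : (∑ i, x i) l = β l := by rw [hx.1]
  rw [← h1, Finsupp.finsetSum_apply]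
  exact Finset.single_le_sum (f := fun i => (x i) l) (fun _ _ => Nat.zero_le _)
    (Finset.mem_univ j)

private theorem AD8_det_congr {N : ℕ} (A A' : Matrix I I (MvPowerSeries I ℚ))
    (h : ∀ i j (β : I →₀ ℕ), tdeg β ≤ N → coeff β (A i j) = coeff β (A' i j)) (β : I →₀ ℕ)
    (hβ : tdeg β ≤ N) : coeff β A.det = coeff β A'.det := by
  rw [Matrix.det_apply, Matrix.det_apply, map_sum, map_sum]
  refine Finset.sum_congr rfl fun σ _ => ?_
  rw [Units.smul_def, Units.smul_def, map_zsmul, map_zsmul, coeff_prod, coeff_prod]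
  congr 1
  refine Finset.sum_congr rfl fun x hx => Finset.prod_congr rfl fun i _ => ?_
  exact h _ _ _ ((AD8_tdeg_le hx i).trans hβ)

private theorem AD8_cw_sum (a : I → I → ℕ) {ι : Type} (s : Finset ι) (y : ι → (I →₀ ℕ)) (l : I) :
    cw a (∑ j ∈ s, y j) l = ∑ j ∈ s, cw a (y j) l := by
  classical
  induction s using Finset.induction_on with
  | empty => rw [Finset.sum_empty, Finset.sum_empty, cw_zero]
  | insert j s hj ih => rw [Finset.sum_insert hj, Finset.sum_insert hj, cw_add, ih]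

private theorem AD8_cw_nsmul (a : I → I → ℕ) (k : ℕ) (b : I →₀ ℕ) (l : I) :
    cw a (k • b) l = (k : ℤ) * cw a b l := by
  induction k with
  | zero => simp [cw_zero]
  | succ k ih =>
    rw [add_smul, one_smul, cw_add, ih]
    push_cast
    ring

private theorem AD8_smul_inj {p : ℕ} (hp : p.Prime) {x y : I →₀ ℕ} (h : p • x = p • y) : x = y := by
  ext i
  have h1 := DFunLike.congr_fun h i
  simp only [Finsupp.smul_apply, smul_eq_mul] at h1
  exact Nat.eq_of_mul_eq_mul_left hp.pos h1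

open Classical in
private theorem AD8_count {p : ℕ} (hp : p.Prime) (a : I → I → ℕ) (Z : I → (I →₀ ℕ) → Prop)
    (V : Matrix I I ℤ) (κ : I → (I →₀ ℕ) → ℤ)
    (h1 : ∀ j x, Z j x → ∀ l, cw a x l = κ j x * V j l)
    (h2 : ∀ j x, Z j x → (p : ℤ) ∣ κ j x → ∃ x', Z j x' ∧ x = p • x')
    (h3 : ∀ j x, Z j x → Z j (p • x)) (h4 : ¬ (p : ℤ) ∣ V.det) (g : I →₀ ℕ) :
    ((Finset.finsuppAntidiag Finset.univ (p • g)).filter (fun x => ∀ j, Z j (x j))).card =
      ((Finset.finsuppAntidiag Finset.univ g).filter (fun x => ∀ j, Z j (x j))).card := by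
  symm
  refine Finset.card_bij (fun x _ => p • x) ?_ ?_ ?_
  · intro x hx
    rw [Finset.mem_filter, Finset.mem_finsuppAntidiag] at hx ⊢
    refine ⟨⟨?_, Finset.subset_univ _⟩, fun j => h3 j _ (hx.2 j)⟩
    rw [← hx.1.1]
    simp only [Finsupp.smul_apply]
    rw [← Finset.smul_sum]
  · intro x _ y _ hxy
    refine Finsupp.ext fun j => ?_
    exact AD8_smul_inj hp (DFunLike.congr_fun hxy j)
  · intro y hy
    rw [Finset.mem_filter, Finset.mem_finsuppAntidiag] at hy
    have hk : Matrix.vecMul (fun j => κ j (y j)) V = fun l => (p : ℤ) * cw a g l := by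
      funext l
      have e1 : cw a (p • g) l = ∑ j, κ j (y j) * V j l := by
        rw [← hy.1.1, AD8_cw_sum]
        exact Finset.sum_congr rfl fun j _ => h1 j _ (hy.2 j) l
      rw [← AD8_cw_nsmul, e1]
      rfl
    have hd : ∀ j, (p : ℤ) ∣ κ j (y j) := by
      intro j
      have e2 := congrArg (fun w => Matrix.vecMul w V.adjugate) hk
      simp only [Matrix.vecMul_vecMul, Matrix.mul_adjugate] at e2
      have e3 := congrFun e2 j
      rw [Matrix.vecMul_smul, Matrix.vecMul_one, Pi.smul_apply, smul_eq_mul] at e3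
      have e4 : (p : ℤ) ∣ V.det * κ j (y j) := by
        rw [e3]
        refine ⟨∑ l, cw a g l * V.adjugate l j, ?_⟩
        rw [Finset.mul_sum]
        change ∑ l, (p : ℤ) * cw a g l * V.adjugate l j = _
        exact Finset.sum_congr rfl fun l _ => by ring
      rcases (Nat.prime_iff_prime_int.1 hp).dvd_or_dvd e4 with e5 | e5
      · exact absurd e5 h4
      · exact e5
    choose x' hx' hx using fun j => h2 j (y j) (hy.2 j) (hd j)
    refine ⟨Finsupp.equivFunOnFinite.symm x', ?_, ?_⟩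
    · rw [Finset.mem_filter, Finset.mem_finsuppAntidiag]
      refine ⟨⟨?_, Finset.subset_univ _⟩, fun j => ?_⟩
      · apply AD8_smul_inj hp
        rw [← hy.1.1, Finset.smul_sum]
        refine Finset.sum_congr rfl fun j _ => ?_
        rw [hx j]
        rfl
      · exact hx' j
    · refine Finsupp.ext fun j => ?_
      rw [hx j]
      rfl

private theorem AD8_PI_prod {p : ℕ} (hp : p.Prime) {ι : Type} (s : Finset ι) (f : ι → ℚ)
    (h : ∀ i ∈ s, PI p (f i)) : PI p (∏ i ∈ s, f i) := by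
  classical
  induction s using Finset.induction_on with
  | empty =>
    rw [Finset.prod_empty]
    exact_mod_cast PI_int hp 1
  | insert a s ha ih =>
    rw [Finset.prod_insert ha]
    exact PI_mul hp (h a (Finset.mem_insert_self a s))
      (ih fun b hb => h b (Finset.mem_insert_of_mem hb))

open Classical in
/-- expansion of the determinant and comparison -/
private theorem AD8_main {p : ℕ} (hp : p.Prime) (a : I → I → ℕ) (g : I →₀ ℕ) {T : Type} [Fintype T]
    (m : I → T → ℚ) (hm : ∀ j t, PI p (m j t)) (V : T → I → ℤ) (Z : T → (I →₀ ℕ) → Prop)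
    (κ : T → (I →₀ ℕ) → ℤ) (Φ : T → MvPowerSeries I ℚ)
    (hΦ : ∀ t β, coeff β (Φ t) = if Z t β then 1 else 0)
    (h1 : ∀ t x, Z t x → ∀ l, cw a x l = κ t x * V t l)
    (h2 : ∀ t x, Z t x → (p : ℤ) ∣ κ t x → ∃ x', Z t x' ∧ x = p • x')
    (h3 : ∀ t x, Z t x → Z t (p • x))
    (M : Matrix I I (MvPowerSeries I ℚ))
    (hM : ∀ l j (β : I →₀ ℕ), tdeg β ≤ p * tdeg g →
      coeff β (M l j) = ∑ t, m j t * ((V t l : ℤ) : ℚ) * (if Z t β then 1 else 0)) :
    PD p (coeff (p • g) M.det - coeff g M.det) := by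
  -- the model matrix
  let R : I → I → MvPowerSeries I ℚ := fun j => ∑ t, fun l => C (m j t) * Φ t * C ((V t l : ℤ) : ℚ)
  have hR : ∀ j l, R j l = ∑ t, C (m j t) * Φ t * C ((V t l : ℤ) : ℚ) := by
    intro j l
    simp only [R, Finset.sum_apply]
  have hMR : ∀ β : I →₀ ℕ, tdeg β ≤ p * tdeg g → coeff β M.det = coeff β (Matrix.of R).det := by
    intro β hβ
    rw [← Matrix.det_transpose (Matrix.of R)]
    refine AD8_det_congr _ _ (fun l j β hβ => ?_) β hβ
    rw [hM l j β hβ, Matrix.transpose_apply, Matrix.of_apply, hR, map_sum]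
    refine Finset.sum_congr rfl fun t _ => ?_
    rw [mul_comm _ (C ((V t l : ℤ) : ℚ)), coeff_C_mul, coeff_C_mul, hΦ]
    ring
  have hexp : (Matrix.of R).det = ∑ τ : I → T, C ((∏ j, m j (τ j)) *
      (((Matrix.of fun j l => V (τ j) l : Matrix I I ℤ).det : ℤ) : ℚ)) * ∏ j, Φ (τ j) := by
    have e1 : (Matrix.of R).det = ∑ τ : I → T,
        (Matrix.of fun j l => (C (m j (τ j)) * Φ (τ j)) * C ((V (τ j) l : ℤ) : ℚ) :
          Matrix I I (MvPowerSeries I ℚ)).det :=
      (Matrix.detRowAlternating (n := I) (R := MvPowerSeries I ℚ)).toMultilinearMap.map_sum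
        (fun j (t : T) => fun l => C (m j t) * Φ t * C ((V t l : ℤ) : ℚ))
    rw [e1]
    refine Finset.sum_congr rfl fun τ _ => ?_
    rw [Matrix.det_mul_column (fun j => C (m j (τ j)) * Φ (τ j))
      (fun j l => C ((V (τ j) l : ℤ) : ℚ))]
    have e2 : Matrix.det (fun j l => (C ((V (τ j) l : ℤ) : ℚ) : MvPowerSeries I ℚ)) =
        C (((Matrix.of fun j l => V (τ j) l : Matrix I I ℤ).det : ℤ) : ℚ) := by
      have e3 := RingHom.map_det ((C : ℚ →+* MvPowerSeries I ℚ).comp (Int.castRingHom ℚ))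
        (Matrix.of fun j l => V (τ j) l : Matrix I I ℤ)
      have e4 : ((C : ℚ →+* MvPowerSeries I ℚ).comp (Int.castRingHom ℚ)).mapMatrix
          (Matrix.of fun j l => V (τ j) l : Matrix I I ℤ) =
          fun j l => (C ((V (τ j) l : ℤ) : ℚ) : MvPowerSeries I ℚ) := by
        ext1 j l
        rfl
      rw [e4] at e3
      rw [← e3]
      rfl
    rw [e2, Finset.prod_mul_distrib, map_mul, map_prod]
    ring
  have hcount : ∀ (τ : I → T) (β : I →₀ ℕ), coeff β (∏ j, Φ (τ j)) =
      ((((Finset.finsuppAntidiag Finset.univ β).filter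
        (fun x => ∀ j, Z (τ j) (x j))).card : ℕ) : ℚ) := by
    intro τ β
    rw [coeff_prod]
    have e1 : ∀ x : I →₀ (I →₀ ℕ), ∏ j, coeff (x j) (Φ (τ j)) =
        if ∀ j, Z (τ j) (x j) then (1 : ℚ) else 0 := by
      intro x
      rw [Finset.prod_congr rfl fun j _ => hΦ (τ j) (x j), Finset.prod_boole]
      simp only [Finset.mem_univ, true_implies]
    rw [Finset.sum_congr rfl fun x _ => e1 x, Finset.sum_boole]
  have hg : tdeg g ≤ p * tdeg g := Nat.le_mul_of_pos_left _ hp.pos
  have hpg : tdeg (p • g) ≤ p * tdeg g := by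
    unfold tdeg
    simp only [Finsupp.smul_apply, smul_eq_mul]
    rw [← Finset.mul_sum]
  rw [hMR _ hpg, hMR _ hg, hexp, map_sum, map_sum, ← Finset.sum_sub_distrib]
  refine PD_sum hp _ _ fun τ _ => ?_
  rw [coeff_C_mul, coeff_C_mul, ← mul_sub, hcount, hcount]
  set D : ℤ := (Matrix.of fun j l => V (τ j) l : Matrix I I ℤ).det with hD
  set n1 : ℕ := ((Finset.finsuppAntidiag Finset.univ (p • g)).filter
    (fun x => ∀ j, Z (τ j) (x j))).card with hn1
  set n2 : ℕ := ((Finset.finsuppAntidiag Finset.univ g).filter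
    (fun x => ∀ j, Z (τ j) (x j))).card with hn2
  have hdvd : (p : ℤ) ∣ D * ((n1 : ℤ) - (n2 : ℤ)) := by
    by_cases hDp : (p : ℤ) ∣ D
    · exact Dvd.dvd.mul_right hDp _
    · have e1 : n1 = n2 := AD8_count hp a (fun j => Z (τ j))
        (Matrix.of fun j l => V (τ j) l : Matrix I I ℤ) (fun j => κ (τ j))
        (fun j x hx l => h1 (τ j) x hx l) (fun j x hx h => h2 (τ j) x hx h)
        (fun j x hx => h3 (τ j) x hx) hDp g
      rw [e1, sub_self, mul_zero]
      exact dvd_zero _
  obtain ⟨c, hc⟩ := hdvd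
  refine ⟨(∏ j, m j (τ j)) * (c : ℚ), PI_mul hp (AD8_PI_prod hp _ _ fun j _ => hm j _)
    (PI_int hp c), ?_⟩
  have hc' : (D : ℚ) * ((n1 : ℚ) - (n2 : ℚ)) = (p : ℚ) * (c : ℚ) := by exact_mod_cast hc
  linear_combination (∏ j, m j (τ j)) * hc'

theorem det_cartier {p : ℕ} (hp : p.Prime) (a : I → I → ℕ) (hs : ∀ i j, a i j = a j i)
    (Λ : I → QE I) (hΛ : ∀ j ik, PI p (Λ j ik)) (g : I →₀ ℕ) :
    PD p (coeff (p • g) (colMat (fun i => dl a (Λ i))).det -
      coeff g (colMat (fun i => dl a (Λ i))).det) := by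
  classical
  have hE := fun ik : I × ℕ => dlg_euler a (uu a ik.1 ik.2)
    (by rw [uu_coe]; exact uS_const a ik.1 ik.2) (fun β => by rw [uu_coe]; exact uS_int a _ _ β)
    (p * tdeg g)
  choose Bf cf hB0 hBe using hE
  let S : Finset (I × ℕ) := Finset.univ.biUnion fun j => (Λ j).support
  let B : Finset (I →₀ ℕ) := S.biUnion Bf
  let m : I → (I ⊕ {b // b ∈ B}) → ℚ := fun j t => match t with
    | Sum.inl i0 => ∑ ik ∈ (Λ j).support, if ik.1 = i0 then Λ j ik * (ik.2 : ℚ) else 0
    | Sum.inr b => ∑ ik ∈ (Λ j).support, if b.1 ∈ Bf ik then Λ j ik * (cf ik b.1 : ℚ) else 0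
  let V : (I ⊕ {b // b ∈ B}) → I → ℤ := fun t l => match t with
    | Sum.inl i0 => if i0 = l then 1 else 0
    | Sum.inr b => cw a b.1 l
  let Z : (I ⊕ {b // b ∈ B}) → (I →₀ ℕ) → Prop := fun t x => match t with
    | Sum.inl _ => x = 0
    | Sum.inr b => ∃ k : ℕ, 1 ≤ k ∧ x = k • b.1
  let κ : (I ⊕ {b // b ∈ B}) → (I →₀ ℕ) → ℤ := fun t x => match t with
    | Sum.inl _ => 0
    | Sum.inr b => if h : ∃ k : ℕ, 1 ≤ k ∧ x = k • b.1 then ((Classical.choose h : ℕ) : ℤ) else 0
  let Φ : (I ⊕ {b // b ∈ B}) → MvPowerSeries I ℚ := fun t β => if Z t β then 1 else 0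
  refine AD8_main hp a g m ?_ V Z κ Φ (fun t β => rfl) ?_ ?_ ?_ _ ?_
  · intro j t
    rcases t with i0 | b
    · refine PI_sum hp _ _ fun ik _ => ?_
      split_ifs
      · exact PI_mul hp (hΛ j ik) (by exact_mod_cast PI_int hp (ik.2 : ℤ))
      · exact_mod_cast PI_int hp 0
    · refine PI_sum hp _ _ fun ik _ => ?_
      split_ifs
      · exact PI_mul hp (hΛ j ik) (PI_int hp _)
      · exact_mod_cast PI_int hp 0
  · intro t x hx l
    rcases t with i0 | b
    · have hx0 : x = 0 := hx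
      rw [hx0, cw_zero]
      exact (zero_mul _).symm
    · have hx0 : ∃ k : ℕ, 1 ≤ k ∧ x = k • b.1 := hx
      have e1 : κ (Sum.inr b) x = ((Classical.choose hx0 : ℕ) : ℤ) := dif_pos hx0
      rw [e1]
      have e2 := (Classical.choose_spec hx0).2
      have e3 := AD8_cw_nsmul a (Classical.choose hx0) b.1 l
      rw [← e2] at e3
      exact e3
  · intro t x hx hd
    rcases t with i0 | b
    · have hx0 : x = 0 := hx
      exact ⟨0, rfl, by rw [hx0, smul_zero]⟩
    · have hx0 : ∃ k : ℕ, 1 ≤ k ∧ x = k • b.1 := hx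
      have e1 : κ (Sum.inr b) x = ((Classical.choose hx0 : ℕ) : ℤ) := dif_pos hx0
      rw [e1] at hd
      obtain ⟨e2, e3⟩ := Classical.choose_spec hx0
      obtain ⟨k', hk'⟩ := Int.natCast_dvd_natCast.1 hd
      refine ⟨k' • b.1, ⟨k', ?_, rfl⟩, ?_⟩
      · rcases Nat.eq_zero_or_pos k' with h0 | h0
        · rw [h0, mul_zero] at hk'
          rw [hk'] at e2
          exact absurd e2 (by norm_num)
        · exact h0
      · rw [← mul_smul, ← hk']
        exact e3
  · intro t x hx
    rcases t with i0 | b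
    · have hx0 : x = 0 := hx
      change p • x = 0
      rw [hx0, smul_zero]
    · obtain ⟨k, hk1, hk2⟩ : ∃ k : ℕ, 1 ≤ k ∧ x = k • b.1 := hx
      exact ⟨p * k, Nat.mul_pos hp.pos hk1, by rw [hk2, mul_smul]⟩
  · intro l j β hβ
    have e0 : (colMat (fun i => dl a (Λ i))) l j = ∑ ik ∈ (Λ j).support,
        C (Λ j ik) * xv a ik.1 ik.2 l := rfl
    rw [e0, map_sum, Fintype.sum_sum_type]
    have e1 : ∀ ik ∈ (Λ j).support, coeff β (C (Λ j ik) * xv a ik.1 ik.2 l) =
        (if ik.1 = l then Λ j ik * (ik.2 : ℚ) else 0) * (if β = 0 then 1 else 0) +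
        ∑ b ∈ Bf ik, Λ j ik * (cf ik b : ℚ) * (cw a b l : ℚ) *
          (if ∃ k : ℕ, 1 ≤ k ∧ β = k • b then 1 else 0) := by
      intro ik _
      rw [coeff_C_mul]
      unfold xv
      rw [map_add, hBe ik β l hβ, mul_add, Finset.mul_sum]
      congr 1
      · by_cases h : ik.1 = l
        · rw [if_pos h, if_pos h]
          have e2 : ((ik.2 : ℕ) : MvPowerSeries I ℚ) = C (ik.2 : ℚ) := by
            rw [map_natCast]
          rw [e2, coeff_C]
          split_ifs <;> ring
        · rw [if_neg h, if_neg h, map_zero, mul_zero, zero_mul]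
      · refine Finset.sum_congr rfl fun b _ => ?_
        ring
    rw [Finset.sum_congr rfl e1, Finset.sum_add_distrib]
    congr 1
    · -- constants
      have e2 : ∀ i0 : I, m j (Sum.inl i0) * ((V (Sum.inl i0) l : ℤ) : ℚ) *
          (if Z (Sum.inl i0) β then 1 else 0) = if i0 = l then
          (∑ ik ∈ (Λ j).support, if ik.1 = i0 then Λ j ik * (ik.2 : ℚ) else 0) *
            (if β = 0 then 1 else 0) else 0 := by
        intro i0
        by_cases h : i0 = l
        · rw [if_pos h]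
          have e3 : V (Sum.inl i0) l = 1 := if_pos h
          rw [e3, Int.cast_one, mul_one]
        · rw [if_neg h]
          have e3 : V (Sum.inl i0) l = 0 := if_neg h
          rw [e3, Int.cast_zero, mul_zero, zero_mul]
      symm
      calc _ = ∑ i0 : I, if i0 = l then
            (∑ ik ∈ (Λ j).support, if ik.1 = i0 then Λ j ik * (ik.2 : ℚ) else 0) *
              (if β = 0 then 1 else 0) else 0 := by
            refine Finset.sum_congr rfl fun i0 _ => ?_
            convert e2 i0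
        _ = _ := by
            rw [Finset.sum_ite_eq' Finset.univ l, if_pos (Finset.mem_univ l), Finset.sum_mul]
    · have e2 : ∀ ik ∈ (Λ j).support, ∑ b ∈ Bf ik, Λ j ik * (cf ik b : ℚ) * (cw a b l : ℚ) *
          (if ∃ k : ℕ, 1 ≤ k ∧ β = k • b then 1 else 0) =
          ∑ b ∈ B, if b ∈ Bf ik then Λ j ik * (cf ik b : ℚ) * (cw a b l : ℚ) *
            (if ∃ k : ℕ, 1 ≤ k ∧ β = k • b then 1 else 0) else 0 := by
        intro ik hik
        rw [← Finset.sum_filter]
        refine Finset.sum_congr ?_ fun _ _ => rfl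
        ext b
        rw [Finset.mem_filter]
        refine ⟨fun h => ⟨?_, h⟩, fun h => h.2⟩
        refine Finset.mem_biUnion.2 ⟨ik, ?_, h⟩
        exact Finset.mem_biUnion.2 ⟨j, Finset.mem_univ j, hik⟩
      rw [Finset.sum_congr rfl e2, Finset.sum_comm, ← Finset.sum_coe_sort B]
      refine Finset.sum_congr rfl fun b _ => ?_
      change _ = (∑ ik ∈ (Λ j).support, if b.1 ∈ Bf ik then Λ j ik * (cf ik b.1 : ℚ) else 0) *
        ((cw a b.1 l : ℤ) : ℚ) * (if ∃ k : ℕ, 1 ≤ k ∧ β = k • b.1 then 1 else 0)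
      rw [Finset.sum_mul, Finset.sum_mul]
      refine Finset.sum_congr rfl fun ik _ => ?_
      by_cases h : b.1 ∈ Bf ik
      · rw [if_pos h, if_pos h]
      · rw [if_neg h, if_neg h, zero_mul, zero_mul]

end

end Pool.Agent.H27.KAC
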