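import Pool.Agent.H41.KA.AD0

/-!
KAC, ADE clusters: finite type sets of vertices, chip firing, regular terms (definitions).
-/

set_option autoImplicit false

namespace Pool.Agent.H27.KAC

open scoped BigOperators

/-- `q` is an integer. -/
def IsZ (q : ℚ) : Prop := ∃ n : ℤ, q = n

/-- `q` is a natural number. -/
def IsN (q : ℚ) : Prop := ∃ n : ℕ, q = n

section

variable {I : Type} [Fintype I] [DecidableEq I]

/-- `(C v|_N)_i`. -/
def cqN (a : I → I → ℕ) (N : Finset I) (v : I → ℚ) (i : I) : ℚ := ∑ j ∈ N, (cart a i j : ℚ) * v j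

/-- `N` is a set of loop-free vertices with positive definite Cartan matrix. -/
structure FinT (a : I → I → ℕ) (N : Finset I) : Prop where
  loopfree : ∀ x ∈ N, a x x = 0
  pos : ∀ v : I → ℚ, (∃ i ∈ N, v i ≠ 0) → 0 < ∑ i ∈ N, v i * cqN a N v i

/-- `N` is (nonempty and) connected. -/
def ConnS (a : I → I → ℕ) (N : Finset I) : Prop :=
  N.Nonempty ∧ ∀ S ⊆ N, S.Nonempty → S ≠ N → ∃ i ∈ S, ∃ j ∈ N, j ∉ S ∧ 0 < a i j

/-- the solution of `C_N v = b` with support in `N` (zero if there is none). -/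
noncomputable def solN (a : I → I → ℕ) (N : Finset I) (b : I → ℚ) : I → ℚ := by
  classical
  exact if h : ∃ v : I → ℚ, (∀ i, i ∉ N → v i = 0) ∧ ∀ i ∈ N, cqN a N v i = b i then h.choose else 0

/-- legal chip firing in `N` with threshold `θ`: `FireTo a N θ ν v` means that starting from the configuration `ν` the
vertices can be fired `v` times, each fired vertex `x` having `ν x ≥ θ` before it is fired; firing `x` subtracts
`C_{i x}` from `ν i`. -/
inductive FireTo (a : I → I → ℕ) (N : Finset I) (θ : ℤ) : (I → ℤ) → (I → ℕ) → Prop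
  | nil (ν : I → ℤ) : FireTo a N θ ν 0
  | cons (ν : I → ℤ) (v : I → ℕ) (x : I) (hx : x ∈ N) (h : θ ≤ ν x)
      (hv : FireTo a N θ (fun i => ν i - cart a i x) v) : FireTo a N θ ν (v + Pi.single x 1)

/-- connected components of `N`, as the set of all subsets which are connected and have no edge to the rest. -/
noncomputable def comps (a : I → I → ℕ) (N : Finset I) : Finset (Finset I) := by
  classical
  exact N.powerset.filter (fun A => ConnS a A ∧ ∀ i ∈ A, ∀ j ∈ N, j ∉ A → a i j = 0)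

/-- multiplication by `∏_x η_{x,κ_x}^{δ_x}`. -/
noncomputable def Trm.etaM (a : I → I → ℕ) (κ : I → ℕ) (δ : I → ℚ) (T : Trm I) : Trm I :=
  ⟨fun i => T.γ i - κ i * δ i, T.E - ∑ x, δ x • cE a x (κ x), T.Λ⟩

/-- direction `x` is ready for firing at level `k` with side level `σ`: natural exponents at the levels `≠ k`, integral
exponent at level `k`, all symbols `(x,l)` in the columns are at the levels `σ`, `k` or compensated. -/
structure FReg (T : Trm I) (x : I) (k σ : ℕ) : Prop where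
  nat : ∀ l, 1 ≤ l → l ≠ k → IsN (T.E (x, l))
  int : IsZ (T.E (x, k))
  col : ∀ j l, 1 ≤ l → T.Λ j (x, l) ≠ 0 → l = σ ∨ l = k ∨ 1 ≤ T.E (x, l)

/-- `σ = k + 1` or `k - 1`. -/
def Side (k σ : ℕ) : Prop := σ = k + 1 ∨ σ + 1 = k

/-- `T` is regular in the directions of `R`; the columns of the vertices of `R` itself are ignored (they will be
replaced). -/
structure RReg (R : Finset I) (T : Trm I) : Prop where
  nat : ∀ x ∈ R, ∀ l, 1 ≤ l → IsN (T.E (x, l))
  col : ∀ x ∈ R, ∀ j, j ∉ R → ∀ l, 1 ≤ l → T.Λ j (x, l) ≠ 0 → 1 ≤ T.E (x, l)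

/-- restriction of a vector to `R`. -/
def resQ (R : Finset I) (q : I → ℚ) (i : I) : ℚ := if i ∈ R then q i else 0

/-- normalised insertion at level `k` on `R`, columns `(x, σ)` for `x ∈ R`. -/
noncomputable def blkT (a : I → I → ℕ) (R : Finset I) (k σ : ℕ) (q : I → ℚ) (T : Trm I) : Trm I :=
  (T.eta a k (fun i => -resQ R q i)).cols R (fun x => sy x σ)

/-- `tau_{k+1}^R[q]`. -/
noncomputable abbrev tauT (a : I → I → ℕ) (R : Finset I) (k : ℕ) (q : I → ℚ) (T : Trm I) : Trm I :=
  blkT a R k (k + 1) q T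

/-- `Up_k^R[q]`. -/
noncomputable abbrev upT (a : I → I → ℕ) (R : Finset I) (k : ℕ) (q : I → ℚ) (T : Trm I) : Trm I :=
  blkT a R k (k - 1) q T

/-- `q` is an admissible class representative on `R`: `C_R q` is integral and `≥ 1` on `R`. -/
def QOk (a : I → I → ℕ) (R : Finset I) (q : I → ℚ) : Prop :=
  ∀ x ∈ R, ∃ n : ℕ, 1 ≤ n ∧ cqN a R q x = n

/-- the raw term with `m_x` factors `η_{x,k}`, `x ∈ R`, columns `θ_x` if `m_x ≥ 1`, `(x,k-1)` if `m_x = 0`. -/
noncomputable def rawT (a : I → I → ℕ) (R : Finset I) (k : ℕ) (q : I → ℚ) (m : I → ℕ) (T : Trm I) :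
    Trm I :=
  (T.eta a k (fun i => if i ∈ R then (m i : ℚ) - q i else 0)).cols R
    (fun x => if m x = 0 then sy x (k - 1) else cE a x k)

/-- the box of multiplicities on `R` bounded by `B`. -/
noncomputable def mbox (R : Finset I) (B : ℕ) : Finset (I → ℕ) :=
  Fintype.piFinset (fun i => if i ∈ R then Finset.range (B + 1) else {0})

/-- sign `(-1)^{#{x ∈ R : m_x = 0}}`. -/
def sgm (R : Finset I) (m : I → ℕ) : ℚ := (-1) ^ (R.filter (fun x => m x = 0)).card

/-- a sufficient bound for the multiplicities. -/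
noncomputable def bnd (R : Finset I) (k : ℕ) (q : I → ℚ) (T : Trm I) : ℕ :=
  ∑ i ∈ R, ⌊T.γ i + k * q i⌋₊

/-- the plateau condition: `m_x = 0` or `m_x = q_x` for all `x ∈ R`. -/
def Plat (R : Finset I) (q : I → ℚ) (m : I → ℕ) : Prop := ∀ x ∈ R, m x = 0 ∨ (m x : ℚ) = q x

open Classical in
/-- the restart part `R_k` of `tau_{k+1}` (level `k ≥ 1`). -/
noncomputable def Rv (a : I → I → ℕ) (R : Finset I) (k : ℕ) (q : I → ℚ) (T : Trm I) : ℚ :=
  ∑ m ∈ (mbox R (bnd R k q T)).filter (fun m => ¬ Plat R q m), sgm R m * TV a (rawT a R k q m T)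

open Classical in
/-- the plateau part `PP_k` of `tau_{k+1}` (level `k ≥ 1`). -/
noncomputable def PPv (a : I → I → ℕ) (R : Finset I) (k : ℕ) (q : I → ℚ) (T : Trm I) : ℚ :=
  ∑ m ∈ (mbox R (bnd R k q T)).filter (fun m => Plat R q m), sgm R m * TV a (rawT a R k q m T)

/-- `T` has a kink at level `f` in `R`. -/
def Kink (R : Finset I) (f : ℕ) (T : Trm I) : Prop := ∃ x ∈ R, 1 ≤ T.E (x, f)

end

end Pool.Agent.H27.KAC
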