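import Pool.Agent.H41.KA.AE1

/-!
KAC ADE, module AE2: chip firing.

`fire_from_above`: induction on `∑ d`.  If `d ≠ 0`, then `0 < dᵀ C d`, so there is `x ∈ N` with `d x > 0` and `(C d)_x ≥ 1`; hence
`ν x ≥ e x + 1 ≥ θ`; fire `x`.
`fire_down`: fire as long as some `ν x ≥ θ`; termination: with `s = solN 1` the quantity `∑ s_x ν_x` decreases by one, while
all `ν_x` stay `≥ min (initial value) 0` (here `θ ≥ 2` is used).
`fire_large`: round `solN (p ν - b)` down, `b = θ + 2 |I| + 2` (constant vector): the error `C (x - ⌊x⌋)` is bounded by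
`2 + |I|` in absolute value (all entries of `C_N` are `2` or `0, -1` by `FinT.adj_le_one`).
-/

set_option autoImplicit false

namespace Pool.Agent.H27.KAC

open scoped BigOperators

section

variable {I : Type} [Fintype I] [DecidableEq I]

/-- the configuration only matters on `N`. -/
theorem FireTo.congr {a : I → I → ℕ} {N : Finset I} {θ : ℤ} {ν ν' : I → ℤ} {v : I → ℕ}
    (h : FireTo a N θ ν v) (hν : ∀ i ∈ N, ν i = ν' i) : FireTo a N θ ν' v := by
  induction h generalizing ν' with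
  | nil ν => exact FireTo.nil ν'
  | cons ν v x hx h _ ih =>
    refine FireTo.cons ν' v x hx (by rw [← hν x hx]; exact h) (ih ?_)
    intro i hi
    simp only [hν i hi]

theorem FireTo.supp {a : I → I → ℕ} {N : Finset I} {θ : ℤ} {ν : I → ℤ} {v : I → ℕ}
    (h : FireTo a N θ ν v) : ∀ i, i ∉ N → v i = 0 := by
  induction h with
  | nil ν => intro i _; rfl
  | cons ν v x hx h _ ih =>
    intro i hi
    have hne : i ≠ x := fun e => hi (e ▸ hx)
    simp [ih i hi, hne]

/-- a smaller threshold is allowed. -/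
theorem FireTo.mono {a : I → I → ℕ} {N : Finset I} {θ θ' : ℤ} {ν : I → ℤ} {v : I → ℕ}
    (h : FireTo a N θ ν v) (hθ : θ' ≤ θ) : FireTo a N θ' ν v := by
  induction h with
  | nil ν => exact FireTo.nil ν
  | cons ν v x hx h _ ih => exact FireTo.cons ν v x hx (hθ.trans h) ih

theorem fire_from_above {a : I → I → ℕ} (hs : ∀ i j, a i j = a j i) {N : Finset I} (h : FinT a N)
    (θ : ℤ) (e : I → ℤ) (d : I → ℕ) (hd : ∀ i, i ∉ N → d i = 0) (he : ∀ x ∈ N, θ ≤ e x + 1) :
    FireTo a N θ (fun i => e i + ∑ j ∈ N, cart a i j * (d j : ℤ)) d := by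
  obtain ⟨n, hn⟩ : ∃ n : ℕ, ∑ i ∈ N, d i = n := ⟨_, rfl⟩
  induction n generalizing d with
  | zero =>
    have h0 : d = 0 := by
      funext i
      by_cases hi : i ∈ N
      · exact (Finset.sum_eq_zero_iff.1 hn) i hi
      · exact hd i hi
    rw [h0]
    exact FireTo.nil _
  | succ n ih =>
    have hne : ∃ i ∈ N, d i ≠ 0 := by
      by_contra hcon
      push Not at hcon
      rw [Finset.sum_eq_zero hcon] at hn
      omega
    obtain ⟨i0, hi0, hdi0⟩ := hne
    have hp := h.pos (fun i => (d i : ℚ)) ⟨i0, hi0, by exact_mod_cast hdi0⟩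
    obtain ⟨x, hx, hxp⟩ : ∃ x ∈ N, 0 < (d x : ℚ) * cqN a N (fun i => (d i : ℚ)) x := by
      by_contra hcon
      push Not at hcon
      exact absurd (Finset.sum_nonpos hcon) (not_le.2 hp)
    have hdx : (0 : ℚ) < d x := by
      rcases Nat.eq_zero_or_pos (d x) with h0 | h0
      · rw [h0] at hxp; simp at hxp
      · exact_mod_cast h0
    have hcx : 0 < cqN a N (fun i => (d i : ℚ)) x := by
      exact (pos_iff_pos_of_mul_pos hxp).1 hdx
    have hcZ : (0 : ℤ) < ∑ j ∈ N, cart a x j * (d j : ℤ) := by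
      have : ((∑ j ∈ N, cart a x j * (d j : ℤ) : ℤ) : ℚ) = cqN a N (fun i => (d i : ℚ)) x := by
        unfold cqN
        push_cast
        rfl
      rw [← this] at hcx
      exact_mod_cast hcx
    have hd1 : 1 ≤ d x := by exact_mod_cast hdx
    obtain ⟨d', hd'⟩ : ∃ d' : I → ℕ, d = d' + Pi.single x 1 := by
      refine ⟨fun i => d i - (Pi.single x 1 : I → ℕ) i, ?_⟩
      funext i
      by_cases hix : i = x
      · subst hix
        simp only [Pi.add_apply, Pi.single_eq_same]
        omega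
      · simp [hix]
    rw [hd'] 
    have hsupp : ∀ i, i ∉ N → d' i = 0 := by
      intro i hi
      have := hd i hi
      rw [hd'] at this
      simp only [Pi.add_apply] at this
      omega
    have hsum : ∑ i ∈ N, d' i = n := by
      have h1 : ∑ i ∈ N, d i = ∑ i ∈ N, d' i + 1 := by
        rw [hd']
        simp only [Pi.add_apply, Finset.sum_add_distrib]
        congr 1
        rw [Finset.sum_eq_single x]
        · simp
        · intro b _ hb
          simp [hb]
        · intro hx'; exact absurd hx hx'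
      omega
    have key := ih d' hsupp hsum
    refine FireTo.cons _ d' x hx ?_ ?_
    · rw [hd'] at hcZ
      have := he x hx
      omega
    · refine key.congr ?_
      intro i _
      have h2 : ∑ j ∈ N, cart a i j * (((d' + Pi.single x 1 : I → ℕ) j : ℕ) : ℤ)
          = ∑ j ∈ N, cart a i j * (d' j : ℤ) + cart a i x := by
        have : ∀ j ∈ N, cart a i j * (((d' + Pi.single x 1 : I → ℕ) j : ℕ) : ℤ)
            = cart a i j * (d' j : ℤ) + cart a i j * (((Pi.single x 1 : I → ℕ) j : ℕ) : ℤ) := by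
          intro j _
          simp only [Pi.add_apply, Nat.cast_add]
          ring
        rw [Finset.sum_congr rfl this, Finset.sum_add_distrib]
        congr 1
        rw [Finset.sum_eq_single x]
        · simp
        · intro b _ hb
          simp [hb]
        · intro hx'; exact absurd hx hx'
      rw [h2]
      ring

theorem AE2_cart_symm {a : I → I → ℕ} (hs : ∀ i j, a i j = a j i) (i j : I) :
    cart a i j = cart a j i := by
  unfold cart
  rw [hs i j]
  by_cases h : i = j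
  · subst h; rfl
  · rw [if_neg h, if_neg (Ne.symm h)]

theorem AE2_cart_off {a : I → I → ℕ} {i j : I} (h : i ≠ j) : cart a i j = -(a i j : ℤ) := by
  unfold cart
  rw [if_neg h]
  ring

/-- the potential drops by one. -/
theorem AE2_pot {a : I → I → ℕ} (hs : ∀ i j, a i j = a j i) {N : Finset I} (h : FinT a N)
    (ν : I → ℤ) (x : I) (hx : x ∈ N) (m : ℤ) :
    ∑ i ∈ N, solN a N (fun _ => 1) i * (((ν i - cart a i x : ℤ) : ℚ) - m) =
      ∑ i ∈ N, solN a N (fun _ => 1) i * ((ν i : ℚ) - m) - 1 := by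
  have h1 := solN_spec hs h (fun _ => (1 : ℚ)) x hx
  unfold cqN at h1
  have h2 : ∑ i ∈ N, solN a N (fun _ => 1) i * (cart a i x : ℚ) = 1 := by
    refine Eq.trans (Finset.sum_congr rfl ?_) h1
    intro i _
    rw [AE2_cart_symm hs i x]
    ring
  have h3 : ∀ i ∈ N, solN a N (fun _ => 1) i * (((ν i - cart a i x : ℤ) : ℚ) - m) =
      solN a N (fun _ => 1) i * ((ν i : ℚ) - m) - solN a N (fun _ => 1) i * (cart a i x : ℚ) := by
    intro i _
    push_cast
    ring
  rw [Finset.sum_congr rfl h3, Finset.sum_sub_distrib, h2]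

theorem AE2_down_aux {a : I → I → ℕ} (hs : ∀ i j, a i j = a j i) {N : Finset I} (h : FinT a N)
    (θ : ℤ) (hθ : 2 ≤ θ) (m : ℤ) (hm : m ≤ 0) (n : ℕ) :
    ∀ ν : I → ℤ, (∀ x ∈ N, m ≤ ν x) →
      ∑ i ∈ N, solN a N (fun _ => 1) i * ((ν i : ℚ) - m) ≤ n →
      ∃ v : I → ℕ, FireTo a N θ ν v ∧
        ∀ x ∈ N, ν x - ∑ j ∈ N, cart a x j * (v j : ℤ) < θ := by
  have hfire : ∀ ν : I → ℤ, (∀ x ∈ N, m ≤ ν x) → ∀ x ∈ N, θ ≤ ν x →
      ∀ y ∈ N, m ≤ ν y - cart a y x := by
    intro ν hν x hx hθx y hy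
    by_cases hyx : y = x
    · subst hyx
      rw [cart_self h y hy]
      omega
    · rw [AE2_cart_off hyx]
      have := hν y hy
      omega
  have hs0 : ∀ i, 0 ≤ solN a N (fun _ => (1 : ℚ)) i :=
    fun i => solN_nonneg hs h _ (fun _ _ => zero_le_one) i
  induction n with
  | zero =>
    intro ν hν hsum
    refine ⟨0, FireTo.nil ν, ?_⟩
    intro x hx
    simp only [Pi.zero_apply, Nat.cast_zero, mul_zero, Finset.sum_const_zero, sub_zero]
    by_contra hcon
    push Not at hcon
    have h1 := AE2_pot hs h ν x hx m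
    have h2 : 0 ≤ ∑ i ∈ N, solN a N (fun _ => 1) i * (((ν i - cart a i x : ℤ) : ℚ) - m) := by
      refine Finset.sum_nonneg ?_
      intro i hi
      refine mul_nonneg (hs0 i) ?_
      have := hfire ν hν x hx hcon i hi
      have h3 : (m : ℚ) ≤ ((ν i - cart a i x : ℤ) : ℚ) := by exact_mod_cast this
      linarith
    rw [h1] at h2
    push_cast at hsum
    linarith
  | succ n ih =>
    intro ν hν hsum
    by_cases hall : ∀ x ∈ N, ν x < θ
    · refine ⟨0, FireTo.nil ν, ?_⟩
      intro x hx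
      simp only [Pi.zero_apply, Nat.cast_zero, mul_zero, Finset.sum_const_zero, sub_zero]
      exact hall x hx
    · push Not at hall
      obtain ⟨x, hx, hθx⟩ := hall
      have h1 := AE2_pot hs h ν x hx m
      obtain ⟨v, hv, hv'⟩ := ih (fun i => ν i - cart a i x) (hfire ν hν x hx hθx) (by
        rw [h1]
        push_cast at hsum
        linarith)
      refine ⟨v + Pi.single x 1, FireTo.cons ν v x hx hθx hv, ?_⟩
      intro y hy
      have h2 := hv' y hy
      have h3 : ∑ j ∈ N, cart a y j * (((v + Pi.single x 1 : I → ℕ) j : ℕ) : ℤ)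
          = ∑ j ∈ N, cart a y j * (v j : ℤ) + cart a y x := by
        have : ∀ j ∈ N, cart a y j * (((v + Pi.single x 1 : I → ℕ) j : ℕ) : ℤ)
            = cart a y j * (v j : ℤ) + cart a y j * (((Pi.single x 1 : I → ℕ) j : ℕ) : ℤ) := by
          intro j _
          simp only [Pi.add_apply, Nat.cast_add]
          ring
        rw [Finset.sum_congr rfl this, Finset.sum_add_distrib]
        congr 1
        rw [Finset.sum_eq_single x]
        · simp
        · intro b _ hb
          simp [hb]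
        · intro hx'; exact absurd hx hx'
      rw [h3]
      omega

/-- stabilisation. -/
theorem fire_down {a : I → I → ℕ} (hs : ∀ i j, a i j = a j i) {N : Finset I} (h : FinT a N)
    (θ : ℤ) (hθ : 2 ≤ θ) (ν : I → ℤ) :
    ∃ v : I → ℕ, FireTo a N θ ν v ∧
      (∀ x ∈ N, ν x - ∑ j ∈ N, cart a x j * (v j : ℤ) < θ) ∧
      ∀ x ∈ N, solN a N (fun i => (ν i : ℚ)) x - θ * solN a N (fun _ => 1) x ≤ v x := by
  obtain ⟨m, hm0, hm⟩ : ∃ m : ℤ, m ≤ 0 ∧ ∀ x ∈ N, m ≤ ν x := by
    refine ⟨-∑ x ∈ N, |ν x|, ?_, ?_⟩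
    · have : 0 ≤ ∑ x ∈ N, |ν x| := Finset.sum_nonneg (fun _ _ => abs_nonneg _)
      omega
    · intro x hx
      have h1 : |ν x| ≤ ∑ y ∈ N, |ν y| :=
        Finset.single_le_sum (f := fun y => |ν y|) (fun _ _ => abs_nonneg _) hx
      have h2 := neg_abs_le (ν x)
      omega
  obtain ⟨n, hn⟩ := exists_nat_ge (∑ i ∈ N, solN a N (fun _ => 1) i * ((ν i : ℚ) - m))
  obtain ⟨v, hv, hv'⟩ := AE2_down_aux hs h θ hθ m hm0 n ν hm hn
  refine ⟨v, hv, hv', ?_⟩
  intro x hx
  have h1 : ∀ i ∈ N, (ν i : ℚ) + -θ * 1 ≤ cqN a N (fun j => (v j : ℚ)) i := by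
    intro i hi
    have h2 := hv' i hi
    have h3 : ((∑ j ∈ N, cart a i j * (v j : ℤ) : ℤ) : ℚ) = cqN a N (fun j => (v j : ℚ)) i := by
      unfold cqN
      push_cast
      rfl
    rw [← h3]
    have h4 : ν i - θ ≤ ∑ j ∈ N, cart a i j * (v j : ℤ) := by omega
    have h5 : ((ν i - θ : ℤ) : ℚ) ≤ ((∑ j ∈ N, cart a i j * (v j : ℤ) : ℤ) : ℚ) := by
      exact_mod_cast h4
    push_cast at h5 ⊢
    linarith
  have h2 := solN_mono hs h _ _ h1 x
  rw [solN_cqN hs h _ x hx] at h2
  have h3 : solN a N (fun j => (ν j : ℚ) + (fun _ => -(θ : ℚ) * 1) j) x =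
      solN a N (fun j => (ν j : ℚ)) x + solN a N (fun _ => -(θ : ℚ) * 1) x :=
    solN_add hs h _ _ x
  have h4 : solN a N (fun _ => -(θ : ℚ) * 1) x = -(θ : ℚ) * solN a N (fun _ => 1) x :=
    solN_smul hs h _ _ x
  simp only at h3
  rw [h3, h4] at h2
  linarith

/-- firing a large multiple of `ν` and of `ν' = ν - C_N v` to a common configuration. -/
theorem fire_large {a : I → I → ℕ} (hs : ∀ i j, a i j = a j i) {N : Finset I} (h : FinT a N)
    (θ : ℤ) (hθ : 2 ≤ θ) (ν : I → ℤ) (v : I → ℤ) (hv : ∀ i, i ∉ N → v i = 0)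
    (h1 : ∀ x ∈ N, 0 < solN a N (fun i => (ν i : ℚ)) x)
    (h2 : ∀ x ∈ N, (v x : ℚ) < solN a N (fun i => (ν i : ℚ)) x) :
    ∃ P : ℕ, ∀ p : ℕ, P ≤ p → ∃ d d' : I → ℕ,
      (∀ i, (d' i : ℤ) = (d i : ℤ) - p * v i) ∧
      (∀ i, i ∉ N → d i = 0) ∧
      FireTo a N θ (fun i => (p : ℤ) * ν i) d ∧
      FireTo a N θ (fun i => (p : ℤ) * (ν i - ∑ j ∈ N, cart a i j * v j)) d' ∧
      ∀ x ∈ N, θ ≤ (p : ℤ) * ν x - ∑ j ∈ N, cart a x j * (d j : ℤ) := by
  set s : I → ℚ := solN a N (fun _ => 1) with hsdef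
  set w : I → ℚ := solN a N (fun i => (ν i : ℚ)) with hwdef
  have hs0 : ∀ i, 0 ≤ s i := fun i => solN_nonneg hs h _ (fun _ _ => zero_le_one) i
  set b : ℤ := θ + Fintype.card I with hbdef
  -- the bound on p
  have hP : ∀ x ∈ N, ∃ P : ℕ, ∀ p : ℕ, P ≤ p → (b : ℚ) * s x + 1 ≤ p * w x ∧
      (b : ℚ) * s x + 1 ≤ p * (w x - v x) := by
    intro x hx
    obtain ⟨n1, hn1⟩ := exists_nat_ge (((b : ℚ) * s x + 1) / w x)
    obtain ⟨n2, hn2⟩ := exists_nat_ge (((b : ℚ) * s x + 1) / (w x - v x))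
    refine ⟨max n1 n2, fun p hp => ⟨?_, ?_⟩⟩
    · have hw := h1 x hx
      have h3 : ((b : ℚ) * s x + 1) / w x ≤ p :=
        hn1.trans (by exact_mod_cast (le_max_left _ _).trans hp)
      rwa [div_le_iff₀ hw] at h3
    · have hw : 0 < w x - v x := sub_pos.2 (h2 x hx)
      have h3 : ((b : ℚ) * s x + 1) / (w x - v x) ≤ p :=
        hn2.trans (by exact_mod_cast (le_max_right _ _).trans hp)
      rwa [div_le_iff₀ hw] at h3
  choose! Pf hPf using hP
  refine ⟨∑ x ∈ N, Pf x, ?_⟩
  intro p hp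
  have hpx : ∀ x ∈ N, Pf x ≤ p := by
    intro x hx
    exact (Finset.single_le_sum (f := Pf) (fun _ _ => Nat.zero_le _) hx).trans hp
  set y : I → ℚ := fun i => p * w i - b * s i with hydef
  have hy1 : ∀ x ∈ N, 1 ≤ y x := by
    intro x hx
    have := (hPf x hx p (hpx x hx)).1
    simp only [hydef]
    linarith
  have hy2 : ∀ x ∈ N, 1 + p * (v x : ℚ) ≤ y x := by
    intro x hx
    have := (hPf x hx p (hpx x hx)).2
    simp only [hydef]
    linarith
  have hyout : ∀ i, i ∉ N → y i = 0 := by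
    intro i hi
    simp only [hydef, hwdef, hsdef, solN_out a N _ i hi]
    ring
  -- the rounded vector
  have hf0 : ∀ i, 0 ≤ ⌊y i⌋ := by
    intro i
    by_cases hi : i ∈ N
    · exact Int.floor_nonneg.2 (zero_le_one.trans (hy1 i hi))
    · rw [hyout i hi]; simp
  have hf1 : ∀ i, 0 ≤ ⌊y i⌋ - p * v i := by
    intro i
    by_cases hi : i ∈ N
    · have h3 : ((p * v i : ℤ) : ℚ) ≤ y i := by
        have := hy2 i hi
        push_cast
        linarith
      have := Int.le_floor.2 h3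
      omega
    · rw [hyout i hi, hv i hi]; simp
  obtain ⟨d, hd⟩ : ∃ d : I → ℕ, ∀ i, (d i : ℤ) = ⌊y i⌋ :=
    ⟨fun i => ⌊y i⌋.toNat, fun i => Int.toNat_of_nonneg (hf0 i)⟩
  obtain ⟨d', hd'⟩ : ∃ d' : I → ℕ, ∀ i, (d' i : ℤ) = ⌊y i⌋ - p * v i :=
    ⟨fun i => (⌊y i⌋ - p * v i).toNat, fun i => Int.toNat_of_nonneg (hf1 i)⟩
  have hdout : ∀ i, i ∉ N → d i = 0 := by
    intro i hi
    have := hd i
    rw [hyout i hi] at this
    simpa using this
  have hd'out : ∀ i, i ∉ N → d' i = 0 := by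
    intro i hi
    have := hd' i
    rw [hyout i hi, hv i hi] at this
    simpa using this
  -- the common configuration
  have hcy : ∀ x ∈ N, cqN a N y x = p * (ν x : ℚ) - b := by
    intro x hx
    have e1 : cqN a N w x = ν x := solN_spec hs h _ x hx
    have e2 : cqN a N s x = 1 := solN_spec hs h _ x hx
    unfold cqN at e1 e2 ⊢
    have e3 : ∀ j ∈ N, (cart a x j : ℚ) * y j =
        p * ((cart a x j : ℚ) * w j) - b * ((cart a x j : ℚ) * s j) := by
      intro j _
      simp only [hydef]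
      ring
    rw [Finset.sum_congr rfl e3, Finset.sum_sub_distrib, ← Finset.mul_sum, ← Finset.mul_sum,
      e1, e2]
    ring
  have hfr : ∀ x ∈ N, -(Fintype.card I : ℚ) ≤ cqN a N (fun i => Int.fract (y i)) x := by
    intro x hx
    unfold cqN
    have e1 : ∀ j ∈ N, (-1 : ℚ) ≤ (cart a x j : ℚ) * Int.fract (y j) := by
      intro j hj
      have f0 := Int.fract_nonneg (y j)
      have f1 := (Int.fract_lt_one (y j)).le
      by_cases hxj : x = j
      · subst hxj
        rw [cart_self h x hx]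
        push_cast
        linarith
      · rw [AE2_cart_off hxj]
        have h3 := h.adj_le_one hs x j hx hj hxj
        have h4 : (a x j : ℚ) ≤ 1 := by exact_mod_cast h3
        have h5 : (0 : ℚ) ≤ a x j := Nat.cast_nonneg _
        push_cast
        nlinarith
    have e2 : ∑ j ∈ N, (-1 : ℚ) ≤ ∑ j ∈ N, (cart a x j : ℚ) * Int.fract (y j) :=
      Finset.sum_le_sum e1
    rw [Finset.sum_const, nsmul_eq_mul] at e2
    have e3 : (N.card : ℚ) ≤ Fintype.card I := by exact_mod_cast Finset.card_le_univ N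
    linarith
  have hfin : ∀ x ∈ N, θ ≤ (p : ℤ) * ν x - ∑ j ∈ N, cart a x j * (d j : ℤ) := by
    intro x hx
    have e1 : ((∑ j ∈ N, cart a x j * (d j : ℤ) : ℤ) : ℚ) =
        cqN a N y x - cqN a N (fun i => Int.fract (y i)) x := by
      unfold cqN
      rw [← Finset.sum_sub_distrib]
      push_cast
      refine Finset.sum_congr rfl ?_
      intro j _
      have e2 : ((d j : ℕ) : ℚ) = y j - Int.fract (y j) := by
        have e3 : ((d j : ℕ) : ℚ) = ((⌊y j⌋ : ℤ) : ℚ) := by
          have := hd j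
          rw [← this]
          simp
        rw [e3]
        have := Int.floor_add_fract (y j)
        linarith
      rw [e2]
      ring
    have e2 := hfr x hx
    have e3 := hcy x hx
    have e4 : (θ : ℚ) ≤ (((p : ℤ) * ν x - ∑ j ∈ N, cart a x j * (d j : ℤ) : ℤ) : ℚ) := by
      rw [Int.cast_sub, e1, e3]
      simp only [hbdef]
      push_cast
      linarith
    exact_mod_cast e4
  refine ⟨d, d', ?_, hdout, ?_, ?_, hfin⟩
  · intro i
    rw [hd' i, hd i]
  · have key := fire_from_above hs h θ (fun i => (p : ℤ) * ν i - ∑ j ∈ N, cart a i j * (d j : ℤ))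
      d hdout (fun x hx => (hfin x hx).trans (by simp))
    refine key.congr ?_
    intro i _
    simp
  · have key := fire_from_above hs h θ (fun i => (p : ℤ) * ν i - ∑ j ∈ N, cart a i j * (d j : ℤ))
      d' hd'out (fun x hx => (hfin x hx).trans (by simp))
    refine key.congr ?_
    intro i _
    have e1 : ∀ j ∈ N, cart a i j * (d' j : ℤ) =
        cart a i j * (d j : ℤ) - p * (cart a i j * v j) := by
      intro j _
      rw [hd' j, hd j]
      ring
    rw [Finset.sum_congr rfl e1, Finset.sum_sub_distrib, ← Finset.mul_sum]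
    ring

end

end Pool.Agent.H27.KAC
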