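import Pool.Agent.H41.KA.AE3
import Pool.Agent.H41.KA.AD9

/-!
KAC ADE, module AE4: the replacement lemma (class independence).

Proof: `TV_eq_of_pow` with `c = 1`: for all large primes `p` both `T.pow p` and `(T.etaM κ v).pow p = (T.pow p).etaM κ (p v)`
can be fired (`fire_large`, `TV_fire`) to the same term `(T.pow p).etaM κ d`.
-/

set_option autoImplicit false

namespace Pool.Agent.H27.KAC

open scoped BigOperators

section

variable {I : Type} [Fintype I] [DecidableEq I]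

theorem AE4_cart_symm {a : I → I → ℕ} (hs : ∀ i j, a i j = a j i) (x y : I) :
    cart a x y = cart a y x := by
  unfold cart
  rw [hs x y]
  by_cases h : x = y
  · subst h; rfl
  · rw [if_neg h, if_neg (fun h' => h h'.symm)]

theorem AE4_cart_zero {a : I → I → ℕ} {N : Finset I} {κ : I → ℕ}
    (hadj : ∀ x ∈ N, ∀ y ∈ N, 0 < a x y → κ x = κ y) {x y : I} (hx : x ∈ N) (hy : y ∈ N)
    (h : κ x ≠ κ y) : cart a x y = 0 := by
  have h1 : x ≠ y := fun e => h (by rw [e])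
  have h2 : a x y = 0 := by
    by_contra h0
    exact h (hadj x hx y hy (Nat.pos_of_ne_zero h0))
  unfold cart
  rw [if_neg h1, h2]
  rfl

/-- the exponents after an integral monomial supported on `N`. -/
theorem AE4_E (a : I → I → ℕ) (hs : ∀ i j, a i j = a j i) (N : Finset I) (κ : I → ℕ)
    (hadj : ∀ x ∈ N, ∀ y ∈ N, 0 < a x y → κ x = κ y) (T : Trm I) (v : I → ℤ)
    (hv : ∀ i, i ∉ N → v i = 0) (x : I) (hx : x ∈ N) (l : ℕ) :
    (T.etaM a κ (fun i => (v i : ℚ))).E (x, l) =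
      T.E (x, l) - if l = κ x then ((∑ j ∈ N, cart a x j * v j : ℤ) : ℚ) else 0 := by
  rw [etaM_E]
  congr 1
  by_cases hl : l = κ x
  · subst hl
    rw [if_pos rfl, Finset.sum_filter]
    have e1 : (∑ j ∈ N, cart a x j * v j : ℤ) =
        ∑ j, if j ∈ N then cart a x j * v j else 0 := by
      rw [Finset.sum_ite_mem, Finset.univ_inter]
    rw [e1, Int.cast_sum]
    refine Finset.sum_congr rfl (fun y _ => ?_)
    by_cases hy : y ∈ N
    · rw [if_pos hy]
      by_cases hk : κ y = κ x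
      · rw [if_pos hk, Int.cast_mul, AE4_cart_symm hs x y, mul_comm]
      · rw [if_neg hk, AE4_cart_zero hadj hx hy (fun h => hk h.symm)]
        simp
    · rw [if_neg hy, hv y hy]
      simp
  · rw [if_neg hl]
    apply Finset.sum_eq_zero
    intro y hy
    rw [Finset.mem_filter] at hy
    by_cases hyN : y ∈ N
    · rw [AE4_cart_zero hadj hyN hx (by rw [hy.2]; exact hl)]
      simp
    · rw [hv y hyN]
      simp

theorem AE4_FReg (a : I → I → ℕ) (hs : ∀ i j, a i j = a j i) (N : Finset I) (κ σ : I → ℕ)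
    (hadj : ∀ x ∈ N, ∀ y ∈ N, 0 < a x y → κ x = κ y) (T : Trm I)
    (h : ∀ x ∈ N, FReg T x (κ x) (σ x)) (v : I → ℤ) (hv : ∀ i, i ∉ N → v i = 0) (x : I)
    (hx : x ∈ N) : FReg (T.etaM a κ (fun i => (v i : ℚ))) x (κ x) (σ x) where
  nat := by
    intro l hl hlk
    rw [AE4_E a hs N κ hadj T v hv x hx l, if_neg hlk, sub_zero]
    exact (h x hx).nat l hl hlk
  int := by
    rw [AE4_E a hs N κ hadj T v hv x hx (κ x), if_pos rfl]
    obtain ⟨n, hn⟩ := (h x hx).int
    exact ⟨n - ∑ j ∈ N, cart a x j * v j, by rw [hn, Int.cast_sub]⟩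
  col := by
    intro j l hl hΛ
    by_cases hlk : l = κ x
    · exact Or.inr (Or.inl hlk)
    · rcases (h x hx).col j l hl hΛ with h1 | h1 | h1
      · exact Or.inl h1
      · exact Or.inr (Or.inl h1)
      · right; right
        rw [AE4_E a hs N κ hadj T v hv x hx l, if_neg hlk, sub_zero]
        exact h1

/-- an integral configuration. -/
theorem AE4_nu (N : Finset I) (κ σ : I → ℕ) (T : Trm I) (h : ∀ x ∈ N, FReg T x (κ x) (σ x)) :
    ∃ ν : I → ℤ, ∀ x ∈ N, T.E (x, κ x) = ν x := by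
  classical
  refine ⟨fun x => if hx : x ∈ N then ((h x hx).int).choose else 0, ?_⟩
  intro x hx
  simp only [dif_pos hx]
  exact ((h x hx).int).choose_spec

theorem AE4_pow_E (T : Trm I) (p : ℚ) (ik : I × ℕ) : (T.pow p).E ik = p * T.E ik := rfl

theorem TV_rep (a : I → I → ℕ) (hs : ∀ i j, a i j = a j i) (N : Finset I) (hN : FinT a N)
    (κ σ : I → ℕ) (hκ : ∀ x ∈ N, 1 ≤ κ x)
    (hadj : ∀ x ∈ N, ∀ y ∈ N, 0 < a x y → κ x = κ y) (hσ : ∀ x ∈ N, Side (κ x) (σ x)) (T : Trm I)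
    (h : ∀ x ∈ N, FReg T x (κ x) (σ x))
    (h1 : ∀ x ∈ N, 0 < solN a N (fun i => T.E (i, κ i)) x)
    (v : I → ℤ) (hv : ∀ i, i ∉ N → v i = 0)
    (h2 : ∀ x ∈ N, (v x : ℚ) < solN a N (fun i => T.E (i, κ i)) x) :
    TV a T = TV a (T.etaM a κ (fun i => (v i : ℚ))) := by
  obtain ⟨ν, hν⟩ := AE4_nu N κ σ T h
  have hsol : solN a N (fun i => T.E (i, κ i)) = solN a N (fun i => (ν i : ℚ)) :=
    solN_congr hs hN _ _ hν
  rw [hsol] at h1 h2
  obtain ⟨P, hP⟩ := fire_large hs hN 3 (by norm_num) ν v hv h1 h2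
  have key : TV a T = 1 * TV a (T.etaM a κ (fun i => (v i : ℚ))) := by
    apply TV_eq_of_pow a hs
    refine ⟨1, max P 1, le_refl _, ?_⟩
    intro p hp _ _
    have hpP : P ≤ p := le_trans (le_max_left _ _) hp
    have hp1 : 1 ≤ p := le_trans (le_max_right _ _) hp
    obtain ⟨d, d', hd', hd0, hf, hf', -⟩ := hP p hpP
    rw [one_mul]
    have e1 : TV a (T.pow p) = TV a ((T.pow p).etaM a κ (fun i => (d i : ℚ))) := by
      refine TV_fire a hs N hN.loopfree κ σ hκ hadj hσ (T.pow p)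
        (fun x hx => (h x hx).pow p hp1) _ ?_ d hf
      intro x hx
      rw [AE4_pow_E, hν x hx]
      push_cast
      ring
    have hT' : ∀ x ∈ N, FReg (T.etaM a κ (fun i => (v i : ℚ))) x (κ x) (σ x) :=
      fun x hx => AE4_FReg a hs N κ σ hadj T h v hv x hx
    have e2 : TV a ((T.etaM a κ (fun i => (v i : ℚ))).pow p) =
        TV a (((T.etaM a κ (fun i => (v i : ℚ))).pow p).etaM a κ (fun i => (d' i : ℚ))) := by
      refine TV_fire a hs N hN.loopfree κ σ hκ hadj hσ _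
        (fun x hx => (hT' x hx).pow p hp1) _ ?_ d' hf'
      intro x hx
      rw [AE4_pow_E, AE4_E a hs N κ hadj T v hv x hx (κ x), if_pos rfl, hν x hx]
      push_cast
      ring
    rw [e1, e2, etaM_pow, etaM_etaM]
    congr 2
    funext i
    have := hd' i
    have h3 : ((d' i : ℤ) : ℚ) = ((d i : ℤ) : ℚ) - p * v i := by
      rw [this]
      push_cast
      ring
    rw [Int.cast_natCast, Int.cast_natCast] at h3
    rw [h3]
    ring
  rw [key, one_mul]

/-- after raising to a large power, the exponents on `N` can be made `≥ θ` (any bound) by firing. -/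
theorem TV_large (a : I → I → ℕ) (hs : ∀ i j, a i j = a j i) (N : Finset I) (hN : FinT a N)
    (κ σ : I → ℕ) (hκ : ∀ x ∈ N, 1 ≤ κ x)
    (hadj : ∀ x ∈ N, ∀ y ∈ N, 0 < a x y → κ x = κ y) (hσ : ∀ x ∈ N, Side (κ x) (σ x)) (T : Trm I)
    (h : ∀ x ∈ N, FReg T x (κ x) (σ x))
    (h1 : ∀ x ∈ N, 0 < solN a N (fun i => T.E (i, κ i)) x) (θ : ℤ) (hθ : 3 ≤ θ) :
    ∃ P : ℕ, ∀ p : ℕ, P ≤ p → ∃ d : I → ℕ, (∀ i, i ∉ N → d i = 0) ∧
      TV a (T.pow p) = TV a ((T.pow p).etaM a κ (fun i => (d i : ℚ))) ∧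
      (∀ x ∈ N, FReg ((T.pow p).etaM a κ (fun i => (d i : ℚ))) x (κ x) (σ x)) ∧
      ∀ x ∈ N, (θ : ℚ) ≤ ((T.pow p).etaM a κ (fun i => (d i : ℚ))).E (x, κ x) := by
  obtain ⟨ν, hν⟩ := AE4_nu N κ σ T h
  have hsol : solN a N (fun i => T.E (i, κ i)) = solN a N (fun i => (ν i : ℚ)) :=
    solN_congr hs hN _ _ hν
  rw [hsol] at h1
  obtain ⟨P, hP⟩ := fire_large hs hN θ (by linarith) ν (fun _ => 0) (fun _ _ => rfl) h1
    (fun x hx => by simpa using h1 x hx)
  refine ⟨max P 1, ?_⟩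
  intro p hp
  have hpP : P ≤ p := le_trans (le_max_left _ _) hp
  have hp1 : 1 ≤ p := le_trans (le_max_right _ _) hp
  obtain ⟨d, d', hd', hd0, hf, -, hlast⟩ := hP p hpP
  have hpow : ∀ x ∈ N, FReg (T.pow p) x (κ x) (σ x) := fun x hx => (h x hx).pow p hp1
  have hcast : (fun i => (d i : ℚ)) = fun i => (((d i : ℤ)) : ℚ) := by
    funext i
    rw [Int.cast_natCast]
  have hdz : ∀ i, i ∉ N → ((d i : ℤ)) = 0 := fun i hi => by rw [hd0 i hi]; rfl
  refine ⟨d, hd0, ?_, ?_, ?_⟩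
  · refine TV_fire a hs N hN.loopfree κ σ hκ hadj hσ (T.pow p) hpow _ ?_ d (hf.mono hθ)
    intro x hx
    rw [AE4_pow_E, hν x hx]
    push_cast
    ring
  · intro x hx
    rw [hcast]
    exact AE4_FReg a hs N κ σ hadj (T.pow p) hpow _ hdz x hx
  · intro x hx
    rw [hcast, AE4_E a hs N κ hadj (T.pow p) _ hdz x hx (κ x), if_pos rfl, AE4_pow_E, hν x hx]
    have := hlast x hx
    have h3 : (θ : ℚ) ≤ (((p : ℤ) * ν x - ∑ j ∈ N, cart a x j * (d j : ℤ) : ℤ) : ℚ) := by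
      exact_mod_cast this
    rw [Int.cast_sub] at h3
    push_cast at h3 ⊢
    exact h3

end

end Pool.Agent.H27.KAC
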