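import Pool.Agent.H41.KA.AE3
import Pool.Agent.H41.KA.AD9

/-!
KAC ADE, module AE5: vanishing for positive effective exponents.

Proof: `TV_eq_zero_of_pow`.  For a large prime `p`, fire `N` from `p ν` down (`fire_down` with `θ = 3`, `TV_fire`) with `v ≥ p solN ν -
const`, `v ≥ 0`.  Then the exponents of `s` at level `l` become `p E(s,l) + ∑ a_sx v_x ≥ p eff_l - const`, so they are natural
numbers and `≥ 1` at the levels with `eff_l > 0`: `TV_van` in direction `s`.
-/

set_option autoImplicit false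

namespace Pool.Agent.H27.KAC

open scoped BigOperators

section

variable {I : Type} [Fintype I] [DecidableEq I]

/-- effective exponent of `s` at level `l` after elimination of `N`. -/
noncomputable def effE (a : I → I → ℕ) (N : Finset I) (κ : I → ℕ) (T : Trm I) (s : I) (l : ℕ) : ℚ :=
  T.E (s, l) + ∑ x ∈ N.filter (fun x => κ x = l), (a s x : ℚ) * solN a N (fun i => T.E (i, κ i)) x

/-- a lower bound for a prime multiple of a positive number. -/
private theorem AE5_large (e c : ℚ) : ∃ P : ℕ, ∀ p : ℕ, P ≤ p → 0 < e → 1 ≤ (p : ℚ) * e - c := by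
  by_cases he : 0 < e
  · obtain ⟨P, hP⟩ := exists_nat_ge ((1 + c) / e)
    refine ⟨P, fun p hp _ => ?_⟩
    have h1 : (1 + c) / e ≤ p := hP.trans (by exact_mod_cast hp)
    rw [div_le_iff₀ he] at h1
    linarith
  · exact ⟨0, fun p _ h => absurd h he⟩

private theorem AE5_unif (F : Finset ℕ) (e c : ℕ → ℚ) :
    ∃ P : ℕ, ∀ p : ℕ, P ≤ p → ∀ l ∈ F, 0 < e l → 1 ≤ (p : ℚ) * e l - c l := by
  choose P hP using fun l => AE5_large (e l) (c l)
  refine ⟨F.sup P, fun p hp l hl hel => hP l p ((Finset.le_sup hl).trans hp) hel⟩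

private theorem AE5_cart (a : I → I → ℕ) {x s : I} (h : x ≠ s) :
    ((cart a x s : ℤ) : ℚ) = -(a x s : ℚ) := by
  unfold cart
  rw [if_neg h]
  push_cast
  ring

/-- the exponents of the neighbour after firing -/
private theorem AE5_exp (a : I → I → ℕ) (hs : ∀ i j, a i j = a j i) (N : Finset I) (κ : I → ℕ)
    (T : Trm I) (s : I) (hsN : s ∉ N) (v : I → ℕ) (hv : ∀ i, i ∉ N → v i = 0) (l : ℕ) :
    (T.etaM a κ (fun i => (v i : ℚ))).E (s, l) =
      T.E (s, l) + ∑ x ∈ N.filter (fun x => κ x = l), (a s x : ℚ) * (v x : ℚ) := by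
  rw [etaM_E, sub_eq_add_neg, ← Finset.sum_neg_distrib]
  congr 1
  have h1 : N.filter (fun x => κ x = l) ⊆ Finset.univ.filter (fun x => κ x = l) :=
    Finset.filter_subset_filter _ (Finset.subset_univ N)
  rw [← Finset.sum_subset h1]
  · refine Finset.sum_congr rfl ?_
    intro x hx
    have hxN : x ∈ N := (Finset.mem_filter.mp hx).1
    have hne : x ≠ s := fun h => hsN (h ▸ hxN)
    rw [AE5_cart a hne, hs s x]
    ring
  · intro x hx hx'
    have hxN : x ∉ N := fun h => hx' (Finset.mem_filter.mpr ⟨h, (Finset.mem_filter.mp hx).2⟩)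
    rw [hv x hxN]
    simp

theorem TV_Z (a : I → I → ℕ) (hs : ∀ i j, a i j = a j i) (N : Finset I) (hN : FinT a N)
    (κ σ : I → ℕ) (hκ : ∀ x ∈ N, 1 ≤ κ x)
    (hadj : ∀ x ∈ N, ∀ y ∈ N, 0 < a x y → κ x = κ y) (hσ : ∀ x ∈ N, Side (κ x) (σ x)) (T : Trm I)
    (h : ∀ x ∈ N, FReg T x (κ x) (σ x)) (s : I) (hsN : s ∉ N) (hss : a s s = 0)
    (hE : ∀ l, 1 ≤ l → IsZ (T.E (s, l)))
    (heff : ∀ l, 1 ≤ l → 0 < effE a N κ T s l ∨ (0 ≤ T.E (s, l) ∧ ∀ j, T.Λ j (s, l) = 0)) :
    TV a T = 0 := by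
  classical
  -- the integral exponents at the firing levels
  have hν0 : ∀ x : I, ∃ z : ℤ, x ∈ N → T.E (x, κ x) = z := by
    intro x
    by_cases hx : x ∈ N
    · obtain ⟨z, hz⟩ := (h x hx).int
      exact ⟨z, fun _ => hz⟩
    · exact ⟨0, fun h' => absurd h' hx⟩
  choose ν hν using hν0
  have hS : solN a N (fun i => T.E (i, κ i)) = solN a N (fun i => (ν i : ℚ)) :=
    solN_congr hs hN _ _ (fun i hi => hν i hi)
  obtain ⟨P, hP⟩ := AE5_unif (T.E.support.image Prod.snd ∪ N.image κ) (effE a N κ T s)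
    (fun l => ∑ x ∈ N.filter (fun x => κ x = l), (a s x : ℚ) * (3 * solN a N (fun _ => 1) x))
  refine TV_eq_zero_of_pow a hs T ⟨1, P, le_rfl, ?_⟩
  intro p hpP hp _
  have hp1 : 1 ≤ p := hp.one_lt.le
  have hp0 : (0 : ℚ) ≤ (p : ℚ) := Nat.cast_nonneg p
  obtain ⟨v, hv1, -, hv2⟩ := fire_down hs hN 3 (by norm_num) (fun x => (p : ℤ) * ν x)
  have hpow : ∀ ik, (T.pow (p : ℚ)).E ik = (p : ℚ) * T.E ik := by
    intro ik
    show ((p : ℚ) • T.E) ik = _
    rw [Finsupp.smul_apply, smul_eq_mul]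
  rw [TV_fire a hs N hN.loopfree κ σ hκ hadj hσ (T.pow p) (fun x hx => (h x hx).pow p hp1)
    (fun x => (p : ℤ) * ν x) (fun x hx => by
      rw [hpow, hν x hx]
      push_cast
      rfl) v hv1]
  have hsol : ∀ x ∈ N, (p : ℚ) * solN a N (fun i => T.E (i, κ i)) x
      - 3 * solN a N (fun _ => 1) x ≤ v x := by
    intro x hx
    have h1 := hv2 x hx
    have h2 : solN a N (fun i => (((p : ℤ) * ν i : ℤ) : ℚ)) x =
        (p : ℚ) * solN a N (fun i => (ν i : ℚ)) x := by
      rw [← solN_smul hs hN]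
      congr 1
      funext i
      push_cast
      rfl
    rw [h2] at h1
    rw [hS]
    push_cast at h1
    exact h1
  -- the exponents of `s`
  have hexp : ∀ l, ((T.pow p).etaM a κ (fun i => (v i : ℚ))).E (s, l) =
      (p : ℚ) * T.E (s, l) + ∑ x ∈ N.filter (fun x => κ x = l), (a s x : ℚ) * (v x : ℚ) := by
    intro l
    rw [AE5_exp a hs N κ _ s hsN v hv1.supp l, hpow]
  have hsum0 : ∀ l, 0 ≤ ∑ x ∈ N.filter (fun x => κ x = l), (a s x : ℚ) * (v x : ℚ) := by
    intro l
    exact Finset.sum_nonneg (fun x _ => mul_nonneg (Nat.cast_nonneg _) (Nat.cast_nonneg _))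
  have hge : ∀ l, 1 ≤ l → 0 < effE a N κ T s l →
      1 ≤ ((T.pow p).etaM a κ (fun i => (v i : ℚ))).E (s, l) := by
    intro l hl heffl
    have hlF : l ∈ T.E.support.image Prod.snd ∪ N.image κ := by
      by_contra hlF
      rw [Finset.mem_union, not_or] at hlF
      have h1 : T.E (s, l) = 0 := by
        by_contra h2
        exact hlF.1 (Finset.mem_image.mpr ⟨(s, l), Finsupp.mem_support_iff.mpr h2, rfl⟩)
      have h2 : N.filter (fun x => κ x = l) = ∅ := by
        rw [Finset.filter_eq_empty_iff]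
        intro x hx hxl
        exact hlF.2 (Finset.mem_image.mpr ⟨x, hx, hxl⟩)
      unfold effE at heffl
      rw [h1, h2, Finset.sum_empty, add_zero] at heffl
      exact lt_irrefl _ heffl
    have h1 := hP p hpP l hlF heffl
    rw [hexp l]
    refine h1.trans ?_
    have h2 : ∑ x ∈ N.filter (fun x => κ x = l), (a s x : ℚ) *
        ((p : ℚ) * solN a N (fun i => T.E (i, κ i)) x - 3 * solN a N (fun _ => 1) x) ≤
        ∑ x ∈ N.filter (fun x => κ x = l), (a s x : ℚ) * (v x : ℚ) := by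
      refine Finset.sum_le_sum ?_
      intro x hx
      exact mul_le_mul_of_nonneg_left (hsol x (Finset.mem_filter.mp hx).1) (Nat.cast_nonneg _)
    have h3 : ∑ x ∈ N.filter (fun x => κ x = l), (a s x : ℚ) *
        ((p : ℚ) * solN a N (fun i => T.E (i, κ i)) x - 3 * solN a N (fun _ => 1) x) =
        (p : ℚ) * ∑ x ∈ N.filter (fun x => κ x = l),
          (a s x : ℚ) * solN a N (fun i => T.E (i, κ i)) x -
        ∑ x ∈ N.filter (fun x => κ x = l), (a s x : ℚ) * (3 * solN a N (fun _ => 1) x) := by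
      rw [Finset.mul_sum, ← Finset.sum_sub_distrib]
      refine Finset.sum_congr rfl ?_
      intro x _
      ring
    rw [h3] at h2
    unfold effE
    rw [mul_add]
    linarith
  have hint : ∀ l, 1 ≤ l → IsZ (((T.pow p).etaM a κ (fun i => (v i : ℚ))).E (s, l)) := by
    intro l hl
    obtain ⟨z, hz⟩ := hE l hl
    rw [hexp l, hz]
    refine ⟨(p : ℤ) * z + ∑ x ∈ N.filter (fun x => κ x = l), (a s x : ℤ) * (v x : ℤ), ?_⟩
    push_cast
    rfl
  refine TV_van a hs _ s hss ⟨?_, ?_⟩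
  · intro l hl
    have h0 : 0 ≤ ((T.pow p).etaM a κ (fun i => (v i : ℚ))).E (s, l) := by
      rcases heff l hl with h1 | h1
      · exact zero_le_one.trans (hge l hl h1)
      · rw [hexp l]
        exact add_nonneg (mul_nonneg hp0 h1.1) (hsum0 l)
    obtain ⟨z, hz⟩ := hint l hl
    rw [hz] at h0 ⊢
    have h1 : 0 ≤ z := by exact_mod_cast h0
    obtain ⟨n, rfl⟩ := Int.eq_ofNat_of_zero_le h1
    exact ⟨n, by push_cast; rfl⟩
  · intro j l hl hne
    rcases heff l hl with h1 | h1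
    · exact hge l hl h1
    · exact absurd (h1.2 j) hne

end

end Pool.Agent.H27.KAC
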