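import Pool.Agent.H41.KA.AE4

/-!
KAC ADE, module AE6: the columns `θ_y`, `y ∈ N`, may be removed.

Proof of `TV_T0`: `TV_eq_zero_of_pow`, `TV_large` with `θ = 3`: so one may assume `3 ≤ E(y,k)`, `k = κ y`.  Write
`T = T0.mulE (2 • sy y k)`, column `j` is `cE y k = A - B` with `A = 2 • sy y k`, `B = A - cE y k`.  By `TV_relD` and `TV_rel`
`[A; A] - [A; B] = [B; B] + [C; C] - [B; B] - [C; B] = [C; C - B]`, `C = sy y (k+1) + sy y (k-1)`, and the last term vanishes by
`TV_van` in direction `y`.
-/

set_option autoImplicit false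

namespace Pool.Agent.H27.KAC

open scoped BigOperators

section

variable {I : Type} [Fintype I] [DecidableEq I]

private theorem AE6_sy (i j : I) (k l : ℕ) :
    (sy i k : QE I) (j, l) = if i = j ∧ k = l then 1 else 0 := by
  rw [sy, Finsupp.single_apply]
  simp only [Prod.mk.injEq]

private theorem AE6_sub_add (E F : QE I) : E - F + F = E := sub_add_cancel E F

theorem TV_T0_large (a : I → I → ℕ) (hs : ∀ i j, a i j = a j i) (T : Trm I) (y : I)
    (hy : a y y = 0) (k σ : ℕ) (hk : 1 ≤ k) (hσ : Side k σ) (h : FReg T y k σ)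
    (hE : 3 ≤ T.E (y, k)) (j : I) (hj : T.Λ j = cE a y k) : TV a T = 0 := by
  set A : QE I := (2 : ℚ) • sy y k with hA
  set B : QE I := (2 : ℚ) • sy y k - cE a y k with hB
  set C : QE I := sy y (k + 1) + sy y (k - 1) with hC
  set T0 : Trm I := ⟨T.γ, T.E - A, T.Λ⟩ with hT0
  have hT : T = (T0.mulE A) := by
    ext1
    · rfl
    · exact (AE6_sub_add T.E A).symm
    · rfl
  -- split of the column
  have h1 : TV a T = TV a ((T0.mulE A).col j A) - TV a ((T0.mulE A).col j B) := by
    have e1 : TV a T = TV a ((T0.mulE A).col j (cE a y k)) := by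
      rw [← hj]
      conv_lhs => rw [hT]
      exact (TV_col_self a (T0.mulE A) j).symm
    have e2 : A = B + cE a y k := by
      rw [hB, hA]
      exact (AE6_sub_add _ _).symm
    have e3 : TV a ((T0.mulE A).col j A) =
        TV a ((T0.mulE A).col j B) + TV a ((T0.mulE A).col j (cE a y k)) := by
      rw [← TV_col_add, ← e2]
    rw [e1, e3]
    ring
  have h2 := TV_relD a hs T0 j y k hk
  rw [← hA, ← hB, ← hC] at h2
  have h3 : TV a ((T0.mulE A).col j B) =
      TV a (((T0.mulE A).eta a k (Pi.single y 1)).col j B) + TV a ((T0.mulE C).col j B) := by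
    have := TV_rel a hs (T0.col j B) y k hk
    rw [← hA, ← hC] at this
    exact this
  have h4 : TV a ((T0.mulE C).col j C) = TV a ((T0.mulE C).col j B) +
      TV a ((T0.mulE C).col j (C - B)) := by
    rw [← TV_col_add]
    congr 2
    exact (add_sub_cancel B C).symm
  have h5 : TV a ((T0.mulE C).col j (C - B)) = 0 := by
    apply TV_van a hs _ y hy
    -- exponents
    have hEx : ∀ l, ((T0.mulE C).col j (C - B)).E (y, l) =
        T.E (y, l) - (if k = l then 2 else 0) + ((if k + 1 = l then 1 else 0) +
          (if k - 1 = l then 1 else 0)) := by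
      intro l
      change (T.E - A + C) (y, l) = _
      rw [Finsupp.add_apply, Finsupp.sub_apply, hA, hC, Finsupp.smul_apply, Finsupp.add_apply,
        AE6_sy, AE6_sy, AE6_sy]
      simp
    have hkE : ∃ n : ℕ, 3 ≤ n ∧ T.E (y, k) = n := by
      obtain ⟨n, hn⟩ := h.int
      rw [hn] at hE
      have hn3 : (3 : ℤ) ≤ n := by exact_mod_cast hE
      obtain ⟨m, rfl⟩ : ∃ m : ℕ, n = m := ⟨n.toNat, by omega⟩
      exact ⟨m, by omega, by rw [hn]; simp⟩
    have hval : ∀ l, 1 ≤ l → ∃ n : ℕ, ((T0.mulE C).col j (C - B)).E (y, l) = n ∧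
        ((l = k ∨ l = k + 1 ∨ l + 1 = k) → 1 ≤ n) ∧ (1 ≤ T.E (y, l) → 1 ≤ n) := by
      intro l hl
      rw [hEx]
      by_cases hlk : l = k
      · subst hlk
        obtain ⟨n, hn3, hn⟩ := hkE
        refine ⟨n - 2, ?_, fun _ => by omega, fun _ => by omega⟩
        rw [hn, if_pos rfl, if_neg (by omega), if_neg (by omega), Nat.cast_sub (by omega)]
        push_cast
        ring
      · obtain ⟨n, hn⟩ := h.nat l hl hlk
        rw [hn, if_neg (fun h => hlk h.symm)]
        by_cases h1 : k + 1 = l
        · refine ⟨n + 1, ?_, fun _ => by omega, fun _ => by omega⟩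
          rw [if_pos h1, if_neg (by omega)]
          push_cast
          ring
        · by_cases h2 : k - 1 = l
          · refine ⟨n + 1, ?_, fun _ => by omega, fun _ => by omega⟩
            rw [if_neg h1, if_pos h2]
            push_cast
            ring
          · refine ⟨n, ?_, fun h => ?_, fun h => ?_⟩
            · rw [if_neg h1, if_neg h2]
              ring
            · omega
            · exact_mod_cast h
    refine ⟨fun l hl => ?_, fun i l hl hne => ?_⟩
    · obtain ⟨n, hn, _⟩ := hval l hl
      exact ⟨n, hn⟩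
    · obtain ⟨n, hn, hn1, hn2⟩ := hval l hl
      rw [hn]
      have key : 1 ≤ n := by
        by_cases hij : i = j
        · subst hij
          have hne' : (C - B) (y, l) ≠ 0 := by
            have : ((T0.mulE C).col i (C - B)).Λ i = C - B := Function.update_self _ _ _
            rwa [this] at hne
          by_contra hc
          apply hne'
          have hl3 : ¬ (l = k ∨ l = k + 1 ∨ l + 1 = k) := fun h => hc (hn1 h)
          push Not at hl3
          rw [Finsupp.sub_apply, hB, Finsupp.sub_apply, hC, Finsupp.smul_apply, Finsupp.add_apply,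
            AE6_sy, AE6_sy, AE6_sy, cE_apply, if_neg (by omega), if_neg (by omega),
            if_neg (by omega), if_neg (by omega)]
          simp
        · have hne' : T.Λ i (y, l) ≠ 0 := by
            have : ((T0.mulE C).col j (C - B)).Λ i = T.Λ i := Function.update_of_ne hij _ _
            rwa [this] at hne
          rcases h.col i l hl hne' with h6 | h6 | h6
          · apply hn1
            rcases hσ with h7 | h7
            · right; left; omega
            · right; right; omega
          · exact hn1 (Or.inl h6)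
          · exact hn2 h6
      exact_mod_cast key
  linarith

theorem TV_T0 (a : I → I → ℕ) (hs : ∀ i j, a i j = a j i) (N : Finset I) (hN : FinT a N)
    (κ σ : I → ℕ) (hκ : ∀ x ∈ N, 1 ≤ κ x)
    (hadj : ∀ x ∈ N, ∀ y ∈ N, 0 < a x y → κ x = κ y) (hσ : ∀ x ∈ N, Side (κ x) (σ x)) (T : Trm I)
    (h : ∀ x ∈ N, FReg T x (κ x) (σ x))
    (h1 : ∀ x ∈ N, 0 < solN a N (fun i => T.E (i, κ i)) x)
    (y : I) (hy : y ∈ N) (j : I) (hj : T.Λ j = cE a y (κ y)) : TV a T = 0 := by
  obtain ⟨P, hP⟩ := TV_large a hs N hN κ σ hκ hadj hσ T h h1 3 le_rfl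
  refine TV_eq_zero_of_pow a hs T ⟨1, P, le_rfl, fun p hp _ _ => ?_⟩
  obtain ⟨d, _, h2, h3, h4⟩ := hP p hp
  rw [h2]
  refine TV_T0_large a hs _ y (hN.loopfree y hy) (κ y) (σ y) (hκ y hy) (hσ y hy) (h3 y hy) ?_ j ?_
  · have := h4 y hy
    exact_mod_cast this
  · exact hj

/-- effective column: `θ_x` plus the combination of the `θ_y`, `y ∈ N`, which removes all symbols `(y,k)`, `y ∈ N`. -/
noncomputable def thE (a : I → I → ℕ) (N : Finset I) (k : ℕ) (x : I) : QE I :=
  cE a x k + ∑ y ∈ N, solN a N (fun i => (a i x : ℚ)) y • cE a y k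

private theorem AE6_thE_apply (a : I → I → ℕ) (N : Finset I) (k : ℕ) (x i : I) (l : ℕ) :
    thE a N k x (i, l) = if l = k then ((cart a x i : ℤ) : ℚ) +
      ∑ y ∈ N, solN a N (fun i => (a i x : ℚ)) y * ((cart a y i : ℤ) : ℚ) else 0 := by
  unfold thE
  rw [Finsupp.add_apply, Finsupp.finset_sum_apply, cE_apply]
  by_cases hl : l = k
  · rw [if_pos hl, if_pos hl]
    congr 1
    refine Finset.sum_congr rfl fun y _ => ?_
    rw [Finsupp.smul_apply, cE_apply, if_pos hl, smul_eq_mul]
  · rw [if_neg hl, if_neg hl, zero_add]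
    refine Finset.sum_eq_zero fun y _ => ?_
    rw [Finsupp.smul_apply, cE_apply, if_neg hl, smul_zero]

private theorem AE6_cart_symm {a : I → I → ℕ} (hs : ∀ i j, a i j = a j i) (i j : I) :
    cart a i j = cart a j i := by
  unfold cart
  rw [hs i j]
  by_cases h : i = j
  · rw [if_pos h, if_pos h.symm]
  · rw [if_neg h, if_neg (fun h' => h h'.symm)]

private theorem AE6_cart_ne (a : I → I → ℕ) {i j : I} (h : i ≠ j) :
    cart a i j = -(a i j : ℤ) := by
  unfold cart
  rw [if_neg h]
  ring

theorem thE_apply_mem {a : I → I → ℕ} (hs : ∀ i j, a i j = a j i) {N : Finset I} (hN : FinT a N)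
    (k : ℕ) (x y : I) (hx : x ∉ N) (hy : y ∈ N) (l : ℕ) : thE a N k x (y, l) = 0 := by
  rw [AE6_thE_apply]
  by_cases hl : l = k
  · rw [if_pos hl]
    have h1 := solN_spec hs hN (fun i => (a i x : ℚ)) y hy
    unfold cqN at h1
    have h2 : ∑ z ∈ N, solN a N (fun i => (a i x : ℚ)) z * ((cart a z y : ℤ) : ℚ) =
        ∑ z ∈ N, ((cart a y z : ℤ) : ℚ) * solN a N (fun i => (a i x : ℚ)) z := by
      refine Finset.sum_congr rfl fun z _ => ?_
      rw [AE6_cart_symm hs z y, mul_comm]
    rw [h2, h1, AE6_cart_ne a (fun h => hx (h ▸ hy) : x ≠ y), hs x y]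
    push_cast
    ring
  · rw [if_neg hl]

/-- the effective Cartan matrix `C_ix - a_iN C_N^{-1} a_Nx`. -/
noncomputable def cEff (a : I → I → ℕ) (N : Finset I) (i x : I) : ℚ :=
  (cart a i x : ℚ) - ∑ y ∈ N, (a i y : ℚ) * solN a N (fun l => (a l x : ℚ)) y

theorem thE_apply {a : I → I → ℕ} (hs : ∀ i j, a i j = a j i) {N : Finset I} (hN : FinT a N)
    (k : ℕ) (x i : I) (hx : x ∉ N) (hi : i ∉ N) (l : ℕ) :
    thE a N k x (i, l) = if l = k then cEff a N i x else 0 := by
  rw [AE6_thE_apply]
  by_cases hl : l = k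
  · rw [if_pos hl, if_pos hl]
    unfold cEff
    rw [AE6_cart_symm hs x i, sub_eq_add_neg, ← Finset.sum_neg_distrib]
    congr 1
    refine Finset.sum_congr rfl fun y hy => ?_
    rw [AE6_cart_ne a (fun h => hi (h ▸ hy) : y ≠ i), hs y i]
    push_cast
    ring
  · rw [if_neg hl, if_neg hl]

private theorem AE6_thE_lev (a : I → I → ℕ) (N : Finset I) (k : ℕ) (x i : I) (l : ℕ)
    (h : thE a N k x (i, l) ≠ 0) : l = k := by
  by_contra hc
  apply h
  rw [AE6_thE_apply, if_neg hc]

private theorem AE6_cE_lev (a : I → I → ℕ) (k : ℕ) (x i : I) (l : ℕ)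
    (h : cE a x k (i, l) ≠ 0) : l = k := by
  by_contra hc
  apply h
  rw [cE_apply, if_neg hc]

/-- replacement of `θ_x` by the effective column in several columns at once. -/
theorem TV_thE (a : I → I → ℕ) (hs : ∀ i j, a i j = a j i) (N : Finset I) (hN : FinT a N)
    (k : ℕ) (hk : 1 ≤ k) (σ : I → ℕ) (hσ : ∀ x ∈ N, Side k (σ x)) (M : Finset I)
    (hMN : Disjoint M N) (T : Trm I) (h : ∀ x ∈ N, FReg T x k (σ x))
    (h1 : ∀ x ∈ N, 0 < solN a N (fun i => T.E (i, k)) x)
    (hM : ∀ x ∈ M, T.Λ x = cE a x k) :
    TV a T = TV a (T.cols M (fun x => thE a N k x)) := by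
  clear hMN
  induction M using Finset.induction_on with
  | empty =>
    congr 1
  | insert x S hxS ih =>
    have ih' := ih fun z hz => hM z (Finset.mem_insert_of_mem hz)
    rw [ih']
    set T' : Trm I := T.cols S (fun x => thE a N k x) with hT'
    have hΛx : T'.Λ x = cE a x k := by
      have : T'.Λ x = T.Λ x := if_neg hxS
      rw [this]
      exact hM x (Finset.mem_insert_self _ _)
    have e1 : T.cols (insert x S) (fun x => thE a N k x) = T'.col x (thE a N k x) := by
      ext1
      · rfl
      · rfl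
      · funext i
        change (if i ∈ insert x S then thE a N k i else T.Λ i) =
          Function.update T'.Λ x (thE a N k x) i
        by_cases hix : i = x
        · subst hix
          rw [Function.update_self, if_pos (Finset.mem_insert_self _ _)]
        · rw [Function.update_of_ne hix]
          change _ = (if i ∈ S then thE a N k i else T.Λ i)
          by_cases hiS : i ∈ S
          · rw [if_pos (Finset.mem_insert_of_mem hiS), if_pos hiS]
          · rw [if_neg (fun h => by
              rcases Finset.mem_insert.1 h with h | h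
              · exact hix h
              · exact hiS h), if_neg hiS]
    rw [e1]
    have e2 : TV a (T'.col x (thE a N k x)) = TV a T' +
        ∑ y ∈ N, solN a N (fun i => (a i x : ℚ)) y * TV a (T'.col x (cE a y k)) := by
      have h2 : thE a N k x = cE a x k + ∑ y ∈ N, solN a N (fun i => (a i x : ℚ)) y • cE a y k :=
        rfl
      rw [h2, TV_col_add, TV_col_sum]
      congr 1
      · rw [← hΛx]
        exact TV_col_self a T' x
      · exact Finset.sum_congr rfl fun y _ => TV_col_smul a T' x _ _
    rw [e2]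
    have e3 : ∀ y ∈ N, TV a (T'.col x (cE a y k)) = 0 := by
      intro y hy
      refine TV_T0 a hs N hN (fun _ => k) σ (fun _ _ => hk) (fun _ _ _ _ _ => rfl) hσ _ ?_ ?_ y hy
        x ?_
      · intro z hz
        refine ⟨(h z hz).nat, (h z hz).int, ?_⟩
        intro i l hl hne
        by_cases hix : i = x
        · subst hix
          have h3 : (T'.col i (cE a y k)).Λ i = cE a y k := Function.update_self _ _ _
          rw [h3] at hne
          exact Or.inr (Or.inl (AE6_cE_lev a k y z l hne))
        · have h3 : (T'.col x (cE a y k)).Λ i = if i ∈ S then thE a N k i else T.Λ i :=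
            Function.update_of_ne hix _ _
          rw [h3] at hne
          by_cases hiS : i ∈ S
          · rw [if_pos hiS] at hne
            exact Or.inr (Or.inl (AE6_thE_lev a N k i z l hne))
          · rw [if_neg hiS] at hne
            exact (h z hz).col i l hl hne
      · exact h1
      · exact Function.update_self _ _ _
    rw [Finset.sum_eq_zero fun y hy => by rw [e3 y hy, mul_zero], add_zero]

end

end Pool.Agent.H27.KAC
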