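import Pool.Agent.H41.KA.AE7
import Pool.Agent.H41.KA.AE5
import Pool.Agent.H41.KA.AE6

/-!
KAC ADE, module AE8: vanishing of raw terms.

Notation: `M = {x ∈ R : m x ≠ 0}`, `N = R ∖ M`, `δ = m - q` on `M`, `δ_N = C_N^{-1} a_NM δ_M`.  The raw term has on `N` the
exponents `ν = E_T(·,k) + C_R q + a_NM m` (on `N`), so `solN ν = q + δ + solN (E_T)`; the effective exponent of `s ∈ M` at level `k` is
`E_T(s,k) + a_sN solN(E_T) - (C_R δ)_s`.

* `raw_sign`: if the value is not zero, then `(C_R δ)_s ≥ E_T(s,k) + a_sN solN(E_T)` for all `s ∈ M`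
  (`TV_Z` in direction `s`, `N` at level `k` with side `k - 1`; the exponents at the other levels are natural, the columns
  `(s,l)`, `l ≠ k`, are compensated).
* `raw_pos`: if `R` is connected, `m` is not a plateau and the value is not zero, then `δ_x > 0` for all `x ∈ M`
  (`C_R δ ≥ 0` on `R`, not zero: `FinT.pos_of_conn`).
* `plat_kink`: if `R` is connected, `T` has a kink at level `k` in `R`, `m` is a plateau and `M ≠ ∅`, then the value is zero: some
  `s ∈ M` has positive effective exponent.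
-/

set_option autoImplicit false

namespace Pool.Agent.H27.KAC

open scoped BigOperators

section

variable {I : Type} [Fintype I] [DecidableEq I]

theorem AE8_cart_comm {a : I → I → ℕ} (hs : ∀ i j, a i j = a j i) (i j : I) :
    cart a i j = cart a j i := by
  unfold cart
  rw [hs i j]
  by_cases h : i = j
  · rw [if_pos h, if_pos h.symm]
  · rw [if_neg h, if_neg (fun h' => h h'.symm)]

theorem AE8_cart_ne (a : I → I → ℕ) {i j : I} (h : i ≠ j) : ((cart a i j : ℤ) : ℚ) = -(a i j : ℚ) := by
  unfold cart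
  rw [if_neg h]
  push_cast
  ring

/-- exponents of a raw term. -/
theorem AE8_rawE (a : I → I → ℕ) (hs : ∀ i j, a i j = a j i) (R : Finset I) (k : ℕ) (q : I → ℚ)
    (m : I → ℕ) (T : Trm I) (i : I) (l : ℕ) :
    (rawT a R k q m T).E (i, l) =
      T.E (i, l) - (if l = k then cqN a R (fun x => (m x : ℚ) - q x) i else 0) := by
  have h1 : (rawT a R k q m T).E =
      (T.eta a k (fun i => if i ∈ R then (m i : ℚ) - q i else 0)).E := rfl
  rw [h1, eta_eq_etaM, etaM_E]
  congr 1
  by_cases h : l = k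
  · rw [if_pos h]
    subst h
    rw [Finset.filter_true_of_mem (fun _ _ => rfl)]
    unfold cqN
    simp only [ite_mul, zero_mul]
    rw [← Finset.sum_filter, Finset.filter_mem_eq_inter, Finset.univ_inter]
    refine Finset.sum_congr rfl fun x _ => ?_
    rw [AE8_cart_comm hs x i, mul_comm]
  · rw [if_neg h, Finset.filter_false_of_mem (fun _ _ => fun h' => h h'.symm), Finset.sum_empty]

theorem AE8_cE_ne (a : I → I → ℕ) (x i : I) {k l : ℕ} (h : l ≠ k) : cE a x k (i, l) = 0 := by
  unfold cE
  rw [Finsupp.finsetSum_apply]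
  refine Finset.sum_eq_zero fun j _ => ?_
  rw [Finsupp.smul_apply, Finsupp.single_apply, if_neg, smul_zero]
  intro h'
  exact h (Prod.ext_iff.1 h').2.symm

theorem AE8_raw_col (a : I → I → ℕ) (R : Finset I) (k : ℕ) (q : I → ℚ) (m : I → ℕ) (T : Trm I)
    (j : I) : (rawT a R k q m T).Λ j =
      if j ∈ R then (if m j = 0 then sy j (k - 1) else cE a j k) else T.Λ j := rfl

theorem AE8_cqN_int (a : I → I → ℕ) (R : Finset I) (m : I → ℕ) (i : I) :
    cqN a R (fun x => (m x : ℚ)) i = ((∑ x ∈ R, cart a i x * (m x : ℤ) : ℤ) : ℚ) := by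
  unfold cqN
  push_cast
  rfl

theorem AE8_cqN_sub (a : I → I → ℕ) (R : Finset I) (v w : I → ℚ) (i : I) :
    cqN a R (fun x => v x - w x) i = cqN a R v i - cqN a R w i := by
  unfold cqN
  rw [← Finset.sum_sub_distrib]
  exact Finset.sum_congr rfl fun x _ => mul_sub _ _ _

theorem AE8_raw_int (a : I → I → ℕ) (hs : ∀ i j, a i j = a j i) (R : Finset I) (k : ℕ) (q : I → ℚ)
    (hq : QOk a R q) (T : Trm I) (hT : RReg R T) (m : I → ℕ) (x : I) (hx : x ∈ R) (l : ℕ)
    (hl : 1 ≤ l) : IsZ ((rawT a R k q m T).E (x, l)) := by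
  rw [AE8_rawE a hs]
  obtain ⟨n, hn⟩ := hT.nat x hx l hl
  by_cases h : l = k
  · rw [if_pos h, AE8_cqN_sub, AE8_cqN_int]
    obtain ⟨n', -, hn'⟩ := hq x hx
    rw [hn, hn']
    refine ⟨(n : ℤ) - (∑ y ∈ R, cart a x y * (m y : ℤ) - (n' : ℤ)), ?_⟩
    push_cast
    rfl
  · rw [if_neg h, hn]
    exact ⟨(n : ℤ), by push_cast; ring⟩

theorem AE8_FReg (a : I → I → ℕ) (hs : ∀ i j, a i j = a j i) (R : Finset I) (k : ℕ) (hk : 1 ≤ k)
    (q : I → ℚ) (hq : QOk a R q) (T : Trm I) (hT : RReg R T) (m : I → ℕ) (x : I) (hx : x ∈ R) :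
    FReg (rawT a R k q m T) x k (k - 1) := by
  refine ⟨fun l hl hlk => ?_, AE8_raw_int a hs R k q hq T hT m x hx k hk, fun j l hl hne => ?_⟩
  · rw [AE8_rawE a hs, if_neg hlk, sub_zero]
    exact hT.nat x hx l hl
  · by_cases hlk : l = k
    · exact Or.inr (Or.inl hlk)
    · rw [AE8_raw_col] at hne
      by_cases hj : j ∈ R
      · rw [if_pos hj] at hne
        by_cases hm : m j = 0
        · rw [if_pos hm, Finsupp.single_apply] at hne
          left
          by_contra h
          apply hne
          rw [if_neg]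
          intro h'
          exact h (Prod.ext_iff.1 h').2.symm
        · rw [if_neg hm] at hne
          exact absurd (AE8_cE_ne a j x hlk) hne
      · rw [if_neg hj] at hne
        right
        right
        rw [AE8_rawE a hs, if_neg hlk, sub_zero]
        exact hT.col x hx j hj l hl hne

/-- effective exponent of the outer vertex or of a vertex of `M`: general vanishing statement for raw terms in a
direction `s` which is not in `N = {x ∈ R : m x = 0}`. -/
theorem raw_Z (a : I → I → ℕ) (hs : ∀ i j, a i j = a j i) (R : Finset I) (hR : FinT a R)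
    (k : ℕ) (hk : 1 ≤ k) (q : I → ℚ) (hq : QOk a R q) (T : Trm I) (hT : RReg R T)
    (m : I → ℕ) (s : I) (hs1 : s ∈ R) (hs2 : m s ≠ 0)
    (heff : 0 < effE a (R.filter (fun x => m x = 0)) (fun _ => k) (rawT a R k q m T) s k) :
    TV a (rawT a R k q m T) = 0 := by
  refine TV_Z a hs (R.filter (fun x => m x = 0)) (hR.mono (Finset.filter_subset _ _))
    (fun _ => k) (fun _ => k - 1) (fun _ _ => hk) (fun _ _ _ _ _ => rfl)
    (fun _ _ => Or.inr (Nat.sub_add_cancel hk)) _ ?_ s ?_ (hR.loopfree s hs1) ?_ ?_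
  · intro x hx
    exact AE8_FReg a hs R k hk q hq T hT m x (Finset.mem_filter.1 hx).1
  · intro h
    exact hs2 (Finset.mem_filter.1 h).2
  · intro l hl
    exact AE8_raw_int a hs R k q hq T hT m s hs1 l hl
  · intro l hl
    by_cases hlk : l = k
    · left
      rw [hlk]
      exact heff
    · have hE : (rawT a R k q m T).E (s, l) = T.E (s, l) := by
        rw [AE8_rawE a hs, if_neg hlk, sub_zero]
      obtain ⟨n, hn⟩ := hT.nat s hs1 l hl
      by_cases hn0 : n = 0
      · right
        refine ⟨by rw [hE, hn]; exact Nat.cast_nonneg n, fun j => ?_⟩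
        rw [AE8_raw_col]
        by_cases hj : j ∈ R
        · rw [if_pos hj]
          by_cases hm : m j = 0
          · rw [if_pos hm, Finsupp.single_apply, if_neg]
            intro h'
            have h1 : j = s := (Prod.ext_iff.1 h').1
            exact hs2 (h1 ▸ hm)
          · rw [if_neg hm]
            exact AE8_cE_ne a j s hlk
        · rw [if_neg hj]
          by_contra hne
          have h1 := hT.col s hs1 j hj l hl hne
          rw [hn, hn0] at h1
          norm_num at h1
      · left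
        unfold effE
        rw [Finset.filter_false_of_mem (fun _ _ => fun h' => hlk h'.symm), Finset.sum_empty,
          add_zero, hE, hn]
        exact_mod_cast Nat.pos_of_ne_zero hn0

/-- the vector `δ`: `m - q` on `M`, harmonic on `N`. -/
noncomputable def AE8_del (a : I → I → ℕ) (R : Finset I) (q : I → ℚ) (m : I → ℕ) (x : I) : ℚ :=
  if m x = 0 then solN a (R.filter (fun x => m x = 0))
    (fun i => ∑ y ∈ R.filter (fun x => ¬ m x = 0), (a i y : ℚ) * ((m y : ℚ) - q y)) x
  else (m x : ℚ) - q x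

theorem AE8_split (R : Finset I) (m : I → ℕ) (f : I → ℚ) :
    ∑ x ∈ R, f x = ∑ x ∈ R.filter (fun x => m x = 0), f x +
      ∑ x ∈ R.filter (fun x => ¬ m x = 0), f x :=
  (Finset.sum_filter_add_sum_filter_not R (fun x => m x = 0) f).symm

theorem AE8_del_N (a : I → I → ℕ) (hs : ∀ i j, a i j = a j i) (R : Finset I) (hR : FinT a R)
    (q : I → ℚ) (m : I → ℕ) (i : I) (hi : i ∈ R) (hm : m i = 0) :
    cqN a R (AE8_del a R q m) i = 0 := by
  have hN : FinT a (R.filter (fun x => m x = 0)) := hR.mono (Finset.filter_subset _ _)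
  have h1 := solN_spec hs hN
    (fun i => ∑ y ∈ R.filter (fun x => ¬ m x = 0), (a i y : ℚ) * ((m y : ℚ) - q y)) i
    (Finset.mem_filter.2 ⟨hi, hm⟩)
  unfold cqN at h1 ⊢
  rw [AE8_split R m]
  have h2 : ∑ x ∈ R.filter (fun x => m x = 0), ((cart a i x : ℤ) : ℚ) * AE8_del a R q m x =
      ∑ y ∈ R.filter (fun x => ¬ m x = 0), (a i y : ℚ) * ((m y : ℚ) - q y) := by
    rw [← h1]
    refine Finset.sum_congr rfl fun x hx => ?_
    unfold AE8_del
    rw [if_pos (Finset.mem_filter.1 hx).2]
  have h3 : ∑ x ∈ R.filter (fun x => ¬ m x = 0), ((cart a i x : ℤ) : ℚ) * AE8_del a R q m x =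
      -∑ y ∈ R.filter (fun x => ¬ m x = 0), (a i y : ℚ) * ((m y : ℚ) - q y) := by
    rw [← Finset.sum_neg_distrib]
    refine Finset.sum_congr rfl fun x hx => ?_
    have hx2 := (Finset.mem_filter.1 hx).2
    have hix : i ≠ x := fun h => hx2 (h ▸ hm)
    unfold AE8_del
    rw [if_neg hx2, AE8_cart_ne a hix]
    ring
  rw [h2, h3]
  ring

theorem AE8_eff (a : I → I → ℕ) (hs : ∀ i j, a i j = a j i) (R : Finset I) (hR : FinT a R)
    (k : ℕ) (q : I → ℚ) (T : Trm I) (m : I → ℕ) (s : I) (hs2 : m s ≠ 0) :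
    effE a (R.filter (fun x => m x = 0)) (fun _ => k) (rawT a R k q m T) s k =
      T.E (s, k) + ∑ x ∈ R.filter (fun x => m x = 0), (a s x : ℚ) *
        solN a (R.filter (fun x => m x = 0)) (fun i => T.E (i, k)) x -
      cqN a R (AE8_del a R q m) s := by
  have hN : FinT a (R.filter (fun x => m x = 0)) := hR.mono (Finset.filter_subset _ _)
  set N := R.filter (fun x => m x = 0) with hNdef
  set M := R.filter (fun x => ¬ m x = 0) with hMdef
  set δN : I → ℚ := solN a N (fun i => ∑ y ∈ M, (a i y : ℚ) * ((m y : ℚ) - q y)) with hδN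
  have hw : ∀ i ∈ N, solN a N (fun i => T.E (i, k)) i + q i + δN i =
      solN a N (fun i => (rawT a R k q m T).E (i, k)) i := by
    refine solN_unique hs hN _ (fun i => solN a N (fun i => T.E (i, k)) i + q i + δN i) ?_
    intro i hi
    have hi2 : m i = 0 := (Finset.mem_filter.1 hi).2
    have e1 := solN_spec hs hN (fun i => T.E (i, k)) i hi
    have e2 := solN_spec hs hN (fun i => ∑ y ∈ M, (a i y : ℚ) * ((m y : ℚ) - q y)) i hi
    rw [AE8_rawE a hs, if_pos rfl]
    have e3 : cqN a R (fun x => (m x : ℚ) - q x) i = -cqN a N q i -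
        ∑ y ∈ M, (a i y : ℚ) * ((m y : ℚ) - q y) := by
      unfold cqN
      rw [AE8_split R m, ← hNdef, ← hMdef, ← Finset.sum_neg_distrib, sub_eq_add_neg,
        ← Finset.sum_neg_distrib]
      congr 1
      · refine Finset.sum_congr rfl fun x hx => ?_
        beta_reduce
        rw [(Finset.mem_filter.1 hx).2]
        push_cast
        ring
      · refine Finset.sum_congr rfl fun x hx => ?_
        have hx2 := (Finset.mem_filter.1 hx).2
        have hix : i ≠ x := fun h => hx2 (h ▸ hi2)
        rw [AE8_cart_ne a hix]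
        ring
    have e4 : cqN a N (fun i => solN a N (fun i => T.E (i, k)) i + q i + δN i) i =
        cqN a N (solN a N (fun i => T.E (i, k))) i + cqN a N q i + cqN a N δN i := by
      unfold cqN
      rw [← Finset.sum_add_distrib, ← Finset.sum_add_distrib]
      refine Finset.sum_congr rfl fun x _ => ?_
      ring
    rw [e4, e1, e2, e3]
    ring
  have e5 : cqN a R (fun x => (m x : ℚ) - q x) s =
      ∑ x ∈ N, (a s x : ℚ) * q x + ∑ x ∈ M, ((cart a s x : ℤ) : ℚ) * ((m x : ℚ) - q x) := by
    unfold cqN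
    rw [AE8_split R m, ← hNdef, ← hMdef]
    congr 1
    refine Finset.sum_congr rfl fun x hx => ?_
    have hx2 := (Finset.mem_filter.1 hx).2
    have hsx : s ≠ x := fun h => hs2 (h ▸ hx2)
    beta_reduce
    rw [AE8_cart_ne a hsx, hx2]
    push_cast
    ring
  have e6 : cqN a R (AE8_del a R q m) s =
      -∑ x ∈ N, (a s x : ℚ) * δN x + ∑ x ∈ M, ((cart a s x : ℤ) : ℚ) * ((m x : ℚ) - q x) := by
    unfold cqN
    rw [AE8_split R m, ← hNdef, ← hMdef, ← Finset.sum_neg_distrib]
    congr 1
    · refine Finset.sum_congr rfl fun x hx => ?_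
      have hx2 := (Finset.mem_filter.1 hx).2
      have hsx : s ≠ x := fun h => hs2 (h ▸ hx2)
      rw [AE8_cart_ne a hsx]
      unfold AE8_del
      rw [if_pos hx2]
      ring
    · refine Finset.sum_congr rfl fun x hx => ?_
      unfold AE8_del
      rw [if_neg (Finset.mem_filter.1 hx).2]
  have e7 : ∑ x ∈ N, (a s x : ℚ) * solN a N (fun i => (rawT a R k q m T).E (i, k)) x =
      ∑ x ∈ N, (a s x : ℚ) * solN a N (fun i => T.E (i, k)) x + ∑ x ∈ N, (a s x : ℚ) * q x +
        ∑ x ∈ N, (a s x : ℚ) * δN x := by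
    rw [← Finset.sum_add_distrib, ← Finset.sum_add_distrib]
    refine Finset.sum_congr rfl fun x hx => ?_
    rw [← hw x hx]
    ring
  unfold effE
  rw [Finset.filter_true_of_mem (fun _ _ => rfl), e7, AE8_rawE a hs, if_pos rfl, e5, e6]
  ring

theorem raw_pos (a : I → I → ℕ) (hs : ∀ i j, a i j = a j i) (R : Finset I) (hR : FinT a R)
    (hc : ConnS a R) (k : ℕ) (hk : 1 ≤ k) (q : I → ℚ) (hq : QOk a R q) (T : Trm I) (hT : RReg R T)
    (m : I → ℕ) (hm : ¬ Plat R q m) (h : TV a (rawT a R k q m T) ≠ 0) :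
    ∀ x ∈ R, m x ≠ 0 → q x < m x := by
  have hN : FinT a (R.filter (fun x => m x = 0)) := hR.mono (Finset.filter_subset _ _)
  have hE : ∀ i ∈ R, 0 ≤ T.E (i, k) := by
    intro i hi
    obtain ⟨n, hn⟩ := hT.nat i hi k hk
    rw [hn]
    exact Nat.cast_nonneg n
  have hpos : ∀ i ∈ R, 0 ≤ cqN a R (AE8_del a R q m) i := by
    intro i hi
    by_cases hmi : m i = 0
    · exact (AE8_del_N a hs R hR q m i hi hmi).ge
    · by_contra hlt
      push Not at hlt
      apply h
      refine raw_Z a hs R hR k hk q hq T hT m i hi hmi ?_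
      rw [AE8_eff a hs R hR k q T m i hmi]
      have h1 : 0 ≤ ∑ x ∈ R.filter (fun x => m x = 0), (a i x : ℚ) *
          solN a (R.filter (fun x => m x = 0)) (fun i => T.E (i, k)) x := by
        refine Finset.sum_nonneg fun x _ => mul_nonneg (Nat.cast_nonneg _) ?_
        exact solN_nonneg hs hN _ (fun i hi => hE i (Finset.mem_filter.1 hi).1) x
      have h2 := hE i hi
      linarith
  intro x hx hmx
  by_cases h0 : ∃ i ∈ R, cqN a R (AE8_del a R q m) i ≠ 0
  · have h1 := FinT.pos_of_conn hs hR hc _ hpos h0 x hx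
    unfold AE8_del at h1
    rw [if_neg hmx] at h1
    linarith
  · exfalso
    push Not at h0
    have h1 : ∀ i ∈ R, AE8_del a R q m i = 0 := by
      by_contra hcon
      push Not at hcon
      obtain ⟨i, hi, hne⟩ := hcon
      have h2 := hR.pos _ ⟨i, hi, hne⟩
      have h3 : ∑ i ∈ R, AE8_del a R q m i * cqN a R (AE8_del a R q m) i = 0 :=
        Finset.sum_eq_zero fun i hi => by rw [h0 i hi, mul_zero]
      rw [h3] at h2
      exact lt_irrefl _ h2
    apply hm
    intro y hy
    by_cases hmy : m y = 0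
    · exact Or.inl hmy
    · right
      have h2 := h1 y hy
      unfold AE8_del at h2
      rw [if_neg hmy] at h2
      linarith

theorem plat_kink (a : I → I → ℕ) (hs : ∀ i j, a i j = a j i) (R : Finset I) (hR : FinT a R)
    (hc : ConnS a R) (k : ℕ) (hk : 1 ≤ k) (q : I → ℚ) (hq : QOk a R q) (T : Trm I) (hT : RReg R T)
    (hkk : Kink R k T) (m : I → ℕ) (hm : Plat R q m) (h0 : ∃ x ∈ R, m x ≠ 0) :
    TV a (rawT a R k q m T) = 0 := by
  have hN : FinT a (R.filter (fun x => m x = 0)) := hR.mono (Finset.filter_subset _ _)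
  have hE : ∀ i ∈ R, 0 ≤ T.E (i, k) := by
    intro i hi
    obtain ⟨n, hn⟩ := hT.nat i hi k hk
    rw [hn]
    exact Nat.cast_nonneg n
  -- `δ` vanishes
  have hδM : ∀ y ∈ R, m y ≠ 0 → (m y : ℚ) - q y = 0 := by
    intro y hy hmy
    rcases hm y hy with h | h
    · exact absurd h hmy
    · rw [h, sub_self]
  have hδ : ∀ y ∈ R, AE8_del a R q m y = 0 := by
    intro y hy
    unfold AE8_del
    by_cases hmy : m y = 0
    · rw [if_pos hmy]
      have h1 := solN_unique hs hN
        (fun i => ∑ y ∈ R.filter (fun x => ¬ m x = 0), (a i y : ℚ) * ((m y : ℚ) - q y))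
        (fun _ => 0) (by
          intro i _
          have e1 : cqN a (R.filter (fun x => m x = 0)) (fun _ => (0 : ℚ)) i = 0 := by
            unfold cqN
            exact Finset.sum_eq_zero fun x _ => mul_zero _
          rw [e1]
          refine (Finset.sum_eq_zero fun x hx => ?_).symm
          rw [hδM x (Finset.mem_filter.1 hx).1 (Finset.mem_filter.1 hx).2, mul_zero]) y
        (Finset.mem_filter.2 ⟨hy, hmy⟩)
      exact h1.symm
    · rw [if_neg hmy]
      exact hδM y hy hmy
  have hcq : ∀ s, cqN a R (AE8_del a R q m) s = 0 := by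
    intro s
    unfold cqN
    exact Finset.sum_eq_zero fun x hx => by rw [hδ x hx, mul_zero]
  have hsol : ∀ x, 0 ≤ solN a (R.filter (fun x => m x = 0)) (fun i => T.E (i, k)) x :=
    fun x => solN_nonneg hs hN _ (fun i hi => hE i (Finset.mem_filter.1 hi).1) x
  -- it is enough to find a direction with a positive effective exponent
  have key : ∀ s ∈ R, m s ≠ 0 → (0 < T.E (s, k) ∨ ∃ y ∈ R.filter (fun x => m x = 0),
      0 < a s y ∧ 0 < solN a (R.filter (fun x => m x = 0)) (fun i => T.E (i, k)) y) →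
      TV a (rawT a R k q m T) = 0 := by
    intro s hsR hsm hor
    refine raw_Z a hs R hR k hk q hq T hT m s hsR hsm ?_
    rw [AE8_eff a hs R hR k q T m s hsm, hcq, sub_zero]
    have h1 : ∀ x ∈ R.filter (fun x => m x = 0), 0 ≤ (a s x : ℚ) *
        solN a (R.filter (fun x => m x = 0)) (fun i => T.E (i, k)) x :=
      fun x _ => mul_nonneg (Nat.cast_nonneg _) (hsol x)
    rcases hor with h2 | ⟨y, hy, hay, hsy⟩
    · have h3 := Finset.sum_nonneg h1
      linarith
    · have h3 : 0 < ∑ x ∈ R.filter (fun x => m x = 0), (a s x : ℚ) *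
          solN a (R.filter (fun x => m x = 0)) (fun i => T.E (i, k)) x := by
        refine Finset.sum_pos' h1 ⟨y, hy, mul_pos ?_ hsy⟩
        exact_mod_cast hay
      have h4 := hE s hsR
      linarith
  obtain ⟨x0, hx0, hx0E⟩ := hkk
  by_cases hm0 : m x0 = 0
  · -- the component of `x0` in `N`
    have hx0N : x0 ∈ R.filter (fun x => m x = 0) := Finset.mem_filter.2 ⟨hx0, hm0⟩
    obtain ⟨A, hA, hx0A⟩ := comps_cover hs (N := R.filter (fun x => m x = 0)) x0 hx0N
    obtain ⟨z, hz, hzm⟩ := h0
    have hsd : R \ R.filter (fun x => ¬ m x = 0) = R.filter (fun x => m x = 0) := by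
      ext x
      simp only [Finset.mem_sdiff, Finset.mem_filter, not_and, not_not]
      constructor
      · rintro ⟨h1, h2⟩
        exact ⟨h1, h2 h1⟩
      · rintro ⟨h1, h2⟩
        exact ⟨h1, fun _ => h2⟩
    obtain ⟨y, hy, x, hx, hxy⟩ := comps_adj_set hs (R := R)
      (M := R.filter (fun x => ¬ m x = 0)) hc (Finset.filter_subset _ _)
      ⟨z, Finset.mem_filter.2 ⟨hz, hzm⟩⟩ A (by rw [hsd]; exact hA)
    have hAN : A ⊆ R.filter (fun x => m x = 0) := comps_subset hA
    have hAT : FinT a A := hN.mono hAN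
    have hEA : ∀ i ∈ A, 0 ≤ T.E (i, k) := fun i hi => hE i (Finset.mem_filter.1 (hAN hi)).1
    have h1 := solN_pos hs hAT (comps_conn hA) (fun i => T.E (i, k)) hEA
      ⟨x0, hx0A, by
        have h9 : 0 < T.E (x0, k) := by linarith
        exact h9.ne'⟩ y hy
    have h2 := solN_component hs hN hAN (comps_sep hA) (fun i => T.E (i, k)) y hy
    exact key x (Finset.mem_filter.1 hx).1 (Finset.mem_filter.1 hx).2
      (Or.inr ⟨y, hAN hy, hxy, by rw [h2]; exact h1⟩)
  · exact key x0 hx0 hm0 (Or.inl (by linarith))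

/-- the plateau part of a kinked term. -/
theorem PPv_kink (a : I → I → ℕ) (hs : ∀ i j, a i j = a j i) (R : Finset I) (hR : FinT a R)
    (hc : ConnS a R) (k : ℕ) (hk : 1 ≤ k) (q : I → ℚ) (hq : QOk a R q) (T : Trm I) (hT : RReg R T)
    (hkk : Kink R k T) :
    PPv a R k q T = (-1) ^ R.card * TV a (upT a R k q T) := by
  classical
  unfold PPv
  rw [Finset.sum_eq_single (fun _ => 0)]
  · have h1 : sgm R (fun _ => 0) = (-1) ^ R.card := by
      unfold sgm
      rw [Finset.filter_true_of_mem (fun _ _ => rfl)]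
    have h2 : rawT a R k q (fun _ => 0) T = upT a R k q T := by
      have e1 : (fun i => if i ∈ R then (((fun _ => 0 : I → ℕ) i : ℕ) : ℚ) - q i else 0) =
          fun i => -resQ R q i := by
        funext i
        unfold resQ
        by_cases hi : i ∈ R
        · rw [if_pos hi, if_pos hi]
          push_cast
          ring
        · rw [if_neg hi, if_neg hi, neg_zero]
      have e2 : (fun x => if (fun _ => 0 : I → ℕ) x = 0 then sy x (k - 1) else cE a x k) =
          fun x => sy x (k - 1) := by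
        funext x
        exact if_pos rfl
      unfold rawT upT blkT
      rw [e1, e2]
    rw [h1, h2]
  · intro m hm hne
    rw [Finset.mem_filter] at hm
    have h1 : ∃ x ∈ R, m x ≠ 0 := by
      by_contra hcon
      push Not at hcon
      apply hne
      funext x
      by_cases hx : x ∈ R
      · exact hcon x hx
      · have h2 := hm.1
        unfold mbox at h2
        rw [Fintype.mem_piFinset] at h2
        have h3 := h2 x
        rw [if_neg hx, Finset.mem_singleton] at h3
        exact h3
    rw [plat_kink a hs R hR hc k hk q hq T hT hkk m hm.2 h1, mul_zero]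
  · intro hnot
    exfalso
    apply hnot
    rw [Finset.mem_filter]
    refine ⟨?_, fun x _ => Or.inl rfl⟩
    unfold mbox
    rw [Fintype.mem_piFinset]
    intro x
    by_cases hx : x ∈ R
    · rw [if_pos hx, Finset.mem_range]
      omega
    · rw [if_neg hx, Finset.mem_singleton]

end

end Pool.Agent.H27.KAC
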