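import Pool.Agent.H41.KA.AG9e

/-!
KAC ADE, module AG10: the response product theorem.

Proof of `RPT`: strong induction on `R.card`.  Choose `x ∈ M`.  For every component `A` of `R.erase x` let `MA = M ∩ A`,
`LA = L.filter (b.B ⊆ A)`.  If `MA = ∅`, then `A` is a component of `R \ M`, hence `A = b.B` for exactly one `b ∈ L` (`ConnS`, `Sep`);
take the family of `b`.  Otherwise use the induction hypothesis for `A, MA, LA` (`QOk_sub`, all classes on `M` are integral).
`exists_RB_list` and the star theorem `star_resp` for `x`, `u x`; weights: products over the components.  At the top frontier: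
`evF_stF`, `evU_alU`, `evU_subst` and linearity in the column of `x`.
-/

set_option autoImplicit false

namespace Pool.Agent.H27.KAC

open scoped BigOperators

section

variable {I : Type} [Fintype I] [DecidableEq I]


/-! joint values with a final functional -/

/-- joint value with a final functional. -/
private noncomputable def evG (a : I → I → ℕ) :
    List (Finset I × FFn I) → (Trm I → ℚ) → Trm I → ℚ
  | [], F, T => F T
  | b :: U, F, T => (b.2.map (fun c => c.1 * evG a U F (patT a b.1 c.2 T))).sum

private theorem evG_TV (a : I → I → ℕ) (U : List (Finset I × FFn I)) (T : Trm I) :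
    evU a U T = evG a U (TV a) T := by
  induction U generalizing T with
  | nil => rw [evU_nil]; rfl
  | cons b U ih =>
    rw [evU_cons]
    simp only [evG, ih]

private theorem evG_append (a : I → I → ℕ) (U U' : List (Finset I × FFn I)) (F : Trm I → ℚ)
    (T : Trm I) : evG a (U ++ U') F T = evG a U (evG a U' F) T := by
  induction U generalizing T with
  | nil => rfl
  | cons b U ih => simp only [List.cons_append, evG, ih]

private theorem evU_append (a : I → I → ℕ) (U U' : List (Finset I × FFn I)) (T : Trm I) :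
    evU a (U ++ U') T = evG a U (evU a U') T := by
  rw [evG_TV, evG_append]
  congr 1
  funext X
  rw [evG_TV]

private theorem uni_cons (b : Finset I × FFn I) (U : List (Finset I × FFn I)) :
    uni (b :: U) = b.1 ∪ uni U := rfl

private theorem uniR_cons (b : RB I) (L : List (RB I)) : uniR (b :: L) = b.B ∪ uniR L := rfl

private theorem sep_uni {a : I → I → ℕ} {A : Finset I} {U : List (Finset I × FFn I)}
    (h : ∀ b ∈ U, Sep a A b.1) : Sep a A (uni U) := by
  constructor
  · rw [Finset.disjoint_left]
    intro x hx hx'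
    obtain ⟨b, hb, hxb⟩ := (mem_uni U x).1 hx'
    exact Finset.disjoint_left.1 (h b hb).1 hx hxb
  · intro x hx y hy
    obtain ⟨b, hb, hyb⟩ := (mem_uni U y).1 hy
    exact (h b hb).2 x hx y hyb

private theorem evG_congr (a : I → I → ℕ) (hs : ∀ i j, a i j = a j i) (A : Finset I)
    (U : List (Finset I × FFn I)) (hA : ∀ b ∈ U, Sep a A b.1)
    (hU : U.Pairwise (fun b c => Sep a b.1 c.1)) (F F' : Trm I → ℚ)
    (h : ∀ X : Trm I, RReg A X → F X = F' X) (T : Trm I) (hT : RReg (A ∪ uni U) T) :
    evG a U F T = evG a U F' T := by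
  induction U generalizing T with
  | nil =>
    refine h T ?_
    have e : A ∪ uni ([] : List (Finset I × FFn I)) = A := Finset.union_empty A
    rw [e] at hT
    exact hT
  | cons b U ih =>
    simp only [evG]
    rw [List.pairwise_cons] at hU
    congr 1
    refine List.map_congr_left ?_
    intro c _
    congr 1
    refine ih (fun d hd => hA d (List.mem_cons_of_mem _ hd)) hU.2 _ ?_
    have hsb : Sep a (A ∪ uni U) b.1 :=
      Sep_union (hA b List.mem_cons_self) (Sep.symm hs (sep_uni hU.1))
    refine RReg_patT a hs (A ∪ uni U) b.1 hsb.1 c.2 (fun x hx y hy _ => hsb.2 x hx y hy) T ?_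
    have e : A ∪ uni U ∪ b.1 = A ∪ uni (b :: U) := by
      rw [uni_cons, Finset.union_assoc, Finset.union_comm b.1]
    rw [e]
    exact hT

private theorem patT_cols_comm (a : I → I → ℕ) (B S : Finset I) (h : Disjoint S B) (π : Pat I)
    (c : I → QE I) (T : Trm I) : (patT a B π T).cols S c = patT a B π (T.cols S c) := by
  refine Trm.ext rfl rfl ?_
  funext i
  simp only [patT, Trm.cols, Trm.etaM]
  by_cases hi : i ∈ S
  · have hiB : i ∉ B := Finset.disjoint_left.1 h hi
    rw [if_pos hi, if_neg hiB, if_pos hi]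
  · rw [if_neg hi]
    by_cases hiB : i ∈ B
    · rw [if_pos hiB, if_pos hiB]
    · rw [if_neg hiB, if_neg hiB, if_neg hi]

private theorem evG_cols (a : I → I → ℕ) (S : Finset I) (c : I → QE I)
    (U : List (Finset I × FFn I)) (hU : ∀ b ∈ U, Disjoint S b.1) (F : Trm I → ℚ) (T : Trm I) :
    evG a U (fun X => F (X.cols S c)) T = evG a U F (T.cols S c) := by
  induction U generalizing T with
  | nil => rfl
  | cons b U ih =>
    simp only [evG]
    congr 1
    refine List.map_congr_left ?_
    intro d _
    rw [ih (fun e he => hU e (List.mem_cons_of_mem _ he)),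
      patT_cols_comm a b.1 S (hU b List.mem_cons_self)]

private theorem atF_cons (b : RB I) (L : List (RB I)) (f : ℕ) :
    atF (b :: L) f = (b.B, b.Φ f) :: atF L f := rfl

private theorem atF_append (L L' : List (RB I)) (f : ℕ) :
    atF (L ++ L') f = atF L f ++ atF L' f := by
  simp only [atF, List.map_append]

private theorem mem_atF {L : List (RB I)} {f : ℕ} {b : Finset I × FFn I} (hb : b ∈ atF L f) :
    ∃ d ∈ L, b = (d.B, d.Φ f) := by
  simp only [atF, List.mem_map] at hb
  obtain ⟨d, hd, rfl⟩ := hb
  exact ⟨d, hd, rfl⟩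

private theorem atF_pairwise {a : I → I → ℕ} {L : List (RB I)} (f : ℕ)
    (h : L.Pairwise (fun b c => Sep a b.B c.B)) :
    (atF L f).Pairwise (fun b c => Sep a b.1 c.1) := by
  simp only [atF, List.pairwise_map]
  exact h

private theorem pairwise_disj {a : I → I → ℕ} {U : List (Finset I × FFn I)}
    (h : U.Pairwise (fun b c => Sep a b.1 c.1)) :
    U.Pairwise (fun b c => Disjoint b.1 c.1) := h.imp (fun h => h.1)

/-- blockwise substitution in a joint value. -/
theorem evU_subst (a : I → I → ℕ) (hs : ∀ i j, a i j = a j i) (K : ℕ) (c : I → QE I)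
    (hc : ∀ j x l, x ≠ j → c j (x, l) = 0) (L' : List (RB I))
    (G : RB I → List (RB I)) (M : Finset I)
    (hd : L'.Pairwise (fun b c => Sep a b.B c.B))
    (hG : ∀ b ∈ L', (G b).Pairwise (fun b c => Sep a b.B c.B))
    (hGs : ∀ b ∈ L', uniR (G b) ⊆ b.B ∧ Disjoint (uniR (G b)) M) (hM : M ⊆ uniR L')
    (hcov : ∀ b ∈ L', b.B ⊆ uniR (G b) ∪ M)
    (h : ∀ b ∈ L', ∀ T : Trm I, RReg b.B T →
      evF a b.B (b.Φ K) T = evU a (atF (G b) K) (T.cols (M ∩ b.B) c)) (T : Trm I)
    (hT : RReg (uniR L') T) :
    evU a (atF L' K) T = evU a (atF (L'.flatMap G) K) (T.cols M c) := by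
  induction L' generalizing M T with
  | nil =>
    have hM0 : M = ∅ := by
      have : M ⊆ (∅ : Finset I) := hM
      exact Finset.subset_empty.1 this
    subst hM0
    have e : T.cols ∅ c = T := by
      refine Trm.ext rfl rfl ?_
      funext i
      simp [Trm.cols]
    rw [e]
    rfl
  | cons b L'' ih =>
    rw [List.pairwise_cons] at hd
    have hsep1 : ∀ d ∈ atF L'' K, Sep a b.B d.1 := by
      intro d hd'
      obtain ⟨e, he, rfl⟩ := mem_atF hd'
      exact hd.1 e he
    have hbL : Sep a b.B (uniR L'') := by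
      have := sep_uni hsep1
      rwa [uni_atF] at this
    have hpw : (atF L'' K).Pairwise (fun b c => Sep a b.1 c.1) := atF_pairwise K hd.2
    have hpwG : (atF (G b) K).Pairwise (fun b c => Sep a b.1 c.1) :=
      atF_pairwise K (hG b List.mem_cons_self)
    have hGb := hGs b List.mem_cons_self
    have hcovb := hcov b List.mem_cons_self
    have hGsub : ∀ d ∈ atF (G b) K, d.1 ⊆ b.B := by
      intro d hd'
      obtain ⟨e, he, rfl⟩ := mem_atF hd'
      intro y hy
      exact hGb.1 ((mem_uniR _ _).2 ⟨e, he, hy⟩)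
    -- step 1
    have s1 : evU a (atF (b :: L'') K) T = evG a (atF L'' K) (evF a b.B (b.Φ K)) T := by
      rw [atF_cons]
      have hp : ((b.B, b.Φ K) :: atF L'' K).Perm (atF L'' K ++ [(b.B, b.Φ K)]) :=
        (List.perm_append_singleton _ _).symm
      rw [evU_perm a _ _ hp (pairwise_disj (a := a) (List.pairwise_cons.2 ⟨hsep1, hpw⟩)), evU_append]
      have e : evU a [(b.B, b.Φ K)] = evF a b.B (b.Φ K) := by
        funext X
        rw [evU_single]
      rw [e]
    have s2 : evG a (atF L'' K) (evF a b.B (b.Φ K)) T =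
        evG a (atF L'' K) (fun X => evU a (atF (G b) K) (X.cols (M ∩ b.B) c)) T := by
      refine evG_congr a hs b.B _ hsep1 hpw _ _ (h b List.mem_cons_self) T ?_
      rw [uni_atF]
      exact hT
    have s3 : evG a (atF L'' K) (fun X => evU a (atF (G b) K) (X.cols (M ∩ b.B) c)) T =
        evU a (atF L'' K ++ atF (G b) K) (T.cols (M ∩ b.B) c) := by
      rw [evU_append]
      refine evG_cols a (M ∩ b.B) c (atF L'' K) ?_ (evU a (atF (G b) K)) T
      intro d hd'
      exact Finset.disjoint_of_subset_left Finset.inter_subset_right (hsep1 d hd').1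
    have hpw2 : (atF L'' K ++ atF (G b) K).Pairwise (fun b c => Sep a b.1 c.1) := by
      rw [List.pairwise_append]
      refine ⟨hpw, hpwG, ?_⟩
      intro d hd' e he
      exact Sep.symm hs (Sep.mono (hsep1 d hd') (hGsub e he) (Finset.Subset.refl _))
    have s4 : evU a (atF L'' K ++ atF (G b) K) (T.cols (M ∩ b.B) c) =
        evG a (atF (G b) K) (evU a (atF L'' K)) (T.cols (M ∩ b.B) c) := by
      rw [evU_perm a _ _ (List.perm_append_comm) (pairwise_disj hpw2), evU_append]
    have hsepG : ∀ d ∈ atF (G b) K, Sep a (uniR L'') d.1 := by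
      intro d hd'
      exact Sep.mono (Sep.symm hs hbL) (Finset.Subset.refl _) (hGsub d hd')
    have hReg : RReg (uniR L'' ∪ uni (atF (G b) K)) (T.cols (M ∩ b.B) c) := by
      rw [uni_atF]
      have hsub : uniR L'' ∪ uniR (G b) ⊆ uniR (b :: L'') := by
        rw [uniR_cons]
        intro y hy
        rcases Finset.mem_union.1 hy with hy | hy
        · exact Finset.mem_union_right _ hy
        · exact Finset.mem_union_left _ (hGb.1 hy)
      refine ⟨fun y hy l hl => hT.nat y (hsub hy) l hl, ?_⟩
      intro y hy j hj l hl hne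
      simp only [Trm.cols] at hne
      by_cases hjM : j ∈ M ∩ b.B
      · rw [if_pos hjM] at hne
        exfalso
        have hyj : y ≠ j := fun e => hj (e ▸ hy)
        exact hne (hc j y l hyj)
      · rw [if_neg hjM] at hne
        have hjb : j ∉ b.B := by
          intro hjb
          rcases Finset.mem_union.1 (hcovb hjb) with h1 | h1
          · exact hj (Finset.mem_union_right _ h1)
          · exact hjM (Finset.mem_inter.2 ⟨h1, hjb⟩)
        refine hT.col y (hsub hy) j ?_ l hl hne
        rw [uniR_cons]
        intro hj'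
        rcases Finset.mem_union.1 hj' with h1 | h1
        · exact hjb h1
        · exact hj (Finset.mem_union_left _ h1)
    have s5 : evG a (atF (G b) K) (evU a (atF L'' K)) (T.cols (M ∩ b.B) c) =
        evG a (atF (G b) K) (fun X => evU a (atF (L''.flatMap G) K) (X.cols (M ∩ uniR L'') c))
          (T.cols (M ∩ b.B) c) := by
      refine evG_congr a hs (uniR L'') _ hsepG hpwG _ _ ?_ _ hReg
      intro X hX
      refine ih (M ∩ uniR L'') hd.2 (fun d hd' => hG d (List.mem_cons_of_mem _ hd')) ?_
        Finset.inter_subset_right ?_ ?_ X hX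
      · intro d hd'
        have := hGs d (List.mem_cons_of_mem _ hd')
        exact ⟨this.1, Finset.disjoint_of_subset_right Finset.inter_subset_left this.2⟩
      · intro d hd' y hy
        rcases Finset.mem_union.1 (hcov d (List.mem_cons_of_mem _ hd') hy) with h1 | h1
        · exact Finset.mem_union_left _ h1
        · exact Finset.mem_union_right _
            (Finset.mem_inter.2 ⟨h1, (mem_uniR _ _).2 ⟨d, hd', hy⟩⟩)
      · intro d hd' Y hY
        have e : M ∩ uniR L'' ∩ d.B = M ∩ d.B := by
          ext y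
          simp only [Finset.mem_inter]
          constructor
          · rintro ⟨⟨h1, -⟩, h3⟩
            exact ⟨h1, h3⟩
          · rintro ⟨h1, h3⟩
            exact ⟨⟨h1, (mem_uniR _ _).2 ⟨d, hd', h3⟩⟩, h3⟩
        rw [e]
        exact h d (List.mem_cons_of_mem _ hd') Y hY
    have s6 : evG a (atF (G b) K)
          (fun X => evU a (atF (L''.flatMap G) K) (X.cols (M ∩ uniR L'') c))
          (T.cols (M ∩ b.B) c) =
        evU a (atF ((b :: L'').flatMap G) K) ((T.cols (M ∩ b.B) c).cols (M ∩ uniR L'') c) := by
      rw [List.flatMap_cons, atF_append, evU_append]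
      refine evG_cols a (M ∩ uniR L'') c (atF (G b) K) ?_ (evU a (atF (L''.flatMap G) K)) _
      intro d hd'
      exact Finset.disjoint_of_subset_left Finset.inter_subset_right (hsepG d hd').1
    rw [s1, s2, s3, s4, s5, s6]
    congr 1
    refine Trm.ext rfl rfl ?_
    funext i
    simp only [Trm.cols, Finset.mem_inter]
    by_cases hiM : i ∈ M
    · have hi := hM hiM
      rw [uniR_cons] at hi
      rw [if_pos hiM]
      rcases Finset.mem_union.1 hi with h1 | h1
      · by_cases h2 : i ∈ uniR L''
        · rw [if_pos ⟨hiM, h2⟩]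
        · rw [if_neg (fun h => h2 h.2), if_pos ⟨hiM, h1⟩]
      · rw [if_pos ⟨hiM, h1⟩]
    · rw [if_neg (fun h => hiM h.1), if_neg (fun h => hiM h.1), if_neg hiM]

/-- linearity in the column of one vertex outside the blocks. -/
theorem evU_col_add (a : I → I → ℕ) (U : List (Finset I × FFn I)) (j : I) (hj : j ∉ uni U)
    (c d : QE I) (T : Trm I) :
    evU a U (T.col j (c + d)) = evU a U (T.col j c) + evU a U (T.col j d) := by
  induction U generalizing T with
  | nil => simp only [evU_nil]; exact TV_col_add a T j c d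
  | cons b U ih =>
    rw [uni_cons, Finset.mem_union, not_or] at hj
    simp only [evU_cons]
    rw [← List.sum_map_add]
    congr 1
    refine List.map_congr_left ?_
    intro e _
    rw [patT_col_comm a b.1 e.2 j hj.1, patT_col_comm a b.1 e.2 j hj.1,
      patT_col_comm a b.1 e.2 j hj.1, ih hj.2]
    ring

theorem evU_col_smul (a : I → I → ℕ) (U : List (Finset I × FFn I)) (j : I) (hj : j ∉ uni U)
    (r : ℚ) (c : QE I) (T : Trm I) : evU a U (T.col j (r • c)) = r * evU a U (T.col j c) := by
  induction U generalizing T with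
  | nil => simp only [evU_nil]; exact TV_col_smul a T j r c
  | cons b U ih =>
    rw [uni_cons, Finset.mem_union, not_or] at hj
    simp only [evU_cons]
    rw [← List.sum_map_mul_left]
    congr 1
    refine List.map_congr_left ?_
    intro e _
    rw [patT_col_comm a b.1 e.2 j hj.1, patT_col_comm a b.1 e.2 j hj.1, ih hj.2]
    ring

/-- blocks of `L` inside `A`. -/
private def inL (L : List (RB I)) (A : Finset I) : List (RB I) :=
  L.filter (fun b => decide (b.B ⊆ A))

private theorem mem_inL {L : List (RB I)} {A : Finset I} {b : RB I} :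
    b ∈ inL L A ↔ b ∈ L ∧ b.B ⊆ A := by
  simp only [inL, List.mem_filter, decide_eq_true_eq]

/-- a connected subset which meets a component is contained in it. -/
private theorem sub_comp {a : I → I → ℕ} {N A S : Finset I} (hA : A ∈ comps a N)
    (hS : ConnS a S) (hSN : S ⊆ N) {y : I} (hy : y ∈ S) (hyA : y ∈ A) : S ⊆ A := by
  by_contra hcon
  have hne : S ∩ A ≠ S := fun e => hcon (by rw [← e]; exact Finset.inter_subset_right)
  obtain ⟨i, hi, j, hj, hj', hij⟩ :=
    hS.2 (S ∩ A) Finset.inter_subset_left ⟨y, Finset.mem_inter.2 ⟨hy, hyA⟩⟩ hne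
  have hjA : j ∉ A := fun h => hj' (Finset.mem_inter.2 ⟨hj, h⟩)
  have := comps_sep hA i (Finset.mem_inter.1 hi).2 j (hSN hj) hjA
  omega

/-- product over the components. -/
private theorem prod_inL (C : Finset (Finset I)) (f : RB I → ℚ) (L : List (RB I))
    (h : ∀ b ∈ L, ∃ A ∈ C, b.B ⊆ A ∧ ∀ A' ∈ C, b.B ⊆ A' → A' = A) :
    ∏ A ∈ C, ((inL L A).map f).prod = (L.map f).prod := by
  induction L with
  | nil => simp [inL]
  | cons b L ih =>
    obtain ⟨A, hA, hbA, hu⟩ := h b List.mem_cons_self
    have e : ∀ A' ∈ C, ((inL (b :: L) A').map f).prod =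
        (if A' = A then f b else 1) * ((inL L A').map f).prod := by
      intro A' hA'
      by_cases hb : b.B ⊆ A'
      · have : A' = A := hu A' hA' hb
        rw [if_pos this]
        simp only [inL]
        rw [List.filter_cons_of_pos (by simpa using hb), List.map_cons, List.prod_cons]
      · have : A' ≠ A := fun e => hb (e ▸ hbA)
        rw [if_neg this, one_mul]
        simp only [inL]
        rw [List.filter_cons_of_neg (by simpa using hb)]
    rw [Finset.prod_congr rfl e, Finset.prod_mul_distrib,
      ih (fun d hd => h d (List.mem_cons_of_mem _ hd)), Finset.prod_ite_eq' C A, if_pos hA,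
      List.map_cons, List.prod_cons]

/-- the column of the chain vertices. -/
private noncomputable def cK (u : I → ℕ → ℚ) (K : ℕ) (x : I) : QE I :=
  u x K • sy x (K + 1) - u x (K + 1) • sy x K

private theorem cK_apply (u : I → ℕ → ℚ) (K : ℕ) (j x : I) (l : ℕ) (h : x ≠ j) :
    cK u K j (x, l) = 0 := by
  have h1 : ∀ k, (sy j k : QE I) (x, l) = 0 := by
    intro k
    rw [Finsupp.single_apply, if_neg]
    intro e
    exact h (congrArg Prod.fst e).symm
  simp only [cK, Finsupp.coe_sub, Finsupp.coe_smul, Pi.sub_apply, Pi.smul_apply, h1, smul_zero,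
    sub_zero]

private theorem L_nodup {a : I → I → ℕ} {L : List (RB I)}
    (hsep : L.Pairwise (fun b c => Sep a b.B c.B)) (hconn : ∀ b ∈ L, ConnS a b.B) : L.Nodup := by
  rw [List.Nodup]
  refine List.Pairwise.imp_of_mem ?_ hsep
  intro b c hb _ hs e
  subst e
  obtain ⟨y, hy⟩ := (hconn b hb).1
  exact Finset.disjoint_left.1 hs.1 hy hy

private theorem L_sep {a : I → I → ℕ} (hs : ∀ i j, a i j = a j i) {L : List (RB I)}
    (hsep : L.Pairwise (fun b c => Sep a b.B c.B)) {b c : RB I} (hb : b ∈ L) (hc : c ∈ L)
    (hne : b ≠ c) : Sep a b.B c.B := by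
  have : Std.Symm (fun b c : RB I => Sep a b.B c.B) := ⟨fun b c h => Sep.symm hs h⟩
  exact hsep.forall hb hc hne

theorem RPT (a : I → I → ℕ) (hs : ∀ i j, a i j = a j i) (cd : CrossData a) (K : ℕ) (q : I → ℚ)
    (u : I → ℕ → ℚ) (R : Finset I) (hR : FinT a R) (hc : ConnS a R) (hq : QOk a R q)
    (M : Finset I) (hM : M ⊆ R) (hne : M.Nonempty)
    (hMz : ∀ x ∈ M, IsZ (q x)) (hu : ∀ x ∈ M, Aff (u x)) (L : List (RB I))
    (hcov : uniR L = R \ M) (hsep : L.Pairwise (fun b c => Sep a b.B c.B))
    (hconn : ∀ b ∈ L, ConnS a b.B) (hresp : ∀ b ∈ L, Resp a cd b.B q K b.w b.Φ) :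
    ∃ Φ : ℕ → FFn I,
      Resp a cd R q K (fun l => (∏ x ∈ M, u x l) * (L.map (fun b => b.w l)).prod) Φ ∧
      ∀ T : Trm I, RReg R T → evF a R (Φ K) T =
        evU a (atF L K) (T.cols M (fun x => u x K • sy x (K + 1) - u x (K + 1) • sy x K)) := by
  induction hn : R.card using Nat.strong_induction_on generalizing R M L with
  | _ n ih =>
  subst hn
  obtain ⟨x, hxM⟩ := hne
  have hxR : x ∈ R := hM hxM
  -- blocks of `L` lie in `R \ M`
  have hLsub : ∀ b ∈ L, b.B ⊆ R \ M := by
    intro b hb y hy
    rw [← hcov]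
    exact (mem_uniR L y).2 ⟨b, hb, hy⟩
  have hLer : ∀ b ∈ L, b.B ⊆ R.erase x := by
    intro b hb y hy
    have h1 := Finset.mem_sdiff.1 (hLsub b hb hy)
    exact Finset.mem_erase.2 ⟨fun e => h1.2 (e ▸ hxM), h1.1⟩
  -- every block meeting a component is inside
  have hin : ∀ A ∈ comps a (R.erase x), ∀ b ∈ L, ∀ y ∈ b.B, y ∈ A → b.B ⊆ A := by
    intro A hA b hb y hy hyA
    exact sub_comp hA (hconn b hb) (hLer b hb) hy hyA
  have hcomp : ∀ A ∈ comps a (R.erase x), ∃ w Φ, (Resp a cd A q K w Φ ∧
      (∀ l, w l = (∏ y ∈ M ∩ A, u y l) * ((inL L A).map (fun b => b.w l)).prod) ∧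
      ∀ T : Trm I, RReg A T → evF a A (Φ K) T =
        evU a (atF (inL L A) K) (T.cols (M ∩ A) (cK u K))) := by
    intro A hA
    have hAe : A ⊆ R.erase x := comps_subset hA
    have hAR : A ⊆ R := hAe.trans (Finset.erase_subset _ _)
    have hAc : ConnS a A := comps_conn hA
    by_cases hMA : (M ∩ A).Nonempty
    · have hcard : A.card < R.card :=
        lt_of_le_of_lt (Finset.card_le_card hAe) (Finset.card_erase_lt_of_mem hxR)
      have hqA : QOk a A q := by
        refine QOk_sub hs hR hq A hAR ?_
        intro y hy z hz hzA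
        by_cases hzx : z = x
        · exact Or.inr (hzx ▸ hMz x hxM)
        · exact Or.inl (comps_sep hA y hy z (Finset.mem_erase.2 ⟨hzx, hz⟩) hzA)
      have hcovA : uniR (inL L A) = A \ (M ∩ A) := by
        ext y
        rw [mem_uniR]
        constructor
        · rintro ⟨b, hb, hyb⟩
          rw [mem_inL] at hb
          have h1 := Finset.mem_sdiff.1 (hLsub b hb.1 hyb)
          exact Finset.mem_sdiff.2 ⟨hb.2 hyb, fun h => h1.2 (Finset.mem_inter.1 h).1⟩
        · intro hy
          rw [Finset.mem_sdiff, Finset.mem_inter, not_and] at hy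
          have hyM : y ∉ M := fun h => hy.2 h hy.1
          have hyL : y ∈ uniR L := by
            rw [hcov]
            exact Finset.mem_sdiff.2 ⟨hAR hy.1, hyM⟩
          obtain ⟨b, hb, hyb⟩ := (mem_uniR L y).1 hyL
          exact ⟨b, mem_inL.2 ⟨hb, hin A hA b hb y hyb hy.1⟩, hyb⟩
      obtain ⟨Φ, hΦ1, hΦ2⟩ := ih A.card hcard A (hR.mono hAR) hAc hqA (M ∩ A)
        Finset.inter_subset_right hMA (fun y hy => hMz y (Finset.mem_inter.1 hy).1)
        (fun y hy => hu y (Finset.mem_inter.1 hy).1) (inL L A) hcovA
        (hsep.filter _) (fun b hb => hconn b (mem_inL.1 hb).1)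
        (fun b hb => hresp b (mem_inL.1 hb).1) rfl
      exact ⟨_, Φ, hΦ1, fun l => rfl, hΦ2⟩
    · rw [Finset.not_nonempty_iff_eq_empty] at hMA
      have hAL : A ⊆ uniR L := by
        intro y hy
        rw [hcov]
        refine Finset.mem_sdiff.2 ⟨hAR hy, fun h => ?_⟩
        have : y ∈ M ∩ A := Finset.mem_inter.2 ⟨h, hy⟩
        rw [hMA] at this
        exact absurd this (Finset.notMem_empty y)
      obtain ⟨y, hy⟩ := hAc.1
      obtain ⟨b, hb, hyb⟩ := (mem_uniR L y).1 (hAL hy)
      have hbA : b.B ⊆ A := hin A hA b hb y hyb hy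
      have hbeq : b.B = A := by
        by_contra hne'
        obtain ⟨i, hi, j, hj, hj', hij⟩ := hAc.2 b.B hbA ⟨y, hyb⟩ hne'
        obtain ⟨b', hb', hjb'⟩ := (mem_uniR L j).1 (hAL hj)
        have hbb' : b ≠ b' := fun e => hj' (e ▸ hjb')
        have := (L_sep hs hsep hb hb' hbb').2 i hi j hjb'
        omega
      have hinL : inL L A = [b] := by
        have hnd : (inL L A).Nodup := (L_nodup hsep hconn).filter _
        rw [← List.perm_singleton]
        refine (List.perm_ext_iff_of_nodup hnd (List.nodup_singleton b)).2 ?_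
        intro d
        rw [mem_inL, List.mem_singleton]
        constructor
        · rintro ⟨hd, hdA⟩
          by_contra hne'
          obtain ⟨z, hz⟩ := (hconn d hd).1
          have h1 := (L_sep hs hsep hd hb hne').1
          exact Finset.disjoint_left.1 h1 hz (by rw [hbeq]; exact hdA hz)
        · rintro rfl
          exact ⟨hb, hbA⟩
      refine ⟨b.w, b.Φ, ?_, ?_, ?_⟩
      · rw [← hbeq]
        exact hresp b hb
      · intro l
        rw [hMA, hinL]
        simp
      · intro T _
        rw [hMA, hinL]
        have e : T.cols ∅ (cK u K) = T := by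
          refine Trm.ext rfl rfl ?_
          funext i
          simp [Trm.cols]
        rw [e]
        simp only [atF, List.map_cons, List.map_nil]
        rw [evU_single, hbeq]
  obtain ⟨L', hL'1, hL'2, hL'3, hL'4, hL'5⟩ := exists_RB_list a hs (R.erase x)
    (fun A w Φ => Resp a cd A q K w Φ ∧
      (∀ l, w l = (∏ y ∈ M ∩ A, u y l) * ((inL L A).map (fun b => b.w l)).prod) ∧
      ∀ T : Trm I, RReg A T → evF a A (Φ K) T =
        evU a (atF (inL L A) K) (T.cols (M ∩ A) (cK u K))) hcomp
  have hctx : StarCtx a cd R x q K (u x) L' :=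
    { fin := hR
      conn := hc
      qok := hq
      hx := hxR
      hz := hMz x hxM
      aff := hu x hxM
      cov := hL'4
      sep := hL'3
      bconn := fun b hb => comps_conn (hL'1 b hb).1
      resp := fun b hb => (hL'1 b hb).2.1 }
  refine ⟨stF x (u x) L', ?_, ?_⟩
  · have hw : (fun l => (∏ y ∈ M, u y l) * (L.map (fun b => b.w l)).prod) = stW (u x) L' := by
      funext l
      have h1 : (L'.map (fun b => b.w l)).prod =
          ∏ A ∈ comps a (R.erase x), ((∏ y ∈ M ∩ A, u y l) *
            ((inL L A).map (fun b => b.w l)).prod) := by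
        rw [← hL'5 (fun A => (∏ y ∈ M ∩ A, u y l) * ((inL L A).map (fun b => b.w l)).prod)]
        congr 1
        refine List.map_congr_left ?_
        intro b hb
        exact (hL'1 b hb).2.2.1 l
      have h2 : ∏ A ∈ comps a (R.erase x), (∏ y ∈ M ∩ A, u y l) = ∏ y ∈ M.erase x, u y l := by
        rw [← Finset.prod_biUnion]
        · congr 1
          ext y
          simp only [Finset.mem_biUnion, Finset.mem_inter, Finset.mem_erase]
          constructor
          · rintro ⟨A, hA, hyM, hyA⟩
            exact ⟨(Finset.mem_erase.1 (comps_subset hA hyA)).1, hyM⟩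
          · rintro ⟨hyx, hyM⟩
            obtain ⟨A, hA, hyA⟩ := comps_cover hs y (Finset.mem_erase.2 ⟨hyx, hM hyM⟩)
            exact ⟨A, hA, hyM, hyA⟩
        · intro A hA A' hA' hne'
          refine Finset.disjoint_of_subset_left Finset.inter_subset_right
            (Finset.disjoint_of_subset_right Finset.inter_subset_right ?_)
          exact comps_disjoint hs hA hA' hne'
      have h3 : ∏ A ∈ comps a (R.erase x), ((inL L A).map (fun b => b.w l)).prod =
          (L.map (fun b => b.w l)).prod := by
        refine prod_inL (comps a (R.erase x)) (fun b => b.w l) L ?_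
        intro b hb
        obtain ⟨y, hy⟩ := (hconn b hb).1
        obtain ⟨A, hA, hyA⟩ := comps_cover hs y (hLer b hb hy)
        refine ⟨A, hA, hin A hA b hb y hy hyA, ?_⟩
        intro A' hA' hbA'
        by_contra hne'
        exact Finset.disjoint_left.1 (comps_disjoint hs hA' hA hne') (hbA' hy) hyA
      rw [stW, h1, Finset.prod_mul_distrib, h2, h3, ← Finset.mul_prod_erase M (fun y => u y l) hxM]
      ring
    rw [hw]
    exact star_resp a hs cd R x q K (u x) L' hctx
  · intro T hT
    have hxL' : x ∉ uni (atF L' K) := by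
      rw [uni_atF, hL'4]
      exact Finset.notMem_erase x R
    have hT' : RReg (uniR L') (T.col x (cK u K x)) := by
      rw [hL'4]
      refine ⟨fun y hy l hl => hT.nat y (Finset.mem_of_mem_erase hy) l hl, ?_⟩
      intro y hy j hj l hl hne'
      simp only [Trm.col] at hne'
      by_cases hjx : j = x
      · subst hjx
        rw [Function.update_self] at hne'
        exact absurd (cK_apply u K j y l (Finset.mem_erase.1 hy).1) hne'
      · rw [Function.update_of_ne hjx] at hne'
        refine hT.col y (Finset.mem_of_mem_erase hy) j ?_ l hl hne'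
        intro hjR
        exact hj (Finset.mem_erase.2 ⟨hjx, hjR⟩)
    have hlin : u x K * evU a (atF L' K) (T.col x (sy x (K + 1))) -
        u x (K + 1) * evU a (atF L' K) (T.col x (sy x K)) =
        evU a (atF L' K) (T.col x (cK u K x)) := by
      have e : cK u K x = u x K • sy x (K + 1) + (-u x (K + 1)) • sy x K := by
        rw [cK, neg_smul, sub_eq_add_neg]
      rw [e, evU_col_add a _ x hxL', evU_col_smul a _ x hxL', evU_col_smul a _ x hxL']
      ring
    have hMx : ∀ b ∈ L', M.erase x ∩ b.B = M ∩ b.B := by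
      intro b hb
      ext y
      simp only [Finset.mem_inter, Finset.mem_erase]
      constructor
      · rintro ⟨⟨-, h2⟩, h3⟩
        exact ⟨h2, h3⟩
      · rintro ⟨h2, h3⟩
        exact ⟨⟨(Finset.mem_erase.1 (comps_subset (hL'1 b hb).1 h3)).1, h2⟩, h3⟩
    have hsub := evU_subst a hs K (cK u K) (fun j y l h => cK_apply u K j y l h) L'
      (fun b => inL L b.B) (M.erase x) hL'3 (fun b _ => hsep.filter _) ?_ ?_ ?_ ?_
      (T.col x (cK u K x)) hT'
    · rw [evF_stF hs hctx K T, evU_alU a (u x) K x (atF L' K) hxL' T, hlin, hsub]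
      have e1 : (T.col x (cK u K x)).cols (M.erase x) (cK u K) = T.cols M (cK u K) := by
        refine Trm.ext rfl rfl ?_
        funext i
        simp only [Trm.cols, Trm.col, Finset.mem_erase]
        by_cases hix : i = x
        · subst hix
          rw [if_neg (fun h => h.1 rfl), if_pos hxM, Function.update_self]
        · rw [Function.update_of_ne hix]
          by_cases hiM : i ∈ M
          · rw [if_pos ⟨hix, hiM⟩, if_pos hiM]
          · rw [if_neg (fun h => hiM h.2), if_neg hiM]
      rw [e1]
      symm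
      refine evU_perm a _ _ ?_ (pairwise_disj (a := a) (atF_pairwise K hsep)) _
      refine List.Perm.map _ ?_
      refine (List.perm_ext_iff_of_nodup (L_nodup hsep hconn) ?_).2 ?_
      · rw [List.nodup_flatMap]
        refine ⟨fun b _ => (L_nodup hsep hconn).filter _, ?_⟩
        refine List.Pairwise.imp_of_mem ?_ hL'3
        intro b c hb hc hbc d hd hd'
        obtain ⟨y, hy⟩ := (hconn d (mem_inL.1 hd).1).1
        exact Finset.disjoint_left.1 hbc.1 ((mem_inL.1 hd).2 hy) ((mem_inL.1 hd').2 hy)
      · intro b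
        rw [List.mem_flatMap]
        constructor
        · intro hb
          obtain ⟨y, hy⟩ := (hconn b hb).1
          obtain ⟨A, hA, hyA⟩ := comps_cover hs y (hLer b hb hy)
          obtain ⟨d, hd, hdA⟩ := hL'2 A hA
          refine ⟨d, hd, mem_inL.2 ⟨hb, ?_⟩⟩
          rw [hdA]
          exact hin A hA b hb y hy hyA
        · rintro ⟨d, -, hd⟩
          exact (mem_inL.1 hd).1
    · intro b hb
      constructor
      · intro y hy
        obtain ⟨d, hd, hyd⟩ := (mem_uniR _ y).1 hy
        exact (mem_inL.1 hd).2 hyd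
      · rw [Finset.disjoint_left]
        intro y hy hyM
        obtain ⟨d, hd, hyd⟩ := (mem_uniR _ y).1 hy
        exact (Finset.mem_sdiff.1 (hLsub d (mem_inL.1 hd).1 hyd)).2 (Finset.mem_of_mem_erase hyM)
    · rw [hL'4]
      exact Finset.erase_subset_erase x hM
    · intro b hb y hy
      have hA := (hL'1 b hb).1
      have hye := Finset.mem_erase.1 (comps_subset hA hy)
      by_cases hyM : y ∈ M
      · exact Finset.mem_union_right _ (Finset.mem_erase.2 ⟨hye.1, hyM⟩)
      · refine Finset.mem_union_left _ ?_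
        have hyL : y ∈ uniR L := by
          rw [hcov]
          exact Finset.mem_sdiff.2 ⟨hye.2, hyM⟩
        obtain ⟨d, hd, hyd⟩ := (mem_uniR L y).1 hyL
        exact (mem_uniR _ y).2 ⟨d, mem_inL.2 ⟨hd, hin b.B hA d hd y hyd hy⟩, hyd⟩
    · intro b hb X hX
      rw [hMx b hb]
      exact (hL'1 b hb).2.2.2 X hX

end

end Pool.Agent.H27.KAC
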