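import Pool.Agent.H41.KA.AG9

/-!
KAC ADE, module AG11: the plateau part.

`PPv_sum`: the plateau multiplicities are `m = q` on a set `M` with `q` integral on `M` (then `q x ≥ 1` is a natural number) and
`m = 0` on `R \ M`; the raw term is `upT a (R \ M) k q (T.cols M (fun x => cE a x k))` (the insertion exponent `m - q` is `0` on `M`).
If some `q x`, `x ∈ M`, is larger than `bnd R k q T`, then `T.γ x < 0` and the value is zero (`TV_neg`).

`om_det`: `N = R \ M`.  By `TV_thE` replace the columns `cE a x k`, `x ∈ M`, by `thE a N k x = ∑_{i ∉ N} cEff a N i x • sy i k`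
(`thE_apply`, `thE_apply_mem`); expand all columns (`TV_col_sum` or `MultilinearMap`): functions `g : M → I \ N`.  If `g` is not
injective two columns are equal (`TV_alt`).  If some `s ∈ M` is not in the image of `g`, the value vanishes by `NP_up` for `s`
(`hZ`: `∑_{y ∈ N} a s y q y = 2 q s - ∑_{y ∈ M, y ≠ s} a s y q y - (C_R q)_s` is an integer).  The remaining `g` are the permutations of
`M` (`TV_perm`), their sum is the determinant `detEff`.
-/

set_option autoImplicit false

namespace Pool.Agent.H27.KAC

open scoped BigOperators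

section

variable {I : Type} [Fintype I] [DecidableEq I]

/-- columns `(x,k)` on `M`, `Up_k[q]` on `R ∖ M`. -/
noncomputable def omT (a : I → I → ℕ) (R M : Finset I) (k : ℕ) (q : I → ℚ) (T : Trm I) : Trm I :=
  upT a (R \ M) k q (T.cols M (fun x => sy x k))

/-- positivity of an admissible class. -/
theorem AG11_pos (a : I → I → ℕ) (hs : ∀ i j, a i j = a j i) (R : Finset I) (hR : FinT a R)
    (q : I → ℚ) (hq : QOk a R q) : ∀ x ∈ R, 0 < q x := by
  intro x hx
  have h1 : ∀ i ∈ R, 0 ≤ cqN a R q i := by
    intro i hi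
    obtain ⟨n, hn, he⟩ := hq i hi
    rw [he]; positivity
  have h2 : 0 < cqN a R q x := by
    obtain ⟨n, hn, he⟩ := hq x hx
    rw [he]; exact_mod_cast hn
  have := solN_pos_self hs hR (cqN a R q) h1 x hx h2
  rwa [solN_cqN hs hR q x hx] at this

/-- the plateau multiplicity of `M`. -/
noncomputable def AG11_m (q : I → ℚ) (M : Finset I) : I → ℕ := fun x => if x ∈ M then ⌊q x⌋₊ else 0

theorem AG11_m_cast (a : I → I → ℕ) (hs : ∀ i j, a i j = a j i) (R : Finset I) (hR : FinT a R)
    (q : I → ℚ) (hq : QOk a R q) (M : Finset I) (hM : M ⊆ R) (hMz : ∀ x ∈ M, IsZ (q x)) (x : I)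
    (hx : x ∈ M) : ((AG11_m q M x : ℕ) : ℚ) = q x ∧ AG11_m q M x ≠ 0 := by
  have hp := AG11_pos a hs R hR q hq x (hM hx)
  obtain ⟨n, hn⟩ := hMz x hx
  have hn0 : 0 < n := by
    rw [hn] at hp; exact_mod_cast hp
  obtain ⟨m, rfl⟩ := Int.eq_ofNat_of_zero_le hn0.le
  have h1 : q x = (m : ℚ) := by rw [hn]; push_cast; rfl
  have h2 : AG11_m q M x = m := by
    unfold AG11_m
    rw [if_pos hx, h1, Nat.floor_natCast]
  rw [h2]
  refine ⟨h1.symm, ?_⟩
  have : 0 < m := by exact_mod_cast hn0
  omega

/-- the raw term of a plateau. -/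
theorem AG11_raw (a : I → I → ℕ) (R : Finset I) (k : ℕ) (q : I → ℚ) (m : I → ℕ) (T : Trm I)
    (hm : Plat R q m) :
    rawT a R k q m T = upT a (R \ R.filter (fun x => m x ≠ 0)) k q
      (T.cols (R.filter (fun x => m x ≠ 0)) (fun x => cE a x k)) := by
  have hδ : (fun i => if i ∈ R then (m i : ℚ) - q i else 0) =
      (fun i => -resQ (R \ R.filter (fun x => m x ≠ 0)) q i) := by
    funext i
    unfold resQ
    by_cases hi : i ∈ R
    · by_cases h0 : m i = 0
      · simp [hi, h0]
      · have := (hm i hi).resolve_left h0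
        simp [hi, h0, this]
    · simp [hi]
  unfold rawT upT blkT
  rw [hδ]
  ext1
  · rfl
  · rfl
  · funext i
    simp only [Trm.cols, Trm.eta, Finset.mem_sdiff, Finset.mem_filter]
    by_cases hi : i ∈ R
    · by_cases h0 : m i = 0
      · simp [hi, h0]
      · simp [hi, h0]
    · simp [hi]

open Classical in
theorem PPv_sum (a : I → I → ℕ) (hs : ∀ i j, a i j = a j i) (R : Finset I) (hR : FinT a R) (k : ℕ)
    (hk : 1 ≤ k) (q : I → ℚ) (hq : QOk a R q) (T : Trm I) :
    PPv a R k q T = ∑ M ∈ R.powerset.filter (fun M => ∀ x ∈ M, IsZ (q x)),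
      (-1 : ℚ) ^ (R \ M).card * TV a (upT a (R \ M) k q (T.cols M (fun x => cE a x k))) := by
  unfold PPv
  rw [← sum_raw_bound a R k hk q T (fun m => Plat R q m) (bnd R k q T + ∑ i ∈ R, ⌊q i⌋₊)
    (Nat.le_add_right _ _)]
  refine Finset.sum_nbij' (fun m => R.filter (fun x => m x ≠ 0)) (fun M => AG11_m q M) ?_ ?_ ?_ ?_ ?_
  · intro m hm
    rw [Finset.mem_filter] at hm
    simp only [Finset.mem_filter, Finset.mem_powerset]
    refine ⟨Finset.filter_subset _ _, ?_⟩
    rintro x ⟨hx, h0⟩
    have := (hm.2 x hx).resolve_left h0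
    exact ⟨(m x : ℤ), by rw [← this]; push_cast; rfl⟩
  · intro M hM
    simp only [Finset.mem_filter, Finset.mem_powerset] at hM
    rw [Finset.mem_filter]
    refine ⟨?_, ?_⟩
    · unfold mbox
      rw [Fintype.mem_piFinset]
      intro i
      by_cases hi : i ∈ R
      · rw [if_pos hi, Finset.mem_range]
        unfold AG11_m
        split_ifs
        · have : ⌊q i⌋₊ ≤ ∑ i ∈ R, ⌊q i⌋₊ :=
            Finset.single_le_sum (f := fun i => ⌊q i⌋₊) (fun _ _ => Nat.zero_le _) hi
          omega
        · omega
      · rw [if_neg hi, Finset.mem_singleton]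
        unfold AG11_m
        rw [if_neg (fun h => hi (hM.1 h))]
    · intro x hx
      by_cases hxM : x ∈ M
      · exact Or.inr (AG11_m_cast a hs R hR q hq M hM.1 hM.2 x hxM).1
      · left
        unfold AG11_m
        rw [if_neg hxM]
  · intro m hm
    rw [Finset.mem_filter] at hm
    funext x
    unfold AG11_m
    by_cases hx : x ∈ R
    · by_cases h0 : m x = 0
      · simp [h0]
      · have := (hm.2 x hx).resolve_left h0
        simp only [Finset.mem_filter]
        rw [if_pos ⟨hx, h0⟩, ← this, Nat.floor_natCast]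
    · have h1 := hm.1
      unfold mbox at h1
      rw [Fintype.mem_piFinset] at h1
      have h2 := h1 x
      rw [if_neg hx, Finset.mem_singleton] at h2
      rw [h2]
      simp [hx]
  · intro M hM
    simp only [Finset.mem_filter, Finset.mem_powerset] at hM
    ext x
    simp only [Finset.mem_filter]
    constructor
    · rintro ⟨hx, h0⟩
      by_contra hxM
      exact h0 (by unfold AG11_m; rw [if_neg hxM])
    · intro hxM
      exact ⟨hM.1 hxM, (AG11_m_cast a hs R hR q hq M hM.1 hM.2 x hxM).2⟩
  · intro m hm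
    rw [Finset.mem_filter] at hm
    rw [AG11_raw a R k q m T hm.2]
    congr 1
    unfold sgm
    congr 2
    ext x
    simp only [Finset.mem_sdiff, Finset.mem_filter]
    tauto

/-- the columns on `M` given by a function on the subtype. -/
noncomputable def AG11_c (M : Finset I) (T : Trm I) (c : {x // x ∈ M} → QE I) : Trm I :=
  ⟨T.γ, T.E, fun i => if h : i ∈ M then c ⟨i, h⟩ else T.Λ i⟩

theorem AG11_c_update (M : Finset I) (T : Trm I) (c : {x // x ∈ M} → QE I) (j : {x // x ∈ M})
    (v : QE I) : AG11_c M T (Function.update c j v) = (AG11_c M T c).col j.1 v := by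
  ext1
  · rfl
  · rfl
  · funext i
    simp only [AG11_c, Trm.col]
    by_cases hi : i ∈ M
    · by_cases hij : i = j.1
      · subst hij
        simp [hi]
      · have h1 : (⟨i, hi⟩ : {x // x ∈ M}) ≠ j := by
          intro h
          exact hij (by rw [← h])
        rw [dif_pos hi, Function.update_of_ne h1, Function.update_of_ne hij, dif_pos hi]
    · have hij : i ≠ j.1 := fun h => hi (h ▸ j.2)
      rw [dif_neg hi, Function.update_of_ne hij, dif_neg hi]

/-- the value as a multilinear function of the columns on `M`. -/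
noncomputable def AG11_mul (a : I → I → ℕ) (M : Finset I) (T : Trm I) :
    MultilinearMap ℚ (fun _ : {x // x ∈ M} => QE I) ℚ where
  toFun c := TV a (AG11_c M T c)
  map_update_add' := by
    intro inst c j v w
    cases Subsingleton.elim inst (Subtype.instDecidableEq)
    rw [AG11_c_update, AG11_c_update, AG11_c_update, TV_col_add]
  map_update_smul' := by
    intro inst c j r v
    cases Subsingleton.elim inst (Subtype.instDecidableEq)
    rw [AG11_c_update, AG11_c_update, TV_col_smul, smul_eq_mul]

/-- exponents of the `Up` term. -/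
theorem AG11_upE (a : I → I → ℕ) (hs : ∀ i j, a i j = a j i) (N : Finset I) (k : ℕ) (q : I → ℚ)
    (T : Trm I) (i : I) (l : ℕ) :
    (upT a N k q T).E (i, l) = T.E (i, l) + if l = k then cqN a N q i else 0 := by
  unfold upT
  rw [blkT_E]
  congr 1
  split_ifs
  · unfold cqN
    refine Finset.sum_congr rfl fun y _ => ?_
    have : cart a y i = cart a i y := by unfold cart; simp [hs y i, eq_comm]
    rw [this]; ring
  · rfl

/-- expansion of the effective column. -/
theorem AG11_thE_sum {a : I → I → ℕ} (hs : ∀ i j, a i j = a j i) {N : Finset I} (hN : FinT a N)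
    (k : ℕ) (x : I) (hx : x ∉ N) :
    thE a N k x = ∑ i : I, (if i ∈ N then 0 else cEff a N i x) • sy i k := by
  ext ⟨i, l⟩
  rw [Finsupp.finsetSum_apply]
  rw [Finset.sum_eq_single i]
  · simp only [Finsupp.smul_apply, smul_eq_mul]
    by_cases hi : i ∈ N
    · rw [thE_apply_mem hs hN k x i hx hi l, if_pos hi, zero_mul]
    · rw [thE_apply hs hN k x i hx hi l, if_neg hi]
      by_cases hl : l = k
      · subst hl
        rw [if_pos rfl, Finsupp.single_eq_same, mul_one]
      · rw [if_neg hl, Finsupp.single_eq_of_ne (by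
          intro h; exact hl (Prod.mk.inj h).2), mul_zero]
  · intro j _ hj
    simp only [Finsupp.smul_apply, smul_eq_mul]
    rw [Finsupp.single_eq_of_ne (by
      intro h; exact hj (Prod.mk.inj h).1.symm), mul_zero]
  · intro h; exact absurd (Finset.mem_univ i) h

theorem om_det (a : I → I → ℕ) (hs : ∀ i j, a i j = a j i) (cd : CrossData a) (R : Finset I)
    (hR : FinT a R) (k : ℕ) (hk : 1 ≤ k) (q : I → ℚ) (hq : QOk a R q) (M : Finset I) (hM : M ⊆ R)
    (hMz : ∀ x ∈ M, IsZ (q x))
    (hfam : M.Nonempty → ∀ A ∈ comps a (R \ M), UpFam a cd A q k) (T : Trm I) (hT : RReg R T) :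
    TV a (upT a (R \ M) k q (T.cols M (fun x => cE a x k))) =
      detEff a (R \ M) M * TV a (omT a R M k q T) := by
  classical
  set N : Finset I := R \ M with hNdef
  have hNR : N ⊆ R := Finset.sdiff_subset
  have hN : FinT a N := hR.mono hNR
  have hMN : Disjoint M N := Finset.disjoint_sdiff
  have hnotN : ∀ x ∈ M, x ∉ N := fun x hx h => (Finset.mem_sdiff.1 h).2 hx
  have hnotM : ∀ x ∈ N, x ∉ M := fun x hx => (Finset.mem_sdiff.1 hx).2
  have hqN : QOk a N q := by
    refine QOk_sub hs hR hq N hNR ?_
    intro y _ x hx hxN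
    right
    apply hMz
    by_contra hxM
    exact hxN (Finset.mem_sdiff.2 ⟨hx, hxM⟩)
  -- the general Up term
  set U : ({x // x ∈ M} → QE I) → Trm I := fun c => AG11_c M (upT a N k q T) c with hU
  have hUeq : ∀ c : I → QE I, upT a N k q (T.cols M c) = U (fun x => c x.1) := by
    intro c
    simp only [hU, AG11_c, upT, blkT, Trm.cols, Trm.eta]
    ext1
    · rfl
    · rfl
    · funext i
      by_cases hi : i ∈ M
      · have : i ∉ N := hnotN i hi
        simp [hi, this]
      · simp [hi]
  have hreg : ∀ x ∈ N, FReg (upT a N k q (T.cols M (fun x => cE a x k))) x k (k - 1) := by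
    intro x hx
    have hxR := hNR hx
    obtain ⟨n, hn, he⟩ := hqN x hx
    refine ⟨?_, ?_, ?_⟩
    · intro l hl hlk
      rw [AG11_upE a hs, if_neg hlk, add_zero]
      exact hT.nat x hxR l hl
    · rw [AG11_upE a hs, if_pos rfl, he]
      obtain ⟨m, hm⟩ := hT.nat x hxR k hk
      refine ⟨(m : ℤ) + n, ?_⟩
      change T.E (x, k) + (n : ℚ) = _
      rw [hm]; push_cast; rfl
    · intro j l hl hne
      by_cases hjN : j ∈ N
      · left
        have : (upT a N k q (T.cols M (fun x => cE a x k))).Λ j = sy j (k - 1) := by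
          simp [upT, blkT, Trm.cols, Trm.eta, hjN]
        rw [this] at hne
        by_contra hlk
        exact hne (Finsupp.single_eq_of_ne (fun h => hlk (Prod.mk.inj h).2))
      · by_cases hjM : j ∈ M
        · right; left
          have : (upT a N k q (T.cols M (fun x => cE a x k))).Λ j = cE a j k := by
            simp [upT, blkT, Trm.cols, Trm.eta, hjN, hjM]
          rw [this, cE_apply] at hne
          by_contra hlk
          exact hne (if_neg hlk)
        · right; right
          have : (upT a N k q (T.cols M (fun x => cE a x k))).Λ j = T.Λ j := by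
            simp [upT, blkT, Trm.cols, Trm.eta, hjN, hjM]
          rw [this] at hne
          have hjR : j ∉ R := by
            intro hjR
            exact hjN (Finset.mem_sdiff.2 ⟨hjR, hjM⟩)
          have h1 := hT.col x hxR j hjR l hl hne
          rw [AG11_upE a hs]
          change 1 ≤ T.E (x, l) + _
          split_ifs with hlk
          · rw [he]
            have : (0:ℚ) ≤ n := by positivity
            linarith
          · linarith
  have hsol : ∀ x ∈ N, 0 < solN a N (fun i => (upT a N k q (T.cols M (fun x => cE a x k))).E (i, k)) x := by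
    have hp : ∀ i ∈ N, 0 < (upT a N k q (T.cols M (fun x => cE a x k))).E (i, k) := by
      intro i hi
      rw [AG11_upE a hs, if_pos rfl]
      obtain ⟨n, hn, he⟩ := hqN i hi
      obtain ⟨m, hm⟩ := hT.nat i (hNR hi) k hk
      change 0 < T.E (i, k) + _
      rw [he, hm]
      have : (1:ℚ) ≤ n := by exact_mod_cast hn
      positivity
    intro x hx
    exact solN_pos_self hs hN _ (fun i hi => (hp i hi).le) x hx (hp x hx)
  have hstep := TV_thE a hs N hN k hk (fun _ => k - 1)
    (fun x _ => Or.inr (Nat.sub_add_cancel hk)) M hMN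
    (upT a N k q (T.cols M (fun x => cE a x k))) hreg hsol (by
      intro x hx
      simp [upT, blkT, Trm.cols, Trm.eta, hx, hnotN x hx])
  have hcols : (upT a N k q (T.cols M (fun x => cE a x k))).cols M (fun x => thE a N k x) =
      U (fun x => thE a N k x.1) := by
    rw [← hUeq]
    simp only [upT, blkT, Trm.cols, Trm.eta]
    ext1
    · rfl
    · rfl
    · funext i
      by_cases hi : i ∈ M
      · have : i ∉ N := hnotN i hi
        simp [hi, this]
      · simp [hi]
  rw [hstep, hcols]
  -- expansion
  have hexp : TV a (U (fun x => thE a N k x.1)) =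
      ∑ r : {x // x ∈ M} → I, (∏ x : {x // x ∈ M}, (if r x ∈ N then 0 else cEff a N (r x) x.1)) *
        TV a (U (fun x => sy (r x) k)) := by
    have h1 : (fun x : {x // x ∈ M} => thE a N k x.1) =
        fun x : {x // x ∈ M} => ∑ i : I, (if i ∈ N then 0 else cEff a N i x.1) • sy i k := by
      funext x
      exact AG11_thE_sum hs hN k x.1 (hnotN x.1 x.2)
    have h2 : TV a (U (fun x => thE a N k x.1)) =
        AG11_mul a M (upT a N k q T) (fun x => thE a N k x.1) := rfl
    rw [h2, h1, MultilinearMap.map_sum]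
    refine Finset.sum_congr rfl fun r _ => ?_
    rw [MultilinearMap.map_smul_univ, smul_eq_mul]
    rfl
  rw [hexp]
  -- vanishing
  have hvan : ∀ r : {x // x ∈ M} → I, (¬ ∀ s ∈ M, ∃ x, r x = s) →
      (∏ x : {x // x ∈ M}, (if r x ∈ N then 0 else cEff a N (r x) x.1)) *
        TV a (U (fun x => sy (r x) k)) = 0 := by
    intro r hr
    by_cases hrN : ∃ x, r x ∈ N
    · obtain ⟨x, hx⟩ := hrN
      have h0 : (∏ x : {x // x ∈ M}, (if r x ∈ N then (0 : ℚ) else cEff a N (r x) x.1)) = 0 :=
        Finset.prod_eq_zero (Finset.mem_univ x) (if_pos hx)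
      rw [h0, zero_mul]
    push Not at hr hrN
    obtain ⟨s, hsM, hsr⟩ := hr
    have hsR := hM hsM
    set T1 : Trm I := AG11_c M T (fun x => sy (r x) k) with hT1
    have hT1Λ : ∀ j, j ∉ M → T1.Λ j = T.Λ j := by
      intro j hj
      simp only [hT1, AG11_c]
      rw [dif_neg hj]
    have hT1M : ∀ j (hj : j ∈ M), T1.Λ j = sy (r ⟨j, hj⟩) k := by
      intro j hj
      simp only [hT1, AG11_c]
      rw [dif_pos hj]
    have hUr : U (fun x => sy (r x) k) = upT a N k q T1 := by
      simp only [hU, hT1, AG11_c, upT, blkT, Trm.cols, Trm.eta]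
      ext1
      · rfl
      · rfl
      · funext i
        by_cases hi : i ∈ M
        · have : i ∉ N := hnotN i hi
          simp [hi, this]
        · simp [hi]
    have hNP := NP_up a hs cd N hN q hqN k hk (hfam ⟨s, hsM⟩) s (hnotN s hsM)
      (hR.loopfree s hsR) (by
        obtain ⟨n, hn, he⟩ := hq s hsR
        have h1 : ∑ j ∈ N, (cart a s j : ℚ) * q j + ∑ j ∈ M, (cart a s j : ℚ) * q j = n := by
          rw [← he]
          unfold cqN
          rw [hNdef]
          exact Finset.sum_sdiff hM
        have h2 : ∑ j ∈ N, (cart a s j : ℚ) * q j = - ∑ j ∈ N, (a s j : ℚ) * q j := by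
          rw [← Finset.sum_neg_distrib]
          refine Finset.sum_congr rfl fun j hj => ?_
          have hne : s ≠ j := fun h => hnotN s hsM (h ▸ hj)
          have : cart a s j = -(a s j : ℤ) := by
            unfold cart
            simp [hne]
          rw [this]; push_cast; ring
        have h3 : IsZ (∑ j ∈ M, (cart a s j : ℚ) * q j) := by
          choose z hz using hMz
          refine ⟨∑ j ∈ M.attach, cart a s j.1 * z j.1 j.2, ?_⟩
          rw [← Finset.sum_attach]
          push_cast
          refine Finset.sum_congr rfl fun j _ => ?_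
          rw [hz j.1 j.2]
        obtain ⟨z, hz⟩ := h3
        refine ⟨z - n, ?_⟩
        rw [h2, hz] at h1
        push_cast
        linarith) T1 (by
        refine ⟨?_, ?_⟩
        · intro x hx l hl
          exact hT.nat x (hNR hx) l hl
        · intro x hx j hj l hl hne
          by_cases hjM : j ∈ M
          · rw [hT1M j hjM] at hne
            exfalso
            apply hne
            apply Finsupp.single_eq_of_ne
            intro h
            exact hrN ⟨j, hjM⟩ ((Prod.mk.inj h).1 ▸ hx)
          · rw [hT1Λ j hjM] at hne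
            exact hT.col x (hNR hx) j (fun h => hj (Finset.mem_sdiff.2 ⟨h, hjM⟩)) l hl hne)
      (by
        intro l hl
        exact hT.nat s hsR l hl) (by
        intro j hj l hl hne
        by_cases hjM : j ∈ M
        · rw [hT1M j hjM] at hne
          exfalso
          apply hne
          apply Finsupp.single_eq_of_ne
          intro h
          exact hsr ⟨j, hjM⟩ ((Prod.mk.inj h).1.symm)
        · rw [hT1Λ j hjM] at hne
          exact hT.col s hsR j (fun h => hj (Finset.mem_sdiff.2 ⟨h, hjM⟩)) l hl hne)
    rw [hUr, hNP, mul_zero]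
  -- permutations
  have hsum : ∑ r : {x // x ∈ M} → I,
      (∏ x : {x // x ∈ M}, (if r x ∈ N then 0 else cEff a N (r x) x.1)) *
        TV a (U (fun x => sy (r x) k)) =
      ∑ σ : Equiv.Perm {x // x ∈ M}, (∏ x : {x // x ∈ M}, cEff a N (σ x).1 x.1) *
        TV a (U (fun x => sy (σ x).1 k)) := by
    symm
    refine Finset.sum_of_injOn (fun σ : Equiv.Perm {x // x ∈ M} => fun x => (σ x).1) ?_ ?_ ?_ ?_
    · intro σ _ τ _ h
      ext x
      exact congrFun h x
    · intro σ _
      exact Finset.mem_coe.2 (Finset.mem_univ _)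
    · intro r _ hr
      apply hvan
      intro hall
      apply hr
      -- r is onto M, hence a permutation
      have hsurj : ∃ g : {x // x ∈ M} → {x // x ∈ M}, ∀ s, r (g s) = s.1 := by
        choose g hg using fun s : {x // x ∈ M} => hall s.1 s.2
        exact ⟨g, hg⟩
      obtain ⟨g, hg⟩ := hsurj
      have hginj : Function.Injective g := by
        intro s t hst
        apply Subtype.ext
        rw [← hg s, ← hg t, hst]
      have hgbij : Function.Bijective g := Finite.injective_iff_bijective.1 hginj
      set e := Equiv.ofBijective g hgbij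
      refine ⟨e.symm, Finset.mem_coe.2 (Finset.mem_univ _), ?_⟩
      funext x
      have : g (e.symm x) = x := e.apply_symm_apply x
      show (e.symm x).1 = r x
      rw [← hg (e.symm x), this]
    · intro σ _
      congr 1
      refine Finset.prod_congr rfl fun x _ => ?_
      rw [if_neg (hnotN (σ x).1 (σ x).2)]
  rw [hsum]
  have hom : omT a R M k q T = U (fun x => sy x.1 k) := by
    unfold omT
    rw [← hNdef, hUeq]
  have hperm : ∀ σ : Equiv.Perm {x // x ∈ M}, TV a (U (fun x => sy (σ x).1 k)) =
      ((Equiv.Perm.sign σ : ℤ) : ℚ) * TV a (omT a R M k q T) := by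
    intro σ
    have h1 := TV_perm a (omT a R M k q T) (Equiv.Perm.ofSubtype σ)
    rw [Equiv.Perm.sign_ofSubtype] at h1
    rw [← h1, hom]
    congr 1
    ext1
    · rfl
    · rfl
    · funext i
      simp only [hU, AG11_c]
      by_cases hi : i ∈ M
      · rw [dif_pos hi, Equiv.Perm.ofSubtype_apply_of_mem σ hi, dif_pos (σ ⟨i, hi⟩).2]
      · rw [dif_neg hi, Equiv.Perm.ofSubtype_apply_of_not_mem σ hi, dif_neg hi]
  unfold detEff
  rw [Matrix.det_apply', Finset.sum_mul]
  refine Finset.sum_congr rfl fun σ _ => ?_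
  rw [hperm σ]
  simp only [Matrix.of_apply, cEff]
  ring

open Classical in
theorem PPv_eq (a : I → I → ℕ) (hs : ∀ i j, a i j = a j i) (cd : CrossData a) (R : Finset I)
    (hR : FinT a R) (k : ℕ) (hk : 1 ≤ k) (q : I → ℚ) (hq : QOk a R q)
    (hfam : ∀ M ⊆ R, M.Nonempty → (∀ x ∈ M, IsZ (q x)) →
      ∀ A ∈ comps a (R \ M), UpFam a cd A q k) (T : Trm I) (hT : RReg R T) :
    PPv a R k q T = ∑ M ∈ R.powerset.filter (fun M => ∀ x ∈ M, IsZ (q x)),
      (-1 : ℚ) ^ (R \ M).card * detEff a (R \ M) M * TV a (omT a R M k q T) := by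
  rw [PPv_sum a hs R hR k hk q hq T]
  refine Finset.sum_congr rfl fun M hM => ?_
  rw [Finset.mem_filter, Finset.mem_powerset] at hM
  rw [om_det a hs cd R hR k hk q hq M hM.1 hM.2
    (fun hne => hfam M hM.1 hne hM.2) T hT, mul_assoc]

end

end Pool.Agent.H27.KAC
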