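import Pool.Agent.H41.KA.AG0
import Pool.Agent.H41.KA.AE1

/-!
KAC ADE, module AG12: the recursion for the response numbers.

Fuel: in `cnA (n+1) A q g` the recursive calls are `cnA n N q (g - mm N)` with `N ⊆ A`, `mm N ≥ 2`, `mm N ≤ g`; so
`N.card + (g - mm N) + 1 ≤ A.card + g - 1`.
-/

set_option autoImplicit false

namespace Pool.Agent.H27.KAC

open scoped BigOperators

section

variable {I : Type} [Fintype I] [DecidableEq I]

open Classical in
theorem AG12_succ (a : I → I → ℕ) (cd : CrossData a) (n : ℕ) (A : Finset I) (q : I → ℚ) (g : ℕ) :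
    cnA a cd (n + 1) A q g = if g = 0 then 1
    else ∑ M ∈ A.powerset.filter (fun M => ∀ x ∈ M, IsZ (q x)),
      (-1) ^ (A \ M).card * detEff a (A \ M) M * (g : ℚ) ^ M.card *
        ∏ N ∈ comps a (A \ M),
          (if cd.mm N ≤ g then cd.eps N q * cnA a cd n N q (g - cd.mm N) else 0) := by
  rw [cnA]

theorem AG12_two (a : I → I → ℕ) (cd : CrossData a) (q : I → ℚ) (n : ℕ) :
    ∀ (n' : ℕ) (A : Finset I) (g : ℕ), A.card + g + 1 ≤ n → A.card + g + 1 ≤ n' →
      cnA a cd n A q g = cnA a cd n' A q g := by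
  classical
  induction n with
  | zero => intro n' A g h; omega
  | succ n ih =>
    intro n' A g h h'
    obtain ⟨k, rfl⟩ : ∃ k, n' = k + 1 := ⟨n' - 1, by omega⟩
    rw [AG12_succ, AG12_succ]
    by_cases hg : g = 0
    · rw [if_pos hg, if_pos hg]
    · rw [if_neg hg, if_neg hg]
      refine Finset.sum_congr rfl (fun M _ => ?_)
      congr 1
      refine Finset.prod_congr rfl (fun N hN => ?_)
      by_cases hm : cd.mm N ≤ g
      · rw [if_pos hm, if_pos hm]
        have h1 : N.card ≤ A.card :=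
          Finset.card_le_card ((comps_subset hN).trans Finset.sdiff_subset)
        have h2 := cd.two_le N
        rw [ih k N (g - cd.mm N) (by omega) (by omega)]
      · rw [if_neg hm, if_neg hm]

theorem cnA_fuel (a : I → I → ℕ) (cd : CrossData a) (n : ℕ) (A : Finset I) (q : I → ℚ) (g : ℕ)
    (h : A.card + g + 1 ≤ n) : cnA a cd n A q g = cn a cd A q g := by
  unfold cn
  exact AG12_two a cd q n _ A g h le_rfl

theorem cn_zero (a : I → I → ℕ) (cd : CrossData a) (A : Finset I) (q : I → ℚ) :
    cn a cd A q 0 = 1 := by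
  unfold cn
  rw [AG12_succ, if_pos rfl]

open Classical in
theorem cn_rec (a : I → I → ℕ) (cd : CrossData a) (A : Finset I) (q : I → ℚ) (g : ℕ)
    (hg : 1 ≤ g) : cn a cd A q g =
      ∑ M ∈ A.powerset.filter (fun M => ∀ x ∈ M, IsZ (q x)),
        (-1 : ℚ) ^ (A \ M).card * detEff a (A \ M) M * (g : ℚ) ^ M.card *
          ∏ N ∈ comps a (A \ M), upw a cd N q g := by
  unfold cn
  rw [AG12_succ, if_neg (by omega)]
  refine Finset.sum_congr rfl (fun M _ => ?_)
  congr 1
  refine Finset.prod_congr rfl (fun N hN => ?_)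
  unfold upw
  by_cases hm : cd.mm N ≤ g
  · rw [if_pos hm, if_pos hm]
    have h1 : N.card ≤ A.card :=
      Finset.card_le_card ((comps_subset hN).trans Finset.sdiff_subset)
    have h2 := cd.two_le N
    rw [cnA_fuel a cd _ N q (g - cd.mm N) (by omega)]
  · rw [if_neg hm, if_neg hm]

theorem AG12_isZ {x y : ℚ} (h : IsZ (x - y)) : IsZ x ↔ IsZ y := by
  obtain ⟨k, hk⟩ := h
  constructor
  · rintro ⟨m, hm⟩
    exact ⟨m - k, by push_cast; linarith⟩
  · rintro ⟨m, hm⟩
    exact ⟨m + k, by push_cast; linarith⟩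

theorem cn_congr (a : I → I → ℕ) (cd : CrossData a) (A : Finset I) (q q' : I → ℚ)
    (h : ∀ x ∈ A, IsZ (q x - q' x)) (g : ℕ) : cn a cd A q g = cn a cd A q' g := by
  classical
  induction g using Nat.strong_induction_on generalizing A with
  | _ g ih =>
    rcases Nat.eq_zero_or_pos g with rfl | hg
    · rw [cn_zero, cn_zero]
    · rw [cn_rec a cd A q g hg, cn_rec a cd A q' g hg]
      have hf : A.powerset.filter (fun M => ∀ x ∈ M, IsZ (q x)) =
          A.powerset.filter (fun M => ∀ x ∈ M, IsZ (q' x)) := by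
        refine Finset.filter_congr (fun M hM => ?_)
        rw [Finset.mem_powerset] at hM
        exact ⟨fun H x hx => (AG12_isZ (h x (hM hx))).1 (H x hx),
          fun H x hx => (AG12_isZ (h x (hM hx))).2 (H x hx)⟩
      rw [hf]
      refine Finset.sum_congr rfl (fun M _ => ?_)
      congr 1
      refine Finset.prod_congr rfl (fun N hN => ?_)
      have hsub : N ⊆ A := (comps_subset hN).trans Finset.sdiff_subset
      have hN' : ∀ x ∈ N, IsZ (q x - q' x) := fun x hx => h x (hsub hx)
      unfold upw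
      by_cases hm : cd.mm N ≤ g
      · rw [if_pos hm, if_pos hm]
        have h2 := cd.two_le N
        rw [ih (g - cd.mm N) (by omega) N hN', cd.eps_congr N q q' hN']
      · rw [if_neg hm, if_neg hm]

theorem upw_congr (a : I → I → ℕ) (cd : CrossData a) (A : Finset I) (q q' : I → ℚ)
    (h : ∀ x ∈ A, IsZ (q x - q' x)) (g : ℕ) : upw a cd A q g = upw a cd A q' g := by
  unfold upw
  rw [cn_congr a cd A q q' h, cd.eps_congr A q q' h]

end

end Pool.Agent.H27.KAC
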