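import Pool.Agent.H41.KA.AG12

/-!
KAC ADE, module AG12b: integrality of the support of the response numbers.

Strong induction on `A.card + g` with `cn_rec`: some `M` has `∏_N upw N q g ≠ 0`; for `N` a component of `A \ M`:
`mm N ≤ g`, `cn N q (g - mm N) ≠ 0`, so `(g - mm N) q` is integral on `N` (induction; `C_N q` is integral because `q` is integral on
`M`) and `mm N * q` is integral on `N` (`cd.integral`).
-/

set_option autoImplicit false

namespace Pool.Agent.H27.KAC

open scoped BigOperators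

section

variable {I : Type} [Fintype I] [DecidableEq I]

theorem AG12b_zadd {p q : ℚ} (hp : IsZ p) (hq : IsZ q) : IsZ (p + q) := by
  obtain ⟨m, rfl⟩ := hp
  obtain ⟨n, rfl⟩ := hq
  exact ⟨m + n, by push_cast; ring⟩

theorem AG12b_zsub {p q : ℚ} (hp : IsZ p) (hq : IsZ q) : IsZ (p - q) := by
  obtain ⟨m, rfl⟩ := hp
  obtain ⟨n, rfl⟩ := hq
  exact ⟨m - n, by push_cast; ring⟩

theorem AG12b_zmul (m : ℤ) {q : ℚ} (hq : IsZ q) : IsZ ((m : ℚ) * q) := by
  obtain ⟨n, rfl⟩ := hq
  exact ⟨m * n, by push_cast; ring⟩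

theorem AG12b_zsum {ι : Type} (s : Finset ι) (g : ι → ℚ) (h : ∀ i ∈ s, IsZ (g i)) :
    IsZ (∑ i ∈ s, g i) := by
  classical
  induction s using Finset.induction_on with
  | empty => exact ⟨0, by simp⟩
  | insert i s hi ih =>
    rw [Finset.sum_insert hi]
    exact AG12b_zadd (h i (Finset.mem_insert_self i s))
      (ih fun j hj => h j (Finset.mem_insert_of_mem hj))

/-- the reduction from `upw` to `cn`. -/
theorem AG12b_up (a : I → I → ℕ) (cd : CrossData a) (A : Finset I)
    (hA : FinT a A) (hc : ConnS a A) (q : I → ℚ) (hq : ∀ x ∈ A, IsZ (cqN a A q x)) (g : ℕ)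
    (ih : ∀ g' : ℕ, cd.mm A ≤ g → g' = g - cd.mm A → cn a cd A q g' ≠ 0 →
      ∀ x ∈ A, IsZ ((g' : ℚ) * q x))
    (h : upw a cd A q g ≠ 0) : ∀ x ∈ A, IsZ ((g : ℚ) * q x) := by
  intro x hx
  unfold upw at h
  by_cases hm : cd.mm A ≤ g
  · rw [if_pos hm] at h
    have h1 := ih _ hm rfl (right_ne_zero_of_mul h) x hx
    have h2 := cd.integral A q hA hc hq x hx
    have e : (g : ℚ) * q x = ((g - cd.mm A : ℕ) : ℚ) * q x + (cd.mm A : ℚ) * q x := by
      rw [Nat.cast_sub hm]
      ring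
    rw [e]
    exact AG12b_zadd h1 h2
  · rw [if_neg hm] at h
    exact absurd rfl h

/-- restriction of the integrality condition to a component. -/
theorem AG12b_comp (a : I → I → ℕ) {A M N : Finset I} (hM : M ⊆ A)
    {q : I → ℚ} (hqM : ∀ x ∈ M, IsZ (q x)) (hN : N ∈ comps a (A \ M))
    (hq : ∀ x ∈ A, IsZ (cqN a A q x)) : ∀ y ∈ N, IsZ (cqN a N q y) := by
  intro y hy
  have hNA : N ⊆ A := (comps_subset hN).trans Finset.sdiff_subset
  have e : cqN a N q y = cqN a A q y - ∑ j ∈ A \ N, (cart a y j : ℚ) * q j := by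
    unfold cqN
    rw [← Finset.sum_sdiff hNA]
    ring
  rw [e]
  refine AG12b_zsub (hq y (hNA hy)) (AG12b_zsum _ _ fun j hj => ?_)
  rw [Finset.mem_sdiff] at hj
  by_cases hjM : j ∈ M
  · exact AG12b_zmul _ (hqM j hjM)
  · have h0 := comps_sep hN y hy j (Finset.mem_sdiff.2 ⟨hj.1, hjM⟩) hj.2
    have hne : y ≠ j := fun h => hj.2 (h ▸ hy)
    have hcart : cart a y j = 0 := by
      unfold cart
      rw [if_neg hne, h0]
      rfl
    rw [hcart]
    exact ⟨0, by simp⟩

theorem cn_wint (a : I → I → ℕ) (hs : ∀ i j, a i j = a j i) (cd : CrossData a) (A : Finset I)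
    (hA : FinT a A) (hc : ConnS a A) (q : I → ℚ) (hq : ∀ x ∈ A, IsZ (cqN a A q x)) (g : ℕ)
    (h : cn a cd A q g ≠ 0) : ∀ x ∈ A, IsZ ((g : ℚ) * q x) := by
  classical
  induction g using Nat.strong_induction_on generalizing A with
  | _ g ih =>
    rcases Nat.eq_zero_or_pos g with h0 | h1
    · intro x _
      rw [h0]
      exact ⟨0, by simp⟩
    · rw [cn_rec a cd A q g h1] at h
      obtain ⟨M, hM, hne⟩ := Finset.exists_ne_zero_of_sum_ne_zero h
      rw [Finset.mem_filter, Finset.mem_powerset] at hM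
      obtain ⟨hMA, hqM⟩ := hM
      have hprod := right_ne_zero_of_mul hne
      rw [Finset.prod_ne_zero_iff] at hprod
      intro x hx
      by_cases hxM : x ∈ M
      · have e : (g : ℚ) * q x = ((g : ℤ) : ℚ) * q x := by push_cast; ring
        rw [e]
        exact AG12b_zmul _ (hqM x hxM)
      · obtain ⟨N, hN, hxN⟩ := comps_cover hs x (Finset.mem_sdiff.2 ⟨hx, hxM⟩)
        have hNA : N ⊆ A := (comps_subset hN).trans Finset.sdiff_subset
        refine AG12b_up a cd N (hA.mono hNA) (comps_conn hN) q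
          (AG12b_comp a hMA hqM hN hq) g ?_ (hprod N hN) x hxN
        intro g' hm hg' hcn
        have h2 := cd.two_le N
        exact ih g' (by omega) N (hA.mono hNA) (comps_conn hN) (AG12b_comp a hMA hqM hN hq) hcn

theorem upw_wint (a : I → I → ℕ) (hs : ∀ i j, a i j = a j i) (cd : CrossData a) (A : Finset I)
    (hA : FinT a A) (hc : ConnS a A) (q : I → ℚ) (hq : ∀ x ∈ A, IsZ (cqN a A q x)) (g : ℕ)
    (h : upw a cd A q g ≠ 0) : ∀ x ∈ A, IsZ ((g : ℚ) * q x) :=
  AG12b_up a cd A hA hc q hq g (fun g' _ _ hcn => cn_wint a hs cd A hA hc q hq g' hcn) h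

end

end Pool.Agent.H27.KAC
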