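import Pool.Agent.H41.KA.AG10
import Pool.Agent.H41.KA.AG11
import Pool.Agent.H41.KA.AG12

/-!
KAC ADE, module AG13: the response theorem for clusters.

`Resp.combo`: linear combinations.  `Resp.extend`: one more frontier, given by the functional `tau_{L+1}`.
`Resp.const`: if the functional at the frontier `L` is `tau_{L+1}[q]`, the family can be continued by the same functional with
weights zero up to the frontier `L + mm A - 1` (`cd.rv`).

`UpFam_of_Tau`: `k < mm A`: the zero family, `cd.cr0`; `mm A ≤ k`: `Φ' f = smF (eps) (Φ (min f (k - mm A)))`, `Resp.const`, `cd.cr`.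

`OmFam_of_Up` (`M` nonempty): `RPT` with `K = k - 1`, `u x l = k - l`, blocks = the `Up` families of the components of `R \ M`
(`exists_RB_list`, `QOk_sub`), `evU_eval_up`.

`TauFam_all`: strong induction on `A.card`, then on `L`.  `L = 0`: `Φ f = [(1, ⟨0, q⟩)]`.  `L ≥ 1`: the combination of the `OmFam`
families for `M ≠ ∅` and of the `Up` family of `A` for `M = ∅` (`comps_of_conn`) with coefficients
`(-1)^{|A \ M|} detEff (A \ M) M`; by `PPv_eq` its value at the frontier `L - 1` is `PPv a A L q T`; extend by `Resp.extend`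
(`TV_step_split`).  The weights are `cn (L - l)` by `cn_rec`, `cn_zero`.
-/

set_option autoImplicit false

namespace Pool.Agent.H27.KAC

open scoped BigOperators

section

variable {I : Type} [Fintype I] [DecidableEq I]

theorem Resp.congr_w {a : I → I → ℕ} {cd : CrossData a} {B : Finset I} {q : I → ℚ} {K : ℕ}
    {w w' : ℕ → ℚ} {Φ : ℕ → FFn I} (h : Resp a cd B q K w Φ) (hw : ∀ l, l ≤ K → w l = w' l) :
    Resp a cd B q K w' Φ := by
  refine ⟨h.win, fun T hT => ?_, fun f h1 h2 T hT => ?_, fun f h1 h2 T hT hk => ?_⟩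
  · rw [← hw 0 (Nat.zero_le _)]
    exact h.a0 T hT
  · rw [← hw f h2]
    exact h.stp f h1 h2 T hT
  · rw [← hw f h2]
    exact h.knk f h1 h2 T hT hk

theorem AG13_evF_flatMap (a : I → I → ℕ) (B : Finset I) {ι : Type} (S : List ι) (c : ι → ℚ)
    (Φ : ι → FFn I) (T : Trm I) :
    evF a B (S.flatMap (fun i => smF (c i) (Φ i))) T =
      (S.map (fun i => c i * evF a B (Φ i) T)).sum := by
  induction S with
  | nil => simp [evF]
  | cons i S ih =>
    rw [List.flatMap_cons, evF_append, ih, evF_smF, List.map_cons, List.sum_cons]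

theorem AG13_sum_mul {ι : Type} (S : List ι) (F : ι → ℚ) (g : ι → ℚ) (r : ℚ)
    (h : ∀ i ∈ S, F i = g i * r) : (S.map F).sum = (S.map g).sum * r := by
  induction S with
  | nil => simp
  | cons i S ih =>
    rw [List.map_cons, List.sum_cons, List.map_cons, List.sum_cons,
      ih (fun j hj => h j (List.mem_cons_of_mem _ hj)), h i (List.mem_cons_self ..)]
    ring

theorem AG13_sum_sub {ι : Type} (S : List ι) (F G : ι → ℚ) :
    (S.map F).sum - (S.map G).sum = (S.map (fun i => F i - G i)).sum := by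
  induction S with
  | nil => simp
  | cons i S ih =>
    rw [List.map_cons, List.sum_cons, List.map_cons, List.sum_cons, List.map_cons, List.sum_cons,
      ← ih]
    ring

theorem Resp.combo (a : I → I → ℕ) (cd : CrossData a) (B : Finset I) (q : I → ℚ) (K : ℕ)
    {ι : Type} (S : List ι) (c : ι → ℚ) (w : ι → ℕ → ℚ) (Φ : ι → ℕ → FFn I)
    (h : ∀ i ∈ S, Resp a cd B q K (w i) (Φ i)) :
    Resp a cd B q K (fun l => (S.map (fun i => c i * w i l)).sum)
      (fun f => S.flatMap (fun i => smF (c i) (Φ i f))) ∧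
    ∀ f (T : Trm I), evF a B (S.flatMap (fun i => smF (c i) (Φ i f))) T =
      (S.map (fun i => c i * evF a B (Φ i f) T)).sum := by
  have key : ∀ f (T : Trm I), evF a B (S.flatMap (fun i => smF (c i) (Φ i f))) T =
      (S.map (fun i => c i * evF a B (Φ i f) T)).sum :=
    fun f T => AG13_evF_flatMap a B S c (fun i => Φ i f) T
  refine ⟨⟨?_, ?_, ?_, ?_⟩, key⟩
  · intro f hf d hd
    obtain ⟨i, hi, hd'⟩ := List.mem_flatMap.1 hd
    unfold smF at hd'
    obtain ⟨e, he, rfl⟩ := List.mem_map.1 hd'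
    exact (h i hi).win f hf e he
  · intro T hT
    rw [key]
    apply AG13_sum_mul
    intro i hi
    rw [(h i hi).a0 T hT]
    ring
  · intro f h1 h2 T hT
    rw [key, key, AG13_sum_sub]
    apply AG13_sum_mul
    intro i hi
    rw [← mul_sub, (h i hi).stp f h1 h2 T hT]
    ring
  · intro f h1 h2 T hT hk
    rw [key]
    apply AG13_sum_mul
    intro i hi
    rw [(h i hi).knk f h1 h2 T hT hk]
    ring

theorem AG13_pos {a : I → I → ℕ} (hs : ∀ i j, a i j = a j i) {B : Finset I} {q : I → ℚ}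
    (hq : QOk a B q) (hB : FinT a B) (hc : ConnS a B) : ∀ x ∈ B, 0 < q x := by
  refine hB.pos_of_conn hs hc q (fun i hi => ?_) ?_
  · obtain ⟨n, _, hn⟩ := hq i hi
    rw [hn]
    exact Nat.cast_nonneg n
  · obtain ⟨i, hi⟩ := hc.1
    obtain ⟨n, hn1, hn⟩ := hq i hi
    refine ⟨i, hi, ?_⟩
    rw [hn]
    have : n ≠ 0 := by omega
    exact_mod_cast this

theorem AG13_win {a : I → I → ℕ} (hs : ∀ i j, a i j = a j i) (cd : CrossData a) {B : Finset I}
    {q : I → ℚ} (hq : QOk a B q) (hB : FinT a B) (hc : ConnS a B) (L f : ℕ) (h1 : L ≤ f)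
    (h2 : f < L + cd.mm B) : WinPat a cd B q f ⟨fun _ => L, q⟩ := by
  have hpos := AG13_pos hs hq hB hc
  have hins : insS B (⟨fun _ => L, q⟩ : Pat I) = B :=
    Finset.filter_true_of_mem (fun x hx => (hpos x hx).ne')
  have hcomp : comps a (insS B (⟨fun _ => L, q⟩ : Pat I)) = {B} := by
    rw [hins, comps_of_conn hc]
  refine ⟨⟨?_, ?_⟩, ?_, ?_, ?_, ?_, ?_⟩
  · intro A hA
    rw [hcomp, Finset.mem_singleton] at hA
    rw [hA]
    exact hq
  · intro A _ x _ y _
    rfl
  · intro A _ x _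
    exact h1
  · intro A hA x _
    rw [hcomp, Finset.mem_singleton] at hA
    rw [hA]
    exact h2
  · intro x hx h0
    exact absurd h0 (hpos x hx).ne'
  · intro x hx h0
    exact absurd h0 (hpos x hx).ne'
  · intro x _
    exact ⟨0, by simp⟩

theorem AG13_evF_one (a : I → I → ℕ) (B : Finset I) (L : ℕ) (q : I → ℚ) (T : Trm I) :
    evF a B [(1, ⟨fun _ => L, q⟩)] T = TV a (tauT a B L q T) := by
  rw [tauT_eq_patT]
  simp [evF]

theorem Resp.extend (a : I → I → ℕ) (hs : ∀ i j, a i j = a j i) (cd : CrossData a) (B : Finset I) (q : I → ℚ)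
    (hq : QOk a B q) (hB : FinT a B) (hc : ConnS a B) (L : ℕ)
    (hL : 1 ≤ L) (w : ℕ → ℚ) (Φ : ℕ → FFn I) (h : Resp a cd B q (L - 1) w Φ)
    (hstep : ∀ T : Trm I, RReg B T →
      TV a (tauT a B L q T) - evF a B (Φ (L - 1)) T = Rv a B L q T) :
    Resp a cd B q L (fun l => if l = L then 1 else w l)
      (fun f => if f = L then [(1, ⟨fun _ => L, q⟩)] else Φ f) := by
  have h0L : (0 : ℕ) ≠ L := by omega
  refine ⟨?_, ?_, ?_, ?_⟩
  · intro f hf c hcm
    by_cases hfL : f = L
    · simp only [hfL, if_true, List.mem_singleton] at hcm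
      rw [hcm, hfL]
      have := cd.two_le B
      exact AG13_win hs cd hq hB hc L L le_rfl (by omega)
    · simp only [if_neg hfL] at hcm
      exact h.win f (by omega) c hcm
  · intro T hT
    simp only [if_neg h0L]
    exact h.a0 T hT
  · intro f h1 h2 T hT
    have h3 : f - 1 ≠ L := by omega
    by_cases hfL : f = L
    · subst hfL
      simp only [if_true, if_neg h3]
      rw [AG13_evF_one, one_mul]
      exact hstep T hT
    · simp only [if_neg hfL, if_neg h3]
      exact h.stp f h1 (by omega) T hT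
  · intro f h1 h2 T hT hk
    by_cases hfL : f = L
    · subst hfL
      simp only [if_true]
      rw [AG13_evF_one, one_mul]
    · simp only [if_neg hfL]
      exact h.knk f h1 (by omega) T hT hk

theorem Resp.const (a : I → I → ℕ) (hs : ∀ i j, a i j = a j i) (cd : CrossData a) (B : Finset I) (q : I → ℚ)
    (hq : QOk a B q) (hB : FinT a B) (hc : ConnS a B) (L K : ℕ) (hLK : L ≤ K)
    (hK : K + 1 ≤ L + cd.mm B) (w : ℕ → ℚ) (Φ : ℕ → FFn I)
    (h : Resp a cd B q L w Φ) (hΦ : Φ L = [(1, ⟨fun _ => L, q⟩)]) :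
    Resp a cd B q K (fun l => if l ≤ L then w l else 0) (fun f => Φ (min f L)) := by
  refine ⟨?_, ?_, ?_, ?_⟩
  · intro f hf c hcm
    by_cases hfL : f ≤ L
    · simp only [min_eq_left hfL] at hcm
      exact h.win f hfL c hcm
    · simp only [min_eq_right (not_le.1 hfL).le, hΦ, List.mem_singleton] at hcm
      rw [hcm]
      exact AG13_win hs cd hq hB hc L f (by omega) (by omega)
  · intro T hT
    simp only [Nat.zero_le, if_true, min_eq_left]
    exact h.a0 T hT
  · intro f h1 h2 T hT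
    by_cases hfL : f ≤ L
    · have h3 : f - 1 ≤ L := by omega
      simp only [if_pos hfL, min_eq_left hfL, min_eq_left h3]
      exact h.stp f h1 hfL T hT
    · have h3 : L ≤ f - 1 := by omega
      have h4 : L ≤ f := by omega
      simp only [if_neg hfL, min_eq_right h4, min_eq_right h3]
      ring
  · intro f h1 h2 T hT hk
    by_cases hfL : f ≤ L
    · simp only [if_pos hfL, min_eq_left hfL]
      exact h.knk f h1 hfL T hT hk
    · have h4 : L ≤ f := by omega
      simp only [if_neg hfL, min_eq_right h4, hΦ]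
      obtain ⟨y, hy, hy1⟩ := hk
      rw [AG13_evF_one, cd.rv B hB hc L q hq T hT y hy f (by omega) (by omega) hy1, zero_mul]

theorem UpFam_of_Tau (a : I → I → ℕ) (hs : ∀ i j, a i j = a j i) (cd : CrossData a)
    (A : Finset I) (hA : FinT a A) (hc : ConnS a A) (q : I → ℚ) (hq : QOk a A q) (k : ℕ)
    (hk : 1 ≤ k) (h : cd.mm A ≤ k → TauFam a cd A q (k - cd.mm A)) : UpFam a cd A q k := by
  by_cases hmk : cd.mm A ≤ k
  · obtain ⟨Φ, hΦ, hΦL⟩ := h hmk
    have h2 := cd.two_le A
    have hcst := Resp.const a hs cd A q hq hA hc (k - cd.mm A) (k - 1) (by omega) (by omega) _ Φ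
      hΦ hΦL
    obtain ⟨hr, hev⟩ := Resp.combo a cd A q (k - 1) [()] (fun _ => cd.eps A q)
      (fun _ l => if l ≤ k - cd.mm A then cn a cd A q (k - cd.mm A - l) else 0)
      (fun _ f => Φ (min f (k - cd.mm A))) (fun _ _ => hcst)
    refine ⟨_, hr.congr_w ?_, ?_⟩
    · intro l hl
      simp only [List.map_cons, List.map_nil, List.sum_cons, List.sum_nil, add_zero, upw]
      by_cases h3 : l ≤ k - cd.mm A
      · have h4 : cd.mm A ≤ k - l := by omega
        have h5 : k - l - cd.mm A = k - cd.mm A - l := by omega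
        rw [if_pos h3, if_pos h4, h5]
      · have h4 : ¬ cd.mm A ≤ k - l := by omega
        rw [if_neg h3, if_neg h4, mul_zero]
    · intro T hT
      rw [hev]
      have h6 : min (k - 1) (k - cd.mm A) = k - cd.mm A := by omega
      simp only [List.map_cons, List.map_nil, List.sum_cons, List.sum_nil, add_zero, h6, hΦL]
      rw [AG13_evF_one, cd.cr A hA hc k q hq T hT hmk]
  · refine ⟨fun _ => [], ⟨?_, ?_, ?_, ?_⟩, ?_⟩
    · intro f _ c hcm
      simp at hcm
    · intro T _
      have h1 : ¬ cd.mm A ≤ k - 0 := by omega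
      simp only [upw, if_neg h1, evF_nil, zero_mul]
    · intro f h1 h2 T _
      have h1 : ¬ cd.mm A ≤ k - f := by omega
      simp only [upw, if_neg h1, evF_nil, zero_mul, sub_self]
    · intro f h1 h2 T _ _
      have h1 : ¬ cd.mm A ≤ k - f := by omega
      simp only [upw, if_neg h1, evF_nil, zero_mul]
    · intro T hT
      rw [evF_nil, cd.cr0 A hA hc k q hq T hT hk (by omega)]

theorem OmFam_of_Up (a : I → I → ℕ) (hs : ∀ i j, a i j = a j i) (cd : CrossData a)
    (R : Finset I) (hR : FinT a R) (hc : ConnS a R) (q : I → ℚ) (hq : QOk a R q) (M : Finset I)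
    (hM : M ⊆ R) (hne : M.Nonempty) (hMz : ∀ x ∈ M, IsZ (q x)) (k : ℕ) (hk : 1 ≤ k)
    (hfam : ∀ A ∈ comps a (R \ M), UpFam a cd A q k) :
    ∃ Φ : ℕ → FFn I, Resp a cd R q (k - 1)
      (fun l => ((k : ℚ) - l) ^ M.card * ∏ N ∈ comps a (R \ M), upw a cd N q (k - l)) Φ ∧
      ∀ T : Trm I, RReg R T → evF a R (Φ (k - 1)) T = TV a (omT a R M k q T) := by
  obtain ⟨L, hL1, hL2, hL3, hL4, hL5⟩ := exists_RB_list a hs (R \ M)
    (fun A w Φ => w = (fun l => upw a cd A q (k - l)) ∧ Resp a cd A q (k - 1) w Φ ∧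
      ∀ T : Trm I, RReg A T → evF a A (Φ (k - 1)) T = TV a (upT a A k q T))
    (fun A hA => by
      obtain ⟨Φ, h1, h2⟩ := hfam A hA
      exact ⟨_, Φ, rfl, h1, h2⟩)
  obtain ⟨Φ, hΦ1, hΦ2⟩ := RPT a hs cd (k - 1) q (fun _ l => (k : ℚ) - l) R hR hc hq M hM hne hMz
    (fun x _ => ⟨k, -1, fun l => by ring⟩) L hL4 hL3 (fun b hb => comps_conn (hL1 b hb).1)
    (fun b hb => (hL1 b hb).2.2.1)
  have hk1 : ((k - 1 : ℕ) : ℚ) = (k : ℚ) - 1 := by
    rw [Nat.cast_sub hk, Nat.cast_one]
  refine ⟨Φ, hΦ1.congr_w ?_, ?_⟩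
  · intro l _
    rw [Finset.prod_const]
    congr 1
    rw [← hL5]
    congr 1
    apply List.map_congr_left
    intro b hb
    rw [(hL1 b hb).2.1]
  · intro T hT
    rw [hΦ2 T hT]
    have hcol : (fun x => ((k : ℚ) - ((k - 1 : ℕ) : ℚ)) • sy x (k - 1 + 1) -
        ((k : ℚ) - ((k - 1 + 1 : ℕ) : ℚ)) • sy x (k - 1)) = fun x : I => sy x k := by
      funext x
      have h1 : k - 1 + 1 = k := by omega
      rw [h1, hk1]
      simp
    rw [hcol, evU_eval_up a hs q k (k - 1) L hL3 (fun b hb => (hL1 b hb).2.2.2), hL4]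
    · rfl
    · rw [hL4]
      refine ⟨?_, ?_⟩
      · intro x hx l hl
        exact hT.nat x (Finset.mem_sdiff.1 hx).1 l hl
      · intro x hx j hj l hl h
        obtain ⟨hxR, hxM⟩ := Finset.mem_sdiff.1 hx
        simp only [Trm.cols] at h ⊢
        by_cases hjM : j ∈ M
        · exfalso
          rw [if_pos hjM] at h
          apply h
          rw [Finsupp.single_apply, if_neg]
          intro h2
          have h3 : j = x := congrArg Prod.fst h2
          exact hxM (h3 ▸ hjM)
        · rw [if_neg hjM] at h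
          have hjR : j ∉ R := fun h2 => hj (Finset.mem_sdiff.2 ⟨h2, hjM⟩)
          exact hT.col x hxR j hjR l hl h

theorem AG13_Om (a : I → I → ℕ) (hs : ∀ i j, a i j = a j i) (cd : CrossData a)
    (A : Finset I) (hA : FinT a A) (hc : ConnS a A) (q : I → ℚ) (hq : QOk a A q) (L : ℕ)
    (hL : 1 ≤ L)
    (ih1 : ∀ A' ⊂ A, FinT a A' → ConnS a A' → QOk a A' q → ∀ L', TauFam a cd A' q L')
    (ih2 : ∀ L' < L, TauFam a cd A q L') (M : Finset I) (hM : M ⊆ A) (hMz : ∀ x ∈ M, IsZ (q x)) :
    (M.Nonempty → ∀ A' ∈ comps a (A \ M), UpFam a cd A' q L) ∧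
    ∃ Φ : ℕ → FFn I, Resp a cd A q (L - 1)
      (fun l => ((L : ℚ) - l) ^ M.card * ∏ N ∈ comps a (A \ M), upw a cd N q (L - l)) Φ ∧
      ∀ T : Trm I, RReg A T → evF a A (Φ (L - 1)) T = TV a (omT a A M L q T) := by
  have hup : M.Nonempty → ∀ A' ∈ comps a (A \ M), UpFam a cd A' q L := by
    intro hne A' hA'
    have hsub : A' ⊆ A \ M := comps_subset hA'
    have hsubA : A' ⊆ A := hsub.trans Finset.sdiff_subset
    obtain ⟨x, hx⟩ := hne
    have hss : A' ⊂ A := by
      refine (Finset.ssubset_iff_of_subset hsubA).2 ⟨x, hM hx, ?_⟩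
      intro h
      exact (Finset.mem_sdiff.1 (hsub h)).2 hx
    have hq' : QOk a A' q := by
      refine QOk_sub hs hA hq A' hsubA ?_
      intro y hy z hz hzA'
      by_cases hzM : z ∈ M
      · exact Or.inr (hMz z hzM)
      · exact Or.inl (comps_sep hA' y hy z (Finset.mem_sdiff.2 ⟨hz, hzM⟩) hzA')
    have hf' := hA.mono hsubA
    have hc' := comps_conn hA'
    exact UpFam_of_Tau a hs cd A' hf' hc' q hq' L hL (fun _ => ih1 A' hss hf' hc' hq' _)
  refine ⟨hup, ?_⟩
  by_cases hne : M.Nonempty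
  · exact OmFam_of_Up a hs cd A hA hc q hq M hM hne hMz L hL (hup hne)
  · rw [Finset.not_nonempty_iff_eq_empty] at hne
    subst hne
    have h2 := cd.two_le A
    obtain ⟨Φ, h3, h4⟩ := UpFam_of_Tau a hs cd A hA hc q hq L hL (fun h => ih2 _ (by omega))
    refine ⟨Φ, h3.congr_w ?_, ?_⟩
    · intro l _
      simp [comps_of_conn hc]
    · intro T hT
      rw [h4 T hT, omT, Finset.sdiff_empty]
      congr 1

theorem TauFam_all (a : I → I → ℕ) (hs : ∀ i j, a i j = a j i) (cd : CrossData a)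
    (A : Finset I) (hA : FinT a A) (hc : ConnS a A) (q : I → ℚ) (hq : QOk a A q) (L : ℕ) :
    TauFam a cd A q L := by
  classical
  induction A using Finset.strongInduction generalizing L with
  | H A ihA =>
  induction L using Nat.strong_induction_on with
  | _ L ihL =>
  have h2 := cd.two_le A
  rcases Nat.eq_zero_or_pos L with hL | hL
  · subst hL
    refine ⟨fun _ => [(1, ⟨fun _ => 0, q⟩)], ⟨?_, ?_, ?_, ?_⟩, rfl⟩
    · intro f hf c hcm
      rw [List.mem_singleton] at hcm
      rw [hcm]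
      exact AG13_win hs cd hq hA hc 0 f (Nat.zero_le _) (by omega)
    · intro T _
      rw [AG13_evF_one]
      simp only [Nat.sub_zero, cn_zero, one_mul]
    · intro f h3 h4
      omega
    · intro f h3 h4
      omega
  · have ih1 : ∀ A' ⊂ A, FinT a A' → ConnS a A' → QOk a A' q → ∀ L', TauFam a cd A' q L' :=
      fun A' h5 h6 h7 h8 L' => ihA A' h5 h6 h7 h8 L'
    have hOm := fun M hM hMz => AG13_Om a hs cd A hA hc q hq L hL ih1 ihL M hM hMz
    set P : Finset (Finset I) := A.powerset.filter (fun M => ∀ x ∈ M, IsZ (q x)) with hP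
    have hmem : ∀ M ∈ P, M ⊆ A ∧ ∀ x ∈ M, IsZ (q x) := by
      intro M hM
      rw [hP, Finset.mem_filter, Finset.mem_powerset] at hM
      exact hM
    have hex : ∀ M : Finset I, ∃ Φ : ℕ → FFn I, M ∈ P → Resp a cd A q (L - 1)
        (fun l => ((L : ℚ) - l) ^ M.card * ∏ N ∈ comps a (A \ M), upw a cd N q (L - l)) Φ ∧
        ∀ T : Trm I, RReg A T → evF a A (Φ (L - 1)) T = TV a (omT a A M L q T) := by
      intro M
      by_cases hM : M ∈ P
      · obtain ⟨Φ, hΦ⟩ := (hOm M (hmem M hM).1 (hmem M hM).2).2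
        exact ⟨Φ, fun _ => hΦ⟩
      · exact ⟨fun _ => [], fun h => absurd h hM⟩
    choose Φ hΦ using hex
    obtain ⟨hr, hev⟩ := Resp.combo a cd A q (L - 1) P.toList
      (fun M => (-1 : ℚ) ^ (A \ M).card * detEff a (A \ M) M)
      (fun M l => ((L : ℚ) - l) ^ M.card * ∏ N ∈ comps a (A \ M), upw a cd N q (L - l)) Φ
      (fun M hM => (hΦ M (Finset.mem_toList.1 hM)).1)
    have hext := Resp.extend a hs cd A q hq hA hc L hL _ _ hr (by
      intro T hT
      rw [hev, TV_step_split a hs A hA L hL q hq T hT, PPv_eq a hs cd A hA L hL q hq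
        (fun M hM hne hMz => (hOm M hM hMz).1 hne) T hT]
      have h5 : (P.toList.map (fun M => (-1 : ℚ) ^ (A \ M).card * detEff a (A \ M) M *
          evF a A (Φ M (L - 1)) T)).sum = ∑ M ∈ P, (-1 : ℚ) ^ (A \ M).card *
            detEff a (A \ M) M * TV a (omT a A M L q T) := by
        rw [Finset.sum_map_toList]
        apply Finset.sum_congr rfl
        intro M hM
        rw [(hΦ M hM).2 T hT]
      rw [h5]
      ring)
    refine ⟨_, hext.congr_w ?_, ?_⟩
    · intro l hl
      by_cases hlL : l = L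
      · subst hlL
        simp [cn_zero]
      · rw [if_neg hlL, cn_rec a cd A q (L - l) (by omega), Finset.sum_map_toList]
        apply Finset.sum_congr rfl
        intro M _
        have h6 : ((L - l : ℕ) : ℚ) = (L : ℚ) - l := by
          rw [Nat.cast_sub hl]
        rw [h6]
        ring
    · simp

theorem UpFam_all (a : I → I → ℕ) (hs : ∀ i j, a i j = a j i) (cd : CrossData a)
    (A : Finset I) (hA : FinT a A) (hc : ConnS a A) (q : I → ℚ) (hq : QOk a A q) (k : ℕ)
    (hk : 1 ≤ k) : UpFam a cd A q k :=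
  UpFam_of_Tau a hs cd A hA hc q hq k hk (fun _ => TauFam_all a hs cd A hA hc q hq _)

/-- the top family: columns `(x,K+1) - (x,K)` on `R`, class `0`, weights one. -/
theorem TopFam (a : I → I → ℕ) (hs : ∀ i j, a i j = a j i) (cd : CrossData a)
    (R : Finset I) (hR : FinT a R) (hc : ConnS a R) (q : I → ℚ) (hq : QOk a R q)
    (hz : ∀ x ∈ R, IsZ (q x)) (K : ℕ) :
    ∃ Φ : ℕ → FFn I, Resp a cd R q K (fun _ => 1) Φ ∧
      ∀ T : Trm I, RReg R T → evF a R (Φ K) T =
        TV a (T.cols R (fun x => sy x (K + 1) - sy x K)) := by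
  obtain ⟨Φ, h1, h2⟩ := RPT a hs cd K q (fun _ _ => 1) R hR hc hq R (Finset.Subset.refl R) hc.1 hz
    (fun x _ => ⟨1, 0, fun l => by ring⟩) [] (by simp [uniR]) List.Pairwise.nil
    (fun b hb => absurd hb (List.not_mem_nil)) (fun b hb => absurd hb (List.not_mem_nil))
  refine ⟨Φ, h1.congr_w ?_, ?_⟩
  · intro l _
    simp
  · intro T hT
    rw [h2 T hT]
    simp only [atF, List.map_nil, one_smul]
    exact evU_nil a _

end

end Pool.Agent.H27.KAC
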