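import Pool.Agent.H41.KA.AG1

/-!
KAC ADE, module AG1b: algebra of explicit terms; unions of separated blocks; components of unions.
-/

set_option autoImplicit false

namespace Pool.Agent.H27.KAC

open scoped BigOperators

section

variable {I : Type} [Fintype I] [DecidableEq I]

private theorem AG1b_eta_E (a : I → I → ℕ) (k : ℕ) (δ : I → ℚ) (T : Trm I) (i : I) (l : ℕ) :
    (T.eta a k δ).E (i, l) = T.E (i, l) - if l = k then ∑ x, δ x * (cart a x i : ℚ) else 0 := by
  rw [eta_eq_etaM, etaM_E]
  by_cases hl : l = k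
  · rw [if_pos hl, Finset.filter_true_of_mem (fun _ _ => hl.symm)]
  · rw [if_neg hl, Finset.filter_false_of_mem (fun _ _ h => hl h.symm), Finset.sum_empty]

private theorem AG1b_cart_zero (a : I → I → ℕ) {x y : I} (hne : x ≠ y) (h : a x y = 0) :
    (cart a x y : ℚ) = 0 := by
  unfold cart
  simp [hne, h]

private theorem AG1b_mem_comps (a : I → I → ℕ) (N A : Finset I) :
    A ∈ comps a N ↔ A ⊆ N ∧ ConnS a A ∧ ∀ i ∈ A, ∀ j ∈ N, j ∉ A → a i j = 0 := by
  unfold comps
  simp only [Finset.mem_filter, Finset.mem_powerset]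

private theorem AG1b_QOk_congr {a : I → I → ℕ} {A : Finset I} {q q' : I → ℚ}
    (h : ∀ x ∈ A, q x = q' x) (hq : QOk a A q) : QOk a A q' := by
  intro x hx
  obtain ⟨n, hn, hc⟩ := hq x hx
  refine ⟨n, hn, ?_⟩
  rw [← hc]
  unfold cqN
  refine Finset.sum_congr rfl fun j hj => ?_
  rw [h j hj]

private theorem AG1b_sep_uni {a : I → I → ℕ} {A : Finset I} {U : List (Finset I × FFn I)}
    (h : ∀ b ∈ U, Sep a A b.1) : Sep a A (uni U) := by
  induction U with
  | nil => exact ⟨Finset.disjoint_empty_right _, fun x _ y hy => absurd hy (Finset.notMem_empty y)⟩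
  | cons b U ih =>
    have h1 := h b List.mem_cons_self
    have h2 := ih (fun c hc => h c (List.mem_cons_of_mem _ hc))
    refine ⟨Finset.disjoint_union_right.2 ⟨h1.1, h2.1⟩, fun x hx y hy => ?_⟩
    rcases Finset.mem_union.1 hy with hy | hy
    · exact h1.2 x hx y hy
    · exact h2.2 x hx y hy

theorem Sep.symm {a : I → I → ℕ} (hs : ∀ i j, a i j = a j i) {A B : Finset I} (h : Sep a A B) :
    Sep a B A := by
  exact ⟨h.1.symm, fun x hx y hy => by rw [hs]; exact h.2 y hy x hx⟩

theorem Sep.mono {a : I → I → ℕ} {A B A' B' : Finset I} (h : Sep a A B) (hA : A' ⊆ A) (hB : B' ⊆ B) :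
    Sep a A' B' := by
  exact ⟨Finset.disjoint_of_subset_left hA (Finset.disjoint_of_subset_right hB h.1),
    fun x hx y hy => h.2 x (hA hx) y (hB hy)⟩

theorem Sep_union {a : I → I → ℕ} {A B C : Finset I} (h : Sep a A C) (h' : Sep a B C) :
    Sep a (A ∪ B) C := by
  refine ⟨Finset.disjoint_union_left.2 ⟨h.1, h'.1⟩, fun x hx y hy => ?_⟩
  rcases Finset.mem_union.1 hx with hx | hx
  · exact h.2 x hx y hy
  · exact h'.2 x hx y hy

theorem mem_uniB (L : List (Blk I)) (x : I) : x ∈ uniB L ↔ ∃ b ∈ L, x ∈ b.B := by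
  induction L with
  | nil => simp [uniB]
  | cons b L ih =>
    have h : uniB (b :: L) = b.B ∪ uniB L := rfl
    rw [h, Finset.mem_union, ih]
    simp

theorem mem_uniR (L : List (RB I)) (x : I) : x ∈ uniR L ↔ ∃ b ∈ L, x ∈ b.B := by
  induction L with
  | nil => simp [uniR]
  | cons b L ih =>
    have h : uniR (b :: L) = b.B ∪ uniR L := rfl
    rw [h, Finset.mem_union, ih]
    simp

theorem mem_uni (U : List (Finset I × FFn I)) (x : I) : x ∈ uni U ↔ ∃ b ∈ U, x ∈ b.1 := by
  induction U with
  | nil => simp [uni]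
  | cons b L ih =>
    have h : uni (b :: L) = b.1 ∪ uni L := rfl
    rw [h, Finset.mem_union, ih]
    simp

theorem uni_map_blk (L : List (Blk I)) : uni (L.map (fun b => (b.B, b.Φ))) = uniB L := by
  induction L with
  | nil => rfl
  | cons b L ih =>
    have h : uniB (b :: L) = b.B ∪ uniB L := rfl
    have h' : uni ((b :: L).map (fun b => (b.B, b.Φ))) =
        b.B ∪ uni (L.map (fun b => (b.B, b.Φ))) := rfl
    rw [h, h', ih]

/-- exponents of `blkT`. -/
theorem blkT_E (a : I → I → ℕ) (B : Finset I) (k σ : ℕ) (q : I → ℚ) (T : Trm I) (i : I) (l : ℕ) :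
    (blkT a B k σ q T).E (i, l) =
      T.E (i, l) + if l = k then ∑ x ∈ B, q x * (cart a x i : ℚ) else 0 := by
  have h : (blkT a B k σ q T).E (i, l) = (T.eta a k (fun i => -resQ B q i)).E (i, l) := rfl
  rw [h, AG1b_eta_E]
  by_cases hl : l = k
  · rw [if_pos hl, if_pos hl]
    have h2 : ∑ x, -resQ B q x * (cart a x i : ℚ) = -∑ x ∈ B, q x * (cart a x i : ℚ) := by
      rw [← Finset.sum_neg_distrib, ← Finset.sum_subset (Finset.subset_univ B)]
      · refine Finset.sum_congr rfl fun x hx => ?_
        rw [resQ, if_pos hx]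
        ring
      · intro x _ hx
        rw [resQ, if_neg hx]
        ring
    rw [h2]
    ring
  · rw [if_neg hl, if_neg hl]
    ring

/-- exponents of `rawT`. -/
theorem rawT_E (a : I → I → ℕ) (R : Finset I) (k : ℕ) (q : I → ℚ) (m : I → ℕ) (T : Trm I) (i : I)
    (l : ℕ) : (rawT a R k q m T).E (i, l) =
      T.E (i, l) - if l = k then ∑ x ∈ R, ((m x : ℚ) - q x) * (cart a x i : ℚ) else 0 := by
  have h : (rawT a R k q m T).E (i, l) =
      (T.eta a k (fun i => if i ∈ R then (m i : ℚ) - q i else 0)).E (i, l) := rfl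
  rw [h, AG1b_eta_E]
  by_cases hl : l = k
  · rw [if_pos hl, if_pos hl]
    have h2 : ∑ x, (if x ∈ R then (m x : ℚ) - q x else 0) * (cart a x i : ℚ) =
        ∑ x ∈ R, ((m x : ℚ) - q x) * (cart a x i : ℚ) := by
      rw [← Finset.sum_subset (Finset.subset_univ R)]
      · refine Finset.sum_congr rfl fun x hx => ?_
        rw [if_pos hx]
      · intro x _ hx
        rw [if_neg hx]
        ring
    rw [h2]
  · rw [if_neg hl, if_neg hl]

/-- only the values of `q` on `B` matter. -/
theorem blkT_congr (a : I → I → ℕ) (B : Finset I) (k σ : ℕ) (q q' : I → ℚ)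
    (h : ∀ x ∈ B, q x = q' x) (T : Trm I) : blkT a B k σ q T = blkT a B k σ q' T := by
  have h1 : (fun i => -resQ B q i) = fun i => -resQ B q' i := by
    funext i
    unfold resQ
    by_cases hi : i ∈ B
    · rw [if_pos hi, if_pos hi, h i hi]
    · rw [if_neg hi, if_neg hi]
  unfold blkT
  rw [h1]

theorem rawT_congr (a : I → I → ℕ) (R : Finset I) (k : ℕ) (q q' : I → ℚ) (m m' : I → ℕ)
    (h : ∀ x ∈ R, q x = q' x) (h' : ∀ x ∈ R, m x = m' x) (T : Trm I) :
    rawT a R k q m T = rawT a R k q' m' T := by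
  have h1 : (fun i => if i ∈ R then (m i : ℚ) - q i else 0) =
      fun i => if i ∈ R then (m' i : ℚ) - q' i else 0 := by
    funext i
    by_cases hi : i ∈ R
    · rw [if_pos hi, if_pos hi, h i hi, h' i hi]
    · rw [if_neg hi, if_neg hi]
  unfold rawT
  rw [h1]
  unfold Trm.cols
  congr 1
  funext i
  by_cases hi : i ∈ R
  · rw [if_pos hi, if_pos hi]
    show (if m i = 0 then sy i (k - 1) else cE a i k) = (if m' i = 0 then sy i (k - 1) else cE a i k)
    rw [h' i hi]
  · rw [if_neg hi, if_neg hi]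

/-- the raw term with `m = 0` is the `Up` term. -/
theorem rawT_zero (a : I → I → ℕ) (R : Finset I) (k : ℕ) (q : I → ℚ) (m : I → ℕ)
    (h : ∀ x ∈ R, m x = 0) (T : Trm I) : rawT a R k q m T = upT a R k q T := by
  have h1 : (fun i => if i ∈ R then (m i : ℚ) - q i else 0) = fun i => -resQ R q i := by
    funext i
    unfold resQ
    by_cases hi : i ∈ R
    · rw [if_pos hi, if_pos hi, h i hi]
      push_cast
      ring
    · rw [if_neg hi, if_neg hi]
      ring
  unfold rawT upT blkT
  rw [h1]
  unfold Trm.cols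
  congr 1
  funext i
  by_cases hi : i ∈ R
  · rw [if_pos hi, if_pos hi]
    show (if m i = 0 then sy i (k - 1) else cE a i k) = sy i (k - 1)
    rw [if_pos (h i hi)]
  · rw [if_neg hi, if_neg hi]

theorem rawT_union (a : I → I → ℕ) (A B : Finset I) (h : Disjoint A B) (k : ℕ) (q : I → ℚ)
    (m : I → ℕ) (T : Trm I) : rawT a (A ∪ B) k q m T = rawT a A k q m (rawT a B k q m T) := by
  apply Trm.ext
  · funext i
    change T.γ i - k * (if i ∈ A ∪ B then (m i : ℚ) - q i else 0) =
      T.γ i - k * (if i ∈ B then (m i : ℚ) - q i else 0) -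
        k * (if i ∈ A then (m i : ℚ) - q i else 0)
    by_cases hA : i ∈ A
    · have hB : i ∉ B := Finset.disjoint_left.1 h hA
      rw [if_pos (Finset.mem_union_left _ hA), if_neg hB, if_pos hA]
      ring
    · by_cases hB : i ∈ B
      · rw [if_pos (Finset.mem_union_right _ hB), if_pos hB, if_neg hA]
        ring
      · rw [if_neg (by rw [Finset.mem_union]; tauto), if_neg hB, if_neg hA]
        ring
  · refine Finsupp.ext fun ik => ?_
    obtain ⟨i, l⟩ := ik
    rw [rawT_E, rawT_E, rawT_E, Finset.sum_union h]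
    by_cases hl : l = k
    · rw [if_pos hl, if_pos hl, if_pos hl]
      ring
    · rw [if_neg hl, if_neg hl, if_neg hl]
      ring
  · funext i
    change (if i ∈ A ∪ B then (if m i = 0 then sy i (k - 1) else cE a i k) else T.Λ i) =
      if i ∈ A then (if m i = 0 then sy i (k - 1) else cE a i k) else
        if i ∈ B then (if m i = 0 then sy i (k - 1) else cE a i k) else T.Λ i
    by_cases hA : i ∈ A
    · rw [if_pos (Finset.mem_union_left _ hA), if_pos hA]
    · by_cases hB : i ∈ B
      · rw [if_pos (Finset.mem_union_right _ hB), if_neg hA, if_pos hB]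
      · rw [if_neg (by rw [Finset.mem_union]; tauto), if_neg hA, if_neg hB]

theorem blkT_etaM_comm (a : I → I → ℕ) (B : Finset I) (k σ : ℕ) (q : I → ℚ) (κ : I → ℕ)
    (δ : I → ℚ) (T : Trm I) :
    blkT a B k σ q (T.etaM a κ δ) = (blkT a B k σ q T).etaM a κ δ := by
  apply Trm.ext
  · funext i
    change T.γ i - κ i * δ i - k * -resQ B q i = T.γ i - k * -resQ B q i - κ i * δ i
    ring
  · exact sub_right_comm _ _ _
  · rfl

theorem blkT_col_comm (a : I → I → ℕ) (B : Finset I) (k σ : ℕ) (q : I → ℚ) (j : I) (hj : j ∉ B)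
    (c : QE I) (T : Trm I) : blkT a B k σ q (T.col j c) = (blkT a B k σ q T).col j c := by
  apply Trm.ext
  · rfl
  · rfl
  · funext i
    change (if i ∈ B then sy i σ else Function.update T.Λ j c i) =
      Function.update (fun i => if i ∈ B then sy i σ else T.Λ i) j c i
    by_cases hij : i = j
    · subst hij
      rw [if_neg hj, Function.update_self, Function.update_self]
    · rw [Function.update_of_ne hij, Function.update_of_ne hij]

theorem rawT_col_comm (a : I → I → ℕ) (B : Finset I) (k : ℕ) (q : I → ℚ) (m : I → ℕ) (j : I)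
    (hj : j ∉ B) (c : QE I) (T : Trm I) :
    rawT a B k q m (T.col j c) = (rawT a B k q m T).col j c := by
  apply Trm.ext
  · rfl
  · rfl
  · funext i
    change (if i ∈ B then (if m i = 0 then sy i (k - 1) else cE a i k) else
        Function.update T.Λ j c i) =
      Function.update (fun i => if i ∈ B then (if m i = 0 then sy i (k - 1) else cE a i k) else
        T.Λ i) j c i
    by_cases hij : i = j
    · subst hij
      rw [if_neg hj, Function.update_self, Function.update_self]
    · rw [Function.update_of_ne hij, Function.update_of_ne hij]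

theorem rawT_etaM_comm (a : I → I → ℕ) (B : Finset I) (k : ℕ) (q : I → ℚ) (m : I → ℕ) (κ : I → ℕ)
    (δ : I → ℚ) (T : Trm I) :
    rawT a B k q m (T.etaM a κ δ) = (rawT a B k q m T).etaM a κ δ := by
  apply Trm.ext
  · funext i
    change T.γ i - κ i * δ i - k * (if i ∈ B then (m i : ℚ) - q i else 0) =
      T.γ i - k * (if i ∈ B then (m i : ℚ) - q i else 0) - κ i * δ i
    ring
  · exact sub_right_comm _ _ _
  · rfl

/-! explicit terms of lists -/

theorem expl_nil (a : I → I → ℕ) (f : ℕ) (T : Trm I) : expl a f [] T = T := by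
  rfl

theorem expl_cons (a : I → I → ℕ) (f : ℕ) (b : Blk I) (L : List (Blk I)) (T : Trm I) :
    expl a f (b :: L) T = blkT a b.B f (b.sd f) b.q (expl a f L T) := by
  rfl

theorem expl_append (a : I → I → ℕ) (f : ℕ) (L L' : List (Blk I)) (T : Trm I) :
    expl a f (L ++ L') T = expl a f L (expl a f L' T) := by
  induction L with
  | nil => rfl
  | cons b L ih =>
    rw [List.cons_append, expl_cons, expl_cons, ih]

theorem expl_E (a : I → I → ℕ) (f : ℕ) (L : List (Blk I)) (T : Trm I) (i : I) (l : ℕ) :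
    (expl a f L T).E (i, l) = T.E (i, l) +
      if l = f then (L.map (fun b => ∑ x ∈ b.B, b.q x * (cart a x i : ℚ))).sum else 0 := by
  induction L with
  | nil =>
    rw [expl_nil, List.map_nil, List.sum_nil, ite_self, add_zero]
  | cons b L ih =>
    rw [expl_cons, blkT_E, ih, List.map_cons, List.sum_cons]
    by_cases hl : l = f
    · rw [if_pos hl, if_pos hl, if_pos hl]
      ring
    · rw [if_neg hl, if_neg hl, if_neg hl]
      ring

theorem expl_Λ_out (a : I → I → ℕ) (f : ℕ) (L : List (Blk I)) (T : Trm I) (j : I)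
    (hj : j ∉ uniB L) : (expl a f L T).Λ j = T.Λ j := by
  induction L with
  | nil => rfl
  | cons b L ih =>
    have h : uniB (b :: L) = b.B ∪ uniB L := rfl
    rw [h, Finset.mem_union, not_or] at hj
    change (if j ∈ b.B then sy j (b.sd f) else (expl a f L T).Λ j) = T.Λ j
    rw [if_neg hj.1, ih hj.2]

theorem expl_Λ_in (a : I → I → ℕ) (f : ℕ) (L : List (Blk I)) (T : Trm I)
    (hd : L.Pairwise (fun b c => Disjoint b.B c.B)) (b : Blk I) (hb : b ∈ L) (j : I)
    (hj : j ∈ b.B) : (expl a f L T).Λ j = sy j (b.sd f) := by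
  induction L with
  | nil => simp at hb
  | cons c L ih =>
    rw [List.pairwise_cons] at hd
    change (if j ∈ c.B then sy j (c.sd f) else (expl a f L T).Λ j) = sy j (b.sd f)
    rcases List.mem_cons.1 hb with rfl | hb
    · rw [if_pos hj]
    · have h1 : j ∉ c.B := fun h => Finset.disjoint_left.1 (hd.1 b hb) h hj
      rw [if_neg h1, ih hd.2 hb]

theorem expl_etaM_comm (a : I → I → ℕ) (f : ℕ) (L : List (Blk I)) (κ : I → ℕ) (δ : I → ℚ)
    (T : Trm I) : expl a f L (T.etaM a κ δ) = (expl a f L T).etaM a κ δ := by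
  induction L with
  | nil => rfl
  | cons b L ih => rw [expl_cons, expl_cons, ih, blkT_etaM_comm]

theorem expl_col_comm (a : I → I → ℕ) (f : ℕ) (L : List (Blk I)) (j : I) (hj : j ∉ uniB L)
    (c : QE I) (T : Trm I) : expl a f L (T.col j c) = (expl a f L T).col j c := by
  induction L with
  | nil => rfl
  | cons b L ih =>
    have h : uniB (b :: L) = b.B ∪ uniB L := rfl
    rw [h, Finset.mem_union, not_or] at hj
    rw [expl_cons, expl_cons, ih hj.2, blkT_col_comm a b.B f _ _ j hj.1]

theorem expl_rawT_comm (a : I → I → ℕ) (f : ℕ) (L : List (Blk I)) (A : Finset I)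
    (h : Disjoint A (uniB L)) (k : ℕ) (q : I → ℚ) (m : I → ℕ) (T : Trm I) :
    expl a f L (rawT a A k q m T) = rawT a A k q m (expl a f L T) := by
  induction L with
  | nil => rfl
  | cons b L ih =>
    have h1 : uniB (b :: L) = b.B ∪ uniB L := rfl
    rw [h1, Finset.disjoint_union_right] at h
    rw [expl_cons, expl_cons, ih h.2, rawT_blkT_comm a A b.B h.1]

theorem expl_blkT_comm (a : I → I → ℕ) (f : ℕ) (L : List (Blk I)) (A : Finset I)
    (h : Disjoint A (uniB L)) (k σ : ℕ) (q : I → ℚ) (T : Trm I) :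
    expl a f L (blkT a A k σ q T) = blkT a A k σ q (expl a f L T) := by
  induction L with
  | nil => rfl
  | cons b L ih =>
    have h1 : uniB (b :: L) = b.B ∪ uniB L := rfl
    rw [h1, Finset.disjoint_union_right] at h
    rw [expl_cons, expl_cons, ih h.2, blkT_comm a A b.B h.1]

theorem blkT_empty (a : I → I → ℕ) (k σ : ℕ) (q : I → ℚ) (T : Trm I) : blkT a ∅ k σ q T = T := by
  apply Trm.ext
  · funext i
    change T.γ i - k * -resQ ∅ q i = T.γ i
    rw [resQ, if_neg (Finset.notMem_empty i)]
    ring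
  · refine Finsupp.ext fun ik => ?_
    obtain ⟨i, l⟩ := ik
    rw [blkT_E, Finset.sum_empty, ite_self, add_zero]
  · funext i
    change (if i ∈ (∅ : Finset I) then sy i σ else T.Λ i) = T.Λ i
    rw [if_neg (Finset.notMem_empty i)]

/-- lists of blocks with the same class vector and the same side form one block. -/
theorem expl_merge (a : I → I → ℕ) (f : ℕ) (L : List (Blk I)) (q : I → ℚ) (up : Bool)
    (hd : L.Pairwise (fun b c => Disjoint b.B c.B)) (hq : ∀ b ∈ L, ∀ x ∈ b.B, b.q x = q x)
    (hup : ∀ b ∈ L, b.up = up) (T : Trm I) :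
    expl a f L T = blkT a (uniB L) f (if up then f - 1 else f + 1) q T := by
  induction L with
  | nil =>
    rw [expl_nil]
    exact (blkT_empty a f _ q T).symm
  | cons b L ih =>
    have h1 : uniB (b :: L) = b.B ∪ uniB L := rfl
    rw [List.pairwise_cons] at hd
    have h2 : Disjoint b.B (uniB L) := by
      rw [Finset.disjoint_left]
      intro x hx hx'
      obtain ⟨c, hc, hxc⟩ := (mem_uniB L x).1 hx'
      exact Finset.disjoint_left.1 (hd.1 c hc) hx hxc
    have h3 : b.sd f = if up then f - 1 else f + 1 := by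
      unfold Blk.sd
      rw [hup b List.mem_cons_self]
    rw [expl_cons, ih hd.2 (fun c hc => hq c (List.mem_cons_of_mem _ hc))
      (fun c hc => hup c (List.mem_cons_of_mem _ hc)), h3, h1,
      blkT_congr a b.B f _ b.q q (hq b List.mem_cons_self), blkT_union a _ _ h2]

/-- regularity of explicit terms on a separated set. -/
theorem RReg_expl (a : I → I → ℕ) (hs : ∀ i j, a i j = a j i) (f : ℕ) (L : List (Blk I))
    (A : Finset I) (hAB : Sep a A (uniB L)) (T : Trm I) (hT : RReg (A ∪ uniB L) T) :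
    RReg A (expl a f L T) := by
  have hin : ∀ j ∈ uniB L, ∃ σ : ℕ, (expl a f L T).Λ j = sy j σ := by
    intro j hj
    clear hAB hT
    induction L with
    | nil => simp [uniB] at hj
    | cons b L ih =>
      have h1 : uniB (b :: L) = b.B ∪ uniB L := rfl
      rw [h1, Finset.mem_union] at hj
      change ∃ σ : ℕ, (if j ∈ b.B then sy j (b.sd f) else (expl a f L T).Λ j) = sy j σ
      by_cases hb : j ∈ b.B
      · exact ⟨_, if_pos hb⟩
      · obtain ⟨σ, hσ⟩ := ih (hj.resolve_left hb)
        exact ⟨σ, by rw [if_neg hb, hσ]⟩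
  have hE : ∀ x ∈ A, ∀ l, (expl a f L T).E (x, l) = T.E (x, l) := by
    intro x hx l
    rw [expl_E]
    have h0 : (L.map (fun b => ∑ y ∈ b.B, b.q y * (cart a y x : ℚ))).sum = 0 := by
      apply List.sum_eq_zero
      intro r hr
      rw [List.mem_map] at hr
      obtain ⟨b, hb, rfl⟩ := hr
      refine Finset.sum_eq_zero fun y hy => ?_
      have hy' : y ∈ uniB L := (mem_uniB L y).2 ⟨b, hb, hy⟩
      have hne : y ≠ x := fun h => Finset.disjoint_left.1 hAB.1 hx (h ▸ hy')
      have h0 : a y x = 0 := by rw [hs]; exact hAB.2 x hx y hy'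
      have hc : (cart a y x : ℚ) = 0 := AG1b_cart_zero a hne h0
      rw [hc, mul_zero]
    rw [h0, ite_self, add_zero]
  refine ⟨fun x hx l hl => ?_, fun x hx j hj l hl hne => ?_⟩
  · rw [hE x hx]
    exact hT.nat x (Finset.mem_union_left _ hx) l hl
  · rw [hE x hx]
    by_cases hjL : j ∈ uniB L
    · exfalso
      obtain ⟨σ, hσ⟩ := hin j hjL
      rw [hσ] at hne
      apply hne
      have hjx : j ≠ x := fun h => hj (h ▸ hx)
      exact Finsupp.single_eq_of_ne (fun h => hjx (congrArg Prod.fst h.symm))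
    · rw [expl_Λ_out a f L T j hjL] at hne
      exact hT.col x (Finset.mem_union_left _ hx) j (by rw [Finset.mem_union]; tauto) l hl hne

/-! components and patterns of unions -/

theorem ConnS_subset_of_sep {a : I → I → ℕ} (hs : ∀ i j, a i j = a j i) {A B C : Finset I}
    (h : Sep a A B) (hC : ConnS a C) (hsub : C ⊆ A ∪ B) : C ⊆ A ∨ C ⊆ B := by
  by_contra hcon
  rw [not_or] at hcon
  obtain ⟨hA, hB⟩ := hcon
  have h1 : (C ∩ A).Nonempty := by
    rw [Finset.not_subset] at hB
    obtain ⟨x, hx, hxB⟩ := hB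
    exact ⟨x, Finset.mem_inter.2 ⟨hx, (Finset.mem_union.1 (hsub hx)).resolve_right hxB⟩⟩
  have h2 : C ∩ A ≠ C := fun h => hA (Finset.inter_eq_left.1 h)
  obtain ⟨i, hi, j, hj, hjn, hij⟩ := hC.2 (C ∩ A) Finset.inter_subset_left h1 h2
  have hjA : j ∉ A := fun h => hjn (Finset.mem_inter.2 ⟨hj, h⟩)
  have hjB : j ∈ B := (Finset.mem_union.1 (hsub hj)).resolve_left hjA
  have := h.2 i (Finset.mem_inter.1 hi).2 j hjB
  omega

theorem comps_union_sep {a : I → I → ℕ} (hs : ∀ i j, a i j = a j i) {A B : Finset I}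
    (h : Sep a A B) : comps a (A ∪ B) = comps a A ∪ comps a B := by
  ext C
  rw [Finset.mem_union, AG1b_mem_comps, AG1b_mem_comps, AG1b_mem_comps]
  constructor
  · rintro ⟨h1, h2, h3⟩
    rcases ConnS_subset_of_sep hs h h2 h1 with h4 | h4
    · exact Or.inl ⟨h4, h2, fun i hi j hj hjC => h3 i hi j (Finset.mem_union_left _ hj) hjC⟩
    · exact Or.inr ⟨h4, h2, fun i hi j hj hjC => h3 i hi j (Finset.mem_union_right _ hj) hjC⟩
  · rintro (⟨h1, h2, h3⟩ | ⟨h1, h2, h3⟩)
    · refine ⟨h1.trans Finset.subset_union_left, h2, fun i hi j hj hjC => ?_⟩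
      rcases Finset.mem_union.1 hj with hj | hj
      · exact h3 i hi j hj hjC
      · exact h.2 i (h1 hi) j hj
    · refine ⟨h1.trans Finset.subset_union_right, h2, fun i hi j hj hjC => ?_⟩
      rcases Finset.mem_union.1 hj with hj | hj
      · rw [hs]
        exact h.2 j hj i (h1 hi)
      · exact h3 i hi j hj hjC

theorem insS_union (A B : Finset I) (π : Pat I) : insS (A ∪ B) π = insS A π ∪ insS B π := by
  unfold insS
  rw [Finset.filter_union]

theorem insS_subset (B : Finset I) (π : Pat I) : insS B π ⊆ B := by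
  exact Finset.filter_subset _ _

theorem insS_congr (B : Finset I) (π π' : Pat I) (h : ∀ x ∈ B, π.q x = π'.q x) :
    insS B π = insS B π' := by
  unfold insS
  refine Finset.filter_congr fun x hx => ?_
  rw [h x hx]

theorem PatOk.congr {a : I → I → ℕ} {B : Finset I} {π π' : Pat I} (h : PatOk a B π)
    (hs : ∀ x ∈ B, π.s x = π'.s x) (hq : ∀ x ∈ B, π.q x = π'.q x) : PatOk a B π' := by
  have h1 := insS_congr B π π' hq
  refine ⟨fun A hA => ?_, fun A hA x hx y hy => ?_⟩
  · rw [← h1] at hA
    refine AG1b_QOk_congr (fun x hx => ?_) (h.qok A hA)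
    exact hq x (insS_subset B π (comps_subset hA hx))
  · rw [← h1] at hA
    rw [← hs x (insS_subset B π (comps_subset hA hx)),
      ← hs y (insS_subset B π (comps_subset hA hy))]
    exact h.lev A hA x hx y hy

theorem PatWide.congr {a : I → I → ℕ} {cd : CrossData a} {B : Finset I} {f : ℕ} {π π' : Pat I}
    (h : PatWide a cd B f π) (hs : ∀ x ∈ B, π.s x = π'.s x) (hq : ∀ x ∈ B, π.q x = π'.q x) :
    PatWide a cd B f π' := by
  have h1 := insS_congr B π π' hq
  refine ⟨h.toPatOk.congr hs hq, fun A hA x hx => ?_, fun A hA x hx => ?_⟩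
  · rw [← h1] at hA
    rw [← hs x (insS_subset B π (comps_subset hA hx))]
    exact h.le A hA x hx
  · rw [← h1] at hA
    rw [← hs x (insS_subset B π (comps_subset hA hx))]
    exact h.ge A hA x hx

theorem WinPat.congr {a : I → I → ℕ} {cd : CrossData a} {B : Finset I} {q : I → ℚ} {f : ℕ}
    {π π' : Pat I} (h : WinPat a cd B q f π) (hs : ∀ x ∈ B, π.s x = π'.s x)
    (hq : ∀ x ∈ B, π.q x = π'.q x) : WinPat a cd B q f π' := by
  have h1 := insS_congr B π π' hq
  refine ⟨h.toPatOk.congr hs hq, fun A hA x hx => ?_, fun A hA x hx => ?_, fun x hx h0 => ?_,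
    fun x hx h0 => ?_, fun x hx => ?_⟩
  · rw [← h1] at hA
    rw [← hs x (insS_subset B π (comps_subset hA hx))]
    exact h.le A hA x hx
  · rw [← h1] at hA
    rw [← hs x (insS_subset B π (comps_subset hA hx))]
    exact h.ge A hA x hx
  · rw [← hs x hx]
    rw [← hq x hx] at h0
    exact h.sle x hx h0
  · rw [← hs x hx]
    rw [← hq x hx] at h0
    exact h.sge x hx h0
  · rw [← hq x hx]
    exact h.cls x hx

theorem PatOk.union {a : I → I → ℕ} (hs : ∀ i j, a i j = a j i) {A B : Finset I} {π : Pat I}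
    (hA : PatOk a A π) (hB : PatOk a B π) (h : Sep a A B) : PatOk a (A ∪ B) π := by
  have h1 : comps a (insS (A ∪ B) π) = comps a (insS A π) ∪ comps a (insS B π) := by
    rw [insS_union, comps_union_sep hs (h.mono (insS_subset A π) (insS_subset B π))]
  refine ⟨fun C hC => ?_, fun C hC => ?_⟩
  · rw [h1, Finset.mem_union] at hC
    exact hC.elim (hA.qok C) (hB.qok C)
  · rw [h1, Finset.mem_union] at hC
    exact hC.elim (hA.lev C) (hB.lev C)

theorem PatWide.union {a : I → I → ℕ} (hs : ∀ i j, a i j = a j i) {cd : CrossData a}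
    {A B : Finset I} {f : ℕ} {π : Pat I} (hA : PatWide a cd A f π) (hB : PatWide a cd B f π)
    (h : Sep a A B) : PatWide a cd (A ∪ B) f π := by
  have h1 : comps a (insS (A ∪ B) π) = comps a (insS A π) ∪ comps a (insS B π) := by
    rw [insS_union, comps_union_sep hs (h.mono (insS_subset A π) (insS_subset B π))]
  refine ⟨hA.toPatOk.union hs hB.toPatOk h, fun C hC => ?_, fun C hC => ?_⟩
  · rw [h1, Finset.mem_union] at hC
    exact hC.elim (hA.le C) (hB.le C)
  · rw [h1, Finset.mem_union] at hC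
    exact hC.elim (hA.ge C) (hB.ge C)

theorem WinPat.union {a : I → I → ℕ} (hs : ∀ i j, a i j = a j i) {cd : CrossData a}
    {A B : Finset I} {q : I → ℚ} {f : ℕ} {π : Pat I} (hA : WinPat a cd A q f π)
    (hB : WinPat a cd B q f π) (h : Sep a A B) : WinPat a cd (A ∪ B) q f π := by
  have h1 : comps a (insS (A ∪ B) π) = comps a (insS A π) ∪ comps a (insS B π) := by
    rw [insS_union, comps_union_sep hs (h.mono (insS_subset A π) (insS_subset B π))]
  refine ⟨hA.toPatOk.union hs hB.toPatOk h, fun C hC => ?_, fun C hC => ?_, fun x hx => ?_,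
    fun x hx => ?_, fun x hx => ?_⟩
  · rw [h1, Finset.mem_union] at hC
    exact hC.elim (hA.le C) (hB.le C)
  · rw [h1, Finset.mem_union] at hC
    exact hC.elim (hA.ge C) (hB.ge C)
  · exact (Finset.mem_union.1 hx).elim (hA.sle x) (hB.sle x)
  · exact (Finset.mem_union.1 hx).elim (hA.sge x) (hB.sge x)
  · exact (Finset.mem_union.1 hx).elim (hA.cls x) (hB.cls x)

/-- adding a vertex without insertion (it may be adjacent to `B`). -/
theorem WinPat.insert {a : I → I → ℕ} {cd : CrossData a} {B : Finset I} {q : I → ℚ} {f : ℕ}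
    {π : Pat I} (hB : WinPat a cd B q f π) (x : I) (hx : x ∉ B) (h0 : π.q x = 0)
    (h1 : π.s x ≤ f) (h2 : f < π.s x + 2) (hq : IsZ (q x)) :
    WinPat a cd (insert x B) q f π := by
  have h3 : insS (Insert.insert x B) π = insS B π := by
    unfold insS
    rw [Finset.filter_insert, if_neg (by rw [h0]; exact fun h => h rfl)]
  refine ⟨⟨fun C hC => ?_, fun C hC => ?_⟩, fun C hC => ?_, fun C hC => ?_, fun y hy hy0 => ?_,
    fun y hy hy0 => ?_, fun y hy => ?_⟩
  · rw [h3] at hC
    exact hB.qok C hC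
  · rw [h3] at hC
    exact hB.lev C hC
  · rw [h3] at hC
    exact hB.le C hC
  · rw [h3] at hC
    exact hB.ge C hC
  · rcases Finset.mem_insert.1 hy with rfl | hy
    · exact h1
    · exact hB.sle y hy hy0
  · rcases Finset.mem_insert.1 hy with rfl | hy
    · exact h2
    · exact hB.sge y hy hy0
  · rcases Finset.mem_insert.1 hy with rfl | hy
    · rw [h0]
      obtain ⟨n, hn⟩ := hq
      exact ⟨-n, by rw [hn]; push_cast; ring⟩
    · exact hB.cls y hy

theorem PatOk_empty (a : I → I → ℕ) (π : Pat I) : PatOk a ∅ π := by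
  have h1 : comps a (insS ∅ π) = ∅ := by
    ext C
    rw [AG1b_mem_comps]
    constructor
    · rintro ⟨h1, h2, -⟩
      obtain ⟨x, hx⟩ := h2.1
      exact absurd (h1 hx) (by simp [insS])
    · intro h
      exact absurd h (Finset.notMem_empty C)
  refine ⟨fun C hC => ?_, fun C hC => ?_⟩
  · rw [h1] at hC
    exact absurd hC (Finset.notMem_empty C)
  · rw [h1] at hC
    exact absurd hC (Finset.notMem_empty C)

theorem PatWide_empty (a : I → I → ℕ) (cd : CrossData a) (f : ℕ) (π : Pat I) :
    PatWide a cd ∅ f π := by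
  have h1 : comps a (insS ∅ π) = ∅ := by
    ext C
    rw [AG1b_mem_comps]
    constructor
    · rintro ⟨h1, h2, -⟩
      obtain ⟨x, hx⟩ := h2.1
      exact absurd (h1 hx) (by simp [insS])
    · intro h
      exact absurd h (Finset.notMem_empty C)
  refine ⟨PatOk_empty a π, fun C hC => ?_, fun C hC => ?_⟩
  · rw [h1] at hC
    exact absurd hC (Finset.notMem_empty C)
  · rw [h1] at hC
    exact absurd hC (Finset.notMem_empty C)

/-- a pattern in the window at `f` is wide at `f` and at `f + 1`. -/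
theorem WinPat.wide {a : I → I → ℕ} {cd : CrossData a} {B : Finset I} {q : I → ℚ} {f : ℕ}
    {π : Pat I} (h : WinPat a cd B q f π) : PatWide a cd B f π := by
  exact ⟨h.toPatOk, h.le, fun A hA x hx => (h.ge A hA x hx).le⟩

theorem WinPat.wide_succ {a : I → I → ℕ} {cd : CrossData a} {B : Finset I} {q : I → ℚ} {f : ℕ}
    {π : Pat I} (h : WinPat a cd B q f π) : PatWide a cd B (f + 1) π := by
  exact ⟨h.toPatOk, fun A hA x hx => (h.le A hA x hx).trans (Nat.le_succ f),
    fun A hA x hx => h.ge A hA x hx⟩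

/-- patterns of a product are wide. -/
theorem PatWide_prodF (a : I → I → ℕ) (hs : ∀ i j, a i j = a j i) (cd : CrossData a) (f : ℕ)
    (U : List (Finset I × FFn I)) (hd : U.Pairwise (fun b c => Sep a b.1 c.1))
    (h : ∀ b ∈ U, ∀ c ∈ b.2, PatWide a cd b.1 f c.2) (c : ℚ × Pat I) (hc : c ∈ prodF U) :
    PatWide a cd (uni U) f c.2 := by
  induction U generalizing c with
  | nil => exact PatWide_empty a cd f _
  | cons b U ih =>
    rw [List.pairwise_cons] at hd
    change c ∈ b.2.flatMap (fun c => (prodF U).map (fun d => (c.1 * d.1, glue b.1 c.2 d.2))) at hc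
    rw [List.mem_flatMap] at hc
    obtain ⟨c', hc', hc⟩ := hc
    rw [List.mem_map] at hc
    obtain ⟨d, hd', rfl⟩ := hc
    have hsep := AG1b_sep_uni hd.1
    change PatWide a cd (b.1 ∪ uni U) f (glue b.1 c'.2 d.2)
    refine PatWide.union hs ?_ ?_ hsep
    · refine (h b List.mem_cons_self c' hc').congr (fun x hx => ?_) (fun x hx => ?_)
      · exact (if_pos hx).symm
      · exact (if_pos hx).symm
    · refine (ih hd.2 (fun e he => h e (List.mem_cons_of_mem _ he)) d hd').congr
        (fun x hx => ?_) (fun x hx => ?_)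
      · exact (if_neg (fun hx' => Finset.disjoint_left.1 hsep.1 hx' hx)).symm
      · exact (if_neg (fun hx' => Finset.disjoint_left.1 hsep.1 hx' hx)).symm

theorem WinPat_prodF (a : I → I → ℕ) (hs : ∀ i j, a i j = a j i) (cd : CrossData a) (f : ℕ)
    (q : I → ℚ) (U : List (Finset I × FFn I)) (hd : U.Pairwise (fun b c => Sep a b.1 c.1))
    (h : ∀ b ∈ U, ∀ c ∈ b.2, WinPat a cd b.1 q f c.2) (c : ℚ × Pat I) (hc : c ∈ prodF U) :
    WinPat a cd (uni U) q f c.2 := by
  induction U generalizing c with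
  | nil =>
    have h1 := PatWide_empty a cd f c.2
    refine ⟨h1.toPatOk, h1.le, fun A hA x hx => ?_, fun x hx => ?_, fun x hx => ?_,
      fun x hx => ?_⟩
    · have h2 := comps_subset hA hx
      exact absurd (insS_subset _ _ h2) (Finset.notMem_empty x)
    · exact absurd hx (Finset.notMem_empty x)
    · exact absurd hx (Finset.notMem_empty x)
    · exact absurd hx (Finset.notMem_empty x)
  | cons b U ih =>
    rw [List.pairwise_cons] at hd
    change c ∈ b.2.flatMap (fun c => (prodF U).map (fun d => (c.1 * d.1, glue b.1 c.2 d.2))) at hc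
    rw [List.mem_flatMap] at hc
    obtain ⟨c', hc', hc⟩ := hc
    rw [List.mem_map] at hc
    obtain ⟨d, hd', rfl⟩ := hc
    have hsep := AG1b_sep_uni hd.1
    change WinPat a cd (b.1 ∪ uni U) q f (glue b.1 c'.2 d.2)
    refine WinPat.union hs ?_ ?_ hsep
    · refine (h b List.mem_cons_self c' hc').congr (fun x hx => ?_) (fun x hx => ?_)
      · exact (if_pos hx).symm
      · exact (if_pos hx).symm
    · refine (ih hd.2 (fun e he => h e (List.mem_cons_of_mem _ he)) d hd').congr
        (fun x hx => ?_) (fun x hx => ?_)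
      · exact (if_neg (fun hx' => Finset.disjoint_left.1 hsep.1 hx' hx)).symm
      · exact (if_neg (fun hx' => Finset.disjoint_left.1 hsep.1 hx' hx)).symm

end

end Pool.Agent.H27.KAC
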