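import Pool.Agent.H41.KA.AG0
import Pool.Agent.H41.KA.AE8
import Pool.Agent.H41.KA.AE4
import Pool.Agent.H41.KA.AG1b

/-!
KAC ADE, module AG14: class independence.

`tau_class`: `k ≥ 1`: `TV_rep` with `N = A`, `κ = k`, `σ = k + 1`, `v = q - q'` on `A`; the exponents on `A` at level `k` are
`T.E + C_A q`, `solN = q + solN(T.E) > q - q'`.  `k = 0`: `TV_lev0`.

`Rv_class`: by `raw_pos` only the `m` with `m ≠ 0` and `q x < m x` whenever `m x ≠ 0` contribute; they correspond to the `m'` for
`q'` with the same support `M` and `m' - q' = m - q` on `M` (integer, positive, `m' x > q' x > 0`); the two raw terms have the same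
columns and differ by the insertion `η^{-q}`, `η^{-q'}` on `N = {m = 0}`: `TV_rep` on `N` with `v = q - q'`, the exponents on `N` at level `k`
are `T.E + C_N q + a_NM (m - q)`, `solN = q + solN (T.E + a_NM δ)`.  Use `sum_raw_bound` to make the bounds large.
-/

set_option autoImplicit false

namespace Pool.Agent.H27.KAC

open scoped BigOperators

section

variable {I : Type} [Fintype I] [DecidableEq I]

/-- exponents of `blkT`. -/
theorem AG14_blkE (a : I → I → ℕ) (hs : ∀ i j, a i j = a j i) (A : Finset I) (k σ : ℕ)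
    (q : I → ℚ) (T : Trm I) (i : I) (l : ℕ) :
    (blkT a A k σ q T).E (i, l) = T.E (i, l) + (if l = k then cqN a A q i else 0) := by
  have h1 : (blkT a A k σ q T).E = (T.eta a k (fun i => -resQ A q i)).E := rfl
  rw [h1, eta_eq_etaM, etaM_E, sub_eq_add_neg]
  congr 1
  by_cases h : l = k
  · rw [if_pos h]
    subst h
    rw [Finset.filter_true_of_mem (fun _ _ => rfl), ← Finset.sum_neg_distrib]
    unfold cqN resQ
    have h2 : ∀ x : I, -(-(if x ∈ A then q x else 0) * ((cart a x i : ℤ) : ℚ)) =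
        if x ∈ A then ((cart a i x : ℤ) : ℚ) * q x else 0 := by
      intro x
      by_cases hx : x ∈ A
      · rw [if_pos hx, if_pos hx, AE8_cart_comm hs x i]
        ring
      · rw [if_neg hx, if_neg hx]
        ring
    rw [Finset.sum_congr rfl fun x _ => h2 x, ← Finset.sum_filter, Finset.filter_mem_eq_inter,
      Finset.univ_inter]
  · rw [if_neg h, Finset.filter_false_of_mem (fun _ _ => fun h' => h h'.symm), Finset.sum_empty,
      neg_zero]

theorem AG14_q_pos (a : I → I → ℕ) (hs : ∀ i j, a i j = a j i) (A : Finset I) (hA : FinT a A)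
    (q : I → ℚ) (hq : QOk a A q) : ∀ x ∈ A, 0 < q x := by
  intro x hx
  rw [← solN_cqN hs hA q x hx]
  have h1 : solN a A (cqN a A q) = solN a A (fun i => if i ∈ A then cqN a A q i else 0) := by
    refine solN_congr hs hA _ _ fun i hi => ?_
    rw [if_pos hi]
  rw [h1]
  refine solN_pos_self hs hA _ (fun i hi => ?_) x hx ?_
  · beta_reduce
    rw [if_pos hi]
    obtain ⟨n, hn, h2⟩ := hq i hi
    rw [h2]
    exact Nat.cast_nonneg n
  · rw [if_pos hx]
    obtain ⟨n, hn, h2⟩ := hq x hx
    rw [h2]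
    exact_mod_cast hn

theorem AG14_intv (A : Finset I) (q q' : I → ℚ) (h : ∀ x ∈ A, IsZ (q x - q' x)) (P : I → Prop)
    [DecidablePred P] : ∃ v : I → ℤ, (∀ i, ¬ (i ∈ A ∧ P i) → v i = 0) ∧
      ∀ x ∈ A, P x → (v x : ℚ) = q x - q' x := by
  classical
  have h1 : ∀ i, ∃ n : ℤ, (i ∈ A → q i - q' i = n) := by
    intro i
    by_cases hi : i ∈ A
    · obtain ⟨n, hn⟩ := h i hi
      exact ⟨n, fun _ => hn⟩
    · exact ⟨0, fun h' => absurd h' hi⟩
  choose v hv using h1
  refine ⟨fun i => if i ∈ A ∧ P i then v i else 0, fun i hi => if_neg hi, fun x hx hp => ?_⟩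
  beta_reduce
  rw [if_pos ⟨hx, hp⟩]
  exact (hv x hx).symm

theorem blk_class (a : I → I → ℕ) (hs : ∀ i j, a i j = a j i) (A : Finset I) (hA : FinT a A)
    (k σ : ℕ) (hk : 1 ≤ k) (hσ : Side k σ) (q q' : I → ℚ) (hq : QOk a A q) (hq' : QOk a A q')
    (h : ∀ x ∈ A, IsZ (q x - q' x)) (T : Trm I) (hT : RReg A T) :
    TV a (blkT a A k σ q T) = TV a (blkT a A k σ q' T) := by
  obtain ⟨v, hv0, hv⟩ := AG14_intv A q q' h (fun _ => True)
  have hq0 := AG14_q_pos a hs A hA q hq
  have hq0' := AG14_q_pos a hs A hA q' hq'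
  have hnat : ∀ x ∈ A, ∀ l, 1 ≤ l → IsN ((blkT a A k σ q T).E (x, l)) ∧
      T.E (x, l) ≤ (blkT a A k σ q T).E (x, l) := by
    intro x hx l hl
    rw [AG14_blkE a hs]
    obtain ⟨n, hn⟩ := hT.nat x hx l hl
    by_cases hlk : l = k
    · rw [if_pos hlk]
      obtain ⟨n', h1, h2⟩ := hq x hx
      rw [hn, h2]
      exact ⟨⟨n + n', by push_cast; ring⟩, by
        have : (0 : ℚ) ≤ n' := Nat.cast_nonneg n'
        linarith⟩
    · rw [if_neg hlk, hn, add_zero]
      exact ⟨⟨n, rfl⟩, le_rfl⟩
  have hreg : ∀ x ∈ A, FReg (blkT a A k σ q T) x k σ := by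
    intro x hx
    refine ⟨fun l hl _ => (hnat x hx l hl).1, ?_, fun j l hl hne => ?_⟩
    · obtain ⟨n, hn⟩ := (hnat x hx k hk).1
      exact ⟨(n : ℤ), by rw [hn]; push_cast; rfl⟩
    · have h1 : (blkT a A k σ q T).Λ j = if j ∈ A then sy j σ else T.Λ j := rfl
      rw [h1] at hne
      by_cases hj : j ∈ A
      · rw [if_pos hj, Finsupp.single_apply] at hne
        left
        by_contra hc
        apply hne
        rw [if_neg]
        intro h'
        exact hc (Prod.ext_iff.1 h').2.symm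
      · rw [if_neg hj] at hne
        exact Or.inr (Or.inr ((hT.col x hx j hj l hl hne).trans (hnat x hx l hl).2))
  have hsol : ∀ x ∈ A, q x ≤ solN a A (fun i => (blkT a A k σ q T).E (i, k)) x := by
    intro x hx
    have h1 : (fun i => (blkT a A k σ q T).E (i, k)) =
        fun i => T.E (i, k) + cqN a A q i := by
      funext i
      rw [AG14_blkE a hs, if_pos rfl]
    rw [h1, solN_add hs hA, solN_cqN hs hA q x hx]
    have h2 : 0 ≤ solN a A (fun i => T.E (i, k)) x := by
      refine solN_nonneg hs hA _ (fun i hi => ?_) x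
      obtain ⟨n, hn⟩ := hT.nat i hi k hk
      rw [hn]
      exact Nat.cast_nonneg n
    linarith
  rw [TV_rep a hs A hA (fun _ => k) (fun _ => σ) (fun _ _ => hk) (fun _ _ _ _ _ => rfl)
    (fun _ _ => hσ) (blkT a A k σ q T) hreg (fun x hx => (hq0 x hx).trans_le (hsol x hx)) v
    (fun i hi => hv0 i (fun h' => hi h'.1)) (fun x hx => by
      rw [hv x hx trivial]
      have := hsol x hx
      have := hq0' x hx
      linarith)]
  congr 1
  refine Trm.ext ?_ ?_ rfl
  · funext i
    show T.γ i - (k : ℚ) * (-resQ A q i) - (k : ℚ) * (v i : ℚ) = T.γ i - (k : ℚ) * (-resQ A q' i)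
    unfold resQ
    by_cases hi : i ∈ A
    · rw [if_pos hi, if_pos hi, hv i hi trivial]
      ring
    · rw [if_neg hi, if_neg hi, hv0 i (fun h' => hi h'.1)]
      push_cast
      ring
  · show T.E - (∑ x, (-resQ A q x) • cE a x k) - (∑ x, (v x : ℚ) • cE a x k) =
      T.E - ∑ x, (-resQ A q' x) • cE a x k
    rw [sub_sub, ← Finset.sum_add_distrib]
    congr 1
    refine Finset.sum_congr rfl fun x _ => ?_
    rw [← add_smul]
    congr 1
    unfold resQ
    by_cases hi : x ∈ A
    · rw [if_pos hi, if_pos hi, hv x hi trivial]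
      ring
    · rw [if_neg hi, if_neg hi, hv0 x (fun h' => hi h'.1)]
      push_cast
      ring

theorem AG14_tau0 (a : I → I → ℕ) (B : Finset I) (q : I → ℚ) (T : Trm I) :
    TV a (tauT a B 0 q T) = TV a (T.cols B (fun x => sy x 1)) := by
  apply TV_lev0
  · funext i
    show T.γ i - ((0 : ℕ) : ℚ) * (-resQ B q i) = T.γ i
    push_cast
    ring
  · intro i k hk
    show (T.E - ∑ x, (-resQ B q x) • cE a x 0) (i, k) = T.E (i, k)
    rw [Finsupp.sub_apply, Finsupp.finsetSum_apply, Finset.sum_eq_zero, sub_zero]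
    intro x _
    unfold cE
    rw [Finsupp.smul_apply, Finsupp.finsetSum_apply, Finset.sum_eq_zero, smul_zero]
    intro j _
    rw [Finsupp.smul_apply, Finsupp.single_apply, if_neg, smul_zero]
    intro h
    have := (Prod.mk.inj h).2
    omega
  · intro j i k _
    rfl

theorem tau_class (a : I → I → ℕ) (hs : ∀ i j, a i j = a j i) (A : Finset I) (hA : FinT a A)
    (k : ℕ) (q q' : I → ℚ) (hq : QOk a A q) (hq' : QOk a A q')
    (h : ∀ x ∈ A, IsZ (q x - q' x)) (T : Trm I) (hT : RReg A T) :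
    TV a (tauT a A k q T) = TV a (tauT a A k q' T) := by
  by_cases hk : 1 ≤ k
  · exact blk_class a hs A hA k (k + 1) hk (Or.inl rfl) q q' hq hq' h T hT
  · have hk0 : k = 0 := by omega
    subst hk0
    rw [AG14_tau0, AG14_tau0]

/-- change of the multiplicities. -/
noncomputable def AG14_ph (q q' : I → ℚ) (m : I → ℕ) (x : I) : ℕ :=
  if m x = 0 then 0 else ⌊(m x : ℚ) - q x + q' x⌋₊

theorem AG14_key (a : I → I → ℕ) (hs : ∀ i j, a i j = a j i) (A : Finset I) (hA : FinT a A)
    (hc : ConnS a A) (k : ℕ) (hk : 1 ≤ k) (q q' : I → ℚ) (hq : QOk a A q) (hq' : QOk a A q')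
    (h : ∀ x ∈ A, IsZ (q x - q' x)) (T : Trm I) (hT : RReg A T) (m : I → ℕ)
    (hm0 : ∀ i, i ∉ A → m i = 0) (hm : ¬ Plat A q m) (hne : TV a (rawT a A k q m T) ≠ 0) :
    (∀ x ∈ A, m x ≠ 0 → ((AG14_ph q q' m x : ℕ) : ℚ) = (m x : ℚ) - q x + q' x ∧
      AG14_ph q q' m x ≠ 0) ∧
    TV a (rawT a A k q m T) = TV a (rawT a A k q' (AG14_ph q q' m) T) ∧
    sgm A m = sgm A (AG14_ph q q' m) ∧ ¬ Plat A q' (AG14_ph q q' m) ∧
    AG14_ph q' q (AG14_ph q q' m) = m := by
  have hq0 := AG14_q_pos a hs A hA q hq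
  have hq0' := AG14_q_pos a hs A hA q' hq'
  have hpos := raw_pos a hs A hA hc k hk q hq T hT m hm hne
  have hval : ∀ x ∈ A, m x ≠ 0 → ((AG14_ph q q' m x : ℕ) : ℚ) = (m x : ℚ) - q x + q' x ∧
      AG14_ph q q' m x ≠ 0 := by
    intro x hx hmx
    obtain ⟨n, hn⟩ := h x hx
    have h1 : (m x : ℚ) - q x + q' x = (((m x : ℤ) - n : ℤ) : ℚ) := by
      push_cast
      linarith
    have h2 : 0 < (m x : ℚ) - q x + q' x := by
      have := hpos x hx hmx
      have := hq0' x hx
      linarith
    have h3 : 0 < (m x : ℤ) - n := by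
      rw [h1] at h2
      exact_mod_cast h2
    obtain ⟨r, hr⟩ := Int.eq_ofNat_of_zero_le h3.le
    have h4 : AG14_ph q q' m x = r := by
      unfold AG14_ph
      rw [if_neg hmx, h1, hr]
      push_cast
      exact Nat.floor_natCast r
    refine ⟨?_, ?_⟩
    · rw [h4, h1, hr]
      push_cast
      rfl
    · rw [h4]
      intro h5
      rw [hr, h5] at h3
      exact lt_irrefl _ h3
  have hz : ∀ x, m x = 0 → AG14_ph q q' m x = 0 := by
    intro x hx
    unfold AG14_ph
    rw [if_pos hx]
  have hz' : ∀ x ∈ A, (m x = 0 ↔ AG14_ph q q' m x = 0) := by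
    intro x hx
    refine ⟨hz x, fun h1 => ?_⟩
    by_contra h2
    exact (hval x hx h2).2 h1
  refine ⟨hval, ?_, ?_, ?_, ?_⟩
  · -- the replacement
    set N : Finset I := A.filter (fun x => m x = 0) with hNdef
    have hNA : N ⊆ A := Finset.filter_subset _ _
    have hNmem : ∀ x, x ∈ N ↔ x ∈ A ∧ m x = 0 := fun x => Finset.mem_filter
    obtain ⟨v, hv0, hv⟩ := AG14_intv A q q' h (fun x => m x = 0)
    have hN : FinT a N := hA.mono hNA
    have hsol : ∀ x ∈ N, q x ≤ solN a N (fun i => (rawT a A k q m T).E (i, k)) x := by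
      intro x hx
      have h1 : solN a N (fun i => (rawT a A k q m T).E (i, k)) =
          solN a N (fun i => (T.E (i, k) + ∑ j ∈ A.filter (fun j => ¬ m j = 0),
            (a i j : ℚ) * ((m j : ℚ) - q j)) + cqN a N q i) := by
        refine solN_congr hs hN _ _ fun i hi => ?_
        beta_reduce
        rw [AE8_rawE a hs, if_pos rfl, add_assoc, sub_eq_add_neg]
        congr 1
        unfold cqN
        rw [AE8_split A m, neg_add, add_comm]
        congr 1
        · rw [← Finset.sum_neg_distrib]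
          refine Finset.sum_congr rfl fun j hj => ?_
          have hij : i ≠ j := by
            intro e
            rw [Finset.mem_filter] at hj
            exact hj.2 (e ▸ ((hNmem i).1 hi).2)
          rw [AE8_cart_ne a hij]
          ring
        · rw [← Finset.sum_neg_distrib]
          refine Finset.sum_congr rfl fun j hj => ?_
          beta_reduce
          rw [((hNmem j).1 hj).2]
          push_cast
          ring
      rw [h1, solN_add hs hN, solN_cqN hs hN q x hx]
      have h2 : 0 ≤ solN a N (fun i => T.E (i, k) + ∑ j ∈ A.filter (fun j => ¬ m j = 0),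
            (a i j : ℚ) * ((m j : ℚ) - q j)) x := by
        refine solN_nonneg hs hN _ (fun i hi => ?_) x
        obtain ⟨n, hn⟩ := hT.nat i (hNA hi) k hk
        beta_reduce
        rw [hn]
        refine add_nonneg (Nat.cast_nonneg n) (Finset.sum_nonneg fun j hj => ?_)
        rw [Finset.mem_filter] at hj
        refine mul_nonneg (Nat.cast_nonneg _) ?_
        have := hpos j hj.1 hj.2
        linarith
      linarith
    rw [TV_rep a hs N hN (fun _ => k) (fun _ => k - 1) (fun _ _ => hk) (fun _ _ _ _ _ => rfl)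
      (fun _ _ => Or.inr (by omega)) (rawT a A k q m T)
      (fun x hx => AE8_FReg a hs A k hk q hq T hT m x (hNA hx))
      (fun x hx => (hq0 x (hNA hx)).trans_le (hsol x hx)) v
      (fun i hi => hv0 i (fun h' => hi ((hNmem i).2 h'))) (fun x hx => by
        rw [hv x (hNA hx) ((hNmem x).1 hx).2]
        have := hsol x hx
        have := hq0' x (hNA hx)
        linarith)]
    have hins : ∀ i, (if i ∈ A then (m i : ℚ) - q i else 0) + (v i : ℚ) =
        if i ∈ A then ((AG14_ph q q' m i : ℕ) : ℚ) - q' i else 0 := by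
      intro i
      by_cases hi : i ∈ A
      · rw [if_pos hi, if_pos hi]
        by_cases hmi : m i = 0
        · rw [hv i hi hmi, hmi, hz i hmi]
          push_cast
          ring
        · rw [hv0 i (fun h' => hmi h'.2), (hval i hi hmi).1]
          push_cast
          ring
      · rw [if_neg hi, if_neg hi, hv0 i (fun h' => hi h'.1)]
        push_cast
        ring
    congr 1
    refine Trm.ext ?_ ?_ ?_
    · funext i
      show T.γ i - (k : ℚ) * (if i ∈ A then (m i : ℚ) - q i else 0) - (k : ℚ) * (v i : ℚ) =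
        T.γ i - (k : ℚ) * (if i ∈ A then ((AG14_ph q q' m i : ℕ) : ℚ) - q' i else 0)
      rw [← hins i]
      ring
    · show T.E - (∑ x, (if x ∈ A then (m x : ℚ) - q x else 0) • cE a x k) -
        (∑ x, (v x : ℚ) • cE a x k) =
        T.E - ∑ x, (if x ∈ A then ((AG14_ph q q' m x : ℕ) : ℚ) - q' x else 0) • cE a x k
      rw [sub_sub, ← Finset.sum_add_distrib]
      congr 1
      refine Finset.sum_congr rfl fun x _ => ?_
      rw [← add_smul, hins x]
    · funext j
      show (if j ∈ A then (if m j = 0 then sy j (k - 1) else cE a j k) else T.Λ j) =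
        if j ∈ A then (if AG14_ph q q' m j = 0 then sy j (k - 1) else cE a j k) else T.Λ j
      by_cases hj : j ∈ A
      · rw [if_pos hj, if_pos hj]
        by_cases hmj : m j = 0
        · rw [if_pos hmj, if_pos (hz j hmj)]
        · rw [if_neg hmj, if_neg (hval j hj hmj).2]
      · rw [if_neg hj, if_neg hj]
  · unfold sgm
    congr 2
    exact Finset.filter_congr fun x hx => hz' x hx
  · intro hpl
    apply hm
    intro x hx
    by_cases hmx : m x = 0
    · exact Or.inl hmx
    · exfalso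
      rcases hpl x hx with h1 | h1
      · exact (hval x hx hmx).2 h1
      · rw [(hval x hx hmx).1] at h1
        have := hpos x hx hmx
        linarith
  · funext x
    by_cases hx : x ∈ A
    · by_cases hmx : m x = 0
      · unfold AG14_ph
        rw [if_pos hmx, if_pos rfl, hmx]
      · obtain ⟨h1, h2⟩ := hval x hx hmx
        show (if AG14_ph q q' m x = 0 then 0 else
          ⌊((AG14_ph q q' m x : ℕ) : ℚ) - q' x + q x⌋₊) = m x
        rw [if_neg h2, h1]
        have h3 : (m x : ℚ) - q x + q' x - q' x + q x = m x := by ring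
        rw [h3]
        exact Nat.floor_natCast (m x)
    · have hmx := hm0 x hx
      unfold AG14_ph
      rw [if_pos hmx, if_pos rfl, hmx]

theorem AG14_box (A : Finset I) (B : ℕ) (m : I → ℕ) :
    m ∈ mbox A B ↔ (∀ x ∈ A, m x ≤ B) ∧ ∀ i, i ∉ A → m i = 0 := by
  unfold mbox
  rw [Fintype.mem_piFinset]
  constructor
  · intro h
    refine ⟨fun x hx => ?_, fun i hi => ?_⟩
    · have := h x
      rw [if_pos hx, Finset.mem_range] at this
      omega
    · have := h i
      rw [if_neg hi, Finset.mem_singleton] at this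
      exact this
  · intro h i
    by_cases hi : i ∈ A
    · rw [if_pos hi, Finset.mem_range]
      have := h.1 i hi
      omega
    · rw [if_neg hi, Finset.mem_singleton]
      exact h.2 i hi

theorem AG14_box_of (a : I → I → ℕ) (hs : ∀ i j, a i j = a j i) (A : Finset I) (hA : FinT a A)
    (hc : ConnS a A) (k : ℕ) (hk : 1 ≤ k) (q q' : I → ℚ) (hq : QOk a A q) (hq' : QOk a A q')
    (h : ∀ x ∈ A, IsZ (q x - q' x)) (T : Trm I) (hT : RReg A T) (m : I → ℕ)
    (hm0 : ∀ i, i ∉ A → m i = 0) (hm : ¬ Plat A q m) (hne : TV a (rawT a A k q m T) ≠ 0) :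
    AG14_ph q q' m ∈ mbox A (bnd A k q' T) := by
  obtain ⟨-, h2, -⟩ := AG14_key a hs A hA hc k hk q q' hq hq' h T hT m hm0 hm hne
  rw [AG14_box]
  refine ⟨fun x hx => ?_, fun i hi => ?_⟩
  · by_contra h3
    apply hne
    rw [h2]
    exact rawT_zero_of_large a A k hk q' _ T x hx (by omega)
  · unfold AG14_ph
    rw [if_pos (hm0 i hi)]

theorem Rv_class (a : I → I → ℕ) (hs : ∀ i j, a i j = a j i) (A : Finset I) (hA : FinT a A)
    (hc : ConnS a A) (k : ℕ) (hk : 1 ≤ k) (q q' : I → ℚ) (hq : QOk a A q) (hq' : QOk a A q')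
    (h : ∀ x ∈ A, IsZ (q x - q' x)) (T : Trm I) (hT : RReg A T) :
    Rv a A k q T = Rv a A k q' T := by
  classical
  have h' : ∀ x ∈ A, IsZ (q' x - q x) := by
    intro x hx
    obtain ⟨n, hn⟩ := h x hx
    exact ⟨-n, by push_cast; linarith⟩
  unfold Rv
  refine Finset.sum_bij_ne_zero (fun m _ _ => AG14_ph q q' m) ?_ ?_ ?_ ?_
  · intro m hm hne
    rw [Finset.mem_filter] at hm
    have hm0 := ((AG14_box A _ m).1 hm.1).2
    have hne' := right_ne_zero_of_mul hne
    rw [Finset.mem_filter]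
    exact ⟨AG14_box_of a hs A hA hc k hk q q' hq hq' h T hT m hm0 hm.2 hne',
      (AG14_key a hs A hA hc k hk q q' hq hq' h T hT m hm0 hm.2 hne').2.2.2.1⟩
  · intro m hm hne m' hm' hne' heq
    rw [Finset.mem_filter] at hm hm'
    have h1 := (AG14_key a hs A hA hc k hk q q' hq hq' h T hT m
      ((AG14_box A _ m).1 hm.1).2 hm.2 (right_ne_zero_of_mul hne)).2.2.2.2
    have h2 := (AG14_key a hs A hA hc k hk q q' hq hq' h T hT m'
      ((AG14_box A _ m').1 hm'.1).2 hm'.2 (right_ne_zero_of_mul hne')).2.2.2.2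
    rw [← h1, ← h2]
    exact congrArg (AG14_ph q' q) heq
  · intro m hm hne
    rw [Finset.mem_filter] at hm
    have hm0 := ((AG14_box A _ m).1 hm.1).2
    have hne' := right_ne_zero_of_mul hne
    obtain ⟨-, h2, h3, h4, h5⟩ :=
      AG14_key a hs A hA hc k hk q' q hq' hq h' T hT m hm0 hm.2 hne'
    refine ⟨AG14_ph q' q m, ?_, ?_, h5⟩
    · rw [Finset.mem_filter]
      exact ⟨AG14_box_of a hs A hA hc k hk q' q hq' hq h' T hT m hm0 hm.2 hne', h4⟩
    · rw [← h2, ← h3]
      exact hne
  · intro m hm hne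
    rw [Finset.mem_filter] at hm
    obtain ⟨-, h2, h3, -⟩ := AG14_key a hs A hA hc k hk q q' hq hq' h T hT m
      ((AG14_box A _ m).1 hm.1).2 hm.2 (right_ne_zero_of_mul hne)
    rw [← h2, ← h3]

theorem Resp.change_class (a : I → I → ℕ) (hs : ∀ i j, a i j = a j i) (cd : CrossData a)
    (A : Finset I) (hA : FinT a A) (hc : ConnS a A) (q q' : I → ℚ) (hq : QOk a A q)
    (hq' : QOk a A q') (h : ∀ x ∈ A, IsZ (q x - q' x)) (K : ℕ) (w : ℕ → ℚ) (Φ : ℕ → FFn I)
    (hr : Resp a cd A q K w Φ) : Resp a cd A q' K w Φ := by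
  refine ⟨fun f hf c hc' => ?_, fun T hT => ?_, fun f h1 h2 T hT => ?_, fun f h1 h2 T hT hk => ?_⟩
  · obtain ⟨h1, h2, h3, h4, h5, h6⟩ := hr.win f hf c hc'
    refine ⟨h1, h2, h3, h4, h5, fun x hx => ?_⟩
    obtain ⟨n, hn⟩ := h6 x hx
    obtain ⟨n', hn'⟩ := h x hx
    exact ⟨n + n', by push_cast; linarith⟩
  · rw [hr.a0 T hT, tau_class a hs A hA 0 q q' hq hq' h T hT]
  · rw [hr.stp f h1 h2 T hT, Rv_class a hs A hA hc f h1 q q' hq hq' h T hT]
  · rw [hr.knk f h1 h2 T hT hk, tau_class a hs A hA f q q' hq hq' h T hT]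

theorem Resp.val {a : I → I → ℕ} {cd : CrossData a} {A : Finset I} {q : I → ℚ} {K : ℕ}
    {w : ℕ → ℚ} {Φ : ℕ → FFn I} (hr : Resp a cd A q K w Φ) (f : ℕ) (hf : f ≤ K) (T : Trm I)
    (hT : RReg A T) : evF a A (Φ f) T =
      w 0 * TV a (tauT a A 0 q T) + ∑ l ∈ Finset.Icc 1 f, w l * Rv a A l q T := by
  induction f with
  | zero => rw [hr.a0 T hT, Finset.Icc_eq_empty (by omega), Finset.sum_empty, add_zero]
  | succ f ih =>
    have h1 := hr.stp (f + 1) (by omega) hf T hT
    rw [Nat.add_sub_cancel, ih (by omega)] at h1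
    rw [Finset.sum_Icc_succ_top (by omega), ← add_assoc, ← h1]
    ring

end

end Pool.Agent.H27.KAC
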