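import Pool.Agent.H41.KA.AG1
import Pool.Agent.H41.KA.AD6

/-!
KAC ADE, module AG2: the level lemma (LL) and the upper representation of far blocks.

`LL`: `A` is a component of `insS U π` with level `s`, `s + 1 ≤ l ≤ s + mm A - 1`, `z ∉ U` adjacent to `A`.  Write (with
`patT_glue`, `tauT_eq_patT`, `patT_congr`) `patT a U π T = tauT a A s π.q T'`, `T' = patT a (U \ A) π T`, which is `RReg A`
(`RReg_patT`).  Expand `mulE (r • dd z l)` with `TV_expP` (vertex `z`, level `l`).  In the terms with `m ≥ 1` the term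
`T'.eta a l (Pi.single z m)` is still `RReg A` (the exponents `(y,l)`, `y ∈ A`, increase by `m * a z y`) and has an exponent
`≥ 1` at level `l` in `A`; so `cd.rv` gives zero.  The term `m = 0` is the right hand side.

`far_up`: blocks with `s + mm A = f`: `cd.cr` with `k = f`.
-/

set_option autoImplicit false

namespace Pool.Agent.H27.KAC

open scoped BigOperators

section

variable {I : Type} [Fintype I] [DecidableEq I]

/-- the union of separated finite type sets. -/
theorem FinT.union_sep {a : I → I → ℕ} (hs : ∀ i j, a i j = a j i) {A B : Finset I} (hA : FinT a A)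
    (hB : FinT a B) (hAB : Sep a A B) : FinT a (A ∪ B) := by
  have hcart : ∀ i ∈ A, ∀ j ∈ B, cart a i j = 0 := by
    intro i hi j hj
    have hne : i ≠ j := fun h => (Finset.disjoint_left.1 hAB.1 hi) (h ▸ hj)
    unfold cart
    rw [if_neg hne, hAB.2 i hi j hj]
    simp
  have hcart' : ∀ i ∈ B, ∀ j ∈ A, cart a i j = 0 := by
    intro i hi j hj
    have hne : i ≠ j := fun h => (Finset.disjoint_left.1 hAB.1 hj) (h ▸ hi)
    unfold cart
    rw [if_neg hne, hs i j, hAB.2 j hj i hi]
    simp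
  have hnn : ∀ (C : Finset I), FinT a C → ∀ v : I → ℚ, 0 ≤ ∑ i ∈ C, v i * cqN a C v i := by
    intro C hC v
    by_cases h : ∃ i ∈ C, v i ≠ 0
    · exact (hC.pos v h).le
    · have h1 : ∀ i ∈ C, v i = 0 := by
        intro i hi
        by_contra hc
        exact h ⟨i, hi, hc⟩
      refine le_of_eq (Eq.symm ?_)
      refine Finset.sum_eq_zero fun i hi => ?_
      rw [h1 i hi, zero_mul]
  refine ⟨?_, ?_⟩
  · intro x hx
    rcases Finset.mem_union.1 hx with h | h
    · exact hA.loopfree x h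
    · exact hB.loopfree x h
  · intro v hv
    have h1 : ∑ i ∈ A ∪ B, v i * cqN a (A ∪ B) v i =
        ∑ i ∈ A, v i * cqN a A v i + ∑ i ∈ B, v i * cqN a B v i := by
      rw [Finset.sum_union hAB.1]
      congr 1
      · refine Finset.sum_congr rfl fun i hi => ?_
        congr 1
        unfold cqN
        rw [Finset.sum_union hAB.1, add_eq_left]
        refine Finset.sum_eq_zero fun j hj => ?_
        rw [hcart i hi j hj]
        simp
      · refine Finset.sum_congr rfl fun i hi => ?_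
        congr 1
        unfold cqN
        rw [Finset.sum_union hAB.1, add_eq_right]
        refine Finset.sum_eq_zero fun j hj => ?_
        rw [hcart' i hi j hj]
        simp
    rw [h1]
    obtain ⟨i, hi, hvi⟩ := hv
    rcases Finset.mem_union.1 hi with h | h
    · exact add_pos_of_pos_of_nonneg (hA.pos v ⟨i, h, hvi⟩) (hnn B hB v)
    · exact add_pos_of_nonneg_of_pos (hnn A hA v) (hB.pos v ⟨i, h, hvi⟩)

/-- the insertions are positive (`QOk` and positivity of the inverse Cartan matrix). -/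
theorem PatOk.q_pos {a : I → I → ℕ} (hs : ∀ i j, a i j = a j i) {U : Finset I} (hU : FinT a U)
    {π : Pat I} (h : PatOk a U π) (x : I) (hx : x ∈ U) (hq : π.q x ≠ 0) : 0 < π.q x := by
  have hx' : x ∈ insS U π := Finset.mem_filter.2 ⟨hx, hq⟩
  obtain ⟨A, hA, hxA⟩ := comps_cover hs x hx'
  have hAU : A ⊆ U := (comps_subset hA).trans (Finset.filter_subset _ _)
  have hq1 := h.qok A hA
  refine FinT.pos_of_conn hs (hU.mono hAU) (comps_conn hA) π.q ?_ ?_ x hxA
  · intro i hi
    obtain ⟨n, hn, h2⟩ := hq1 i hi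
    rw [h2]
    exact Nat.cast_nonneg n
  · obtain ⟨n, hn, h2⟩ := hq1 x hxA
    refine ⟨x, hxA, ?_⟩
    rw [h2]
    exact Nat.cast_ne_zero.2 (by omega)

theorem PatOk.q_nonneg {a : I → I → ℕ} (hs : ∀ i j, a i j = a j i) {U : Finset I} (hU : FinT a U)
    {π : Pat I} (h : PatOk a U π) (x : I) (hx : x ∈ U) : 0 ≤ π.q x := by
  by_cases hq : π.q x = 0
  · rw [hq]
  · exact (h.q_pos hs hU x hx hq).le

theorem AG2_glue_self (A : Finset I) (π : Pat I) : glue A π π = π := by
  unfold glue
  simp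

/-- extract a component of the insertion set. -/
theorem patT_comp (a : I → I → ℕ) (hs : ∀ i j, a i j = a j i) (U : Finset I) (π : Pat I)
    (hπ : PatOk a U π) (A : Finset I) (hA : A ∈ comps a (insS U π)) (s : ℕ) (hsA : ∀ x ∈ A, π.s x = s)
    (T : Trm I) (hT : RReg U T) :
    patT a U π T = tauT a A s π.q (patT a (U \ A) π T) ∧ RReg A (patT a (U \ A) π T) := by
  have hAU : A ⊆ U := (comps_subset hA).trans (Finset.filter_subset _ _)
  have hdis : Disjoint A (U \ A) := Finset.disjoint_sdiff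
  have hun : A ∪ (U \ A) = U := Finset.union_sdiff_of_subset hAU
  refine ⟨?_, ?_⟩
  · have h1 := patT_glue a A (U \ A) hdis π π T
    rw [AG2_glue_self, hun] at h1
    rw [h1, tauT_eq_patT]
    exact patT_congr a A π ⟨fun _ => s, π.q⟩ _ hsA (fun x _ => rfl)
  · refine RReg_patT a hs A (U \ A) hdis π ?_ T (by rw [hun]; exact hT)
    intro x hx y hy hqy
    obtain ⟨hyU, hyA⟩ := Finset.mem_sdiff.1 hy
    exact comps_sep hA x hx y (Finset.mem_filter.2 ⟨hyU, hqy⟩) hyA

theorem LL (a : I → I → ℕ) (hs : ∀ i j, a i j = a j i) (cd : CrossData a) (U : Finset I)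
    (hU : FinT a U) (π : Pat I) (hπ : PatOk a U π) (A : Finset I) (hA : A ∈ comps a (insS U π))
    (z : I) (hz : z ∉ U) (hadj : ∃ x ∈ A, 0 < a z x) (T : Trm I) (hT : RReg U T) (s l : ℕ)
    (hsA : ∀ x ∈ A, π.s x = s) (hl : s + 1 ≤ l) (hl' : l + 1 ≤ s + cd.mm A) (r : ℚ) :
    TV a (patT a U π (T.mulE (r • dd z l))) = TV a (patT a U π T) := by
  have hAU : A ⊆ U := (comps_subset hA).trans (Finset.filter_subset _ _)
  rw [patT_mulE_comm, TV_expP a hs (patT a U π T) z l (by omega) r _ (le_refl _)]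
  rw [Finset.sum_eq_single 0]
  · have h0 : (patT a U π T).eta a l (Pi.single z ((0 : ℕ) : ℚ)) = patT a U π T := by
      rw [eta_eq_etaM]
      have h1 : (Pi.single z ((0 : ℕ) : ℚ) : I → ℚ) = fun _ => 0 := by
        rw [Nat.cast_zero, Pi.single_zero]
        rfl
      rw [h1, etaM_zero]
    rw [h0, pow_zero, Ring.choose_zero_right, one_mul, one_mul]
  · intro m _ hm
    have hcom : (patT a U π T).eta a l (Pi.single z (m : ℚ)) =
        patT a U π (T.eta a l (Pi.single z (m : ℚ))) := by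
      rw [eta_eq_etaM, eta_eq_etaM, patT_etaM_comm]
    have hE : ∀ y ∈ U, ∀ l', (T.eta a l (Pi.single z (m : ℚ))).E (y, l') =
        T.E (y, l') + (if l' = l then (m : ℚ) * (a z y : ℚ) else 0) := by
      intro y hy l'
      rw [eta_eq_etaM, etaM_E]
      have hzy : z ≠ y := fun h => hz (h ▸ hy)
      have hc : (cart a z y : ℚ) = -(a z y : ℚ) := by
        unfold cart
        rw [if_neg hzy]
        push_cast
        ring
      by_cases hl2 : l' = l
      · subst hl2
        rw [if_pos rfl, Finset.filter_true_of_mem (fun _ _ => rfl), Finset.sum_eq_single z]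
        · rw [Pi.single_eq_same, hc]
          ring
        · intro x _ hx
          rw [Pi.single_eq_of_ne hx, zero_mul]
        · intro h
          exact absurd (Finset.mem_univ z) h
      · rw [if_neg hl2, Finset.filter_false_of_mem (fun _ _ h => hl2 h.symm), Finset.sum_empty]
        ring
    have hR : RReg U (T.eta a l (Pi.single z (m : ℚ))) := by
      refine ⟨?_, ?_⟩
      · intro x hx l' hl'1
        obtain ⟨n, hn⟩ := hT.nat x hx l' hl'1
        rw [hE x hx l', hn]
        refine ⟨n + (if l' = l then m * a z x else 0), ?_⟩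
        split_ifs <;> push_cast <;> ring
      · intro x hx j hj l' hl'1 hΛ
        have h1 := hT.col x hx j hj l' hl'1 hΛ
        rw [hE x hx l']
        have h2 : (0 : ℚ) ≤ (if l' = l then (m : ℚ) * (a z x : ℚ) else 0) := by
          split_ifs
          · positivity
          · exact le_refl _
        linarith
    obtain ⟨hc1, hc2⟩ := patT_comp a hs U π hπ A hA s hsA _ hR
    obtain ⟨y, hyA, hay⟩ := hadj
    have hyE : 1 ≤ (patT a (U \ A) π (T.eta a l (Pi.single z (m : ℚ)))).E (y, l) := by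
      rw [patT_E, Finset.sum_eq_zero, add_zero, hE y (hAU hyA) l, if_pos rfl]
      · obtain ⟨n, hn⟩ := hT.nat y (hAU hyA) l (by omega)
        rw [hn]
        have h3 : 1 ≤ n + m * a z y := by
          have : 1 ≤ m * a z y := Nat.mul_pos (Nat.pos_of_ne_zero hm) hay
          omega
        exact_mod_cast h3
      · intro x hx
        obtain ⟨hx1, -⟩ := Finset.mem_filter.1 hx
        obtain ⟨hxU, hxA⟩ := Finset.mem_sdiff.1 hx1
        by_cases hqx : π.q x = 0
        · rw [hqx, zero_mul]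
        · have h4 := comps_sep hA y hyA x (Finset.mem_filter.2 ⟨hxU, hqx⟩) hxA
          have hxy : x ≠ y := fun h => hxA (h ▸ hyA)
          have h5 : cart a x y = 0 := by
            unfold cart
            rw [if_neg hxy, hs x y, h4]
            simp
          rw [h5]
          simp
    rw [hcom, hc1, cd.rv A (hU.mono hAU) (comps_conn hA) s π.q (hπ.qok A hA) _ hc2 y hyA l hl hl' hyE,
      mul_zero]
  · intro h
    exact absurd (Finset.mem_range.2 (Nat.succ_pos _)) h

/-- the conversion exponent `(s) - (f - s + 1) (f) + (f - s) (f + 1)` in the direction `z` (zero for `s = f`). -/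
noncomputable def cvE (z : I) (s f : ℕ) : QE I :=
  sy z s - ((f : ℚ) - s + 1) • sy z f + ((f : ℚ) - s) • sy z (f + 1)

theorem cvE_eq_sum (z : I) (s f : ℕ) (h : s ≤ f) :
    cvE z s f = ∑ l ∈ Finset.Icc (s + 1) f, ((l : ℚ) - s) • dd z l := by
  obtain ⟨d, rfl⟩ := Nat.exists_eq_add_of_le h
  clear h
  induction d with
  | zero =>
    rw [Nat.add_zero, Finset.Icc_eq_empty (by omega), Finset.sum_empty]
    unfold cvE
    rw [sub_self, zero_add, zero_smul, add_zero, one_smul, sub_self]
  | succ d ih =>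
    rw [← add_assoc, Finset.sum_Icc_succ_top (by omega), ← ih]
    unfold cvE dd
    rw [Nat.add_sub_cancel]
    push_cast
    module

/-- admissible multipliers. -/
def AG2_good (a : I → I → ℕ) (U : Finset I) (π : Pat I) (F : QE I) : Prop :=
  (∀ x ∈ U, ∀ l, F (x, l) = 0) ∧
    ∀ T : Trm I, RReg U T → TV a (patT a U π (T.mulE F)) = TV a (patT a U π T)

theorem AG2_mulE_zero (T : Trm I) : T.mulE 0 = T := by
  unfold Trm.mulE
  rw [add_zero]

theorem AG2_mulE_add (T : Trm I) (F G : QE I) : T.mulE (F + G) = (T.mulE F).mulE G := by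
  unfold Trm.mulE
  simp only [add_assoc]

theorem AG2_mulE_reg (U : Finset I) (F : QE I) (hF : ∀ x ∈ U, ∀ l, F (x, l) = 0) (T : Trm I)
    (hT : RReg U T) : RReg U (T.mulE F) := by
  have hE : ∀ x ∈ U, ∀ l, (T.mulE F).E (x, l) = T.E (x, l) := by
    intro x hx l
    unfold Trm.mulE
    rw [Finsupp.add_apply, hF x hx l, add_zero]
  refine ⟨?_, ?_⟩
  · intro x hx l hl
    rw [hE x hx l]
    exact hT.nat x hx l hl
  · intro x hx j hj l hl hΛ
    rw [hE x hx l]
    exact hT.col x hx j hj l hl hΛ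

theorem AG2_good_zero (a : I → I → ℕ) (U : Finset I) (π : Pat I) : AG2_good a U π 0 := by
  refine ⟨fun x _ l => rfl, fun T _ => ?_⟩
  rw [AG2_mulE_zero]

theorem AG2_good_add (a : I → I → ℕ) (U : Finset I) (π : Pat I) (F G : QE I)
    (hF : AG2_good a U π F) (hG : AG2_good a U π G) : AG2_good a U π (F + G) := by
  refine ⟨fun x hx l => ?_, fun T hT => ?_⟩
  · rw [Finsupp.add_apply, hF.1 x hx l, hG.1 x hx l, add_zero]
  · rw [AG2_mulE_add, hG.2 _ (AG2_mulE_reg U F hF.1 T hT), hF.2 T hT]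

theorem AG2_good_sum (a : I → I → ℕ) (U : Finset I) (π : Pat I) {ι : Type} (t : Finset ι)
    (F : ι → QE I) (hF : ∀ i ∈ t, AG2_good a U π (F i)) : AG2_good a U π (∑ i ∈ t, F i) :=
  Finset.sum_induction F (AG2_good a U π) (AG2_good_add a U π) (AG2_good_zero a U π) hF

/-- conversion of all near blocks of a family `𝒮` of components at once. -/
theorem LL_sum (a : I → I → ℕ) (hs : ∀ i j, a i j = a j i) (cd : CrossData a) (U : Finset I)
    (hU : FinT a U) (π : Pat I) (hπ : PatOk a U π) (f : ℕ) (𝒮 : Finset (Finset I))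
    (h𝒮 : 𝒮 ⊆ comps a (insS U π)) (hle : ∀ A ∈ 𝒮, ∀ x ∈ A, π.s x ≤ f)
    (hge : ∀ A ∈ 𝒮, ∀ x ∈ A, f < π.s x + cd.mm A) (z : I) (hz : z ∉ U) (T : Trm I)
    (hT : RReg U T) :
    TV a (patT a U π (T.mulE (∑ A ∈ 𝒮, ∑ x ∈ A, ((a z x : ℚ) * π.q x) • cvE z (π.s x) f))) =
      TV a (patT a U π T) := by
  refine (AG2_good_sum a U π 𝒮 _ fun A hA => AG2_good_sum a U π A _ fun x hx => ?_).2 T hT
  by_cases h0 : a z x = 0
  · rw [h0, Nat.cast_zero, zero_mul, zero_smul]
    exact AG2_good_zero a U π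
  · rw [cvE_eq_sum z (π.s x) f (hle A hA x hx), Finset.smul_sum]
    refine AG2_good_sum a U π _ _ fun l hl => ?_
    rw [Finset.mem_Icc] at hl
    rw [smul_smul]
    refine ⟨?_, ?_⟩
    · intro y hy l'
      have hzy : z ≠ y := fun h => hz (h ▸ hy)
      have h1 : ∀ k, (sy z k : QE I) (y, l') = 0 := by
        intro k
        rw [Finsupp.single_apply, if_neg]
        intro h
        exact hzy (congrArg Prod.fst h)
      simp only [dd, Finsupp.smul_apply, Finsupp.add_apply, Finsupp.sub_apply, h1]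
      simp
    · intro T' hT'
      have hf := hge A hA x hx
      exact LL a hs cd U hU π hπ A (h𝒮 hA) z hz ⟨x, hx, Nat.pos_of_ne_zero h0⟩ T' hT' (π.s x) l
        (fun y hy => hπ.lev A (h𝒮 hA) y hy x hx) hl.1 (by omega) _

theorem AG2_blkT_empty (a : I → I → ℕ) (k σ : ℕ) (q : I → ℚ) (T : Trm I) :
    blkT a ∅ k σ q T = T := by
  unfold blkT
  have h1 : (fun i => -resQ (∅ : Finset I) q i) = fun _ => 0 := by
    funext i
    unfold resQ
    simp
  rw [h1, eta_eq_etaM, etaM_zero]
  unfold Trm.cols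
  simp

/-- far blocks: upper representation at level `f`. -/
theorem far_up (a : I → I → ℕ) (hs : ∀ i j, a i j = a j i) (cd : CrossData a) (U : Finset I)
    (hU : FinT a U) (π : Pat I) (hπ : PatOk a U π) (f : ℕ) (𝒮 : Finset (Finset I))
    (h𝒮 : 𝒮 ⊆ comps a (insS U π)) (hfar : ∀ A ∈ 𝒮, ∀ x ∈ A, π.s x + cd.mm A = f) (T : Trm I)
    (hT : RReg U T) :
    ∃ e : ℚ, (e = 1 ∨ e = -1) ∧ TV a (patT a U π T) =
      e * TV a (blkT a (𝒮.biUnion id) f (f - 1) π.q (patT a (U \ 𝒮.biUnion id) π T)) := by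
  classical
  induction 𝒮 using Finset.induction_on with
  | empty =>
    refine ⟨1, Or.inl rfl, ?_⟩
    rw [Finset.biUnion_empty, Finset.sdiff_empty, one_mul, AG2_blkT_empty]
  | insert A 𝒮 hA𝒮 ih =>
    have hAc : A ∈ comps a (insS U π) := h𝒮 (Finset.mem_insert_self A 𝒮)
    have h𝒮' : 𝒮 ⊆ comps a (insS U π) := fun B hB => h𝒮 (Finset.mem_insert_of_mem hB)
    obtain ⟨e, he, hTV⟩ := ih h𝒮' (fun B hB => hfar B (Finset.mem_insert_of_mem hB))
    have hAU : A ⊆ U := (comps_subset hAc).trans (Finset.filter_subset _ _)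
    have hsub : ∀ B ∈ 𝒮, B ⊆ U := fun B hB =>
      (comps_subset (h𝒮' hB)).trans (Finset.filter_subset _ _)
    obtain ⟨V, hV⟩ : ∃ V, V = 𝒮.biUnion id := ⟨_, rfl⟩
    have hmV : ∀ x, x ∈ V ↔ ∃ B ∈ 𝒮, x ∈ B := by
      intro x
      rw [hV, Finset.mem_biUnion]
      rfl
    rw [← hV] at hTV
    rw [Finset.biUnion_insert, ← hV, id_eq]
    have hVU : V ⊆ U := by
      intro x hx
      obtain ⟨B, hB, hxB⟩ := (hmV x).1 hx
      exact hsub B hB hxB
    have hsep : Sep a A V := by
      refine ⟨Finset.disjoint_left.2 ?_, ?_⟩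
      · intro x hx hxV
        obtain ⟨B, hB, hxB⟩ := (hmV x).1 hxV
        have hAB : A ≠ B := fun h => hA𝒮 (h ▸ hB)
        exact Finset.disjoint_left.1 (comps_disjoint hs hAc (h𝒮' hB) hAB) hx hxB
      · intro x hx y hy
        obtain ⟨B, hB, hyB⟩ := (hmV y).1 hy
        have hAB : A ≠ B := fun h => hA𝒮 (h ▸ hB)
        exact comps_nonadj hs hAc (h𝒮' hB) hAB x hx y hyB
    obtain ⟨s, hsA⟩ : ∃ s, ∀ x ∈ A, π.s x = s := by
      obtain ⟨x0, hx0⟩ := (comps_conn hAc).1
      exact ⟨π.s x0, fun x hx => hπ.lev A hAc x hx x0 hx0⟩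
    have hf : s + cd.mm A = f := by
      obtain ⟨x0, hx0⟩ := (comps_conn hAc).1
      rw [← hsA x0 hx0]
      exact hfar A (Finset.mem_insert_self A 𝒮) x0 hx0
    have hdis1 : Disjoint A (U \ (A ∪ V)) :=
      Finset.disjoint_of_subset_left Finset.subset_union_left Finset.disjoint_sdiff
    have hUV : A ∪ (U \ (A ∪ V)) = U \ V := by
      ext x
      simp only [Finset.mem_union, Finset.mem_sdiff]
      constructor
      · rintro (h | ⟨h1, h2⟩)
        · exact ⟨hAU h, fun hV' => Finset.disjoint_left.1 hsep.1 h hV'⟩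
        · exact ⟨h1, fun hV' => h2 (Or.inr hV')⟩
      · rintro ⟨h1, h2⟩
        by_cases hxA : x ∈ A
        · exact Or.inl hxA
        · exact Or.inr ⟨h1, fun h => h.elim hxA h2⟩
    have h1 : patT a (U \ V) π T = tauT a A s π.q (patT a (U \ (A ∪ V)) π T) := by
      have h2 := patT_glue a A (U \ (A ∪ V)) hdis1 π π T
      rw [AG2_glue_self, hUV] at h2
      rw [h2, tauT_eq_patT]
      exact patT_congr a A π ⟨fun _ => s, π.q⟩ _ hsA (fun x _ => rfl)
    have hRW : RReg (A ∪ V) (patT a (U \ (A ∪ V)) π T) := by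
      refine RReg_patT a hs (A ∪ V) (U \ (A ∪ V)) Finset.disjoint_sdiff π ?_ T ?_
      · intro x hx y hy hqy
        obtain ⟨hyU, hyAV⟩ := Finset.mem_sdiff.1 hy
        have hy' : y ∈ insS U π := Finset.mem_filter.2 ⟨hyU, hqy⟩
        rcases Finset.mem_union.1 hx with hxA | hxV
        · exact comps_sep hAc x hxA y hy' (fun h => hyAV (Finset.mem_union_left _ h))
        · obtain ⟨B, hB, hxB⟩ := (hmV x).1 hxV
          exact comps_sep (h𝒮' hB) x hxB y hy'
            (fun h => hyAV (Finset.mem_union_right _ ((hmV y).2 ⟨B, hB, h⟩)))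
      · rw [Finset.union_sdiff_of_subset (Finset.union_subset hAU hVU)]
        exact hT
    have hR3 : RReg A (blkT a V f (f - 1) π.q (patT a (U \ (A ∪ V)) π T)) :=
      RReg_blkT a hs A V hsep f (f - 1) π.q _ hRW
    have hcr := cd.cr A (hU.mono hAU) (comps_conn hAc) f π.q (hπ.qok A hAc) _ hR3 (by omega)
    have hfs : f - cd.mm A = s := by omega
    rw [hfs] at hcr
    have hcomm : blkT a V f (f - 1) π.q (tauT a A s π.q (patT a (U \ (A ∪ V)) π T)) =
        tauT a A s π.q (blkT a V f (f - 1) π.q (patT a (U \ (A ∪ V)) π T)) :=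
      blkT_comm a V A hsep.1.symm f (f - 1) s (s + 1) π.q π.q _
    have hun := blkT_union a A V hsep.1 f (f - 1) π.q (patT a (U \ (A ∪ V)) π T)
    rw [hun, hTV, h1, hcomm]
    have heps := cd.eps_sq A π.q
    refine ⟨e * cd.eps A π.q, ?_, ?_⟩
    · rcases he with he | he <;> rcases heps with h | h <;> rw [he, h] <;> norm_num
    · change _ = _ * TV a (upT a A f π.q (blkT a V f (f - 1) π.q (patT a (U \ (A ∪ V)) π T)))
      rw [hcr]
      rcases heps with h | h <;> rw [h] <;> ring

end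

end Pool.Agent.H27.KAC
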