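import Pool.Agent.H41.KA.AG2
import Pool.Agent.H41.KA.AG1b
import Pool.Agent.H41.KA.AD4

/-!
KAC ADE, module AG3: the vanishing lemma in presence of patterns (wide windows).

Proof.  Let `𝒩` be the near components (`f < s + mm A`) and `ℱ` the far ones (`s + mm A = f`) of `insS U π`.  With `LL_sum` replace
`T` by `T.mulE F`, `F = ∑_{A ∈ 𝒩} ∑_{x ∈ A} (a z x * q x) • cvE z (s x) f`; with `far_up` pass to the upper representation of the
far blocks.  In the resulting term the exponents of `z` are (`patT_E`):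
`(z,l)`, `l ≠ f, f+1` : `T.E (z,l)`;  `(z,f+1)` : `T.E (z,f+1) + ∑_{near} a z x q x (f - s x)`;
`(z,f)` : `T.E (z,f) - ∑_{near} a z x q x (f - s x + 1) - ∑_{far} a z x q x`.
Let `X` be the resulting term.  If `¬ TOk a X` its value is zero.  Otherwise `tdg X.E z = cq a X.γ z` is an integer
(`X.γ` is a vector of natural numbers); all exponents of `z` at the levels `≠ f, f + 1` (level `0` does not count) are natural and
`X.E (z,f) + X.E (z,f+1)` is an integer by `hI2`, so `X.E (z,f+1)` and `X.E (z,f)` are integers (free integrality).  So all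
exponents are natural numbers, the one of `(z,f)` is `≥ 1` and all symbols `(z,l)` in the columns are compensated: `TV_van`.
-/

set_option autoImplicit false

namespace Pool.Agent.H27.KAC

open scoped BigOperators

section

variable {I : Type} [Fintype I] [DecidableEq I]

private theorem AG3_isZ_zero : IsZ 0 := ⟨0, by simp⟩

private theorem AG3_isZ_add {p q : ℚ} (hp : IsZ p) (hq : IsZ q) : IsZ (p + q) := by
  obtain ⟨m, rfl⟩ := hp
  obtain ⟨n, rfl⟩ := hq
  exact ⟨m + n, by push_cast; ring⟩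

private theorem AG3_isZ_sub {p q : ℚ} (hp : IsZ p) (hq : IsZ q) : IsZ (p - q) := by
  obtain ⟨m, rfl⟩ := hp
  obtain ⟨n, rfl⟩ := hq
  exact ⟨m - n, by push_cast; ring⟩

private theorem AG3_isZ_mul {p q : ℚ} (hp : IsZ p) (hq : IsZ q) : IsZ (p * q) := by
  obtain ⟨m, rfl⟩ := hp
  obtain ⟨n, rfl⟩ := hq
  exact ⟨m * n, by push_cast; ring⟩

private theorem AG3_isZ_sum {ι : Type} (s : Finset ι) (g : ι → ℚ) (h : ∀ i ∈ s, IsZ (g i)) :
    IsZ (∑ i ∈ s, g i) := by
  classical
  induction s using Finset.induction_on with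
  | empty => simpa using AG3_isZ_zero
  | insert i s hi ih =>
    rw [Finset.sum_insert hi]
    exact AG3_isZ_add (h i (Finset.mem_insert_self i s))
      (ih (fun j hj => h j (Finset.mem_insert_of_mem hj)))

private theorem AG3_isN_isZ {p : ℚ} (h : IsN p) : IsZ p := by
  obtain ⟨n, rfl⟩ := h
  exact ⟨n, by push_cast; rfl⟩

private theorem AG3_isZ_nonneg {p : ℚ} (h : IsZ p) (h0 : 0 ≤ p) : ∃ n : ℕ, p = n := by
  obtain ⟨n, rfl⟩ := h
  have hn : 0 ≤ n := by exact_mod_cast h0
  refine ⟨n.toNat, ?_⟩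
  have : ((n.toNat : ℤ) : ℚ) = (n : ℚ) := by rw [Int.toNat_of_nonneg hn]
  rw [← this]
  push_cast
  rfl

omit [Fintype I] in
private theorem AG3_tdg (E : QE I) (z : I) (f : ℕ)
    (h : ∀ l, 1 ≤ l → l ≠ f → l ≠ f + 1 → IsZ (E (z, l))) :
    IsZ (tdg E z - (E (z, f) * (f : ℚ) + E (z, f + 1) * ((f + 1 : ℕ) : ℚ))) := by
  unfold tdg
  have hsub : E.support ⊆ insert (z, f) (insert (z, f + 1) E.support) := by
    intro x hx
    exact Finset.mem_insert_of_mem (Finset.mem_insert_of_mem hx)
  have e1 : ∑ jk ∈ E.support, (if jk.1 = z then E jk * (jk.2 : ℚ) else 0) =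
      ∑ jk ∈ insert (z, f) (insert (z, f + 1) E.support),
        (if jk.1 = z then E jk * (jk.2 : ℚ) else 0) := by
    refine Finset.sum_subset hsub ?_
    intro x _ hx
    have : E x = 0 := by simpa using hx
    rw [this]
    simp
  set S := insert (z, f) (insert (z, f + 1) E.support) with hS
  have m1 : (z, f) ∈ S := Finset.mem_insert_self _ _
  have m2 : (z, f + 1) ∈ S.erase (z, f) := by
    refine Finset.mem_erase.mpr ⟨?_, ?_⟩
    · intro hc
      have := (Prod.mk.inj hc).2
      omega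
    · exact Finset.mem_insert_of_mem (Finset.mem_insert_self _ _)
  have e2 : ∑ jk ∈ S, (if jk.1 = z then E jk * (jk.2 : ℚ) else 0) =
      E (z, f) * (f : ℚ) + (E (z, f + 1) * ((f + 1 : ℕ) : ℚ) +
        ∑ jk ∈ (S.erase (z, f)).erase (z, f + 1), (if jk.1 = z then E jk * (jk.2 : ℚ) else 0)) := by
    rw [← Finset.add_sum_erase S _ m1, ← Finset.add_sum_erase (S.erase (z, f)) _ m2]
    simp
  rw [e1, e2]
  have e3 : E (z, f) * (f : ℚ) + (E (z, f + 1) * ((f + 1 : ℕ) : ℚ) +
        ∑ jk ∈ (S.erase (z, f)).erase (z, f + 1), (if jk.1 = z then E jk * (jk.2 : ℚ) else 0)) -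
        (E (z, f) * (f : ℚ) + E (z, f + 1) * ((f + 1 : ℕ) : ℚ)) =
      ∑ jk ∈ (S.erase (z, f)).erase (z, f + 1), (if jk.1 = z then E jk * (jk.2 : ℚ) else 0) := by
    ring
  rw [e3]
  apply AG3_isZ_sum
  rintro ⟨j, l⟩ hjl
  by_cases hj : j = z
  · subst hj
    rw [if_pos rfl]
    rcases Nat.eq_zero_or_pos l with hl | hl
    · subst hl
      simpa using AG3_isZ_zero
    · refine AG3_isZ_mul (h l hl ?_ ?_) ⟨l, by push_cast; rfl⟩
      · rintro rfl
        simp at hjl
      · rintro rfl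
        simp at hjl
  · rw [if_neg hj]
    exact AG3_isZ_zero

omit [Fintype I] in
private theorem AG3_cvE (z : I) (s f l : ℕ) :
    cvE z s f (z, l) = (if l = s then 1 else 0) - ((f : ℚ) - s + 1) * (if l = f then 1 else 0) +
      ((f : ℚ) - s) * (if l = f + 1 then 1 else 0) := by
  unfold cvE sy
  simp only [Finsupp.add_apply, Finsupp.sub_apply, Finsupp.smul_apply, Finsupp.single_apply,
    smul_eq_mul, Prod.mk.injEq, true_and]
  congr 1
  · congr 1
    · split_ifs <;> first | rfl | (exfalso; omega)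
    · congr 1
      split_ifs <;> first | rfl | (exfalso; omega)
  · congr 1
    split_ifs <;> first | rfl | (exfalso; omega)

omit [Fintype I] [DecidableEq I] in
private theorem AG3_cvE_out (z x : I) (hx : x ≠ z) (s f l : ℕ) : cvE z s f (x, l) = 0 := by
  unfold cvE sy
  have : ∀ k : ℕ, (z, k) ≠ (x, l) := by
    intro k hc
    exact hx (Prod.mk.inj hc).1.symm
  simp [this]

/-- the near components -/
private noncomputable def AG3_N (a : I → I → ℕ) (cd : CrossData a) (f : ℕ) (U : Finset I)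
    (π : Pat I) : Finset (Finset I) :=
  (comps a (insS U π)).filter (fun A => ∀ x ∈ A, f < π.s x + cd.mm A)

/-- the far components -/
private noncomputable def AG3_F (a : I → I → ℕ) (cd : CrossData a) (f : ℕ) (U : Finset I)
    (π : Pat I) : Finset (Finset I) :=
  (comps a (insS U π)).filter (fun A => ∀ x ∈ A, π.s x + cd.mm A = f)

private theorem AG3_mem_insS (B : Finset I) (π : Pat I) (x : I) :
    x ∈ insS B π ↔ x ∈ B ∧ π.q x ≠ 0 := by
  unfold insS
  exact Finset.mem_filter

private theorem AG3_far_sub (a : I → I → ℕ) (cd : CrossData a) (f : ℕ) (U : Finset I)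
    (π : Pat I) : (AG3_F a cd f U π).biUnion id ⊆ U := by
  intro x hx
  rw [Finset.mem_biUnion] at hx
  obtain ⟨A, hA, hxA⟩ := hx
  have h1 := (Finset.mem_filter.mp hA).1
  exact ((AG3_mem_insS U π x).mp (comps_subset h1 hxA)).1

private theorem AG3_near (a : I → I → ℕ) (hs : ∀ i j, a i j = a j i) (cd : CrossData a) (f : ℕ)
    (U : Finset I) (π : Pat I) (hπ : PatWide a cd U f π) (h : I → ℚ)
    (hh : ∀ x, π.q x = 0 → h x = 0) :
    ∑ A ∈ AG3_N a cd f U π, ∑ x ∈ A, h x =
      ∑ x ∈ U \ (AG3_F a cd f U π).biUnion id, h x := by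
  have hdis : ∀ A ∈ AG3_N a cd f U π, ∀ B ∈ AG3_N a cd f U π, A ≠ B → Disjoint (id A) (id B) := by
    intro A hA B hB hAB
    exact comps_disjoint hs (Finset.mem_filter.mp hA).1 (Finset.mem_filter.mp hB).1 hAB
  have e1 : ∑ A ∈ AG3_N a cd f U π, ∑ x ∈ A, h x =
      ∑ x ∈ (AG3_N a cd f U π).biUnion id, h x := by
    rw [Finset.sum_biUnion hdis]
    rfl
  rw [e1]
  refine Finset.sum_subset ?_ ?_
  · intro x hx
    rw [Finset.mem_biUnion] at hx
    obtain ⟨A, hA, hxA⟩ := hx
    have hA' := Finset.mem_filter.mp hA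
    have hxA' : x ∈ A := hxA
    rw [Finset.mem_sdiff]
    refine ⟨((AG3_mem_insS U π x).mp (comps_subset hA'.1 hxA')).1, ?_⟩
    intro hc
    rw [Finset.mem_biUnion] at hc
    obtain ⟨B, hB, hxB⟩ := hc
    have hB' := Finset.mem_filter.mp hB
    have hxB' : x ∈ B := hxB
    have hAB : A = B := by
      by_contra hne
      exact Finset.disjoint_left.mp (comps_disjoint hs hA'.1 hB'.1 hne) hxA' hxB'
    subst hAB
    have h1 := hA'.2 x hxA'
    have h2 := hB'.2 x hxB'
    omega
  · intro x hxU hxN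
    rw [Finset.mem_sdiff] at hxU
    by_contra hne
    have hq : π.q x ≠ 0 := fun hq => hne (hh x hq)
    obtain ⟨A, hA, hxA⟩ := comps_cover hs x ((AG3_mem_insS U π x).mpr ⟨hxU.1, hq⟩)
    by_cases hfar : π.s x + cd.mm A = f
    · apply hxU.2
      rw [Finset.mem_biUnion]
      refine ⟨A, Finset.mem_filter.mpr ⟨hA, ?_⟩, hxA⟩
      intro y hy
      rw [hπ.lev A hA y hy x hxA]
      exact hfar
    · apply hxN
      rw [Finset.mem_biUnion]
      refine ⟨A, Finset.mem_filter.mpr ⟨hA, ?_⟩, hxA⟩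
      intro y hy
      rw [hπ.lev A hA y hy x hxA]
      have := hπ.ge A hA x hxA
      omega

/-- the conversion exponent of all near components -/
private noncomputable def AG3_G (a : I → I → ℕ) (cd : CrossData a) (f : ℕ) (U : Finset I)
    (π : Pat I) (z : I) : QE I :=
  ∑ A ∈ AG3_N a cd f U π, ∑ x ∈ A, ((a z x : ℚ) * π.q x) • cvE z (π.s x) f

private theorem AG3_G_out (a : I → I → ℕ) (cd : CrossData a) (f : ℕ) (U : Finset I)
    (π : Pat I) (z x : I) (hx : x ≠ z) (l : ℕ) : AG3_G a cd f U π z (x, l) = 0 := by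
  unfold AG3_G
  rw [Finsupp.finsetSum_apply]
  refine Finset.sum_eq_zero (fun A _ => ?_)
  rw [Finsupp.finsetSum_apply]
  refine Finset.sum_eq_zero (fun y _ => ?_)
  rw [Finsupp.smul_apply, AG3_cvE_out z x hx, smul_zero]

private theorem AG3_G_in (a : I → I → ℕ) (hs : ∀ i j, a i j = a j i) (cd : CrossData a) (f : ℕ)
    (U : Finset I) (π : Pat I) (hπ : PatWide a cd U f π) (z : I) (l : ℕ) :
    AG3_G a cd f U π z (z, l) = ∑ x ∈ U \ (AG3_F a cd f U π).biUnion id,
      (a z x : ℚ) * π.q x * ((if l = π.s x then 1 else 0) -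
        ((f : ℚ) - π.s x + 1) * (if l = f then 1 else 0) +
        ((f : ℚ) - π.s x) * (if l = f + 1 then 1 else 0)) := by
  rw [← AG3_near a hs cd f U π hπ]
  · unfold AG3_G
    rw [Finsupp.finsetSum_apply]
    refine Finset.sum_congr rfl (fun A _ => ?_)
    rw [Finsupp.finsetSum_apply]
    refine Finset.sum_congr rfl (fun x _ => ?_)
    rw [Finsupp.smul_apply, smul_eq_mul, AG3_cvE]
  · intro x hx
    rw [hx, mul_zero, zero_mul]

private theorem AG3_cart (a : I → I → ℕ) (hs : ∀ i j, a i j = a j i) (x z : I) (h : x ≠ z) :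
    (cart a x z : ℚ) = -(a z x : ℚ) := by
  unfold cart
  rw [if_neg h, hs x z]
  push_cast
  ring

/-- exponents of the resulting term -/
private theorem AG3_XE (a : I → I → ℕ) (hs : ∀ i j, a i j = a j i) (cd : CrossData a) (f : ℕ)
    (U : Finset I) (π : Pat I) (hπ : PatWide a cd U f π) (T : Trm I) (z : I) (hz : z ∉ U) (l : ℕ) :
    (blkT a ((AG3_F a cd f U π).biUnion id) f (f - 1) π.q
      (patT a (U \ (AG3_F a cd f U π).biUnion id) π (T.mulE (AG3_G a cd f U π z)))).E (z, l) =
      T.E (z, l) +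
      (∑ x ∈ U \ (AG3_F a cd f U π).biUnion id,
        (a z x : ℚ) * π.q x * (((f : ℚ) - π.s x) * (if l = f + 1 then 1 else 0) -
        ((f : ℚ) - π.s x + 1) * (if l = f then 1 else 0))) -
      (if l = f then 1 else 0) * ∑ x ∈ (AG3_F a cd f U π).biUnion id, (a z x : ℚ) * π.q x := by
  rw [blkT_E, patT_E]
  have e0 : (T.mulE (AG3_G a cd f U π z)).E (z, l) = T.E (z, l) + AG3_G a cd f U π z (z, l) := by
    show (T.E + AG3_G a cd f U π z) (z, l) = _
    rw [Finsupp.add_apply]
  rw [e0, AG3_G_in a hs cd f U π hπ]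
  have e1 : ∑ x ∈ (U \ (AG3_F a cd f U π).biUnion id).filter (fun x => π.s x = l),
      π.q x * (cart a x z : ℚ) =
      ∑ x ∈ U \ (AG3_F a cd f U π).biUnion id,
        -((a z x : ℚ) * π.q x * (if l = π.s x then 1 else 0)) := by
    rw [Finset.sum_filter]
    refine Finset.sum_congr rfl (fun x hx => ?_)
    have hxz : x ≠ z := by
      rintro rfl
      exact hz (Finset.mem_sdiff.mp hx).1
    by_cases h : π.s x = l
    · rw [if_pos h, if_pos h.symm, AG3_cart a hs x z hxz]
      ring
    · rw [if_neg h, if_neg (fun hc => h hc.symm)]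
      ring
  have e2 : (if l = f then ∑ x ∈ (AG3_F a cd f U π).biUnion id, π.q x * (cart a x z : ℚ) else 0) =
      -((if l = f then 1 else 0) *
        ∑ x ∈ (AG3_F a cd f U π).biUnion id, (a z x : ℚ) * π.q x) := by
    by_cases h : l = f
    · rw [if_pos h, if_pos h, one_mul, ← Finset.sum_neg_distrib]
      refine Finset.sum_congr rfl (fun x hx => ?_)
      have hxz : x ≠ z := by
        rintro rfl
        exact hz (AG3_far_sub a cd f U π hx)
      rw [AG3_cart a hs x z hxz]
      ring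
    · rw [if_neg h, if_neg h]
      ring
  rw [e1, e2]
  have e3 : (∑ x ∈ U \ (AG3_F a cd f U π).biUnion id,
      (a z x : ℚ) * π.q x * ((if l = π.s x then 1 else 0) -
        ((f : ℚ) - π.s x + 1) * (if l = f then 1 else 0) +
        ((f : ℚ) - π.s x) * (if l = f + 1 then 1 else 0))) +
      (∑ x ∈ U \ (AG3_F a cd f U π).biUnion id,
        -((a z x : ℚ) * π.q x * (if l = π.s x then 1 else 0))) =
      ∑ x ∈ U \ (AG3_F a cd f U π).biUnion id,
        (a z x : ℚ) * π.q x * (((f : ℚ) - π.s x) * (if l = f + 1 then 1 else 0) -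
        ((f : ℚ) - π.s x + 1) * (if l = f then 1 else 0)) := by
    rw [← Finset.sum_add_distrib]
    refine Finset.sum_congr rfl (fun x _ => ?_)
    ring
  rw [← e3]
  ring

theorem TV_vanX (a : I → I → ℕ) (hs : ∀ i j, a i j = a j i) (cd : CrossData a) (f : ℕ) (hf : 1 ≤ f)
    (U : Finset I) (hU : FinT a U) (π : Pat I) (hπ : PatWide a cd U f π) (T : Trm I)
    (hT : RReg U T) (z : I) (hz : z ∉ U) (hzz : a z z = 0)
    (hN : ∀ l, 1 ≤ l → l ≠ f → l ≠ f + 1 → IsN (T.E (z, l))) (h0 : 0 ≤ T.E (z, f + 1))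
    (hI2 : IsZ (T.E (z, f) + T.E (z, f + 1) - ∑ x ∈ U, (a z x : ℚ) * π.q x))
    (hbig : 1 + ∑ x ∈ U, (a z x : ℚ) * π.q x * ((f : ℚ) - π.s x + 1) ≤ T.E (z, f))
    (hcol : ∀ j, j ∉ U → ∀ l, 1 ≤ l → T.Λ j (z, l) ≠ 0 → l = f ∨ 1 ≤ T.E (z, l)) :
    TV a (patT a U π T) = 0 := by
  have hok : PatOk a U π := hπ.toPatOk
  -- conversion of the near blocks
  have s1 : TV a (patT a U π T) = TV a (patT a U π (T.mulE (AG3_G a cd f U π z))) := by
    symm
    refine LL_sum a hs cd U hU π hok f (AG3_N a cd f U π) (Finset.filter_subset _ _) ?_ ?_ z hz T hT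
    · intro A hA x hx
      exact hπ.le A (Finset.mem_filter.mp hA).1 x hx
    · intro A hA x hx
      exact (Finset.mem_filter.mp hA).2 x hx
  have hT1E : ∀ x l, x ≠ z → (T.mulE (AG3_G a cd f U π z)).E (x, l) = T.E (x, l) := by
    intro x l hx
    show (T.E + AG3_G a cd f U π z) (x, l) = _
    rw [Finsupp.add_apply, AG3_G_out a cd f U π z x hx, add_zero]
  have hne : ∀ x ∈ U, x ≠ z := by
    intro x hx hc
    exact hz (hc ▸ hx)
  have hT1 : RReg U (T.mulE (AG3_G a cd f U π z)) := by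
    refine ⟨?_, ?_⟩
    · intro x hx l hl
      rw [hT1E x l (hne x hx)]
      exact hT.nat x hx l hl
    · intro x hx j hj l hl hΛ
      rw [hT1E x l (hne x hx)]
      exact hT.col x hx j hj l hl hΛ
  obtain ⟨e, -, s2⟩ := far_up a hs cd U hU π hok f (AG3_F a cd f U π) (Finset.filter_subset _ _)
    (fun A hA x hx => (Finset.mem_filter.mp hA).2 x hx) (T.mulE (AG3_G a cd f U π z)) hT1
  rw [s1, s2]
  set X : Trm I := blkT a ((AG3_F a cd f U π).biUnion id) f (f - 1) π.q
      (patT a (U \ (AG3_F a cd f U π).biUnion id) π (T.mulE (AG3_G a cd f U π z))) with hX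
  have hXE : ∀ l, X.E (z, l) = T.E (z, l) +
      (∑ x ∈ U \ (AG3_F a cd f U π).biUnion id,
        (a z x : ℚ) * π.q x * (((f : ℚ) - π.s x) * (if l = f + 1 then 1 else 0) -
        ((f : ℚ) - π.s x + 1) * (if l = f then 1 else 0))) -
      (if l = f then 1 else 0) * ∑ x ∈ (AG3_F a cd f U π).biUnion id, (a z x : ℚ) * π.q x :=
    fun l => AG3_XE a hs cd f U π hπ T z hz l
  have hsub := AG3_far_sub a cd f U π
  have hsplit : ∀ g : I → ℚ, ∑ x ∈ U, g x = ∑ x ∈ U \ (AG3_F a cd f U π).biUnion id, g x +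
      ∑ x ∈ (AG3_F a cd f U π).biUnion id, g x := by
    intro g
    exact (Finset.sum_sdiff hsub).symm
  -- the levels
  have hXo : ∀ l, l ≠ f → l ≠ f + 1 → X.E (z, l) = T.E (z, l) := by
    intro l h1 h2
    rw [hXE l, if_neg h1, if_neg h2]
    simp
  have hX1 : X.E (z, f + 1) = T.E (z, f + 1) +
      ∑ x ∈ U \ (AG3_F a cd f U π).biUnion id, (a z x : ℚ) * π.q x * ((f : ℚ) - π.s x) := by
    rw [hXE (f + 1), if_pos rfl, if_neg (by omega)]
    rw [zero_mul, sub_zero]
    congr 1
    refine Finset.sum_congr rfl (fun x _ => ?_)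
    ring
  have hX0 : X.E (z, f) = T.E (z, f) -
      (∑ x ∈ U \ (AG3_F a cd f U π).biUnion id, (a z x : ℚ) * π.q x * ((f : ℚ) - π.s x + 1)) -
      ∑ x ∈ (AG3_F a cd f U π).biUnion id, (a z x : ℚ) * π.q x := by
    rw [hXE f, if_pos rfl, if_neg (by omega), one_mul, sub_eq_add_neg (T.E (z, f)),
      ← Finset.sum_neg_distrib]
    congr 2
    refine Finset.sum_congr rfl (fun x _ => ?_)
    ring
  have hle : ∀ x ∈ U, π.q x ≠ 0 → (π.s x : ℚ) ≤ f := by
    intro x hx hq
    obtain ⟨A, hA, hxA⟩ := comps_cover hs x ((AG3_mem_insS U π x).mpr ⟨hx, hq⟩)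
    exact_mod_cast hπ.le A hA x hxA
  have hq0 : ∀ x ∈ U, 0 ≤ π.q x := fun x hx => hok.q_nonneg hs hU x hx
  have hnn : ∀ x ∈ U, 0 ≤ (a z x : ℚ) * π.q x * ((f : ℚ) - π.s x) := by
    intro x hx
    by_cases hq : π.q x = 0
    · rw [hq]
      simp
    · exact mul_nonneg (mul_nonneg (Nat.cast_nonneg _) (hq0 x hx))
        (sub_nonneg.mpr (hle x hx hq))
  have hX1' : T.E (z, f + 1) ≤ X.E (z, f + 1) := by
    rw [hX1]
    have : 0 ≤ ∑ x ∈ U \ (AG3_F a cd f U π).biUnion id,
        (a z x : ℚ) * π.q x * ((f : ℚ) - π.s x) :=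
      Finset.sum_nonneg (fun x hx => hnn x (Finset.mem_sdiff.mp hx).1)
    linarith
  have hX0' : 1 ≤ X.E (z, f) := by
    rw [hX0]
    rw [hsplit] at hbig
    have : ∑ x ∈ (AG3_F a cd f U π).biUnion id, (a z x : ℚ) * π.q x ≤
        ∑ x ∈ (AG3_F a cd f U π).biUnion id, (a z x : ℚ) * π.q x * ((f : ℚ) - π.s x + 1) := by
      refine Finset.sum_le_sum (fun x hx => ?_)
      have := hnn x (hsub hx)
      linarith
    linarith
  have hXs : IsZ (X.E (z, f) + X.E (z, f + 1)) := by
    have e1 : X.E (z, f) + X.E (z, f + 1) =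
        T.E (z, f) + T.E (z, f + 1) - ∑ x ∈ U, (a z x : ℚ) * π.q x := by
      rw [hX0, hX1, hsplit]
      have : ∑ x ∈ U \ (AG3_F a cd f U π).biUnion id, (a z x : ℚ) * π.q x * ((f : ℚ) - π.s x + 1) =
          ∑ x ∈ U \ (AG3_F a cd f U π).biUnion id, (a z x : ℚ) * π.q x * ((f : ℚ) - π.s x) +
          ∑ x ∈ U \ (AG3_F a cd f U π).biUnion id, (a z x : ℚ) * π.q x := by
        rw [← Finset.sum_add_distrib]
        refine Finset.sum_congr rfl (fun x _ => ?_)
        ring
      rw [this]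
      ring
    rw [e1]
    exact hI2
  by_cases hTOk : TOk a X
  · -- integrality of the degree
    have hcq : IsZ (cq a X.γ z) := by
      unfold cq
      refine AG3_isZ_sum _ _ (fun j _ => ?_)
      refine AG3_isZ_mul ⟨_, rfl⟩ ?_
      exact ⟨(⌊X.γ j⌋₊ : ℕ), by rw [← hTOk.1 j]; simp⟩
    have htd : IsZ (tdg X.E z) := by
      rw [hTOk.2 z]
      exact hcq
    have h1 := AG3_tdg X.E z f (fun l hl h1 h2 => by
      rw [hXo l h1 h2]
      exact AG3_isN_isZ (hN l hl h1 h2))
    have h2 : IsZ (X.E (z, f) * (f : ℚ) + X.E (z, f + 1) * ((f + 1 : ℕ) : ℚ)) := by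
      have := AG3_isZ_sub htd h1
      have e : tdg X.E z - (tdg X.E z - (X.E (z, f) * (f : ℚ) + X.E (z, f + 1) *
          ((f + 1 : ℕ) : ℚ))) = X.E (z, f) * (f : ℚ) + X.E (z, f + 1) * ((f + 1 : ℕ) : ℚ) := by
        ring
      rwa [e] at this
    have hfz : IsZ ((f : ℕ) : ℚ) := ⟨f, by push_cast; rfl⟩
    have h3 : IsZ (X.E (z, f + 1)) := by
      have := AG3_isZ_sub h2 (AG3_isZ_mul hXs hfz)
      have e : X.E (z, f) * (f : ℚ) + X.E (z, f + 1) * ((f + 1 : ℕ) : ℚ) -
          (X.E (z, f) + X.E (z, f + 1)) * ((f : ℕ) : ℚ) = X.E (z, f + 1) := by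
        push_cast
        ring
      rwa [e] at this
    have h4 : IsZ (X.E (z, f)) := by
      have := AG3_isZ_sub hXs h3
      have e : X.E (z, f) + X.E (z, f + 1) - X.E (z, f + 1) = X.E (z, f) := by ring
      rwa [e] at this
    have hD : DReg X z := by
      refine ⟨?_, ?_⟩
      · intro l hl
        by_cases hlf : l = f
        · rw [hlf]
          exact AG3_isZ_nonneg h4 (by linarith)
        · by_cases hlf' : l = f + 1
          · rw [hlf']
            exact AG3_isZ_nonneg h3 (le_trans h0 hX1')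
          · rw [hXo l hlf hlf']
            exact hN l hl hlf hlf'
      · intro j l hl hΛ
        have hjU : j ∉ U ∧ T.Λ j (z, l) ≠ 0 := by
          by_cases hj1 : j ∈ (AG3_F a cd f U π).biUnion id
          · exfalso
            apply hΛ
            have : X.Λ j = sy j (f - 1) := by
              show (if j ∈ (AG3_F a cd f U π).biUnion id then _ else _) = _
              rw [if_pos hj1]
            rw [this]
            refine Finsupp.single_eq_of_ne ?_
            intro hc
            exact hne j (hsub hj1) (Prod.mk.inj hc).1.symm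
          · by_cases hj2 : j ∈ U
            · exfalso
              apply hΛ
              have : X.Λ j = sy j (π.s j + 1) := by
                show (if j ∈ (AG3_F a cd f U π).biUnion id then _ else
                  if j ∈ U \ (AG3_F a cd f U π).biUnion id then _ else _) = _
                rw [if_neg hj1, if_pos (Finset.mem_sdiff.mpr ⟨hj2, hj1⟩)]
              rw [this]
              refine Finsupp.single_eq_of_ne ?_
              intro hc
              exact hne j hj2 (Prod.mk.inj hc).1.symm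
            · refine ⟨hj2, ?_⟩
              have : X.Λ j = T.Λ j := by
                show (if j ∈ (AG3_F a cd f U π).biUnion id then _ else
                  if j ∈ U \ (AG3_F a cd f U π).biUnion id then _ else _) = _
                rw [if_neg hj1, if_neg (fun hc => hj2 (Finset.mem_sdiff.mp hc).1)]
                rfl
              rwa [this] at hΛ
        by_cases hlf : l = f
        · rw [hlf]
          exact hX0'
        · have h5 : 1 ≤ T.E (z, l) := by
            rcases hcol j hjU.1 l hl hjU.2 with h | h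
            · exact absurd h hlf
            · exact h
          by_cases hlf' : l = f + 1
          · rw [hlf'] at h5 ⊢
            linarith
          · rw [hXo l hlf hlf']
            exact h5
    rw [TV_van a hs X z hzz hD, mul_zero]
  · have : TV a X = 0 := by
      unfold TV
      exact if_neg hTOk
    rw [this, mul_zero]

end

end Pool.Agent.H27.KAC
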