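import Pool.Agent.H41.KA.AG1b
import Pool.Agent.H41.KA.AG2
import Pool.Agent.H41.KA.AE4

/-!
KAC ADE, module AG4: Frobenius with fixed insertions.

`frob_ins`: by `TV_frob` the value of `X = T.etaM a κ (-q)` is congruent to the value of `X.pow p = (T.pow p).etaM a κ (-p q)`
(`etaM_pow`); by `TV_rep` with the integral vector `v = (p - 1) q` on `N` (`p ≡ 1` modulo the denominators of `q`) this is
the value of `(T.pow p).etaM a κ (-q)`.  Positivity: `solN` of the exponents of `X.pow p` is `p q + p solN (T.E)`,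
`≥ p q > (p-1) q` on `N`.

`frob_pat`: `patT a U π T = (T.cols U ..).etaM a π.s (- resQ U π.q)`, apply `frob_ins` with
`N = {x ∈ insS U π | 1 ≤ π.s x}`; the insertions of level `0` do not matter (`TV_lev0`).
-/

set_option autoImplicit false

namespace Pool.Agent.H27.KAC

open scoped BigOperators

/-- `P p` holds for all large primes `p ≡ 1` modulo some `d`. -/
def EvP (P : ℕ → Prop) : Prop :=
  ∃ d N : ℕ, 1 ≤ d ∧ ∀ p : ℕ, N ≤ p → p.Prime → p % d = 1 % d → P p

theorem EvP.and {P Q : ℕ → Prop} (hP : EvP P) (hQ : EvP Q) : EvP (fun p => P p ∧ Q p) := by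
  obtain ⟨d, N, hd, h⟩ := hP
  obtain ⟨d', N', hd', h'⟩ := hQ
  refine ⟨d * d', max N N', Nat.mul_pos hd hd', fun p hp hpp hmod => ?_⟩
  have h1 : p ≡ 1 [MOD d * d'] := hmod
  exact ⟨h p (le_trans (le_max_left _ _) hp) hpp (h1.of_mul_right d'),
    h' p (le_trans (le_max_right _ _) hp) hpp (h1.of_mul_left d)⟩

theorem EvP.mono {P Q : ℕ → Prop} (hP : EvP P) (h : ∀ p, P p → Q p) : EvP Q := by
  obtain ⟨d, N, hd, h'⟩ := hP
  exact ⟨d, N, hd, fun p hp hpp hmod => h p (h' p hp hpp hmod)⟩

theorem EvP.of_large {P : ℕ → Prop} (N : ℕ) (h : ∀ p, N ≤ p → P p) : EvP P :=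
  ⟨1, N, le_refl 1, fun p hp _ _ => h p hp⟩

theorem EvP.prime : EvP (fun p => p.Prime) :=
  ⟨1, 0, le_refl 1, fun _ _ hpp _ => hpp⟩

theorem EvP.finset {ι : Type} (s : Finset ι) {P : ι → ℕ → Prop} (h : ∀ i ∈ s, EvP (P i)) :
    EvP (fun p => ∀ i ∈ s, P i p) := by
  classical
  induction s using Finset.induction_on with
  | empty => exact EvP.of_large 0 (fun p _ i hi => absurd hi (Finset.notMem_empty i))
  | insert i s hi ih =>
    refine ((h i (Finset.mem_insert_self i s)).and
      (ih (fun j hj => h j (Finset.mem_insert_of_mem hj)))).mono ?_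
    rintro p ⟨h1, h2⟩ j hj
    rcases Finset.mem_insert.1 hj with rfl | hj
    · exact h1
    · exact h2 j hj

theorem EvP.list {ι : Type} (s : List ι) {P : ι → ℕ → Prop} (h : ∀ i ∈ s, EvP (P i)) :
    EvP (fun p => ∀ i ∈ s, P i p) := by
  induction s with
  | nil => exact EvP.of_large 0 (fun p _ i hi => absurd hi List.not_mem_nil)
  | cons i s ih =>
    refine ((h i List.mem_cons_self).and
      (ih (fun j hj => h j (List.mem_cons_of_mem i hj)))).mono ?_
    rintro p ⟨h1, h2⟩ j hj
    rcases List.mem_cons.1 hj with rfl | hj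
    · exact h1
    · exact h2 j hj

/-- `(p - 1) q` is an integer. -/
theorem EvP.sub_one_mul (q : ℚ) : EvP (fun p => IsZ (((p : ℚ) - 1) * q)) := by
  refine ⟨q.den, 1, q.den_pos, fun p hp _ hmod => ?_⟩
  have h1 : 1 ≡ p [MOD q.den] := (show p ≡ 1 [MOD q.den] from hmod).symm
  rw [Nat.modEq_iff_dvd' hp] at h1
  obtain ⟨k, hk⟩ := h1
  refine ⟨k * q.num, ?_⟩
  have h2 : (p : ℚ) - 1 = q.den * k := by
    have h3 : ((p - 1 : ℕ) : ℚ) = ((q.den * k : ℕ) : ℚ) := by rw [hk]
    rw [Nat.cast_sub hp] at h3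
    push_cast at h3
    exact h3
  rw [h2]
  push_cast
  have h3 := Rat.mul_den_eq_num q
  linear_combination (k : ℚ) * h3

/-- `p q` is larger than any bound if `q > 0`. -/
theorem EvP.large_mul (q : ℚ) (hq : 0 < q) (B : ℚ) : EvP (fun p => B ≤ (p : ℚ) * q) := by
  refine EvP.of_large ⌈B / q⌉₊ (fun p hp => ?_)
  rw [← div_le_iff₀ hq]
  exact (Nat.le_ceil _).trans (by exact_mod_cast hp)

theorem EvP.eq_zero (q : ℚ) (h : EvP (fun p => PD p q)) : q = 0 := by
  obtain ⟨d, N, hd, h⟩ := h
  exact eq_zero_of_PD_mod q d hd ⟨N, h⟩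

theorem EvP.PI (q : ℚ) : EvP (fun p => PI p q) := by
  obtain ⟨N, h⟩ := PI_of_large q
  exact EvP.of_large N h

section

variable {I : Type} [Fintype I] [DecidableEq I]

private theorem AG4_cart_symm (a : I → I → ℕ) (hs : ∀ i j, a i j = a j i) (i j : I) :
    cart a i j = cart a j i := by
  unfold cart
  rw [hs i j]
  congr 1
  by_cases h : i = j
  · rw [if_pos h, if_pos h.symm]
  · rw [if_neg h, if_neg (Ne.symm h)]

private theorem AG4_cart_zero (a : I → I → ℕ) (i j : I) (h : i ≠ j) (h0 : a i j = 0) :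
    cart a i j = 0 := by
  unfold cart
  rw [if_neg h, h0]
  simp

/-- exponents in the directions of `N`. -/
private theorem AG4_E (a : I → I → ℕ) (hs : ∀ i j, a i j = a j i) (N : Finset I)
    (κ : I → ℕ) (hadj : ∀ x ∈ N, ∀ y ∈ N, 0 < a x y → κ x = κ y)
    (q : I → ℚ) (hq0 : ∀ i, i ∉ N → q i = 0) (T : Trm I) (x : I) (hx : x ∈ N) (l : ℕ) :
    (T.etaM a κ (fun i => -q i)).E (x, l) =
      T.E (x, l) + if l = κ x then cqN a N q x else 0 := by
  rw [etaM_E]
  have key : ∑ y ∈ Finset.univ.filter (fun y => κ y = l), q y * (cart a y x : ℚ) =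
      if l = κ x then cqN a N q x else 0 := by
    rw [Finset.sum_filter]
    have h2 : (if l = κ x then cqN a N q x else 0) =
        ∑ y, if y ∈ N then (if l = κ x then (cart a x y : ℚ) * q y else 0) else 0 := by
      rw [← Finset.sum_filter, Finset.filter_mem_eq_inter, Finset.univ_inter]
      split_ifs with h
      · rfl
      · simp
    rw [h2]
    refine Finset.sum_congr rfl (fun y _ => ?_)
    by_cases hy : y ∈ N
    · rw [if_pos hy]
      by_cases h1 : l = κ x
      · rw [if_pos h1]
        by_cases h3 : κ y = l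
        · rw [if_pos h3, AG4_cart_symm a hs y x, mul_comm]
        · rw [if_neg h3]
          have h4 : x ≠ y := by
            rintro rfl
            exact h3 h1.symm
          have h5 : a x y = 0 := by
            rcases Nat.eq_zero_or_pos (a x y) with h6 | h6
            · exact h6
            · exact absurd ((hadj x hx y hy h6).symm.trans h1.symm) h3
          rw [AG4_cart_zero a x y h4 h5]
          simp
      · rw [if_neg h1]
        by_cases h3 : κ y = l
        · rw [if_pos h3]
          have h4 : y ≠ x := by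
            rintro rfl
            exact h1 h3.symm
          have h5 : a y x = 0 := by
            rcases Nat.eq_zero_or_pos (a y x) with h6 | h6
            · exact h6
            · exact absurd (h3.symm.trans (hadj y hy x hx h6)) h1
          rw [AG4_cart_zero a y x h4 h5]
          simp
        · rw [if_neg h3]
    · rw [if_neg hy, hq0 y hy]
      simp
  have h3 : ∑ y ∈ Finset.univ.filter (fun y => κ y = l), -q y * (cart a y x : ℚ) =
      -∑ y ∈ Finset.univ.filter (fun y => κ y = l), q y * (cart a y x : ℚ) := by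
    rw [← Finset.sum_neg_distrib]
    exact Finset.sum_congr rfl (fun y _ => by ring)
  rw [h3, key]
  ring

theorem frob_ins (a : I → I → ℕ) (hs : ∀ i j, a i j = a j i) (N : Finset I) (hN : FinT a N)
    (κ σ : I → ℕ) (hκ : ∀ x ∈ N, 1 ≤ κ x)
    (hadj : ∀ x ∈ N, ∀ y ∈ N, 0 < a x y → κ x = κ y) (hσ : ∀ x ∈ N, Side (κ x) (σ x))
    (q : I → ℚ) (hq0 : ∀ i, i ∉ N → q i = 0) (hq : QOk a N q) (T : Trm I)
    (hT : ∀ x ∈ N, ∀ l, 1 ≤ l → IsN (T.E (x, l)))
    (hc : ∀ x ∈ N, ∀ j l, 1 ≤ l → T.Λ j (x, l) ≠ 0 → l = σ x ∨ 1 ≤ T.E (x, l)) :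
    EvP (fun p => PD p (TV a ((T.pow p).etaM a κ (fun i => -q i)) - TV a (T.etaM a κ (fun i => -q i)))) := by
  have hE := AG4_E a hs N κ hadj q hq0 T
  have hqint : ∀ x ∈ N, ∃ n : ℕ, 1 ≤ n ∧ cqN a N q x = n := hq
  have hqpos : ∀ x ∈ N, 0 < q x := by
    intro x hx
    rw [← solN_cqN hs hN q x hx]
    refine solN_pos_self hs hN _ (fun i hi => ?_) x hx ?_
    · obtain ⟨n, _, hn⟩ := hqint i hi
      rw [hn]
      exact Nat.cast_nonneg n
    · obtain ⟨n, hn1, hn⟩ := hqint x hx
      rw [hn]
      exact_mod_cast hn1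
  have hF : ∀ x ∈ N, FReg (T.etaM a κ (fun i => -q i)) x (κ x) (σ x) := by
    intro x hx
    refine ⟨?_, ?_, ?_⟩
    · intro l hl hlk
      rw [hE x hx l, if_neg hlk, add_zero]
      exact hT x hx l hl
    · rw [hE x hx (κ x), if_pos rfl]
      obtain ⟨m, hm⟩ := hT x hx (κ x) (hκ x hx)
      obtain ⟨n, _, hn⟩ := hqint x hx
      exact ⟨(m : ℤ) + n, by rw [hm, hn]; push_cast; ring⟩
    · intro j l hl hne
      rcases hc x hx j l hl hne with h1 | h1
      · exact Or.inl h1
      · by_cases h2 : l = κ x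
        · exact Or.inr (Or.inl h2)
        · refine Or.inr (Or.inr ?_)
          rw [hE x hx l, if_neg h2, add_zero]
          exact h1
  obtain ⟨N0, hN0⟩ := TPI_of_large (T.etaM a κ (fun i => -q i))
  refine (((EvP.of_large N0 hN0).and EvP.prime).and
    (EvP.finset Finset.univ (fun i _ => EvP.sub_one_mul (q i)))).mono ?_
  rintro p ⟨⟨h1, h2⟩, h3⟩
  have hp1 : 1 ≤ p := h2.one_lt.le
  have hp1' : (1 : ℚ) ≤ p := by exact_mod_cast hp1
  choose v hv using fun i => h3 i (Finset.mem_univ i)
  have hsol : ∀ x ∈ N, solN a N (fun i => ((T.etaM a κ (fun i => -q i)).pow p).E (i, κ i)) x =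
      p * (solN a N (fun i => T.E (i, κ i)) x + q x) := by
    intro x hx
    have e1 : solN a N (fun i => ((T.etaM a κ (fun i => -q i)).pow p).E (i, κ i)) =
        solN a N (fun i => (p : ℚ) * (T.E (i, κ i) + cqN a N q i)) := by
      refine solN_congr hs hN _ _ (fun i hi => ?_)
      have e2 : ((T.etaM a κ (fun i => -q i)).pow p).E (i, κ i) =
          (p : ℚ) * (T.etaM a κ (fun i => -q i)).E (i, κ i) := rfl
      rw [e2, hE i hi (κ i), if_pos rfl]
    rw [e1, solN_smul hs hN, solN_add hs hN, solN_cqN hs hN q x hx]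
  have hs0 : ∀ x, 0 ≤ solN a N (fun i => T.E (i, κ i)) x := by
    intro x
    refine solN_nonneg hs hN _ (fun i hi => ?_) x
    obtain ⟨m, hm⟩ := hT i hi (κ i) (hκ i hi)
    rw [hm]
    exact Nat.cast_nonneg m
  have key := TV_rep a hs N hN κ σ hκ hadj hσ ((T.etaM a κ (fun i => -q i)).pow p)
    (fun x hx => (hF x hx).pow p hp1)
    (fun x hx => by
      rw [hsol x hx]
      exact mul_pos (by linarith) (by linarith [hs0 x, hqpos x hx])) v
    (fun i hi => by
      have h4 := hv i
      rw [hq0 i hi, mul_zero] at h4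
      exact_mod_cast h4.symm)
    (fun x hx => by
      rw [hsol x hx, ← hv x]
      have h5 := hs0 x
      have h6 := hqpos x hx
      nlinarith)
  have hfin : ((T.etaM a κ (fun i => -q i)).pow p).etaM a κ (fun i => (v i : ℚ)) =
      (T.pow p).etaM a κ (fun i => -q i) := by
    rw [etaM_pow, etaM_etaM]
    congr 1
    funext i
    rw [← hv i]
    ring
  rw [hfin] at key
  rw [← key]
  exact TV_frob h2 a hs _ h1

theorem frob_pat (a : I → I → ℕ) (hs : ∀ i j, a i j = a j i) (U : Finset I) (hU : FinT a U)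
    (π : Pat I) (hπ : PatOk a U π) (T : Trm I) (hT : RReg U T) :
    EvP (fun p => PD p (TV a (patT a U π (T.pow p)) - TV a (patT a U π T))) := by
  classical
  obtain ⟨N, hNdef⟩ : ∃ N : Finset I, N = (insS U π).filter (fun x => 1 ≤ π.s x) := ⟨_, rfl⟩
  have hNmem : ∀ x, x ∈ N ↔ x ∈ insS U π ∧ 1 ≤ π.s x := by
    intro x
    rw [hNdef, Finset.mem_filter]
  have hNU : N ⊆ U := by
    intro x hx
    exact insS_subset U π ((hNmem x).1 hx).1
  have hcomp : ∀ x ∈ N, ∃ A ∈ comps a (insS U π), x ∈ A ∧ A ⊆ N := by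
    intro x hx
    obtain ⟨h1, h2⟩ := (hNmem x).1 hx
    obtain ⟨A, hA, hxA⟩ := comps_cover hs x h1
    refine ⟨A, hA, hxA, fun y hy => ?_⟩
    rw [hNmem]
    refine ⟨comps_subset hA hy, ?_⟩
    rw [hπ.lev A hA y hy x hxA]
    exact h2
  have hadj : ∀ x ∈ N, ∀ y ∈ N, 0 < a x y → π.s x = π.s y := by
    intro x hx y hy hxy
    obtain ⟨A, hA, hxA, _⟩ := hcomp x hx
    have hyA : y ∈ A := by
      by_contra hyA
      have h3 := comps_sep hA x hxA y ((hNmem y).1 hy).1 hyA
      omega
    exact hπ.lev A hA x hxA y hyA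
  obtain ⟨q, hq⟩ : ∃ q : I → ℚ, q = resQ N π.q := ⟨_, rfl⟩
  have hqin : ∀ i ∈ N, q i = π.q i := by
    intro i hi
    rw [hq]
    exact if_pos hi
  have hqout : ∀ i, i ∉ N → q i = 0 := by
    intro i hi
    rw [hq]
    exact if_neg hi
  have hqok : QOk a N q := by
    intro x hx
    obtain ⟨A, hA, hxA, hAN⟩ := hcomp x hx
    obtain ⟨n, hn1, hn⟩ := hπ.qok A hA x hxA
    refine ⟨n, hn1, ?_⟩
    rw [← hn]
    unfold cqN
    rw [← Finset.sum_subset hAN]
    · exact Finset.sum_congr rfl (fun j hj => by rw [hqin j (hAN hj)])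
    · intro j hj hjA
      have h3 := comps_sep hA x hxA j ((hNmem j).1 hj).1 hjA
      have h4 : x ≠ j := by
        rintro rfl
        exact hjA hxA
      rw [AG4_cart_zero a x j h4 h3]
      simp
  obtain ⟨c, hc⟩ : ∃ c : I → QE I, c = fun x => sy x (π.s x + 1) := ⟨_, rfl⟩
  have main := frob_ins a hs N (hU.mono hNU) π.s (fun x => π.s x + 1)
    (fun x hx => ((hNmem x).1 hx).2) hadj (fun x _ => Or.inl rfl) q hqout hqok (T.cols U c)
    (fun x hx l hl => hT.nat x (hNU hx) l hl)
    (fun x hx j l hl hne => by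
      by_cases hj : j ∈ U
      · left
        have h3 : (T.cols U c).Λ j = c j := if_pos hj
        rw [h3, hc] at hne
        have h4 : (Finsupp.single (j, π.s j + 1) (1 : ℚ)) (x, l) ≠ 0 := hne
        rw [Finsupp.single_apply] at h4
        by_cases h5 : (j, π.s j + 1) = (x, l)
        · have h6 : j = x := congrArg Prod.fst h5
          have h7 : π.s j + 1 = l := congrArg Prod.snd h5
          rw [← h7, h6]
        · rw [if_neg h5] at h4
          exact absurd rfl h4
      · right
        have h3 : (T.cols U c).Λ j = T.Λ j := if_neg hj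
        rw [h3] at hne
        exact hT.col x (hNU hx) j hj l hl hne)
  have hlev : ∀ X : Trm I, TV a (patT a U π X) =
      TV a ((X.cols U c).etaM a π.s (fun i => -q i)) := by
    intro X
    have h0 : ∀ i, i ∉ N → resQ U π.q i ≠ 0 → π.s i = 0 := by
      intro i hi hne
      have hiU : i ∈ U := by
        by_contra hiU
        exact hne (if_neg hiU)
      have h1 : resQ U π.q i = π.q i := if_pos hiU
      rw [h1] at hne
      have h2 : i ∈ insS U π := Finset.mem_filter.2 ⟨hiU, hne⟩
      by_contra h3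
      exact hi ((hNmem i).2 ⟨h2, Nat.one_le_iff_ne_zero.2 h3⟩)
    have h1 : ∀ i, π.s i ≠ 0 → resQ U π.q i = q i := by
      intro i hi
      by_cases hiN : i ∈ N
      · rw [hqin i hiN]
        exact if_pos (hNU hiN)
      · rw [hqout i hiN]
        by_contra h2
        exact hi (h0 i hiN h2)
    refine TV_lev0 a _ _ ?_ ?_ ?_
    · funext i
      have e1 : (patT a U π X).γ i = X.γ i - π.s i * -resQ U π.q i := rfl
      have e2 : ((X.cols U c).etaM a π.s (fun i => -q i)).γ i = X.γ i - π.s i * -q i := rfl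
      rw [e1, e2]
      by_cases hi : π.s i = 0
      · rw [hi]
        simp
      · rw [h1 i hi]
    · intro i k hk
      have e1 : (patT a U π X).E (i, k) = (X.etaM a π.s (fun i => -resQ U π.q i)).E (i, k) := rfl
      have e2 : ((X.cols U c).etaM a π.s (fun i => -q i)).E (i, k) =
          (X.etaM a π.s (fun i => -q i)).E (i, k) := rfl
      rw [e1, e2, etaM_E, etaM_E]
      congr 1
      refine Finset.sum_congr rfl (fun x hx => ?_)
      have hx1 : π.s x = k := (Finset.mem_filter.1 hx).2
      rw [h1 x (by omega)]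
    · intro j i k hk
      rw [hc]
      rfl
  refine main.mono (fun p hp => ?_)
  rw [hlev, hlev]
  exact hp

/-- the joint value of several blocks. -/
theorem frob_evU (a : I → I → ℕ) (hs : ∀ i j, a i j = a j i) (U : List (Finset I × FFn I))
    (hU : FinT a (uni U)) (hd : U.Pairwise (fun b c => Disjoint b.1 c.1))
    (hok : ∀ c ∈ prodF U, PatOk a (uni U) c.2) (T : Trm I) (hT : RReg (uni U) T) :
    EvP (fun p => PD p (evU a U (T.pow p) - evU a U T)) := by
  have h1 : EvP (fun p => ∀ c ∈ prodF U, PD p (c.1 * (TV a (patT a (uni U) c.2 (T.pow p)) -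
      TV a (patT a (uni U) c.2 T)))) := by
    refine EvP.list _ (fun c hc => ?_)
    refine (((frob_pat a hs (uni U) hU c.2 (hok c hc) T hT).and (EvP.PI c.1)).and
      EvP.prime).mono ?_
    rintro p ⟨⟨h2, h3⟩, h4⟩
    exact PD_mul h4 h2 h3
  refine (h1.and EvP.prime).mono ?_
  rintro p ⟨h2, h3⟩
  rw [evU_eq_evF a U hd, evU_eq_evF a U hd]
  unfold evF
  have h4 : ∀ L : FFn I, (∀ c ∈ L, PD p (c.1 * (TV a (patT a (uni U) c.2 (T.pow p)) -
      TV a (patT a (uni U) c.2 T)))) →
      PD p ((L.map (fun c => c.1 * TV a (patT a (uni U) c.2 (T.pow p)))).sum -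
        (L.map (fun c => c.1 * TV a (patT a (uni U) c.2 T))).sum) := by
    intro L
    induction L with
    | nil =>
      intro _
      simp only [List.map_nil, List.sum_nil, sub_self]
      exact PD_zero h3
    | cons c L ih =>
      intro h5
      have h6 := PD_add h3 (h5 c List.mem_cons_self)
        (ih (fun d hd => h5 d (List.mem_cons_of_mem c hd)))
      simp only [List.map_cons, List.sum_cons]
      have h7 : c.1 * TV a (patT a (uni U) c.2 (T.pow p)) +
          (L.map (fun c => c.1 * TV a (patT a (uni U) c.2 (T.pow p)))).sum -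
          (c.1 * TV a (patT a (uni U) c.2 T) +
          (L.map (fun c => c.1 * TV a (patT a (uni U) c.2 T))).sum) =
          c.1 * (TV a (patT a (uni U) c.2 (T.pow p)) - TV a (patT a (uni U) c.2 T)) +
          ((L.map (fun c => c.1 * TV a (patT a (uni U) c.2 (T.pow p)))).sum -
          (L.map (fun c => c.1 * TV a (patT a (uni U) c.2 T))).sum) := by ring
      rw [h7]
      exact h6
  exact h4 _ h2

private theorem AG4_sep (a : I → I → ℕ) (B : Finset I) (L : List (Blk I))
    (h : ∀ c ∈ L, Sep a B c.B) : Sep a B (uniB L) := by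
  constructor
  · rw [Finset.disjoint_left]
    intro x hx hx'
    obtain ⟨c, hc, hxc⟩ := (mem_uniB L x).1 hx'
    exact Finset.disjoint_left.1 (h c hc).1 hx hxc
  · intro x hx y hy
    obtain ⟨c, hc, hyc⟩ := (mem_uniB L y).1 hy
    exact (h c hc).2 x hx y hyc

/-- the side level of the block of a vertex. -/
private def AG4_sL (f : ℕ) : List (Blk I) → I → ℕ
  | [], _ => f + 1
  | b :: L, x => if x ∈ b.B then b.sd f else AG4_sL f L x

/-- the class of the block of a vertex. -/
private def AG4_qL : List (Blk I) → I → ℚ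
  | [], _ => 0
  | b :: L, x => if x ∈ b.B then b.q x else AG4_qL L x

private theorem AG4_qL_out (L : List (Blk I)) (x : I) (hx : x ∉ uniB L) : AG4_qL L x = 0 := by
  induction L with
  | nil => rfl
  | cons b L ih =>
    have h1 : x ∉ b.B := fun h => hx ((mem_uniB _ x).2 ⟨b, List.mem_cons_self, h⟩)
    have h2 : x ∉ uniB L := by
      intro h
      obtain ⟨c, hc, hxc⟩ := (mem_uniB L x).1 h
      exact hx ((mem_uniB _ x).2 ⟨c, List.mem_cons_of_mem b hc, hxc⟩)
    have h3 : AG4_qL (b :: L) x = AG4_qL L x := if_neg h1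
    rw [h3, ih h2]

private theorem AG4_side (f : ℕ) (hf : 1 ≤ f) (L : List (Blk I)) (x : I) :
    Side f (AG4_sL f L x) := by
  induction L with
  | nil => exact Or.inl rfl
  | cons b L ih =>
    by_cases h : x ∈ b.B
    · have h1 : AG4_sL f (b :: L) x = b.sd f := if_pos h
      rw [h1]
      unfold Blk.sd
      split_ifs
      · right
        omega
      · exact Or.inl rfl
    · have h1 : AG4_sL f (b :: L) x = AG4_sL f L x := if_neg h
      rw [h1]
      exact ih

private theorem AG4_qok (a : I → I → ℕ) (hs : ∀ i j, a i j = a j i) (L : List (Blk I))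
    (hq : ∀ b ∈ L, QOk a b.B b.q) (hd : L.Pairwise (fun b c => Sep a b.B c.B)) :
    QOk a (uniB L) (AG4_qL L) := by
  induction L with
  | nil =>
    intro x hx
    exact absurd hx (Finset.notMem_empty x)
  | cons b L ih =>
    rw [List.pairwise_cons] at hd
    have hsep := AG4_sep a b.B L hd.1
    have hih := ih (fun c hc => hq c (List.mem_cons_of_mem b hc)) hd.2
    have hu : uniB (b :: L) = b.B ∪ uniB L := rfl
    intro x hx
    have hval1 : ∀ j ∈ b.B, AG4_qL (b :: L) j = b.q j := fun j hj => if_pos hj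
    have hval2 : ∀ j ∈ uniB L, AG4_qL (b :: L) j = AG4_qL L j := fun j hj =>
      if_neg (fun h => Finset.disjoint_left.1 hsep.1 h hj)
    have hsum : cqN a (uniB (b :: L)) (AG4_qL (b :: L)) x =
        ∑ j ∈ b.B, (cart a x j : ℚ) * b.q j + ∑ j ∈ uniB L, (cart a x j : ℚ) * AG4_qL L j := by
      unfold cqN
      rw [hu, Finset.sum_union hsep.1]
      congr 1
      · exact Finset.sum_congr rfl (fun j hj => by rw [hval1 j hj])
      · exact Finset.sum_congr rfl (fun j hj => by rw [hval2 j hj])
    rw [hu, Finset.mem_union] at hx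
    rcases hx with hx | hx
    · obtain ⟨n, hn1, hn⟩ := hq b List.mem_cons_self x hx
      refine ⟨n, hn1, ?_⟩
      rw [hsum, ← hn]
      have h0 : ∑ j ∈ uniB L, (cart a x j : ℚ) * AG4_qL L j = 0 := by
        refine Finset.sum_eq_zero (fun j hj => ?_)
        have h4 : x ≠ j := by
          rintro rfl
          exact Finset.disjoint_left.1 hsep.1 hx hj
        rw [AG4_cart_zero a x j h4 (hsep.2 x hx j hj)]
        simp
      rw [h0, add_zero]
      rfl
    · obtain ⟨n, hn1, hn⟩ := hih x hx
      refine ⟨n, hn1, ?_⟩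
      rw [hsum, ← hn]
      have h0 : ∑ j ∈ b.B, (cart a x j : ℚ) * b.q j = 0 := by
        refine Finset.sum_eq_zero (fun j hj => ?_)
        have h4 : x ≠ j := by
          rintro rfl
          exact Finset.disjoint_left.1 hsep.1 hj hx
        rw [AG4_cart_zero a x j h4 (by rw [hs x j]; exact hsep.2 j hj x hx)]
        simp
      rw [h0, zero_add]
      rfl

/-- the explicit term as one insertion. -/
private theorem AG4_expl (a : I → I → ℕ) (f : ℕ) (L : List (Blk I))
    (hd : L.Pairwise (fun b c => Disjoint b.B c.B)) (T : Trm I) :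
    expl a f L T = (T.cols (uniB L) (fun x => sy x (AG4_sL f L x))).etaM a (fun _ => f)
      (fun i => -AG4_qL L i) := by
  induction L with
  | nil =>
    have h1 : (fun i : I => -AG4_qL ([] : List (Blk I)) i) = fun _ => (0 : ℚ) := by
      funext i
      exact neg_zero
    rw [h1, etaM_zero]
    refine Trm.ext rfl rfl ?_
    funext i
    change T.Λ i = if i ∈ (∅ : Finset I) then sy i (AG4_sL f ([] : List (Blk I)) i) else T.Λ i
    rw [if_neg (Finset.notMem_empty i)]
  | cons b L ih =>
    rw [List.pairwise_cons] at hd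
    have hdis : Disjoint b.B (uniB L) := by
      rw [Finset.disjoint_left]
      intro x hx hx'
      obtain ⟨c, hc, hxc⟩ := (mem_uniB L x).1 hx'
      exact Finset.disjoint_left.1 (hd.1 c hc) hx hxc
    have hE : expl a f (b :: L) T = blkT a b.B f (b.sd f) b.q (expl a f L T) := rfl
    have hB : ∀ X : Trm I, blkT a b.B f (b.sd f) b.q X =
        (X.etaM a (fun _ => f) (fun i => -resQ b.B b.q i)).cols b.B (fun x => sy x (b.sd f)) := by
      intro X
      unfold blkT
      rw [eta_eq_etaM]
    rw [hE, ih hd.2, hB, etaM_etaM]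
    have h2 : (fun i => -AG4_qL L i + -resQ b.B b.q i) = fun i => -AG4_qL (b :: L) i := by
      funext i
      by_cases hi : i ∈ b.B
      · have e1 : AG4_qL (b :: L) i = b.q i := if_pos hi
        have e2 : resQ b.B b.q i = b.q i := if_pos hi
        rw [e1, e2, AG4_qL_out L i (Finset.disjoint_left.1 hdis hi)]
        ring
      · have e1 : AG4_qL (b :: L) i = AG4_qL L i := if_neg hi
        have e2 : resQ b.B b.q i = 0 := if_neg hi
        rw [e1, e2]
        ring
    rw [h2]
    refine Trm.ext rfl rfl ?_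
    funext i
    have hu : uniB (b :: L) = b.B ∪ uniB L := rfl
    change (if i ∈ b.B then sy i (b.sd f) else if i ∈ uniB L then sy i (AG4_sL f L i) else T.Λ i) =
      if i ∈ uniB (b :: L) then sy i (AG4_sL f (b :: L) i) else T.Λ i
    rw [hu]
    by_cases hi : i ∈ b.B
    · have e1 : AG4_sL f (b :: L) i = b.sd f := if_pos hi
      rw [if_pos hi, if_pos (Finset.mem_union_left _ hi), e1]
    · have e1 : AG4_sL f (b :: L) i = AG4_sL f L i := if_neg hi
      rw [if_neg hi, e1]
      by_cases hi' : i ∈ uniB L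
      · rw [if_pos hi', if_pos (Finset.mem_union_right _ hi')]
      · rw [if_neg hi', if_neg (by rw [Finset.mem_union]; tauto)]

/-- the blocks form a finite type set. -/
theorem FinT_uniB (a : I → I → ℕ) (hs : ∀ i j, a i j = a j i) (L : List (Blk I))
    (hfin : ∀ b ∈ L, FinT a b.B) (hd : L.Pairwise (fun b c => Sep a b.B c.B)) : FinT a (uniB L) := by
  induction L with
  | nil => exact FinT.empty a
  | cons b L ih =>
    rw [List.pairwise_cons] at hd
    have h1 : FinT a (b.B ∪ uniB L) :=
      FinT.union_sep hs (hfin b List.mem_cons_self)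
        (ih (fun c hc => hfin c (List.mem_cons_of_mem b hc)) hd.2) (AG4_sep a b.B L hd.1)
    exact h1

/-- explicit blocks. -/
theorem frob_expl (a : I → I → ℕ) (hs : ∀ i j, a i j = a j i) (f : ℕ) (hf : 1 ≤ f)
    (L : List (Blk I)) (hfin : ∀ b ∈ L, FinT a b.B) (hq : ∀ b ∈ L, QOk a b.B b.q)
    (hd : L.Pairwise (fun b c => Sep a b.B c.B)) (T : Trm I) (hT : RReg (uniB L) T) :
    EvP (fun p => PD p (TV a (expl a f L (T.pow p)) - TV a (expl a f L T))) := by
  obtain ⟨c, hc⟩ : ∃ c : I → QE I, c = fun x => sy x (AG4_sL f L x) := ⟨_, rfl⟩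
  have hd' : L.Pairwise (fun b c => Disjoint b.B c.B) := hd.imp (fun h => h.1)
  have main := frob_ins a hs (uniB L) (FinT_uniB a hs L hfin hd) (fun _ => f)
    (fun x => AG4_sL f L x) (fun _ _ => hf) (fun _ _ _ _ _ => rfl)
    (fun x _ => AG4_side f hf L x) (AG4_qL L) (fun i hi => AG4_qL_out L i hi)
    (AG4_qok a hs L hq hd) (T.cols (uniB L) c)
    (fun x hx l hl => hT.nat x hx l hl)
    (fun x hx j l hl hne => by
      by_cases hj : j ∈ uniB L
      · left
        have h3 : (T.cols (uniB L) c).Λ j = c j := if_pos hj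
        rw [h3, hc] at hne
        have h4 : (Finsupp.single (j, AG4_sL f L j) (1 : ℚ)) (x, l) ≠ 0 := hne
        rw [Finsupp.single_apply] at h4
        by_cases h5 : (j, AG4_sL f L j) = (x, l)
        · have h6 : j = x := congrArg Prod.fst h5
          have h7 : AG4_sL f L j = l := congrArg Prod.snd h5
          rw [← h7, h6]
        · rw [if_neg h5] at h4
          exact absurd rfl h4
      · right
        have h3 : (T.cols (uniB L) c).Λ j = T.Λ j := if_neg hj
        rw [h3] at hne
        exact hT.col x hx j hj l hl hne)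
  refine main.mono (fun p hp => ?_)
  rw [AG4_expl a f L hd' T, AG4_expl a f L hd' (T.pow p), ← hc]
  exact hp

end

end Pool.Agent.H27.KAC
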