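import Pool.Agent.H41.KA.AG3
import Pool.Agent.H41.KA.AG4

/-!
KAC ADE, module AG5: killing terms by a positive effective exponent (X1).

Proof.  `EvP.eq_zero`: by `frob_pat` it suffices to show `TV a (patT a U π (T.pow p)) = 0` for all large primes `p ≡ 1` mod `d`.
Fire `V` in the term `patT a U π (T.pow p)` from the configuration `p * T.E (·, f)` down to a configuration `< 3` (`fire_down` with
`θ = 3`, `TV_fire`, `FRegI.pow`; the insertions and the columns of `U` do not touch `V` because of `Sep`); then the exponent of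
`(z,f)` becomes `≥ p * (T.E (z,f) + ∑_v a z v solN(T.E) v) - const`, hence larger than the bound of `TV_vanX` (`EvP.large_mul`).
The integrality condition is inherited for `p ≡ 1` modulo the denominators (`EvP.sub_one_mul`), the columns `(z,l)` with
`0 < T.E (z,l)` are compensated for large `p`.

`fire_win`: `TV_rel` (write `T = T0.mulE (2 • sy z f)`) and `TV_kill` (`V = ∅`) for the difference term
`T.mulE (sy z (f+1) + sy z (f-1) - 2 • sy z f)`, in which the symbols `(z,f+1)`, `(z,f-1)` are compensated.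
-/

set_option autoImplicit false

namespace Pool.Agent.H27.KAC

open scoped BigOperators

section

variable {I : Type} [Fintype I] [DecidableEq I]

omit [Fintype I] [DecidableEq I] in
theorem AG5_pow_E (T : Trm I) (p : ℚ) (i : I × ℕ) : (T.pow p).E i = p * T.E i := by
  simp [Trm.pow]

theorem AG5_IsN_mul {p : ℕ} {q : ℚ} (h : IsN q) : IsN ((p : ℚ) * q) := by
  obtain ⟨n, rfl⟩ := h
  exact ⟨p * n, by push_cast; ring⟩

theorem AG5_IsZ_mul {p : ℕ} {q : ℚ} (h : IsZ q) : IsZ ((p : ℚ) * q) := by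
  obtain ⟨n, rfl⟩ := h
  exact ⟨p * n, by push_cast; ring⟩

theorem AG5_IsZ_add {q r : ℚ} (h : IsZ q) (h' : IsZ r) : IsZ (q + r) := by
  obtain ⟨n, rfl⟩ := h
  obtain ⟨m, rfl⟩ := h'
  exact ⟨n + m, by push_cast; ring⟩

theorem AG5_one_le_mul {p : ℕ} (hp : 1 ≤ p) {q : ℚ} (h : 1 ≤ q) : 1 ≤ (p : ℚ) * q := by
  have hp' : (1 : ℚ) ≤ p := by exact_mod_cast hp
  nlinarith

theorem FRegI.pow {S : Finset I} {T : Trm I} {x : I} {k σ : ℕ} (h : FRegI S T x k σ) (p : ℕ)
    (hp : 1 ≤ p) : FRegI S (T.pow p) x k σ := by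
  refine ⟨fun l hl hlk => ?_, ?_, fun j hj l hl hne => ?_⟩
  · rw [AG5_pow_E]
    exact AG5_IsN_mul (h.nat l hl hlk)
  · rw [AG5_pow_E]
    exact AG5_IsZ_mul h.int
  · rcases h.col j hj l hl hne with h1 | h1 | h1
    · exact Or.inl h1
    · exact Or.inr (Or.inl h1)
    · refine Or.inr (Or.inr ?_)
      rw [AG5_pow_E]
      exact AG5_one_le_mul hp h1

/-- exponents of separated vertices are not changed. -/
theorem AG5_patT_E_sep (a : I → I → ℕ) (U V : Finset I) (hUV : Sep a U V) (π : Pat I) (T : Trm I)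
    (v : I) (hv : v ∈ V) (l : ℕ) : (patT a U π T).E (v, l) = T.E (v, l) := by
  rw [patT_E, Finset.sum_eq_zero, add_zero]
  intro x hx
  have hxU := (Finset.mem_filter.1 hx).1
  have h1 : x ≠ v := fun h => Finset.disjoint_left.1 hUV.1 hxU (h ▸ hv)
  have h2 := hUV.2 x hxU v hv
  simp [cart, h1, h2]

/-- the filled term is ready for firing. -/
theorem FReg_patT (a : I → I → ℕ) (hs : ∀ i j, a i j = a j i) (U V : Finset I) (hUV : Sep a U V)
    (π : Pat I) (f σ : ℕ) (T : Trm I) (v : I) (hv : v ∈ V) (h : FRegI U T v f σ) :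
    FReg (patT a U π T) v f σ := by
  refine ⟨fun l hl hlk => ?_, ?_, fun j l hl hne => ?_⟩
  · rw [AG5_patT_E_sep a U V hUV π T v hv]
    exact h.nat l hl hlk
  · rw [AG5_patT_E_sep a U V hUV π T v hv]
    exact h.int
  · rw [AG5_patT_E_sep a U V hUV π T v hv]
    by_cases hj : j ∈ U
    · exfalso
      apply hne
      have hjv : j ≠ v := fun h => Finset.disjoint_left.1 hUV.1 hj (h ▸ hv)
      simp only [patT, Trm.cols, Trm.etaM]
      rw [if_pos hj, Finsupp.single_apply, if_neg]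
      intro h1
      exact hjv (congrArg Prod.fst h1)
    · apply h.col j hj l hl
      intro h0
      apply hne
      simp only [patT, Trm.cols, Trm.etaM]
      rw [if_neg hj]
      exact h0

/-- firing of `V` down: one firing vector `d` for all terms `X` which have on `V` the exponents of `T.pow p`; it is at least
`p * solN(T.E) - B`. -/
theorem fire_V (a : I → I → ℕ) (hs : ∀ i j, a i j = a j i) (f : ℕ) (hf : 1 ≤ f)
    (V : Finset I) (hV : FinT a V) (σ : I → ℕ) (hσ : ∀ v ∈ V, Side f (σ v)) (T : Trm I)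
    (hTV : ∀ v ∈ V, IsZ (T.E (v, f))) :
    ∃ B : ℚ, ∀ p : ℕ, 1 ≤ p → ∃ d : I → ℕ, (∀ i, i ∉ V → d i = 0) ∧
      (∀ X : Trm I, (∀ v ∈ V, FReg X v f (σ v)) → (∀ v ∈ V, X.E (v, f) = (p : ℚ) * T.E (v, f)) →
        TV a X = TV a (X.etaM a (fun _ => f) (fun i => (d i : ℚ)))) ∧
      ∀ v ∈ V, (p : ℚ) * solN a V (fun i => T.E (i, f)) v - B ≤ d v := by
  classical
  have hex : ∀ v : I, ∃ n : ℤ, v ∈ V → T.E (v, f) = n := by
    intro v
    by_cases hv : v ∈ V
    · obtain ⟨n, hn⟩ := hTV v hv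
      exact ⟨n, fun _ => hn⟩
    · exact ⟨0, fun h => absurd h hv⟩
  choose ν₀ hν₀ using hex
  refine ⟨∑ x ∈ V, (3 : ℤ) * solN a V (fun _ => 1) x, fun p hp => ?_⟩
  obtain ⟨d, hd, -, hd2⟩ := fire_down hs hV 3 (by norm_num) (fun i => (p : ℤ) * ν₀ i)
  refine ⟨d, hd.supp, ?_, ?_⟩
  · intro X hX hXE
    refine TV_fire a hs V hV.loopfree (fun _ => f) σ (fun _ _ => hf) (fun _ _ _ _ _ => rfl) hσ X hX
      (fun i => (p : ℤ) * ν₀ i) ?_ d hd
    intro x hx
    rw [hXE x hx, hν₀ x hx]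
    push_cast
    rfl
  · intro v hv
    have h1 := hd2 v hv
    have h2 : solN a V (fun i => ((((p : ℤ) * ν₀ i : ℤ)) : ℚ)) v =
        (p : ℚ) * solN a V (fun i => T.E (i, f)) v := by
      rw [← solN_smul hs hV]
      have h3 := solN_congr hs hV (fun i => ((((p : ℤ) * ν₀ i : ℤ)) : ℚ))
        (fun j => (p : ℚ) * T.E (j, f)) (fun i hi => by
          rw [hν₀ i hi]
          push_cast
          rfl)
      rw [h3]
    rw [h2] at h1
    have h3 : (3 : ℤ) * solN a V (fun _ => 1) v ≤ ∑ x ∈ V, (3 : ℤ) * solN a V (fun _ => 1) x := by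
      apply Finset.single_le_sum (f := fun x => ((3 : ℤ) : ℚ) * solN a V (fun _ => 1) x)
        (fun x _ => ?_) hv
      have := solN_nonneg hs hV (fun _ => 1) (fun _ _ => zero_le_one) x
      positivity
    linarith

theorem AG5_etaM_ne (a : I → I → ℕ) (f : ℕ) (d : I → ℚ) (T : Trm I) (i : I) (l : ℕ) (hl : l ≠ f) :
    (T.etaM a (fun _ => f) d).E (i, l) = T.E (i, l) := by
  rw [etaM_E, Finset.sum_eq_zero, sub_zero]
  intro x hx
  exact absurd (Finset.mem_filter.1 hx).2.symm hl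

theorem AG5_etaM_sep (a : I → I → ℕ) (U V : Finset I) (hUV : Sep a U V)
    (hs : ∀ i j, a i j = a j i) (f : ℕ) (d : I → ℚ) (hd : ∀ i, i ∉ V → d i = 0) (T : Trm I)
    (i : I) (hi : i ∈ U) (l : ℕ) :
    (T.etaM a (fun _ => f) d).E (i, l) = T.E (i, l) := by
  rw [etaM_E, Finset.sum_eq_zero, sub_zero]
  intro x _
  by_cases hx : x ∈ V
  · have h1 : x ≠ i := fun h => Finset.disjoint_left.1 hUV.1 hi (h ▸ hx)
    have h2 : a x i = 0 := by rw [hs]; exact hUV.2 i hi x hx
    simp [cart, h1, h2]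
  · rw [hd x hx, zero_mul]

theorem AG5_etaM_z (a : I → I → ℕ) (V : Finset I) (hs : ∀ i j, a i j = a j i) (f : ℕ) (d : I → ℚ)
    (hd : ∀ i, i ∉ V → d i = 0) (T : Trm I) (z : I) (hz : z ∉ V) :
    (T.etaM a (fun _ => f) d).E (z, f) = T.E (z, f) + ∑ v ∈ V, (a z v : ℚ) * d v := by
  rw [etaM_E, Finset.filter_true_of_mem (fun _ _ => rfl), sub_eq_add_neg, ← Finset.sum_neg_distrib]
  congr 1
  rw [← Finset.sum_subset (Finset.subset_univ V)]
  · apply Finset.sum_congr rfl
    intro x hx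
    have h1 : x ≠ z := fun h => hz (h ▸ hx)
    simp [cart, h1, hs x z, mul_comm]
  · intro x _ hx
    rw [hd x hx]
    simp

theorem TV_kill (a : I → I → ℕ) (hs : ∀ i j, a i j = a j i) (cd : CrossData a) (f : ℕ) (hf : 1 ≤ f)
    (U V : Finset I) (hU : FinT a U) (hV : FinT a V) (hUV : Sep a U V) (π : Pat I)
    (hπ : PatWide a cd U f π) (σ : I → ℕ) (hσ : ∀ v ∈ V, Side f (σ v)) (T : Trm I)
    (hT : RReg U T) (hTV : ∀ v ∈ V, FRegI U T v f (σ v)) (z : I) (hzU : z ∉ U) (hzV : z ∉ V)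
    (hzz : a z z = 0) (hN : ∀ l, 1 ≤ l → l ≠ f → l ≠ f + 1 → IsN (T.E (z, l)))
    (h0 : 0 ≤ T.E (z, f + 1))
    (hI2 : IsZ (T.E (z, f) + T.E (z, f + 1) - ∑ x ∈ U, (a z x : ℚ) * π.q x))
    (hcol : ∀ j, j ∉ U → ∀ l, 1 ≤ l → T.Λ j (z, l) ≠ 0 → l = f ∨ 0 < T.E (z, l))
    (heff : 0 < T.E (z, f) + ∑ v ∈ V, (a z v : ℚ) * solN a V (fun i => T.E (i, f)) v) :
    TV a (patT a U π T) = 0 := by
  obtain ⟨B, hB⟩ := fire_V a hs f hf V hV σ hσ T (fun v hv => (hTV v hv).int)
  have hfrob := frob_pat a hs U hU π hπ.toPatOk T hT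
  set S : ℚ := ∑ x ∈ U, (a z x : ℚ) * π.q x with hS
  set R : ℚ := ∑ x ∈ U, (a z x : ℚ) * π.q x * ((f : ℚ) - π.s x + 1) with hR
  set A : ℚ := ∑ v ∈ V, (a z v : ℚ) with hA
  have e1 : EvP (fun p => 1 ≤ p) := EvP.of_large 1 (fun p hp => hp)
  have e2 := EvP.sub_one_mul S
  have e3 := EvP.large_mul _ heff (1 + R + B * A)
  have e4 : EvP (fun p => 0 < T.E (z, f + 1) → 1 ≤ (p : ℚ) * T.E (z, f + 1)) := by
    by_cases h : 0 < T.E (z, f + 1)
    · exact (EvP.large_mul _ h 1).mono (fun p hp _ => hp)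
    · exact EvP.of_large 0 (fun p _ h' => absurd h' h)
  apply EvP.eq_zero
  refine (hfrob.and (e1.and (e2.and (e3.and e4)))).mono ?_
  rintro p ⟨hp0, hp1, hp2, hp3, hp4⟩
  obtain ⟨d, hd0, hd1, hd2⟩ := hB p hp1
  have hd0' : ∀ i, i ∉ V → ((d i : ℕ) : ℚ) = 0 := fun i hi => by rw [hd0 i hi]; simp
  have hX : TV a (patT a U π (T.pow p)) =
      TV a (patT a U π ((T.pow p).etaM a (fun _ => f) (fun i => (d i : ℚ)))) := by
    rw [patT_etaM_comm]
    apply hd1
    · intro v hv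
      exact FReg_patT a hs U V hUV π f (σ v) (T.pow p) v hv ((hTV v hv).pow p hp1)
    · intro v hv
      rw [AG5_patT_E_sep a U V hUV π _ v hv, AG5_pow_E]
  have hEU : ∀ x ∈ U, ∀ l, ((T.pow p).etaM a (fun _ => f) (fun i => (d i : ℚ))).E (x, l) =
      p * T.E (x, l) := by
    intro x hx l
    rw [AG5_etaM_sep a U V hUV hs f _ hd0' _ x hx, AG5_pow_E]
  have hEz : ∀ l, l ≠ f → ((T.pow p).etaM a (fun _ => f) (fun i => (d i : ℚ))).E (z, l) =
      p * T.E (z, l) := by
    intro l hl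
    rw [AG5_etaM_ne a f _ _ z l hl, AG5_pow_E]
  have hEf : ((T.pow p).etaM a (fun _ => f) (fun i => (d i : ℚ))).E (z, f) =
      p * T.E (z, f) + ∑ v ∈ V, (a z v : ℚ) * d v := by
    rw [AG5_etaM_z a V hs f _ hd0' _ z hzV, AG5_pow_E]
  have hzero : TV a (patT a U π (T.pow p)) = 0 := by
    rw [hX]
    refine TV_vanX a hs cd f hf U hU π hπ _ ⟨?_, ?_⟩ z hzU hzz ?_ ?_ ?_ ?_ ?_
    · intro x hx l hl
      rw [hEU x hx]
      exact AG5_IsN_mul (hT.nat x hx l hl)
    · intro x hx j hj l hl hne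
      rw [hEU x hx]
      exact AG5_one_le_mul hp1 (hT.col x hx j hj l hl hne)
    · intro l hl hlf hlf1
      rw [hEz l hlf]
      exact AG5_IsN_mul (hN l hl hlf hlf1)
    · rw [hEz (f + 1) (by omega)]
      positivity
    · rw [hEf, hEz (f + 1) (by omega)]
      have h1 : IsZ (∑ v ∈ V, (a z v : ℚ) * d v) :=
        ⟨∑ v ∈ V, (a z v : ℤ) * d v, by push_cast; rfl⟩
      have h2 := AG5_IsZ_add (AG5_IsZ_add (AG5_IsZ_mul (p := p) hI2) hp2) h1
      convert h2 using 1
      ring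
    · rw [hEf]
      have h1 : ∑ v ∈ V, (a z v : ℚ) * ((p : ℚ) * solN a V (fun i => T.E (i, f)) v - B) ≤
          ∑ v ∈ V, (a z v : ℚ) * d v := by
        apply Finset.sum_le_sum
        intro v hv
        exact mul_le_mul_of_nonneg_left (hd2 v hv) (Nat.cast_nonneg _)
      have h2 : ∑ v ∈ V, (a z v : ℚ) * ((p : ℚ) * solN a V (fun i => T.E (i, f)) v - B) =
          p * (∑ v ∈ V, (a z v : ℚ) * solN a V (fun i => T.E (i, f)) v) - B * A := by
        rw [hA, Finset.mul_sum, Finset.mul_sum, ← Finset.sum_sub_distrib]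
        apply Finset.sum_congr rfl
        intro v _
        ring
      rw [h2] at h1
      linarith
    · intro j hj l hl hne
      rcases hcol j hj l hl hne with h | h
      · exact Or.inl h
      · by_cases hlf : l = f
        · exact Or.inl hlf
        · refine Or.inr ?_
          rw [hEz l hlf]
          by_cases hlf1 : l = f + 1
          · subst hlf1
            exact hp4 h
          · obtain ⟨n, hn⟩ := hN l hl hlf hlf1
            rw [hn] at h ⊢
            have h5 : 1 ≤ n := by exact_mod_cast h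
            exact AG5_one_le_mul hp1 (by exact_mod_cast h5)
  rw [hzero, zero_sub] at hp0
  obtain ⟨r, hr, hpr⟩ := hp0
  refine ⟨-r, ?_, by linarith⟩
  unfold PI at hr ⊢
  rwa [Rat.den_neg_eq_den]

/-- firing of an outer vertex with hatted exponent `> 2` in presence of a wide pattern. -/
theorem fire_win (a : I → I → ℕ) (hs : ∀ i j, a i j = a j i) (cd : CrossData a) (f : ℕ) (hf : 1 ≤ f)
    (U : Finset I) (hU : FinT a U) (π : Pat I) (hπ : PatWide a cd U f π) (T : Trm I)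
    (hT : RReg U T) (z : I) (hzU : z ∉ U) (hzz : a z z = 0)
    (hN : ∀ l, 1 ≤ l → l ≠ f → l ≠ f + 1 → IsN (T.E (z, l))) (h0 : 0 ≤ T.E (z, f + 1))
    (hI2 : IsZ (T.E (z, f) + T.E (z, f + 1) - ∑ x ∈ U, (a z x : ℚ) * π.q x))
    (hcol : ∀ j, j ∉ U → ∀ l, 1 ≤ l → T.Λ j (z, l) ≠ 0 →
      l = f ∨ l = f + 1 ∨ l + 1 = f ∨ 0 < T.E (z, l))
    (hbig : 2 < T.E (z, f)) :
    TV a (patT a U π T) = TV a (patT a U π (T.eta a f (Pi.single z 1))) := by
  set T0 : Trm I := T.mulE (-((2 : ℚ) • sy z f)) with hT0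
  have hTT : T = T0.mulE ((2 : ℚ) • sy z f) := by
    simp [hT0, Trm.mulE]
  have hrel := TV_rel a hs (patT a U π T0) z f hf
  rw [← patT_mulE_comm, ← patT_mulE_comm, ← hTT] at hrel
  set T1 : Trm I := T0.mulE (sy z (f + 1) + sy z (f - 1)) with hT1
  have hE1 : ∀ i l, T1.E (i, l) = T.E (i, l) + (if i = z ∧ l = f + 1 then 1 else 0) +
      (if i = z ∧ l + 1 = f then 1 else 0) - (if i = z ∧ l = f then 2 else 0) := by
    intro i l
    simp only [hT1, hT0, Trm.mulE, Finsupp.add_apply, Finsupp.neg_apply, Finsupp.smul_apply,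
      Finsupp.single_apply, Prod.mk.injEq, smul_eq_mul]
    have c1 : (z = i ∧ f = l) ↔ (i = z ∧ l = f) := by
      constructor <;> rintro ⟨h1, h2⟩ <;> exact ⟨h1.symm, h2.symm⟩
    have c2 : (z = i ∧ f + 1 = l) ↔ (i = z ∧ l = f + 1) := by
      constructor <;> rintro ⟨h1, h2⟩ <;> exact ⟨h1.symm, h2.symm⟩
    have c3 : (z = i ∧ f - 1 = l) ↔ (i = z ∧ l + 1 = f) := by
      constructor
      · rintro ⟨h1, h2⟩
        exact ⟨h1.symm, by omega⟩
      · rintro ⟨h1, h2⟩
        exact ⟨h1.symm, by omega⟩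
    simp only [c1, c2, c3]
    split_ifs <;> ring
  have hz1 : TV a (patT a U π T1) = 0 := by
    have hEU : ∀ x ∈ U, ∀ l, T1.E (x, l) = T.E (x, l) := by
      intro x hx l
      have hxz : x ≠ z := fun h => hzU (h ▸ hx)
      rw [hE1]
      simp [hxz]
    have hne : ∀ l, 1 ≤ l → l ≠ f → l ≠ f + 1 → IsN (T1.E (z, l)) := by
      intro l hl hlf hlf1
      obtain ⟨n, hn⟩ := hN l hl hlf hlf1
      rw [hE1, hn]
      by_cases h : l + 1 = f
      · exact ⟨n + 1, by simp [hlf, hlf1, h]⟩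
      · exact ⟨n, by simp [hlf, hlf1, h]⟩
    have hEf : T1.E (z, f) = T.E (z, f) - 2 := by
      rw [hE1]
      simp
    have hEf1 : T1.E (z, f + 1) = T.E (z, f + 1) + 1 := by
      rw [hE1]
      have h3 : ¬ (f + 1 + 1 = f) := by omega
      simp [h3]
    refine TV_kill a hs cd f hf U ∅ hU (FinT.empty a) ⟨Finset.disjoint_empty_right _, by simp⟩ π hπ
      (fun _ => f + 1) (by simp) T1 ⟨?_, ?_⟩ (by simp) z hzU (by simp) hzz hne ?_ ?_ ?_ ?_
    · intro x hx l hl
      rw [hEU x hx]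
      exact hT.nat x hx l hl
    · intro x hx j hj l hl h
      rw [hEU x hx]
      exact hT.col x hx j hj l hl h
    · rw [hEf1]
      linarith
    · rw [hEf, hEf1]
      have h2 := AG5_IsZ_add hI2 (r := -1) ⟨-1, by norm_num⟩
      convert h2 using 1
      ring
    · intro j hj l hl h
      by_cases hlf : l = f
      · exact Or.inl hlf
      · refine Or.inr ?_
        by_cases hlf1 : l = f + 1
        · rw [hlf1, hEf1]
          linarith
        · obtain ⟨n, hn⟩ := hN l hl hlf hlf1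
          have hn0 : (0 : ℚ) ≤ n := Nat.cast_nonneg n
          rcases hcol j hj l hl h with h1 | h1 | h1 | h1
          · exact absurd h1 hlf
          · exact absurd h1 hlf1
          · rw [hE1, hn]
            simp only [hlf, hlf1, h1, and_false, and_true, if_true, if_false]
            linarith
          · rw [hE1]
            simp only [hlf, hlf1, and_false, if_false, true_and]
            split_ifs <;> linarith
    · rw [hEf]
      simp only [Finset.sum_empty, add_zero]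
      linarith
  rw [hrel, hz1, add_zero, eta_eq_etaM, eta_eq_etaM, patT_etaM_comm]

end

end Pool.Agent.H27.KAC
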