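import Pool.Agent.H41.KA.AG5

/-!
KAC ADE, module AG6: conversion of patterns to explicit insertions (X2).

Proof of `evU_conv`.  Both sides are `EvP`-congruent to the same expressions for `T.pow p` (`frob_evU`, `frob_expl`), so it
suffices to prove the identity for `T.pow p`, `p` a large prime `≡ 1` modulo `d` (`EvP.eq_zero`).  Fire `V` (`fire_V`; the same firing
is used for all patterns; for the explicit term argue in the same way), `T.pow p` becomes `T'` with a large exponent at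
`(z,f)`.  For every pattern `π` of the product: `TV (patT π T') = TV (patT π (T'.eta a f (Pi.single z 1)))`: by `TV_rel` the
difference is the value of `patT π (T'.mulE (sy z (f+1) + sy z (f-1) - 2 • sy z f))`, which vanishes by `TV_vanX` (the side symbol is
now compensated; `hI2` of `TV_vanX` follows from `hI2` and `cls`).  The term `T'' = T'.eta a f (Pi.single z 1)` has a kink at level `f` in
every block (`hadj`), so `evU_blk_head` and `BlkOk.knk` evaluate all blocks.  Finally undo the firing of `z`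
(`TV_fire1` for the explicit term) and of `V`.
-/

set_option autoImplicit false

namespace Pool.Agent.H27.KAC

open scoped BigOperators

section

variable {I : Type} [Fintype I] [DecidableEq I]

private theorem AG6_Zadd {x y : ℚ} (hx : IsZ x) (hy : IsZ y) : IsZ (x + y) := by
  obtain ⟨m, rfl⟩ := hx
  obtain ⟨n, rfl⟩ := hy
  exact ⟨m + n, by push_cast; ring⟩

private theorem AG6_Zneg {x : ℚ} (hx : IsZ x) : IsZ (-x) := by
  obtain ⟨m, rfl⟩ := hx
  exact ⟨-m, by push_cast; ring⟩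

private theorem AG6_Znmul {x : ℚ} (hx : IsZ x) (n : ℕ) : IsZ ((n : ℚ) * x) := by
  obtain ⟨m, rfl⟩ := hx
  exact ⟨n * m, by push_cast; ring⟩

private theorem AG6_Znat (n : ℕ) : IsZ (n : ℚ) := ⟨n, by push_cast; ring⟩

private theorem AG6_ZofN {x : ℚ} (hx : IsN x) : IsZ x := by
  obtain ⟨n, rfl⟩ := hx
  exact AG6_Znat n

private theorem AG6_Zsum {ι : Type} (s : Finset ι) (g : ι → ℚ) (h : ∀ i ∈ s, IsZ (g i)) :
    IsZ (∑ i ∈ s, g i) := by
  classical
  induction s using Finset.induction_on with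
  | empty =>
    rw [Finset.sum_empty]
    exact ⟨0, by simp⟩
  | insert i s hi ih =>
    rw [Finset.sum_insert hi]
    exact AG6_Zadd (h i (Finset.mem_insert_self i s))
      (ih (fun j hj => h j (Finset.mem_insert_of_mem hj)))

private theorem AG6_Nmul {x : ℚ} (hx : IsN x) (n : ℕ) : IsN ((n : ℚ) * x) := by
  obtain ⟨m, rfl⟩ := hx
  exact ⟨n * m, by push_cast; ring⟩

private theorem AG6_Nadd {x y : ℚ} (hx : IsN x) (hy : IsN y) : IsN (x + y) := by
  obtain ⟨m, rfl⟩ := hx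
  obtain ⟨n, rfl⟩ := hy
  exact ⟨m + n, by push_cast; ring⟩

private theorem AG6_Nge {x : ℚ} (hx : IsN x) : 0 ≤ x := by
  obtain ⟨m, rfl⟩ := hx
  exact Nat.cast_nonneg m

private theorem AG6_Npos {x : ℚ} (hx : IsN x) (h : 0 < x) : 1 ≤ x := by
  obtain ⟨m, rfl⟩ := hx
  have : 0 < m := by exact_mod_cast h
  exact_mod_cast this

private theorem AG6_cart (a : I → I → ℕ) {x y : I} (h : x ≠ y) :
    ((cart a x y : ℤ) : ℚ) = -(a x y : ℚ) := by
  unfold cart
  rw [if_neg h]
  push_cast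
  ring

private theorem AG6_pw {a : I → I → ℕ} {L : List (Blk I)}
    (hd : L.Pairwise (fun b c => Sep a b.B c.B)) :
    (L.map (fun b => (b.B, b.Φ))).Pairwise (fun b c => Sep a b.1 c.1) := by
  rw [List.pairwise_map]
  exact hd

private theorem AG6_pd {a : I → I → ℕ} {L : List (Blk I)}
    (hd : L.Pairwise (fun b c => Sep a b.B c.B)) :
    (L.map (fun b => (b.B, b.Φ))).Pairwise (fun b c => Disjoint b.1 c.1) :=
  (AG6_pw hd).imp (fun h => h.1)

private theorem AG6_sepU {a : I → I → ℕ} (A : Finset I) (L : List (Blk I))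
    (h : ∀ c ∈ L, Sep a A c.B) : Sep a A (uniB L) := by
  refine ⟨Finset.disjoint_left.2 ?_, ?_⟩
  · intro x hx hx'
    obtain ⟨c, hc, hxc⟩ := (mem_uniB L x).1 hx'
    exact Finset.disjoint_left.1 (h c hc).1 hx hxc
  · intro x hx y hy
    obtain ⟨c, hc, hyc⟩ := (mem_uniB L y).1 hy
    exact (h c hc).2 x hx y hyc

/-- patterns of the product are wide. -/
theorem PatWide_prod (a : I → I → ℕ) (hs : ∀ i j, a i j = a j i) (cd : CrossData a) (f : ℕ)
    (L : List (Blk I)) (hL : ∀ b ∈ L, BlkOk a cd f b) (hd : L.Pairwise (fun b c => Sep a b.B c.B))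
    (c : ℚ × Pat I) (hc : c ∈ prodF (L.map (fun b => (b.B, b.Φ)))) :
    PatWide a cd (uniB L) f c.2 := by
  have h := PatWide_prodF a hs cd f (L.map (fun b => (b.B, b.Φ))) (AG6_pw hd) (by
    intro b hb c hc
    obtain ⟨b', hb', rfl⟩ := List.mem_map.1 hb
    exact (hL b' hb').wide c hc) c hc
  rw [uni_map_blk] at h
  exact h

/-- blocks with kinks. -/
theorem evU_all_kink (a : I → I → ℕ) (hs : ∀ i j, a i j = a j i) (cd : CrossData a) (f : ℕ)
    (L : List (Blk I)) (hL : ∀ b ∈ L, BlkOk a cd f b) (hd : L.Pairwise (fun b c => Sep a b.B c.B))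
    (T : Trm I) (hT : RReg (uniB L) T) (hk : ∀ b ∈ L, Kink b.B f T) :
    evU a (L.map (fun b => (b.B, b.Φ))) T = (L.map Blk.cf).prod * TV a (expl a f L T) := by
  induction L generalizing T with
  | nil => rw [List.map_nil, List.map_nil, List.prod_nil, evU_nil, expl_nil, one_mul]
  | cons b L ih =>
    obtain ⟨hd1, hd2⟩ := List.pairwise_cons.1 hd
    have hbu : uniB (b :: L) = b.B ∪ uniB L := rfl
    have hsepU : Sep a b.B (uniB L) := AG6_sepU b.B L hd1
    have hT1 : RReg (b.B ∪ uniB L) T := by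
      rw [← hbu]
      exact hT
    have hT2 : RReg (uniB L ∪ b.B) T := by
      rw [Finset.union_comm]
      exact hT1
    have hdd : ((b.B, b.Φ) :: L.map (fun b => (b.B, b.Φ))).Pairwise
        (fun b c => Disjoint b.1 c.1) := by
      have := AG6_pd hd
      rw [List.map_cons] at this
      exact this
    have h1 := evU_blk_head a hs b.B b.Φ (L.map (fun b => (b.B, b.Φ))) hdd (by
      intro c hc
      obtain ⟨c', hc', rfl⟩ := List.mem_map.1 hc
      exact hd1 c' hc') b.cf f (b.sd f) b.q (hL b List.mem_cons_self).knk T (by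
      rw [uni_map_blk]
      exact hT1) (hk b List.mem_cons_self)
    have h2 := ih (fun c hc => hL c (List.mem_cons_of_mem b hc)) hd2
      (blkT a b.B f (b.sd f) b.q T) (RReg_blkT a hs (uniB L) b.B (hsepU.symm hs) f (b.sd f) b.q T hT2)
      (fun c hc => Kink_blkT a c.B b.B ((hd1 c hc).symm hs) hs f f (b.sd f) b.q T
        (hk c (List.mem_cons_of_mem b hc)))
    rw [List.map_cons, h1, h2, List.map_cons, List.prod_cons, mul_assoc, expl_cons,
      expl_blkT_comm a f L b.B hsepU.1 f (b.sd f) b.q T]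

/-- exponents after firing `V` in a power. -/
private theorem AG6_E (a : I → I → ℕ) (T : Trm I) (p : ℚ) (f : ℕ) (d : I → ℕ) (i : I) (l : ℕ) :
    ((T.pow p).etaM a (fun _ => f) (fun i => (d i : ℚ))).E (i, l) =
      p * T.E (i, l) - if l = f then ∑ x, (d x : ℚ) * (cart a x i : ℚ) else 0 := by
  rw [etaM_E]
  have h1 : (T.pow p).E (i, l) = p * T.E (i, l) := rfl
  rw [h1]
  by_cases h : l = f
  · subst h
    simp
  · have h' : ¬ f = l := fun e => h e.symm
    simp [h, h']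

/-- fired vertices not adjacent to `i`. -/
private theorem AG6_S0 (a : I → I → ℕ) (hs : ∀ i j, a i j = a j i) (U V : Finset I)
    (hUV : Sep a U V) (d : I → ℕ) (hd : ∀ i, i ∉ V → d i = 0) (x : I) (hx : x ∈ U) :
    ∑ y, (d y : ℚ) * (cart a y x : ℚ) = 0 := by
  apply Finset.sum_eq_zero
  intro y _
  by_cases hy : y ∈ V
  · have hne : y ≠ x := by
      rintro rfl
      exact Finset.disjoint_left.1 hUV.1 hx hy
    rw [AG6_cart a hne, hs y x, hUV.2 x hx y hy]
    simp
  · rw [hd y hy]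
    simp

private theorem AG6_Sz (a : I → I → ℕ) (hs : ∀ i j, a i j = a j i) (V : Finset I)
    (d : I → ℕ) (hd : ∀ i, i ∉ V → d i = 0) (z : I) (hz : z ∉ V) :
    ∑ y, (d y : ℚ) * (cart a y z : ℚ) = -∑ v ∈ V, (a z v : ℚ) * (d v : ℚ) := by
  rw [← Finset.sum_subset (Finset.subset_univ V) (fun y _ hy => by
    rw [hd y hy]
    simp), ← Finset.sum_neg_distrib]
  refine Finset.sum_congr rfl (fun y hy => ?_)
  have hne : y ≠ z := by
    rintro rfl
    exact hz hy
  rw [AG6_cart a hne, hs y z]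
  ring

private theorem AG6_cart0 (a : I → I → ℕ) (U V : Finset I)
    (hUV : Sep a U V) (x : I) (hx : x ∈ U) (v : I) (hv : v ∈ V) : (cart a x v : ℚ) = 0 := by
  have hne : x ≠ v := by
    rintro rfl
    exact Finset.disjoint_left.1 hUV.1 hx hv
  rw [AG6_cart a hne, hUV.2 x hx v hv]
  simp

private theorem AG6_RReg (a : I → I → ℕ) (hs : ∀ i j, a i j = a j i) (U V : Finset I)
    (hUV : Sep a U V) (T : Trm I) (hT : RReg U T) (p : ℕ) (hp : 1 ≤ p) (f : ℕ) (d : I → ℕ)
    (hd : ∀ i, i ∉ V → d i = 0) :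
    RReg U ((T.pow p).etaM a (fun _ => f) (fun i => (d i : ℚ))) := by
  have hE : ∀ x ∈ U, ∀ l, ((T.pow p).etaM a (fun _ => f) (fun i => (d i : ℚ))).E (x, l) =
      p * T.E (x, l) := by
    intro x hx l
    rw [AG6_E, AG6_S0 a hs U V hUV d hd x hx]
    simp
  refine ⟨?_, ?_⟩
  · intro x hx l hl
    rw [hE x hx l]
    exact AG6_Nmul (hT.nat x hx l hl) p
  · intro x hx j hj l hl hne
    rw [hE x hx l]
    have h1 := hT.col x hx j hj l hl hne
    have h2 : (1 : ℚ) ≤ p := by exact_mod_cast hp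
    nlinarith

private theorem AG6_cong (a : I → I → ℕ) (L : List (Blk I))
    (hd : L.Pairwise (fun b c => Sep a b.B c.B)) (z : I) (g : I → ℚ)
    (hg : ∀ b ∈ L, ∀ x ∈ b.B, IsZ (g x - b.q x)) :
    IsZ (∑ x ∈ uniB L, (a z x : ℚ) * g x -
      (L.map (fun b => ∑ x ∈ b.B, (a z x : ℚ) * b.q x)).sum) := by
  induction L with
  | nil => exact ⟨0, by simp [uniB]⟩
  | cons b L ih =>
    obtain ⟨hd1, hd2⟩ := List.pairwise_cons.1 hd
    have hbu : uniB (b :: L) = b.B ∪ uniB L := rfl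
    rw [hbu, Finset.sum_union (AG6_sepU b.B L hd1).1, List.map_cons, List.sum_cons]
    have h1 := ih hd2 (fun c hc => hg c (List.mem_cons_of_mem b hc))
    have h2 : IsZ (∑ x ∈ b.B, (a z x : ℚ) * (g x - b.q x)) :=
      AG6_Zsum _ _ (fun x hx => AG6_Znmul (hg b List.mem_cons_self x hx) _)
    have h3 := AG6_Zadd h2 h1
    have h4 : ∑ x ∈ b.B, (a z x : ℚ) * (g x - b.q x) =
        ∑ x ∈ b.B, (a z x : ℚ) * g x - ∑ x ∈ b.B, (a z x : ℚ) * b.q x := by
      rw [← Finset.sum_sub_distrib]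
      exact Finset.sum_congr rfl (fun x _ => by ring)
    rw [h4] at h3
    have h5 : ∑ x ∈ b.B, (a z x : ℚ) * g x + ∑ x ∈ uniB L, (a z x : ℚ) * g x -
        (∑ x ∈ b.B, (a z x : ℚ) * b.q x +
          (L.map (fun b => ∑ x ∈ b.B, (a z x : ℚ) * b.q x)).sum) =
        ∑ x ∈ b.B, (a z x : ℚ) * g x - ∑ x ∈ b.B, (a z x : ℚ) * b.q x +
        (∑ x ∈ uniB L, (a z x : ℚ) * g x -
          (L.map (fun b => ∑ x ∈ b.B, (a z x : ℚ) * b.q x)).sum) := by
      ring
    rw [h5]
    exact h3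

/-- insertion sums seen from a vertex outside. -/
private theorem AG6_mapneg (a : I → I → ℕ) (hs : ∀ i j, a i j = a j i) (L : List (Blk I)) (z : I)
    (hz : z ∉ uniB L) :
    (L.map (fun b => ∑ x ∈ b.B, b.q x * (cart a x z : ℚ))).sum =
      -(L.map (fun b => ∑ x ∈ b.B, (a z x : ℚ) * b.q x)).sum := by
  induction L with
  | nil => simp
  | cons b L ih =>
    have hz1 : z ∉ b.B := fun h => hz ((mem_uniB _ _).2 ⟨b, List.mem_cons_self, h⟩)
    have hz2 : z ∉ uniB L := by
      intro h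
      obtain ⟨c, hc, hzc⟩ := (mem_uniB _ _).1 h
      exact hz ((mem_uniB _ _).2 ⟨c, List.mem_cons_of_mem b hc, hzc⟩)
    rw [List.map_cons, List.map_cons, List.sum_cons, List.sum_cons, ih hz2, neg_add,
      ← Finset.sum_neg_distrib]
    congr 1
    refine Finset.sum_congr rfl (fun x hx => ?_)
    have hne : x ≠ z := by
      rintro rfl
      exact hz1 hx
    rw [AG6_cart a hne, hs x z]
    ring

private theorem AG6_map0 (a : I → I → ℕ) (L : List (Blk I)) (V : Finset I)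
    (hLV : Sep a (uniB L) V) (v : I) (hv : v ∈ V) :
    (L.map (fun b => ∑ x ∈ b.B, b.q x * (cart a x v : ℚ))).sum = 0 := by
  apply List.sum_eq_zero
  intro y hy
  obtain ⟨b, hb, rfl⟩ := List.mem_map.1 hy
  apply Finset.sum_eq_zero
  intro x hx
  rw [AG6_cart0 a (uniB L) V hLV x ((mem_uniB _ _).2 ⟨b, hb, hx⟩) v hv, mul_zero]

/-- columns of explicit terms at a vertex outside. -/
private theorem AG6_col (a : I → I → ℕ) (f : ℕ) (L : List (Blk I))
    (hd : L.Pairwise (fun b c => Sep a b.B c.B)) (T : Trm I) (z : I) (hz : z ∉ uniB L) (j : I)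
    (l : ℕ) (h : (expl a f L T).Λ j (z, l) ≠ 0) : j ∉ uniB L ∧ T.Λ j (z, l) ≠ 0 := by
  by_cases hj : j ∈ uniB L
  · exfalso
    obtain ⟨b, hb, hjb⟩ := (mem_uniB _ _).1 hj
    rw [expl_Λ_in a f L T (hd.imp (fun h => h.1)) b hb j hjb] at h
    apply h
    have hne : (j, b.sd f) ≠ (z, l) := by
      intro e
      exact hz ((Prod.mk.inj e).1 ▸ hj)
    exact Finsupp.single_eq_of_ne' hne
  · rw [expl_Λ_out a f L T j hj] at h
    exact ⟨hj, h⟩

private theorem AG6_main (a : I → I → ℕ) (hs : ∀ i j, a i j = a j i) (cd : CrossData a) (f : ℕ)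
    (hf : 1 ≤ f) (L : List (Blk I)) (hL : ∀ b ∈ L, BlkOk a cd f b)
    (hd : L.Pairwise (fun b c => Sep a b.B c.B)) (V : Finset I)
    (hLV : Sep a (uniB L) V) (z : I) (hzL : z ∉ uniB L) (hzV : z ∉ V) (hzz : a z z = 0)
    (hadj : ∀ b ∈ L, ∃ x ∈ b.B, 0 < a z x) (T : Trm I) (hT : RReg (uniB L) T) (σ : I → ℕ)
    (hTV : ∀ v ∈ V, FRegI (uniB L) T v f (σ v)) (σz : ℕ)
    (hσz : Side f σz) (hN : ∀ l, 1 ≤ l → l ≠ f → IsN (T.E (z, l)))
    (hI2 : IsZ (T.E (z, f) - (L.map (fun b => ∑ x ∈ b.B, (a z x : ℚ) * b.q x)).sum))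
    (hcol : ∀ j, j ∉ uniB L → ∀ l, 1 ≤ l → T.Λ j (z, l) ≠ 0 → l = f ∨ l = σz ∨ 0 < T.E (z, l))
    (p : ℕ) (hp : 1 ≤ p) (hpz : IsZ (((p : ℚ) - 1) * T.E (z, f))) (d : I → ℕ)
    (hd0 : ∀ i, i ∉ V → d i = 0)
    (hfire : ∀ X : Trm I, (∀ v ∈ V, FReg X v f (σ v)) →
      (∀ v ∈ V, X.E (v, f) = (p : ℚ) * T.E (v, f)) →
        TV a X = TV a (X.etaM a (fun _ => f) (fun i => (d i : ℚ))))
    (hb1 : 3 ≤ (p : ℚ) * T.E (z, f) + ∑ v ∈ V, (a z v : ℚ) * (d v : ℚ))
    (hb2 : 3 ≤ (p : ℚ) * T.E (z, f) + ∑ v ∈ V, (a z v : ℚ) * (d v : ℚ) -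
      (L.map (fun b => ∑ x ∈ b.B, (a z x : ℚ) * b.q x)).sum) :
    evU a (L.map (fun b => (b.B, b.Φ))) (T.pow p) =
      (L.map Blk.cf).prod * TV a (expl a f L (T.pow p)) := by
  classical
  have hp1 : (1 : ℚ) ≤ p := by exact_mod_cast hp
  obtain ⟨T', hT'⟩ : ∃ T' : Trm I, T' = (T.pow p).etaM a (fun _ => f) (fun i => (d i : ℚ)) :=
    ⟨_, rfl⟩
  obtain ⟨T'', hT''⟩ : ∃ T'' : Trm I, T'' = T'.eta a f (Pi.single z 1) := ⟨_, rfl⟩
  have hFL : FinT a (uniB L) := FinT_uniB a hs L (fun b hb => (hL b hb).fin) hd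
  have hReg' : RReg (uniB L) T' := by
    rw [hT']
    exact AG6_RReg a hs (uniB L) V hLV T hT p hp f d hd0
  -- exponents of the fired term
  have hEz : ∀ l, T'.E (z, l) = p * T.E (z, l) +
      if l = f then ∑ v ∈ V, (a z v : ℚ) * (d v : ℚ) else 0 := by
    intro l
    rw [hT', AG6_E, AG6_Sz a hs V d hd0 z hzV]
    split_ifs
    · ring
    · ring
  have hEzf : T'.E (z, f) = p * T.E (z, f) + ∑ v ∈ V, (a z v : ℚ) * (d v : ℚ) := by
    rw [hEz f, if_pos rfl]
  have hEzl : ∀ l, l ≠ f → T'.E (z, l) = p * T.E (z, l) := by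
    intro l hl
    rw [hEz l, if_neg hl, add_zero]
  have hEx : ∀ x ∈ uniB L, ∀ l, T'.E (x, l) = p * T.E (x, l) := by
    intro x hx l
    rw [hT', AG6_E, AG6_S0 a hs (uniB L) V hLV d hd0 x hx]
    simp
  have hΛ' : T'.Λ = T.Λ := by
    rw [hT']
    rfl
  have hdV : IsZ (∑ v ∈ V, (a z v : ℚ) * (d v : ℚ)) :=
    AG6_Zsum _ _ (fun v _ => AG6_Znmul (AG6_Znat _) _)
  -- step 1: fire `V` in the patterns
  have hstep1 : evU a (L.map (fun b => (b.B, b.Φ))) (T.pow p) =
      evU a (L.map (fun b => (b.B, b.Φ))) T'' := by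
    rw [evU_eq_evF a _ (AG6_pd hd), evU_eq_evF a _ (AG6_pd hd), uni_map_blk]
    unfold evF
    congr 1
    apply List.map_congr_left
    intro c hc
    congr 1
    have hw := PatWide_prod a hs cd f L hL hd c hc
    have h1 : TV a (patT a (uniB L) c.2 (T.pow p)) = TV a (patT a (uniB L) c.2 T') := by
      rw [hfire (patT a (uniB L) c.2 (T.pow p)) ?_ ?_, ← patT_etaM_comm, ← hT']
      · intro v hv
        exact FReg_patT a hs (uniB L) V hLV c.2 f (σ v) (T.pow p) v hv ((hTV v hv).pow p hp)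
      · intro v hv
        rw [patT_E]
        have h0 : ∑ x ∈ (uniB L).filter (fun x => c.2.s x = f), c.2.q x * (cart a x v : ℚ) = 0 := by
          apply Finset.sum_eq_zero
          intro x hx
          rw [AG6_cart0 a (uniB L) V hLV x (Finset.mem_filter.1 hx).1 v hv, mul_zero]
        rw [h0, add_zero]
        rfl
    rw [h1, hT'']
    apply fire_win a hs cd f hf (uniB L) hFL c.2 hw T' hReg' z hzL hzz
    · intro l hl hlf _
      rw [hEzl l hlf]
      exact AG6_Nmul (hN l hl hlf) p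
    · rw [hEzl (f + 1) (by omega)]
      exact mul_nonneg (Nat.cast_nonneg p) (AG6_Nge (hN (f + 1) (by omega) (by omega)))
    · have h2 := AG6_cong a L hd z c.2.q (by
        intro b hb x hx
        obtain ⟨e, he, hex⟩ := prodF_mem _ (AG6_pd hd) c hc (b.B, b.Φ)
          (List.mem_map.2 ⟨b, hb, rfl⟩)
        rw [(hex x hx).2]
        exact (hL b hb).cls e he x hx)
      have h3 : IsZ (T'.E (z, f + 1)) := by
        rw [hEzl (f + 1) (by omega)]
        exact AG6_ZofN (AG6_Nmul (hN (f + 1) (by omega) (by omega)) p)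
      have h4 := AG6_Zadd (AG6_Zadd (AG6_Zadd (AG6_Zadd hpz hI2) hdV) h3) (AG6_Zneg h2)
      have h5 : T'.E (z, f) + T'.E (z, f + 1) - ∑ x ∈ uniB L, (a z x : ℚ) * c.2.q x =
          ((p : ℚ) - 1) * T.E (z, f) +
          (T.E (z, f) - (L.map (fun b => ∑ x ∈ b.B, (a z x : ℚ) * b.q x)).sum) +
          ∑ v ∈ V, (a z v : ℚ) * (d v : ℚ) + T'.E (z, f + 1) +
          -(∑ x ∈ uniB L, (a z x : ℚ) * c.2.q x -
            (L.map (fun b => ∑ x ∈ b.B, (a z x : ℚ) * b.q x)).sum) := by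
        rw [hEzf]
        ring
      rw [h5]
      exact h4
    · intro j hj l hl hne
      rw [hΛ'] at hne
      rcases hcol j hj l hl hne with h | h | h
      · exact Or.inl h
      · rcases hσz with h' | h'
        · exact Or.inr (Or.inl (by omega))
        · exact Or.inr (Or.inr (Or.inl (by omega)))
      · by_cases hlf : l = f
        · exact Or.inl hlf
        · refine Or.inr (Or.inr (Or.inr ?_))
          rw [hEzl l hlf]
          exact mul_pos (by linarith) h
    · rw [hEzf]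
      linarith
  -- step 2: all blocks have kinks
  have hE'' : ∀ i l, T''.E (i, l) = T'.E (i, l) - if l = f then (cart a z i : ℚ) else 0 := by
    intro i l
    rw [hT'', eta_eq_etaM, etaM_E]
    by_cases h : l = f
    · subst h
      simp [Pi.single_apply]
    · have h' : ¬ f = l := fun e => h e.symm
      simp [h, h']
  have hEx'' : ∀ x ∈ uniB L, ∀ l, T''.E (x, l) = T'.E (x, l) +
      if l = f then (a z x : ℚ) else 0 := by
    intro x hx l
    have hne : z ≠ x := by
      rintro rfl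
      exact hzL hx
    rw [hE'', AG6_cart a hne]
    split_ifs
    · ring
    · ring
  have hΛ'' : T''.Λ = T'.Λ := by
    rw [hT'']
    rfl
  have hReg'' : RReg (uniB L) T'' := by
    refine ⟨?_, ?_⟩
    · intro x hx l hl
      rw [hEx'' x hx l]
      apply AG6_Nadd (hReg'.nat x hx l hl)
      split_ifs
      · exact ⟨_, rfl⟩
      · exact ⟨0, by simp⟩
    · intro x hx j hj l hl hne
      rw [hΛ''] at hne
      have h1 := hReg'.col x hx j hj l hl hne
      rw [hEx'' x hx l]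
      have h2 : (0 : ℚ) ≤ if l = f then (a z x : ℚ) else 0 := by
        split_ifs
        · exact Nat.cast_nonneg _
        · exact le_rfl
      linarith
  have hkink : ∀ b ∈ L, Kink b.B f T'' := by
    intro b hb
    obtain ⟨x, hx, hax⟩ := hadj b hb
    have hxU : x ∈ uniB L := (mem_uniB _ _).2 ⟨b, hb, hx⟩
    refine ⟨x, hx, ?_⟩
    rw [hEx'' x hxU f, if_pos rfl]
    have h1 := AG6_Nge (hReg'.nat x hxU f hf)
    have h2 : (1 : ℚ) ≤ a z x := by exact_mod_cast hax
    linarith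
  have hstep2 := evU_all_kink a hs cd f L hL hd T'' hReg'' hkink
  -- step 3: undo the firing in the explicit term
  have hexz : ∀ l, (expl a f L T').E (z, l) = T'.E (z, l) - if l = f then
      (L.map (fun b => ∑ x ∈ b.B, (a z x : ℚ) * b.q x)).sum else 0 := by
    intro l
    rw [expl_E, AG6_mapneg a hs L z hzL]
    split_ifs
    · ring
    · ring
  have hFz : FReg (expl a f L T') z f σz := by
    refine ⟨?_, ?_, ?_⟩
    · intro l hl hlf
      rw [hexz l, if_neg hlf, sub_zero, hEzl l hlf]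
      exact AG6_Nmul (hN l hl hlf) p
    · rw [hexz f, if_pos rfl, hEzf]
      have h4 := AG6_Zadd (AG6_Zadd hpz hI2) hdV
      have h5 : (p : ℚ) * T.E (z, f) + ∑ v ∈ V, (a z v : ℚ) * (d v : ℚ) -
          (L.map (fun b => ∑ x ∈ b.B, (a z x : ℚ) * b.q x)).sum =
          ((p : ℚ) - 1) * T.E (z, f) +
          (T.E (z, f) - (L.map (fun b => ∑ x ∈ b.B, (a z x : ℚ) * b.q x)).sum) +
          ∑ v ∈ V, (a z v : ℚ) * (d v : ℚ) := by
        ring
      rw [h5]
      exact h4
    · intro j l hl hne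
      obtain ⟨hj, hne'⟩ := AG6_col a f L hd T' z hzL j l hne
      rw [hΛ'] at hne'
      by_cases hlf : l = f
      · exact Or.inr (Or.inl hlf)
      · rcases hcol j hj l hl hne' with h | h | h
        · exact Or.inr (Or.inl h)
        · exact Or.inl h
        · refine Or.inr (Or.inr ?_)
          rw [hexz l, if_neg hlf, sub_zero, hEzl l hlf]
          have h1 := AG6_Npos (hN l hl hlf) h
          nlinarith
  have hstep3 : TV a (expl a f L T') = TV a (expl a f L T'') := by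
    rw [TV_fire1 a hs (expl a f L T') z hzz f σz hf hσz hFz (by
      rw [hexz f, if_pos rfl, hEzf]
      exact hb2), hT'', eta_eq_etaM, eta_eq_etaM, expl_etaM_comm]
  -- step 4: fire `V` in the explicit term
  have hstep4 : TV a (expl a f L (T.pow p)) = TV a (expl a f L T') := by
    rw [hfire (expl a f L (T.pow p)) ?_ ?_, ← expl_etaM_comm, ← hT']
    · intro v hv
      have hvL : v ∉ uniB L := fun h => Finset.disjoint_left.1 hLV.1 h hv
      have hFv := (hTV v hv).pow p hp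
      have hEv : ∀ l, (expl a f L (T.pow p)).E (v, l) = (T.pow p).E (v, l) := by
        intro l
        rw [expl_E, AG6_map0 a L V hLV v hv]
        simp
      refine ⟨?_, ?_, ?_⟩
      · intro l hl hlf
        rw [hEv l]
        exact hFv.nat l hl hlf
      · rw [hEv f]
        exact hFv.int
      · intro j l hl hne
        obtain ⟨hj, hne'⟩ := AG6_col a f L hd (T.pow p) v hvL j l hne
        rw [hEv l]
        exact hFv.col j hj l hl hne'
    · intro v hv
      rw [expl_E, AG6_map0 a L V hLV v hv]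
      simp only [ite_self, add_zero]
      rfl
  rw [hstep1, hstep2, hstep4, hstep3]

theorem evU_conv (a : I → I → ℕ) (hs : ∀ i j, a i j = a j i) (cd : CrossData a) (f : ℕ)
    (hf : 1 ≤ f) (L : List (Blk I)) (hL : ∀ b ∈ L, BlkOk a cd f b)
    (hd : L.Pairwise (fun b c => Sep a b.B c.B)) (V : Finset I) (hV : FinT a V)
    (hLV : Sep a (uniB L) V) (z : I) (hzL : z ∉ uniB L) (hzV : z ∉ V) (hzz : a z z = 0)
    (hadj : ∀ b ∈ L, ∃ x ∈ b.B, 0 < a z x) (T : Trm I) (hT : RReg (uniB L) T) (σ : I → ℕ)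
    (hσ : ∀ v ∈ V, Side f (σ v)) (hTV : ∀ v ∈ V, FRegI (uniB L) T v f (σ v)) (σz : ℕ)
    (hσz : Side f σz) (hN : ∀ l, 1 ≤ l → l ≠ f → IsN (T.E (z, l)))
    (hI2 : IsZ (T.E (z, f) - (L.map (fun b => ∑ x ∈ b.B, (a z x : ℚ) * b.q x)).sum))
    (hcol : ∀ j, j ∉ uniB L → ∀ l, 1 ≤ l → T.Λ j (z, l) ≠ 0 → l = f ∨ l = σz ∨ 0 < T.E (z, l))
    (heff : 0 < T.E (z, f) + ∑ v ∈ V, (a z v : ℚ) * solN a V (fun i => T.E (i, f)) v) :
    evU a (L.map (fun b => (b.B, b.Φ))) T = (L.map Blk.cf).prod * TV a (expl a f L T) := by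
  classical
  rw [← sub_eq_zero]
  apply EvP.eq_zero
  obtain ⟨B, hB⟩ := fire_V a hs f hf V hV σ hσ T (fun v hv => (hTV v hv).int)
  set S : ℚ := (L.map (fun b => ∑ x ∈ b.B, (a z x : ℚ) * b.q x)).sum with hS
  set A : ℚ := ∑ v ∈ V, (a z v : ℚ) with hA
  have hfin : ∀ b ∈ L, FinT a b.B := fun b hb => (hL b hb).fin
  have hFL : FinT a (uniB L) := FinT_uniB a hs L hfin hd
  have e1 := frob_evU a hs (L.map (fun b => (b.B, b.Φ))) (by
    rw [uni_map_blk]
    exact hFL) (AG6_pd hd) (by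
    intro c hc
    rw [uni_map_blk]
    exact (PatWide_prod a hs cd f L hL hd c hc).toPatOk) T (by
    rw [uni_map_blk]
    exact hT)
  have e2 := frob_expl a hs f hf L hfin (fun b hb => (hL b hb).qok) hd T hT
  have e3 := EvP.PI (L.map Blk.cf).prod
  have e4 := EvP.sub_one_mul (T.E (z, f))
  have e5 := EvP.large_mul _ heff (3 + B * A)
  have e6 := EvP.large_mul _ heff (3 + B * A + S)
  refine (EvP.prime.and (e1.and (e2.and (e3.and (e4.and (e5.and e6)))))).mono ?_
  rintro p ⟨hp, h1, h2, h3, h4, h5, h6⟩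
  have hp1 : 1 ≤ p := hp.one_lt.le
  obtain ⟨d, hd0, hfire, hdge⟩ := hB p hp1
  have hge : (p : ℚ) * (T.E (z, f) + ∑ v ∈ V, (a z v : ℚ) * solN a V (fun i => T.E (i, f)) v) -
      B * A ≤ (p : ℚ) * T.E (z, f) + ∑ v ∈ V, (a z v : ℚ) * (d v : ℚ) := by
    have h7 : ∑ v ∈ V, (a z v : ℚ) * ((p : ℚ) * solN a V (fun i => T.E (i, f)) v - B) ≤
        ∑ v ∈ V, (a z v : ℚ) * (d v : ℚ) :=
      Finset.sum_le_sum (fun v hv => mul_le_mul_of_nonneg_left (hdge v hv) (Nat.cast_nonneg _))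
    have h8 : ∑ v ∈ V, (a z v : ℚ) * ((p : ℚ) * solN a V (fun i => T.E (i, f)) v - B) =
        (p : ℚ) * ∑ v ∈ V, (a z v : ℚ) * solN a V (fun i => T.E (i, f)) v - B * A := by
      rw [hA, Finset.mul_sum, Finset.mul_sum, ← Finset.sum_sub_distrib]
      exact Finset.sum_congr rfl (fun v _ => by ring)
    rw [h8] at h7
    linarith
  have hmain := AG6_main a hs cd f hf L hL hd V hLV z hzL hzV hzz hadj T hT σ hTV σz hσz hN hI2
    hcol p hp1 h4 d hd0 hfire (by linarith) (by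
      rw [← hS]
      linarith)
  have hfinal : evU a (L.map (fun b => (b.B, b.Φ))) T -
      (L.map Blk.cf).prod * TV a (expl a f L T) =
      -(evU a (L.map (fun b => (b.B, b.Φ))) (T.pow p) - evU a (L.map (fun b => (b.B, b.Φ))) T) +
      (L.map Blk.cf).prod * (TV a (expl a f L (T.pow p)) - TV a (expl a f L T)) := by
    rw [hmain]
    ring
  rw [hfinal]
  exact PD_add hp (PD_neg h1) (PD_mul hp h2 h3)

end

end Pool.Agent.H27.KAC
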