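import Pool.Agent.H41.KA.AG6
import Pool.Agent.H41.KA.AE8

/-!
KAC ADE, module AG7: outer vertices of raw terms and of kinked blocks.

`raw_eff_outer`: with `N = {y ∈ A | m y = 0}`, `M = A ∖ N`, `δ = m - q` (positive on `M`), the exponents of the raw term on `N` at level
`f` are `T.E + C_N q + a_NM δ_M`, so `solN = q + C_N^{-1}(T.E + a_NM δ_M)`; hence the effective exponent of the outer vertex `z` is
`T.E (z,f) + a_zM δ_M + a_zN C_N^{-1}(T.E + a_NM δ_M)`.  It is positive: `z` is adjacent to some `y ∈ A`; if `y ∈ N`, its component in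
`N` is adjacent to `M` (`comps_adj_set`, `solN_component`, `solN_pos`).

`raw_kill`, `raw_conv`: for `m` with some `m y ≠ 0`, `m y ≤ q y` all values are zero by `raw_pos` (all maps commute with `rawT`;
`RReg A` of the filled term by `RReg_patT`, `RReg_expl`); for the other `m` use `TV_kill`, `evU_conv` with
`V = {y ∈ A | m y = 0}`, `σ = f - 1`.
`kink_kill`, `kink_conv`: `TV_kill`, `evU_conv` with `V = A`; the effective exponent of `z` is
`T.E (z,f) + a_zA C_A^{-1} T.E > 0`.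
-/

set_option autoImplicit false

namespace Pool.Agent.H27.KAC

open scoped BigOperators

section

variable {I : Type} [Fintype I] [DecidableEq I]

private theorem AG7_isZ_add {p q : ℚ} (hp : IsZ p) (hq : IsZ q) : IsZ (p + q) := by
  obtain ⟨m, rfl⟩ := hp
  obtain ⟨n, rfl⟩ := hq
  exact ⟨m + n, by push_cast; ring⟩

private theorem AG7_isZ_sub {p q : ℚ} (hp : IsZ p) (hq : IsZ q) : IsZ (p - q) := by
  obtain ⟨m, rfl⟩ := hp
  obtain ⟨n, rfl⟩ := hq
  exact ⟨m - n, by push_cast; ring⟩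

private theorem AG7_isZ_mul {p q : ℚ} (hp : IsZ p) (hq : IsZ q) : IsZ (p * q) := by
  obtain ⟨m, rfl⟩ := hp
  obtain ⟨n, rfl⟩ := hq
  exact ⟨m * n, by push_cast; ring⟩

private theorem AG7_isZ_sum {ι : Type} (s : Finset ι) (g : ι → ℚ) (h : ∀ i ∈ s, IsZ (g i)) :
    IsZ (∑ i ∈ s, g i) := by
  refine Finset.sum_induction g IsZ (fun _ _ => AG7_isZ_add) ⟨0, by simp⟩ h

private theorem AG7_isZ_int (n : ℤ) : IsZ (n : ℚ) := ⟨n, rfl⟩

private theorem AG7_isZ_nat (n : ℕ) : IsZ (n : ℚ) := ⟨n, by simp⟩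

private theorem AG7_isZ_isN {p : ℚ} (h : IsN p) : IsZ p := by
  obtain ⟨n, rfl⟩ := h
  exact AG7_isZ_nat n

private theorem AG7_isN_nonneg {p : ℚ} (h : IsN p) : 0 ≤ p := by
  obtain ⟨n, rfl⟩ := h
  positivity

private theorem AG7_isZ_congr {p q : ℚ} (hp : IsZ p) (h : IsZ (q - p)) : IsZ q := by
  have := AG7_isZ_add hp h
  rwa [add_sub_cancel] at this

omit [Fintype I] in
private theorem AG7_cart_ne (a : I → I → ℕ) {x z : I} (h : x ≠ z) :
    (cart a x z : ℚ) = -(a x z : ℚ) := by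
  simp [cart, h]

omit [Fintype I] in
private theorem AG7_cart_symm (a : I → I → ℕ) (hs : ∀ i j, a i j = a j i) (x y : I) :
    cart a x y = cart a y x := by
  unfold cart
  rw [hs x y]
  simp only [eq_comm]

private theorem AG7_cE_ne (a : I → I → ℕ) (x v : I) {k l : ℕ} (h : l ≠ k) :
    cE a x k (v, l) = 0 := by
  unfold cE
  rw [Finsupp.finsetSum_apply]
  refine Finset.sum_eq_zero fun j _ => ?_
  rw [Finsupp.smul_apply, Finsupp.single_apply, if_neg, smul_zero]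
  rintro h1
  exact h (congrArg Prod.snd h1).symm

omit [Fintype I] [DecidableEq I] in
private theorem AG7_sy_lev {x v : I} {k l : ℕ} (h : (sy x k : QE I) (v, l) ≠ 0) : x = v ∧ l = k := by
  classical
  rw [Finsupp.single_apply] at h
  by_contra h2
  apply h
  rw [if_neg]
  intro h3
  exact h2 ⟨congrArg Prod.fst h3, (congrArg Prod.snd h3).symm⟩

private theorem AG7_raw_Λ (a : I → I → ℕ) (A : Finset I) (f : ℕ) (q : I → ℚ) (m : I → ℕ)
    (T : Trm I) (j : I) : (rawT a A f q m T).Λ j =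
      if j ∈ A then (if m j = 0 then sy j (f - 1) else cE a j f) else T.Λ j := rfl

private theorem AG7_blk_Λ (a : I → I → ℕ) (A : Finset I) (f σ : ℕ) (q : I → ℚ)
    (T : Trm I) (j : I) : (blkT a A f σ q T).Λ j = if j ∈ A then sy j σ else T.Λ j := rfl

private theorem AG7_raw_E_ne (a : I → I → ℕ) (A : Finset I) (f : ℕ) (q : I → ℚ) (m : I → ℕ)
    (T : Trm I) (i : I) {l : ℕ} (h : l ≠ f) : (rawT a A f q m T).E (i, l) = T.E (i, l) := by
  rw [rawT_E, if_neg h, sub_zero]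

private theorem AG7_blk_E_ne (a : I → I → ℕ) (A : Finset I) (f σ : ℕ) (q : I → ℚ)
    (T : Trm I) (i : I) {l : ℕ} (h : l ≠ f) : (blkT a A f σ q T).E (i, l) = T.E (i, l) := by
  rw [blkT_E, if_neg h, add_zero]

/-- exponents of the raw term outside of `A` -/
private theorem AG7_raw_E_out (a : I → I → ℕ) (hs : ∀ i j, a i j = a j i) (A : Finset I) (f : ℕ)
    (q : I → ℚ) (m : I → ℕ) (T : Trm I) {z : I} (hz : z ∉ A) :
    (rawT a A f q m T).E (z, f) = T.E (z, f) + ∑ x ∈ A, ((m x : ℚ) - q x) * (a z x : ℚ) := by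
  rw [rawT_E, if_pos rfl, sub_eq_add_neg, ← Finset.sum_neg_distrib]
  congr 1
  refine Finset.sum_congr rfl fun x hx => ?_
  have hne : x ≠ z := fun h => hz (h ▸ hx)
  rw [AG7_cart_ne a hne, hs x z]
  ring

private theorem AG7_blk_E_out (a : I → I → ℕ) (hs : ∀ i j, a i j = a j i) (A : Finset I) (f σ : ℕ)
    (q : I → ℚ) (T : Trm I) {z : I} (hz : z ∉ A) :
    (blkT a A f σ q T).E (z, f) = T.E (z, f) - ∑ x ∈ A, (a z x : ℚ) * q x := by
  rw [blkT_E, if_pos rfl, sub_eq_add_neg, ← Finset.sum_neg_distrib]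
  congr 1
  refine Finset.sum_congr rfl fun x hx => ?_
  have hne : x ≠ z := fun h => hz (h ▸ hx)
  rw [AG7_cart_ne a hne, hs x z]
  ring

private theorem AG7_blk_E_in (a : I → I → ℕ) (hs : ∀ i j, a i j = a j i) (A : Finset I) (f σ : ℕ)
    (q : I → ℚ) (T : Trm I) (i : I) :
    (blkT a A f σ q T).E (i, f) = T.E (i, f) + cqN a A q i := by
  rw [blkT_E, if_pos rfl]
  congr 1
  unfold cqN
  refine Finset.sum_congr rfl fun x _ => ?_
  rw [AG7_cart_symm a hs x i]
  ring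

private theorem AG7_raw_E_in (a : I → I → ℕ) (hs : ∀ i j, a i j = a j i) (A : Finset I) (f : ℕ)
    (q : I → ℚ) (m : I → ℕ) (T : Trm I) (i : I) :
    (rawT a A f q m T).E (i, f) =
      T.E (i, f) - ∑ x ∈ A, (cart a i x : ℚ) * ((m x : ℚ) - q x) := by
  rw [rawT_E, if_pos rfl]
  congr 1
  refine Finset.sum_congr rfl fun x _ => ?_
  rw [AG7_cart_symm a hs x i]
  ring

/-- the exponents on `N` -/
private theorem AG7_raw_E_N (a : I → I → ℕ) (hs : ∀ i j, a i j = a j i) (A : Finset I) (f : ℕ)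
    (q : I → ℚ) (m : I → ℕ) (T : Trm I) (i : I) (hi : i ∈ A.filter (fun v => m v = 0)) :
    (rawT a A f q m T).E (i, f) = cqN a (A.filter (fun v => m v = 0)) q i +
      (T.E (i, f) + ∑ x ∈ A.filter (fun v => ¬ m v = 0), (a i x : ℚ) * ((m x : ℚ) - q x)) := by
  have hi2 : m i = 0 := (Finset.mem_filter.1 hi).2
  rw [AG7_raw_E_in a hs, ← Finset.sum_filter_add_sum_filter_not A (fun v => m v = 0)]
  have e1 : ∑ x ∈ A.filter (fun v => m v = 0), (cart a i x : ℚ) * ((m x : ℚ) - q x) =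
      - cqN a (A.filter (fun v => m v = 0)) q i := by
    unfold cqN
    rw [← Finset.sum_neg_distrib]
    refine Finset.sum_congr rfl fun x hx => ?_
    rw [(Finset.mem_filter.1 hx).2]
    push_cast
    ring
  have e2 : ∑ x ∈ A.filter (fun v => ¬ m v = 0), (cart a i x : ℚ) * ((m x : ℚ) - q x) =
      - ∑ x ∈ A.filter (fun v => ¬ m v = 0), (a i x : ℚ) * ((m x : ℚ) - q x) := by
    rw [← Finset.sum_neg_distrib]
    refine Finset.sum_congr rfl fun x hx => ?_
    have hne : i ≠ x := fun h => (Finset.mem_filter.1 hx).2 (h ▸ hi2)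
    rw [AG7_cart_ne a hne]
    ring
  rw [e1, e2]
  ring

/-- the solution of the exponents of a sum with an explicit part -/
private theorem AG7_sol_split (a : I → I → ℕ) (hs : ∀ i j, a i j = a j i) {N : Finset I}
    (hN : FinT a N) (q b b' : I → ℚ) (h : ∀ i ∈ N, b' i = cqN a N q i + b i) :
    ∀ v ∈ N, solN a N b' v = q v + solN a N b v := by
  intro v hv
  rw [solN_congr hs hN b' (fun i => cqN a N q i + b i) h, solN_add hs hN, solN_cqN hs hN q v hv]

theorem raw_eff_outer (a : I → I → ℕ) (hs : ∀ i j, a i j = a j i) (A : Finset I) (hA : FinT a A)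
    (hc : ConnS a A) (f : ℕ) (hf : 1 ≤ f) (q : I → ℚ) (hq : QOk a A q) (T : Trm I)
    (hT : ∀ x ∈ A, IsN (T.E (x, f))) (m : I → ℕ) (hgood : ∀ y ∈ A, m y ≠ 0 → q y < m y) (hne : ∃ y ∈ A, m y ≠ 0) (z : I)
    (hz : z ∉ A) (hadj : ∃ y ∈ A, 0 < a z y) (hE : 0 ≤ T.E (z, f)) :
    0 < (rawT a A f q m T).E (z, f) +
      ∑ v ∈ A.filter (fun v => m v = 0), (a z v : ℚ) *
        solN a (A.filter (fun v => m v = 0)) (fun i => (rawT a A f q m T).E (i, f)) v := by
  classical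
  set N : Finset I := A.filter (fun v => m v = 0) with hNdef
  set M : Finset I := A.filter (fun v => ¬ m v = 0) with hMdef
  have hNA : N ⊆ A := Finset.filter_subset _ _
  have hMA : M ⊆ A := Finset.filter_subset _ _
  have hN : FinT a N := hA.mono hNA
  set b : I → ℚ := fun i => T.E (i, f) + ∑ x ∈ M, (a i x : ℚ) * ((m x : ℚ) - q x) with hb
  have hδ : ∀ x ∈ M, 0 < (m x : ℚ) - q x := by
    intro x hx
    have h1 := hgood x (hMA hx) (Finset.mem_filter.1 hx).2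
    linarith
  have hb0 : ∀ i ∈ N, 0 ≤ b i := by
    intro i hi
    have h1 : 0 ≤ T.E (i, f) := AG7_isN_nonneg (hT i (hNA hi))
    have h2 : 0 ≤ ∑ x ∈ M, (a i x : ℚ) * ((m x : ℚ) - q x) :=
      Finset.sum_nonneg fun x hx => mul_nonneg (by positivity) (hδ x hx).le
    exact add_nonneg h1 h2
  have hsol : ∀ v ∈ N, solN a N (fun i => (rawT a A f q m T).E (i, f)) v =
      q v + solN a N b v :=
    AG7_sol_split a hs hN q b _ (fun i hi => AG7_raw_E_N a hs A f q m T i hi)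
  have e1 : (rawT a A f q m T).E (z, f) +
      ∑ v ∈ N, (a z v : ℚ) * solN a N (fun i => (rawT a A f q m T).E (i, f)) v =
      T.E (z, f) + ∑ x ∈ M, ((m x : ℚ) - q x) * (a z x : ℚ) +
        ∑ v ∈ N, (a z v : ℚ) * solN a N b v := by
    rw [AG7_raw_E_out a hs A f q m T hz, ← Finset.sum_filter_add_sum_filter_not A (fun v => m v = 0)]
    have e2 : ∑ v ∈ N, (a z v : ℚ) * solN a N (fun i => (rawT a A f q m T).E (i, f)) v =
        ∑ v ∈ N, (a z v : ℚ) * solN a N b v - ∑ v ∈ N, ((m v : ℚ) - q v) * (a z v : ℚ) := by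
      rw [← Finset.sum_sub_distrib]
      refine Finset.sum_congr rfl fun v hv => ?_
      rw [hsol v hv, (Finset.mem_filter.1 hv).2]
      push_cast
      ring
    rw [e2]
    ring
  rw [e1]
  have h2 : 0 ≤ ∑ x ∈ M, ((m x : ℚ) - q x) * (a z x : ℚ) :=
    Finset.sum_nonneg fun x hx => mul_nonneg (hδ x hx).le (by positivity)
  have h3 : 0 ≤ ∑ v ∈ N, (a z v : ℚ) * solN a N b v :=
    Finset.sum_nonneg fun v _ => mul_nonneg (by positivity) (solN_nonneg hs hN b hb0 v)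
  obtain ⟨y, hy, hay⟩ := hadj
  have hay' : (0 : ℚ) < (a z y : ℚ) := by exact_mod_cast hay
  by_cases hmy : m y = 0
  · have hyN : y ∈ N := Finset.mem_filter.2 ⟨hy, hmy⟩
    have hMne : M.Nonempty := by
      obtain ⟨x, hx, hx2⟩ := hne
      exact ⟨x, Finset.mem_filter.2 ⟨hx, hx2⟩⟩
    have hAM : A \ M = N := by
      ext x
      simp only [hNdef, hMdef, Finset.mem_sdiff, Finset.mem_filter]
      tauto
    obtain ⟨K, hK, hyK⟩ := comps_cover hs y hyN
    have hK' : K ∈ comps a (A \ M) := by rw [hAM]; exact hK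
    obtain ⟨y', hy', x, hx, hax⟩ := comps_adj_set hs hc hMA hMne K hK'
    have hKN : K ⊆ N := comps_subset hK
    have hbK : ∀ i ∈ K, 0 ≤ b i := fun i hi => hb0 i (hKN hi)
    have hby' : b y' ≠ 0 := by
      have g1 : 0 ≤ T.E (y', f) := AG7_isN_nonneg (hT y' (hNA (hKN hy')))
      have g2 : 0 < ∑ x ∈ M, (a y' x : ℚ) * ((m x : ℚ) - q x) := by
        refine Finset.sum_pos' (fun x hx => mul_nonneg (by positivity) (hδ x hx).le) ⟨x, hx, ?_⟩
        have : (0 : ℚ) < (a y' x : ℚ) := by rw [hs y' x]; exact_mod_cast hax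
        exact mul_pos this (hδ x hx)
      have : 0 < b y' := add_pos_of_nonneg_of_pos g1 g2
      exact this.ne'
    have g3 : 0 < solN a K b y :=
      solN_pos hs (hN.mono hKN) (comps_conn hK) b hbK ⟨y', hy', hby'⟩ y hyK
    have g4 : solN a N b y = solN a K b y := solN_component hs hN hKN (comps_sep hK) b y hyK
    have g5 : 0 < ∑ v ∈ N, (a z v : ℚ) * solN a N b v := by
      refine Finset.sum_pos' (fun v _ => mul_nonneg (by positivity) (solN_nonneg hs hN b hb0 v))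
        ⟨y, hyN, ?_⟩
      rw [g4]
      exact mul_pos hay' g3
    linarith
  · have hyM : y ∈ M := Finset.mem_filter.2 ⟨hy, hmy⟩
    have g5 : 0 < ∑ x ∈ M, ((m x : ℚ) - q x) * (a z x : ℚ) := by
      refine Finset.sum_pos' (fun x hx => mul_nonneg (hδ x hx).le (by positivity)) ⟨y, hyM, ?_⟩
      exact mul_pos (hδ y hyM) hay'
    linarith

theorem raw_FRegI (a : I → I → ℕ) (hs : ∀ i j, a i j = a j i) (A : Finset I) (hA : FinT a A)
    (f : ℕ) (hf : 1 ≤ f) (q : I → ℚ) (hq : QOk a A q) (m : I → ℕ)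
    (S : Finset I) (T : Trm I) (hT : RReg (A ∪ S) T) : ∀ v ∈ A.filter (fun v => m v = 0), FRegI S (rawT a A f q m T) v f (f - 1) := by
  intro v hv
  have hvA : v ∈ A := (Finset.mem_filter.1 hv).1
  have hvAS : v ∈ A ∪ S := Finset.mem_union_left _ hvA
  refine ⟨?_, ?_, ?_⟩
  · intro l hl hlf
    rw [AG7_raw_E_ne a A f q m T v hlf]
    exact hT.nat v hvAS l hl
  · rw [AG7_raw_E_in a hs]
    have h1 : IsZ (T.E (v, f)) := AG7_isZ_isN (hT.nat v hvAS f hf)
    have h2 : IsZ (cqN a A q v) := by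
      obtain ⟨n, _, hn⟩ := hq v hvA
      rw [hn]
      exact AG7_isZ_nat n
    have h3 : ∑ x ∈ A, (cart a v x : ℚ) * ((m x : ℚ) - q x) =
        ∑ x ∈ A, (cart a v x : ℚ) * (m x : ℚ) - cqN a A q v := by
      unfold cqN
      rw [← Finset.sum_sub_distrib]
      refine Finset.sum_congr rfl fun x _ => ?_
      ring
    rw [h3]
    refine AG7_isZ_sub h1 (AG7_isZ_sub (AG7_isZ_sum _ _ fun x _ => ?_) h2)
    exact AG7_isZ_mul (AG7_isZ_int _) (AG7_isZ_nat _)
  · intro j hj l hl hΛ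
    rw [AG7_raw_Λ] at hΛ
    by_cases hlf : l = f
    · exact Or.inr (Or.inl hlf)
    by_cases hjA : j ∈ A
    · rw [if_pos hjA] at hΛ
      by_cases hmj : m j = 0
      · rw [if_pos hmj] at hΛ
        exact Or.inl (AG7_sy_lev hΛ).2
      · rw [if_neg hmj, AG7_cE_ne a j v hlf] at hΛ
        exact absurd rfl hΛ
    · rw [if_neg hjA] at hΛ
      refine Or.inr (Or.inr ?_)
      rw [AG7_raw_E_ne a A f q m T v hlf]
      refine hT.col v hvAS j ?_ l hl hΛ
      intro h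
      rcases Finset.mem_union.1 h with h | h
      · exact hjA h
      · exact hj h

private theorem AG7_blk_FRegI (a : I → I → ℕ) (hs : ∀ i j, a i j = a j i) (A : Finset I)
    (f : ℕ) (hf : 1 ≤ f) (σ : ℕ) (q : I → ℚ) (hq : QOk a A q)
    (S : Finset I) (T : Trm I) (hT : RReg (A ∪ S) T) : ∀ v ∈ A, FRegI S (blkT a A f σ q T) v f σ := by
  intro v hvA
  have hvAS : v ∈ A ∪ S := Finset.mem_union_left _ hvA
  refine ⟨?_, ?_, ?_⟩
  · intro l hl hlf
    rw [AG7_blk_E_ne a A f σ q T v hlf]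
    exact hT.nat v hvAS l hl
  · rw [AG7_blk_E_in a hs]
    have h1 : IsZ (T.E (v, f)) := AG7_isZ_isN (hT.nat v hvAS f hf)
    have h2 : IsZ (cqN a A q v) := by
      obtain ⟨n, _, hn⟩ := hq v hvA
      rw [hn]
      exact AG7_isZ_nat n
    exact AG7_isZ_add h1 h2
  · intro j hj l hl hΛ
    rw [AG7_blk_Λ] at hΛ
    by_cases hlf : l = f
    · exact Or.inr (Or.inl hlf)
    by_cases hjA : j ∈ A
    · rw [if_pos hjA] at hΛ
      exact Or.inl (AG7_sy_lev hΛ).2
    · rw [if_neg hjA] at hΛ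
      refine Or.inr (Or.inr ?_)
      rw [AG7_blk_E_ne a A f σ q T v hlf]
      refine hT.col v hvAS j ?_ l hl hΛ
      intro h
      rcases Finset.mem_union.1 h with h | h
      · exact hjA h
      · exact hj h

/-- columns of the raw term in the direction of an outer vertex -/
private theorem AG7_raw_col (a : I → I → ℕ) (A : Finset I) (f : ℕ) (q : I → ℚ) (m : I → ℕ)
    (T : Trm I) {z : I} (hz : z ∉ A) (j : I) (l : ℕ)
    (h : (rawT a A f q m T).Λ j (z, l) ≠ 0) : l = f ∨ (j ∉ A ∧ T.Λ j (z, l) ≠ 0) := by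
  rw [AG7_raw_Λ] at h
  by_cases hlf : l = f
  · exact Or.inl hlf
  by_cases hjA : j ∈ A
  · rw [if_pos hjA] at h
    by_cases hmj : m j = 0
    · rw [if_pos hmj] at h
      exact absurd hjA ((AG7_sy_lev h).1 ▸ hz)
    · rw [if_neg hmj, AG7_cE_ne a j z hlf] at h
      exact absurd rfl h
  · rw [if_neg hjA] at h
    exact Or.inr ⟨hjA, h⟩

private theorem AG7_blk_col (a : I → I → ℕ) (A : Finset I) (f σ : ℕ) (q : I → ℚ)
    (T : Trm I) {z : I} (hz : z ∉ A) (j : I) (l : ℕ)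
    (h : (blkT a A f σ q T).Λ j (z, l) ≠ 0) : j ∉ A ∧ T.Λ j (z, l) ≠ 0 := by
  rw [AG7_blk_Λ] at h
  by_cases hjA : j ∈ A
  · rw [if_pos hjA] at h
    exact absurd hjA ((AG7_sy_lev h).1 ▸ hz)
  · rw [if_neg hjA] at h
    exact ⟨hjA, h⟩

/-- the value of a raw term with bad multiplicities is zero in presence of a pattern -/
private theorem AG7_raw_bad (a : I → I → ℕ) (hs : ∀ i j, a i j = a j i) (f : ℕ)
    (hf : 1 ≤ f) (A : Finset I) (hA : FinT a A) (hc : ConnS a A) (q : I → ℚ) (hq : QOk a A q)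
    (U : Finset I) (hAU : Sep a A U) (π : Pat I)
    (T : Trm I) (hT : RReg (A ∪ U) T) (m : I → ℕ) (hm : ¬ Plat A q m)
    (hbad : ¬ ∀ y ∈ A, m y ≠ 0 → q y < m y) : TV a (patT a U π (rawT a A f q m T)) = 0 := by
  rw [← rawT_patT_comm a A U hAU.1]
  by_contra h
  exact hbad (raw_pos a hs A hA hc f hf q hq _
    (RReg_patT a hs A U hAU.1 π (fun x hx y hy _ => hAU.2 x hx y hy) T hT) m hm h)

omit [Fintype I] [DecidableEq I] in
private theorem AG7_not_plat {A : Finset I} {q : I → ℚ} {m : I → ℕ} (hm : ¬ Plat A q m) :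
    ∃ y ∈ A, m y ≠ 0 := by
  by_contra h
  push Not at h
  exact hm fun x hx => Or.inl (h x hx)

/-- integrality of the exponent of the outer vertex of a raw term -/
private theorem AG7_raw_int (a : I → I → ℕ) (hs : ∀ i j, a i j = a j i) (A : Finset I) (f : ℕ)
    (q : I → ℚ) (m : I → ℕ) (T : Trm I) {z : I} (hz : z ∉ A) (hE : IsZ (T.E (z, f))) :
    IsZ ((rawT a A f q m T).E (z, f) + ∑ x ∈ A, (a z x : ℚ) * q x) := by
  rw [AG7_raw_E_out a hs A f q m T hz, add_assoc, ← Finset.sum_add_distrib]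
  refine AG7_isZ_add hE (AG7_isZ_sum _ _ fun x _ => ?_)
  have e : ((m x : ℚ) - q x) * (a z x : ℚ) + (a z x : ℚ) * q x = (m x : ℚ) * (a z x : ℚ) := by
    ring
  rw [e]
  exact AG7_isZ_mul (AG7_isZ_nat _) (AG7_isZ_nat _)

private theorem AG7_blk_int (a : I → I → ℕ) (hs : ∀ i j, a i j = a j i) (A : Finset I) (f σ : ℕ)
    (q : I → ℚ) (T : Trm I) {z : I} (hz : z ∉ A) (hE : IsZ (T.E (z, f))) :
    IsZ ((blkT a A f σ q T).E (z, f) + ∑ x ∈ A, (a z x : ℚ) * q x) := by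
  rw [AG7_blk_E_out a hs A f σ q T hz]
  simpa using hE

/-- the effective exponent of the outer vertex of a kinked block -/
private theorem AG7_kink_eff (a : I → I → ℕ) (hs : ∀ i j, a i j = a j i) (A : Finset I)
    (hA : FinT a A) (hc : ConnS a A) (f σ : ℕ) (q : I → ℚ) (T : Trm I)
    (hT : ∀ x ∈ A, IsN (T.E (x, f))) (hk : Kink A f T) (z : I)
    (hz : z ∉ A) (hadj : ∃ y ∈ A, 0 < a z y) (hE : 0 ≤ T.E (z, f)) :
    0 < (blkT a A f σ q T).E (z, f) +
      ∑ v ∈ A, (a z v : ℚ) * solN a A (fun i => (blkT a A f σ q T).E (i, f)) v := by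
  have hsol : ∀ v ∈ A, solN a A (fun i => (blkT a A f σ q T).E (i, f)) v =
      q v + solN a A (fun i => T.E (i, f)) v := by
    refine AG7_sol_split a hs hA q (fun i => T.E (i, f)) _ fun i _ => ?_
    rw [AG7_blk_E_in a hs]
    ring
  have hb0 : ∀ i ∈ A, 0 ≤ T.E (i, f) := fun i hi => AG7_isN_nonneg (hT i hi)
  obtain ⟨x, hx, hx1⟩ := hk
  have hpos : ∀ v ∈ A, 0 < solN a A (fun i => T.E (i, f)) v :=
    solN_pos hs hA hc _ hb0 ⟨x, hx, by linarith⟩
  obtain ⟨y, hy, hay⟩ := hadj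
  have hay' : (0 : ℚ) < (a z y : ℚ) := by exact_mod_cast hay
  rw [AG7_blk_E_out a hs A f σ q T hz]
  have e : ∑ v ∈ A, (a z v : ℚ) * solN a A (fun i => (blkT a A f σ q T).E (i, f)) v =
      ∑ x ∈ A, (a z x : ℚ) * q x + ∑ v ∈ A, (a z v : ℚ) * solN a A (fun i => T.E (i, f)) v := by
    rw [← Finset.sum_add_distrib]
    refine Finset.sum_congr rfl fun v hv => ?_
    rw [hsol v hv]
    ring
  rw [e]
  have g : 0 < ∑ v ∈ A, (a z v : ℚ) * solN a A (fun i => T.E (i, f)) v :=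
    Finset.sum_pos' (fun v hv => mul_nonneg (by positivity) (hpos v hv).le)
      ⟨y, hy, mul_pos hay' (hpos y hy)⟩
  linarith

theorem raw_kill (a : I → I → ℕ) (hs : ∀ i j, a i j = a j i) (cd : CrossData a) (f : ℕ)
    (hf : 1 ≤ f) (A : Finset I) (hA : FinT a A) (hc : ConnS a A) (q : I → ℚ) (hq : QOk a A q)
    (U : Finset I) (hU : FinT a U) (hAU : Sep a A U) (π : Pat I) (hπ : PatWide a cd U f π)
    (T : Trm I) (hT : RReg (A ∪ U) T) (m : I → ℕ) (hm : ¬ Plat A q m) (z : I) (hzA : z ∉ A)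
    (hzU : z ∉ U) (hzz : a z z = 0) (hadj : ∃ y ∈ A, 0 < a z y)
    (hN : ∀ l, 1 ≤ l → IsN (T.E (z, l)))
    (hI2 : IsZ (∑ x ∈ A, (a z x : ℚ) * q x + ∑ x ∈ U, (a z x : ℚ) * π.q x))
    (hcol : ∀ j, j ∉ A → j ∉ U → ∀ l, 1 ≤ l → T.Λ j (z, l) ≠ 0 → l = f ∨ 1 ≤ T.E (z, l)) :
    TV a (patT a U π (rawT a A f q m T)) = 0 := by
  by_cases hgood : ∀ y ∈ A, m y ≠ 0 → q y < m y
  swap
  · exact AG7_raw_bad a hs f hf A hA hc q hq U hAU π T hT m hm hgood
  have hne := AG7_not_plat hm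
  have hNA : A.filter (fun v => m v = 0) ⊆ A := Finset.filter_subset _ _
  have hUA : Sep a U A := hAU.symm hs
  have hT' : RReg (U ∪ A) T := by rw [Finset.union_comm]; exact hT
  refine TV_kill a hs cd f hf U (A.filter (fun v => m v = 0)) hU (hA.mono hNA)
    (hUA.mono (Finset.Subset.refl _) hNA) π hπ (fun _ => f - 1) (fun v _ => Or.inr (by omega))
    (rawT a A f q m T) (RReg_rawT a hs U A hUA f q m T hT')
    (raw_FRegI a hs A hA f hf q hq m U T hT) z hzU (fun h => hzA (hNA h)) hzz ?_ ?_ ?_ ?_ ?_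
  · intro l hl hlf _
    rw [AG7_raw_E_ne a A f q m T z hlf]
    exact hN l hl
  · rw [AG7_raw_E_ne a A f q m T z (by omega)]
    exact AG7_isN_nonneg (hN (f + 1) (by omega))
  · have h1 := AG7_raw_int a hs A f q m T hzA (AG7_isZ_isN (hN f hf))
    have h2 : IsZ (T.E (z, f + 1)) := AG7_isZ_isN (hN (f + 1) (by omega))
    rw [AG7_raw_E_ne a A f q m T z (show f + 1 ≠ f by omega)]
    have h3 := AG7_isZ_sub (AG7_isZ_add h1 h2) hI2
    refine AG7_isZ_congr h3 ⟨0, ?_⟩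
    push_cast
    ring
  · intro j hj l hl hΛ
    rcases AG7_raw_col a A f q m T hzA j l hΛ with h | ⟨h1, h2⟩
    · exact Or.inl h
    · by_cases hlf : l = f
      · exact Or.inl hlf
      rcases hcol j h1 hj l hl h2 with h | h
      · exact Or.inl h
      · rw [AG7_raw_E_ne a A f q m T z hlf]
        exact Or.inr (by linarith)
  · exact raw_eff_outer a hs A hA hc f hf q hq T
      (fun x hx => hT.nat x (Finset.mem_union_left _ hx) f hf) m hgood hne z hzA hadj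
      (AG7_isN_nonneg (hN f hf))

theorem raw_conv (a : I → I → ℕ) (hs : ∀ i j, a i j = a j i) (cd : CrossData a) (f : ℕ)
    (hf : 1 ≤ f) (A : Finset I) (hA : FinT a A) (hc : ConnS a A) (q : I → ℚ) (hq : QOk a A q)
    (L : List (Blk I)) (hL : ∀ b ∈ L, BlkOk a cd f b)
    (hd : L.Pairwise (fun b c => Sep a b.B c.B)) (hAL : Sep a A (uniB L))
    (T : Trm I) (hT : RReg (A ∪ uniB L) T) (m : I → ℕ) (hm : ¬ Plat A q m) (z : I) (hzA : z ∉ A)
    (hzL : z ∉ uniB L) (hzz : a z z = 0) (hadj : ∃ y ∈ A, 0 < a z y)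
    (hadjL : ∀ b ∈ L, ∃ x ∈ b.B, 0 < a z x) (σz : ℕ) (hσz : Side f σz)
    (hN : ∀ l, 1 ≤ l → IsN (T.E (z, l)))
    (hI2 : IsZ (∑ x ∈ A, (a z x : ℚ) * q x +
      (L.map (fun b => ∑ x ∈ b.B, (a z x : ℚ) * b.q x)).sum))
    (hcol : ∀ j, j ∉ A → j ∉ uniB L → ∀ l, 1 ≤ l → T.Λ j (z, l) ≠ 0 →
      l = f ∨ l = σz ∨ 1 ≤ T.E (z, l)) :
    evU a (L.map (fun b => (b.B, b.Φ))) (rawT a A f q m T) =
      (L.map Blk.cf).prod * TV a (expl a f L (rawT a A f q m T)) := by
  by_cases hgood : ∀ y ∈ A, m y ≠ 0 → q y < m y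
  swap
  · have h1 : TV a (expl a f L (rawT a A f q m T)) = 0 := by
      rw [expl_rawT_comm a f L A hAL.1]
      by_contra h
      exact hgood (raw_pos a hs A hA hc f hf q hq _ (RReg_expl a hs f L A hAL T hT) m hm h)
    rw [h1, mul_zero]
    have hd' : (L.map (fun b => (b.B, b.Φ))).Pairwise (fun b c => Disjoint b.1 c.1) := by
      rw [List.pairwise_map]
      exact hd.imp fun h => h.1
    rw [evU_eq_evF a _ hd', uni_map_blk]
    unfold evF
    refine List.sum_eq_zero fun x hx => ?_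
    obtain ⟨c, -, rfl⟩ := List.mem_map.1 hx
    rw [AG7_raw_bad a hs f hf A hA hc q hq (uniB L) hAL c.2 T hT m hm hgood, mul_zero]
  have hne := AG7_not_plat hm
  have hNA : A.filter (fun v => m v = 0) ⊆ A := Finset.filter_subset _ _
  have hUA : Sep a (uniB L) A := hAL.symm hs
  have hT' : RReg (uniB L ∪ A) T := by rw [Finset.union_comm]; exact hT
  refine evU_conv a hs cd f hf L hL hd (A.filter (fun v => m v = 0)) (hA.mono hNA)
    (hUA.mono (Finset.Subset.refl _) hNA) z hzL (fun h => hzA (hNA h)) hzz hadjL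
    (rawT a A f q m T) (RReg_rawT a hs (uniB L) A hUA f q m T hT')
    (fun _ => f - 1) (fun v _ => Or.inr (by omega))
    (raw_FRegI a hs A hA f hf q hq m (uniB L) T hT) σz hσz ?_ ?_ ?_ ?_
  · intro l hl hlf
    rw [AG7_raw_E_ne a A f q m T z hlf]
    exact hN l hl
  · have h1 := AG7_raw_int a hs A f q m T hzA (AG7_isZ_isN (hN f hf))
    have h3 := AG7_isZ_sub h1 hI2
    refine AG7_isZ_congr h3 ⟨0, ?_⟩
    push_cast
    ring
  · intro j hj l hl hΛ
    rcases AG7_raw_col a A f q m T hzA j l hΛ with h | ⟨h1, h2⟩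
    · exact Or.inl h
    · by_cases hlf : l = f
      · exact Or.inl hlf
      rcases hcol j h1 hj l hl h2 with h | h | h
      · exact Or.inl h
      · exact Or.inr (Or.inl h)
      · rw [AG7_raw_E_ne a A f q m T z hlf]
        exact Or.inr (Or.inr (by linarith))
  · exact raw_eff_outer a hs A hA hc f hf q hq T
      (fun x hx => hT.nat x (Finset.mem_union_left _ hx) f hf) m hgood hne z hzA hadj
      (AG7_isN_nonneg (hN f hf))

theorem kink_kill (a : I → I → ℕ) (hs : ∀ i j, a i j = a j i) (cd : CrossData a) (f : ℕ)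
    (hf : 1 ≤ f) (A : Finset I) (hA : FinT a A) (hc : ConnS a A) (σ : ℕ) (hσ : Side f σ)
    (q : I → ℚ) (hq : QOk a A q) (U : Finset I) (hU : FinT a U) (hAU : Sep a A U) (π : Pat I)
    (hπ : PatWide a cd U f π) (T : Trm I) (hT : RReg (A ∪ U) T) (hk : Kink A f T) (z : I)
    (hzA : z ∉ A) (hzU : z ∉ U) (hzz : a z z = 0) (hadj : ∃ y ∈ A, 0 < a z y)
    (hN : ∀ l, 1 ≤ l → IsN (T.E (z, l)))
    (hI2 : IsZ (∑ x ∈ A, (a z x : ℚ) * q x + ∑ x ∈ U, (a z x : ℚ) * π.q x))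
    (hcol : ∀ j, j ∉ A → j ∉ U → ∀ l, 1 ≤ l → T.Λ j (z, l) ≠ 0 → l = f ∨ 1 ≤ T.E (z, l)) :
    TV a (patT a U π (blkT a A f σ q T)) = 0 := by
  have hUA : Sep a U A := hAU.symm hs
  have hT' : RReg (U ∪ A) T := by rw [Finset.union_comm]; exact hT
  refine TV_kill a hs cd f hf U A hU hA hUA π hπ (fun _ => σ) (fun v _ => hσ)
    (blkT a A f σ q T) (RReg_blkT a hs U A hUA f σ q T hT')
    (AG7_blk_FRegI a hs A f hf σ q hq U T hT) z hzU hzA hzz ?_ ?_ ?_ ?_ ?_
  · intro l hl hlf _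
    rw [AG7_blk_E_ne a A f σ q T z hlf]
    exact hN l hl
  · rw [AG7_blk_E_ne a A f σ q T z (by omega)]
    exact AG7_isN_nonneg (hN (f + 1) (by omega))
  · have h1 := AG7_blk_int a hs A f σ q T hzA (AG7_isZ_isN (hN f hf))
    have h2 : IsZ (T.E (z, f + 1)) := AG7_isZ_isN (hN (f + 1) (by omega))
    rw [AG7_blk_E_ne a A f σ q T z (show f + 1 ≠ f by omega)]
    have h3 := AG7_isZ_sub (AG7_isZ_add h1 h2) hI2
    refine AG7_isZ_congr h3 ⟨0, ?_⟩
    push_cast
    ring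
  · intro j hj l hl hΛ
    obtain ⟨h1, h2⟩ := AG7_blk_col a A f σ q T hzA j l hΛ
    by_cases hlf : l = f
    · exact Or.inl hlf
    rcases hcol j h1 hj l hl h2 with h | h
    · exact Or.inl h
    · rw [AG7_blk_E_ne a A f σ q T z hlf]
      exact Or.inr (by linarith)
  · exact AG7_kink_eff a hs A hA hc f σ q T
      (fun x hx => hT.nat x (Finset.mem_union_left _ hx) f hf) hk z hzA hadj
      (AG7_isN_nonneg (hN f hf))

theorem kink_conv (a : I → I → ℕ) (hs : ∀ i j, a i j = a j i) (cd : CrossData a) (f : ℕ)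
    (hf : 1 ≤ f) (A : Finset I) (hA : FinT a A) (hc : ConnS a A) (σ : ℕ) (hσ : Side f σ)
    (q : I → ℚ) (hq : QOk a A q) (L : List (Blk I)) (hL : ∀ b ∈ L, BlkOk a cd f b)
    (hd : L.Pairwise (fun b c => Sep a b.B c.B)) (hAL : Sep a A (uniB L))
    (T : Trm I) (hT : RReg (A ∪ uniB L) T) (hk : Kink A f T) (z : I) (hzA : z ∉ A)
    (hzL : z ∉ uniB L) (hzz : a z z = 0) (hadj : ∃ y ∈ A, 0 < a z y)
    (hadjL : ∀ b ∈ L, ∃ x ∈ b.B, 0 < a z x) (σz : ℕ) (hσz : Side f σz)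
    (hN : ∀ l, 1 ≤ l → IsN (T.E (z, l)))
    (hI2 : IsZ (∑ x ∈ A, (a z x : ℚ) * q x +
      (L.map (fun b => ∑ x ∈ b.B, (a z x : ℚ) * b.q x)).sum))
    (hcol : ∀ j, j ∉ A → j ∉ uniB L → ∀ l, 1 ≤ l → T.Λ j (z, l) ≠ 0 →
      l = f ∨ l = σz ∨ 1 ≤ T.E (z, l)) :
    evU a (L.map (fun b => (b.B, b.Φ))) (blkT a A f σ q T) =
      (L.map Blk.cf).prod * TV a (expl a f L (blkT a A f σ q T)) := by
  have hUA : Sep a (uniB L) A := hAL.symm hs
  have hT' : RReg (uniB L ∪ A) T := by rw [Finset.union_comm]; exact hT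
  refine evU_conv a hs cd f hf L hL hd A hA hUA z hzL hzA hzz hadjL
    (blkT a A f σ q T) (RReg_blkT a hs (uniB L) A hUA f σ q T hT')
    (fun _ => σ) (fun v _ => hσ)
    (AG7_blk_FRegI a hs A f hf σ q hq (uniB L) T hT) σz hσz ?_ ?_ ?_ ?_
  · intro l hl hlf
    rw [AG7_blk_E_ne a A f σ q T z hlf]
    exact hN l hl
  · have h1 := AG7_blk_int a hs A f σ q T hzA (AG7_isZ_isN (hN f hf))
    have h3 := AG7_isZ_sub h1 hI2
    refine AG7_isZ_congr h3 ⟨0, ?_⟩
    push_cast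
    ring
  · intro j hj l hl hΛ
    obtain ⟨h1, h2⟩ := AG7_blk_col a A f σ q T hzA j l hΛ
    by_cases hlf : l = f
    · exact Or.inl hlf
    rcases hcol j h1 hj l hl h2 with h | h | h
    · exact Or.inl h
    · exact Or.inr (Or.inl h)
    · rw [AG7_blk_E_ne a A f σ q T z hlf]
      exact Or.inr (Or.inr (by linarith))
  · exact AG7_kink_eff a hs A hA hc f σ q T
      (fun x hx => hT.nat x (Finset.mem_union_left _ hx) f hf) hk z hzA hadj
      (AG7_isN_nonneg (hN f hf))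

end

end Pool.Agent.H27.KAC
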