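import Pool.Agent.H41.KA.AG1b
import Pool.Agent.H41.KA.AE7
import Pool.Agent.H41.KA.AE4

/-!
KAC ADE, module AG7b: one step expansion for terms whose exponents at level `k` are only natural after the insertion.

`TV_step_gen` has the same proof as `TV_step` (file AE7): expand the columns `(x,k+1)`, `x ∈ R`, one after the other with `TV_expD`; in
the term where column `x` is `2 (x,k) - (x,k-1)` the part `2 (x,k)` has value zero by `TV_van` in direction `x`.
-/

set_option autoImplicit false

namespace Pool.Agent.H27.KAC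

open scoped BigOperators

section

variable {I : Type} [Fintype I] [DecidableEq I]

/-- the coordinates of `cE`. -/
private theorem AG7b_cE_apply (a : I → I → ℕ) (y : I) (k : ℕ) (i : I) (l : ℕ) :
    cE a y k (i, l) = if l = k then ((cart a y i : ℤ) : ℚ) else 0 := by
  unfold cE
  rw [Finsupp.finsetSum_apply]
  simp only [Finsupp.smul_apply, Finsupp.single_apply, Prod.mk.injEq, smul_eq_mul]
  by_cases h : l = k
  · subst h
    simp
  · have h' : k ≠ l := fun e => h e.symm
    simp [h, h']

/-- the partially expanded term. -/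
private noncomputable def AG7b_P (a : I → I → ℕ) (R : Finset I) (k : ℕ) (q : I → ℚ) (T : Trm I)
    (S : Finset I) (m : I → ℕ) : Trm I :=
  (T.eta a k (fun i => (if i ∈ S then (m i : ℚ) else 0) - resQ R q i)).cols R
    (fun x => if x ∈ S then (if m x = 0 then sy x (k - 1) else cE a x k) else sy x (k + 1))

private theorem AG7b_P_E (a : I → I → ℕ) (R : Finset I) (k : ℕ) (q : I → ℚ) (T : Trm I)
    (S : Finset I) (m : I → ℕ) (i : I) (l : ℕ) :
    (AG7b_P a R k q T S m).E (i, l) = T.E (i, l) -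
      ∑ y, ((if y ∈ S then (m y : ℚ) else 0) - resQ R q y) *
        (if l = k then ((cart a y i : ℤ) : ℚ) else 0) := by
  show (T.E - ∑ x, ((if x ∈ S then (m x : ℚ) else 0) - resQ R q x) • cE a x k) (i, l) = _
  rw [Finsupp.sub_apply, Finsupp.finsetSum_apply]
  simp only [Finsupp.smul_apply, smul_eq_mul, AG7b_cE_apply]

private theorem AG7b_P_E_ne (a : I → I → ℕ) (R : Finset I) (k : ℕ) (q : I → ℚ) (T : Trm I)
    (S : Finset I) (m : I → ℕ) (i : I) (l : ℕ) (hl : l ≠ k) :
    (AG7b_P a R k q T S m).E (i, l) = T.E (i, l) := by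
  rw [AG7b_P_E]
  simp [hl]

/-- the exponent of `(x,k)` is a positive natural number. -/
private theorem AG7b_P_E_k (a : I → I → ℕ) (hs : ∀ i j, a i j = a j i) (R : Finset I) (k : ℕ)
    (hk : 1 ≤ k) (q : I → ℚ) (T : Trm I)
    (hTk : ∀ x ∈ R, ∃ n : ℕ, 1 ≤ n ∧ T.E (x, k) + cqN a R q x = n)
    (S : Finset I) (m : I → ℕ) (x : I) (hx : x ∈ R) (hxS : x ∉ S) :
    ∃ n : ℕ, 1 ≤ n ∧ (AG7b_P a R k q T S m).E (x, k) = n := by
  obtain ⟨n1, hn1, hn1'⟩ := hTk x hx
  refine ⟨n1 + ∑ y ∈ S, m y * a x y, by omega, ?_⟩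
  rw [AG7b_P_E]
  have h1 : ∑ y, ((if y ∈ S then (m y : ℚ) else 0) - resQ R q y) *
      (if k = k then ((cart a y x : ℤ) : ℚ) else 0) =
      (∑ y ∈ S, (m y : ℚ) * ((cart a x y : ℤ) : ℚ)) - cqN a R q x := by
    simp only [if_true, sub_mul, Finset.sum_sub_distrib]
    congr 1
    · simp only [ite_mul, zero_mul]
      rw [Finset.sum_ite_mem, Finset.univ_inter]
      refine Finset.sum_congr rfl fun y _ => ?_
      congr 2
      unfold cart
      rw [hs y x]
      by_cases h : y = x
      · subst h; simp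
      · rw [if_neg h, if_neg (fun e => h e.symm)]
    · unfold resQ cqN
      simp only [ite_mul, zero_mul]
      rw [Finset.sum_ite_mem, Finset.univ_inter]
      refine Finset.sum_congr rfl fun y _ => ?_
      rw [mul_comm]
      congr 2
      unfold cart
      rw [hs y x]
      by_cases h : y = x
      · subst h; simp
      · rw [if_neg h, if_neg (fun e => h e.symm)]
  rw [h1]
  have h2 : ∑ y ∈ S, (m y : ℚ) * ((cart a x y : ℤ) : ℚ) = -∑ y ∈ S, (m y : ℚ) * (a x y : ℚ) := by
    rw [← Finset.sum_neg_distrib]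
    refine Finset.sum_congr rfl fun y hy => ?_
    have hxy : x ≠ y := fun e => hxS (e ▸ hy)
    unfold cart
    rw [if_neg hxy]
    push_cast
    ring
  rw [h2]
  push_cast
  linarith

/-- the `X`-exponent at `x`. -/
private theorem AG7b_P_γ (a : I → I → ℕ) (R : Finset I) (k : ℕ) (q : I → ℚ) (T : Trm I)
    (S : Finset I) (m : I → ℕ) (x : I) (hx : x ∈ R) (hxS : x ∉ S) :
    (AG7b_P a R k q T S m).γ x = T.γ x + k * q x := by
  show T.γ x - k * ((if x ∈ S then (m x : ℚ) else 0) - resQ R q x) = _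
  unfold resQ
  rw [if_neg hxS, if_pos hx]
  ring

private theorem AG7b_P_Λ (a : I → I → ℕ) (R : Finset I) (k : ℕ) (q : I → ℚ) (T : Trm I)
    (S : Finset I) (m : I → ℕ) (j : I) :
    (AG7b_P a R k q T S m).Λ j = if j ∈ R then
      (if j ∈ S then (if m j = 0 then sy j (k - 1) else cE a j k) else sy j (k + 1)) else T.Λ j :=
  rfl

/-- the part with the column `(x,k)` vanishes. -/
private theorem AG7b_P_van (a : I → I → ℕ) (hs : ∀ i j, a i j = a j i) (R : Finset I)
    (hR : FinT a R) (k : ℕ) (hk : 1 ≤ k) (q : I → ℚ) (T : Trm I)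
    (hT : ∀ x ∈ R, ∀ l, 1 ≤ l → l ≠ k → IsN (T.E (x, l)))
    (hTk : ∀ x ∈ R, ∃ n : ℕ, 1 ≤ n ∧ T.E (x, k) + cqN a R q x = n)
    (hcol : ∀ x ∈ R, ∀ j, j ∉ R → ∀ l, 1 ≤ l → T.Λ j (x, l) ≠ 0 → l = k ∨ 1 ≤ T.E (x, l)) (S : Finset I) (m : I → ℕ) (x : I) (hx : x ∈ R) (hxS : x ∉ S) :
    TV a ((AG7b_P a R k q T S m).col x (sy x k)) = 0 := by
  obtain ⟨n, hn1, hn⟩ := AG7b_P_E_k a hs R k hk q T hTk S m x hx hxS
  have hE : ((AG7b_P a R k q T S m).col x (sy x k)).E = (AG7b_P a R k q T S m).E := rfl
  refine TV_van a hs _ x (hR.loopfree x hx) ⟨fun l hl => ?_, fun j l hl hΛ => ?_⟩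
  · rw [hE]
    by_cases h : l = k
    · subst h; exact ⟨n, hn⟩
    · rw [AG7b_P_E_ne a R k q T S m x l h]
      exact hT x hx l hl h
  · rw [hE]
    by_cases h : l = k
    · subst h
      rw [hn]
      exact_mod_cast hn1
    · rw [AG7b_P_E_ne a R k q T S m x l h]
      have hΛ' : ((AG7b_P a R k q T S m).col x (sy x k)).Λ j =
          if j = x then sy x k else (AG7b_P a R k q T S m).Λ j := by
        show Function.update (AG7b_P a R k q T S m).Λ x (sy x k) j = _
        rw [Function.update_apply]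
      rw [hΛ'] at hΛ
      by_cases hj : j = x
      · rw [if_pos hj] at hΛ
        exfalso
        apply hΛ
        rw [Finsupp.single_apply, if_neg]
        intro e
        exact h (Prod.mk.inj e).2.symm
      · rw [if_neg hj, AG7b_P_Λ] at hΛ
        by_cases hjR : j ∈ R
        · exfalso
          apply hΛ
          rw [if_pos hjR]
          split_ifs
          · rw [Finsupp.single_apply, if_neg]
            intro e
            exact hj (Prod.mk.inj e).1
          · rw [AG7b_cE_apply, if_neg h]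
          · rw [Finsupp.single_apply, if_neg]
            intro e
            exact hj (Prod.mk.inj e).1
        · rw [if_neg hjR] at hΛ
          rcases hcol x hx j hjR l hl hΛ with h' | h'
          · exact absurd h' h
          · exact h'

private theorem AG7b_trm_ext {T T' : Trm I} (h1 : T.γ = T'.γ) (h2 : T.E = T'.E)
    (h3 : T.Λ = T'.Λ) : T = T' := by
  cases T; cases T'; simp only at h1 h2 h3; subst h1 h2 h3; rfl

/-- column `x` of `P` with `x ∉ S` replaced by `(x,k-1)`. -/
private theorem AG7b_P_col0 (a : I → I → ℕ) (R : Finset I) (k : ℕ) (q : I → ℚ) (T : Trm I)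
    (S : Finset I) (m : I → ℕ) (x : I) (hx : x ∈ R) (hxS : x ∉ S) :
    (AG7b_P a R k q T S m).col x (sy x (k - 1)) =
      AG7b_P a R k q T (insert x S) (Function.update m x 0) := by
  have hδ : (fun i => (if i ∈ insert x S then ((Function.update m x 0 i : ℕ) : ℚ) else 0) -
      resQ R q i) = fun i => (if i ∈ S then (m i : ℚ) else 0) - resQ R q i := by
    funext i
    by_cases hi : i = x
    · subst hi
      simp [hxS]
    · simp [Finset.mem_insert, hi]
  apply AG7b_trm_ext
  · show (T.eta a k _).γ = (T.eta a k _).γ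
    rw [hδ]
  · show (T.eta a k _).E = (T.eta a k _).E
    rw [hδ]
  · funext j
    show Function.update (AG7b_P a R k q T S m).Λ x (sy x (k - 1)) j = _
    rw [Function.update_apply, AG7b_P_Λ, AG7b_P_Λ]
    by_cases hj : j = x
    · subst hj
      simp [hx]
    · simp [hj, Finset.mem_insert]

/-- column `x` of `P` with `x ∉ S` replaced by `θ_x`, and multiplied with `η^n`. -/
private theorem AG7b_P_col1 (a : I → I → ℕ) (R : Finset I) (k : ℕ) (q : I → ℚ) (T : Trm I)
    (S : Finset I) (m : I → ℕ) (x : I) (hx : x ∈ R) (hxS : x ∉ S) (n : ℕ) (hn : 1 ≤ n) :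
    ((AG7b_P a R k q T S m).eta a k (Pi.single x (n : ℚ))).col x (cE a x k) =
      AG7b_P a R k q T (insert x S) (Function.update m x n) := by
  have hδ : ∀ i, (if i ∈ insert x S then ((Function.update m x n i : ℕ) : ℚ) else 0) -
      resQ R q i = ((if i ∈ S then (m i : ℚ) else 0) - resQ R q i) + (Pi.single x (n : ℚ) : I → ℚ) i := by
    intro i
    by_cases hi : i = x
    · subst hi
      simp [hxS]
      ring
    · simp [Finset.mem_insert, hi]
  apply AG7b_trm_ext
  · funext i
    show T.γ i - k * ((if i ∈ S then (m i : ℚ) else 0) - resQ R q i) - k * (Pi.single x (n : ℚ) : I → ℚ) i =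
      T.γ i - k * ((if i ∈ insert x S then ((Function.update m x n i : ℕ) : ℚ) else 0) -
        resQ R q i)
    rw [hδ]
    ring
  · show T.E - ∑ y, ((if y ∈ S then (m y : ℚ) else 0) - resQ R q y) • cE a y k -
        ∑ y, (Pi.single x (n : ℚ) : I → ℚ) y • cE a y k =
      T.E - ∑ y, ((if y ∈ insert x S then ((Function.update m x n y : ℕ) : ℚ) else 0) -
        resQ R q y) • cE a y k
    simp only [hδ, add_smul, Finset.sum_add_distrib]
    rw [sub_sub]
  · funext j
    show Function.update (AG7b_P a R k q T S m).Λ x (cE a x k) j = _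
    rw [Function.update_apply, AG7b_P_Λ a R k q T (insert x S)]
    by_cases hj : j = x
    · subst hj
      have : n ≠ 0 := by omega
      simp [hx, this]
    · rw [if_neg hj]
      show (AG7b_P a R k q T S m).Λ j = _
      rw [AG7b_P_Λ]
      simp [hj, Finset.mem_insert]

/-- expansion of one column. -/
private theorem AG7b_one (a : I → I → ℕ) (hs : ∀ i j, a i j = a j i) (R : Finset I)
    (hR : FinT a R) (k : ℕ) (hk : 1 ≤ k) (q : I → ℚ) (T : Trm I)
    (hT : ∀ x ∈ R, ∀ l, 1 ≤ l → l ≠ k → IsN (T.E (x, l)))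
    (hTk : ∀ x ∈ R, ∃ n : ℕ, 1 ≤ n ∧ T.E (x, k) + cqN a R q x = n)
    (hcol : ∀ x ∈ R, ∀ j, j ∉ R → ∀ l, 1 ≤ l → T.Λ j (x, l) ≠ 0 → l = k ∨ 1 ≤ T.E (x, l)) (B : ℕ) (hB : bnd R k q T ≤ B) (S : Finset I) (m : I → ℕ) (x : I)
    (hx : x ∈ R) (hxS : x ∉ S) :
    TV a (AG7b_P a R k q T S m) =
      -TV a (AG7b_P a R k q T (insert x S) (Function.update m x 0)) +
        ∑ n ∈ Finset.Icc 1 B, TV a (AG7b_P a R k q T (insert x S) (Function.update m x n)) := by
  have hfl : ⌊(AG7b_P a R k q T S m).γ x⌋₊ ≤ B := by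
    rw [AG7b_P_γ a R k q T S m x hx hxS]
    refine le_trans ?_ hB
    unfold bnd
    exact Finset.single_le_sum (f := fun i => ⌊T.γ i + k * q i⌋₊) (fun i _ => Nat.zero_le _) hx
  have hcolx : (AG7b_P a R k q T S m).col x (sy x (k + 1)) = AG7b_P a R k q T S m := by
    apply AG7b_trm_ext
    · rfl
    · rfl
    · funext j
      show Function.update (AG7b_P a R k q T S m).Λ x (sy x (k + 1)) j = _
      rw [Function.update_apply]
      by_cases hj : j = x
      · subst hj
        rw [if_pos rfl, AG7b_P_Λ, if_pos hx, if_neg hxS]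
      · rw [if_neg hj]
  have h1 := TV_expD a hs (AG7b_P a R k q T S m) x x k hk B hfl
  rw [hcolx] at h1
  rw [h1]
  congr 1
  · have h2 : ((2 : ℚ) • sy x k - sy x (k - 1) : QE I) =
        (2 : ℚ) • sy x k + (-1 : ℚ) • sy x (k - 1) := by
      rw [neg_one_smul, sub_eq_add_neg]
    rw [h2, TV_col_add, TV_col_smul, TV_col_smul, AG7b_P_van a hs R hR k hk q T hT hTk hcol S m x hx hxS,
      AG7b_P_col0 a R k q T S m x hx hxS]
    ring
  · refine Finset.sum_congr rfl fun n hn => ?_
    rw [AG7b_P_col1 a R k q T S m x hx hxS n (Finset.mem_Icc.mp hn).1]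

private theorem AG7b_mbox_insert (S : Finset I) (x : I) (hxS : x ∉ S) (B : ℕ)
    (f : (I → ℕ) → ℚ) :
    ∑ m ∈ mbox (insert x S) B, f m =
      ∑ m ∈ mbox S B, ∑ n ∈ Finset.range (B + 1), f (Function.update m x n) := by
  rw [← Finset.sum_product']
  refine Finset.sum_nbij' (fun m => (Function.update m x 0, m x))
    (fun p => Function.update p.1 x p.2) ?_ ?_ ?_ ?_ ?_
  · intro m hm
    have hm' := Fintype.mem_piFinset.mp hm
    rw [Finset.mem_product]
    constructor
    · refine Fintype.mem_piFinset.mpr fun i => ?_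
      have := hm' i
      by_cases hi : i = x
      · subst hi
        simp [hxS]
      · simpa [hi, Finset.mem_insert] using this
    · have := hm' x
      simpa using this
  · rintro ⟨m, n⟩ hp
    rw [Finset.mem_product] at hp
    have hm' := Fintype.mem_piFinset.mp hp.1
    refine Fintype.mem_piFinset.mpr fun i => ?_
    have := hm' i
    by_cases hi : i = x
    · subst hi
      simpa using hp.2
    · simpa [hi, Finset.mem_insert] using this
  · intro m _
    funext i
    by_cases hi : i = x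
    · subst hi; simp
    · simp [hi]
  · rintro ⟨m, n⟩ hp
    rw [Finset.mem_product] at hp
    have hm' := Fintype.mem_piFinset.mp hp.1 x
    rw [if_neg hxS, Finset.mem_singleton] at hm'
    simp only at hm' ⊢
    refine Prod.ext ?_ ?_
    · funext i
      by_cases hi : i = x
      · subst hi; simp [hm']
      · simp [hi]
    · simp
  · intro m _
    simp

private theorem AG7b_sgm (S : Finset I) (x : I) (hxS : x ∉ S) (m : I → ℕ) (n : ℕ) :
    sgm (insert x S) (Function.update m x n) = (if n = 0 then -1 else 1) * sgm S m := by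
  unfold sgm
  have hS : S.filter (fun y => Function.update m x n y = 0) = S.filter (fun y => m y = 0) := by
    refine Finset.filter_congr fun y hy => ?_
    have : y ≠ x := fun e => hxS (e ▸ hy)
    rw [Function.update_of_ne this]
  rw [Finset.filter_insert, hS, Function.update_self]
  by_cases hn : n = 0
  · rw [if_pos hn, if_pos hn, Finset.card_insert_of_notMem (fun h => hxS (Finset.mem_filter.mp h).1),
      pow_succ]
    ring
  · rw [if_neg hn, if_neg hn, one_mul]

private theorem AG7b_all (a : I → I → ℕ) (hs : ∀ i j, a i j = a j i) (R : Finset I)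
    (hR : FinT a R) (k : ℕ) (hk : 1 ≤ k) (q : I → ℚ) (T : Trm I)
    (hT : ∀ x ∈ R, ∀ l, 1 ≤ l → l ≠ k → IsN (T.E (x, l)))
    (hTk : ∀ x ∈ R, ∃ n : ℕ, 1 ≤ n ∧ T.E (x, k) + cqN a R q x = n)
    (hcol : ∀ x ∈ R, ∀ j, j ∉ R → ∀ l, 1 ≤ l → T.Λ j (x, l) ≠ 0 → l = k ∨ 1 ≤ T.E (x, l)) (B : ℕ) (hB : bnd R k q T ≤ B) (S : Finset I) (hS : S ⊆ R) :
    TV a (tauT a R k q T) = ∑ m ∈ mbox S B, sgm S m * TV a (AG7b_P a R k q T S m) := by
  induction S using Finset.induction_on with
  | empty =>
    have h0 : mbox (∅ : Finset I) B = {0} := by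
      ext m
      unfold mbox
      rw [Fintype.mem_piFinset]
      simp only [Finset.notMem_empty, if_false, Finset.mem_singleton]
      constructor
      · intro h; funext i; exact h i
      · intro h i; rw [h]; rfl
    rw [h0, Finset.sum_singleton]
    have h1 : AG7b_P a R k q T ∅ 0 = tauT a R k q T := by
      unfold AG7b_P tauT blkT
      simp only [Finset.notMem_empty, if_false, zero_sub]
    rw [h1]
    simp [sgm]
  | insert x S hxS ih =>
    have hx : x ∈ R := hS (Finset.mem_insert_self x S)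
    rw [ih (fun y hy => hS (Finset.mem_insert_of_mem hy)), AG7b_mbox_insert S x hxS B]
    refine Finset.sum_congr rfl fun m _ => ?_
    rw [AG7b_one a hs R hR k hk q T hT hTk hcol B hB S m x hx hxS]
    have hr : Finset.range (B + 1) = insert 0 (Finset.Icc 1 B) := by
      ext n
      simp only [Finset.mem_range, Finset.mem_insert, Finset.mem_Icc]
      omega
    rw [hr, Finset.sum_insert (by simp), AG7b_sgm S x hxS m 0, if_pos rfl, mul_add, Finset.mul_sum]
    congr 1
    · ring
    · refine Finset.sum_congr rfl fun n hn => ?_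
      have hn' : n ≠ 0 := by
        have := (Finset.mem_Icc.mp hn).1
        omega
      rw [AG7b_sgm S x hxS m n, if_neg hn', one_mul]

private theorem AG7b_raw (a : I → I → ℕ) (R : Finset I) (k : ℕ) (q : I → ℚ) (m : I → ℕ)
    (T : Trm I) : AG7b_P a R k q T R m = rawT a R k q m T := by
  have hδ : (fun i => (if i ∈ R then (m i : ℚ) else 0) - resQ R q i) =
      fun i => if i ∈ R then (m i : ℚ) - q i else 0 := by
    funext i
    unfold resQ
    by_cases hi : i ∈ R
    · simp [hi]
    · simp [hi]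
  apply AG7b_trm_ext
  · show (T.eta a k _).γ = (T.eta a k _).γ
    rw [hδ]
  · show (T.eta a k _).E = (T.eta a k _).E
    rw [hδ]
  · funext j
    rw [AG7b_P_Λ]
    show _ = if j ∈ R then (if m j = 0 then sy j (k - 1) else cE a j k) else T.Λ j
    by_cases hj : j ∈ R
    · simp [hj]
    · simp [hj]

theorem TV_step_gen (a : I → I → ℕ) (hs : ∀ i j, a i j = a j i) (R : Finset I) (hR : FinT a R)
    (k : ℕ) (hk : 1 ≤ k) (q : I → ℚ) (T : Trm I)
    (hT : ∀ x ∈ R, ∀ l, 1 ≤ l → l ≠ k → IsN (T.E (x, l)))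
    (hTk : ∀ x ∈ R, ∃ n : ℕ, 1 ≤ n ∧ T.E (x, k) + cqN a R q x = n)
    (hcol : ∀ x ∈ R, ∀ j, j ∉ R → ∀ l, 1 ≤ l → T.Λ j (x, l) ≠ 0 → l = k ∨ 1 ≤ T.E (x, l))
    (B : ℕ) (hB : bnd R k q T ≤ B) :
    TV a (tauT a R k q T) = ∑ m ∈ mbox R B, sgm R m * TV a (rawT a R k q m T) := by
  rw [AG7b_all a hs R hR k hk q T hT hTk hcol B hB R (Finset.Subset.refl R)]
  refine Finset.sum_congr rfl fun m _ => ?_
  rw [AG7b_raw]

end

end Pool.Agent.H27.KAC
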