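import Pool.Agent.H41.KA.AG7

/-!
KAC ADE, module AG8: events and the no-pole lemma (NP).

`evU_event`: `evU_cons'` (or `evU_eq_evF` for the tail) and `Resp.stp` for the terms `patT a (uni U) c.2 T`, which are `RReg b.B`
(`RReg_patT`, `hins`); the bound `bnd b.B f q` of these terms is the one of `T` (the patterns change `γ` only on `uni U`);
`rawT_patT_comm`.

`NP_list`: induction on `f`.  `f = 0`: `Resp.a0` for all blocks, then all insertions are at level `0`, `TV_van` in direction `s`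
(`DReg` only concerns the levels `≥ 1`).  Step: replace `Φ_b f` by `Φ_b (f-1)` block after block (`evU_event`, `evU_perm`), every
difference is a sum of terms `evU others (rawT b.B f q m T)`; these vanish by `raw_kill` (`z = s`; `hI2` from `hZ` and
`WinPat.cls`).

`NP_up`: `L` = the components of `N` adjacent to `s`, `N'` = the union of the others; `NP_list` for `T' = upT a N' k q T` at `f = k - 1`.
-/

set_option autoImplicit false

namespace Pool.Agent.H27.KAC

open scoped BigOperators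

section

variable {I : Type} [Fintype I] [DecidableEq I]

/-- there is a response family for the functional `Up_k[q]` on `A` (`k ≥ 1`). -/
def UpFam (a : I → I → ℕ) (cd : CrossData a) (A : Finset I) (q : I → ℚ) (k : ℕ) : Prop :=
  ∃ Φ : ℕ → FFn I, Resp a cd A q (k - 1) (fun l => upw a cd A q (k - l)) Φ ∧
    ∀ T : Trm I, RReg A T → evF a A (Φ (k - 1)) T = TV a (upT a A k q T)

/-- there is a response family for the functional `tau_{L+1}[q]` on `A`. -/
def TauFam (a : I → I → ℕ) (cd : CrossData a) (A : Finset I) (q : I → ℚ) (L : ℕ) : Prop :=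
  ∃ Φ : ℕ → FFn I, Resp a cd A q L (fun l => cn a cd A q (L - l)) Φ ∧
    Φ L = [(1, ⟨fun _ => L, q⟩)]

/-- choose data for all components of `N`, as a list. -/
theorem exists_RB_list (a : I → I → ℕ) (hs : ∀ i j, a i j = a j i) (N : Finset I)
    (P : Finset I → (ℕ → ℚ) → (ℕ → FFn I) → Prop) (h : ∀ A ∈ comps a N, ∃ w Φ, P A w Φ) :
    ∃ L : List (RB I), (∀ b ∈ L, b.B ∈ comps a N ∧ P b.B b.w b.Φ) ∧
      (∀ A ∈ comps a N, ∃ b ∈ L, b.B = A) ∧ L.Pairwise (fun b c => Sep a b.B c.B) ∧ uniR L = N ∧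
      ∀ g : Finset I → ℚ, (L.map (fun b => g b.B)).prod = ∏ A ∈ comps a N, g A := by
  classical
  choose w Φ hP using h
  refine ⟨(comps a N).attach.toList.map (fun A => ⟨A.1, w A.1 A.2, Φ A.1 A.2⟩), ?_, ?_, ?_, ?_, ?_⟩
  · intro b hb
    obtain ⟨A, -, rfl⟩ := List.mem_map.1 hb
    exact ⟨A.2, hP A.1 A.2⟩
  · intro A hA
    exact ⟨⟨A, w A hA, Φ A hA⟩, List.mem_map.2 ⟨⟨A, hA⟩, by simp, rfl⟩, rfl⟩
  · rw [List.pairwise_map]
    have hnd : (comps a N).attach.toList.Nodup := Finset.nodup_toList _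
    refine List.Pairwise.imp ?_ hnd
    intro A B hAB
    have hne : A.1 ≠ B.1 := fun h => hAB (Subtype.ext h)
    exact ⟨comps_disjoint hs A.2 B.2 hne, comps_nonadj hs A.2 B.2 hne⟩
  · ext x
    rw [mem_uniR]
    constructor
    · rintro ⟨b, hb, hx⟩
      obtain ⟨A, -, rfl⟩ := List.mem_map.1 hb
      exact comps_subset A.2 hx
    · intro hx
      obtain ⟨A, hA, hxA⟩ := comps_cover hs x hx
      exact ⟨⟨A, w A hA, Φ A hA⟩, List.mem_map.2 ⟨⟨A, hA⟩, by simp, rfl⟩, hxA⟩
  · intro g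
    rw [List.map_map]
    have h1 : ((comps a N).attach.toList.map
        ((fun b : RB I => g b.B) ∘ fun A => (⟨A.1, w A.1 A.2, Φ A.1 A.2⟩ : RB I))).prod =
        ∏ A ∈ (comps a N).attach, g A.1 := by
      rw [← Finset.prod_map_toList]
      rfl
    rw [h1, Finset.prod_attach (comps a N) g]

/-- the blocks of `L` at the frontier `f`. -/
def atF (L : List (RB I)) (f : ℕ) : List (Finset I × FFn I) := L.map (fun b => (b.B, b.Φ f))

theorem uni_atF (L : List (RB I)) (f : ℕ) : uni (atF L f) = uniR L := by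
  induction L with
  | nil => rfl
  | cons b L ih =>
    change b.B ∪ uni (atF L f) = b.B ∪ uniR L
    rw [ih]

omit [Fintype I] in
theorem AG8_uni_cons (b : Finset I × FFn I) (U : List (Finset I × FFn I)) :
    uni (b :: U) = b.1 ∪ uni U := rfl

omit [Fintype I] in
theorem AG8_uniR_cons (b : RB I) (L : List (RB I)) : uniR (b :: L) = b.B ∪ uniR L := rfl

theorem AG8_atF_cons (b : RB I) (L : List (RB I)) (f : ℕ) :
    atF (b :: L) f = (b.B, b.Φ f) :: atF L f := rfl

theorem AG8_bnd_congr (R : Finset I) (k : ℕ) (q : I → ℚ) (T T' : Trm I)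
    (h : ∀ i ∈ R, T.γ i = T'.γ i) : bnd R k q T = bnd R k q T' := by
  unfold bnd
  exact Finset.sum_congr rfl (fun i hi => by rw [h i hi])

theorem AG8_patT_γ (a : I → I → ℕ) (B : Finset I) (π : Pat I) (T : Trm I) (i : I) (hi : i ∉ B) :
    (patT a B π T).γ i = T.γ i := by
  change T.γ i - (π.s i : ℚ) * (-resQ B π.q i) = T.γ i
  simp [resQ, hi]

theorem AG8_sep_uni (a : I → I → ℕ) (B : Finset I) (U : List (Finset I × FFn I))
    (h : ∀ c ∈ U, Sep a B c.1) : Sep a B (uni U) := by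
  constructor
  · rw [Finset.disjoint_left]
    intro x hx hxU
    obtain ⟨c, hc, hxc⟩ := (mem_uni U x).1 hxU
    exact Finset.disjoint_left.1 (h c hc).1 hx hxc
  · intro x hx y hy
    obtain ⟨c, hc, hyc⟩ := (mem_uni U y).1 hy
    exact (h c hc).2 x hx y hyc

theorem AG8_sep_uniR (a : I → I → ℕ) (B : Finset I) (L : List (RB I))
    (h : ∀ c ∈ L, Sep a B c.B) : Sep a B (uniR L) := by
  constructor
  · rw [Finset.disjoint_left]
    intro x hx hxU
    obtain ⟨c, hc, hxc⟩ := (mem_uniR L x).1 hxU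
    exact Finset.disjoint_left.1 (h c hc).1 hx hxc
  · intro x hx y hy
    obtain ⟨c, hc, hyc⟩ := (mem_uniR L y).1 hy
    exact (h c hc).2 x hx y hyc

/-- evaluation of the first block by an explicit term. -/
theorem AG8_head (a : I → I → ℕ) (hs : ∀ i j, a i j = a j i) (B : Finset I) (Φ : FFn I)
    (U : List (Finset I × FFn I)) (hd : U.Pairwise (fun b c => Disjoint b.1 c.1))
    (hsep : ∀ b ∈ U, Sep a B b.1) (w : ℚ) (k σ : ℕ) (q : I → ℚ)
    (h : ∀ T : Trm I, RReg B T → evF a B Φ T = w * TV a (blkT a B k σ q T)) (T : Trm I)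
    (hT : RReg (B ∪ uni U) T) :
    evU a ((B, Φ) :: U) T = w * evU a U (blkT a B k σ q T) := by
  have hS : Sep a B (uni U) := AG8_sep_uni a B U hsep
  rw [evU_cons' a (B, Φ) U (fun c hc => (hsep c hc).1) hd T, evU_eq_evF a U hd]
  unfold evF
  rw [← List.sum_map_mul_left]
  refine congrArg List.sum (List.map_congr_left ?_)
  intro c _
  have h1 := h (patT a (uni U) c.2 T) (RReg_patT a hs B (uni U) hS.1 c.2
    (fun x hx y hy _ => hS.2 x hx y hy) T hT)
  change c.1 * evF a B Φ (patT a (uni U) c.2 T) = _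
  rw [h1, blkT_patT_comm a B (uni U) hS.1]
  ring

theorem AG8_disj_atF (a : I → I → ℕ) (L : List (RB I)) (g : RB I → ℕ)
    (hd : L.Pairwise (fun b c => Sep a b.B c.B)) :
    (L.map (fun b => (b.B, b.Φ (g b)))).Pairwise (fun b c => Disjoint b.1 c.1) := by
  rw [List.pairwise_map]
  exact hd.imp (fun h => h.1)

/-- evaluation of all blocks by explicit terms with weights. -/
theorem AG8_eval (a : I → I → ℕ) (hs : ∀ i j, a i j = a j i) (w : RB I → ℚ) (q : I → ℚ)
    (k σ f : ℕ) (L : List (RB I)) (hd : L.Pairwise (fun b c => Sep a b.B c.B))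
    (h : ∀ b ∈ L, ∀ T : Trm I, RReg b.B T →
      evF a b.B (b.Φ f) T = w b * TV a (blkT a b.B k σ q T))
    (T : Trm I) (hT : RReg (uniR L) T) :
    evU a (atF L f) T = (L.map w).prod * TV a (blkT a (uniR L) k σ q T) := by
  induction L generalizing T with
  | nil =>
    change evU a [] T = 1 * TV a (blkT a ∅ k σ q T)
    rw [evU_nil, blkT_empty, one_mul]
  | cons b L ih =>
    rw [List.pairwise_cons] at hd
    have hS : Sep a b.B (uniR L) := AG8_sep_uniR a b.B L hd.1
    have hT' : RReg (b.B ∪ uniR L) T := hT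
    rw [AG8_atF_cons, AG8_head a hs b.B (b.Φ f) (atF L f) (AG8_disj_atF a L (fun _ => f) hd.2)
      ?_ (w b) k σ q (h b List.mem_cons_self) T (by rw [uni_atF]; exact hT'),
      ih hd.2 (fun c hc => h c (List.mem_cons_of_mem b hc)) (blkT a b.B k σ q T)
        (RReg_blkT a hs (uniR L) b.B (Sep.symm hs hS) k σ q T (by
          rw [Finset.union_comm]; exact hT')),
      ← blkT_union a (uniR L) b.B hS.1.symm, AG8_uniR_cons, Finset.union_comm b.B (uniR L),
      List.map_cons, List.prod_cons]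
    · ring
    · intro c hc
      obtain ⟨c', hc', rfl⟩ := List.mem_map.1 hc
      exact hd.1 c' hc'

open Classical in
theorem evU_event (a : I → I → ℕ) (hs : ∀ i j, a i j = a j i) (cd : CrossData a) (q : I → ℚ)
    (K : ℕ) (b : RB I) (hb : Resp a cd b.B q K b.w b.Φ) (f : ℕ) (hf : 1 ≤ f) (hfK : f ≤ K)
    (U : List (Finset I × FFn I)) (hdb : ∀ c ∈ U, Disjoint b.B c.1)
    (hd : U.Pairwise (fun b c => Disjoint b.1 c.1))
    (hins : ∀ c ∈ prodF U, ∀ x ∈ b.B, ∀ y ∈ uni U, c.2.q y ≠ 0 → a x y = 0)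
    (T : Trm I) (hT : RReg (b.B ∪ uni U) T) (B : ℕ) (hB : bnd b.B f q T ≤ B) :
    evU a ((b.B, b.Φ f) :: U) T - evU a ((b.B, b.Φ (f - 1)) :: U) T =
      b.w f * ∑ m ∈ (mbox b.B B).filter (fun m => ¬ Plat b.B q m),
        sgm b.B m * evU a U (rawT a b.B f q m T) := by
  have hD : Disjoint b.B (uni U) := by
    rw [Finset.disjoint_left]
    intro x hx hxU
    obtain ⟨c, hc, hxc⟩ := (mem_uni U x).1 hxU
    exact Finset.disjoint_left.1 (hdb c hc) hx hxc
  rw [evU_cons' a (b.B, b.Φ f) U hdb hd T, evU_cons' a (b.B, b.Φ (f - 1)) U hdb hd T]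
  have h1 : ∀ c ∈ prodF U, evF a b.B (b.Φ f) (patT a (uni U) c.2 T) -
      evF a b.B (b.Φ (f - 1)) (patT a (uni U) c.2 T) =
      b.w f * ∑ m ∈ (mbox b.B B).filter (fun m => ¬ Plat b.B q m),
        sgm b.B m * TV a (patT a (uni U) c.2 (rawT a b.B f q m T)) := by
    intro c hc
    have hR : RReg b.B (patT a (uni U) c.2 T) := RReg_patT a hs b.B (uni U) hD c.2
      (fun x hx y hy hq => hins c hc x hx y hy hq) T hT
    have hb1 : bnd b.B f q (patT a (uni U) c.2 T) = bnd b.B f q T :=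
      AG8_bnd_congr b.B f q _ _ (fun i hi =>
        AG8_patT_γ a (uni U) c.2 T i (fun hiU => Finset.disjoint_left.1 hD hi hiU))
    rw [hb.stp f hf hfK _ hR]
    unfold Rv
    rw [← sum_raw_bound a b.B f hf q (patT a (uni U) c.2 T) (fun m => ¬ Plat b.B q m) B
      (by rw [hb1]; exact hB)]
    refine congrArg (fun z => b.w f * z) (Finset.sum_congr rfl ?_)
    intro m _
    rw [rawT_patT_comm a b.B (uni U) hD]
  have h2 : ∀ m : I → ℕ, evU a U (rawT a b.B f q m T) =
      ((prodF U).map (fun c => c.1 * TV a (patT a (uni U) c.2 (rawT a b.B f q m T)))).sum := by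
    intro m
    rw [evU_eq_evF a U hd]
    rfl
  simp only [h2]
  generalize prodF U = l at h1
  clear hins h2
  induction l with
  | nil => simp
  | cons c l ih =>
    have ih' := ih (fun c' hc' => h1 c' (List.mem_cons_of_mem c hc'))
    have hc := h1 c List.mem_cons_self
    simp only [List.map_cons, List.sum_cons, mul_add, Finset.sum_add_distrib]

    have h3 : b.w f * ∑ m ∈ (mbox b.B B).filter (fun m => ¬ Plat b.B q m),
        sgm b.B m * (c.1 * TV a (patT a (uni U) c.2 (rawT a b.B f q m T))) =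
        c.1 * (b.w f * ∑ m ∈ (mbox b.B B).filter (fun m => ¬ Plat b.B q m),
        sgm b.B m * TV a (patT a (uni U) c.2 (rawT a b.B f q m T))) := by
      rw [mul_left_comm, Finset.mul_sum (s := (mbox b.B B).filter (fun m => ¬ Plat b.B q m))
        (a := c.1)]
      refine congrArg (fun z => b.w f * z) (Finset.sum_congr rfl ?_)
      intro m _
      ring
    rw [h3, ← hc, ← ih']
    ring

/-- value at the frontier `0`. -/
theorem evU_a0 (a : I → I → ℕ) (hs : ∀ i j, a i j = a j i) (cd : CrossData a) (q : I → ℚ)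
    (K : ℕ) (L : List (RB I)) (hd : L.Pairwise (fun b c => Sep a b.B c.B))
    (hresp : ∀ b ∈ L, Resp a cd b.B q K b.w b.Φ) (T : Trm I) (hT : RReg (uniR L) T) :
    evU a (atF L 0) T = (L.map (fun b => b.w 0)).prod * TV a (tauT a (uniR L) 0 q T) := by
  exact AG8_eval a hs (fun b => b.w 0) q 0 (0 + 1) 0 L hd
    (fun b hb T hT => (hresp b hb).a0 T hT) T hT

omit [Fintype I] in
theorem AG8_uni_append (U V : List (Finset I × FFn I)) : uni (U ++ V) = uni U ∪ uni V := by
  induction U with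
  | nil => simp [uni]
  | cons b U ih =>
    change b.1 ∪ uni (U ++ V) = (b.1 ∪ uni U) ∪ uni V
    rw [ih, Finset.union_assoc]

omit [Fintype I] in
theorem AG8_uniR_append (U V : List (RB I)) : uniR (U ++ V) = uniR U ∪ uniR V := by
  induction U with
  | nil => simp [uniR]
  | cons b U ih =>
    change b.B ∪ uniR (U ++ V) = (b.B ∪ uniR U) ∪ uniR V
    rw [ih, Finset.union_assoc]

theorem AG8_FinT_uni (a : I → I → ℕ) (hs : ∀ i j, a i j = a j i) (U : List (Finset I × FFn I))
    (hfin : ∀ b ∈ U, FinT a b.1) (hd : U.Pairwise (fun b c => Sep a b.1 c.1)) :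
    FinT a (uni U) := by
  induction U with
  | nil => exact FinT.empty a
  | cons b U ih =>
    rw [List.pairwise_cons] at hd
    exact FinT.union_sep hs (hfin b List.mem_cons_self)
      (ih (fun c hc => hfin c (List.mem_cons_of_mem b hc)) hd.2)
      (AG8_sep_uni a b.1 U hd.1)

/-- the value of a term which is regular in the direction `s` after filling the blocks at level zero. -/
theorem AG8_lev0 (a : I → I → ℕ) (hs : ∀ i j, a i j = a j i) (R : Finset I) (q : I → ℚ) (s : I)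
    (hsR : s ∉ R) (hss : a s s = 0) (T : Trm I) (hN : ∀ l, 1 ≤ l → IsN (T.E (s, l)))
    (hcol : ∀ j, j ∉ R → ∀ l, 1 ≤ l → T.Λ j (s, l) ≠ 0 → 1 ≤ T.E (s, l)) :
    TV a (tauT a R 0 q T) = 0 := by
  have hE : ∀ l, 1 ≤ l → (tauT a R 0 q T).E (s, l) = T.E (s, l) := by
    intro l hl
    rw [blkT_E, if_neg (by omega), add_zero]
  refine TV_van a hs _ s hss ⟨?_, ?_⟩
  · intro l hl
    obtain ⟨n, hn⟩ := hN l hl
    exact ⟨n, by rw [hE l hl, hn]⟩
  · intro j l hl hne
    rw [hE l hl]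
    by_cases hj : j ∈ R
    · exfalso
      apply hne
      change (if j ∈ R then sy j (0 + 1) else T.Λ j) (s, l) = 0
      rw [if_pos hj]
      have hjs : j ≠ s := fun h => hsR (h ▸ hj)
      exact Finsupp.single_eq_of_ne (fun h => hjs (congrArg Prod.fst h).symm)
    · apply hcol j hj l hl
      change (if j ∈ R then sy j (0 + 1) else T.Λ j) (s, l) ≠ 0 at hne
      rw [if_neg hj] at hne
      exact hne

open Classical in
/-- one event is zero. -/
theorem AG8_event_zero (a : I → I → ℕ) (hs : ∀ i j, a i j = a j i) (cd : CrossData a) (q : I → ℚ)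
    (K : ℕ) (b : RB I) (L1 L2 : List (RB I)) (hfin : ∀ c ∈ b :: (L1 ++ L2), FinT a c.B)
    (hconn : ConnS a b.B) (hq : QOk a b.B q)
    (hd : (b :: (L1 ++ L2)).Pairwise (fun b c => Sep a b.B c.B))
    (hresp : ∀ c ∈ b :: (L1 ++ L2), Resp a cd c.B q K c.w c.Φ) (s : I)
    (hsL : s ∉ uniR (b :: (L1 ++ L2)))
    (hss : a s s = 0) (hadj : ∃ y ∈ b.B, 0 < a s y)
    (hZ : IsZ (∑ y ∈ uniR (b :: (L1 ++ L2)), (a s y : ℚ) * q y)) (T : Trm I)
    (hT : RReg (uniR (b :: (L1 ++ L2))) T)
    (hN : ∀ l, 1 ≤ l → IsN (T.E (s, l)))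
    (hcol : ∀ j, j ∉ uniR (b :: (L1 ++ L2)) → ∀ l, 1 ≤ l → T.Λ j (s, l) ≠ 0 → 1 ≤ T.E (s, l))
    (f : ℕ) (hf : f + 1 ≤ K) :
    evU a ((b.B, b.Φ (f + 1)) :: (atF L1 (f + 1) ++ atF L2 f)) T =
      evU a ((b.B, b.Φ f) :: (atF L1 (f + 1) ++ atF L2 f)) T := by
  have hd' := List.pairwise_cons.1 hd
  have huni : uni (atF L1 (f + 1) ++ atF L2 f) = uniR (L1 ++ L2) := by
    rw [AG8_uni_append, uni_atF, uni_atF, AG8_uniR_append]
  have hS : Sep a b.B (uniR (L1 ++ L2)) := AG8_sep_uniR a b.B (L1 ++ L2) hd'.1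
  have hSepU : (atF L1 (f + 1) ++ atF L2 f).Pairwise (fun b c => Sep a b.1 c.1) := by
    have h12 := List.pairwise_append.1 hd'.2
    rw [List.pairwise_append]
    refine ⟨?_, ?_, ?_⟩
    · exact List.pairwise_map.2 h12.1
    · exact List.pairwise_map.2 h12.2.1
    · intro x hx y hy
      obtain ⟨x', hx', rfl⟩ := List.mem_map.1 hx
      obtain ⟨y', hy', rfl⟩ := List.mem_map.1 hy
      exact h12.2.2 x' hx' y' hy'
  have hDU : (atF L1 (f + 1) ++ atF L2 f).Pairwise (fun b c => Disjoint b.1 c.1) :=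
    hSepU.imp (fun h => h.1)
  have hmemU : ∀ c ∈ (atF L1 (f + 1) ++ atF L2 f), ∃ c' ∈ L1 ++ L2, c.1 = c'.B ∧
      (∀ d ∈ c.2, PatWide a cd c.1 (f + 1) d.2) ∧ (∀ d ∈ c.2, ∀ x ∈ c.1, IsZ (d.2.q x - q x)) := by
    intro c hc
    rcases List.mem_append.1 hc with h | h
    · obtain ⟨c', hc', rfl⟩ := List.mem_map.1 h
      have hm : c' ∈ L1 ++ L2 := List.mem_append_left _ hc'
      have hr := hresp c' (List.mem_cons_of_mem b hm)
      exact ⟨c', hm, rfl, fun d hd => (hr.win (f + 1) hf d hd).wide,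
        fun d hd => (hr.win (f + 1) hf d hd).cls⟩
    · obtain ⟨c', hc', rfl⟩ := List.mem_map.1 h
      have hm : c' ∈ L1 ++ L2 := List.mem_append_right _ hc'
      have hr := hresp c' (List.mem_cons_of_mem b hm)
      exact ⟨c', hm, rfl, fun d hd => (hr.win f (by omega) d hd).wide_succ,
        fun d hd => (hr.win f (by omega) d hd).cls⟩
  have hUfin : FinT a (uni (atF L1 (f + 1) ++ atF L2 f)) := by
    refine AG8_FinT_uni a hs _ ?_ hSepU
    intro c hc
    obtain ⟨c', hc', h1, -⟩ := hmemU c hc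
    rw [h1]
    exact hfin c' (List.mem_cons_of_mem b hc')
  have hev := evU_event a hs cd q K b (hresp b List.mem_cons_self) (f + 1) (by omega) hf
    (atF L1 (f + 1) ++ atF L2 f) (by
      intro c hc
      obtain ⟨c', hc', h1, -⟩ := hmemU c hc
      rw [h1]
      exact (hd'.1 c' hc').1) hDU (by
      intro c _ x hx y hy _
      rw [huni] at hy
      exact hS.2 x hx y hy) T (by rw [huni]; exact hT) (bnd b.B (f + 1) q T) le_rfl
  rw [Nat.add_sub_cancel] at hev
  rw [← sub_eq_zero, hev]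
  refine mul_eq_zero_of_right _ (Finset.sum_eq_zero ?_)
  intro m hm
  refine mul_eq_zero_of_right _ ?_
  rw [evU_eq_evF a _ hDU]
  unfold evF
  refine List.sum_eq_zero ?_
  intro z hz
  obtain ⟨c, hc, rfl⟩ := List.mem_map.1 hz
  refine mul_eq_zero_of_right _ ?_
  have hsL' : s ∉ b.B ∧ s ∉ uniR (L1 ++ L2) := by
    rw [AG8_uniR_cons, Finset.mem_union, not_or] at hsL
    exact hsL
  have hmn : ¬ Plat b.B q m := (Finset.mem_filter.1 hm).2
  refine raw_kill a hs cd (f + 1) (by omega) b.B (hfin b List.mem_cons_self) hconn q hq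
    (uni (atF L1 (f + 1) ++ atF L2 f)) hUfin (by rw [huni]; exact hS) c.2
    (PatWide_prodF a hs cd (f + 1) _ hSepU (fun b' hb' => by
      obtain ⟨c', hc', h1, h2, -⟩ := hmemU b' hb'
      exact h2) c hc) T (by rw [huni]; exact hT) m hmn s hsL'.1 (by rw [huni]; exact hsL'.2) hss hadj
    hN ?_ ?_
  · have h1 : ∀ x ∈ uni (atF L1 (f + 1) ++ atF L2 f), IsZ (c.2.q x - q x) := by
      intro x hx
      obtain ⟨b', hb', hxb⟩ := (mem_uni _ x).1 hx
      obtain ⟨d, hd, hdx⟩ := prodF_mem _ hDU c hc b' hb'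
      obtain ⟨c', hc', h2, -, h3⟩ := hmemU b' hb'
      rw [(hdx x hxb).2]
      exact h3 d hd x hxb
    have h2 : ∑ x ∈ b.B, (a s x : ℚ) * q x +
        ∑ x ∈ uni (atF L1 (f + 1) ++ atF L2 f), (a s x : ℚ) * c.2.q x =
        ∑ y ∈ uniR (b :: (L1 ++ L2)), (a s y : ℚ) * q y +
        ∑ x ∈ uni (atF L1 (f + 1) ++ atF L2 f), (a s x : ℚ) * (c.2.q x - q x) := by
      rw [AG8_uniR_cons, Finset.sum_union hS.1, ← huni]
      simp only [mul_sub, Finset.sum_sub_distrib]
      ring
    rw [h2]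
    obtain ⟨n, hn⟩ := hZ
    choose! g hg using h1
    refine ⟨n + ∑ x ∈ uni (atF L1 (f + 1) ++ atF L2 f), (a s x : ℤ) * g x, ?_⟩
    rw [hn]
    push_cast
    congr 1
    refine Finset.sum_congr rfl ?_
    intro x hx
    rw [hg x hx]
  · intro j hj hjU l hl hne
    right
    refine hcol j ?_ l hl hne
    rw [AG8_uniR_cons, Finset.mem_union, not_or]
    rw [huni] at hjU
    exact ⟨hj, hjU⟩

theorem NP_list (a : I → I → ℕ) (hs : ∀ i j, a i j = a j i) (cd : CrossData a) (q : I → ℚ)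
    (K : ℕ) (L : List (RB I)) (hfin : ∀ b ∈ L, FinT a b.B)
    (hconn : ∀ b ∈ L, ConnS a b.B) (hq : ∀ b ∈ L, QOk a b.B q)
    (hd : L.Pairwise (fun b c => Sep a b.B c.B))
    (hresp : ∀ b ∈ L, Resp a cd b.B q K b.w b.Φ) (s : I) (hsL : s ∉ uniR L)
    (hss : a s s = 0) (hadj : ∀ b ∈ L, ∃ y ∈ b.B, 0 < a s y)
    (hZ : IsZ (∑ y ∈ uniR L, (a s y : ℚ) * q y)) (T : Trm I) (hT : RReg (uniR L) T)
    (hN : ∀ l, 1 ≤ l → IsN (T.E (s, l)))
    (hcol : ∀ j, j ∉ uniR L → ∀ l, 1 ≤ l → T.Λ j (s, l) ≠ 0 → 1 ≤ T.E (s, l))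
    (f : ℕ) (hf : f ≤ K) : evU a (atF L f) T = 0 := by
  induction f with
  | zero =>
    rw [evU_a0 a hs cd q K L hd hresp T hT, AG8_lev0 a hs (uniR L) q s hsL hss T hN hcol, mul_zero]
  | succ f ih =>
    have key : ∀ L2 L1 : List (RB I), L1 ++ L2 = L →
        evU a (atF L1 (f + 1) ++ atF L2 f) T = evU a (atF L (f + 1)) T := by
      intro L2
      induction L2 with
      | nil =>
        intro L1 h1
        rw [List.append_nil] at h1
        rw [h1]
        simp [atF]
      | cons b L2 ih2 =>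
        intro L1 h1
        have h2 := ih2 (L1 ++ [b]) (by rw [← h1]; simp)
        rw [← h2]
        have hp : (L1 ++ b :: L2).Perm (b :: (L1 ++ L2)) := List.perm_middle
        have hmem : ∀ c, c ∈ b :: (L1 ++ L2) → c ∈ L := by
          intro c hc
          rw [← h1]
          exact hp.symm.subset hc
        have hbL : b ∈ L := hmem b List.mem_cons_self
        have hu : uniR (b :: (L1 ++ L2)) = uniR L := by
          rw [← h1, AG8_uniR_append, AG8_uniR_cons, AG8_uniR_cons, AG8_uniR_append]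
          ext x
          simp only [Finset.mem_union]
          tauto
        have hd2 : (b :: (L1 ++ L2)).Pairwise (fun b c => Sep a b.B c.B) := by
          rw [← h1] at hd
          exact hp.pairwise hd (fun {x y} h => Sep.symm hs h)
        have hpe : ∀ Φ : FFn I, evU a (atF L1 (f + 1) ++ (b.B, Φ) :: atF L2 f) T =
            evU a ((b.B, Φ) :: (atF L1 (f + 1) ++ atF L2 f)) T := by
          intro Φ
          refine evU_perm a _ _ List.perm_middle ?_ T
          have h3 : ((b.B, Φ) :: (atF L1 (f + 1) ++ atF L2 f)).Pairwise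
              (fun b c => Disjoint b.1 c.1) := by
            have hd3 := List.pairwise_cons.1 hd2
            have h12 := List.pairwise_append.1 hd3.2
            rw [List.pairwise_cons, List.pairwise_append]
            refine ⟨?_, ?_, ?_, ?_⟩
            · intro c hc
              rcases List.mem_append.1 hc with h | h
              · obtain ⟨c', hc', rfl⟩ := List.mem_map.1 h
                exact (hd3.1 c' (List.mem_append_left _ hc')).1
              · obtain ⟨c', hc', rfl⟩ := List.mem_map.1 h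
                exact (hd3.1 c' (List.mem_append_right _ hc')).1
            · exact List.pairwise_map.2 (h12.1.imp (fun h => h.1))
            · exact List.pairwise_map.2 (h12.2.1.imp (fun h => h.1))
            · intro x hx y hy
              obtain ⟨x', hx', rfl⟩ := List.mem_map.1 hx
              obtain ⟨y', hy', rfl⟩ := List.mem_map.1 hy
              exact (h12.2.2 x' hx' y' hy').1
          exact (List.Perm.pairwise (List.perm_middle (a := (b.B, Φ))).symm h3
            (fun {x y} h => h.symm))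
        have h4 : atF (L1 ++ [b]) (f + 1) ++ atF L2 f =
            atF L1 (f + 1) ++ (b.B, b.Φ (f + 1)) :: atF L2 f := by
          simp [atF]
        rw [h4, AG8_atF_cons, hpe, hpe]
        exact (AG8_event_zero a hs cd q K b L1 L2 (fun c hc => hfin c (hmem c hc)) (hconn b hbL)
          (hq b hbL) hd2 (fun c hc => hresp c (hmem c hc)) s (by rw [hu]; exact hsL) hss
          (hadj b hbL) (by rw [hu]; exact hZ) T (by rw [hu]; exact hT) hN
          (by rw [hu]; exact hcol) f hf).symm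
    rw [← key L [] rfl]
    exact ih (by omega)

/-- evaluation of all blocks by explicit terms: `h` is the evaluation of one block for all regular terms. -/
theorem evU_eval_up (a : I → I → ℕ) (hs : ∀ i j, a i j = a j i) (q : I → ℚ) (k f : ℕ)
    (L : List (RB I)) (hd : L.Pairwise (fun b c => Sep a b.B c.B))
    (h : ∀ b ∈ L, ∀ T : Trm I, RReg b.B T → evF a b.B (b.Φ f) T = TV a (upT a b.B k q T))
    (T : Trm I) (hT : RReg (uniR L) T) :
    evU a (atF L f) T = TV a (upT a (uniR L) k q T) := by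
  have h1 := AG8_eval a hs (fun _ => 1) q k (k - 1) f L hd
    (fun b hb T hT => by rw [one_mul]; exact h b hb T hT) T hT
  rw [h1]
  simp

theorem NP_up (a : I → I → ℕ) (hs : ∀ i j, a i j = a j i) (cd : CrossData a) (N : Finset I)
    (hN : FinT a N) (q : I → ℚ) (hq : QOk a N q) (k : ℕ) (hk : 1 ≤ k)
    (hfam : ∀ A ∈ comps a N, UpFam a cd A q k) (s : I) (hsN : s ∉ N) (hss : a s s = 0)
    (hZ : IsZ (∑ y ∈ N, (a s y : ℚ) * q y)) (T : Trm I) (hT : RReg N T)
    (hNs : ∀ l, 1 ≤ l → IsN (T.E (s, l)))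
    (hcol : ∀ j, j ∉ N → ∀ l, 1 ≤ l → T.Λ j (s, l) ≠ 0 → 1 ≤ T.E (s, l)) :
    TV a (upT a N k q T) = 0 := by
  classical
  obtain ⟨L, hL1, -, hL3, hL4, -⟩ := exists_RB_list a hs N
    (fun A w Φ => Resp a cd A q (k - 1) w Φ ∧
      ∀ T : Trm I, RReg A T → evF a A (Φ (k - 1)) T = TV a (upT a A k q T))
    (fun A hA => by
      obtain ⟨Φ, h1, h2⟩ := hfam A hA
      exact ⟨_, Φ, h1, h2⟩)
  obtain ⟨L', hL'⟩ : ∃ L', L' = L.filter (fun b => decide (∃ y ∈ b.B, 0 < a s y)) := ⟨_, rfl⟩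
  obtain ⟨L'', hL''⟩ : ∃ L'', L'' = L.filter (fun b => decide (¬ ∃ y ∈ b.B, 0 < a s y)) := ⟨_, rfl⟩
  have hm' : ∀ b, b ∈ L' ↔ b ∈ L ∧ ∃ y ∈ b.B, 0 < a s y := by
    intro b
    rw [hL', List.mem_filter, decide_eq_true_iff]
  have hm'' : ∀ b, b ∈ L'' ↔ b ∈ L ∧ ¬ ∃ y ∈ b.B, 0 < a s y := by
    intro b
    rw [hL'', List.mem_filter, decide_eq_true_iff]
  have hU : N = uniR L' ∪ uniR L'' := by
    rw [← hL4]
    ext x
    rw [Finset.mem_union, mem_uniR, mem_uniR, mem_uniR]
    constructor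
    · rintro ⟨b, hb, hx⟩
      by_cases h : ∃ y ∈ b.B, 0 < a s y
      · exact Or.inl ⟨b, (hm' b).2 ⟨hb, h⟩, hx⟩
      · exact Or.inr ⟨b, (hm'' b).2 ⟨hb, h⟩, hx⟩
    · rintro (⟨b, hb, hx⟩ | ⟨b, hb, hx⟩)
      · exact ⟨b, ((hm' b).1 hb).1, hx⟩
      · exact ⟨b, ((hm'' b).1 hb).1, hx⟩
  have hsep : Sep a (uniR L') (uniR L'') := by
    have h0 : ∀ b ∈ L', ∀ c ∈ L'', Sep a b.B c.B := by
      intro b hb c hc
      have hb1 := (hm' b).1 hb
      have hc1 := (hm'' c).1 hc
      have hne : b.B ≠ c.B := fun h => hc1.2 (h ▸ hb1.2)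
      exact ⟨comps_disjoint hs (hL1 b hb1.1).1 (hL1 c hc1.1).1 hne,
        comps_nonadj hs (hL1 b hb1.1).1 (hL1 c hc1.1).1 hne⟩
    have h1 : ∀ c ∈ L'', Sep a (uniR L') c.B := by
      intro c hc
      exact Sep.symm hs (AG8_sep_uniR a c.B L' (fun b hb => Sep.symm hs (h0 b hb c hc)))
    exact AG8_sep_uniR a _ L'' h1
  have hs'' : ∀ y ∈ uniR L'', a s y = 0 := by
    intro y hy
    obtain ⟨b, hb, hyb⟩ := (mem_uniR L'' y).1 hy
    have h1 := ((hm'' b).1 hb).2
    by_contra h
    exact h1 ⟨y, hyb, Nat.pos_of_ne_zero h⟩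
  have hsN' : s ∉ uniR L' ∧ s ∉ uniR L'' := by
    rw [hU, Finset.mem_union, not_or] at hsN
    exact hsN
  have hE : ∀ l, (upT a (uniR L'') k q T).E (s, l) = T.E (s, l) := by
    intro l
    rw [blkT_E]
    have h1 : ∑ x ∈ uniR L'', q x * (cart a x s : ℚ) = 0 := by
      refine Finset.sum_eq_zero ?_
      intro x hx
      have h2 : cart a x s = 0 := by
        unfold cart
        have h3 : x ≠ s := fun h => hsN'.2 (h ▸ hx)
        rw [if_neg h3, hs x s, hs'' x hx]
        simp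
      rw [h2]
      simp
    rw [h1]
    simp
  have hstep : upT a N k q T = upT a (uniR L') k q (upT a (uniR L'') k q T) := by
    conv_lhs => rw [hU]
    exact blkT_union a (uniR L') (uniR L'') hsep.1 k (k - 1) q T
  have hd' : L'.Pairwise (fun b c => Sep a b.B c.B) := by
    rw [hL']
    exact hL3.filter _
  have hT' : RReg (uniR L') (upT a (uniR L'') k q T) :=
    RReg_blkT a hs (uniR L') (uniR L'') hsep k (k - 1) q T (by rw [← hU]; exact hT)
  rw [hstep, ← evU_eval_up a hs q k (k - 1) L' hd'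
    (fun b hb T hT => (hL1 b ((hm' b).1 hb).1).2.2 T hT) _ hT']
  refine NP_list a hs cd q (k - 1) L' ?_ ?_ ?_ hd'
    (fun b hb => (hL1 b ((hm' b).1 hb).1).2.1) s hsN'.1 hss (fun b hb => ((hm' b).1 hb).2) ?_
    _ hT' ?_ ?_ (k - 1) le_rfl
  · intro b hb
    exact hN.mono (comps_subset (hL1 b ((hm' b).1 hb).1).1)
  · intro b hb
    exact comps_conn (hL1 b ((hm' b).1 hb).1).1
  · intro b hb x hx
    have hbc := (hL1 b ((hm' b).1 hb).1).1
    obtain ⟨n, hn1, hn2⟩ := hq x (comps_subset hbc hx)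
    refine ⟨n, hn1, ?_⟩
    rw [← hn2]
    unfold cqN
    refine Finset.sum_subset (comps_subset hbc) ?_
    intro j hj hjb
    have h1 : cart a x j = 0 := by
      unfold cart
      have h3 : x ≠ j := fun h => hjb (h ▸ hx)
      rw [if_neg h3, comps_sep hbc x hx j hj hjb]
      simp
    rw [h1]
    simp
  · have h1 : ∑ y ∈ uniR L', (a s y : ℚ) * q y = ∑ y ∈ N, (a s y : ℚ) * q y := by
      rw [hU, Finset.sum_union hsep.1]
      have h2 : ∑ y ∈ uniR L'', (a s y : ℚ) * q y = 0 := by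
        refine Finset.sum_eq_zero ?_
        intro y hy
        rw [hs'' y hy]
        simp
      rw [h2, add_zero]
    rw [h1]
    exact hZ
  · intro l hl
    rw [hE l]
    exact hNs l hl
  · intro j hj l hl hne
    rw [hE l]
    by_cases hj2 : j ∈ uniR L''
    · exfalso
      apply hne
      change (if j ∈ uniR L'' then sy j (k - 1) else T.Λ j) (s, l) = 0
      rw [if_pos hj2]
      have hjs : j ≠ s := fun h => hsN'.2 (h ▸ hj2)
      exact Finsupp.single_eq_of_ne (fun h => hjs (congrArg Prod.fst h).symm)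
    · change (if j ∈ uniR L'' then sy j (k - 1) else T.Λ j) (s, l) ≠ 0 at hne
      rw [if_neg hj2] at hne
      refine hcol j ?_ l hl hne
      rw [hU, Finset.mem_union, not_or]
      exact ⟨hj, hj2⟩

end

end Pool.Agent.H27.KAC
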