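import Pool.Agent.H41.KA.AG8
import Pool.Agent.H41.KA.AG7b

/-!
KAC ADE, module AG9: the star context, evaluation of the chain vertex.

`RB_blkOk`, `up = true`: for kinked terms `evF (Φ (f-1)) = evF (Φ f) - w f Rv = w f (tauT - Rv) = w f PPv = w f (-1)^|B| upT`
(`Resp.knk`, `Resp.stp`, `TV_step_split`, `PPv_kink`); `WinPat.wide_succ`.
-/

set_option autoImplicit false

namespace Pool.Agent.H27.KAC

open scoped BigOperators

section

variable {I : Type} [Fintype I] [DecidableEq I]

/-- context of the star theorem: `R` connected, `x ∈ R` with integral class and affine weight `u`, families for the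
components of `R ∖ x`. -/
structure StarCtx (a : I → I → ℕ) (cd : CrossData a) (R : Finset I) (x : I) (q : I → ℚ) (K : ℕ)
    (u : ℕ → ℚ) (L : List (RB I)) : Prop where
  fin : FinT a R
  conn : ConnS a R
  qok : QOk a R q
  hx : x ∈ R
  hz : IsZ (q x)
  aff : Aff u
  cov : uniR L = R.erase x
  sep : L.Pairwise (fun b c => Sep a b.B c.B)
  bconn : ∀ b ∈ L, ConnS a b.B
  resp : ∀ b ∈ L, Resp a cd b.B q K b.w b.Φ

/-- the weight of the star family. -/
noncomputable def stW (u : ℕ → ℚ) (L : List (RB I)) (l : ℕ) : ℚ :=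
  u l * (L.map (fun b => b.w l)).prod

/-- the star family. -/
noncomputable def stF (x : I) (u : ℕ → ℚ) (L : List (RB I)) (f : ℕ) : FFn I :=
  prodF (({x}, alU u f) :: atF L f)

private theorem AG9_cart_ne (a : I → I → ℕ) (x y : I) (h : x ≠ y) :
    ((cart a x y : ℤ) : ℚ) = -(a x y : ℚ) := by
  unfold cart
  rw [if_neg h]
  push_cast
  ring

private theorem AG9_isN_nonneg_int {r : ℚ} (h : IsZ r) (h0 : 0 ≤ r) : IsN r := by
  obtain ⟨n, hn⟩ := h
  have h1 : (0 : ℤ) ≤ n := by
    rw [hn] at h0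
    exact_mod_cast h0
  obtain ⟨m, hm⟩ := Int.eq_ofNat_of_zero_le h1
  refine ⟨m, ?_⟩
  rw [hn, hm]
  push_cast
  rfl

private theorem AG9_isZ_sum {ι : Type} (s : Finset ι) (f : ι → ℚ) (h : ∀ i ∈ s, IsZ (f i)) :
    IsZ (∑ i ∈ s, f i) := by
  classical
  induction s using Finset.induction_on with
  | empty => exact ⟨0, by simp⟩
  | insert i s hi ih =>
    obtain ⟨m, hm⟩ := h i (Finset.mem_insert_self i s)
    obtain ⟨n, hn⟩ := ih (fun j hj => h j (Finset.mem_insert_of_mem hj))
    refine ⟨m + n, ?_⟩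
    rw [Finset.sum_insert hi, hm, hn]
    push_cast
    ring

private theorem AG9_QOk_sub {a : I → I → ℕ} (hs : ∀ i j, a i j = a j i) {R : Finset I}
    {q : I → ℚ}
    (hR : FinT a R) (hq : QOk a R q) (A : Finset I) (hA : A ⊆ R)
    (h : ∀ y ∈ A, ∀ x ∈ R, x ∉ A → a y x = 0 ∨ IsZ (q x)) : QOk a A q := by
  have hpos : ∀ i ∈ R, 0 ≤ q i := by
    refine FinT.nonneg hs hR q (fun i hi => ?_)
    obtain ⟨n, hn, hn2⟩ := hq i hi
    rw [hn2]
    positivity
  intro y hy
  obtain ⟨n, hn, hn2⟩ := hq y (hA hy)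
  have h1 : cqN a R q y = cqN a A q y + ∑ j ∈ R \ A, ((cart a y j : ℤ) : ℚ) * q j := by
    unfold cqN
    rw [add_comm]
    exact (Finset.sum_sdiff hA).symm
  have h2 : ∑ j ∈ R \ A, ((cart a y j : ℤ) : ℚ) * q j = -∑ j ∈ R \ A, (a y j : ℚ) * q j := by
    rw [← Finset.sum_neg_distrib]
    refine Finset.sum_congr rfl (fun j hj => ?_)
    have hj2 : j ∉ A := (Finset.mem_sdiff.mp hj).2
    rw [AG9_cart_ne a y j (fun he => hj2 (he ▸ hy))]
    ring
  have h3 : IsN (∑ j ∈ R \ A, (a y j : ℚ) * q j) := by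
    refine AG9_isN_nonneg_int (AG9_isZ_sum _ _ (fun j hj => ?_)) (Finset.sum_nonneg (fun j hj => ?_))
    · rcases h y hy j (Finset.mem_sdiff.mp hj).1 (Finset.mem_sdiff.mp hj).2 with h4 | ⟨m, hm⟩
      · exact ⟨0, by rw [h4]; simp⟩
      · exact ⟨a y j * m, by rw [hm]; push_cast; ring⟩
    · exact mul_nonneg (Nat.cast_nonneg _) (hpos j (Finset.mem_sdiff.mp hj).1)
  obtain ⟨m, hm⟩ := h3
  refine ⟨n + m, by omega, ?_⟩
  push_cast
  rw [← hn2, ← hm, h1, h2]
  ring

private theorem AG9_zero {a : I → I → ℕ} (hs : ∀ i j, a i j = a j i) {cd : CrossData a}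
    {R : Finset I} {x : I} {q : I → ℚ} {K : ℕ} {u : ℕ → ℚ} {L : List (RB I)}
    (h : StarCtx a cd R x q K u L) (b : RB I) (hb : b ∈ L) (y : I) (hy : y ∈ b.B) (z : I)
    (hz : z ∈ R) (hzb : z ∉ b.B) (hzx : z ≠ x) : a y z = 0 := by
  have h1 : z ∈ uniR L := by
    rw [h.cov]
    exact Finset.mem_erase.mpr ⟨hzx, hz⟩
  obtain ⟨c, hc, hzc⟩ := (mem_uniR L z).mp h1
  have hbc : b ≠ c := fun he => hzb (he ▸ hzc)
  have hsep : Sep a b.B c.B := by
    have hsymm : ∀ {x y : RB I}, Sep a x.B y.B → Sep a y.B x.B := fun h => Sep.symm hs h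
    rcases List.pairwise_iff_getElem.mp h.sep with _
    obtain ⟨i, hi, hib⟩ := List.mem_iff_getElem.mp hb
    obtain ⟨j, hj, hjc⟩ := List.mem_iff_getElem.mp hc
    have hij : i ≠ j := by
      intro he
      subst he
      exact hbc (hib.symm.trans hjc)
    rcases lt_or_gt_of_ne hij with hlt | hgt
    · have := List.pairwise_iff_getElem.mp h.sep i j hi hj hlt
      rw [hib, hjc] at this
      exact this
    · have := List.pairwise_iff_getElem.mp h.sep j i hj hi hgt
      rw [hib, hjc] at this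
      exact hsymm this
  exact hsep.2 y hy z hzc

/-- the blocks are of finite type, disjoint from `x`, adjacent to `x`, admissible. -/
theorem StarCtx.block {a : I → I → ℕ} (hs : ∀ i j, a i j = a j i) {cd : CrossData a}
    {R : Finset I} {x : I} {q : I → ℚ} {K : ℕ} {u : ℕ → ℚ} {L : List (RB I)}
    (h : StarCtx a cd R x q K u L) (b : RB I) (hb : b ∈ L) :
    b.B ⊆ R ∧ x ∉ b.B ∧ FinT a b.B ∧ QOk a b.B q ∧ (∃ y ∈ b.B, 0 < a x y) := by
  have hsub : b.B ⊆ R.erase x := by
    intro y hy
    rw [← h.cov]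
    exact (mem_uniR L y).mpr ⟨b, hb, hy⟩
  have hsubR : b.B ⊆ R := fun y hy => Finset.mem_of_mem_erase (hsub hy)
  have hx : x ∉ b.B := fun hx => (Finset.mem_erase.mp (hsub hx)).1 rfl
  refine ⟨hsubR, hx, h.fin.mono hsubR, ?_, ?_⟩
  · refine AG9_QOk_sub hs h.fin h.qok b.B hsubR (fun y hy z hz hzb => ?_)
    by_cases hzx : z = x
    · right
      rw [hzx]
      exact h.hz
    · left
      exact AG9_zero hs h b hb y hy z hz hzb hzx
  · obtain ⟨i, hi, j, hj, hjb, hij⟩ := h.conn.2 b.B hsubR (h.bconn b hb).1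
      (fun he => hx (he ▸ h.hx))
    by_cases hjx : j = x
    · refine ⟨i, hi, ?_⟩
      rw [hs x i, ← hjx]
      exact hij
    · rw [AG9_zero hs h b hb i hi j hj hjb hjx] at hij
      exact absurd hij (lt_irrefl 0)

/-- more generally: admissibility on a subset `A` if the missing neighbours have integral class. -/
theorem QOk_sub {a : I → I → ℕ} (hs : ∀ i j, a i j = a j i) {R : Finset I} {q : I → ℚ}
    (hR : FinT a R) (hq : QOk a R q) (A : Finset I) (hA : A ⊆ R)
    (h : ∀ y ∈ A, ∀ x ∈ R, x ∉ A → a y x = 0 ∨ IsZ (q x)) : QOk a A q :=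
  AG9_QOk_sub hs hR hq A hA h

theorem StarCtx.erase_qok {a : I → I → ℕ} (hs : ∀ i j, a i j = a j i) {cd : CrossData a}
    {R : Finset I} {x : I} {q : I → ℚ} {K : ℕ} {u : ℕ → ℚ} {L : List (RB I)}
    (h : StarCtx a cd R x q K u L) : QOk a (R.erase x) q := by
  refine AG9_QOk_sub hs h.fin h.qok (R.erase x) (Finset.erase_subset x R)
    (fun y _ z hz hzb => ?_)
  right
  have hzx : z = x := by
    by_contra hne
    exact hzb (Finset.mem_erase.mpr ⟨hne, hz⟩)
  rw [hzx]
  exact h.hz

/-- `∑_{y ≠ x} a x y q y` is an integer. -/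
theorem StarCtx.sum_int {a : I → I → ℕ} (hs : ∀ i j, a i j = a j i) {cd : CrossData a}
    {R : Finset I} {x : I} {q : I → ℚ} {K : ℕ} {u : ℕ → ℚ} {L : List (RB I)}
    (h : StarCtx a cd R x q K u L) : IsZ (∑ y ∈ R.erase x, (a x y : ℚ) * q y) := by
  obtain ⟨n, _, hn2⟩ := h.qok x h.hx
  obtain ⟨m, hm⟩ := h.hz
  unfold cqN at hn2
  rw [← Finset.add_sum_erase R _ h.hx, cart_self h.fin x h.hx] at hn2
  have h2 : ∑ j ∈ R.erase x, ((cart a x j : ℤ) : ℚ) * q j =
      -∑ j ∈ R.erase x, (a x j : ℚ) * q j := by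
    rw [← Finset.sum_neg_distrib]
    refine Finset.sum_congr rfl (fun j hj => ?_)
    rw [AG9_cart_ne a x j (fun he => (Finset.mem_erase.mp hj).1 he.symm)]
    ring
  rw [h2, hm] at hn2
  refine ⟨2 * m - n, ?_⟩
  push_cast at hn2 ⊢
  linarith

/-- one vertex without insertion: only the column is changed. -/
theorem patT_single_zero (a : I → I → ℕ) (x : I) (π : Pat I) (h0 : π.q x = 0) (T : Trm I) :
    patT a {x} π T = T.col x (sy x (π.s x + 1)) := by
  have h1 : (fun i => -resQ {x} π.q i) = fun _ => (0 : ℚ) := by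
    funext i
    unfold resQ
    split_ifs with hi
    · rw [Finset.mem_singleton.mp hi, h0]
      simp
    · simp
  unfold patT
  rw [h1, etaM_zero]
  unfold Trm.cols Trm.col
  congr 1
  funext i
  by_cases hi : i = x
  · subst hi
    simp
  · simp [hi, Function.update_of_ne]

theorem TV_col_lev0 (a : I → I → ℕ) (T : Trm I) (j x : I) : TV a (T.col j (sy x 0)) = 0 := by
  rw [← TV_col_zero a T j]
  refine TV_lev0 a _ _ rfl (fun _ _ _ => rfl) (fun j' i k hk => ?_)
  unfold Trm.col
  by_cases hj : j' = j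
  · subst hj
    simp only [Function.update_self]
    rw [Finsupp.single_apply, if_neg]
    · rfl
    · intro he
      have := (Prod.ext_iff.mp he).2
      simp only at this
      omega
  · simp only [Function.update_of_ne hj]

theorem evU_col_lev0 (a : I → I → ℕ) (U : List (Finset I × FFn I)) (T : Trm I) (j x : I)
    (hj : j ∉ uni U) : evU a U (T.col j (sy x 0)) = 0 := by
  induction U generalizing T with
  | nil =>
    rw [evU_nil]
    exact TV_col_lev0 a T j x
  | cons b U ih =>
    rw [evU_cons]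
    have hjb : j ∉ b.1 := fun hh => hj ((mem_uni (b :: U) j).mpr ⟨b, List.mem_cons_self, hh⟩)
    have hjU : j ∉ uni U := by
      intro hh
      obtain ⟨c, hc, hjc⟩ := (mem_uni U j).mp hh
      exact hj ((mem_uni (b :: U) j).mpr ⟨c, List.mem_cons_of_mem b hc, hjc⟩)
    have h1 : b.2.map (fun c => c.1 * evU a U (patT a b.1 c.2 (T.col j (sy x 0)))) =
        b.2.map (fun _ => (0 : ℚ)) := by
      refine List.map_congr_left (fun c _ => ?_)
      rw [patT_col_comm a b.1 c.2 j hjb, ih _ hjU, mul_zero]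
    rw [h1]
    simp

/-- evaluation of the chain vertex (also correct for `f = 0`). -/
theorem evU_alU (a : I → I → ℕ) (u : ℕ → ℚ) (f : ℕ) (x : I) (U : List (Finset I × FFn I))
    (hx : x ∉ uni U) (T : Trm I) : evU a (({x}, alU u f) :: U) T =
      u f * evU a U (T.col x (sy x (f + 1))) - u (f + 1) * evU a U (T.col x (sy x f)) := by
  rw [evU_cons]
  unfold alU
  by_cases hf : f = 0
  · subst hf
    rw [if_pos rfl, evU_col_lev0 a U T x x hx]
    simp only [List.map_cons, List.map_nil, List.sum_cons, List.sum_nil]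
    rw [patT_single_zero a x _ rfl]
    simp
  · rw [if_neg hf]
    simp only [List.map_cons, List.map_nil, List.sum_cons, List.sum_nil]
    rw [patT_single_zero a x _ rfl, patT_single_zero a x _ rfl]
    simp only
    rw [show f - 1 + 1 = f from by omega]
    ring

/-- value of the star family as a joint value. -/
theorem evF_stF {a : I → I → ℕ} (hs : ∀ i j, a i j = a j i) {cd : CrossData a}
    {R : Finset I} {x : I} {q : I → ℚ} {K : ℕ} {u : ℕ → ℚ} {L : List (RB I)}
    (h : StarCtx a cd R x q K u L) (f : ℕ) (T : Trm I) :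
    evF a R (stF x u L f) T = evU a (({x}, alU u f) :: atF L f) T := by
  have hd : (({x}, alU u f) :: atF L f).Pairwise
      (fun (b c : Finset I × FFn I) => Disjoint b.1 c.1) := by
    refine List.pairwise_cons.mpr ⟨?_, ?_⟩
    · intro c hc
      unfold atF at hc
      obtain ⟨b, hb, hbc⟩ := List.mem_map.mp hc
      rw [← hbc]
      exact Finset.disjoint_singleton_left.mpr (h.block hs b hb).2.1
    · unfold atF
      rw [List.pairwise_map]
      exact h.sep.imp (fun hh => hh.1)
  rw [evU_eq_evF a _ hd]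
  have h1 : uni (({x}, alU u f) :: atF L f) = R := by
    have h2 : uni (({x}, alU u f) :: atF L f) = {x} ∪ uni (atF L f) := rfl
    rw [h2, uni_atF, h.cov, Finset.union_comm, Finset.union_singleton]
    exact Finset.insert_erase h.hx
  rw [h1]
  rfl

/-- the block data at the frontier `f` for a family which is at the frontier `f` (`up = false`) or `f - 1` (`up = true`). -/
def RB.blk (q : I → ℚ) (f : ℕ) (up : Bool) (b : RB I) : Blk I :=
  ⟨b.B, if up then b.Φ (f - 1) else b.Φ f, b.w f, q, up⟩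

theorem RB_blkOk (a : I → I → ℕ) (hs : ∀ i j, a i j = a j i) (cd : CrossData a) (q : I → ℚ)
    (K f : ℕ) (hf : 1 ≤ f) (hfK : f ≤ K) (up : Bool) (b : RB I) (hfin : FinT a b.B)
    (hconn : ConnS a b.B) (hq : QOk a b.B q) (h : Resp a cd b.B q K b.w b.Φ) :
    BlkOk a cd f (b.blk q f up) := by
  cases up with
  | false =>
    refine ⟨hfin, hconn, hq, ?_, ?_, ?_⟩
    · intro c hc
      exact (h.win f hfK c hc).wide
    · intro c hc x hx
      exact (h.win f hfK c hc).cls x hx
    · intro T hT hk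
      have h1 := h.knk f hf hfK T hT hk
      have h2 : (b.blk q f false).cf = b.w f := by
        simp [Blk.cf, RB.blk]
      rw [h2]
      exact h1
  | true =>
    refine ⟨hfin, hconn, hq, ?_, ?_, ?_⟩
    · intro c hc
      have h1 := (h.win (f - 1) (by omega) c hc).wide_succ
      rw [show f - 1 + 1 = f from by omega] at h1
      exact h1
    · intro c hc x hx
      exact (h.win (f - 1) (by omega) c hc).cls x hx
    · intro T hT hk
      have h1 := h.knk f hf hfK T hT hk
      have h2 := h.stp f hf hfK T hT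
      have h3 := TV_step_split a hs b.B hfin f hf q hq T hT
      have h4 := PPv_kink a hs b.B hfin hconn f hf q hq T hT hk
      have h5 : (b.blk q f true).cf = (-1) ^ b.B.card * b.w f := by
        simp [Blk.cf, RB.blk]
      rw [h5]
      have h6 : evF a b.B (b.Φ (f - 1)) T =
          (-1) ^ b.B.card * b.w f * TV a (upT a b.B f q T) := by
        have h7 : evF a b.B (b.Φ (f - 1)) T = b.w f * PPv a b.B f q T := by
          linear_combination h1 - h2 + b.w f * h3
        rw [h7, h4]
        ring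
      exact h6

end

end Pool.Agent.H27.KAC
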