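import Pool.Agent.H41.KA.AG9

/-!
KAC ADE, module AG9a: the chain vertex makes its step first.

`evU_alU` for `f` and `f-1` (`u (f+1) - 2 u f + u (f-1) = 0`): the difference is `u f` times the joint value with column
`(x,f+1) - 2 (x,f) + (x,f-1)`, which by `TV_expD` (for every pattern of the product; the patterns do not change `γ x`) is
`∑_{m0 ≥ 1}` of the joint values of `T.eta a f (Pi.single x m0)` with column `cE a x f`.  These terms are `RReg (uniR L)` and have a
kink at level `f` in every block (all blocks are adjacent to `x`): `evU_all_kink` (with `RB_blkOk`, `up = false`) and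
`expl_merge` give `∏ w_b(f) * TV (tauT (R.erase x) f q ..)`; `TV_step` for `R.erase x`; finally `m = m' + (m0 + q x) e_x`
(`q x` is a natural number), `rawT_union`.  If `T.γ x < 0` everything is zero; otherwise `B ≥ bnd` is large enough.
-/

set_option autoImplicit false

namespace Pool.Agent.H27.KAC

open scoped BigOperators

section

variable {I : Type} [Fintype I] [DecidableEq I]

theorem AG9a_disj {a : I → I → ℕ} (L : List (RB I))
    (hsep : L.Pairwise (fun b c => Sep a b.B c.B)) (f : ℕ) :
    (atF L f).Pairwise (fun b c => Disjoint b.1 c.1) := by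
  unfold atF
  rw [List.pairwise_map]
  exact hsep.imp (fun h => h.1)

theorem AG9a_patT_γ (a : I → I → ℕ) (B : Finset I) (π : Pat I) (T : Trm I) (x : I) (hx : x ∉ B) :
    (patT a B π T).γ x = T.γ x := by
  simp [patT, Trm.cols, Trm.etaM, resQ, hx]

/-- expansion of the column `(x, f + 1)` in one pattern. -/
theorem AG9a_key (a : I → I → ℕ) (hs : ∀ i j, a i j = a j i) (B : Finset I) (π : Pat I)
    (x : I) (hx : x ∉ B) (f : ℕ) (hf : 1 ≤ f) (T : Trm I) (M : ℕ) (hM : ⌊T.γ x⌋₊ ≤ M) :
    TV a (patT a B π (T.col x (sy x (f + 1)))) - 2 * TV a (patT a B π (T.col x (sy x f))) +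
      TV a (patT a B π (T.col x (sy x (f - 1)))) =
      ∑ m0 ∈ Finset.Icc 1 M,
        TV a (patT a B π ((T.eta a f (Pi.single x (m0 : ℚ))).col x (cE a x f))) := by
  have h1 : ∀ c : QE I, patT a B π (T.col x c) = (patT a B π T).col x c :=
    fun c => patT_col_comm a B π x hx c T
  have h2 : ∀ m0 : ℕ, patT a B π ((T.eta a f (Pi.single x (m0 : ℚ))).col x (cE a x f)) =
      ((patT a B π T).eta a f (Pi.single x (m0 : ℚ))).col x (cE a x f) := by
    intro m0
    rw [patT_col_comm a B π x hx, eta_eq_etaM, eta_eq_etaM, patT_etaM_comm]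
  have h3 := TV_expD a hs (patT a B π T) x x f hf M (by rw [AG9a_patT_γ a B π T x hx]; exact hM)
  have h4 : TV a ((patT a B π T).col x ((2 : ℚ) • sy x f - sy x (f - 1))) =
      2 * TV a ((patT a B π T).col x (sy x f)) - TV a ((patT a B π T).col x (sy x (f - 1))) := by
    have : ((2 : ℚ) • sy x f - sy x (f - 1) : QE I) = (2 : ℚ) • sy x f + (-1 : ℚ) • sy x (f - 1) := by
      rw [neg_smul, one_smul, sub_eq_add_neg]
    rw [this, TV_col_add, TV_col_smul, TV_col_smul]
    ring
  simp only [h1, h2]
  rw [h3, h4]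
  ring

/-- expansion of the column `(x, f + 1)` in a joint value. -/
theorem AG9a_exp (a : I → I → ℕ) (hs : ∀ i j, a i j = a j i) (U : List (Finset I × FFn I))
    (hd : U.Pairwise (fun b c => Disjoint b.1 c.1)) (x : I) (hx : x ∉ uni U) (f : ℕ) (hf : 1 ≤ f)
    (T : Trm I) (M : ℕ) (hM : ⌊T.γ x⌋₊ ≤ M) :
    evU a U (T.col x (sy x (f + 1))) - 2 * evU a U (T.col x (sy x f)) +
      evU a U (T.col x (sy x (f - 1))) =
      ∑ m0 ∈ Finset.Icc 1 M, evU a U ((T.eta a f (Pi.single x (m0 : ℚ))).col x (cE a x f)) := by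
  simp only [evU_eq_evF a U hd]
  unfold evF
  generalize prodF U = Φ
  induction Φ with
  | nil => simp
  | cons c Φ ih =>
    simp only [List.map_cons, List.sum_cons, Finset.sum_add_distrib]
    rw [← ih, ← Finset.mul_sum, ← AG9a_key a hs (uni U) c.2 x hx f hf T M hM]
    ring

/-- the terms after the step of the chain vertex: exponents. -/
theorem AG9a_E (a : I → I → ℕ) (x y : I) (hxy : x ≠ y) (f : ℕ) (m0 : ℕ) (c : QE I) (T : Trm I)
    (l : ℕ) : ((T.eta a f (Pi.single x (m0 : ℚ))).col x c).E (y, l) =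
      T.E (y, l) + if l = f then ((m0 * a x y : ℕ) : ℚ) else 0 := by
  have h0 : ((T.eta a f (Pi.single x (m0 : ℚ))).col x c).E (y, l) =
      T.E (y, l) - (∑ z, (Pi.single x (m0 : ℚ) : I → ℚ) z • cE a z f) (y, l) := by
    simp [Trm.col, Trm.eta]
  rw [h0, Finset.sum_eq_single x]
  · rw [Pi.single_eq_same, Finsupp.smul_apply, cE_apply]
    have hc : cart a x y = -(a x y : ℤ) := by
      simp [cart, hxy]
    rw [hc]
    by_cases hl : l = f
    · simp [hl]
    · simp [hl]
  · intro z _ hz
    rw [Pi.single_eq_of_ne hz, zero_smul]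
  · intro hx
    exact absurd (Finset.mem_univ x) hx

/-- regularity after the step of the chain vertex. -/
theorem AG9a_RReg (a : I → I → ℕ) (R : Finset I) (x : I) (f : ℕ) (m0 : ℕ)
    (hm0 : 1 ≤ m0) (T : Trm I) (hT : RReg R T) :
    RReg (R.erase x) ((T.eta a f (Pi.single x (m0 : ℚ))).col x (cE a x f)) := by
  have hE0 : ∀ y ∈ R.erase x, ∀ l, 1 ≤ l → 0 ≤ T.E (y, l) := by
    intro y hy l hl
    obtain ⟨n, hn⟩ := hT.nat y (Finset.mem_of_mem_erase hy) l hl
    rw [hn]
    positivity
  refine ⟨?_, ?_⟩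
  · intro y hy l hl
    rw [AG9a_E a x y (Finset.ne_of_mem_erase hy).symm]
    obtain ⟨n, hn⟩ := hT.nat y (Finset.mem_of_mem_erase hy) l hl
    rw [hn]
    by_cases h : l = f
    · refine ⟨n + m0 * a x y, ?_⟩
      rw [if_pos h]
      push_cast
      ring
    · refine ⟨n, ?_⟩
      rw [if_neg h, add_zero]
  · intro y hy j hj l hl hΛ
    rw [AG9a_E a x y (Finset.ne_of_mem_erase hy).symm]
    have h0 := hE0 y hy l hl
    by_cases hjx : j = x
    · subst hjx
      have h1 : ((T.eta a f (Pi.single j (m0 : ℚ))).col j (cE a j f)).Λ j = cE a j f := by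
        simp [Trm.col]
      rw [h1, cE_apply] at hΛ
      by_cases h : l = f
      · rw [if_pos h] at hΛ ⊢
        have h2 : a j y ≠ 0 := by
          intro h3
          apply hΛ
          simp [cart, h3, (Finset.ne_of_mem_erase hy).symm]
        have h3 : 1 ≤ m0 * a j y := Nat.mul_pos hm0 (Nat.pos_of_ne_zero h2)
        have h4 : (1 : ℚ) ≤ ((m0 * a j y : ℕ) : ℚ) := by exact_mod_cast h3
        linarith
      · rw [if_neg h] at hΛ
        exact absurd rfl hΛ
    · have hjR : j ∉ R := fun h => hj (Finset.mem_erase.mpr ⟨hjx, h⟩)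
      have h1 : ((T.eta a f (Pi.single x (m0 : ℚ))).col x (cE a x f)).Λ j = T.Λ j := by
        simp [Trm.col, Trm.eta, hjx]
      rw [h1] at hΛ
      have h2 := hT.col y (Finset.mem_of_mem_erase hy) j hjR l hl hΛ
      have h3 : (0 : ℚ) ≤ if l = f then ((m0 * a x y : ℕ) : ℚ) else 0 := by
        split_ifs
        · positivity
        · exact le_refl 0
      linarith

/-- the kink after the step of the chain vertex. -/
theorem AG9a_Kink (a : I → I → ℕ) (R A : Finset I) (hA : A ⊆ R) (x : I) (hxA : x ∉ A) (f : ℕ)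
    (hf : 1 ≤ f) (m0 : ℕ) (hm0 : 1 ≤ m0) (T : Trm I) (hT : RReg R T)
    (hadj : ∃ y ∈ A, 0 < a x y) :
    Kink A f ((T.eta a f (Pi.single x (m0 : ℚ))).col x (cE a x f)) := by
  obtain ⟨y, hy, hay⟩ := hadj
  refine ⟨y, hy, ?_⟩
  have hxy : x ≠ y := fun h => hxA (h ▸ hy)
  rw [AG9a_E a x y hxy, if_pos rfl]
  obtain ⟨n, hn⟩ := hT.nat y (hA hy) f hf
  rw [hn]
  have h3 : 1 ≤ m0 * a x y := Nat.mul_pos hm0 hay
  have h4 : (1 : ℚ) ≤ ((m0 * a x y : ℕ) : ℚ) := by exact_mod_cast h3
  have h5 : (0 : ℚ) ≤ (n : ℚ) := by positivity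
  linarith

/-- recognise the raw term of `R`. -/
theorem AG9a_rawT (a : I → I → ℕ) (R : Finset I) (x : I) (hx : x ∈ R) (f : ℕ) (q : I → ℚ)
    (n m0 : ℕ) (hm0 : 1 ≤ m0) (hn : q x = n) (m : I → ℕ) (hm : m x = m0 + n) (T : Trm I) :
    rawT a R f q m T = rawT a (R.erase x) f q m
      ((T.eta a f (Pi.single x (m0 : ℚ))).col x (cE a x f)) := by
  have h1 : R = R.erase x ∪ {x} := by
    ext y
    simp only [Finset.mem_union, Finset.mem_erase, Finset.mem_singleton]
    constructor
    · intro h
      by_cases hy : y = x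
      · exact Or.inr hy
      · exact Or.inl ⟨hy, h⟩
    · rintro (h | h)
      · exact h.2
      · exact h ▸ hx
  have h2 : Disjoint (R.erase x) {x} := by
    rw [Finset.disjoint_singleton_right]
    exact Finset.notMem_erase x R
  have h3 : rawT a {x} f q m T = (T.eta a f (Pi.single x (m0 : ℚ))).col x (cE a x f) := by
    have hδ : (fun i => if i ∈ ({x} : Finset I) then (m i : ℚ) - q i else 0) =
        (Pi.single x (m0 : ℚ) : I → ℚ) := by
      funext i
      by_cases hi : i = x
      · subst hi
        rw [if_pos (Finset.mem_singleton_self i), Pi.single_eq_same, hm, hn]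
        push_cast
        ring
      · rw [if_neg (fun h => hi (Finset.mem_singleton.mp h)), Pi.single_eq_of_ne hi]
    unfold rawT
    rw [hδ]
    apply Trm.ext
    · rfl
    · rfl
    · funext i
      show (if i ∈ ({x} : Finset I) then (if m i = 0 then sy i (f - 1) else cE a i f) else T.Λ i) =
        Function.update T.Λ x (cE a x f) i
      by_cases hi : i = x
      · subst hi
        rw [if_pos (Finset.mem_singleton_self i), Function.update_self, if_neg (by omega)]
      · rw [if_neg (fun h => hi (Finset.mem_singleton.mp h)), Function.update_of_ne hi]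
  conv_lhs => rw [h1]
  rw [rawT_union a (R.erase x) {x} h2 f q m T, h3]

/-- the bound for the remaining vertices. -/
theorem AG9a_bnd (a : I → I → ℕ) (R : Finset I) (x : I) (f : ℕ) (q : I → ℚ) (m0 : ℕ) (T : Trm I)
    (B : ℕ) (hB : bnd R f q T ≤ B) :
    bnd (R.erase x) f q ((T.eta a f (Pi.single x (m0 : ℚ))).col x (cE a x f)) ≤ B := by
  refine le_trans ?_ hB
  unfold bnd
  have h1 : ∑ i ∈ R.erase x,
      ⌊((T.eta a f (Pi.single x (m0 : ℚ))).col x (cE a x f)).γ i + f * q i⌋₊ =
      ∑ i ∈ R.erase x, ⌊T.γ i + f * q i⌋₊ := by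
    refine Finset.sum_congr rfl (fun i hi => ?_)
    have : ((T.eta a f (Pi.single x (m0 : ℚ))).col x (cE a x f)).γ i = T.γ i := by
      simp [Trm.col, Trm.eta, Pi.single_eq_of_ne (Finset.ne_of_mem_erase hi)]
    rw [this]
  rw [h1]
  exact Finset.sum_le_sum_of_subset (Finset.erase_subset x R)

/-- the bound for the multiplicity of the chain vertex. -/
theorem AG9a_bndx (R : Finset I) (x : I) (hx : x ∈ R) (f : ℕ) (hf : 1 ≤ f) (q : I → ℚ) (n : ℕ)
    (hn : q x = n) (T : Trm I) (B : ℕ) (hB : bnd R f q T ≤ B) : ⌊T.γ x⌋₊ ≤ B - n := by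
  rcases lt_or_ge (T.γ x) 0 with h | h
  · rw [Nat.floor_of_nonpos h.le]
    exact Nat.zero_le _
  · have h1 : ⌊T.γ x + f * q x⌋₊ ≤ B := by
      refine le_trans ?_ hB
      unfold bnd
      exact Finset.single_le_sum (f := fun i => ⌊T.γ i + f * q i⌋₊) (fun i _ => Nat.zero_le _) hx
    have h2 : ⌊T.γ x⌋₊ + n ≤ ⌊T.γ x + f * q x⌋₊ := by
      apply Nat.le_floor
      push_cast
      have h3 : ((⌊T.γ x⌋₊ : ℕ) : ℚ) ≤ T.γ x := Nat.floor_le h
      have h4 : (n : ℚ) ≤ f * q x := by
        rw [hn]
        have h5 : (1 : ℚ) ≤ f := by exact_mod_cast hf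
        have h6 : (0 : ℚ) ≤ n := by positivity
        nlinarith
      linarith
    omega

/-- joint value of the blocks after the step of the chain vertex. -/
theorem AG9a_blocks (a : I → I → ℕ) (hs : ∀ i j, a i j = a j i) (cd : CrossData a) (R : Finset I)
    (x : I) (q : I → ℚ) (K : ℕ) (u : ℕ → ℚ) (L : List (RB I)) (h : StarCtx a cd R x q K u L)
    (f : ℕ) (hf : 1 ≤ f) (hfK : f ≤ K) (T : Trm I) (hT : RReg R T) (B : ℕ)
    (hB : bnd R f q T ≤ B) (m0 : ℕ) (hm0 : 1 ≤ m0) :
    evU a (atF L f) ((T.eta a f (Pi.single x (m0 : ℚ))).col x (cE a x f)) =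
      (L.map (fun b => b.w f)).prod * ∑ m ∈ mbox (R.erase x) B, sgm (R.erase x) m *
        TV a (rawT a (R.erase x) f q m
          ((T.eta a f (Pi.single x (m0 : ℚ))).col x (cE a x f))) := by
  set X := (T.eta a f (Pi.single x (m0 : ℚ))).col x (cE a x f) with hX
  have hRX : RReg (R.erase x) X := AG9a_RReg a R x f m0 hm0 T hT
  set LB : List (Blk I) := L.map (RB.blk q f false) with hLB
  have hU : LB.map (fun b => (b.B, b.Φ)) = atF L f := by
    rw [hLB, List.map_map]
    unfold atF
    apply List.map_congr_left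
    intro b _
    simp [RB.blk]
  have huni : uniB LB = R.erase x := by
    rw [← h.cov]
    ext y
    rw [mem_uniB, mem_uniR]
    constructor
    · rintro ⟨b, hb, hy⟩
      rw [hLB, List.mem_map] at hb
      obtain ⟨c, hc, rfl⟩ := hb
      exact ⟨c, hc, hy⟩
    · rintro ⟨c, hc, hy⟩
      exact ⟨c.blk q f false, List.mem_map.mpr ⟨c, hc, rfl⟩, hy⟩
  have hok : ∀ b ∈ LB, BlkOk a cd f b := by
    intro b hb
    rw [hLB, List.mem_map] at hb
    obtain ⟨c, hc, rfl⟩ := hb
    have hc' := h.block hs c hc
    exact RB_blkOk a hs cd q K f hf hfK false c hc'.2.2.1 (h.bconn c hc) hc'.2.2.2.1 (h.resp c hc)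
  have hd : LB.Pairwise (fun b c => Sep a b.B c.B) := by
    rw [hLB, List.pairwise_map]
    exact h.sep
  have hk : ∀ b ∈ LB, Kink b.B f X := by
    intro b hb
    rw [hLB, List.mem_map] at hb
    obtain ⟨c, hc, rfl⟩ := hb
    have hc' := h.block hs c hc
    exact AG9a_Kink a R c.B hc'.1 x hc'.2.1 f hf m0 hm0 T hT hc'.2.2.2.2
  have h1 := evU_all_kink a hs cd f LB hok hd X (by rw [huni]; exact hRX) hk
  have h2 : expl a f LB X = tauT a (R.erase x) f q X := by
    rw [expl_merge a f LB q false (hd.imp (fun h => h.1)) ?_ ?_ X, huni]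
    · rfl
    · intro b hb y _
      rw [hLB, List.mem_map] at hb
      obtain ⟨c, _, rfl⟩ := hb
      rfl
    · intro b hb
      rw [hLB, List.mem_map] at hb
      obtain ⟨c, _, rfl⟩ := hb
      rfl
  have h3 : (LB.map Blk.cf).prod = (L.map (fun b => b.w f)).prod := by
    rw [hLB, List.map_map]
    congr 1
    apply List.map_congr_left
    intro b _
    simp [RB.blk, Blk.cf]
  have h4 := TV_step a hs (R.erase x) (h.fin.mono (Finset.erase_subset x R)) f hf q
    (h.erase_qok hs) X hRX B (AG9a_bnd a R x f q m0 T B hB)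
  rw [← hU, h1, h2, h3, h4]

open Classical in
theorem star_step0 (a : I → I → ℕ) (hs : ∀ i j, a i j = a j i) (cd : CrossData a) (R : Finset I)
    (x : I) (q : I → ℚ) (K : ℕ) (u : ℕ → ℚ) (L : List (RB I)) (h : StarCtx a cd R x q K u L)
    (f : ℕ) (hf : 1 ≤ f) (hfK : f ≤ K) (T : Trm I) (hT : RReg R T) (B : ℕ)
    (hB : bnd R f q T ≤ B) :
    evU a (({x}, alU u f) :: atF L f) T - evU a (({x}, alU u (f - 1)) :: atF L f) T =
      stW u L f * ∑ m ∈ (mbox R B).filter (fun m => q x < m x),
        sgm R m * TV a (rawT a R f q m T) := by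
  have hx0 : 0 ≤ q x := by
    refine h.fin.nonneg hs q (fun i hi => ?_) x h.hx
    obtain ⟨k, _, hk⟩ := h.qok i hi
    rw [hk]
    positivity
  obtain ⟨n, hn⟩ : ∃ n : ℕ, q x = n := by
    obtain ⟨z, hz⟩ := h.hz
    have hz0 : 0 ≤ z := by
      rw [hz] at hx0
      exact_mod_cast hx0
    refine ⟨z.toNat, ?_⟩
    rw [hz]
    have : ((z.toNat : ℕ) : ℤ) = z := Int.toNat_of_nonneg hz0
    exact_mod_cast this.symm
  have hxU : x ∉ uni (atF L f) := by
    rw [uni_atF, h.cov]
    exact Finset.notMem_erase x R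
  have hd := AG9a_disj L h.sep f
  have hf1 : f - 1 + 1 = f := by omega
  have haff : u (f + 1) + u (f - 1) = 2 * u f := by
    obtain ⟨α, κ, hu⟩ := h.aff
    rw [hu, hu, hu]
    have : ((f - 1 : ℕ) : ℚ) = (f : ℚ) - 1 := by
      rw [Nat.cast_sub hf]
      simp
    rw [this]
    push_cast
    ring
  have hexp := AG9a_exp a hs (atF L f) hd x hxU f hf T (B - n) (AG9a_bndx R x h.hx f hf q n hn T B hB)
  have hbl : ∀ m0 ∈ Finset.Icc 1 (B - n),
      evU a (atF L f) ((T.eta a f (Pi.single x (m0 : ℚ))).col x (cE a x f)) =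
        (L.map (fun b => b.w f)).prod * ∑ m ∈ mbox (R.erase x) B, sgm (R.erase x) m *
          TV a (rawT a (R.erase x) f q m
            ((T.eta a f (Pi.single x (m0 : ℚ))).col x (cE a x f))) := by
    intro m0 hm0
    exact AG9a_blocks a hs cd R x q K u L h f hf hfK T hT B hB m0 (Finset.mem_Icc.mp hm0).1
  have hsum : ∑ m0 ∈ Finset.Icc 1 (B - n), ∑ m ∈ mbox (R.erase x) B, sgm (R.erase x) m *
      TV a (rawT a (R.erase x) f q m ((T.eta a f (Pi.single x (m0 : ℚ))).col x (cE a x f))) =
      ∑ m ∈ (mbox R B).filter (fun m => q x < m x), sgm R m * TV a (rawT a R f q m T) := by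
    rw [← Finset.sum_product']
    refine Finset.sum_bij' (fun p _ => Function.update p.2 x (p.1 + n))
      (fun m _ => (m x - n, Function.update m x 0)) ?_ ?_ ?_ ?_ ?_
    · rintro ⟨m0, m⟩ hp
      rw [Finset.mem_product, Finset.mem_Icc] at hp
      obtain ⟨hp1, hp2⟩ := hp
      simp only at hp1 hp2
      rw [Finset.mem_filter]
      constructor
      · unfold mbox at hp2 ⊢
        rw [Fintype.mem_piFinset] at hp2 ⊢
        intro i
        by_cases hi : i = x
        · subst hi
          rw [Function.update_self, if_pos h.hx, Finset.mem_range]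
          omega
        · rw [Function.update_of_ne hi]
          have := hp2 i
          by_cases hiR : i ∈ R
          · rw [if_pos hiR]
            rwa [if_pos (Finset.mem_erase.mpr ⟨hi, hiR⟩)] at this
          · rw [if_neg hiR]
            rwa [if_neg (fun h => hiR (Finset.mem_of_mem_erase h))] at this
      · simp only [Function.update_self]
        rw [hn]
        have : n < m0 + n := by omega
        exact_mod_cast this
    · intro m hm
      rw [Finset.mem_filter] at hm
      obtain ⟨hm1, hm2⟩ := hm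
      have hm3 : n < m x := by
        rw [hn] at hm2
        exact_mod_cast hm2
      unfold mbox at hm1
      rw [Fintype.mem_piFinset] at hm1
      have hm4 := hm1 x
      rw [if_pos h.hx, Finset.mem_range] at hm4
      rw [Finset.mem_product, Finset.mem_Icc]
      refine ⟨⟨?_, ?_⟩, ?_⟩
      · show 1 ≤ m x - n
        omega
      · show m x - n ≤ B - n
        omega
      · show Function.update m x 0 ∈ mbox (R.erase x) B
        unfold mbox
        rw [Fintype.mem_piFinset]
        intro i
        by_cases hi : i = x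
        · subst hi
          rw [Function.update_self, if_neg (Finset.notMem_erase i R)]
          exact Finset.mem_singleton_self 0
        · rw [Function.update_of_ne hi]
          have := hm1 i
          by_cases hiR : i ∈ R
          · rw [if_pos hiR] at this
            rwa [if_pos (Finset.mem_erase.mpr ⟨hi, hiR⟩)]
          · rw [if_neg hiR] at this
            rwa [if_neg (fun h => hiR (Finset.mem_of_mem_erase h))]
    · rintro ⟨m0, m⟩ hp
      rw [Finset.mem_product] at hp
      obtain ⟨hp1, hp2⟩ := hp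
      simp only at hp1 hp2
      unfold mbox at hp2
      rw [Fintype.mem_piFinset] at hp2
      have h0 := hp2 x
      rw [if_neg (Finset.notMem_erase x R), Finset.mem_singleton] at h0
      refine Prod.ext ?_ ?_
      · simp
      · simp only [Function.update_idem]
        rw [← h0, Function.update_eq_self]
    · intro m hm
      rw [Finset.mem_filter] at hm
      obtain ⟨_, hm2⟩ := hm
      have hm3 : n < m x := by
        rw [hn] at hm2
        exact_mod_cast hm2
      simp only [Function.update_idem]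
      rw [Nat.sub_add_cancel hm3.le, Function.update_eq_self]
    · rintro ⟨m0, m⟩ hp
      rw [Finset.mem_product, Finset.mem_Icc] at hp
      obtain ⟨hp1, hp2⟩ := hp
      simp only at hp1 hp2 ⊢
      set m' := Function.update m x (m0 + n) with hm'
      have hmx : m' x = m0 + n := by rw [hm', Function.update_self]
      have hmy : ∀ y ∈ R.erase x, m y = m' y := by
        intro y hy
        rw [hm', Function.update_of_ne (Finset.ne_of_mem_erase hy)]
      have hsg : sgm (R.erase x) m = sgm R m' := by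
        unfold sgm
        congr 2
        ext y
        rw [Finset.mem_filter, Finset.mem_filter]
        constructor
        · rintro ⟨hy1, hy2⟩
          exact ⟨Finset.mem_of_mem_erase hy1, by rw [← hmy y hy1]; exact hy2⟩
        · rintro ⟨hy1, hy2⟩
          have hyx : y ≠ x := by
            intro hyx
            rw [hyx, hmx] at hy2
            omega
          have hy3 : y ∈ R.erase x := Finset.mem_erase.mpr ⟨hyx, hy1⟩
          exact ⟨hy3, by rw [hmy y hy3]; exact hy2⟩
      rw [hsg, AG9a_rawT a R x h.hx f q n m0 hp1.1 hn m' hmx T,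
        rawT_congr a (R.erase x) f q q m m' (fun _ _ => rfl) hmy]
  rw [evU_alU a u f x (atF L f) hxU T, evU_alU a u (f - 1) x (atF L f) hxU T, hf1]
  have hdiff : u f * evU a (atF L f) (T.col x (sy x (f + 1))) -
      u (f + 1) * evU a (atF L f) (T.col x (sy x f)) -
      (u (f - 1) * evU a (atF L f) (T.col x (sy x f)) -
        u f * evU a (atF L f) (T.col x (sy x (f - 1)))) =
      u f * (evU a (atF L f) (T.col x (sy x (f + 1))) - 2 * evU a (atF L f) (T.col x (sy x f)) +
        evU a (atF L f) (T.col x (sy x (f - 1)))) := by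
    have : u (f + 1) = 2 * u f - u (f - 1) := by linarith
    rw [this]
    ring
  rw [hdiff, hexp, Finset.sum_congr rfl hbl, ← Finset.mul_sum, hsum]
  unfold stW
  ring

end

end Pool.Agent.H27.KAC
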