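import Pool.Agent.H41.KA.AG9

/-!
KAC ADE, module AG9b: addition of the insertion at the chain vertex and expansion of the blocks `U2`.

`star_rep`: `m'` good on `A` (`m' ≠ 0`, `q y < m' y` if `m' y ≠ 0`), `U1`, `U2` the other blocks.  First add the insertion
`η_{x,f}^{-q x}` with `TV_rep` (`v = - q x e_x`): let `N0 = {y ∈ A | m' y = 0}`, `Z` = the component of `x` in
`{x} ∪ N0 ∪ U1 ∪ U2`, levels `f`, sides `f-1` on `x, N0, U1` and `f+1` on `U2`.  The exponents of the term on `Z` at level `f` are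
`T.E + C_Z u + a_{Z M'} δ` with `u = q` off `x`, `u x = 0`, `M' = {m' ≠ 0}`, `δ = m' - q > 0` on `M'`; `Z` is adjacent to `M'`, so
`solN = u + C_Z^{-1} (T.E + a_{Z M'} δ) > 0` on `Z`, and `- q x < solN x`.  Then expand `U2` with `TV_step_gen`: there the exponent at
level `f` plus `C_{U2} q` is `T.E + C_R q ≥ 1`.  Use `rawT_zero`, `rawT_union` to recognise the raw terms of `R`.
-/

set_option autoImplicit false

namespace Pool.Agent.H27.KAC

open scoped BigOperators

set_option linter.unusedSectionVars false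

section

variable {I : Type} [Fintype I] [DecidableEq I]

private theorem AG9b_sy_ne {j z : I} {k l : ℕ} (h : sy j k (z, l) ≠ 0) : j = z ∧ k = l := by
  by_contra hc
  apply h
  rw [Finsupp.single_apply, if_neg]
  intro he
  exact hc (Prod.mk.inj he)

private theorem AG9b_cE_ne (a : I → I → ℕ) {y z : I} {k l : ℕ} (h : cE a y k (z, l) ≠ 0) :
    l = k := by
  by_contra hc
  apply h
  unfold cE
  rw [Finsupp.finsetSum_apply]
  refine Finset.sum_eq_zero fun j _ => ?_
  rw [Finsupp.smul_apply, Finsupp.single_apply, if_neg, smul_zero]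
  intro he
  exact hc (Prod.mk.inj he).2.symm

private theorem AG9b_cart_comm {a : I → I → ℕ} (hs : ∀ i j, a i j = a j i) (i j : I) :
    cart a i j = cart a j i := by
  unfold cart
  rw [hs i j]
  by_cases h : i = j
  · subst h; rfl
  · rw [if_neg h, if_neg (fun h' => h h'.symm)]

private theorem AG9b_cart_ne {a : I → I → ℕ} {i j : I} (h : i ≠ j) :
    cart a i j = -(a i j : ℤ) := by
  unfold cart
  rw [if_neg h, zero_sub]

private theorem AG9b_cart_zero {a : I → I → ℕ} {i j : I} (h : i ≠ j) (h0 : a i j = 0) :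
    cart a i j = 0 := by
  rw [AG9b_cart_ne h, h0]; simp

/-- sum over `R ∖ x`. -/
private theorem AG9b_sum3 {R A U1 U2 : Finset I} {x : I} (hAR : A ∪ U1 ∪ U2 = R.erase x)
    (h1 : Disjoint A U1) (h2 : Disjoint A U2) (h12 : Disjoint U1 U2)
    {N : Type} [AddCommMonoid N] (g : I → N) :
    ∑ y ∈ R.erase x, g y = ∑ y ∈ A, g y + ∑ y ∈ U1, g y + ∑ y ∈ U2, g y := by
  rw [← hAR, Finset.sum_union, Finset.sum_union h1]
  rw [Finset.disjoint_union_left]
  exact ⟨h2, h12⟩

/-- the insertion exponents in the direction `i`. -/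
private noncomputable def AG9b_G (a : I → I → ℕ) (A U1 U2 : Finset I) (q : I → ℚ) (m' : I → ℕ)
    (i : I) : ℚ :=
  ∑ y ∈ U1, q y * (cart a y i : ℚ) + ∑ y ∈ U2, q y * (cart a y i : ℚ) -
    ∑ y ∈ A, ((m' y : ℚ) - q y) * (cart a y i : ℚ)

private theorem AG9b_G_eq (a : I → I → ℕ) {R A U1 U2 : Finset I} {x : I}
    (hAR : A ∪ U1 ∪ U2 = R.erase x)
    (h1 : Disjoint A U1) (h2 : Disjoint A U2) (h12 : Disjoint U1 U2) (q : I → ℚ) (m' : I → ℕ)
    (i : I) : AG9b_G a A U1 U2 q m' i =
      ∑ y ∈ R.erase x, q y * (cart a y i : ℚ) - ∑ y ∈ A, (m' y : ℚ) * (cart a y i : ℚ) := by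
  rw [AG9b_sum3 hAR h1 h2 h12]
  unfold AG9b_G
  simp only [sub_mul, Finset.sum_sub_distrib]
  ring

open Classical in
private theorem AG9b_pos (a : I → I → ℕ) (hs : ∀ i j, a i j = a j i) (R : Finset I)
    (hR : FinT a R) (hc : ConnS a R) (q : I → ℚ) (hq : ∀ y ∈ R, 0 < q y) (x : I)
    (A U1 U2 : Finset I) (hAR : A ∪ U1 ∪ U2 = R.erase x) (hA1 : Disjoint A U1)
    (hA2 : Disjoint A U2) (h12 : Disjoint U1 U2) (m' : I → ℕ)
    (hgood : ∀ y ∈ A, m' y ≠ 0 → q y < m' y) (hne : ∃ y ∈ A, m' y ≠ 0) (E : I → ℚ)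
    (hE : ∀ y ∈ R, 0 ≤ E y) (Z : Finset I)
    (hZ : Z ∈ comps a (R \ A.filter (fun y => m' y ≠ 0))) :
    ∀ i ∈ Z, 0 < solN a Z (fun i => E i + AG9b_G a A U1 U2 q m' i) i := by
  have hxe : x ∉ A ∪ U1 ∪ U2 := by rw [hAR]; exact Finset.notMem_erase x R
  have hxA : x ∉ A := fun h => hxe (by simp [h])
  have hAR' : A ⊆ R := by
    intro y hy
    have : y ∈ R.erase x := by rw [← hAR]; simp [hy]
    exact Finset.mem_of_mem_erase this
  set M' := A.filter (fun y => m' y ≠ 0) with hM'
  have hM'R : M' ⊆ R := (Finset.filter_subset _ _).trans hAR'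
  have hZN := comps_subset hZ
  have hZR : Z ⊆ R := hZN.trans Finset.sdiff_subset
  have hZc := comps_conn hZ
  have hZsep := comps_sep hZ
  have hZfin : FinT a Z := hR.mono hZR
  have hMne : M'.Nonempty := by
    obtain ⟨y, hy, hy'⟩ := hne
    exact ⟨y, Finset.mem_filter.2 ⟨hy, hy'⟩⟩
  set u : I → ℚ := fun i => if i = x then 0 else q i with hu
  set b : I → ℚ := fun i => E i + ∑ y ∈ M', ((m' y : ℚ) - q y) * (a y i : ℚ) with hb
  have hMpos : ∀ y ∈ M', 0 < (m' y : ℚ) - q y := by
    intro y hy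
    obtain ⟨hyA, hy0⟩ := Finset.mem_filter.1 hy
    exact sub_pos.2 (hgood y hyA hy0)
  have key : ∀ i ∈ Z, E i + AG9b_G a A U1 U2 q m' i = cqN a Z u i + b i := by
    intro i hi
    have hiM : i ∉ M' := (Finset.mem_sdiff.1 (hZN hi)).2
    rw [AG9b_G_eq a hAR hA1 hA2 h12]
    have e1 : ∑ y ∈ R.erase x, q y * (cart a y i : ℚ) = ∑ y ∈ R, u y * (cart a y i : ℚ) := by
      rw [← Finset.sum_erase R (f := fun y => u y * (cart a y i : ℚ)) (a := x) (by simp [hu])]
      refine Finset.sum_congr rfl fun y hy => ?_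
      rw [hu]
      simp only
      rw [if_neg (Finset.ne_of_mem_erase hy)]
    have e2 : ∑ y ∈ R, u y * (cart a y i : ℚ) =
        ∑ y ∈ R \ M', u y * (cart a y i : ℚ) + ∑ y ∈ M', u y * (cart a y i : ℚ) :=
      (Finset.sum_sdiff hM'R).symm
    have e3 : ∑ y ∈ R \ M', u y * (cart a y i : ℚ) = cqN a Z u i := by
      unfold cqN
      rw [← Finset.sum_sdiff hZN]
      have h0 : ∑ y ∈ (R \ M') \ Z, u y * (cart a y i : ℚ) = 0 := by
        refine Finset.sum_eq_zero fun y hy => ?_
        obtain ⟨hyN, hyZ⟩ := Finset.mem_sdiff.1 hy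
        have hne : y ≠ i := fun h => hyZ (h ▸ hi)
        rw [AG9b_cart_zero hne (by rw [hs]; exact hZsep i hi y hyN hyZ)]
        simp
      rw [h0, zero_add]
      refine Finset.sum_congr rfl fun y _ => ?_
      rw [AG9b_cart_comm hs y i, mul_comm]
    have e4 : ∑ y ∈ A, (m' y : ℚ) * (cart a y i : ℚ) = ∑ y ∈ M', (m' y : ℚ) * (cart a y i : ℚ) := by
      refine (Finset.sum_subset (Finset.filter_subset _ _) fun y hy hy' => ?_).symm
      have : m' y = 0 := by
        by_contra h
        exact hy' (Finset.mem_filter.2 ⟨hy, h⟩)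
      rw [this]; simp
    have e5 : ∑ y ∈ M', u y * (cart a y i : ℚ) - ∑ y ∈ M', (m' y : ℚ) * (cart a y i : ℚ) =
        ∑ y ∈ M', ((m' y : ℚ) - q y) * (a y i : ℚ) := by
      rw [← Finset.sum_sub_distrib]
      refine Finset.sum_congr rfl fun y hy => ?_
      have hyi : y ≠ i := fun h => hiM (h ▸ hy)
      have hyx : y ≠ x := fun h => hxA (h ▸ (Finset.mem_filter.1 hy).1)
      rw [AG9b_cart_ne hyi, hu]
      simp only
      rw [if_neg hyx]
      push_cast
      ring
    rw [e1, e2, e3, e4, hb]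
    simp only
    rw [← e5]
    ring
  have hsol : ∀ i ∈ Z, solN a Z (fun i => E i + AG9b_G a A U1 U2 q m' i) i =
      u i + solN a Z b i := by
    intro i hi
    rw [solN_congr hs hZfin _ (fun j => cqN a Z u j + b j) key, solN_add hs hZfin,
      solN_cqN hs hZfin u i hi]
  have hb0 : ∀ i ∈ Z, 0 ≤ b i := by
    intro i hi
    refine add_nonneg (hE i (hZR hi)) (Finset.sum_nonneg fun y hy => ?_)
    exact mul_nonneg (hMpos y hy).le (Nat.cast_nonneg _)
  have hb1 : ∃ i ∈ Z, b i ≠ 0 := by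
    obtain ⟨y, hy, z, hz, hyz⟩ := comps_adj_set hs hc hM'R hMne Z hZ
    refine ⟨y, hy, ne_of_gt ?_⟩
    have h1 : ((m' z : ℚ) - q z) * (a z y : ℚ) ≤ ∑ y' ∈ M', ((m' y' : ℚ) - q y') * (a y' y : ℚ) :=
      Finset.single_le_sum (f := fun y' => ((m' y' : ℚ) - q y') * (a y' y : ℚ))
        (fun y' hy' => mul_nonneg (hMpos y' hy').le (Nat.cast_nonneg _)) hz
    have h2 : 0 < ((m' z : ℚ) - q z) * (a z y : ℚ) := by
      refine mul_pos (hMpos z hz) ?_
      exact_mod_cast hyz
    have h3 := hE y (hZR hy)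
    rw [hb]
    simp only
    linarith
  have hpos := solN_pos hs hZfin hZc b hb0 hb1
  intro i hi
  rw [hsol i hi]
  have hu0 : 0 ≤ u i := by
    rw [hu]
    simp only
    split_ifs
    · exact le_rfl
    · exact (hq i (hZR hi)).le
  have := hpos i hi
  linarith

/-- the term after the first step. -/
private theorem AG9b_eq (a : I → I → ℕ) (R A U1 U2 : Finset I) (x : I) (hAR : A ∪ U1 ∪ U2 = R.erase x)
    (hx : x ∈ R) (hA1 : Disjoint A U1) (hA2 : Disjoint A U2) (h12 : Disjoint U1 U2) (f : ℕ)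
    (q : I → ℚ) (m' : I → ℕ) (hm0 : ∀ y, y ∉ A → m' y = 0) (v : I → ℚ)
    (hv : ∀ i, v i = if i = x then -q x else 0) (T : Trm I) :
    (blkT a U1 f (f - 1) q (blkT a U2 f (f + 1) q
      (rawT a A f q m' (T.col x (sy x (f - 1)))))).etaM a (fun _ => f) v =
      tauT a U2 f q (rawT a (R \ U2) f q m' T) := by
  have hxe : x ∉ A ∪ U1 ∪ U2 := by rw [hAR]; exact Finset.notMem_erase x R
  have hxA : x ∉ A := fun h => hxe (by simp [h])
  have hxU1 : x ∉ U1 := fun h => hxe (by simp [h])
  have hxU2 : x ∉ U2 := fun h => hxe (by simp [h])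
  have hdA1 := Finset.disjoint_left.1 hA1
  have hdA2 := Finset.disjoint_left.1 hA2
  have hd12 := Finset.disjoint_left.1 h12
  have hmem : ∀ i, i ∈ R \ U2 ↔ i = x ∨ i ∈ A ∨ i ∈ U1 := by
    intro i
    have h1 : i ∈ A ∪ U1 ∪ U2 ↔ i ∈ R.erase x := by rw [hAR]
    simp only [Finset.mem_union, Finset.mem_erase] at h1
    rw [Finset.mem_sdiff]
    constructor
    · rintro ⟨hi, hi2⟩
      by_cases hix : i = x
      · exact Or.inl hix
      · have := h1.2 ⟨hix, hi⟩
        tauto
    · rintro (rfl | hi | hi)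
      · exact ⟨hx, hxU2⟩
      · exact ⟨(h1.1 (by tauto)).2, fun h => hdA2 hi h⟩
      · exact ⟨(h1.1 (by tauto)).2, fun h => hd12 hi h⟩
  -- the insertion vectors
  have hvec : ∀ i, (if i ∈ A then (m' i : ℚ) - q i else 0) + (-resQ U2 q i) + (-resQ U1 q i) + v i
      = (if i ∈ R \ U2 then (m' i : ℚ) - q i else 0) + (-resQ U2 q i) := by
    intro i
    rw [hv i]
    unfold resQ
    by_cases hix : i = x
    · subst hix
      rw [if_neg hxA, if_neg hxU2, if_neg hxU1, if_pos rfl, if_pos ((hmem i).2 (Or.inl rfl)),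
        hm0 i hxA]
      simp
    · rw [if_neg hix]
      by_cases hiA : i ∈ A
      · rw [if_pos hiA, if_neg (fun h => hdA2 hiA h), if_neg (fun h => hdA1 hiA h),
          if_pos ((hmem i).2 (Or.inr (Or.inl hiA)))]
        ring
      · by_cases hi1 : i ∈ U1
        · rw [if_neg hiA, if_neg (fun h => hd12 hi1 h), if_pos hi1,
            if_pos ((hmem i).2 (Or.inr (Or.inr hi1))), hm0 i hiA]
          simp
        · have hni : i ∉ R \ U2 := by
            rw [hmem]; tauto
          rw [if_neg hiA, if_neg hi1, if_neg hni]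
          ring
  apply Trm.ext
  · funext i
    show T.γ i - (f : ℚ) * (if i ∈ A then (m' i : ℚ) - q i else 0) - (f : ℚ) * (-resQ U2 q i) -
      (f : ℚ) * (-resQ U1 q i) - (f : ℚ) * v i =
      T.γ i - (f : ℚ) * (if i ∈ R \ U2 then (m' i : ℚ) - q i else 0) - (f : ℚ) * (-resQ U2 q i)
    have := hvec i
    linear_combination (-(f : ℚ)) * this
  · show T.E - ∑ i, (if i ∈ A then (m' i : ℚ) - q i else 0) • cE a i f -
      ∑ i, (-resQ U2 q i) • cE a i f - ∑ i, (-resQ U1 q i) • cE a i f - ∑ i, v i • cE a i f =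
      T.E - ∑ i, (if i ∈ R \ U2 then (m' i : ℚ) - q i else 0) • cE a i f -
      ∑ i, (-resQ U2 q i) • cE a i f
    have h1 : ∑ i, (if i ∈ A then (m' i : ℚ) - q i else 0) • cE a i f +
      ∑ i, (-resQ U2 q i) • cE a i f + ∑ i, (-resQ U1 q i) • cE a i f + ∑ i, v i • cE a i f =
      ∑ i, (if i ∈ R \ U2 then (m' i : ℚ) - q i else 0) • cE a i f +
      ∑ i, (-resQ U2 q i) • cE a i f := by
      rw [← Finset.sum_add_distrib, ← Finset.sum_add_distrib, ← Finset.sum_add_distrib,
        ← Finset.sum_add_distrib]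
      refine Finset.sum_congr rfl fun i _ => ?_
      rw [← add_smul, ← add_smul, ← add_smul, ← add_smul, hvec i]
    rw [sub_sub, sub_sub, sub_sub, sub_sub, ← add_assoc, ← add_assoc]
    rw [← h1]
  · funext j
    show (if j ∈ U1 then sy j (f - 1) else if j ∈ U2 then sy j (f + 1) else
      if j ∈ A then (if m' j = 0 then sy j (f - 1) else cE a j f) else
        Function.update T.Λ x (sy x (f - 1)) j) =
      (if j ∈ U2 then sy j (f + 1) else if j ∈ R \ U2 then
        (if m' j = 0 then sy j (f - 1) else cE a j f) else T.Λ j)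
    by_cases hjx : j = x
    · subst hjx
      rw [if_neg hxU1, if_neg hxU2, if_neg hxA, Function.update_self, if_neg hxU2,
        if_pos ((hmem j).2 (Or.inl rfl)), if_pos (hm0 j hxA)]
    · rw [Function.update_of_ne hjx]
      by_cases hj1 : j ∈ U1
      · have hjA : j ∉ A := fun h => hdA1 h hj1
        rw [if_pos hj1, if_neg (fun h => hd12 hj1 h), if_pos ((hmem j).2 (Or.inr (Or.inr hj1))),
          if_pos (hm0 j hjA)]
      · rw [if_neg hj1]
        by_cases hj2 : j ∈ U2
        · rw [if_pos hj2, if_pos hj2]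
        · rw [if_neg hj2, if_neg hj2]
          by_cases hjA : j ∈ A
          · rw [if_pos hjA, if_pos ((hmem j).2 (Or.inr (Or.inl hjA)))]
          · have hni : j ∉ R \ U2 := by
              rw [hmem]; tauto
            rw [if_neg hjA, if_neg hni]

private theorem AG9b_sgm {R A U1 U2 : Finset I} {x : I} (hAR : A ∪ U1 ∪ U2 = R.erase x)
    (hx : x ∈ R) (hA1 : Disjoint A U1) (hA2 : Disjoint A U2) (h12 : Disjoint U1 U2)
    (m' m m2 : I → ℕ) (hmx : m x = 0) (hmA : ∀ y ∈ A, m y = m' y) (hm1 : ∀ y ∈ U1, m y = 0)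
    (hm2 : ∀ y ∈ U2, m y = m2 y) :
    -((-1 : ℚ) ^ U1.card * sgm A m') * sgm R m = sgm U2 m2 := by
  have hcard : (R.filter (fun y => m y = 0)).card =
      1 + ((A.filter (fun y => m' y = 0)).card + U1.card +
        (U2.filter (fun y => m2 y = 0)).card) := by
    rw [Finset.card_filter, ← Finset.add_sum_erase R _ hx, if_pos hmx,
      AG9b_sum3 hAR hA1 hA2 h12, Finset.card_filter, Finset.card_filter]
    congr 1
    congr 1
    · congr 1
      · exact Finset.sum_congr rfl fun y hy => by rw [hmA y hy]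
      · rw [Finset.card_eq_sum_ones]
        exact Finset.sum_congr rfl fun y hy => by rw [if_pos (hm1 y hy)]
    · exact Finset.sum_congr rfl fun y hy => by rw [hm2 y hy]
  unfold sgm
  rw [hcard, pow_add, pow_add, pow_add, pow_one]
  have h1 : ((-1 : ℚ) ^ U1.card) * (-1) ^ U1.card = 1 := by
    rw [← mul_pow]; norm_num
  have h2 : ((-1 : ℚ) ^ (A.filter (fun y => m' y = 0)).card) *
      (-1) ^ (A.filter (fun y => m' y = 0)).card = 1 := by
    rw [← mul_pow]; norm_num
  linear_combination ((-1 : ℚ) ^ (U2.filter (fun y => m2 y = 0)).card) * h1 +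
    ((-1 : ℚ) ^ (U2.filter (fun y => m2 y = 0)).card) * (((-1 : ℚ) ^ U1.card) * (-1) ^ U1.card) * h2

private theorem AG9b_mem_mbox {R : Finset I} {B : ℕ} {m : I → ℕ} :
    m ∈ mbox R B ↔ (∀ y ∈ R, m y ≤ B) ∧ ∀ y, y ∉ R → m y = 0 := by
  unfold mbox
  rw [Fintype.mem_piFinset]
  constructor
  · intro h
    constructor
    · intro y hy
      have := h y
      rw [if_pos hy, Finset.mem_range] at this
      omega
    · intro y hy
      have := h y
      rw [if_neg hy, Finset.mem_singleton] at this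
      exact this
  · rintro ⟨h1, h2⟩ y
    by_cases hy : y ∈ R
    · rw [if_pos hy, Finset.mem_range]
      have := h1 y hy
      omega
    · rw [if_neg hy, Finset.mem_singleton]
      exact h2 y hy

open Classical in
private theorem AG9b_reindex (a : I → I → ℕ) (R A U1 U2 : Finset I) (x : I)
    (hAR : A ∪ U1 ∪ U2 = R.erase x) (hx : x ∈ R) (hA1 : Disjoint A U1) (hA2 : Disjoint A U2)
    (h12 : Disjoint U1 U2) (f : ℕ) (q : I → ℚ) (m' : I → ℕ) (hm0 : ∀ y, y ∉ A → m' y = 0)
    (T : Trm I) (B : ℕ) (hBm : ∀ y, m' y ≤ B) :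
    ∑ m ∈ mbox U2 B, sgm U2 m * TV a (rawT a U2 f q m (rawT a (R \ U2) f q m' T)) =
      -((-1 : ℚ) ^ U1.card * sgm A m') *
      ∑ m ∈ (mbox R B).filter (fun m => m x = 0 ∧ (∀ y ∈ U1, m y = 0) ∧ (∀ y ∈ A, m y = m' y)),
        sgm R m * TV a (rawT a R f q m T) := by
  have hxe : x ∉ A ∪ U1 ∪ U2 := by rw [hAR]; exact Finset.notMem_erase x R
  have hxA : x ∉ A := fun h => hxe (by simp [h])
  have hxU1 : x ∉ U1 := fun h => hxe (by simp [h])
  have hxU2 : x ∉ U2 := fun h => hxe (by simp [h])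
  have hdA1 := Finset.disjoint_left.1 hA1
  have hdA2 := Finset.disjoint_left.1 hA2
  have hd12 := Finset.disjoint_left.1 h12
  have hmem : ∀ i, i ∈ R ↔ i = x ∨ i ∈ A ∨ i ∈ U1 ∨ i ∈ U2 := by
    intro i
    have h1 : i ∈ A ∪ U1 ∪ U2 ↔ i ∈ R.erase x := by rw [hAR]
    simp only [Finset.mem_union, Finset.mem_erase] at h1
    constructor
    · intro hi
      by_cases hix : i = x
      · exact Or.inl hix
      · have := h1.2 ⟨hix, hi⟩
        tauto
    · rintro (rfl | hi | hi | hi)
      · exact hx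
      · exact (h1.1 (by tauto)).2
      · exact (h1.1 (by tauto)).2
      · exact (h1.1 (by tauto)).2
  have hU2R : U2 ⊆ R := fun y hy => (hmem y).2 (by tauto)
  rw [Finset.mul_sum]
  refine Finset.sum_nbij' (fun m2 i => if i ∈ U2 then m2 i else m' i)
    (fun m i => if i ∈ U2 then m i else 0) ?_ ?_ ?_ ?_ ?_
  · intro m2 hm2
    rw [AG9b_mem_mbox] at hm2
    rw [Finset.mem_filter, AG9b_mem_mbox]
    refine ⟨⟨?_, ?_⟩, ?_, ?_, ?_⟩
    · intro y hy
      by_cases h2 : y ∈ U2
      · simp only [if_pos h2]; exact hm2.1 y h2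
      · simp only [if_neg h2]; exact hBm y
    · intro y hy
      have h2 : y ∉ U2 := fun h => hy (hU2R h)
      simp only [if_neg h2]
      exact hm0 y fun h => hy ((hmem y).2 (by tauto))
    · simp only [if_neg hxU2]; exact hm0 x hxA
    · intro y hy
      simp only [if_neg (fun h => hd12 hy h)]
      exact hm0 y fun h => hdA1 h hy
    · intro y hy
      simp only [if_neg (fun h => hdA2 hy h)]
  · intro m hm
    rw [Finset.mem_filter, AG9b_mem_mbox] at hm
    rw [AG9b_mem_mbox]
    constructor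
    · intro y hy
      simp only [if_pos hy]
      exact hm.1.1 y (hU2R hy)
    · intro y hy
      simp only [if_neg hy]
  · intro m2 hm2
    rw [AG9b_mem_mbox] at hm2
    funext i
    by_cases h2 : i ∈ U2
    · simp only [if_pos h2]
    · simp only [if_neg h2]
      exact (hm2.2 i h2).symm
  · intro m hm
    rw [Finset.mem_filter, AG9b_mem_mbox] at hm
    obtain ⟨⟨-, h0⟩, hmx, hm1, hmA⟩ := hm
    funext i
    by_cases h2 : i ∈ U2
    · simp only [if_pos h2]
    · simp only [if_neg h2]
      by_cases hiA : i ∈ A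
      · exact (hmA i hiA).symm
      · rw [hm0 i hiA]
        by_cases hiR : i ∈ R
        · rcases (hmem i).1 hiR with h | h | h | h
          · rw [h, hmx]
          · exact absurd h hiA
          · exact (hm1 i h).symm
          · exact absurd h h2
        · exact (h0 i hiR).symm
  · intro m2 hm2
    have hsg := AG9b_sgm hAR hx hA1 hA2 h12 m' (fun i => if i ∈ U2 then m2 i else m' i) m2
      (by simp only [if_neg hxU2]; exact hm0 x hxA)
      (fun y hy => by simp only [if_neg (fun h => hdA2 hy h)])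
      (fun y hy => by
        simp only [if_neg (fun h => hd12 hy h)]
        exact hm0 y fun h => hdA1 h hy)
      (fun y hy => by simp only [if_pos hy])
    have hraw : rawT a U2 f q m2 (rawT a (R \ U2) f q m' T) =
        rawT a R f q (fun i => if i ∈ U2 then m2 i else m' i) T := by
      have hdis : Disjoint U2 (R \ U2) := Finset.disjoint_sdiff
      have hun : U2 ∪ (R \ U2) = R := Finset.union_sdiff_of_subset hU2R
      conv_rhs => rw [← hun]
      rw [rawT_union a U2 (R \ U2) hdis,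
        rawT_congr a (R \ U2) f q q (fun i => if i ∈ U2 then m2 i else m' i) m' (fun _ _ => rfl)
          (fun y hy => by simp only [if_neg (Finset.mem_sdiff.1 hy).2]),
        rawT_congr a U2 f q q (fun i => if i ∈ U2 then m2 i else m' i) m2 (fun _ _ => rfl)
          (fun y hy => by simp only [if_pos hy])]
    rw [hraw, ← mul_assoc, hsg]

open Classical in
theorem star_rep (a : I → I → ℕ) (hs : ∀ i j, a i j = a j i) (R : Finset I) (hR : FinT a R)
    (hc : ConnS a R) (q : I → ℚ) (hq : QOk a R q) (x : I) (hx : x ∈ R) (hz : IsZ (q x))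
    (A U1 U2 : Finset I) (hAR : A ∪ U1 ∪ U2 = R.erase x) (hA1 : Sep a A U1) (hA2 : Sep a A U2)
    (h12 : Sep a U1 U2) (hAc : ConnS a A) (f : ℕ) (hf : 1 ≤ f) (m' : I → ℕ)
    (hm0 : ∀ y, y ∉ A → m' y = 0)
    (hgood : ∀ y ∈ A, m' y ≠ 0 → q y < m' y) (hne : ∃ y ∈ A, m' y ≠ 0) (T : Trm I)
    (hT : RReg R T) (B : ℕ) (hB : bnd R f q T ≤ B) (hBm : ∀ y, m' y ≤ B) :
    TV a (blkT a U1 f (f - 1) q (blkT a U2 f (f + 1) q
      (rawT a A f q m' (T.col x (sy x (f - 1)))))) =
      -((-1 : ℚ) ^ U1.card * sgm A m') *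
      ∑ m ∈ (mbox R B).filter (fun m => m x = 0 ∧ (∀ y ∈ U1, m y = 0) ∧ (∀ y ∈ A, m y = m' y)),
        sgm R m * TV a (rawT a R f q m T) := by
  -- basic facts
  have hxe : x ∉ A ∪ U1 ∪ U2 := by rw [hAR]; exact Finset.notMem_erase x R
  have hxA : x ∉ A := fun h => hxe (by simp [h])
  have hxU1 : x ∉ U1 := fun h => hxe (by simp [h])
  have hxU2 : x ∉ U2 := fun h => hxe (by simp [h])
  have hmem : ∀ i, i ∈ R ↔ i = x ∨ i ∈ A ∨ i ∈ U1 ∨ i ∈ U2 := by
    intro i
    have h1 : i ∈ A ∪ U1 ∪ U2 ↔ i ∈ R.erase x := by rw [hAR]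
    simp only [Finset.mem_union, Finset.mem_erase] at h1
    constructor
    · intro hi
      by_cases hix : i = x
      · exact Or.inl hix
      · have := h1.2 ⟨hix, hi⟩
        tauto
    · rintro (rfl | hi | hi | hi)
      · exact hx
      · exact (h1.1 (by tauto)).2
      · exact (h1.1 (by tauto)).2
      · exact (h1.1 (by tauto)).2
  have hU2R : U2 ⊆ R := fun y hy => (hmem y).2 (by tauto)
  have hdA1 := Finset.disjoint_left.1 hA1.1
  have hdA2 := Finset.disjoint_left.1 hA2.1
  have hd12 := Finset.disjoint_left.1 h12.1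
  have hmx : m' x = 0 := hm0 x hxA
  -- positivity of q
  have hqpos : ∀ i ∈ R, 0 < q i := by
    refine FinT.pos_of_conn hs hR hc q ?_ ?_
    · intro i hi
      obtain ⟨n, hn, he⟩ := hq i hi
      rw [he]; positivity
    · refine ⟨x, hx, ?_⟩
      obtain ⟨n, hn, he⟩ := hq x hx
      rw [he]
      have : (0 : ℚ) < n := by exact_mod_cast hn
      exact this.ne'
  obtain ⟨nx, hnx⟩ := hz
  -- the component of `x`
  set M' := A.filter (fun y => m' y ≠ 0) with hM'
  have hxN : x ∈ R \ M' := Finset.mem_sdiff.2 ⟨hx, fun h => hxA (Finset.mem_filter.1 h).1⟩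
  obtain ⟨Z, hZ, hxZ⟩ := comps_cover hs x hxN
  have hZN := comps_subset hZ
  have hZR : Z ⊆ R := hZN.trans Finset.sdiff_subset
  have hZfin : FinT a Z := hR.mono hZR
  -- exponents
  have hXE : ∀ i l, (blkT a U1 f (f - 1) q (blkT a U2 f (f + 1) q
      (rawT a A f q m' (T.col x (sy x (f - 1)))))).E (i, l) =
      T.E (i, l) + if l = f then AG9b_G a A U1 U2 q m' i else 0 := by
    intro i l
    rw [blkT_E, blkT_E, rawT_E]
    show T.E (i, l) - _ + _ + _ = _
    by_cases hl : l = f
    · rw [if_pos hl, if_pos hl, if_pos hl, if_pos hl]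
      unfold AG9b_G
      ring
    · rw [if_neg hl, if_neg hl, if_neg hl, if_neg hl]
      ring
  have hXEf : ∀ i, (blkT a U1 f (f - 1) q (blkT a U2 f (f + 1) q
      (rawT a A f q m' (T.col x (sy x (f - 1)))))).E (i, f) =
      T.E (i, f) + AG9b_G a A U1 U2 q m' i := by
    intro i
    rw [hXE, if_pos rfl]
  have hXEl : ∀ i l, l ≠ f → (blkT a U1 f (f - 1) q (blkT a U2 f (f + 1) q
      (rawT a A f q m' (T.col x (sy x (f - 1)))))).E (i, l) = T.E (i, l) := by
    intro i l hl
    rw [hXE, if_neg hl, add_zero]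
  have hGR : ∀ i, AG9b_G a A U1 U2 q m' i =
      cqN a R q i - q x * (cart a x i : ℚ) - ∑ y ∈ A, (m' y : ℚ) * (cart a y i : ℚ) := by
    intro i
    rw [AG9b_G_eq a hAR hA1.1 hA2.1 h12.1]
    have : cqN a R q i = q x * (cart a x i : ℚ) + ∑ y ∈ R.erase x, q y * (cart a y i : ℚ) := by
      unfold cqN
      rw [← Finset.add_sum_erase R _ hx, AG9b_cart_comm hs i x, mul_comm]
      congr 1
      refine Finset.sum_congr rfl fun y _ => ?_
      rw [AG9b_cart_comm hs i y, mul_comm]
    rw [this]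
    ring
  -- first step
  have hstep1 : TV a (blkT a U1 f (f - 1) q (blkT a U2 f (f + 1) q
      (rawT a A f q m' (T.col x (sy x (f - 1)))))) =
      TV a ((blkT a U1 f (f - 1) q (blkT a U2 f (f + 1) q
      (rawT a A f q m' (T.col x (sy x (f - 1)))))).etaM a (fun _ => f)
        (fun i => (((if i = x then -nx else 0 : ℤ) : ℤ) : ℚ))) := by
    have hsolpos : ∀ i ∈ Z, 0 < solN a Z (fun i => (blkT a U1 f (f - 1) q (blkT a U2 f (f + 1) q
        (rawT a A f q m' (T.col x (sy x (f - 1)))))).E (i, f)) i := by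
      have h := AG9b_pos a hs R hR hc q hqpos x A U1 U2 hAR hA1.1 hA2.1 h12.1 m' hgood hne
        (fun i => T.E (i, f)) (fun y hy => by
          obtain ⟨n, hn⟩ := hT.nat y hy f hf
          rw [hn]
          positivity) Z hZ
      intro i hi
      simp only [hXEf]
      exact h i hi
    refine TV_rep a hs Z hZfin (fun _ => f) (fun z => if z ∈ U2 then f + 1 else f - 1)
      (fun _ _ => hf) (fun _ _ _ _ _ => rfl) ?_ _ ?_ hsolpos (fun i => if i = x then -nx else 0)
      ?_ ?_
    · intro z hz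
      by_cases h2 : z ∈ U2
      · simp only [if_pos h2]; exact Or.inl rfl
      · simp only [if_neg h2]; exact Or.inr (by omega)
    · intro z hz
      have hzR := hZR hz
      refine ⟨?_, ?_, ?_⟩
      · intro l hl hlf
        rw [hXEl z l hlf]
        exact hT.nat z hzR l hl
      · rw [hXEf, hGR]
        obtain ⟨n1, h1⟩ := hT.nat z hzR f hf
        obtain ⟨n2, -, h2⟩ := hq z hzR
        rw [h1, h2, hnx]
        refine ⟨n1 + (n2 - nx * cart a x z - ∑ y ∈ A, (m' y : ℤ) * cart a y z), ?_⟩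
        push_cast
        ring
      · intro j l hl hj
        have hΛ : (if j ∈ U1 then sy j (f - 1) else if j ∈ U2 then sy j (f + 1) else
            if j ∈ A then (if m' j = 0 then sy j (f - 1) else cE a j f) else
            Function.update T.Λ x (sy x (f - 1)) j) (z, l) ≠ 0 := hj
        by_cases hj1 : j ∈ U1
        · rw [if_pos hj1] at hΛ
          obtain ⟨rfl, rfl⟩ := AG9b_sy_ne hΛ
          left
          simp only [if_neg (fun h => hd12 hj1 h)]
        · rw [if_neg hj1] at hΛ
          by_cases hj2 : j ∈ U2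
          · rw [if_pos hj2] at hΛ
            obtain ⟨rfl, rfl⟩ := AG9b_sy_ne hΛ
            left
            simp only [if_pos hj2]
          · rw [if_neg hj2] at hΛ
            by_cases hjA : j ∈ A
            · rw [if_pos hjA] at hΛ
              by_cases hjm : m' j = 0
              · rw [if_pos hjm] at hΛ
                obtain ⟨rfl, rfl⟩ := AG9b_sy_ne hΛ
                left
                simp only [if_neg hj2]
              · rw [if_neg hjm] at hΛ
                exact Or.inr (Or.inl (AG9b_cE_ne a hΛ))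
            · rw [if_neg hjA] at hΛ
              by_cases hjx : j = x
              · subst hjx
                rw [Function.update_self] at hΛ
                obtain ⟨rfl, rfl⟩ := AG9b_sy_ne hΛ
                left
                simp only [if_neg hj2]
              · rw [Function.update_of_ne hjx] at hΛ
                have hjR : j ∉ R := by
                  rw [hmem]; tauto
                have h1 := hT.col z hzR j hjR l hl hΛ
                by_cases hlf : l = f
                · exact Or.inr (Or.inl hlf)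
                · right; right
                  rw [hXEl z l hlf]
                  exact h1
    · intro i hi
      have : i ≠ x := fun h => hi (h ▸ hxZ)
      simp only [if_neg this]
    · intro z hz
      by_cases hzx : z = x
      · subst hzx
        simp only [if_pos]
        have h1 := hsolpos z hz
        have h2 := hqpos z hx
        push_cast
        rw [← hnx]
        linarith
      · simp only [if_neg hzx]
        push_cast
        exact hsolpos z hz
  have hstep2 := AG9b_eq a R A U1 U2 x hAR hx hA1.1 hA2.1 h12.1 f q m' hm0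
    (fun i => (((if i = x then -nx else 0 : ℤ) : ℤ) : ℚ)) (fun i => by
      by_cases hix : i = x
      · simp only [if_pos hix]; rw [hnx]; push_cast; ring
      · simp only [if_neg hix]; push_cast; ring) T
  rw [hstep1, hstep2]
  -- second step
  have hYE : ∀ i l, (rawT a (R \ U2) f q m' T).E (i, l) = T.E (i, l) -
      if l = f then ∑ y ∈ R \ U2, ((m' y : ℚ) - q y) * (cart a y i : ℚ) else 0 :=
    fun i l => rawT_E a (R \ U2) f q m' T i l
  rw [TV_step_gen a hs U2 (hR.mono hU2R) f hf q (rawT a (R \ U2) f q m' T) ?_ ?_ ?_ B ?_]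
  · exact AG9b_reindex a R A U1 U2 x hAR hx hA1.1 hA2.1 h12.1 f q m' hm0 T B hBm
  · intro z hz l hl hlf
    rw [hYE, if_neg hlf, sub_zero]
    exact hT.nat z (hU2R hz) l hl
  · intro z hz
    have hzR := hU2R hz
    obtain ⟨n1, h1⟩ := hT.nat z hzR f hf
    obtain ⟨n2, hn2, h2⟩ := hq z hzR
    refine ⟨n1 + n2, by omega, ?_⟩
    rw [hYE, if_pos rfl, h1]
    push_cast
    rw [← h2]
    -- `cqN R = cqN U2 + rest`
    have e1 : cqN a R q z = ∑ y ∈ R \ U2, (cart a z y : ℚ) * q y + cqN a U2 q z := by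
      unfold cqN
      exact (Finset.sum_sdiff hU2R).symm
    have e2 : ∑ y ∈ R \ U2, ((m' y : ℚ) - q y) * (cart a y z : ℚ) =
        -∑ y ∈ R \ U2, (cart a z y : ℚ) * q y := by
      rw [← Finset.sum_neg_distrib]
      refine Finset.sum_congr rfl fun y hy => ?_
      rw [AG9b_cart_comm hs z y]
      by_cases hyA : y ∈ A
      · have hne' : y ≠ z := fun h => hdA2 hyA (h ▸ hz)
        rw [AG9b_cart_zero hne' (hA2.2 y hyA z hz)]
        simp
      · rw [hm0 y hyA]
        push_cast
        ring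
    rw [e1, e2]
    ring
  · intro z hz j hj l hl hΛ
    have hzR := hU2R hz
    have hΛ' : (if j ∈ R \ U2 then (if m' j = 0 then sy j (f - 1) else cE a j f) else T.Λ j)
      (z, l) ≠ 0 := hΛ
    by_cases hjR : j ∈ R
    · rw [if_pos (Finset.mem_sdiff.2 ⟨hjR, hj⟩)] at hΛ'
      by_cases hjm : m' j = 0
      · rw [if_pos hjm] at hΛ'
        exact absurd ((AG9b_sy_ne hΛ').1 ▸ hz) hj
      · rw [if_neg hjm] at hΛ'
        exact Or.inl (AG9b_cE_ne a hΛ')
    · rw [if_neg (fun h => hjR (Finset.mem_sdiff.1 h).1)] at hΛ'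
      have h1 := hT.col z hzR j hjR l hl hΛ'
      by_cases hlf : l = f
      · exact Or.inl hlf
      · right
        rw [hYE, if_neg hlf, sub_zero]
        exact h1
  · refine le_trans ?_ hB
    unfold bnd
    have : ∀ i ∈ U2, (rawT a (R \ U2) f q m' T).γ i = T.γ i := by
      intro i hi
      show T.γ i - (f : ℚ) * (if i ∈ R \ U2 then (m' i : ℚ) - q i else 0) = T.γ i
      rw [if_neg (fun h => (Finset.mem_sdiff.1 h).2 hi)]
      ring
    rw [Finset.sum_congr rfl (fun i hi => by rw [this i hi])]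
    exact Finset.sum_le_sum_of_subset hU2R

end

end Pool.Agent.H27.KAC
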