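import Pool.Agent.H41.KA.AG9b

/-!
KAC ADE, module AG9f: one block makes its step (the chain vertex is already at the frontier `f - 1`).

`star_event`: `evU_event` with the other blocks `({x}, alU u (f-1)) :: (atF L1 (f-1) ++ atF L2 f)`.  `evU_alU` for `f - 1`: the part with
column `(x,f)` vanishes by `raw_kill` (`z = x`), the part with column `(x,f-1)` is evaluated with `raw_conv`
(`σz = f - 1`, blocks `RB.blk`), `expl_append`, `expl_merge`, then `star_rep`.  If `m'` is not good, both sides vanish by `raw_pos`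
(for `b.B`, and for `R`).  The terms on the right hand side with `m` a plateau on `b.B` vanish by `raw_pos` for `R`.
Integrality `hI2` of `raw_kill` and `raw_conv`: `StarCtx.sum_int`, `WinPat.cls`.
-/

set_option autoImplicit false

namespace Pool.Agent.H27.KAC

open scoped BigOperators

section

variable {I : Type} [Fintype I] [DecidableEq I]

/-- the other blocks. -/
private def AG9f_L (q : I → ℚ) (f : ℕ) (L1 L2 : List (RB I)) : List (Blk I) :=
  L1.map (RB.blk q f true) ++ L2.map (RB.blk q f false)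

omit [Fintype I] [DecidableEq I] in
private theorem AG9f_map (q : I → ℚ) (f : ℕ) (L1 L2 : List (RB I)) :
    (AG9f_L q f L1 L2).map (fun b => (b.B, b.Φ)) = atF L1 (f - 1) ++ atF L2 f := by
  unfold AG9f_L atF
  rw [List.map_append, List.map_map, List.map_map]
  congr 1

private theorem AG9f_uniB (q : I → ℚ) (f : ℕ) (L1 L2 : List (RB I)) :
    uniB (AG9f_L q f L1 L2) = uniR L1 ∪ uniR L2 := by
  ext y
  rw [mem_uniB, Finset.mem_union, mem_uniR, mem_uniR]
  unfold AG9f_L
  constructor
  · rintro ⟨c, hc, hy⟩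
    rcases List.mem_append.1 hc with hc | hc
    · obtain ⟨d, hd, rfl⟩ := List.mem_map.1 hc
      exact Or.inl ⟨d, hd, hy⟩
    · obtain ⟨d, hd, rfl⟩ := List.mem_map.1 hc
      exact Or.inr ⟨d, hd, hy⟩
  · rintro (⟨d, hd, hy⟩ | ⟨d, hd, hy⟩)
    · exact ⟨RB.blk q f true d, List.mem_append.2 (Or.inl (List.mem_map.2 ⟨d, hd, rfl⟩)), hy⟩
    · exact ⟨RB.blk q f false d, List.mem_append.2 (Or.inr (List.mem_map.2 ⟨d, hd, rfl⟩)), hy⟩

private theorem AG9f_sum (L : List (Blk I)) (hd : L.Pairwise (fun b c => Disjoint b.B c.B))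
    (g : I → ℚ) : (L.map (fun b => ∑ x ∈ b.B, g x)).sum = ∑ x ∈ uniB L, g x := by
  induction L with
  | nil => simp [uniB]
  | cons b L ih =>
    rw [List.pairwise_cons] at hd
    have hdis : Disjoint b.B (uniB L) := by
      rw [Finset.disjoint_left]
      intro y hy hy'
      obtain ⟨c, hc, hyc⟩ := (mem_uniB L y).1 hy'
      exact Finset.disjoint_left.1 (hd.1 c hc) hy hyc
    rw [List.map_cons, List.sum_cons, ih hd.2]
    exact (Finset.sum_union hdis).symm

private theorem AG9f_cfup (q : I → ℚ) (f : ℕ) (L : List (RB I))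
    (hd : L.Pairwise (fun b c => Disjoint b.B c.B)) :
    ((L.map (RB.blk q f true)).map Blk.cf).prod =
      (-1) ^ (uniR L).card * (L.map (fun b => b.w f)).prod := by
  induction L with
  | nil => simp [uniR]
  | cons b L ih =>
    rw [List.pairwise_cons] at hd
    have hdis : Disjoint b.B (uniR L) := by
      rw [Finset.disjoint_left]
      intro y hy hy'
      obtain ⟨c, hc, hyc⟩ := (mem_uniR L y).1 hy'
      exact Finset.disjoint_left.1 (hd.1 c hc) hy hyc
    have hc : (uniR (b :: L)).card = b.B.card + (uniR L).card :=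
      Finset.card_union_of_disjoint hdis
    rw [List.map_cons, List.map_cons, List.prod_cons, ih hd.2, hc, List.map_cons, List.prod_cons,
      pow_add]
    have : Blk.cf (RB.blk q f true b) = (-1) ^ b.B.card * b.w f := by
      simp [Blk.cf, RB.blk]
    rw [this]
    ring

omit [Fintype I] [DecidableEq I] in
private theorem AG9f_cfdn (q : I → ℚ) (f : ℕ) (L : List (RB I)) :
    ((L.map (RB.blk q f false)).map Blk.cf).prod = (L.map (fun b => b.w f)).prod := by
  rw [List.map_map]
  congr 1
  refine List.map_congr_left fun b _ => ?_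
  simp [Blk.cf, RB.blk]

omit [Fintype I] in
private theorem AG9f_isZ_add {p r : ℚ} (hp : IsZ p) (hr : IsZ r) : IsZ (p + r) := by
  obtain ⟨m, rfl⟩ := hp
  obtain ⟨n, rfl⟩ := hr
  exact ⟨m + n, by push_cast; ring⟩

private theorem AG9f_isZ_sum {ι : Type} (s : Finset ι) (g : ι → ℚ) (h : ∀ i ∈ s, IsZ (g i)) :
    IsZ (∑ i ∈ s, g i) := by
  classical
  induction s using Finset.induction_on with
  | empty => exact ⟨0, by simp⟩
  | insert i s hi ih =>
    rw [Finset.sum_insert hi]
    obtain ⟨m, hm⟩ := h i (Finset.mem_insert_self _ _)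
    obtain ⟨n, hn⟩ := ih (fun j hj => h j (Finset.mem_insert_of_mem hj))
    exact ⟨m + n, by rw [hm, hn]; push_cast; ring⟩

private theorem AG9f_sep_uniR {a : I → I → ℕ} (A : Finset I) (L : List (RB I))
    (h : ∀ c ∈ L, Sep a A c.B) : Sep a A (uniR L) := by
  constructor
  · rw [Finset.disjoint_left]
    intro y hy hy'
    obtain ⟨c, hc, hyc⟩ := (mem_uniR L y).1 hy'
    exact Finset.disjoint_left.1 (h c hc).1 hy hyc
  · intro y hy z hz
    obtain ⟨c, hc, hzc⟩ := (mem_uniR L z).1 hz
    exact (h c hc).2 y hy z hzc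

omit [Fintype I] [DecidableEq I] in
private theorem AG9f_bnd_mono (A R : Finset I) (hAR : A ⊆ R) (f : ℕ) (q : I → ℚ) (T : Trm I) :
    bnd A f q T ≤ bnd R f q T :=
  Finset.sum_le_sum_of_subset hAR

/-- the evaluation of the other blocks on the raw terms of the block `b`. -/
private theorem AG9f_eval (a : I → I → ℕ) (hs : ∀ i j, a i j = a j i) (cd : CrossData a)
    (R : Finset I) (x : I) (q : I → ℚ) (K : ℕ) (u : ℕ → ℚ) (L1 : List (RB I)) (b : RB I)
    (L2 : List (RB I)) (h : StarCtx a cd R x q K u (b :: (L1 ++ L2))) (f : ℕ) (hf : 1 ≤ f)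
    (hfK : f ≤ K) (T : Trm I) (hT : RReg R T) (m : I → ℕ) (hm : ¬ Plat b.B q m) :
    evU a (({x}, alU u (f - 1)) :: (atF L1 (f - 1) ++ atF L2 f)) (rawT a b.B f q m T) =
      -(u f * ((-1) ^ (uniR L1).card * ((L1 ++ L2).map (fun b => b.w f)).prod)) *
      TV a (blkT a (uniR L1) f (f - 1) q (blkT a (uniR L2) f (f + 1) q
        (rawT a b.B f q m (T.col x (sy x (f - 1)))))) := by
  classical
  have hsep := h.sep
  rw [List.pairwise_cons] at hsep
  obtain ⟨hsb, hsL⟩ := hsep
  rw [List.pairwise_append] at hsL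
  obtain ⟨hs1, hs2, hs12⟩ := hsL
  have hbl : ∀ c ∈ L1 ++ L2, c.B ⊆ R ∧ x ∉ c.B ∧ FinT a c.B ∧ QOk a c.B q ∧
      (∃ y ∈ c.B, 0 < a x y) := fun c hc => h.block hs c (List.mem_cons_of_mem _ hc)
  obtain ⟨hbR, hxb, hbfin, hbq, hbadj⟩ := h.block hs b List.mem_cons_self
  have hcov : uniR (b :: (L1 ++ L2)) = R.erase x := h.cov
  set L' := AG9f_L q f L1 L2 with hL'
  have huni : uniB L' = uniR L1 ∪ uniR L2 := AG9f_uniB q f L1 L2
  have hxL : x ∉ uniB L' := by
    rw [huni, Finset.mem_union, mem_uniR, mem_uniR]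
    rintro (⟨c, hc, hx⟩ | ⟨c, hc, hx⟩)
    · exact (hbl c (List.mem_append.2 (Or.inl hc))).2.1 hx
    · exact (hbl c (List.mem_append.2 (Or.inr hc))).2.1 hx
  have hAU : b.B ∪ uniB L' = R.erase x := by
    rw [← hcov, huni]
    ext y
    simp only [Finset.mem_union, mem_uniR, List.mem_cons, List.mem_append]
    constructor
    · rintro (hy | ⟨c, hc, hy⟩ | ⟨c, hc, hy⟩)
      · exact ⟨b, Or.inl rfl, hy⟩
      · exact ⟨c, Or.inr (Or.inl hc), hy⟩
      · exact ⟨c, Or.inr (Or.inr hc), hy⟩
    · rintro ⟨c, (rfl | hc | hc), hy⟩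
      · exact Or.inl hy
      · exact Or.inr (Or.inl ⟨c, hc, hy⟩)
      · exact Or.inr (Or.inr ⟨c, hc, hy⟩)
  have hsA : Sep a b.B (uniB L') := by
    rw [huni]
    have h1 : Sep a b.B (uniR L1) :=
      AG9f_sep_uniR b.B L1 fun c hc => hsb c (List.mem_append.2 (Or.inl hc))
    have h2 : Sep a b.B (uniR L2) :=
      AG9f_sep_uniR b.B L2 fun c hc => hsb c (List.mem_append.2 (Or.inr hc))
    exact (Sep_union (h1.symm hs) (h2.symm hs)).symm hs
  have hok : ∀ c ∈ L', BlkOk a cd f c := by
    intro c hc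
    rw [hL'] at hc
    unfold AG9f_L at hc
    rcases List.mem_append.1 hc with hc | hc
    · obtain ⟨d, hd, rfl⟩ := List.mem_map.1 hc
      have hd' := List.mem_append.2 (Or.inl hd : d ∈ L1 ∨ d ∈ L2)
      obtain ⟨_, _, h3, h4, _⟩ := hbl d hd'
      exact RB_blkOk a hs cd q K f hf hfK true d h3 (h.bconn d (List.mem_cons_of_mem _ hd')) h4
        (h.resp d (List.mem_cons_of_mem _ hd'))
    · obtain ⟨d, hd, rfl⟩ := List.mem_map.1 hc
      have hd' := List.mem_append.2 (Or.inr hd : d ∈ L1 ∨ d ∈ L2)
      obtain ⟨_, _, h3, h4, _⟩ := hbl d hd'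
      exact RB_blkOk a hs cd q K f hf hfK false d h3 (h.bconn d (List.mem_cons_of_mem _ hd')) h4
        (h.resp d (List.mem_cons_of_mem _ hd'))
  have hpw : L'.Pairwise (fun b c => Sep a b.B c.B) := by
    rw [hL']
    unfold AG9f_L
    rw [List.pairwise_append, List.pairwise_map, List.pairwise_map]
    refine ⟨hs1, hs2, ?_⟩
    intro c hc d hd
    obtain ⟨c', hc', rfl⟩ := List.mem_map.1 hc
    obtain ⟨d', hd', rfl⟩ := List.mem_map.1 hd
    exact hs12 c' hc' d' hd'
  have hpd : L'.Pairwise (fun b c => Disjoint b.B c.B) := hpw.imp fun h => h.1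
  have hLq : ∀ c ∈ L', c.q = q := by
    intro c hc
    rw [hL'] at hc
    unfold AG9f_L at hc
    rcases List.mem_append.1 hc with hc | hc
    · obtain ⟨d, hd, rfl⟩ := List.mem_map.1 hc
      rfl
    · obtain ⟨d, hd, rfl⟩ := List.mem_map.1 hc
      rfl
  have hadjL : ∀ c ∈ L', ∃ y ∈ c.B, 0 < a x y := by
    intro c hc
    rw [hL'] at hc
    unfold AG9f_L at hc
    rcases List.mem_append.1 hc with hc | hc
    · obtain ⟨d, hd, rfl⟩ := List.mem_map.1 hc
      exact (hbl d (List.mem_append.2 (Or.inl hd))).2.2.2.2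
    · obtain ⟨d, hd, rfl⟩ := List.mem_map.1 hc
      exact (hbl d (List.mem_append.2 (Or.inr hd))).2.2.2.2
  have hxx : a x x = 0 := h.fin.loopfree x h.hx
  have hmap : L'.map (fun b => (b.B, b.Φ)) = atF L1 (f - 1) ++ atF L2 f := AG9f_map q f L1 L2
  have hdisU : (atF L1 (f - 1) ++ atF L2 f).Pairwise (fun b c => Disjoint b.1 c.1) := by
    rw [← hmap, List.pairwise_map]
    exact hpd
  have huU : uni (atF L1 (f - 1) ++ atF L2 f) = uniB L' := by
    rw [← hmap, uni_map_blk]
  have hff : f - 1 + 1 = f := Nat.sub_add_cancel hf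
  have hcolT : ∀ l0 : ℕ, RReg (b.B ∪ uniB L') (T.col x (sy x l0)) := by
    intro l0
    rw [hAU]
    constructor
    · intro y hy l hl
      exact hT.nat y (Finset.mem_of_mem_erase hy) l hl
    · intro y hy j hj l hl hne
      have hyx : y ≠ x := Finset.ne_of_mem_erase hy
      have hyR := Finset.mem_of_mem_erase hy
      by_cases hjx : j = x
      · exfalso
        apply hne
        subst hjx
        show (Function.update T.Λ j (sy j l0)) j (y, l) = 0
        rw [Function.update_self]
        exact Finsupp.single_eq_of_ne (fun e => hyx (congrArg Prod.fst e))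
      · have hjR : j ∉ R := fun hjR => hj (Finset.mem_erase.2 ⟨hjx, hjR⟩)
        have hne' : T.Λ j (y, l) ≠ 0 := by
          intro h0
          apply hne
          show (Function.update T.Λ x (sy x l0)) j (y, l) = 0
          rw [Function.update_of_ne hjx]
          exact h0
        exact hT.col y hyR j hjR l hl hne'
  have hcolx : ∀ l0 : ℕ, ∀ j, j ∉ b.B → j ∉ uniB L' → ∀ l, 1 ≤ l →
      (T.col x (sy x l0)).Λ j (x, l) ≠ 0 → l = l0 ∨ 1 ≤ T.E (x, l) := by
    intro l0 j hj1 hj2 l hl hne
    by_cases hjx : j = x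
    · left
      by_contra hll
      apply hne
      subst hjx
      show (Function.update T.Λ j (sy j l0)) j (j, l) = 0
      rw [Function.update_self]
      exact Finsupp.single_eq_of_ne (fun e => hll (congrArg Prod.snd e))
    · right
      have hjR : j ∉ R := by
        intro hjR
        have : j ∈ b.B ∪ uniB L' := by rw [hAU]; exact Finset.mem_erase.2 ⟨hjx, hjR⟩
        rcases Finset.mem_union.1 this with h' | h'
        · exact hj1 h'
        · exact hj2 h'
      have hne' : T.Λ j (x, l) ≠ 0 := by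
        intro h0
        apply hne
        show (Function.update T.Λ x (sy x l0)) j (x, l) = 0
        rw [Function.update_of_ne hjx]
        exact h0
      exact hT.col x h.hx j hjR l hl hne'
  have hdisAU : Disjoint b.B (uniB L') := hsA.1
  have hint : IsZ (∑ y ∈ b.B, (a x y : ℚ) * q y + ∑ y ∈ uniB L', (a x y : ℚ) * q y) := by
    rw [← Finset.sum_union hdisAU, hAU]
    exact h.sum_int hs
  rw [evU_alU a u (f - 1) x _ (by rw [huU]; exact hxL), hff]
  -- first part
  have hzero : evU a (atF L1 (f - 1) ++ atF L2 f) ((rawT a b.B f q m T).col x (sy x f)) = 0 := by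
    rw [evU_eq_evF a _ hdisU, huU, ← rawT_col_comm a b.B f q m x hxb]
    unfold evF
    refine List.sum_eq_zero fun r hr => ?_
    obtain ⟨c, hc, rfl⟩ := List.mem_map.1 hr
    have hwide : PatWide a cd (uniB L') f c.2 :=
      PatWide_prod a hs cd f L' hok hpw c (by rw [hmap]; exact hc)
    have hcls : ∀ y ∈ uniB L', IsZ (c.2.q y - q y) := by
      intro y hy
      obtain ⟨d, hd, hyd⟩ := (mem_uniB L' y).1 hy
      have hd2 : (d.B, d.Φ) ∈ atF L1 (f - 1) ++ atF L2 f := by
        rw [← hmap]
        exact List.mem_map.2 ⟨d, hd, rfl⟩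
      obtain ⟨e, he, hce⟩ := prodF_mem _ hdisU c hc _ hd2
      rw [(hce y hyd).2, ← hLq d hd]
      exact (hok d hd).cls e he y hyd
    have := raw_kill a hs cd f hf b.B hbfin (h.bconn b List.mem_cons_self) q hbq (uniB L')
      (h.fin.mono (by
        intro y hy
        have : y ∈ b.B ∪ uniB L' := Finset.mem_union_right _ hy
        rw [hAU] at this
        exact Finset.mem_of_mem_erase this)) hsA c.2 hwide (T.col x (sy x f)) (hcolT f) m hm x hxb
      hxL hxx hbadj (fun l hl => hT.nat x h.hx l hl) ?_ (hcolx f)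
    · rw [this, mul_zero]
    · have e : ∑ y ∈ b.B, (a x y : ℚ) * q y + ∑ y ∈ uniB L', (a x y : ℚ) * c.2.q y
          = (∑ y ∈ b.B, (a x y : ℚ) * q y + ∑ y ∈ uniB L', (a x y : ℚ) * q y)
            + ∑ y ∈ uniB L', (a x y : ℚ) * (c.2.q y - q y) := by
        rw [add_assoc, ← Finset.sum_add_distrib]
        congr 1
        refine Finset.sum_congr rfl fun y _ => by ring
      rw [e]
      refine AG9f_isZ_add hint (AG9f_isZ_sum _ _ fun y hy => ?_)
      obtain ⟨n, hn⟩ := hcls y hy
      exact ⟨(a x y : ℤ) * n, by rw [hn]; push_cast; ring⟩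
  -- second part
  have hconv : evU a (atF L1 (f - 1) ++ atF L2 f) ((rawT a b.B f q m T).col x (sy x (f - 1))) =
      (L'.map Blk.cf).prod * TV a (expl a f L' (rawT a b.B f q m (T.col x (sy x (f - 1))))) := by
    rw [← hmap, ← rawT_col_comm a b.B f q m x hxb]
    refine raw_conv a hs cd f hf b.B hbfin (h.bconn b List.mem_cons_self) q hbq L' hok hpw hsA
      (T.col x (sy x (f - 1))) (hcolT (f - 1)) m hm x hxb hxL hxx hbadj hadjL (f - 1)
      (Or.inr hff) (fun l hl => hT.nat x h.hx l hl) ?_ ?_
    · have e : (L'.map (fun b => ∑ x_1 ∈ b.B, (a x x_1 : ℚ) * b.q x_1)).sum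
          = ∑ y ∈ uniB L', (a x y : ℚ) * q y := by
        rw [← AG9f_sum L' hpd]
        congr 1
        refine List.map_congr_left fun c hc => ?_
        rw [hLq c hc]
      rw [e]
      exact hint
    · intro j hj1 hj2 l hl hne
      exact Or.inr (hcolx (f - 1) j hj1 hj2 l hl hne)
  have hcf : (L'.map Blk.cf).prod =
      (-1) ^ (uniR L1).card * ((L1 ++ L2).map (fun b => b.w f)).prod := by
    rw [hL']
    unfold AG9f_L
    rw [List.map_append, List.prod_append, AG9f_cfup q f L1 (hs1.imp fun h => h.1),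
      AG9f_cfdn q f L2, List.map_append, List.prod_append]
    ring
  have hexpl : ∀ X : Trm I, expl a f L' X =
      blkT a (uniR L1) f (f - 1) q (blkT a (uniR L2) f (f + 1) q X) := by
    intro X
    rw [hL']
    unfold AG9f_L
    rw [expl_append]
    have e1 : uniB (L1.map (RB.blk q f true)) = uniR L1 := by
      have := AG9f_uniB q f L1 []
      unfold AG9f_L at this
      simpa [uniR] using this
    have e2 : uniB (L2.map (RB.blk q f false)) = uniR L2 := by
      have := AG9f_uniB q f [] L2
      unfold AG9f_L at this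
      simpa [uniR] using this
    rw [expl_merge a f (L1.map (RB.blk q f true)) q true, expl_merge a f
      (L2.map (RB.blk q f false)) q false, e1, e2]
    · simp
    · rw [List.pairwise_map]; exact hs2.imp fun h => h.1
    · intro c hc y _
      obtain ⟨d, _, rfl⟩ := List.mem_map.1 hc
      rfl
    · intro c hc
      obtain ⟨d, _, rfl⟩ := List.mem_map.1 hc
      rfl
    · rw [List.pairwise_map]; exact hs1.imp fun h => h.1
    · intro c hc y _
      obtain ⟨d, _, rfl⟩ := List.mem_map.1 hc
      rfl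
    · intro c hc
      obtain ⟨d, _, rfl⟩ := List.mem_map.1 hc
      rfl
  rw [hzero, hconv, hcf, hexpl]
  ring

open Classical in
theorem star_event (a : I → I → ℕ) (hs : ∀ i j, a i j = a j i) (cd : CrossData a) (R : Finset I)
    (x : I) (q : I → ℚ) (K : ℕ) (u : ℕ → ℚ) (L1 : List (RB I)) (b : RB I) (L2 : List (RB I))
    (h : StarCtx a cd R x q K u (b :: (L1 ++ L2))) (f : ℕ) (hf : 1 ≤ f) (hfK : f ≤ K)
    (T : Trm I) (hT : RReg R T) (B : ℕ) (hB : bnd R f q T ≤ B) :
    evU a ((b.B, b.Φ f) :: ({x}, alU u (f - 1)) :: (atF L1 (f - 1) ++ atF L2 f)) T -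
      evU a ((b.B, b.Φ (f - 1)) :: ({x}, alU u (f - 1)) :: (atF L1 (f - 1) ++ atF L2 f)) T =
      stW u (b :: (L1 ++ L2)) f * ∑ m ∈ (mbox R B).filter
        (fun m => m x = 0 ∧ (∀ y ∈ uniR L1, m y = 0) ∧ (∃ y ∈ b.B, m y ≠ 0) ∧ ¬ Plat R q m),
        sgm R m * TV a (rawT a R f q m T) := by
  have hsep := h.sep
  rw [List.pairwise_cons] at hsep
  obtain ⟨hsb, hsL⟩ := hsep
  have hsL' := hsL
  rw [List.pairwise_append] at hsL'
  obtain ⟨hs1, hs2, hs12⟩ := hsL'
  have hbl : ∀ c ∈ L1 ++ L2, c.B ⊆ R ∧ x ∉ c.B ∧ FinT a c.B ∧ QOk a c.B q ∧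
      (∃ y ∈ c.B, 0 < a x y) := fun c hc => h.block hs c (List.mem_cons_of_mem _ hc)
  obtain ⟨hbR, hxb, hbfin, hbq, hbadj⟩ := h.block hs b List.mem_cons_self
  have hbresp := h.resp b List.mem_cons_self
  have hbconn := h.bconn b List.mem_cons_self
  have hA1 : Sep a b.B (uniR L1) :=
    AG9f_sep_uniR b.B L1 fun c hc => hsb c (List.mem_append.2 (Or.inl hc))
  have hA2 : Sep a b.B (uniR L2) :=
    AG9f_sep_uniR b.B L2 fun c hc => hsb c (List.mem_append.2 (Or.inr hc))
  have h12 : Sep a (uniR L1) (uniR L2) := by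
    refine AG9f_sep_uniR _ _ fun c hc => ?_
    refine (AG9f_sep_uniR _ _ fun d hd => ?_ : Sep a c.B (uniR L1)).symm hs
    exact (hs12 d hd c hc).symm hs
  have hcov : b.B ∪ uniR L1 ∪ uniR L2 = R.erase x := by
    rw [← h.cov]
    ext y
    simp only [Finset.mem_union, mem_uniR, List.mem_cons, List.mem_append]
    constructor
    · rintro ((hy | ⟨c, hc, hy⟩) | ⟨c, hc, hy⟩)
      · exact ⟨b, Or.inl rfl, hy⟩
      · exact ⟨c, Or.inr (Or.inl hc), hy⟩
      · exact ⟨c, Or.inr (Or.inr hc), hy⟩
    · rintro ⟨c, (rfl | hc | hc), hy⟩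
      · exact Or.inl (Or.inl hy)
      · exact Or.inl (Or.inr ⟨c, hc, hy⟩)
      · exact Or.inr ⟨c, hc, hy⟩
  set U : List (Finset I × FFn I) := ({x}, alU u (f - 1)) :: (atF L1 (f - 1) ++ atF L2 f) with hU
  -- members of the tail
  have hmemU : ∀ c ∈ atF L1 (f - 1) ++ atF L2 f, ∃ d ∈ L1 ++ L2, c.1 = d.B := by
    intro c hc
    rcases List.mem_append.1 hc with hc | hc
    · obtain ⟨d, hd, rfl⟩ := List.mem_map.1 hc
      exact ⟨d, List.mem_append.2 (Or.inl hd), rfl⟩
    · obtain ⟨d, hd, rfl⟩ := List.mem_map.1 hc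
      exact ⟨d, List.mem_append.2 (Or.inr hd), rfl⟩
  have huniU : uni (atF L1 (f - 1) ++ atF L2 f) = uniR L1 ∪ uniR L2 := by
    ext y
    rw [mem_uni, Finset.mem_union, mem_uniR, mem_uniR]
    constructor
    · rintro ⟨c, hc, hy⟩
      rcases List.mem_append.1 hc with hc | hc
      · obtain ⟨d, hd, rfl⟩ := List.mem_map.1 hc
        exact Or.inl ⟨d, hd, hy⟩
      · obtain ⟨d, hd, rfl⟩ := List.mem_map.1 hc
        exact Or.inr ⟨d, hd, hy⟩
    · rintro (⟨d, hd, hy⟩ | ⟨d, hd, hy⟩)
      · exact ⟨(d.B, d.Φ (f - 1)), List.mem_append.2 (Or.inl (List.mem_map.2 ⟨d, hd, rfl⟩)), hy⟩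
      · exact ⟨(d.B, d.Φ f), List.mem_append.2 (Or.inr (List.mem_map.2 ⟨d, hd, rfl⟩)), hy⟩
  have hdb : ∀ c ∈ U, Disjoint b.B c.1 := by
    intro c hc
    rcases List.mem_cons.1 hc with rfl | hc
    · exact Finset.disjoint_singleton_right.2 hxb
    · obtain ⟨d, hd, hdc⟩ := hmemU c hc
      rw [hdc]
      exact (hsb d hd).1
  have hdU : U.Pairwise (fun b c => Disjoint b.1 c.1) := by
    rw [hU, List.pairwise_cons]
    refine ⟨?_, ?_⟩
    · intro c hc
      obtain ⟨d, hd, hdc⟩ := hmemU c hc
      rw [hdc]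
      exact Finset.disjoint_singleton_left.2 (hbl d hd).2.1
    · rw [List.pairwise_append]
      refine ⟨?_, ?_, ?_⟩
      · unfold atF
        rw [List.pairwise_map]
        exact hs1.imp fun h => h.1
      · unfold atF
        rw [List.pairwise_map]
        exact hs2.imp fun h => h.1
      · intro c hc d hd
        obtain ⟨c', hc', rfl⟩ := List.mem_map.1 hc
        obtain ⟨d', hd', rfl⟩ := List.mem_map.1 hd
        exact (hs12 c' hc' d' hd').1
  have huU : b.B ∪ uni U = R := by
    have : uni U = {x} ∪ (uniR L1 ∪ uniR L2) := by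
      rw [← huniU]
      rfl
    rw [this]
    have h2 : b.B ∪ ({x} ∪ (uniR L1 ∪ uniR L2)) = {x} ∪ (b.B ∪ uniR L1 ∪ uniR L2) := by
      ext y
      simp only [Finset.mem_union]
      tauto
    rw [h2, hcov]
    ext y
    simp only [Finset.mem_union, Finset.mem_singleton, Finset.mem_erase]
    constructor
    · rintro (rfl | hy)
      · exact h.hx
      · exact hy.2
    · intro hy
      by_cases hyx : y = x
      · exact Or.inl hyx
      · exact Or.inr ⟨hyx, hy⟩
  have hins : ∀ c ∈ prodF U, ∀ y ∈ b.B, ∀ z ∈ uni U, c.2.q z ≠ 0 → a y z = 0 := by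
    intro c hc y hy z hz hne
    obtain ⟨d, hd, hzd⟩ := (mem_uni U z).1 hz
    rcases List.mem_cons.1 hd with hd' | hd'
    · exfalso
      subst hd'
      obtain ⟨e, he, hce⟩ := prodF_mem U hdU c hc _ hd
      have := (hce z hzd).2
      rw [this] at hne
      apply hne
      unfold alU at he
      split_ifs at he
      · rw [List.mem_singleton] at he
        rw [he]
      · rcases List.mem_cons.1 he with he | he
        · rw [he]
        · rw [List.mem_singleton] at he
          rw [he]
    · obtain ⟨d', hd'', hdc⟩ := hmemU d hd'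
      rw [hdc] at hzd
      exact (hsb d' hd'').2 y hy z hzd
  rw [evU_event a hs cd q K b hbresp f hf hfK U hdb hdU hins T (by rw [huU]; exact hT) B
    ((AG9f_bnd_mono b.B R hbR f q T).trans hB)]
  -- evaluation of all terms
  set W : ℚ := u f * ((L1 ++ L2).map (fun b => b.w f)).prod with hW
  have hstw : stW u (b :: (L1 ++ L2)) f = b.w f * W := by
    unfold stW
    rw [List.map_cons, List.prod_cons, hW]
    ring
  set S : (I → ℕ) → ℚ := fun m' => ∑ m ∈ (mbox R B).filter
    (fun m => m x = 0 ∧ (∀ y ∈ uniR L1, m y = 0) ∧ (∀ y ∈ b.B, m y = m' y)),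
      sgm R m * TV a (rawT a R f q m T) with hS
  have hsq : ∀ n : ℕ, ((-1 : ℚ) ^ n) * (-1) ^ n = 1 := by
    intro n
    rw [← mul_pow]
    norm_num
  have hterm : ∀ m' ∈ (mbox b.B B).filter (fun m => ¬ Plat b.B q m),
      sgm b.B m' * evU a U (rawT a b.B f q m' T) = W * S m' := by
    intro m' hm'
    rw [Finset.mem_filter] at hm'
    obtain ⟨hmb, hmp⟩ := hm'
    rw [hU, AG9f_eval a hs cd R x q K u L1 b L2 h f hf hfK T hT m' hmp]
    by_cases hgood : ∀ y ∈ b.B, m' y ≠ 0 → q y < m' y
    · have hne : ∃ y ∈ b.B, m' y ≠ 0 := by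
        by_contra hcon
        push Not at hcon
        exact hmp fun y hy => Or.inl (hcon y hy)
      unfold mbox at hmb
      rw [Fintype.mem_piFinset] at hmb
      have hm0 : ∀ y, y ∉ b.B → m' y = 0 := by
        intro y hy
        have := hmb y
        rw [if_neg hy, Finset.mem_singleton] at this
        exact this
      have hmB : ∀ y, m' y ≤ B := by
        intro y
        by_cases hy : y ∈ b.B
        · have := hmb y
          rw [if_pos hy, Finset.mem_range] at this
          omega
        · rw [hm0 y hy]; omega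
      rw [star_rep a hs R h.fin h.conn q h.qok x h.hx h.hz b.B (uniR L1) (uniR L2) hcov hA1 hA2 h12
        hbconn f hf m' hm0 hgood hne T hT B hB hmB]
      have e1 := hsq (uniR L1).card
      have e2 : sgm b.B m' * sgm b.B m' = 1 := hsq _
      show sgm b.B m' * (-(u f * ((-1) ^ (uniR L1).card *
        ((L1 ++ L2).map (fun b => b.w f)).prod)) * (-((-1 : ℚ) ^ (uniR L1).card * sgm b.B m') *
          S m')) = W * S m'
      rw [hW]
      calc _ = (((-1 : ℚ) ^ (uniR L1).card) * (-1) ^ (uniR L1).card) *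
            (sgm b.B m' * sgm b.B m') *
            (u f * ((L1 ++ L2).map (fun b => b.w f)).prod) * S m' := by ring
        _ = _ := by rw [e1, e2]; ring
    · push Not at hgood
      obtain ⟨y0, hy0, hy0m, hy0q⟩ := hgood
      have hTV : TV a (blkT a (uniR L1) f (f - 1) q (blkT a (uniR L2) f (f + 1) q
          (rawT a b.B f q m' (T.col x (sy x (f - 1)))))) = 0 := by
        by_contra hcon
        rw [← rawT_blkT_comm a b.B (uniR L2) hA2.1, ← rawT_blkT_comm a b.B (uniR L1) hA1.1] at hcon
        have hreg : RReg b.B (blkT a (uniR L1) f (f - 1) q (blkT a (uniR L2) f (f + 1) q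
            (T.col x (sy x (f - 1))))) := by
          refine RReg_blkT a hs b.B (uniR L1) hA1 f (f - 1) q _ ?_
          refine RReg_blkT a hs (b.B ∪ uniR L1) (uniR L2) (Sep_union hA2 h12) f (f + 1) q _ ?_
          rw [hcov]
          constructor
          · intro y hy l hl
            exact hT.nat y (Finset.mem_of_mem_erase hy) l hl
          · intro y hy j hj l hl hne
            have hyx : y ≠ x := Finset.ne_of_mem_erase hy
            have hyR := Finset.mem_of_mem_erase hy
            by_cases hjx : j = x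
            · exfalso
              apply hne
              subst hjx
              show (Function.update T.Λ j (sy j (f - 1))) j (y, l) = 0
              rw [Function.update_self]
              exact Finsupp.single_eq_of_ne (fun e => hyx (congrArg Prod.fst e))
            · have hjR : j ∉ R := fun hjR => hj (Finset.mem_erase.2 ⟨hjx, hjR⟩)
              have hne' : T.Λ j (y, l) ≠ 0 := by
                intro h0
                apply hne
                show (Function.update T.Λ x (sy x (f - 1))) j (y, l) = 0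
                rw [Function.update_of_ne hjx]
                exact h0
              exact hT.col y hyR j hjR l hl hne'
        have := raw_pos a hs b.B hbfin hbconn f hf q hbq _ hreg m' hmp hcon y0 hy0 hy0m
        exact absurd this (not_lt.2 hy0q)
      have hS0 : S m' = 0 := by
        rw [hS]
        refine Finset.sum_eq_zero fun m hm => ?_
        rw [Finset.mem_filter] at hm
        obtain ⟨_, _, _, hmm⟩ := hm
        have hnp : ¬ Plat R q m := by
          intro hp
          apply hmp
          intro y hy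
          have := hp y (hbR hy)
          rw [hmm y hy] at this
          exact this
        have h0 : TV a (rawT a R f q m T) = 0 := by
          by_contra hcon
          have := raw_pos a hs R h.fin h.conn f hf q h.qok T hT m hnp hcon y0 (hbR hy0)
            (by rw [hmm y0 hy0]; exact hy0m)
          rw [hmm y0 hy0] at this
          exact absurd this (not_lt.2 hy0q)
        rw [h0, mul_zero]
      rw [hTV, hS0]
      ring
  rw [Finset.sum_congr rfl hterm, ← Finset.mul_sum, hstw, mul_assoc (b.w f) W]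
  refine congrArg (fun t : ℚ => b.w f * (W * t)) ?_
  -- combine the sums
  have hsum : ∑ m' ∈ (mbox b.B B).filter (fun m => ¬ Plat b.B q m), S m' =
      ∑ m ∈ (mbox R B).filter
        (fun m => m x = 0 ∧ (∀ y ∈ uniR L1, m y = 0) ∧ ¬ Plat b.B q m),
        sgm R m * TV a (rawT a R f q m T) := by
    have hmaps : ∀ m ∈ (mbox R B).filter
        (fun m => m x = 0 ∧ (∀ y ∈ uniR L1, m y = 0) ∧ ¬ Plat b.B q m),
        (fun y => if y ∈ b.B then m y else 0) ∈ (mbox b.B B).filter (fun m => ¬ Plat b.B q m) := by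
      intro m hm
      rw [Finset.mem_filter] at hm ⊢
      obtain ⟨hmb, _, _, hmp⟩ := hm
      refine ⟨?_, ?_⟩
      · unfold mbox at hmb ⊢
        rw [Fintype.mem_piFinset] at hmb ⊢
        intro y
        by_cases hy : y ∈ b.B
        · simp only [if_pos hy]
          have := hmb y
          rw [if_pos (hbR hy)] at this
          exact this
        · simp only [if_neg hy, Finset.mem_singleton]
      · intro hp
        apply hmp
        intro y hy
        have := hp y hy
        simp only [if_pos hy] at this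
        exact this
    rw [← Finset.sum_fiberwise_of_maps_to hmaps]
    refine Finset.sum_congr rfl fun m' hm' => ?_
    rw [Finset.mem_filter] at hm'
    obtain ⟨hmb', hmp'⟩ := hm'
    rw [hS]
    refine Finset.sum_congr ?_ fun _ _ => rfl
    ext m
    simp only [Finset.mem_filter]
    constructor
    · rintro ⟨h1, h2, h3, h4⟩
      refine ⟨⟨h1, h2, h3, ?_⟩, ?_⟩
      · intro hp
        apply hmp'
        intro y hy
        rw [← h4 y hy]
        exact hp y hy
      · funext y
        by_cases hy : y ∈ b.B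
        · rw [if_pos hy]
          exact h4 y hy
        · rw [if_neg hy]
          unfold mbox at hmb'
          rw [Fintype.mem_piFinset] at hmb'
          have := hmb' y
          rw [if_neg hy, Finset.mem_singleton] at this
          exact this.symm
    · rintro ⟨⟨h1, h2, h3, _⟩, h5⟩
      refine ⟨h1, h2, h3, ?_⟩
      intro y hy
      have := congrFun h5 y
      simp only [if_pos hy] at this
      exact this
  rw [hsum]
  refine Finset.sum_subset_zero_on_sdiff ?_ ?_ fun _ _ => rfl
  · intro m hm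
    rw [Finset.mem_filter] at hm ⊢
    obtain ⟨h1, h2, h3, h4⟩ := hm
    refine ⟨h1, h2, h3, ?_, ?_⟩
    · by_contra hcon
      push Not at hcon
      exact h4 fun y hy => Or.inl (hcon y hy)
    · intro hp
      exact h4 fun y hy => hp y (hbR hy)
  · intro m hm
    rw [Finset.mem_sdiff, Finset.mem_filter, Finset.mem_filter] at hm
    obtain ⟨⟨h1, h2, h3, ⟨y0, hy0, hy0m⟩, h5⟩, h6⟩ := hm
    have hp : Plat b.B q m := by
      by_contra hcon
      exact h6 ⟨h1, h2, h3, hcon⟩
    have h0 : TV a (rawT a R f q m T) = 0 := by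
      by_contra hcon
      have := raw_pos a hs R h.fin h.conn f hf q h.qok T hT m h5 hcon y0 (hbR hy0) hy0m
      rcases hp y0 hy0 with h7 | h7
      · exact hy0m h7
      · rw [h7] at this
        exact lt_irrefl _ this
    rw [h0, mul_zero]

end

end Pool.Agent.H27.KAC
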