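import Pool.Agent.H41.KA.AG9a
import Pool.Agent.H41.KA.AG9f

/-!
KAC ADE, module AG9c: the step property of the star family.

`star_chain`: induction on `L2` (generalising `L1`), `star_event`, `evU_perm`; for `L2 = []` the sum is empty because `m = 0` on `R`
is a plateau.
`star_stp`: `star_step0` plus `star_chain` with `L1 = []`; the remaining nonplateau `m` with `0 < m x ≤ q x` have value zero by
`raw_pos`.
-/

set_option autoImplicit false

namespace Pool.Agent.H27.KAC

open scoped BigOperators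

section

variable {I : Type} [Fintype I] [DecidableEq I]

private lemma AG9c_split {α : Type*} (s : Finset α) (p p1 p2 : α → Prop) [DecidablePred p]
    [DecidablePred p1] [DecidablePred p2] (g : α → ℚ)
    (h : ∀ m ∈ s, g m ≠ 0 → (p m ↔ p1 m ∨ p2 m)) (h' : ∀ m ∈ s, ¬ (p1 m ∧ p2 m)) :
    ∑ m ∈ s.filter p, g m = ∑ m ∈ s.filter p1, g m + ∑ m ∈ s.filter p2, g m := by
  rw [Finset.sum_filter, Finset.sum_filter, Finset.sum_filter, ← Finset.sum_add_distrib]
  refine Finset.sum_congr rfl fun m hm => ?_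
  by_cases hg : g m = 0
  · simp [hg]
  · have h1 := h m hm hg
    have h2 := h' m hm
    by_cases a1 : p1 m
    · by_cases a2 : p2 m
      · exact absurd ⟨a1, a2⟩ h2
      · rw [if_pos (h1.mpr (Or.inl a1)), if_pos a1, if_neg a2, add_zero]
    · by_cases a2 : p2 m
      · rw [if_pos (h1.mpr (Or.inr a2)), if_neg a1, if_pos a2, zero_add]
      · have : ¬ p m := fun hp => (h1.mp hp).elim a1 a2
        rw [if_neg this, if_neg a1, if_neg a2, add_zero]

private lemma AG9c_uniR_perm {L L' : List (RB I)} (hp : L.Perm L') : uniR L = uniR L' := by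
  ext x
  rw [mem_uniR, mem_uniR]
  constructor
  · rintro ⟨b, hb, hx⟩; exact ⟨b, hp.mem_iff.mp hb, hx⟩
  · rintro ⟨b, hb, hx⟩; exact ⟨b, hp.mem_iff.mpr hb, hx⟩

/-- permuting the blocks keeps the context. -/
theorem StarCtx.perm {a : I → I → ℕ} (hs : ∀ i j, a i j = a j i) {cd : CrossData a}
    {R : Finset I} {x : I} {q : I → ℚ} {K : ℕ} {u : ℕ → ℚ} {L L' : List (RB I)}
    (h : StarCtx a cd R x q K u L) (hp : L.Perm L') : StarCtx a cd R x q K u L' where
  fin := h.fin
  conn := h.conn
  qok := h.qok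
  hx := h.hx
  hz := h.hz
  aff := h.aff
  cov := by rw [← AG9c_uniR_perm hp]; exact h.cov
  sep := hp.pairwise h.sep (fun {_ _} hbc => Sep.symm hs hbc)
  bconn := fun b hb => h.bconn b (hp.mem_iff.mpr hb)
  resp := fun b hb => h.resp b (hp.mem_iff.mpr hb)

theorem stW_perm (u : ℕ → ℚ) {L L' : List (RB I)} (hp : L.Perm L') (f : ℕ) :
    stW u L f = stW u L' f := by
  unfold stW
  rw [(hp.map _).prod_eq]

private lemma AG9c_pw (a : I → I → ℕ) (x : I) (Φ : FFn I) (f1 f2 : ℕ) (L1 L2 : List (RB I))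
    (hsep : (L1 ++ L2).Pairwise (fun b c => Sep a b.B c.B)) (hx : x ∉ uniR (L1 ++ L2)) :
    ((({x}, Φ) : Finset I × FFn I) :: (atF L1 f1 ++ atF L2 f2)).Pairwise
      (fun b c => Disjoint b.1 c.1) := by
  have hx' : ∀ b ∈ L1 ++ L2, x ∉ b.B := fun b hb hxb => hx ((mem_uniR _ _).mpr ⟨b, hb, hxb⟩)
  rw [List.pairwise_append] at hsep
  obtain ⟨s1, s2, s12⟩ := hsep
  rw [List.pairwise_cons, List.pairwise_append]
  refine ⟨?_, ?_, ?_, ?_⟩
  · intro c hc
    rw [Finset.disjoint_singleton_left]
    rcases List.mem_append.mp hc with hc | hc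
    · obtain ⟨b, hb, rfl⟩ := List.mem_map.mp hc
      exact hx' b (List.mem_append.mpr (Or.inl hb))
    · obtain ⟨b, hb, rfl⟩ := List.mem_map.mp hc
      exact hx' b (List.mem_append.mpr (Or.inr hb))
  · unfold atF
    rw [List.pairwise_map]
    exact s1.imp (fun hbc => hbc.1)
  · unfold atF
    rw [List.pairwise_map]
    exact s2.imp (fun hbc => hbc.1)
  · intro b hb c hc
    obtain ⟨b', hb', rfl⟩ := List.mem_map.mp hb
    obtain ⟨c', hc', rfl⟩ := List.mem_map.mp hc
    exact (s12 b' hb' c' hc').1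

open Classical in
theorem star_chain (a : I → I → ℕ) (hs : ∀ i j, a i j = a j i) (cd : CrossData a) (R : Finset I)
    (x : I) (q : I → ℚ) (K : ℕ) (u : ℕ → ℚ) (f : ℕ) (hf : 1 ≤ f) (hfK : f ≤ K)
    (T : Trm I) (hT : RReg R T) (B : ℕ) (hB : bnd R f q T ≤ B) (L2 L1 : List (RB I))
    (h : StarCtx a cd R x q K u (L1 ++ L2)) :
    evU a (({x}, alU u (f - 1)) :: (atF L1 (f - 1) ++ atF L2 f)) T -
      evU a (({x}, alU u (f - 1)) :: atF (L1 ++ L2) (f - 1)) T =
      stW u (L1 ++ L2) f * ∑ m ∈ (mbox R B).filter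
        (fun m => m x = 0 ∧ (∀ y ∈ uniR L1, m y = 0) ∧ ¬ Plat R q m),
        sgm R m * TV a (rawT a R f q m T) := by
  induction L2 generalizing L1 with
  | nil =>
    have e : atF L1 (f - 1) ++ atF ([] : List (RB I)) f = atF (L1 ++ []) (f - 1) := by
      simp [atF]
    rw [e, sub_self]
    have hemp : (mbox R B).filter
        (fun m => m x = 0 ∧ (∀ y ∈ uniR L1, m y = 0) ∧ ¬ Plat R q m) = ∅ := by
      rw [Finset.filter_eq_empty_iff]
      rintro m - ⟨h0, h1, h2⟩
      apply h2
      intro y hy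
      left
      by_cases hyx : y = x
      · rw [hyx]; exact h0
      · apply h1
        have hc := h.cov
        rw [List.append_nil] at hc
        rw [hc]
        exact Finset.mem_erase.mpr ⟨hyx, hy⟩
    rw [hemp, Finset.sum_empty, mul_zero]
  | cons b L2 ih =>
    have hx : x ∉ uniR (L1 ++ b :: L2) := by rw [h.cov]; simp
    have hassoc : (L1 ++ [b]) ++ L2 = L1 ++ b :: L2 := by simp
    have h' : StarCtx a cd R x q K u ((L1 ++ [b]) ++ L2) := by rw [hassoc]; exact h
    have ih1 := ih (L1 ++ [b]) h'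
    rw [hassoc] at ih1
    have hperm : (L1 ++ b :: L2).Perm (b :: (L1 ++ L2)) := List.perm_middle
    have hctx : StarCtx a cd R x q K u (b :: (L1 ++ L2)) := h.perm hs hperm
    have hev := star_event a hs cd R x q K u L1 b L2 hctx f hf hfK T hT B hB
    rw [← stW_perm u hperm f] at hev
    -- the two permutations
    have p1 : evU a (({x}, alU u (f - 1)) :: (atF L1 (f - 1) ++ atF (b :: L2) f)) T =
        evU a ((b.B, b.Φ f) :: ({x}, alU u (f - 1)) :: (atF L1 (f - 1) ++ atF L2 f)) T := by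
      refine evU_perm a _ _ ?_ (AG9c_pw a x _ (f - 1) f L1 (b :: L2) h.sep hx) T
      have e1 : atF (b :: L2) f = (b.B, b.Φ f) :: atF L2 f := rfl
      rw [e1]
      exact (List.Perm.cons _ List.perm_middle).trans (List.Perm.swap _ _ _)
    have p2 : evU a (({x}, alU u (f - 1)) :: (atF (L1 ++ [b]) (f - 1) ++ atF L2 f)) T =
        evU a ((b.B, b.Φ (f - 1)) :: ({x}, alU u (f - 1)) ::
          (atF L1 (f - 1) ++ atF L2 f)) T := by
      refine evU_perm a _ _ ?_ (AG9c_pw a x _ (f - 1) f (L1 ++ [b]) L2 h'.sep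
        (by rw [hassoc]; exact hx)) T
      have e1 : atF (L1 ++ [b]) (f - 1) ++ atF L2 f =
          atF L1 (f - 1) ++ (b.B, b.Φ (f - 1)) :: atF L2 f := by
        simp [atF]
      rw [e1]
      exact (List.Perm.cons _ List.perm_middle).trans (List.Perm.swap _ _ _)
    have hsum := AG9c_split (mbox R B)
      (fun m => m x = 0 ∧ (∀ y ∈ uniR L1, m y = 0) ∧ ¬ Plat R q m)
      (fun m => m x = 0 ∧ (∀ y ∈ uniR L1, m y = 0) ∧ (∃ y ∈ b.B, m y ≠ 0) ∧ ¬ Plat R q m)
      (fun m => m x = 0 ∧ (∀ y ∈ uniR (L1 ++ [b]), m y = 0) ∧ ¬ Plat R q m)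
      (fun m => sgm R m * TV a (rawT a R f q m T))
      (by
        intro m _ _
        constructor
        · rintro ⟨h0, h1, h2⟩
          by_cases h3 : ∃ y ∈ b.B, m y ≠ 0
          · exact Or.inl ⟨h0, h1, h3, h2⟩
          · right
            push_neg at h3
            refine ⟨h0, ?_, h2⟩
            intro y hy
            obtain ⟨c, hc, hyc⟩ := (mem_uniR _ _).mp hy
            rcases List.mem_append.mp hc with hc | hc
            · exact h1 y ((mem_uniR _ _).mpr ⟨c, hc, hyc⟩)
            · rw [List.mem_singleton] at hc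
              rw [hc] at hyc
              exact h3 y hyc
        · rintro (⟨h0, h1, -, h2⟩ | ⟨h0, h1, h2⟩)
          · exact ⟨h0, h1, h2⟩
          · refine ⟨h0, ?_, h2⟩
            intro y hy
            obtain ⟨c, hc, hyc⟩ := (mem_uniR _ _).mp hy
            exact h1 y ((mem_uniR _ _).mpr ⟨c, List.mem_append.mpr (Or.inl hc), hyc⟩))
      (by
        rintro m - ⟨⟨-, -, ⟨y, hy, hy0⟩, -⟩, -, h1, -⟩
        exact hy0 (h1 y ((mem_uniR _ _).mpr ⟨b, by simp, hy⟩)))
    rw [hsum, mul_add, ← hev, ← ih1, p1, p2]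
    ring

theorem star_stp (a : I → I → ℕ) (hs : ∀ i j, a i j = a j i) (cd : CrossData a) (R : Finset I)
    (x : I) (q : I → ℚ) (K : ℕ) (u : ℕ → ℚ) (L : List (RB I)) (h : StarCtx a cd R x q K u L)
    (f : ℕ) (hf : 1 ≤ f) (hfK : f ≤ K) (T : Trm I) (hT : RReg R T) :
    evF a R (stF x u L f) T - evF a R (stF x u L (f - 1)) T = stW u L f * Rv a R f q T := by
  classical
  have hstep := star_step0 a hs cd R x q K u L h f hf hfK T hT (bnd R f q T) le_rfl
  have hch := star_chain a hs cd R x q K u f hf hfK T hT (bnd R f q T) le_rfl L [] h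
  simp only [List.nil_append] at hch
  have e0 : atF ([] : List (RB I)) (f - 1) = [] := rfl
  rw [e0, List.nil_append] at hch
  have hq0 : 0 ≤ q x := FinT.nonneg hs h.fin q (fun i hi => by
    obtain ⟨n, _, hn⟩ := h.qok i hi
    rw [hn]; positivity) x h.hx
  have hsum := AG9c_split (mbox R (bnd R f q T)) (fun m => ¬ Plat R q m)
    (fun m => q x < m x)
    (fun m => m x = 0 ∧ (∀ y ∈ uniR ([] : List (RB I)), m y = 0) ∧ ¬ Plat R q m)
    (fun m => sgm R m * TV a (rawT a R f q m T))
    (by
      intro m _ hg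
      have hTV : TV a (rawT a R f q m T) ≠ 0 := right_ne_zero_of_mul hg
      constructor
      · intro hp
        by_cases hm : m x = 0
        · right
          refine ⟨hm, ?_, hp⟩
          intro y hy
          simp [uniR] at hy
        · left
          exact raw_pos a hs R h.fin h.conn f hf q h.qok T hT m hp hTV x h.hx hm
      · rintro (h1 | ⟨-, -, h2⟩)
        · intro hp
          rcases hp x h.hx with h0 | h0
          · rw [h0] at h1
            push_cast at h1
            linarith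
          · rw [h0] at h1
            exact lt_irrefl _ h1
        · exact h2)
    (by
      rintro m - ⟨h1, h0, -⟩
      rw [h0] at h1
      push_cast at h1
      linarith)
  rw [evF_stF hs h f T, evF_stF hs h (f - 1) T]
  unfold Rv
  have key : evU a (({x}, alU u f) :: atF L f) T - evU a (({x}, alU u (f - 1)) :: atF L (f - 1)) T
      = (evU a (({x}, alU u f) :: atF L f) T - evU a (({x}, alU u (f - 1)) :: atF L f) T) +
        (evU a (({x}, alU u (f - 1)) :: atF L f) T -
          evU a (({x}, alU u (f - 1)) :: atF L (f - 1)) T) := by ring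
  rw [key, hstep, hch, ← mul_add]
  congr 1
  convert hsum.symm using 2

end

end Pool.Agent.H27.KAC
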