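import Pool.Agent.H41.KA.AG9

/-!
KAC ADE, module AG9d: the kink property of the star family.

`star_add_x`: for a term `T` with a kink at level `f` in `R` the insertion `η_{x,f}^{-q x}` can be added (`TV_rep` with `N = R`,
`v = - q x e_x`, sides `f + 1`): on `R` the exponents at level `f` are `T.E + C_R u`, `u = q` off `x`, `u x = 0`, so
`solN = u + C_R^{-1} T.E > 0`.

`star_knk`, case A, kink at `x` (`1 ≤ T.E (x,f)`): `evU_alU`; the part with column `(x,f)` vanishes by `TV_kill` (`V = ∅`, `z = x`), the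
part with column `(x,f+1)` is evaluated with `evU_conv` (`V = ∅`, `σz = f+1`), then `expl_merge` and `star_add_x`.
Case B, kink in the block `b`: `evU_perm` to bring `b` to the front, `evU_blk_head` (with the other blocks including `x`; prove the
needed variant: `x` has no insertion); `evU_alU`, the part with column `(x,f)` vanishes by `kink_kill`, the part with column
`(x,f+1)` is evaluated with `kink_conv`; then `expl_merge`, `star_add_x`.
-/

set_option autoImplicit false

namespace Pool.Agent.H27.KAC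

open scoped BigOperators

section

variable {I : Type} [Fintype I] [DecidableEq I]

theorem AG9d_zadd {p q : ℚ} (hp : IsZ p) (hq : IsZ q) : IsZ (p + q) := by
  obtain ⟨m, rfl⟩ := hp
  obtain ⟨n, rfl⟩ := hq
  exact ⟨m + n, by push_cast; ring⟩

theorem AG9d_zsub {p q : ℚ} (hp : IsZ p) (hq : IsZ q) : IsZ (p - q) := by
  obtain ⟨m, rfl⟩ := hp
  obtain ⟨n, rfl⟩ := hq
  exact ⟨m - n, by push_cast; ring⟩

theorem AG9d_zmul {p q : ℚ} (hp : IsZ p) (hq : IsZ q) : IsZ (p * q) := by
  obtain ⟨m, rfl⟩ := hp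
  obtain ⟨n, rfl⟩ := hq
  exact ⟨m * n, by push_cast; ring⟩

theorem AG9d_znat {q : ℚ} (hq : IsN q) : IsZ q := by
  obtain ⟨n, rfl⟩ := hq
  exact ⟨n, by push_cast; ring⟩

theorem AG9d_zcast (n : ℕ) : IsZ (n : ℚ) := ⟨n, by push_cast; ring⟩

theorem AG9d_zint (n : ℤ) : IsZ (n : ℚ) := ⟨n, rfl⟩

theorem AG9d_zsum {ι : Type} (s : Finset ι) (g : ι → ℚ) (h : ∀ i ∈ s, IsZ (g i)) :
    IsZ (∑ i ∈ s, g i) := by
  classical
  induction s using Finset.induction_on with
  | empty => exact ⟨0, by simp⟩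
  | insert i s hi ih =>
    rw [Finset.sum_insert hi]
    exact AG9d_zadd (h i (Finset.mem_insert_self i s))
      (ih fun j hj => h j (Finset.mem_insert_of_mem hj))

theorem AG9d_nneg {q : ℚ} (hq : IsN q) : 0 ≤ q := by
  obtain ⟨n, rfl⟩ := hq
  positivity

/-- the column of `x` is changed to a symbol of `x`. -/
theorem AG9d_reg {R : Finset I} {x : I} (l0 : ℕ) (T : Trm I) (hT : RReg R T) :
    RReg (R.erase x) (T.col x (sy x l0)) where
  nat y hy l hl := hT.nat y (Finset.mem_of_mem_erase hy) l hl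
  col y hy j hj l hl hne := by
    have hyx : y ≠ x := Finset.ne_of_mem_erase hy
    have hyR : y ∈ R := Finset.mem_of_mem_erase hy
    by_cases hjx : j = x
    · exfalso
      apply hne
      subst hjx
      show (Function.update T.Λ j (sy j l0) j) (y, l) = 0
      rw [Function.update_self]
      exact Finsupp.single_eq_of_ne (fun h => hyx (congrArg Prod.fst h))
    · have hjR : j ∉ R := fun h => hj (Finset.mem_erase.2 ⟨hjx, h⟩)
      refine hT.col y hyR j hjR l hl ?_
      intro h0
      apply hne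
      show (Function.update T.Λ x (sy x l0) j) (y, l) = 0
      rw [Function.update_of_ne hjx]
      exact h0

/-- the symbols of `x` in the columns after this change. -/
theorem AG9d_colx {R : Finset I} {x : I} (hx : x ∈ R) (l0 : ℕ) (T : Trm I) (hT : RReg R T) (j : I)
    (hj : j ∉ R.erase x) (l : ℕ) (hl : 1 ≤ l) (hne : (T.col x (sy x l0)).Λ j (x, l) ≠ 0) :
    l = l0 ∨ 1 ≤ (T.col x (sy x l0)).E (x, l) := by
  by_cases hjx : j = x
  · left
    subst hjx
    have hne' : (Function.update T.Λ j (sy j l0) j) (j, l) ≠ 0 := hne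
    rw [Function.update_self] at hne'
    by_contra hl0
    exact hne' (Finsupp.single_eq_of_ne fun h => hl0 (congrArg Prod.snd h))
  · right
    have hjR : j ∉ R := fun h => hj (Finset.mem_erase.2 ⟨hjx, h⟩)
    have hne' : (Function.update T.Λ x (sy x l0) j) (x, l) ≠ 0 := hne
    rw [Function.update_of_ne hjx] at hne'
    exact hT.col x hx j hjR l hl hne'

theorem AG9d_qnn {a : I → I → ℕ} (hs : ∀ i j, a i j = a j i) {R : Finset I} (hR : FinT a R)
    {q : I → ℚ} (hq : QOk a R q) : ∀ y ∈ R, 0 ≤ q y := by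
  refine hR.nonneg hs q fun i hi => ?_
  obtain ⟨n, _, hn⟩ := hq i hi
  rw [hn]
  positivity

theorem AG9d_sum (L : List (RB I)) (hd : L.Pairwise (fun b c => Disjoint b.B c.B)) (g : I → ℚ) :
    (L.map (fun b => ∑ y ∈ b.B, g y)).sum = ∑ y ∈ uniR L, g y := by
  induction L with
  | nil => rfl
  | cons b L ih =>
    rw [List.pairwise_cons] at hd
    rw [List.map_cons, List.sum_cons, ih hd.2]
    have hdis : Disjoint b.B (uniR L) := by
      rw [Finset.disjoint_left]
      intro y hy hy'
      obtain ⟨c, hc, hyc⟩ := (mem_uniR L y).1 hy'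
      exact Finset.disjoint_left.1 (hd.1 c hc) hy hyc
    show _ = ∑ y ∈ b.B ∪ uniR L, g y
    rw [Finset.sum_union hdis]

theorem AG9d_uniB (q : I → ℚ) (f : ℕ) (up : Bool) (L : List (RB I)) :
    uniB (L.map (RB.blk q f up)) = uniR L := by
  induction L with
  | nil => rfl
  | cons b L ih =>
    show b.B ∪ uniB (L.map (RB.blk q f up)) = b.B ∪ uniR L
    rw [ih]

theorem AG9d_map (q : I → ℚ) (f : ℕ) (L : List (RB I)) :
    (L.map (RB.blk q f false)).map (fun b => (b.B, b.Φ)) = atF L f := by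
  unfold atF
  rw [List.map_map]
  rfl

theorem AG9d_cf (q : I → ℚ) (f : ℕ) (L : List (RB I)) :
    ((L.map (RB.blk q f false)).map Blk.cf).prod = (L.map (fun b => b.w f)).prod := by
  rw [List.map_map]
  congr 1
  refine List.map_congr_left fun b _ => ?_
  show (if false = true then (-1 : ℚ) ^ b.B.card else 1) * b.w f = b.w f
  rw [if_neg (by decide), one_mul]

theorem star_add_x (a : I → I → ℕ) (hs : ∀ i j, a i j = a j i) (R : Finset I) (hR : FinT a R)
    (hc : ConnS a R) (q : I → ℚ) (hq : QOk a R q) (x : I) (hx : x ∈ R) (hz : IsZ (q x)) (f : ℕ)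
    (hf : 1 ≤ f) (T : Trm I) (hT : RReg R T) (hk : Kink R f T) :
    TV a (blkT a (R.erase x) f (f + 1) q (T.col x (sy x (f + 1)))) = TV a (tauT a R f q T) := by
  obtain ⟨n, hn⟩ := hz
  set X := blkT a (R.erase x) f (f + 1) q (T.col x (sy x (f + 1))) with hX
  have hqn := AG9d_qnn hs hR hq
  have hE : ∀ y l, X.E (y, l) = T.E (y, l) +
      if l = f then ∑ x' ∈ R.erase x, q x' * (cart a x' y : ℚ) else 0 := by
    intro y l
    rw [hX, blkT_E]
    rfl
  have hcs : ∀ i j, cart a i j = cart a j i := by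
    intro i j
    unfold cart
    rw [hs i j]
    by_cases h : i = j
    · subst h; rfl
    · rw [if_neg h, if_neg (Ne.symm h)]
  set w : I → ℚ := fun y => if y = x then 0 else q y with hw
  have hEf : ∀ y, X.E (y, f) = T.E (y, f) + cqN a R w y := by
    intro y
    rw [hE, if_pos rfl]
    congr 1
    unfold cqN
    rw [← Finset.add_sum_erase R _ hx]
    have h0 : (cart a y x : ℚ) * w x = 0 := by
      show (cart a y x : ℚ) * (if x = x then 0 else q x) = 0
      rw [if_pos rfl, mul_zero]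
    rw [h0, zero_add]
    refine Finset.sum_congr rfl fun x' hx' => ?_
    show q x' * (cart a x' y : ℚ) = (cart a y x' : ℚ) * (if x' = x then 0 else q x')
    rw [if_neg (Finset.ne_of_mem_erase hx'), hcs x' y, mul_comm]
  have hint : ∀ y ∈ R, IsZ (X.E (y, f)) := by
    intro y hy
    rw [hE, if_pos rfl]
    refine AG9d_zadd (AG9d_znat (hT.nat y hy f hf)) ?_
    obtain ⟨m, _, hm⟩ := hq y hy
    have e : ∑ x' ∈ R.erase x, q x' * (cart a x' y : ℚ) = (m : ℚ) - (cart a y x : ℚ) * q x := by
      rw [← hm]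
      unfold cqN
      rw [← Finset.add_sum_erase R _ hx]
      have e2 : ∑ x' ∈ R.erase x, q x' * (cart a x' y : ℚ) =
          ∑ x' ∈ R.erase x, (cart a y x' : ℚ) * q x' :=
        Finset.sum_congr rfl fun x' _ => by rw [hcs x' y, mul_comm]
      rw [e2]
      ring
    rw [e, hn]
    exact AG9d_zsub (AG9d_zcast m) (AG9d_zmul (AG9d_zint _) (AG9d_zint _))
  have hreg : ∀ y ∈ R, FReg X y f (f + 1) := by
    intro y hy
    refine ⟨?_, hint y hy, ?_⟩
    · intro l hl hlf
      rw [hE, if_neg hlf, add_zero]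
      exact hT.nat y hy l hl
    · intro j l hl hne
      have hne' : (if j ∈ R.erase x then sy j (f + 1) else
          Function.update T.Λ x (sy x (f + 1)) j) (y, l) ≠ 0 := hne
      by_cases hj : j ∈ R
      · left
        have hc' : (if j ∈ R.erase x then sy j (f + 1) else
            Function.update T.Λ x (sy x (f + 1)) j) = sy j (f + 1) := by
          by_cases hjx : j = x
          · subst hjx
            rw [if_neg (Finset.notMem_erase j R), Function.update_self]
          · rw [if_pos (Finset.mem_erase.2 ⟨hjx, hj⟩)]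
        rw [hc'] at hne'
        by_contra hl0
        exact hne' (Finsupp.single_eq_of_ne fun h => hl0 (congrArg Prod.snd h))
      · have hjx : j ≠ x := fun h => hj (h ▸ hx)
        rw [if_neg (fun h => hj (Finset.mem_of_mem_erase h)), Function.update_of_ne hjx] at hne'
        by_cases hlf : l = f
        · exact Or.inr (Or.inl hlf)
        · right
          right
          rw [hE, if_neg hlf, add_zero]
          exact hT.col y hy j hj l hl hne'
  have hsol : ∀ y ∈ R, solN a R (fun i => X.E (i, f)) y =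
      solN a R (fun i => T.E (i, f)) y + w y := by
    intro y hy
    have e : solN a R (fun i => X.E (i, f)) = solN a R (fun i => T.E (i, f) + cqN a R w i) :=
      solN_congr hs hR _ _ fun i _ => hEf i
    rw [e, solN_add hs hR, solN_cqN hs hR w y hy]
  have hpos : ∀ y ∈ R, 0 < solN a R (fun i => T.E (i, f)) y := by
    refine solN_pos hs hR hc _ (fun i hi => AG9d_nneg (hT.nat i hi f hf)) ?_
    obtain ⟨y, hy, hy1⟩ := hk
    exact ⟨y, hy, fun h0 => by rw [h0] at hy1; norm_num at hy1⟩
  have hwn : ∀ y ∈ R, 0 ≤ w y := by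
    intro y hy
    show 0 ≤ if y = x then 0 else q y
    split_ifs
    · exact le_rfl
    · exact hqn y hy
  have hrep := TV_rep a hs R hR (fun _ => f) (fun _ => f + 1) (fun _ _ => hf)
    (fun _ _ _ _ _ => rfl) (fun _ _ => Or.inl rfl) X hreg
    (fun y hy => by rw [hsol y hy]; exact add_pos_of_pos_of_nonneg (hpos y hy) (hwn y hy))
    (fun i => if i = x then -n else 0)
    (fun i hi => if_neg fun h : i = x => hi (h ▸ hx))
    (fun y hy => by
      rw [hsol y hy]
      have h1 := add_pos_of_pos_of_nonneg (hpos y hy) (hwn y hy)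
      have h2 : (((if y = x then -n else 0 : ℤ)) : ℚ) ≤ 0 := by
        split_ifs
        · push_cast
          rw [← hn]
          exact neg_nonpos.2 (hqn x hx)
        · simp
      exact lt_of_le_of_lt h2 h1)
  rw [hrep]
  congr 1
  apply Trm.ext
  · funext i
    show T.γ i - (f : ℚ) * -resQ (R.erase x) q i - (f : ℚ) * (((if i = x then -n else 0 : ℤ)) : ℚ) =
      T.γ i - (f : ℚ) * -resQ R q i
    unfold resQ
    by_cases hix : i = x
    · subst hix
      rw [if_neg (Finset.notMem_erase i R), if_pos hx, if_pos rfl, hn]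
      push_cast
      ring
    · rw [if_neg hix]
      by_cases hiR : i ∈ R
      · rw [if_pos (Finset.mem_erase.2 ⟨hix, hiR⟩), if_pos hiR]
        push_cast
        ring
      · rw [if_neg (fun h => hiR (Finset.mem_of_mem_erase h)), if_neg hiR]
        push_cast
        ring
  · show (T.E - ∑ y, (-resQ (R.erase x) q y) • cE a y f) -
        ∑ y, (((if y = x then -n else 0 : ℤ)) : ℚ) • cE a y f =
      T.E - ∑ y, (-resQ R q y) • cE a y f
    rw [sub_sub, ← Finset.sum_add_distrib]
    congr 1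
    refine Finset.sum_congr rfl fun y _ => ?_
    rw [← add_smul]
    congr 1
    unfold resQ
    by_cases hix : y = x
    · subst hix
      rw [if_neg (Finset.notMem_erase y R), if_pos hx, if_pos rfl, hn]
      push_cast
      ring
    · rw [if_neg hix]
      by_cases hiR : y ∈ R
      · rw [if_pos (Finset.mem_erase.2 ⟨hix, hiR⟩), if_pos hiR]
        push_cast
        ring
      · rw [if_neg (fun h => hiR (Finset.mem_of_mem_erase h)), if_neg hiR]
        push_cast
        ring
  · funext j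
    show (if j ∈ R.erase x then sy j (f + 1) else Function.update T.Λ x (sy x (f + 1)) j) =
      if j ∈ R then sy j (f + 1) else T.Λ j
    by_cases hjx : j = x
    · subst hjx
      rw [if_neg (Finset.notMem_erase j R), Function.update_self, if_pos hx]
    · rw [Function.update_of_ne hjx]
      by_cases hjR : j ∈ R
      · rw [if_pos (Finset.mem_erase.2 ⟨hjx, hjR⟩), if_pos hjR]
      · rw [if_neg (fun h => hjR (Finset.mem_of_mem_erase h)), if_neg hjR]

/-- integrality for the outer vertex. -/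
theorem AG9d_hI {a : I → I → ℕ} {R : Finset I} {x : I} {q : I → ℚ} (A U : Finset I)
    (hAU : Disjoint A U) (hc : A ∪ U = R.erase x)
    (hsum : IsZ (∑ y ∈ R.erase x, (a x y : ℚ) * q y)) (p : I → ℚ)
    (hp : ∀ y ∈ U, IsZ (p y - q y)) :
    IsZ (∑ y ∈ A, (a x y : ℚ) * q y + ∑ y ∈ U, (a x y : ℚ) * p y) := by
  have e : ∑ y ∈ A, (a x y : ℚ) * q y + ∑ y ∈ U, (a x y : ℚ) * p y =
      ∑ y ∈ R.erase x, (a x y : ℚ) * q y + ∑ y ∈ U, (a x y : ℚ) * (p y - q y) := by
    rw [← hc, Finset.sum_union hAU, add_assoc, ← Finset.sum_add_distrib]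
    congr 1
    exact Finset.sum_congr rfl fun y _ => by ring
  rw [e]
  exact AG9d_zadd hsum (AG9d_zsum _ _ fun y hy => AG9d_zmul (AG9d_zcast _) (hp y hy))

/-- the patterns of a product of blocks of the context. -/
theorem AG9d_win {a : I → I → ℕ} (hs : ∀ i j, a i j = a j i) {cd : CrossData a} {q : I → ℚ}
    {K : ℕ} (L : List (RB I)) (hd : L.Pairwise (fun b c => Sep a b.B c.B))
    (hr : ∀ b ∈ L, Resp a cd b.B q K b.w b.Φ) (f : ℕ) (hfK : f ≤ K) (c : ℚ × Pat I)
    (hc : c ∈ prodF (atF L f)) : WinPat a cd (uniR L) q f c.2 := by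
  rw [← uni_atF L f]
  refine WinPat_prodF a hs cd f q (atF L f) ?_ ?_ c hc
  · unfold atF
    rw [List.pairwise_map]
    exact hd
  · intro b hb c hc
    unfold atF at hb
    rw [List.mem_map] at hb
    obtain ⟨b', hb', rfl⟩ := hb
    exact (hr b' hb').win f hfK c hc

theorem AG9d_disj {a : I → I → ℕ} (L : List (RB I)) (hd : L.Pairwise (fun b c => Sep a b.B c.B))
    (f : ℕ) : (atF L f).Pairwise (fun b c => Disjoint b.1 c.1) := by
  unfold atF
  rw [List.pairwise_map]
  exact hd.imp fun h => h.1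

/-- a joint value vanishes if it vanishes for all patterns. -/
theorem AG9d_zero (a : I → I → ℕ) (L : List (RB I))
    (hd : L.Pairwise (fun b c => Sep a b.B c.B)) (f : ℕ) (T : Trm I)
    (h : ∀ c ∈ prodF (atF L f), TV a (patT a (uniR L) c.2 T) = 0) : evU a (atF L f) T = 0 := by
  rw [evU_eq_evF a (atF L f) (AG9d_disj L hd f) T, uni_atF]
  unfold evF
  refine List.sum_eq_zero ?_
  intro y hy
  rw [List.mem_map] at hy
  obtain ⟨c, hc, rfl⟩ := hy
  rw [h c hc, mul_zero]

theorem AG9d_blk {a : I → I → ℕ} (hs : ∀ i j, a i j = a j i) {cd : CrossData a}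
    {R : Finset I} {x : I} {q : I → ℚ} {K : ℕ} {u : ℕ → ℚ} {L : List (RB I)}
    (h : StarCtx a cd R x q K u L) (f : ℕ) (hf : 1 ≤ f) (hfK : f ≤ K) (L' : List (RB I))
    (hL' : ∀ b ∈ L', b ∈ L) : ∀ b ∈ L'.map (RB.blk q f false), BlkOk a cd f b := by
  intro b hb
  obtain ⟨b', hb', rfl⟩ := List.mem_map.1 hb
  obtain ⟨_, _, h3, h4, _⟩ := h.block hs b' (hL' b' hb')
  exact RB_blkOk a hs cd q K f hf hfK false b' h3 (h.bconn b' (hL' b' hb')) h4
    (h.resp b' (hL' b' hb'))

theorem AG9d_blksep {a : I → I → ℕ} (q : I → ℚ) (f : ℕ) (L : List (RB I))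
    (hd : L.Pairwise (fun b c => Sep a b.B c.B)) :
    (L.map (RB.blk q f false)).Pairwise (fun b c => Sep a b.B c.B) := by
  rw [List.pairwise_map]
  exact hd

theorem AG9d_blkadj {a : I → I → ℕ} (hs : ∀ i j, a i j = a j i) {cd : CrossData a}
    {R : Finset I} {x : I} {q : I → ℚ} {K : ℕ} {u : ℕ → ℚ} {L : List (RB I)}
    (h : StarCtx a cd R x q K u L) (f : ℕ) (L' : List (RB I))
    (hL' : ∀ b ∈ L', b ∈ L) : ∀ b ∈ L'.map (RB.blk q f false), ∃ y ∈ b.B, 0 < a x y := by
  intro b hb
  obtain ⟨b', hb', rfl⟩ := List.mem_map.1 hb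
  exact (h.block hs b' (hL' b' hb')).2.2.2.2

theorem AG9d_blksum (a : I → I → ℕ) (q : I → ℚ) (f : ℕ) (x : I) (L : List (RB I))
    (hd : L.Pairwise (fun b c => Sep a b.B c.B)) :
    ((L.map (RB.blk q f false)).map (fun b => ∑ y ∈ b.B, (a x y : ℚ) * b.q y)).sum =
      ∑ y ∈ uniR L, (a x y : ℚ) * q y := by
  rw [← AG9d_sum L (hd.imp fun h => h.1) (fun y => (a x y : ℚ) * q y), List.map_map]
  rfl

theorem AG9d_merge (a : I → I → ℕ) (q : I → ℚ) (f : ℕ) (L : List (RB I))
    (hd : L.Pairwise (fun b c => Sep a b.B c.B)) (T : Trm I) :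
    expl a f (L.map (RB.blk q f false)) T = blkT a (uniR L) f (f + 1) q T := by
  have h := expl_merge a f (L.map (RB.blk q f false)) q false
    ((AG9d_blksep q f L hd).imp fun h => h.1)
    (fun b hb y _ => by obtain ⟨b', _, rfl⟩ := List.mem_map.1 hb; rfl)
    (fun b hb => by obtain ⟨b', _, rfl⟩ := List.mem_map.1 hb; rfl) T
  rw [h, AG9d_uniB]
  rfl

/-- kink at the chain vertex. -/
theorem AG9d_caseA (a : I → I → ℕ) (hs : ∀ i j, a i j = a j i) (cd : CrossData a) (R : Finset I)
    (x : I) (q : I → ℚ) (K : ℕ) (u : ℕ → ℚ) (L : List (RB I)) (h : StarCtx a cd R x q K u L)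
    (f : ℕ) (hf : 1 ≤ f) (hfK : f ≤ K) (T : Trm I) (hT : RReg R T) (hkx : 1 ≤ T.E (x, f)) :
    evU a (({x}, alU u f) :: atF L f) T = stW u L f * TV a (tauT a R f q T) := by
  have hxR : x ∈ R := h.hx
  have hRe : uniR L = R.erase x := h.cov
  have hxe : x ∉ R.erase x := Finset.notMem_erase x R
  have hfe : FinT a (R.erase x) := h.fin.mono (Finset.erase_subset x R)
  have hxx : a x x = 0 := h.fin.loopfree x hxR
  have hsum := h.sum_int hs
  have hxu : x ∉ uni (atF L f) := by
    rw [uni_atF, hRe]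
    exact hxe
  have hsep0 : ∀ A : Finset I, Sep a A ∅ := fun A =>
    ⟨Finset.disjoint_empty_right A, fun _ _ y hy => absurd hy (Finset.notMem_empty y)⟩
  have hcolE : ∀ l0 l, (T.col x (sy x l0)).E (x, l) = T.E (x, l) := fun _ _ => rfl
  rw [evU_alU a u f x (atF L f) hxu T]
  have hz0 : evU a (atF L f) (T.col x (sy x f)) = 0 := by
    refine AG9d_zero a L h.sep f _ fun c hc => ?_
    have hw := AG9d_win hs L h.sep h.resp f hfK c hc
    rw [hRe] at hw ⊢
    have hI := AG9d_hI (a := a) (R := R) (x := x) (q := q) ∅ (R.erase x)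
      (Finset.disjoint_empty_left _) (Finset.empty_union _) hsum c.2.q hw.cls
    rw [Finset.sum_empty, zero_add] at hI
    refine TV_kill a hs cd f hf (R.erase x) ∅ hfe (FinT.empty a) (hsep0 _) c.2 hw.wide
      (fun _ => f + 1) (fun v hv => absurd hv (Finset.notMem_empty v)) (T.col x (sy x f))
      (AG9d_reg f T hT) (fun v hv => absurd hv (Finset.notMem_empty v)) x hxe
      (Finset.notMem_empty x) hxx (fun l hl _ _ => hT.nat x hxR l hl)
      (AG9d_nneg (hT.nat x hxR (f + 1) (by omega))) ?_ ?_ ?_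
    · exact AG9d_zsub (AG9d_zadd (AG9d_znat (hT.nat x hxR f hf))
        (AG9d_znat (hT.nat x hxR (f + 1) (by omega)))) hI
    · intro j hj l hl hne
      rcases AG9d_colx hxR f T hT j hj l hl hne with h1 | h1
      · exact Or.inl h1
      · exact Or.inr (lt_of_lt_of_le one_pos h1)
    · rw [Finset.sum_empty, add_zero, hcolE]
      exact lt_of_lt_of_le one_pos hkx
  rw [hz0, mul_zero, sub_zero]
  have hconv := evU_conv a hs cd f hf (L.map (RB.blk q f false))
    (AG9d_blk hs h f hf hfK L fun b hb => hb) (AG9d_blksep q f L h.sep) ∅ (FinT.empty a)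
    (hsep0 _) x (by rw [AG9d_uniB, hRe]; exact hxe) (Finset.notMem_empty x) hxx
    (AG9d_blkadj hs h f L fun b hb => hb) (T.col x (sy x (f + 1)))
    (by rw [AG9d_uniB, hRe]; exact AG9d_reg (f + 1) T hT) (fun _ => f + 1)
    (fun v hv => absurd hv (Finset.notMem_empty v))
    (fun v hv => absurd hv (Finset.notMem_empty v)) (f + 1) (Or.inl rfl)
    (fun l hl _ => hT.nat x hxR l hl)
    (by
      rw [AG9d_blksum a q f x L h.sep, hRe]
      exact AG9d_zsub (AG9d_znat (hT.nat x hxR f hf)) hsum)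
    (by
      intro j hj l hl hne
      rw [AG9d_uniB, hRe] at hj
      rcases AG9d_colx hxR (f + 1) T hT j hj l hl hne with h1 | h1
      · exact Or.inr (Or.inl h1)
      · exact Or.inr (Or.inr (lt_of_lt_of_le one_pos h1)))
    (by
      rw [Finset.sum_empty, add_zero, hcolE]
      exact lt_of_lt_of_le one_pos hkx)
  rw [AG9d_map, AG9d_cf, AG9d_merge a q f L h.sep, hRe] at hconv
  rw [hconv, star_add_x a hs R h.fin h.conn q h.qok x hxR h.hz f hf T hT ⟨x, hxR, hkx⟩]
  unfold stW
  ring

/-- evaluation of a kinked block in front of the chain vertex. -/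
theorem AG9d_head (a : I → I → ℕ) (hs : ∀ i j, a i j = a j i) (cd : CrossData a) (q : I → ℚ)
    (K : ℕ) (b : RB I) (hb : Resp a cd b.B q K b.w b.Φ) (f : ℕ) (hf : 1 ≤ f) (hfK : f ≤ K)
    (U : List (Finset I × FFn I)) (hdb : ∀ c ∈ U, Disjoint b.B c.1)
    (hd : U.Pairwise (fun b c => Disjoint b.1 c.1))
    (hins : ∀ c ∈ prodF U, ∀ x ∈ b.B, ∀ y ∈ uni U, c.2.q y ≠ 0 → a x y = 0)
    (T : Trm I) (hT : RReg (b.B ∪ uni U) T) (hk : Kink b.B f T) :
    evU a ((b.B, b.Φ f) :: U) T = b.w f * evU a U (blkT a b.B f (f + 1) q T) := by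
  have hdU : Disjoint b.B (uni U) := by
    rw [Finset.disjoint_left]
    intro y hy hy'
    obtain ⟨c, hc, hyc⟩ := (mem_uni U y).1 hy'
    exact Finset.disjoint_left.1 (hdb c hc) hy hyc
  rw [evU_cons' a (b.B, b.Φ f) U hdb hd T, evU_eq_evF a U hd]
  unfold evF
  rw [← List.sum_map_mul_left]
  congr 1
  refine List.map_congr_left fun c hc => ?_
  have hreg : RReg b.B (patT a (uni U) c.2 T) :=
    RReg_patT a hs b.B (uni U) hdU c.2 (hins c hc) T hT
  have hkink : Kink b.B f (patT a (uni U) c.2 T) := by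
    obtain ⟨y, hy, hy1⟩ := hk
    refine ⟨y, hy, ?_⟩
    rw [patT_E]
    have h0 : ∑ x ∈ (uni U).filter (fun x => c.2.s x = f), c.2.q x * (cart a x y : ℚ) = 0 := by
      refine Finset.sum_eq_zero fun x hx => ?_
      have hxU : x ∈ uni U := (Finset.mem_filter.1 hx).1
      by_cases hq0 : c.2.q x = 0
      · rw [hq0, zero_mul]
      · have hne : x ≠ y := fun h => Finset.disjoint_left.1 hdU hy (h ▸ hxU)
        have hayx := hins c hc y hy x hxU hq0
        have hcart : cart a x y = 0 := by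
          unfold cart
          rw [if_neg hne, hs x y, hayx]
          rfl
        rw [hcart]
        simp
    rw [h0, add_zero]
    exact hy1
  have hknk := hb.knk f hf hfK _ hreg hkink
  show c.1 * evF a b.B (b.Φ f) (patT a (uni U) c.2 T) =
    b.w f * (c.1 * TV a (patT a (uni U) c.2 (blkT a b.B f (f + 1) q T)))
  rw [hknk]
  show c.1 * (b.w f * TV a (blkT a b.B f (f + 1) q (patT a (uni U) c.2 T))) = _
  rw [blkT_patT_comm a b.B (uni U) hdU f (f + 1) q c.2 T]
  ring

/-- kink in a block. -/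
theorem AG9d_caseB (a : I → I → ℕ) (hs : ∀ i j, a i j = a j i) (cd : CrossData a) (R : Finset I)
    (x : I) (q : I → ℚ) (K : ℕ) (u : ℕ → ℚ) (L : List (RB I)) (h : StarCtx a cd R x q K u L)
    (f : ℕ) (hf : 1 ≤ f) (hfK : f ≤ K) (T : Trm I) (hT : RReg R T) (b : RB I) (hb : b ∈ L)
    (hk : Kink b.B f T) :
    evU a (({x}, alU u f) :: atF L f) T = stW u L f * TV a (tauT a R f q T) := by
  obtain ⟨L1, L2, rfl⟩ := List.append_of_mem hb
  have hperm : (L1 ++ b :: L2).Perm (b :: (L1 ++ L2)) := List.perm_middle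
  set L' := L1 ++ L2 with hL'
  have hsub : ∀ c ∈ L', c ∈ L1 ++ b :: L2 := by
    intro c hc
    exact hperm.mem_iff.2 (List.mem_cons_of_mem b hc)
  have hsepp : (b :: L').Pairwise (fun b c => Sep a b.B c.B) :=
    (hperm.pairwise_iff (fun {c d} hcd => hcd.symm hs)).1 h.sep
  rw [List.pairwise_cons] at hsepp
  obtain ⟨hsb, hsL⟩ := hsepp
  have hxR : x ∈ R := h.hx
  have hxe : x ∉ R.erase x := Finset.notMem_erase x R
  have hxx : a x x = 0 := h.fin.loopfree x hxR
  have hsum := h.sum_int hs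
  have hcov : b.B ∪ uniR L' = R.erase x := by
    rw [← h.cov]
    ext y
    rw [Finset.mem_union, mem_uniR, mem_uniR]
    constructor
    · rintro (hy | ⟨c, hc, hy⟩)
      · exact ⟨b, hb, hy⟩
      · exact ⟨c, hsub c hc, hy⟩
    · rintro ⟨c, hc, hy⟩
      rcases List.mem_cons.1 (hperm.mem_iff.1 hc) with h1 | h1
      · exact Or.inl (h1 ▸ hy)
      · exact Or.inr ⟨c, h1, hy⟩
  have hbU : Sep a b.B (uniR L') := by
    refine ⟨?_, ?_⟩
    · rw [Finset.disjoint_left]
      intro y hy hy'
      obtain ⟨c, hc, hyc⟩ := (mem_uniR L' y).1 hy'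
      exact Finset.disjoint_left.1 (hsb c hc).1 hy hyc
    · intro y hy z hz
      obtain ⟨c, hc, hzc⟩ := (mem_uniR L' z).1 hz
      exact (hsb c hc).2 y hy z hzc
  obtain ⟨hbR, hxb, hbfin, hbq, hbadj⟩ := h.block hs b hb
  have hxL' : x ∉ uniR L' := fun hx' => hxe (hcov ▸ Finset.mem_union_right _ hx')
  have hUfin : FinT a (uniR L') := by
    refine h.fin.mono fun y hy => ?_
    have : y ∈ R.erase x := hcov ▸ Finset.mem_union_right _ hy
    exact Finset.mem_of_mem_erase this
  have hresp' : ∀ c ∈ L', Resp a cd c.B q K c.w c.Φ := fun c hc => h.resp c (hsub c hc)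
  -- bring the block to the front
  have hdis0 : (({x}, alU u f) :: atF (L1 ++ b :: L2) f).Pairwise
      (fun b c => Disjoint b.1 c.1) := by
    rw [List.pairwise_cons]
    refine ⟨?_, AG9d_disj _ h.sep f⟩
    intro c hc
    unfold atF at hc
    obtain ⟨c', hc', rfl⟩ := List.mem_map.1 hc
    rw [Finset.disjoint_singleton_left]
    exact (h.block hs c' hc').2.1
  have hpermU : (({x}, alU u f) :: atF (L1 ++ b :: L2) f).Perm
      ((b.B, b.Φ f) :: ({x}, alU u f) :: atF L' f) := by
    have h1 : (atF (L1 ++ b :: L2) f).Perm ((b.B, b.Φ f) :: atF L' f) := by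
      unfold atF
      exact hperm.map _
    exact (h1.cons _).trans (List.Perm.swap _ _ _)
  rw [evU_perm a _ _ hpermU hdis0 T]
  have hdis1 : (({x}, alU u f) :: atF L' f).Pairwise (fun b c => Disjoint b.1 c.1) := by
    rw [List.pairwise_cons]
    refine ⟨?_, AG9d_disj _ hsL f⟩
    intro c hc
    unfold atF at hc
    obtain ⟨c', hc', rfl⟩ := List.mem_map.1 hc
    rw [Finset.disjoint_singleton_left]
    exact (h.block hs c' (hsub c' hc')).2.1
  have huni : uni (({x}, alU u f) :: atF L' f) = {x} ∪ uniR L' := by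
    show {x} ∪ uni (atF L' f) = {x} ∪ uniR L'
    rw [uni_atF]
  have hR' : b.B ∪ ({x} ∪ uniR L') = R := by
    have e : b.B ∪ ({x} ∪ uniR L') = {x} ∪ (b.B ∪ uniR L') := by
      rw [← Finset.union_assoc, Finset.union_comm b.B {x}, Finset.union_assoc]
    rw [e, hcov, ← Finset.insert_eq, Finset.insert_erase hxR]
  rw [AG9d_head a hs cd q K b (h.resp b hb) f hf hfK (({x}, alU u f) :: atF L' f) ?_ hdis1 ?_ T
    (by rw [huni, hR']; exact hT) hk]
  rotate_left
  · intro c hc
    rcases List.mem_cons.1 hc with h1 | h1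
    · rw [h1]
      show Disjoint b.B {x}
      rw [Finset.disjoint_singleton_right]
      exact hxb
    · unfold atF at h1
      obtain ⟨c', hc', rfl⟩ := List.mem_map.1 h1
      exact (hsb c' hc').1
  · intro c hc y hy z hz hzq
    rw [huni, Finset.mem_union, Finset.mem_singleton] at hz
    rcases hz with hz | hz
    · exfalso
      apply hzq
      obtain ⟨d, hd, hdx⟩ := prodF_mem _ hdis1 c hc ({x}, alU u f) List.mem_cons_self
      rw [hz, (hdx x (Finset.mem_singleton_self x)).2]
      unfold alU at hd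
      split_ifs at hd with h0
      · rw [List.mem_singleton] at hd
        rw [hd]
      · rw [List.mem_cons, List.mem_singleton] at hd
        rcases hd with hd | hd <;> rw [hd]
    · exact hbU.2 y hy z hz
  have hxu : x ∉ uni (atF L' f) := by
    rw [uni_atF]
    exact hxL'
  rw [evU_alU a u f x (atF L' f) hxu, ← blkT_col_comm a b.B f (f + 1) q x hxb,
    ← blkT_col_comm a b.B f (f + 1) q x hxb]
  have hkT : ∀ l0, Kink b.B f (T.col x (sy x l0)) := fun l0 => hk
  have hz0 : evU a (atF L' f) (blkT a b.B f (f + 1) q (T.col x (sy x f))) = 0 := by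
    refine AG9d_zero a L' hsL f _ fun c hc => ?_
    have hw := AG9d_win hs L' hsL hresp' f hfK c hc
    refine kink_kill a hs cd f hf b.B hbfin (h.bconn b hb) (f + 1) (Or.inl rfl) q hbq (uniR L')
      hUfin hbU c.2 hw.wide (T.col x (sy x f)) (by rw [hcov]; exact AG9d_reg f T hT) (hkT f) x
      hxb hxL' hxx hbadj (fun l hl => hT.nat x hxR l hl)
      (AG9d_hI b.B (uniR L') hbU.1 hcov hsum c.2.q hw.cls) ?_
    intro j hj1 hj2 l hl hne
    refine AG9d_colx hxR f T hT j ?_ l hl hne
    rw [← hcov, Finset.mem_union]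
    exact fun h => h.elim hj1 hj2
  rw [hz0, mul_zero, sub_zero]
  have hconv := kink_conv a hs cd f hf b.B hbfin (h.bconn b hb) (f + 1) (Or.inl rfl) q hbq
    (L'.map (RB.blk q f false)) (AG9d_blk hs h f hf hfK L' hsub) (AG9d_blksep q f L' hsL)
    (by rw [AG9d_uniB]; exact hbU) (T.col x (sy x (f + 1)))
    (by rw [AG9d_uniB, hcov]; exact AG9d_reg (f + 1) T hT) (hkT (f + 1)) x hxb
    (by rw [AG9d_uniB]; exact hxL') hxx hbadj (AG9d_blkadj hs h f L' hsub) (f + 1) (Or.inl rfl)
    (fun l hl => hT.nat x hxR l hl)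
    (by
      rw [AG9d_blksum a q f x L' hsL]
      exact AG9d_hI b.B (uniR L') hbU.1 hcov hsum q fun y _ => by
        rw [sub_self]
        exact ⟨0, by simp⟩)
    (by
      intro j hj1 hj2 l hl hne
      rw [AG9d_uniB] at hj2
      rcases AG9d_colx hxR (f + 1) T hT j (by
        rw [← hcov, Finset.mem_union]
        exact fun h => h.elim hj1 hj2) l hl hne with h1 | h1
      · exact Or.inr (Or.inl h1)
      · exact Or.inr (Or.inr h1))
  rw [AG9d_map, AG9d_cf, AG9d_merge a q f L' hsL,
    ← blkT_union a (uniR L') b.B hbU.1.symm f (f + 1) q, Finset.union_comm (uniR L') b.B,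
    hcov] at hconv
  have hkR : Kink R f T := by
    obtain ⟨y, hy, hy1⟩ := hk
    exact ⟨y, hbR hy, hy1⟩
  rw [hconv, star_add_x a hs R h.fin h.conn q h.qok x hxR h.hz f hf T hT hkR]
  have hprod : ((L1 ++ b :: L2).map (fun b => b.w f)).prod =
      b.w f * (L'.map (fun b => b.w f)).prod := by
    rw [(hperm.map (fun b : RB I => b.w f)).prod_eq, List.map_cons, List.prod_cons]
  unfold stW
  rw [hprod]
  ring

theorem star_knk (a : I → I → ℕ) (hs : ∀ i j, a i j = a j i) (cd : CrossData a) (R : Finset I)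
    (x : I) (q : I → ℚ) (K : ℕ) (u : ℕ → ℚ) (L : List (RB I)) (h : StarCtx a cd R x q K u L)
    (f : ℕ) (hf : 1 ≤ f) (hfK : f ≤ K) (T : Trm I) (hT : RReg R T) (hk : Kink R f T) :
    evF a R (stF x u L f) T = stW u L f * TV a (tauT a R f q T) := by
  rw [evF_stF hs h f T]
  obtain ⟨y, hy, hy1⟩ := hk
  by_cases hyx : y = x
  · rw [hyx] at hy1
    exact AG9d_caseA a hs cd R x q K u L h f hf hfK T hT hy1
  · have hye : y ∈ uniR L := by
      rw [h.cov]
      exact Finset.mem_erase.2 ⟨hyx, hy⟩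
    obtain ⟨b, hb, hyb⟩ := (mem_uniR L y).1 hye
    exact AG9d_caseB a hs cd R x q K u L h f hf hfK T hT b hb ⟨y, hyb, hy1⟩

end

end Pool.Agent.H27.KAC
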