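import Pool.Agent.H41.KA.AG9c
import Pool.Agent.H41.KA.AG9d

/-!
KAC ADE, module AG9e: the star theorem.

`star_win`: `WinPat_prodF` for the blocks, `WinPat.insert` for `x` (pattern of `x`: insertion `0`, level `f` or `f - 1`; for `f = 0` level `0`),
`prodF` of a cons is `mulF`, `WinPat.congr`.
`star_a0`: `evU_alU` with `f = 0` (`evU_col_lev0`), `evU_a0`, then add the insertion at level `0` with `TV_lev0`.
-/

set_option autoImplicit false

namespace Pool.Agent.H27.KAC

open scoped BigOperators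

section

variable {I : Type} [Fintype I] [DecidableEq I]

theorem AG9e_pair {a : I → I → ℕ} {cd : CrossData a} {R : Finset I} {x : I} {q : I → ℚ} {K : ℕ}
    {u : ℕ → ℚ} {L : List (RB I)} (h : StarCtx a cd R x q K u L) (f : ℕ) :
    (atF L f).Pairwise (fun b c => Sep a b.1 c.1) := by
  unfold atF
  rw [List.pairwise_map]
  exact h.sep

theorem AG9e_uni {a : I → I → ℕ} {cd : CrossData a} {R : Finset I} {x : I} {q : I → ℚ} {K : ℕ}
    {u : ℕ → ℚ} {L : List (RB I)} (h : StarCtx a cd R x q K u L) (f : ℕ) :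
    uni (atF L f) = R.erase x := by
  rw [uni_atF, h.cov]

/-- the patterns of the chain vertex. -/
theorem AG9e_alU (u : ℕ → ℚ) (f : ℕ) (d : ℚ × Pat I) (hd : d ∈ alU u f) (x : I) :
    d.2.q x = 0 ∧ d.2.s x ≤ f ∧ f < d.2.s x + 2 := by
  unfold alU at hd
  split_ifs at hd with h
  · rw [List.mem_singleton] at hd
    subst hd
    subst h
    exact ⟨rfl, le_rfl, by norm_num⟩
  · rw [List.mem_cons, List.mem_singleton] at hd
    rcases hd with hd | hd
    · subst hd
      exact ⟨rfl, le_rfl, Nat.lt_add_of_pos_right (by norm_num)⟩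
    · subst hd
      refine ⟨rfl, Nat.sub_le f 1, ?_⟩
      show f < f - 1 + 2
      omega

theorem star_win (a : I → I → ℕ) (hs : ∀ i j, a i j = a j i) (cd : CrossData a) (R : Finset I)
    (x : I) (q : I → ℚ) (K : ℕ) (u : ℕ → ℚ) (L : List (RB I)) (h : StarCtx a cd R x q K u L)
    (f : ℕ) (hfK : f ≤ K) (c : ℚ × Pat I) (hc : c ∈ stF x u L f) : WinPat a cd R q f c.2 := by
  have hc' : c ∈ mulF {x} (alU u f) (prodF (atF L f)) := hc
  unfold mulF at hc'
  rw [List.mem_flatMap] at hc'
  obtain ⟨d, hd, hc'⟩ := hc'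
  rw [List.mem_map] at hc'
  obtain ⟨e, he, rfl⟩ := hc'
  have hx : x ∉ R.erase x := Finset.notMem_erase x R
  have hwin : WinPat a cd (R.erase x) q f e.2 := by
    rw [← AG9e_uni h f]
    refine WinPat_prodF a hs cd f q (atF L f) (AG9e_pair h f) ?_ e he
    intro b hb c hc
    unfold atF at hb
    rw [List.mem_map] at hb
    obtain ⟨b', hb', rfl⟩ := hb
    exact (h.resp b' hb').win f hfK c hc
  obtain ⟨h0, h1, h2⟩ := AG9e_alU u f d hd x
  have hg : WinPat a cd (R.erase x) q f (glue {x} d.2 e.2) := by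
    refine hwin.congr ?_ ?_
    · intro y hy
      have hne : y ∉ ({x} : Finset I) := by
        rw [Finset.mem_singleton]
        exact Finset.ne_of_mem_erase hy
      show e.2.s y = if y ∈ ({x} : Finset I) then d.2.s y else e.2.s y
      rw [if_neg hne]
    · intro y hy
      have hne : y ∉ ({x} : Finset I) := by
        rw [Finset.mem_singleton]
        exact Finset.ne_of_mem_erase hy
      show e.2.q y = if y ∈ ({x} : Finset I) then d.2.q y else e.2.q y
      rw [if_neg hne]
  have hxx : x ∈ ({x} : Finset I) := Finset.mem_singleton_self x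
  have gq : (glue {x} d.2 e.2).q x = d.2.q x := if_pos hxx
  have gs : (glue {x} d.2 e.2).s x = d.2.s x := if_pos hxx
  have hins := hg.insert x hx (by rw [gq]; exact h0) (by rw [gs]; exact h1)
    (by rw [gs]; exact h2) h.hz
  rw [Finset.insert_erase h.hx] at hins
  exact hins

theorem AG9e_reg {R : Finset I} {x : I} (T : Trm I) (hT : RReg R T) :
    RReg (R.erase x) (T.col x (sy x 1)) where
  nat y hy l hl := hT.nat y (Finset.mem_of_mem_erase hy) l hl
  col y hy j hj l hl hne := by
    have hyx : y ≠ x := Finset.ne_of_mem_erase hy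
    have hyR : y ∈ R := Finset.mem_of_mem_erase hy
    by_cases hjx : j = x
    · exfalso
      apply hne
      subst hjx
      show (Function.update T.Λ j (sy j 1) j) (y, l) = 0
      rw [Function.update_self]
      exact Finsupp.single_eq_of_ne (fun h => hyx (congrArg Prod.fst h))
    · have hjR : j ∉ R := fun h => hj (Finset.mem_erase.2 ⟨hjx, h⟩)
      refine hT.col y hyR j hjR l hl ?_
      intro h0
      apply hne
      show (Function.update T.Λ x (sy x 1) j) (y, l) = 0
      rw [Function.update_of_ne hjx]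
      exact h0

theorem AG9e_lev0 (a : I → I → ℕ) {R : Finset I} {x : I} (hx : x ∈ R) (q : I → ℚ) (T : Trm I) :
    TV a (tauT a (R.erase x) 0 q (T.col x (sy x 1))) = TV a (tauT a R 0 q T) := by
  refine TV_lev0 a _ _ ?_ ?_ ?_
  · funext i
    show T.γ i - ((0 : ℕ) : ℚ) * _ = T.γ i - ((0 : ℕ) : ℚ) * _
    rw [Nat.cast_zero, zero_mul, zero_mul]
  · intro i k hk
    show (blkT a (R.erase x) 0 (0 + 1) q (T.col x (sy x 1))).E (i, k) =
      (blkT a R 0 (0 + 1) q T).E (i, k)
    have hk0 : k ≠ 0 := by omega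
    rw [blkT_E, blkT_E, if_neg hk0, if_neg hk0]
    rfl
  · intro j i k _
    show (if j ∈ R.erase x then sy j (0 + 1) else Function.update T.Λ x (sy x 1) j) (i, k) =
      (if j ∈ R then sy j (0 + 1) else T.Λ j) (i, k)
    by_cases hjx : j = x
    · subst hjx
      rw [if_neg (Finset.notMem_erase j R), if_pos hx, Function.update_self]
    · rw [Function.update_of_ne hjx]
      by_cases hj : j ∈ R
      · rw [if_pos (Finset.mem_erase.2 ⟨hjx, hj⟩), if_pos hj]
      · rw [if_neg (fun h => hj (Finset.mem_of_mem_erase h)), if_neg hj]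

theorem star_a0 (a : I → I → ℕ) (hs : ∀ i j, a i j = a j i) (cd : CrossData a) (R : Finset I)
    (x : I) (q : I → ℚ) (K : ℕ) (u : ℕ → ℚ) (L : List (RB I)) (h : StarCtx a cd R x q K u L)
    (T : Trm I) (hT : RReg R T) :
    evF a R (stF x u L 0) T = stW u L 0 * TV a (tauT a R 0 q T) := by
  have hxu : x ∉ uni (atF L 0) := by
    rw [AG9e_uni h 0]
    exact Finset.notMem_erase x R
  rw [evF_stF hs h 0 T, evU_alU a u 0 x (atF L 0) hxu T, evU_col_lev0 a (atF L 0) T x x hxu,
    mul_zero, sub_zero]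
  have hreg : RReg (uniR L) (T.col x (sy x (0 + 1))) := by
    rw [h.cov]
    exact AG9e_reg T hT
  rw [evU_a0 a hs cd q K L h.sep h.resp (T.col x (sy x (0 + 1))) hreg, h.cov]
  have e : TV a (tauT a (R.erase x) 0 q (T.col x (sy x (0 + 1)))) = TV a (tauT a R 0 q T) :=
    AG9e_lev0 a h.hx q T
  rw [e]
  unfold stW
  ring

theorem star_resp (a : I → I → ℕ) (hs : ∀ i j, a i j = a j i) (cd : CrossData a) (R : Finset I)
    (x : I) (q : I → ℚ) (K : ℕ) (u : ℕ → ℚ) (L : List (RB I)) (h : StarCtx a cd R x q K u L) :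
    Resp a cd R q K (stW u L) (stF x u L) where
  win f hf c hc := star_win a hs cd R x q K u L h f hf c hc
  a0 T hT := star_a0 a hs cd R x q K u L h T hT
  stp f hf hfK T hT := star_stp a hs cd R x q K u L h f hf hfK T hT
  knk f hf hfK T hT hk := star_knk a hs cd R x q K u L h f hf hfK T hT hk

end

end Pool.Agent.H27.KAC
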