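import Pool.Agent.H41.KA.AG13
import Pool.Agent.H41.KA.AG14

/-!
KAC ADE, module AN1: the test terms for the response numbers.

`tT0`: all exponents zero, `γ = 0`, columns `(j,1)`.
`tT1 v`: multiplied by `η_{·,m}^{-v}`, `v` integral on `A` with `C_A v ≥ 1`, so that it has a kink at level `m = mm A`.

`tau0_T1`: `cd.cr` with `k = mm A` for `tT1` and for `tT0`, and `TV_rep` (`N = A`, `κ = mm A`, `σ = mm A - 1`, shift `v`; the exponents of
`upT a A m q (tT1 v)` on `A` at level `m` are `C_A q + C_A v`, so `solN = q + v > v`).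
`taus_T1`: `cd.rv` with `l = mm A`.
`tau_T0`: `Resp.val` for `TauFam_all`, all restart parts vanish on `tT0` (`raw_pos`: `γ` becomes negative, `TV_neg`).
`tau_T0_int`: the insertion exponents on the columns and monomials: write the value as a coefficient at a `γ` with support in `A`; the
series `uS a j k`, `j ∉ A`, have constant coefficient one and all other monomials contain `X_j` (so their rational powers do not contribute),
for `j ∈ A` the exponents `(C_A q)_j` are natural numbers; `uS_int`.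
-/

set_option autoImplicit false

namespace Pool.Agent.H27.KAC

open scoped BigOperators

section

variable {I : Type} [Fintype I] [DecidableEq I]

private theorem AN1_cart_symm (a : I → I → ℕ) (hs : ∀ i j, a i j = a j i) (x y : I) :
    cart a x y = cart a y x := by
  unfold cart
  rw [hs x y]
  by_cases h : x = y
  · rw [if_pos h, if_pos h.symm]
  · rw [if_neg h, if_neg (fun e => h e.symm)]

private theorem AN1_eta_E (a : I → I → ℕ) (k : ℕ) (δ : I → ℚ) (T : Trm I) (i : I) (l : ℕ) :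
    (T.eta a k δ).E (i, l) = T.E (i, l) - if l = k then ∑ x, δ x * (cart a x i : ℚ) else 0 := by
  rw [eta_eq_etaM, etaM_E]
  by_cases hl : l = k
  · rw [if_pos hl, Finset.filter_true_of_mem (fun _ _ => hl.symm)]
  · rw [if_neg hl, Finset.filter_false_of_mem (fun _ _ h => hl h.symm), Finset.sum_empty]

private theorem AN1_blk_E (a : I → I → ℕ) (hs : ∀ i j, a i j = a j i) (A : Finset I) (k σ : ℕ)
    (q : I → ℚ) (T : Trm I) (i : I) (l : ℕ) :
    (blkT a A k σ q T).E (i, l) = T.E (i, l) + if l = k then cqN a A q i else 0 := by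
  have h1 : (blkT a A k σ q T).E (i, l) = (T.eta a k (fun i => -resQ A q i)).E (i, l) := rfl
  rw [h1, AN1_eta_E]
  by_cases hl : l = k
  · rw [if_pos hl, if_pos hl, sub_eq_add_neg, ← Finset.sum_neg_distrib]
    congr 1
    unfold cqN
    rw [← Finset.sum_subset (Finset.subset_univ A)]
    · refine Finset.sum_congr rfl fun x hx => ?_
      unfold resQ
      rw [if_pos hx, AN1_cart_symm a hs x i]
      ring
    · intro x _ hx
      unfold resQ
      rw [if_neg hx]
      ring
  · rw [if_neg hl, if_neg hl]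
    ring

private theorem AN1_blk_γ (a : I → I → ℕ) (A : Finset I) (k σ : ℕ) (q : I → ℚ) (T : Trm I)
    (i : I) : (blkT a A k σ q T).γ i = T.γ i + k * resQ A q i := by
  show T.γ i - k * (-resQ A q i) = T.γ i + k * resQ A q i
  ring

private theorem AN1_blk_Λ (a : I → I → ℕ) (A : Finset I) (k σ : ℕ) (q : I → ℚ) (T : Trm I)
    (i : I) : (blkT a A k σ q T).Λ i = if i ∈ A then sy i σ else T.Λ i := rfl

private theorem AN1_blk_etaM (a : I → I → ℕ) (A : Finset I) (k σ : ℕ) (q : I → ℚ) (κ : I → ℕ)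
    (δ : I → ℚ) (T : Trm I) :
    blkT a A k σ q (T.etaM a κ δ) = (blkT a A k σ q T).etaM a κ δ := by
  apply Trm.ext
  · funext i
    show T.γ i - κ i * δ i - k * (-resQ A q i) = T.γ i - k * (-resQ A q i) - κ i * δ i
    ring
  · show T.E - ∑ x, δ x • cE a x (κ x) - ∑ x, (-resQ A q x) • cE a x k =
      T.E - ∑ x, (-resQ A q x) • cE a x k - ∑ x, δ x • cE a x (κ x)
    rw [sub_right_comm]
  · rfl

/-- the base term. -/
noncomputable def tT0 : Trm I := ⟨fun _ => 0, 0, fun j => sy j 1⟩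

/-- the kinked term. -/
noncomputable def tT1 (a : I → I → ℕ) (m : ℕ) (v : I → ℤ) : Trm I :=
  (tT0 : Trm I).etaM a (fun _ => m) (fun i => -(v i : ℚ))

theorem RReg_T0 (A : Finset I) : RReg A (tT0 : Trm I) := by
  refine ⟨fun x _ l _ => ⟨0, ?_⟩, fun x hx j hj l _ h => ?_⟩
  · show (0 : QE I) (x, l) = ((0 : ℕ) : ℚ)
    rw [Finsupp.zero_apply, Nat.cast_zero]
  · exfalso
    apply h
    show (sy j 1 : QE I) (x, l) = 0
    rw [Finsupp.single_apply, if_neg]
    intro e
    have e1 : j = x := (Prod.ext_iff.mp e).1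
    exact hj (e1 ▸ hx)

private theorem AN1_T1_E (a : I → I → ℕ) (hs : ∀ i j, a i j = a j i) (A : Finset I) (m : ℕ)
    (v : I → ℤ) (hv : ∀ i, i ∉ A → v i = 0) (i : I) (l : ℕ) :
    (tT1 a m v).E (i, l) = if l = m then ((∑ j ∈ A, cart a i j * v j : ℤ) : ℚ) else 0 := by
  unfold tT1
  rw [← eta_eq_etaM, AN1_eta_E]
  have h0 : (tT0 : Trm I).E (i, l) = 0 := rfl
  rw [h0]
  by_cases hl : l = m
  · rw [if_pos hl, if_pos hl, zero_sub, ← Finset.sum_neg_distrib, Int.cast_sum,
      ← Finset.sum_subset (Finset.subset_univ A)]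
    · refine Finset.sum_congr rfl fun x _ => ?_
      rw [AN1_cart_symm a hs x i]
      push_cast
      ring
    · intro x _ hx
      rw [hv x hx]
      push_cast
      ring
  · rw [if_neg hl, if_neg hl, sub_zero]

/-- an integral vector with `C_A v ≥ 1`, supported in `A`. -/
theorem exists_int_vec (a : I → I → ℕ) (hs : ∀ i j, a i j = a j i) (A : Finset I)
    (hA : FinT a A) (B : ℤ) : ∃ v : I → ℤ, (∀ i, i ∉ A → v i = 0) ∧
      ∀ x ∈ A, B ≤ ∑ j ∈ A, cart a x j * v j := by
  classical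
  set w : I → ℚ := solN a A (fun _ => 1) with hw
  set D : ℕ := ∏ i, (w i).den with hD
  have hD1 : 1 ≤ D := Nat.one_le_iff_ne_zero.mpr (Finset.prod_ne_zero_iff.mpr
    (fun i _ => (w i).den_nz))
  have hn : ∀ i, ∃ n : ℤ, w i * D = n := by
    intro i
    obtain ⟨r, hr⟩ : (w i).den ∣ D := Finset.dvd_prod_of_mem _ (Finset.mem_univ i)
    refine ⟨(w i).num * r, ?_⟩
    rw [hr]
    push_cast
    rw [← mul_assoc, Rat.mul_den_eq_num]
  choose n hn using hn
  refine ⟨fun i => n i * |B|, ?_, ?_⟩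
  · intro i hi
    have h1 : w i = 0 := solN_out a A _ i hi
    have h2 := hn i
    rw [h1, zero_mul] at h2
    have h3 : n i = 0 := by exact_mod_cast h2.symm
    show n i * |B| = 0
    rw [h3, zero_mul]
  · intro x hx
    have h1 : ∑ j ∈ A, (cart a x j : ℚ) * w j = 1 := solN_spec hs hA (fun _ => 1) x hx
    have h2 : ∑ j ∈ A, cart a x j * n j = (D : ℤ) := by
      have h3 : ((∑ j ∈ A, cart a x j * n j : ℤ) : ℚ) = ((D : ℤ) : ℚ) := by
        push_cast
        have h4 : ∑ j ∈ A, (cart a x j : ℚ) * (n j : ℚ) =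
            (∑ j ∈ A, (cart a x j : ℚ) * w j) * D := by
          rw [Finset.sum_mul]
          refine Finset.sum_congr rfl fun j _ => ?_
          rw [← hn j]
          ring
        rw [h4, h1, one_mul]
      exact_mod_cast h3
    have h5 : ∑ j ∈ A, cart a x j * (n j * |B|) = D * |B| := by
      rw [← h2, Finset.sum_mul]
      refine Finset.sum_congr rfl fun j _ => ?_
      ring
    show B ≤ ∑ j ∈ A, cart a x j * (n j * |B|)
    rw [h5]
    have h6 : (1 : ℤ) ≤ D := by exact_mod_cast hD1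
    nlinarith [abs_nonneg B, le_abs_self B]

theorem RReg_T1 (a : I → I → ℕ) (hs : ∀ i j, a i j = a j i) (A : Finset I) (m : ℕ)
    (v : I → ℤ) (hv : ∀ i, i ∉ A → v i = 0)
    (hv1 : ∀ x ∈ A, 1 ≤ ∑ j ∈ A, cart a x j * v j) :
    RReg A (tT1 a m v) ∧ (A.Nonempty → Kink A m (tT1 a m v)) := by
  refine ⟨⟨?_, ?_⟩, ?_⟩
  · intro x hx l _
    rw [AN1_T1_E a hs A m v hv]
    by_cases hl : l = m
    · rw [if_pos hl]
      have h1 := hv1 x hx
      refine ⟨(∑ j ∈ A, cart a x j * v j).toNat, ?_⟩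
      have h2 : (((∑ j ∈ A, cart a x j * v j).toNat : ℕ) : ℤ) = ∑ j ∈ A, cart a x j * v j :=
        Int.toNat_of_nonneg (by omega)
      exact_mod_cast h2.symm
    · rw [if_neg hl]
      exact ⟨0, by rw [Nat.cast_zero]⟩
  · intro x hx j hj l hl h
    exfalso
    apply h
    show (sy j 1 : QE I) (x, l) = 0
    rw [Finsupp.single_apply, if_neg]
    intro e
    have e1 : j = x := (Prod.ext_iff.mp e).1
    exact hj (e1 ▸ hx)
  · rintro ⟨x, hx⟩
    refine ⟨x, hx, ?_⟩
    rw [AN1_T1_E a hs A m v hv, if_pos rfl]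
    exact_mod_cast hv1 x hx

theorem tau0_T0 (a : I → I → ℕ) (A : Finset I) (q : I → ℚ) :
    TV a (tauT a A 0 q tT0) = 1 := by
  have h1 : TV a (tauT a A 0 q tT0) = TV a (tT0 : Trm I) := by
    apply TV_lev0
    · funext i
      rw [AN1_blk_γ]
      push_cast
      ring
    · intro i k hk
      have h2 : (tauT a A 0 q (tT0 : Trm I)).E (i, k) =
          ((tT0 : Trm I).eta a 0 (fun i => -resQ A q i)).E (i, k) := rfl
      rw [h2, AN1_eta_E, if_neg (by omega), sub_zero]
    · intro j i k _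
      rw [AN1_blk_Λ]
      by_cases hj : j ∈ A
      · rw [if_pos hj]
        rfl
      · rw [if_neg hj]
  rw [h1]
  have e : (tT0 : Trm I) = ⟨fun i => ((0 : I →₀ ℕ) i : ℚ), 0, fun j => sy j 1⟩ := by
    apply Trm.ext
    · funext i
      show (0 : ℚ) = (((0 : I →₀ ℕ) i : ℕ) : ℚ)
      rw [Finsupp.zero_apply, Nat.cast_zero]
    · rfl
    · rfl
  rw [e, TV_nat a 0 0 (fun j => sy j 1) (fun i => by rw [tdg_zero, cw_zero, Int.cast_zero]),
    mU_zero, one_mul]
  have h3 : colMat (fun i => dl a (sy i 1)) = (1 : Matrix I I (MvPowerSeries I ℚ)) := by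
    refine Matrix.ext fun l i => ?_
    show dl a (sy i 1) l = (1 : Matrix I I (MvPowerSeries I ℚ)) l i
    rw [dl_single, map_one, one_mul, xv_one, Matrix.one_apply]
    by_cases h : i = l
    · rw [if_pos h, if_pos h.symm]
    · rw [if_neg h, if_neg (fun e => h e.symm)]
  rw [h3, Matrix.det_one, MvPowerSeries.coeff_zero_one]

theorem tau0_T1 (a : I → I → ℕ) (hs : ∀ i j, a i j = a j i) (cd : CrossData a) (A : Finset I)
    (hA : FinT a A) (hc : ConnS a A) (q : I → ℚ) (hq : QOk a A q) (v : I → ℤ)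
    (hv : ∀ i, i ∉ A → v i = 0) (hv1 : ∀ x ∈ A, 1 ≤ ∑ j ∈ A, cart a x j * v j) :
    TV a (tauT a A 0 q (tT1 a (cd.mm A) v)) = 1 := by
  have h2m := cd.two_le A
  set m : ℕ := cd.mm A with hm
  obtain ⟨hR1, _⟩ := RReg_T1 a hs A m v hv hv1
  have e1 := cd.cr A hA hc m q hq (tT1 a m v) hR1 le_rfl
  have e0 := cd.cr A hA hc m q hq tT0 (RReg_T0 A) le_rfl
  rw [← hm, Nat.sub_self] at e1 e0
  rw [tau0_T0] at e0
  have hqv : ∀ x ∈ A, ((∑ j ∈ A, cart a x j * v j : ℤ) : ℚ) = cqN a A (fun i => (v i : ℚ)) x := by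
    intro x _
    unfold cqN
    push_cast
    rfl
  have hE : ∀ i l, (upT a A m q (tT1 a m v)).E (i, l) =
      (if l = m then ((∑ j ∈ A, cart a i j * v j : ℤ) : ℚ) else 0) +
        if l = m then cqN a A q i else 0 := by
    intro i l
    show (blkT a A m (m - 1) q (tT1 a m v)).E (i, l) = _
    rw [AN1_blk_E a hs, AN1_T1_E a hs A m v hv]
  have hsol : ∀ x ∈ A, solN a A (fun i => (upT a A m q (tT1 a m v)).E (i, m)) x =
      q x + v x := by
    intro x hx
    have h1 : solN a A (fun i => (upT a A m q (tT1 a m v)).E (i, m)) =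
        solN a A (cqN a A (fun i => q i + (v i : ℚ))) := by
      apply solN_congr hs hA
      intro i hi
      show (upT a A m q (tT1 a m v)).E (i, m) = _
      rw [hE i m, if_pos rfl, if_pos rfl, hqv i hi]
      unfold cqN
      rw [← Finset.sum_add_distrib]
      refine Finset.sum_congr rfl fun j _ => ?_
      ring
    rw [h1, solN_cqN hs hA _ x hx]
  have hqpos : ∀ x ∈ A, 0 < q x := by
    intro x hx
    rw [← solN_cqN hs hA q x hx]
    apply solN_pos_self hs hA _ _ x hx
    · obtain ⟨n, hn, hc'⟩ := hq x hx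
      rw [hc']
      exact_mod_cast hn
    · intro i hi
      obtain ⟨n, _, hc'⟩ := hq i hi
      rw [hc']
      exact Nat.cast_nonneg n
  have hvnn : ∀ x ∈ A, (0 : ℚ) ≤ v x := by
    apply FinT.nonneg hs hA (fun i => (v i : ℚ))
    intro i hi
    rw [← hqv i hi]
    have := hv1 i hi
    exact_mod_cast (by omega : (0 : ℤ) ≤ ∑ j ∈ A, cart a i j * v j)
  have hrep := TV_rep a hs A hA (fun _ => m) (fun _ => m - 1) (fun _ _ => by omega)
    (fun _ _ _ _ _ => rfl) (fun _ _ => Or.inr (by omega)) (upT a A m q (tT1 a m v))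
    (by
      intro x hx
      refine ⟨?_, ?_, ?_⟩
      · intro l _ hl
        rw [hE, if_neg hl, if_neg hl, add_zero]
        exact ⟨0, by rw [Nat.cast_zero]⟩
      · rw [hE, if_pos rfl, if_pos rfl]
        obtain ⟨n, _, hn⟩ := hq x hx
        rw [hn]
        refine ⟨(∑ j ∈ A, cart a x j * v j) + n, ?_⟩
        push_cast
        ring
      · intro j l _ h
        left
        by_contra hcon
        apply h
        show (blkT a A m (m - 1) q (tT1 a m v)).Λ j (x, l) = 0
        rw [AN1_blk_Λ]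
        by_cases hj : j ∈ A
        · rw [if_pos hj, Finsupp.single_apply, if_neg]
          intro e
          exact hcon (Prod.ext_iff.mp e).2.symm
        · rw [if_neg hj]
          show (sy j 1 : QE I) (x, l) = 0
          rw [Finsupp.single_apply, if_neg]
          intro e
          have e1 : j = x := (Prod.ext_iff.mp e).1
          exact hj (e1 ▸ hx))
    (by
      intro x hx
      rw [hsol x hx]
      have := hqpos x hx
      have := hvnn x hx
      linarith)
    v hv
    (by
      intro x hx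
      rw [hsol x hx]
      have := hqpos x hx
      linarith)
  have hT : (upT a A m q (tT1 a m v)).etaM a (fun _ => m) (fun i => (v i : ℚ)) =
      upT a A m q tT0 := by
    show (blkT a A m (m - 1) q (tT1 a m v)).etaM a (fun _ => m) (fun i => (v i : ℚ)) =
      blkT a A m (m - 1) q tT0
    rw [← AN1_blk_etaM]
    congr 1
    unfold tT1
    rw [etaM_etaM]
    have h0 : (fun i => -(v i : ℚ) + (v i : ℚ)) = fun _ => (0 : ℚ) := by
      funext i
      ring
    rw [h0, etaM_zero]
  rw [hT, e0, mul_one] at hrep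
  rw [hrep] at e1
  have hne : cd.eps A q ≠ 0 := by
    rcases cd.eps_sq A q with h | h
    · rw [h]; norm_num
    · rw [h]; norm_num
  have h9 : cd.eps A q * TV a (tauT a A 0 q (tT1 a m v)) = cd.eps A q * 1 := by
    rw [mul_one]
    exact e1.symm
  exact mul_left_cancel₀ hne h9

theorem taus_T1 (a : I → I → ℕ) (hs : ∀ i j, a i j = a j i) (cd : CrossData a) (A : Finset I)
    (hA : FinT a A) (hc : ConnS a A) (q : I → ℚ) (hq : QOk a A q) (v : I → ℤ)
    (hv : ∀ i, i ∉ A → v i = 0) (hv1 : ∀ x ∈ A, 1 ≤ ∑ j ∈ A, cart a x j * v j) (s : ℕ)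
    (hs1 : 1 ≤ s) (hs2 : s < cd.mm A) : TV a (tauT a A s q (tT1 a (cd.mm A) v)) = 0 := by
  obtain ⟨y, hy⟩ := hc.1
  obtain ⟨hR1, _⟩ := RReg_T1 a hs A (cd.mm A) v hv hv1
  refine cd.rv A hA hc s q hq _ hR1 y hy (cd.mm A) (by omega) (by omega) ?_
  rw [AN1_T1_E a hs A _ v hv, if_pos rfl]
  exact_mod_cast hv1 y hy

private theorem AN1_Rv_T0 (a : I → I → ℕ) (hs : ∀ i j, a i j = a j i) (A : Finset I)
    (hA : FinT a A) (hc : ConnS a A) (q : I → ℚ) (hq : QOk a A q) (l : ℕ) (hl : 1 ≤ l) :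
    Rv a A l q (tT0 : Trm I) = 0 := by
  classical
  unfold Rv
  apply Finset.sum_eq_zero
  intro m hm
  have hm1 : ¬ Plat A q m := (Finset.mem_filter.mp hm).2
  have h0 : TV a (rawT a A l q m tT0) = 0 := by
    by_contra hne
    have hp := raw_pos a hs A hA hc l hl q hq tT0 (RReg_T0 A) m hm1 hne
    unfold Plat at hm1
    push Not at hm1
    obtain ⟨x, hx, hx1, _⟩ := hm1
    have h1 := hp x hx hx1
    apply hne
    apply TV_neg a _ x
    show (0 : ℚ) - l * (if x ∈ A then (m x : ℚ) - q x else 0) < 0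
    rw [if_pos hx]
    have h2 : (1 : ℚ) ≤ l := by exact_mod_cast hl
    have h3 : 0 < (m x : ℚ) - q x := by linarith
    nlinarith
  rw [h0, mul_zero]

theorem tau_T0 (a : I → I → ℕ) (hs : ∀ i j, a i j = a j i) (cd : CrossData a) (A : Finset I)
    (hA : FinT a A) (hc : ConnS a A) (q : I → ℚ) (hq : QOk a A q) (g : ℕ) :
    TV a (tauT a A g q tT0) = cn a cd A q g := by
  obtain ⟨Φ, hΦ, hΦg⟩ := TauFam_all a hs cd A hA hc q hq g
  have h1 := Resp.val hΦ g le_rfl tT0 (RReg_T0 A)
  rw [hΦg, tau0_T0, mul_one] at h1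
  have h2 : ∑ l ∈ Finset.Icc 1 g, cn a cd A q (g - l) * Rv a A l q (tT0 : Trm I) = 0 := by
    apply Finset.sum_eq_zero
    intro l hl
    rw [AN1_Rv_T0 a hs A hA hc q hq l (Finset.mem_Icc.mp hl).1, mul_zero]
  have h3 : evF a A [((1 : ℚ), (⟨fun _ => g, q⟩ : Pat I))] tT0 = TV a (tauT a A g q tT0) := by
    rw [tauT_eq_patT]
    unfold evF
    rw [List.map_cons, List.map_nil, List.sum_cons, List.sum_nil, add_zero, one_mul]
  rw [h3, h2, add_zero] at h1
  rw [h1]
  rfl

private theorem AN1_isZ_of_PI (q : ℚ) (h : ∀ p : ℕ, p.Prime → PI p q) : IsZ q := by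
  have h1 : q.den = 1 := by
    by_contra hne
    obtain ⟨p, hp, hd⟩ := Nat.exists_prime_and_dvd hne
    exact h p hp hd
  refine ⟨q.num, ?_⟩
  have h2 := Rat.mul_den_eq_num q
  rw [h1, Nat.cast_one, mul_one] at h2
  exact h2

private theorem AN1_X_dvd (a : I → I → ℕ) (i : I) (k : ℕ) :
    (MvPowerSeries.X i : MvPowerSeries I ℚ) ∣ uS a i k - 1 ∧
      (MvPowerSeries.X i : MvPowerSeries I ℚ) ∣ uS a i (k + 1) - 1 := by
  induction k with
  | zero =>
    rw [uS_zero, uS_one, sub_self]
    exact ⟨dvd_zero _, dvd_zero _⟩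
  | succ k ih =>
    refine ⟨ih.2, ?_⟩
    obtain ⟨u, hu⟩ := ih.1
    obtain ⟨w, hw⟩ := ih.2
    have hr := uS_rec a i k
    refine ⟨w * (uS a i (k + 1) + 1) - MvPowerSeries.X i ^ k * ∏ j, uS a j (k + 1) ^ (a i j) -
      uS a i (k + 2) * u, ?_⟩
    show uS a i (k + 2) - 1 = _
    rw [pow_succ] at hr
    linear_combination hr - uS a i (k + 2) * hu + (uS a i (k + 1) + 1) * hw

private theorem AN1_coeff_out (a : I → I → ℕ) (i : I) (k : ℕ) (q : ℚ) (G : MvPowerSeries I ℚ)
    (γ : I →₀ ℕ) (hγ : γ i = 0) :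
    MvPowerSeries.coeff γ (rpw (uS a i k) q * G) = MvPowerSeries.coeff γ G := by
  obtain ⟨w, hw⟩ := (AN1_X_dvd a i k).1
  have h1 : uS a i k = 1 - MvPowerSeries.X i ^ 1 * (-w) := by
    rw [pow_one]
    linear_combination hw
  rw [h1, coeff_rpw_one_sub i 1 le_rfl (-w) G q γ 0 (by omega)]
  rw [Finset.sum_range_one, pow_zero, Ring.choose_zero_right, mul_zero, pow_zero, pow_zero]
  simp

theorem tau_T0_int (a : I → I → ℕ) (hs : ∀ i j, a i j = a j i) (A : Finset I)
    (hA : FinT a A) (q : I → ℚ) (hq : QOk a A q) (g : ℕ) :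
    IsZ (TV a (tauT a A g q (tT0 : Trm I))) := by
  classical
  by_cases hok : TOk a (tauT a A g q (tT0 : Trm I))
  · rw [TV_of_ok a _ hok]
    unfold TV0 mU
    set E : QE I := (tauT a A g q (tT0 : Trm I)).E with hEdef
    set γ : I →₀ ℕ := gN (tauT a A g q (tT0 : Trm I)).γ with hγdef
    have hγ : ∀ i, i ∉ A → γ i = 0 := by
      intro i hi
      show ⌊(tauT a A g q (tT0 : Trm I)).γ i⌋₊ = 0
      have h1 : (tauT a A g q (tT0 : Trm I)).γ i = 0 := by
        show (blkT a A g (g + 1) q tT0).γ i = 0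
        rw [AN1_blk_γ]
        unfold resQ
        rw [if_neg hi, mul_zero, add_zero]
        rfl
      rw [h1, Nat.floor_zero]
    set M : MvPowerSeries I ℚ :=
      (colMat (fun i => dl a ((tauT a A g q (tT0 : Trm I)).Λ i))).det with hM
    have hsplit : ∀ s : Finset (I × ℕ), (∀ ik ∈ s, ik.1 ∉ A) → ∀ G : MvPowerSeries I ℚ,
        MvPowerSeries.coeff γ ((∏ ik ∈ s, rpw (uS a ik.1 ik.2) (E ik)) * G) =
          MvPowerSeries.coeff γ G := by
      intro s
      induction s using Finset.induction_on with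
      | empty =>
        intro _ G
        rw [Finset.prod_empty, one_mul]
      | insert ik s hik ih =>
        intro hs' G
        rw [Finset.prod_insert hik, mul_assoc,
          AN1_coeff_out a ik.1 ik.2 (E ik) _ γ
            (hγ ik.1 (hs' ik (Finset.mem_insert_self ik s)))]
        exact ih (fun jk hjk => hs' jk (Finset.mem_insert_of_mem hjk)) G
    rw [← Finset.prod_filter_mul_prod_filter_not E.support (fun ik => ik.1 ∉ A), mul_assoc,
      hsplit _ (fun ik hik => (Finset.mem_filter.mp hik).2)]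
    have hint : ∀ ik : I × ℕ, ik.1 ∈ A → ∃ n : ℤ, E ik = n := by
      intro ik hik
      obtain ⟨i, l⟩ := ik
      have h1 : E (i, l) = (blkT a A g (g + 1) q tT0).E (i, l) := rfl
      rw [h1, AN1_blk_E a hs]
      have h0 : (tT0 : Trm I).E (i, l) = 0 := rfl
      rw [h0, zero_add]
      by_cases hl : l = g
      · rw [if_pos hl]
        obtain ⟨n, _, hn⟩ := hq i hik
        exact ⟨n, by rw [hn]; push_cast; rfl⟩
      · rw [if_neg hl]
        exact ⟨0, by rw [Int.cast_zero]⟩
    apply AN1_isZ_of_PI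
    intro p hp
    have hCM : CInt p M := by
      rw [hM]
      apply CInt_det hp
      intro j ik
      have h1 : ∃ n : ℤ, (tauT a A g q (tT0 : Trm I)).Λ j ik = n := by
        have h2 : (tauT a A g q (tT0 : Trm I)).Λ j ik =
          (if j ∈ A then sy j (g + 1) else sy j 1 : QE I) ik := rfl
        rw [h2]
        have h3 : ∀ l : ℕ, ∃ n : ℤ, (sy j l : QE I) ik = n := by
          intro l
          rw [Finsupp.single_apply]
          by_cases h : (j, l) = ik
          · rw [if_pos h]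
            exact ⟨1, by rw [Int.cast_one]⟩
          · rw [if_neg h]
            exact ⟨0, by rw [Int.cast_zero]⟩
        by_cases hj : j ∈ A
        · rw [if_pos hj]
          exact h3 _
        · rw [if_neg hj]
          exact h3 _
      obtain ⟨n, hn⟩ := h1
      rw [hn]
      exact PI_int hp n
    have hCU : ∀ ik : I × ℕ, ik.1 ∈ A → CInt p (rpw (uS a ik.1 ik.2) (E ik)) := by
      intro ik hik
      apply CInt_rpw hp _ (uS_const a ik.1 ik.2)
      · intro β
        obtain ⟨n, hn⟩ := uS_int a ik.1 ik.2 β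
        rw [hn]
        exact PI_int hp n
      · obtain ⟨n, hn⟩ := hint ik hik
        rw [hn]
        exact PI_int hp n
    have hprod : ∀ s : Finset (I × ℕ), (∀ ik ∈ s, ik.1 ∈ A) → ∀ G : MvPowerSeries I ℚ,
        CInt p G → CInt p ((∏ ik ∈ s, rpw (uS a ik.1 ik.2) (E ik)) * G) := by
      intro s
      induction s using Finset.induction_on with
      | empty =>
        intro _ G hG
        rw [Finset.prod_empty, one_mul]
        exact hG
      | insert ik s hik ih =>
        intro hs' G hG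
        rw [Finset.prod_insert hik, mul_assoc]
        exact CInt_mul hp (hCU ik (hs' ik (Finset.mem_insert_self ik s)))
          (ih (fun jk hjk => hs' jk (Finset.mem_insert_of_mem hjk)) G hG)
    exact hprod _ (fun ik hik => not_not.mp (Finset.mem_filter.mp hik).2) M hCM γ
  · rw [TV_of_not a _ hok]
    exact ⟨0, by rw [Int.cast_zero]⟩

end

end Pool.Agent.H27.KAC
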