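import Pool.Agent.H41.KA.AN1
import Pool.Agent.H41.KA.AG14
import Pool.Agent.H46.KA.NumDefs

/-!
KAC ADE, module AN2: the structure `RTnum` (consequences of the response theorem for the numbers `cn`).

Write `c g = cn a cd A q g`, `p = invS c` (the inverse power series), `τ_s(T) = TV a (tauT a A s q T)`, `m = cd.mm A`, `q` with `QOk`.

`dual`: `Rv_n(T) = ∑_{j ≤ n} p_j τ_{n-j}(T)` for `n ≥ 1`: insert `τ_s = c(s) τ_0 + ∑_{l=1..s} c(s-l) Rv_l` (`TauFam_all`, `Resp.val`).
`annih`: for a family `Resp a cd A q K w Φ`, `m ≤ K`: evaluate at `T = tT1 a m v` at the frontier `m`.  By the kink rule the value is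
`w m * τ_m`; by `Resp.val` and `dual` it is `∑_{s ≤ m} τ_s ∑_{l=s..m} w l p_{l-s} = w m * τ_m + ∑_{l ≤ m} w l p_l` (`taus_T1`, `tau0_T1`).
So `∑_{l ≤ m} p_l w l = 0`.
`p_deg`: `annih` for `TauFam_all` with `L = m + g`, `g ≥ 1`: `∑_{l ≤ m} p_l c(m+g-l) = 0`; compare with `∑_{l ≤ m+g} p_l c(m+g-l) = 0`,
induction on `g`: `p_{m+g} = 0`.
`p_top`: `Rv_m(tT1) = τ_m + p_m` (`dual`), `Rv_m = τ_m - PPv_m`, `PPv_m = (-1)^|A| upT_m = (-1)^|A| eps τ_0` (`TV_step_split`,
`PPv_kink`, `cd.cr`).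
`rtnum`: for general `q` in the weight lattice choose `q'` congruent to `q` modulo `ℤ` with `QOk` (`exists_int_vec`), `cn_congr`,
`eps_congr`.  The last clause: `RPT` with `K = m`, `u s l = α s + κ s * l`, blocks `N`: the family of `TauFam_all` for the level `L N`,
restricted to the frontiers `≤ m` (`Resp.mono`) if `m ≤ L N`, continued by `Resp.const` if `L N < m ≤ L N + mm N - 1`; then `annih`.
-/

set_option autoImplicit false

namespace Pool.Agent.H27.KAC

open scoped BigOperators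

/-- the inverse power series, as a sequence. -/
noncomputable def invS (c : ℕ → ℚ) : ℕ → ℚ := fun n =>
  PowerSeries.coeff n (PowerSeries.mk c)⁻¹

private theorem AN2_mk_ne (c : ℕ → ℚ) (h : c 0 = 1) :
    PowerSeries.constantCoeff (PowerSeries.mk c) ≠ 0 := by
  rw [← PowerSeries.coeff_zero_eq_constantCoeff_apply, PowerSeries.coeff_mk, h]
  exact one_ne_zero

theorem invS_zero (c : ℕ → ℚ) (h : c 0 = 1) : invS c 0 = 1 := by
  unfold invS
  rw [PowerSeries.coeff_zero_eq_constantCoeff_apply, PowerSeries.constantCoeff_inv,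
    ← PowerSeries.coeff_zero_eq_constantCoeff_apply, PowerSeries.coeff_mk, h, inv_one]

theorem invS_conv (c : ℕ → ℚ) (h : c 0 = 1) (n : ℕ) (hn : 1 ≤ n) :
    ∑ i ∈ Finset.range (n + 1), invS c i * c (n - i) = 0 := by
  have h1 : (PowerSeries.mk c)⁻¹ * PowerSeries.mk c = 1 :=
    PowerSeries.inv_mul_cancel _ (AN2_mk_ne c h)
  have h2 := congrArg (PowerSeries.coeff n) h1
  rw [PowerSeries.coeff_mul, PowerSeries.coeff_one, if_neg (by omega),
    Finset.Nat.sum_antidiagonal_eq_sum_range_succ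
      (fun i j => PowerSeries.coeff i (PowerSeries.mk c)⁻¹ * PowerSeries.coeff j (PowerSeries.mk c)) n]
    at h2
  rw [← h2]
  refine Finset.sum_congr rfl fun i _ => ?_
  rw [PowerSeries.coeff_mk]
  rfl

private theorem AN2_isZ_add {x y : ℚ} (hx : IsZ x) (hy : IsZ y) : IsZ (x + y) := by
  obtain ⟨m, hm⟩ := hx
  obtain ⟨n, hn⟩ := hy
  exact ⟨m + n, by rw [hm, hn]; push_cast; rfl⟩

private theorem AN2_isZ_mul {x y : ℚ} (hx : IsZ x) (hy : IsZ y) : IsZ (x * y) := by
  obtain ⟨m, hm⟩ := hx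
  obtain ⟨n, hn⟩ := hy
  exact ⟨m * n, by rw [hm, hn]; push_cast; rfl⟩

private theorem AN2_isZ_neg {x : ℚ} (hx : IsZ x) : IsZ (-x) := by
  obtain ⟨m, hm⟩ := hx
  exact ⟨-m, by rw [hm]; push_cast; rfl⟩

private theorem AN2_isZ_sum {ι : Type} (s : Finset ι) (f : ι → ℚ) (h : ∀ i ∈ s, IsZ (f i)) :
    IsZ (∑ i ∈ s, f i) := by
  classical
  induction s using Finset.induction_on with
  | empty => exact ⟨0, by rw [Finset.sum_empty, Int.cast_zero]⟩
  | insert i s hi ih =>
    rw [Finset.sum_insert hi]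
    exact AN2_isZ_add (h i (Finset.mem_insert_self i s))
      (ih (fun j hj => h j (Finset.mem_insert_of_mem hj)))

theorem invS_int (c : ℕ → ℚ) (h : c 0 = 1) (hc : ∀ n, IsZ (c n)) (n : ℕ) : IsZ (invS c n) := by
  induction n using Nat.strong_induction_on with
  | _ n ih =>
    rcases Nat.eq_zero_or_pos n with h0 | hpos
    · rw [h0, invS_zero c h]
      exact ⟨1, by rw [Int.cast_one]⟩
    · have h1 := invS_conv c h n hpos
      rw [Finset.sum_range_succ, Nat.sub_self, h, mul_one] at h1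
      have h2 : invS c n = -∑ i ∈ Finset.range n, invS c i * c (n - i) := by linarith
      rw [h2]
      apply AN2_isZ_neg
      apply AN2_isZ_sum
      intro i hi
      exact AN2_isZ_mul (ih i (Finset.mem_range.mp hi)) (hc _)

/-- inversion of a convolution. -/
private theorem AN2_inv (c τ R : ℕ → ℚ) (h : c 0 = 1)
    (hτ : ∀ s, τ s = ∑ l ∈ Finset.range (s + 1), R l * c (s - l)) (n : ℕ) :
    R n = ∑ j ∈ Finset.range (n + 1), invS c j * τ (n - j) := by
  have h1 : PowerSeries.mk τ = PowerSeries.mk R * PowerSeries.mk c := by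
    ext s
    rw [PowerSeries.coeff_mk, PowerSeries.coeff_mul, hτ,
      Finset.Nat.sum_antidiagonal_eq_sum_range_succ
        (fun i j => PowerSeries.coeff i (PowerSeries.mk R) * PowerSeries.coeff j (PowerSeries.mk c)) s]
    refine Finset.sum_congr rfl fun i _ => ?_
    rw [PowerSeries.coeff_mk, PowerSeries.coeff_mk]
  have h2 : PowerSeries.mk R = (PowerSeries.mk c)⁻¹ * PowerSeries.mk τ := by
    rw [h1, mul_comm (PowerSeries.mk R), ← mul_assoc,
      PowerSeries.inv_mul_cancel _ (AN2_mk_ne c h), one_mul]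
  have h3 := congrArg (PowerSeries.coeff n) h2
  rw [PowerSeries.coeff_mk, PowerSeries.coeff_mul,
    Finset.Nat.sum_antidiagonal_eq_sum_range_succ
      (fun i j => PowerSeries.coeff i (PowerSeries.mk c)⁻¹ * PowerSeries.coeff j (PowerSeries.mk τ)) n]
    at h3
  rw [h3]
  refine Finset.sum_congr rfl fun i _ => ?_
  rw [PowerSeries.coeff_mk]
  rfl

section

variable {I : Type} [Fintype I] [DecidableEq I]

theorem Resp.mono {a : I → I → ℕ} {cd : CrossData a} {B : Finset I} {q : I → ℚ} {K K' : ℕ}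
    {w : ℕ → ℚ} {Φ : ℕ → FFn I} (h : Resp a cd B q K w Φ) (hK : K' ≤ K) :
    Resp a cd B q K' w Φ :=
  ⟨fun f hf => h.win f (hf.trans hK), h.a0, fun f hf1 hf => h.stp f hf1 (hf.trans hK),
    fun f hf1 hf => h.knk f hf1 (hf.trans hK)⟩

/-- a representative of the class with `QOk`. -/
theorem exists_QOk_rep (a : I → I → ℕ) (hs : ∀ i j, a i j = a j i) (A : Finset I)
    (hA : FinT a A) (q : I → ℚ) (hq : WtL a A q) :
    ∃ q' : I → ℚ, QOk a A q' ∧ ∀ x, IsZ (q x - q' x) := by
  classical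
  have hq' : ∀ x, ∃ n : ℤ, x ∈ A → cqN a A q x = n := by
    intro x
    by_cases hx : x ∈ A
    · obtain ⟨n, hn⟩ := hq x hx
      exact ⟨n, fun _ => hn⟩
    · exact ⟨0, fun h => absurd h hx⟩
  choose n hn using hq'
  obtain ⟨v, _, hv1⟩ := exists_int_vec a hs A hA (1 + ∑ x ∈ A, |n x|)
  refine ⟨fun x => q x + v x, ?_, ?_⟩
  · intro x hx
    have h1 : cqN a A (fun x => q x + (v x : ℚ)) x =
        ((n x + ∑ j ∈ A, cart a x j * v j : ℤ) : ℚ) := by
      rw [Int.cast_add, ← hn x hx]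
      unfold cqN
      rw [Int.cast_sum, ← Finset.sum_add_distrib]
      refine Finset.sum_congr rfl fun j _ => ?_
      push_cast
      ring
    have h2 := hv1 x hx
    have h3 : |n x| ≤ ∑ x ∈ A, |n x| :=
      Finset.single_le_sum (f := fun x => |n x|) (fun i _ => abs_nonneg (n i)) hx
    have h4 := neg_abs_le (n x)
    refine ⟨(n x + ∑ j ∈ A, cart a x j * v j).toNat, ?_, ?_⟩
    · have : 1 ≤ n x + ∑ j ∈ A, cart a x j * v j := by linarith
      omega
    · rw [h1]
      have h5 : (((n x + ∑ j ∈ A, cart a x j * v j).toNat : ℕ) : ℤ) =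
          n x + ∑ j ∈ A, cart a x j * v j := Int.toNat_of_nonneg (by linarith)
      exact_mod_cast h5.symm
  · intro x
    refine ⟨-v x, ?_⟩
    show q x - (q x + (v x : ℚ)) = ((-v x : ℤ) : ℚ)
    push_cast
    ring

theorem dual (a : I → I → ℕ) (hs : ∀ i j, a i j = a j i) (cd : CrossData a) (A : Finset I)
    (hA : FinT a A) (hc : ConnS a A) (q : I → ℚ) (hq : QOk a A q) (T : Trm I) (hT : RReg A T)
    (n : ℕ) (hn : 1 ≤ n) : Rv a A n q T =
      ∑ j ∈ Finset.range (n + 1), invS (cn a cd A q) j * TV a (tauT a A (n - j) q T) := by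
  have h1 := AN2_inv (cn a cd A q) (fun s => TV a (tauT a A s q T))
    (fun l => if l = 0 then TV a (tauT a A 0 q T) else Rv a A l q T) (cn_zero a cd A q) ?_ n
  · rw [if_neg (by omega)] at h1
    exact h1
  · intro s
    obtain ⟨Φ, hΦ, hΦs⟩ := TauFam_all a hs cd A hA hc q hq s
    have h2 := Resp.val hΦ s le_rfl T hT
    have h3 : evF a A (Φ s) T = TV a (tauT a A s q T) := by
      rw [hΦs, tauT_eq_patT]
      unfold evF
      rw [List.map_cons, List.map_nil, List.sum_cons, List.sum_nil, add_zero, one_mul]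
    rw [h3] at h2
    show TV a (tauT a A s q T) = _
    rw [h2, Finset.sum_range_succ', Nat.sub_zero, if_pos rfl, add_comm]
    congr 1
    · have h4 : Finset.Icc 1 s = Finset.Ico 1 (s + 1) := by
        ext x
        rw [Finset.mem_Icc, Finset.mem_Ico]
        omega
      rw [h4, Finset.sum_Ico_eq_sum_range, Nat.add_sub_cancel]
      refine Finset.sum_congr rfl fun l _ => ?_
      rw [if_neg (by omega), add_comm 1 l, mul_comm]
    · rw [mul_comm]

/-- the restart parts of the kinked test term. -/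
private theorem AN2_Rv_T1 (a : I → I → ℕ) (hs : ∀ i j, a i j = a j i) (cd : CrossData a)
    (A : Finset I) (hA : FinT a A) (hc : ConnS a A) (q : I → ℚ) (hq : QOk a A q) (v : I → ℤ)
    (hv : ∀ i, i ∉ A → v i = 0) (hv1 : ∀ x ∈ A, 1 ≤ ∑ j ∈ A, cart a x j * v j) :
    (∀ l, 1 ≤ l → l < cd.mm A → Rv a A l q (tT1 a (cd.mm A) v) = invS (cn a cd A q) l) ∧
    Rv a A (cd.mm A) q (tT1 a (cd.mm A) v) =
      TV a (tauT a A (cd.mm A) q (tT1 a (cd.mm A) v)) + invS (cn a cd A q) (cd.mm A) := by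
  have h2m := cd.two_le A
  obtain ⟨hR1, _⟩ := RReg_T1 a hs A (cd.mm A) v hv hv1
  constructor
  · intro l hl1 hl2
    rw [dual a hs cd A hA hc q hq _ hR1 l hl1, Finset.sum_range_succ, Nat.sub_self,
      tau0_T1 a hs cd A hA hc q hq v hv hv1, mul_one, Finset.sum_eq_zero, zero_add]
    intro j hj
    rw [Finset.mem_range] at hj
    rw [taus_T1 a hs cd A hA hc q hq v hv hv1 (l - j) (by omega) (by omega), mul_zero]
  · rw [dual a hs cd A hA hc q hq _ hR1 (cd.mm A) (by omega), Finset.sum_range_succ, Nat.sub_self,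
      tau0_T1 a hs cd A hA hc q hq v hv hv1, mul_one]
    congr 1
    obtain ⟨m, hm⟩ : ∃ m, cd.mm A = m + 1 := ⟨cd.mm A - 1, by omega⟩
    have h1 : ∑ j ∈ Finset.range (cd.mm A),
        invS (cn a cd A q) j * TV a (tauT a A (cd.mm A - j) q (tT1 a (cd.mm A) v)) =
        invS (cn a cd A q) 0 * TV a (tauT a A (cd.mm A - 0) q (tT1 a (cd.mm A) v)) := by
      apply Finset.sum_eq_single_of_mem 0 (Finset.mem_range.mpr (by omega))
      intro j hj hj0
      rw [Finset.mem_range] at hj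
      rw [taus_T1 a hs cd A hA hc q hq v hv hv1 (cd.mm A - j) (by omega) (by omega), mul_zero]
    rw [h1, invS_zero _ (cn_zero a cd A q), one_mul, Nat.sub_zero]

theorem annih (a : I → I → ℕ) (hs : ∀ i j, a i j = a j i) (cd : CrossData a) (A : Finset I)
    (hA : FinT a A) (hc : ConnS a A) (q : I → ℚ) (hq : QOk a A q) (K : ℕ) (hK : cd.mm A ≤ K)
    (w : ℕ → ℚ) (Φ : ℕ → FFn I) (h : Resp a cd A q K w Φ) :
    ∑ l ∈ Finset.range (cd.mm A + 1), invS (cn a cd A q) l * w l = 0 := by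
  obtain ⟨v, hv, hv1⟩ := exists_int_vec a hs A hA 1
  have h2m := cd.two_le A
  obtain ⟨hR1, hk1⟩ := RReg_T1 a hs A (cd.mm A) v hv hv1
  have hkn := h.knk (cd.mm A) (by omega) hK _ hR1 (hk1 hc.1)
  have hval := h.val (cd.mm A) hK _ hR1
  rw [tau0_T1 a hs cd A hA hc q hq v hv hv1, mul_one] at hval
  obtain ⟨m, hm⟩ : ∃ m, cd.mm A = m + 2 := ⟨cd.mm A - 2, by omega⟩
  have hRl := AN2_Rv_T1 a hs cd A hA hc q hq v hv hv1
  obtain ⟨hRl1, hRm⟩ := hRl
  have h4 : Finset.Icc 1 (cd.mm A) = Finset.Ico 1 (cd.mm A + 1) := by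
    ext x
    rw [Finset.mem_Icc, Finset.mem_Ico]
    omega
  rw [h4, Finset.sum_Ico_succ_top (by omega), hRm] at hval
  have h5 : ∑ l ∈ Finset.Ico 1 (cd.mm A), w l * Rv a A l q (tT1 a (cd.mm A) v) =
      ∑ l ∈ Finset.Ico 1 (cd.mm A), invS (cn a cd A q) l * w l := by
    refine Finset.sum_congr rfl fun l hl => ?_
    rw [Finset.mem_Ico] at hl
    rw [hRl1 l hl.1 hl.2, mul_comm]
  rw [h5, hkn] at hval
  rw [Finset.range_eq_Ico, Finset.sum_Ico_succ_top (by omega),
    Finset.sum_eq_sum_Ico_succ_bot (by omega : 0 < cd.mm A), invS_zero _ (cn_zero a cd A q), one_mul,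
    zero_add]
  linarith

theorem p_deg (a : I → I → ℕ) (hs : ∀ i j, a i j = a j i) (cd : CrossData a) (A : Finset I)
    (hA : FinT a A) (hc : ConnS a A) (q : I → ℚ) (hq : QOk a A q) (i : ℕ) (hi : cd.mm A < i) :
    invS (cn a cd A q) i = 0 := by
  induction i using Nat.strong_induction_on with
  | _ i ih =>
    obtain ⟨Φ, hΦ, _⟩ := TauFam_all a hs cd A hA hc q hq i
    have h1 := annih a hs cd A hA hc q hq i hi.le _ Φ hΦ
    have h2 := invS_conv (cn a cd A q) (cn_zero a cd A q) i (by omega)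
    rw [Finset.range_eq_Ico] at h1 h2
    rw [← Finset.sum_Ico_consecutive _ (Nat.zero_le (cd.mm A + 1))
      (by omega : cd.mm A + 1 ≤ i + 1), h1, zero_add,
      Finset.sum_Ico_succ_top (by omega), Nat.sub_self, cn_zero, mul_one,
      Finset.sum_eq_zero, zero_add] at h2
    · exact h2
    · intro j hj
      rw [Finset.mem_Ico] at hj
      rw [ih j hj.2 (by omega), zero_mul]

theorem p_top (a : I → I → ℕ) (hs : ∀ i j, a i j = a j i) (cd : CrossData a) (A : Finset I)
    (hA : FinT a A) (hc : ConnS a A) (q : I → ℚ) (hq : QOk a A q) :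
    invS (cn a cd A q) (cd.mm A) = -((-1) ^ A.card * cd.eps A q) := by
  obtain ⟨v, hv, hv1⟩ := exists_int_vec a hs A hA 1
  have h2m := cd.two_le A
  obtain ⟨hR1, hk1⟩ := RReg_T1 a hs A (cd.mm A) v hv hv1
  obtain ⟨_, hRm⟩ := AN2_Rv_T1 a hs cd A hA hc q hq v hv hv1
  have h1 := TV_step_split a hs A hA (cd.mm A) (by omega) q hq _ hR1
  have h2 := PPv_kink a hs A hA hc (cd.mm A) (by omega) q hq _ hR1 (hk1 hc.1)
  have h3 := cd.cr A hA hc (cd.mm A) q hq _ hR1 le_rfl
  rw [Nat.sub_self, tau0_T1 a hs cd A hA hc q hq v hv hv1, mul_one] at h3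
  rw [h3] at h2
  rw [hRm, h2] at h1
  linarith

/-- the families of the blocks. -/
private theorem AN2_fam (a : I → I → ℕ) (hs : ∀ i j, a i j = a j i) (cd : CrossData a)
    (N : Finset I) (hN : FinT a N) (hc : ConnS a N) (q : I → ℚ) (hq : QOk a N q) (K L : ℕ)
    (hL : K + 1 ≤ L + cd.mm N) :
    ∃ Φ : ℕ → FFn I, Resp a cd N q K (fun l => cnS a cd N q L l) Φ := by
  obtain ⟨Φ, hΦ, hΦL⟩ := TauFam_all a hs cd N hN hc q hq L
  by_cases h : K ≤ L
  · refine ⟨Φ, Resp.congr_w (hΦ.mono h) ?_⟩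
    intro l hl
    unfold cnS
    rw [if_pos (hl.trans h)]
  · refine ⟨fun f => Φ (min f L), Resp.congr_w
      (Resp.const a hs cd N q hq hN hc L K (by omega) hL _ Φ hΦ hΦL) ?_⟩
    intro l _
    unfold cnS
    rfl

theorem rtnum (a : I → I → ℕ) (hs : ∀ i j, a i j = a j i) (cd : CrossData a) : RTnum a cd := by
  constructor
  · intro A q g hA hc hq
    obtain ⟨q', hq', hqq⟩ := exists_QOk_rep a hs A hA q hq
    rw [cn_congr a cd A q q' (fun x _ => hqq x) g, ← tau_T0 a hs cd A hA hc q' hq' g]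
    exact tau_T0_int a hs A hA q' hq' g
  · intro A q hA hc hq
    obtain ⟨q', hq', hqq⟩ := exists_QOk_rep a hs A hA q hq
    have hcn : ∀ N ⊆ A, ∀ g, cn a cd N q g = cn a cd N q' g :=
      fun N _ g => cn_congr a cd N q q' (fun x _ => hqq x) g
    have hint : ∀ g, IsZ (cn a cd A q' g) := by
      intro g
      rw [← tau_T0 a hs cd A hA hc q' hq' g]
      exact tau_T0_int a hs A hA q' hq' g
    refine ⟨invS (cn a cd A q'), invS_zero _ (cn_zero a cd A q'),
      invS_int _ (cn_zero a cd A q') hint, p_deg a hs cd A hA hc q' hq', ?_, ?_, ?_⟩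
    · rw [p_top a hs cd A hA hc q' hq', cd.eps_congr A q q' (fun x _ => hqq x)]
    · intro n hn
      rw [← invS_conv (cn a cd A q') (cn_zero a cd A q') n hn]
      refine Finset.sum_congr rfl fun i _ => ?_
      rw [hcn A (Finset.Subset.refl A)]
    · intro M hM hne hMz α κ Lf hLf
      have hMz' : ∀ x ∈ M, IsZ (q' x) := by
        intro x hx
        have h1 := AN2_isZ_add (hMz x hx) (AN2_isZ_neg (hqq x))
        have h2 : q x + -(q x - q' x) = q' x := by ring
        rwa [h2] at h1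
      obtain ⟨L, hL1, _, hL3, hL4, hL5⟩ := exists_RB_list a hs (A \ M)
        (fun N w Φ => w = (fun l => cnS a cd N q' (Lf N) l) ∧ Resp a cd N q' (cd.mm A) w Φ)
        (by
          intro N hN
          have hNA : N ⊆ A := (comps_subset hN).trans Finset.sdiff_subset
          have hNfin : FinT a N := hA.mono hNA
          have hNq : QOk a N q' := by
            apply QOk_sub hs hA hq' N hNA
            intro y hy x hx hxN
            by_cases hxM : x ∈ M
            · right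
              exact hMz' x hxM
            · left
              exact comps_sep hN y hy x (Finset.mem_sdiff.mpr ⟨hx, hxM⟩) hxN
          obtain ⟨Φ, hΦ⟩ := AN2_fam a hs cd N hNfin (comps_conn hN) q' hNq (cd.mm A) (Lf N)
            (hLf N hN)
          exact ⟨_, Φ, rfl, hΦ⟩)
      obtain ⟨Φ, hΦ, _⟩ := RPT a hs cd (cd.mm A) q' (fun s l => α s + κ s * (l : ℚ)) A hA hc hq' M
        hM hne hMz' (fun x _ => ⟨α x, κ x, fun l => rfl⟩) L hL4 hL3
        (fun b hb => comps_conn (hL1 b hb).1) (fun b hb => (hL1 b hb).2.2)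
      have h1 := annih a hs cd A hA hc q' hq' (cd.mm A) le_rfl _ Φ hΦ
      rw [← h1]
      refine Finset.sum_congr rfl fun i _ => ?_
      rw [mul_assoc]
      congr 2
      have h2 : (L.map (fun b => b.w i)).prod =
          (L.map (fun b => (fun N => cnS a cd N q' (Lf N) i) b.B)).prod := by
        congr 1
        apply List.map_congr_left
        intro b hb
        rw [(hL1 b hb).2.1]
      rw [h2, hL5 (fun N => cnS a cd N q' (Lf N) i)]
      refine Finset.prod_congr rfl fun N hN => ?_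
      unfold cnS
      rw [hcn N ((comps_subset hN).trans Finset.sdiff_subset)]

theorem starPure (a : I → I → ℕ) (cd : CrossData a) : StarPure a cd := by
  intro A q g _ _ hg
  rw [cn_rec a cd A q g hg]
  refine Finset.sum_congr rfl fun M _ => ?_
  congr 1
  refine Finset.prod_congr rfl fun N _ => ?_
  unfold upw cnS
  by_cases h : cd.mm N ≤ g
  · rw [if_pos h, if_pos h]
  · rw [if_neg h, if_neg h, mul_zero]

end

end Pool.Agent.H27.KAC
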