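import Pool.Agent.H46.AH.AH30
import Pool.Agent.H88.KA.FIN

/-!
KAC ADE: the final input of the cluster calculus.
-/

set_option autoImplicit false

namespace Pool.Agent.H27.KAC

/-- the cluster calculus exists for every symmetric `a` (crossing data with nonnegative response numbers). -/
theorem allCal : Pool.Agent.H40.KADE.AllCal :=
  Pool.Agent.H46.AH.allCal_of (fun I _ _ a hs _ => by
    obtain ⟨cd, h⟩ := Pool.H88.Num.cnn_of a hs
    refine ⟨cd, fun N q g hF => ?_⟩
    obtain ⟨h1, h2, h3⟩ := (Pool.Agent.H40.KADE.FTC_iff a hs N q).1 hF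
    exact h N q g h1 h2 h3)

end Pool.Agent.H27.KAC
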